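import Pool.Agent.Lib.MP_8ce23f_nt.RR.Holo
import Pool.Agent.Lib.MP_8ce23f_nt.R2.AtIy

/-!
# The Nahm sum on the imaginary axis

As `R2/AtIy.lean`, for every rank.
-/

open Filter Topology Asymptotics
open scoped Real MatrixGroups Manifold
open UpperHalfPlane hiding I

namespace Pool.Agent.Lib.MP_8ce23f_nt.RR

open Pool.Agent.Lib.MP_8ce23f_nt.R2 (rp Asy E2 Lam LamR Xi)

variable {r : ℕ}

theorem nahmSum_tp (A : Matrix (Fin r) (Fin r) ℚ) (B : Fin r → ℚ) (C : ℚ) {t : ℝ} (ht : 0 < t) :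
    nahmSum A B C (R2.tp t ht) =
      ((Real.exp (-(C * t ^ 2)) *
        F (A.map fun x : ℚ => (x : ℝ)) (fun i => (B i : ℝ)) t : ℝ) : ℂ) := by
  unfold nahmSum F
  rw [← tsum_mul_left, Complex.ofReal_tsum]
  refine tsum_congr fun n => ?_
  rw [R2.AtIy_qPow, nahmExp_eq_ex, Finset.prod_congr rfl fun i _ => R2.AtIy_qFac (n i) ht,
    ← Complex.ofReal_prod, ← Complex.ofReal_div]
  refine congrArg _ ?_
  unfold Fterm
  rw [← mul_div_assoc, ← Real.exp_add]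
  refine congrArg (fun y => Real.exp y / _) ?_
  ring

theorem nahmSum_ne_zero {A : Matrix (Fin r) (Fin r) ℚ} (hA : A.PosDef) (B : Fin r → ℚ) (C : ℚ) :
    nahmSum A B C ≠ 0 := by
  intro h
  have h1 := nahmSum_tp A B C (t := 1) one_pos
  rw [h, Pi.zero_apply] at h1
  have h2 : (Real.exp (-(C * 1 ^ 2)) *
      F (A.map fun x : ℚ => (x : ℝ)) (fun i => (B i : ℝ)) 1 : ℝ) = 0 := by
    exact_mod_cast h1.symm
  have h3 := mul_pos (Real.exp_pos (-((C : ℝ) * 1 ^ 2)))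
    (F_pos (posDef_real hA) (fun i => (B i : ℝ)) (t := 1) one_pos)
  exact h3.ne' h2

end Pool.Agent.Lib.MP_8ce23f_nt.RR
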