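import Pool.Agent.Lib.MP_8ce23f_nt.RR.N21

/-!
# Sums of solutions of the complementarity problem

`lcp_unique`: `(z - z')·(w - w') ≤ 0` (expand, `z·w = z'·w' = 0`, the other products are `≥ 0`) and it equals
`(z - z')ᵀ A (z - z')`, so `z = z'` by positive definiteness (`qd_ge`).  `lcp_sum`: the products `(∑ a_i z_i)_k (∑ a_i w_i)_k` vanish because `I` and
`J` are disjoint.
-/

namespace Pool.Agent.Lib.MP_8ce23f_nt.RR

variable {r : ℕ}

private theorem DB1_qd (A : Matrix (Fin r) (Fin r) ℝ) (z : Fin r → ℝ) :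
    qd A z = ∑ i, z i * ∑ j, A i j * z j := by
  simp only [qd, Finset.mul_sum, mul_assoc]

theorem lcp_unique {A : Matrix (Fin r) (Fin r) ℝ} (hA : A.PosDef) {β z w z' w' : Fin r → ℝ}
    (h : IsLCP A β z w) (h' : IsLCP A β z' w') : z = z' ∧ w = w' := by
  obtain ⟨c, hc, hcz⟩ := qd_ge hA
  have h1 : ∀ i, (z - z') i * (w - w') i ≤ 0 := by
    intro i
    have e1 := h.mul i
    have e2 := h'.mul i
    have e3 := mul_nonneg (h.z0 i) (h'.w0 i)
    have e4 := mul_nonneg (h'.z0 i) (h.w0 i)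
    simp only [Pi.sub_apply]
    nlinarith
  have h2 : qd A (z - z') = ∑ i, (z - z') i * (w - w') i := by
    rw [DB1_qd]
    refine Finset.sum_congr rfl fun i _ => ?_
    have e1 := h.eq i
    have e2 := h'.eq i
    have e3 : ∑ j, A i j * (z - z') j = (w - w') i := by
      simp only [Pi.sub_apply, mul_sub, Finset.sum_sub_distrib]
      linarith
    rw [e3]
  have h3 : qd A (z - z') ≤ 0 := by
    rw [h2]
    exact Finset.sum_nonpos fun i _ => h1 i
  have h4 : ∑ i, (z - z') i ^ 2 ≤ 0 := by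
    have := hcz (z - z')
    nlinarith
  have h5 : z = z' := by
    funext i
    have h6 : (z - z') i ^ 2 ≤ ∑ j, (z - z') j ^ 2 :=
      Finset.single_le_sum (f := fun j => (z - z') j ^ 2) (fun j _ => sq_nonneg _)
        (Finset.mem_univ i)
    have h7 : (z - z') i ^ 2 = 0 := le_antisymm (h6.trans h4) (sq_nonneg _)
    have h8 : (z - z') i = 0 := by simpa using h7
    simpa [sub_eq_zero] using h8
  refine ⟨h5, ?_⟩
  funext i
  have e1 := h.eq i
  have e2 := h'.eq i
  rw [e1, e2, h5]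

theorem lcp_sum {A : Matrix (Fin r) (Fin r) ℝ} {ι : Type*} (s : Finset ι) {a : ι → ℝ}
    (ha : ∀ i ∈ s, 0 ≤ a i) {β z w : ι → Fin r → ℝ} (h : ∀ i ∈ s, IsLCP A (β i) (z i) (w i))
    {I J : Finset (Fin r)} (hIJ : Disjoint I J) (hz : ∀ i ∈ s, ∀ k, z i k ≠ 0 → k ∈ I)
    (hw : ∀ i ∈ s, ∀ k, w i k ≠ 0 → k ∈ J) :
    IsLCP A (∑ i ∈ s, a i • β i) (∑ i ∈ s, a i • z i) (∑ i ∈ s, a i • w i) := by
  have hap : ∀ (f : ι → Fin r → ℝ) (k : Fin r), (∑ i ∈ s, a i • f i) k = ∑ i ∈ s, a i * f i k := by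
    intro f k
    rw [Finset.sum_apply]
    rfl
  refine ⟨fun k => ?_, fun k => ?_, fun k => ?_, fun k => ?_⟩
  · rw [hap]
    exact Finset.sum_nonneg fun i hi => mul_nonneg (ha i hi) ((h i hi).z0 k)
  · rw [hap]
    exact Finset.sum_nonneg fun i hi => mul_nonneg (ha i hi) ((h i hi).w0 k)
  · rw [hap, hap]
    have h1 : ∀ j, A k j * (∑ i ∈ s, a i • z i) j = ∑ i ∈ s, a i * (A k j * z i j) := by
      intro j
      rw [hap, Finset.mul_sum]
      exact Finset.sum_congr rfl fun i _ => by ring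
    rw [Finset.sum_congr rfl fun j _ => h1 j, Finset.sum_comm, ← Finset.sum_add_distrib]
    refine Finset.sum_congr rfl fun i hi => ?_
    rw [(h i hi).eq k, ← Finset.mul_sum, mul_add]
  · rw [hap, hap]
    by_cases hk : k ∈ I
    · have hkJ : k ∉ J := fun hJ => Finset.disjoint_left.1 hIJ hk hJ
      have h1 : ∑ i ∈ s, a i * w i k = 0 := Finset.sum_eq_zero fun i hi => by
        have h2 : w i k = 0 := by
          by_contra hne
          exact hkJ (hw i hi k hne)
        rw [h2, mul_zero]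
      rw [h1, mul_zero]
    · have h1 : ∑ i ∈ s, a i * z i k = 0 := Finset.sum_eq_zero fun i hi => by
        have h2 : z i k = 0 := by
          by_contra hne
          exact hk (hz i hi k hne)
        rw [h2, mul_zero]
      rw [h1, zero_mul]

end Pool.Agent.Lib.MP_8ce23f_nt.RR
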