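import Mathlib

/-!
# A colour class which spans

Mathlib only.  A finite union of proper subspaces of `W` is not `W` (`Subspace.biUnion_ne_univ_of_top_notMem` or similar, applied to the
subspaces `span {v ∈ W | f v = c}` inside `W`, e.g. with `Submodule.comap W.subtype`).  Then `Submodule.exists_fun_fin_finrank_span_eq`.
-/

namespace Pool.Agent.Lib.MP_8ce23f_nt.RR

theorem exists_color {r : ℕ} {ι : Type*} [Finite ι] (W : Submodule ℝ (Fin r → ℝ))
    (f : (Fin r → ℝ) → ι) : ∃ (c : ι) (v : Fin (Module.finrank ℝ W) → Fin r → ℝ),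
      (∀ i, v i ∈ W ∧ f (v i) = c) ∧ LinearIndependent ℝ v := by
  classical
  have := Fintype.ofFinite ι
  obtain ⟨c, hc⟩ : ∃ c : ι, Submodule.span ℝ {v | v ∈ W ∧ f v = c} = W := by
    by_contra hcon
    push Not at hcon
    have h1 := Subspace.biUnion_ne_univ_of_top_notMem (k := ℝ) (E := W)
      (s := Finset.univ.image fun c : ι =>
        (Submodule.span ℝ {v | v ∈ W ∧ f v = c}).comap W.subtype) (by
          rw [Finset.mem_image]
          rintro ⟨c, -, hc⟩
          refine hcon c (le_antisymm ?_ ?_)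
          · exact Submodule.span_le.2 fun v hv => hv.1
          · intro v hv
            have h2 : (⟨v, hv⟩ : W) ∈ (Submodule.span ℝ {v | v ∈ W ∧ f v = c}).comap W.subtype := by
              rw [hc]
              exact Submodule.mem_top
            exact h2)
    apply h1
    ext v
    simp only [Set.mem_iUnion, Set.mem_univ, iff_true]
    exact ⟨_, Finset.mem_image.2 ⟨f v, Finset.mem_univ _, rfl⟩, Submodule.subset_span ⟨v.2, rfl⟩⟩
  have h3 := Submodule.exists_fun_fin_finrank_span_eq ℝ {v | v ∈ W ∧ f v = c}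
  rw [hc] at h3
  obtain ⟨v, hv, -, hli⟩ := h3
  exact ⟨c, v, hv, hli⟩

end Pool.Agent.Lib.MP_8ce23f_nt.RR
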