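import Pool.Agent.Lib.MP_8ce23f_nt.RR.DB1

/-!
# At least `d` positive coordinates

It uses the statements of DB1.  Suppose `I.card < d`.  The `z i` are supported on `I`, so there is `a ≠ 0` with `∑ a_i z_i = 0`
(more vectors than the dimension of the functions on `I`).  Let `a⁺, a⁻` be the positive and negative parts, `v⁺ = ∑ a_i⁺ v_i`, `z⁺ = ∑ a_i⁺ z_i` etc.; by
`lcp_sum` these are solutions, and `z⁺ = z⁻ =: z`; `v⁺ + v⁻` has the solution `2 z`.  `v₀ = v⁺ - v⁻ = ∑ a_i v_i ≠ 0`.  `hpar`: `4 qd z + g v₀ = 4 qd z`, so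
`g v₀ = 0`; also `g (-v₀) = g v₀` (`hpar` for `0, v₀`; `g 0 = 0`, as `0` has the solution `0, 0`).  `qd A z₀ = 0` for the solution of `v₀` (`exists_lcp`), so `z₀ = 0`, so `v₀ = w₀ ≥ 0`;
the same for `-v₀`; so `v₀ = 0`, a contradiction.
Suppose `J.card < d`: `a ≠ 0`, `∑ a_i w_i = 0`, `w⁺ = w⁻`, `ζ = z⁺ - z⁻`, `v₀ = v⁺ - v⁻ = -A ζ`; `g v₀ = 2 qd z⁺ + 2 qd z⁻ - qd (z⁺ + z⁻) = qd ζ`.  For the solution `z₀, w₀`
of `v₀`: `w₀ = A (z₀ - ζ)`, `z₀·w₀ = 0`, `qd z₀ = qd ζ`, so `qd (z₀ - ζ) = qd z₀ - 2 z₀ᵀ A ζ + qd ζ = 0`, `z₀ = ζ ≥ 0`; the same for `-v₀`: `-ζ ≥ 0`; so `ζ = 0`, `v₀ = 0`, a contradiction.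
(`A` is symmetric: `hA.isHermitian`.)
-/

namespace Pool.Agent.Lib.MP_8ce23f_nt.RR

variable {r : ℕ}

private theorem DB3_qd (A : Matrix (Fin r) (Fin r) ℝ) (z : Fin r → ℝ) : qd A z = z ⬝ᵥ A.mulVec z := by
  simp only [qd, dotProduct, Matrix.mulVec, Finset.mul_sum, mul_assoc]

private theorem DB3_par (A : Matrix (Fin r) (Fin r) ℝ) (x y : Fin r → ℝ) :
    qd A (x + y) + qd A (x - y) = 2 * qd A x + 2 * qd A y := by
  simp only [DB3_qd, Matrix.mulVec_add, Matrix.mulVec_sub, dotProduct_add, dotProduct_sub, add_dotProduct,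
    sub_dotProduct]
  ring

private theorem DB3_symm {A : Matrix (Fin r) (Fin r) ℝ} (hA : A.PosDef) (x y : Fin r → ℝ) :
    x ⬝ᵥ A.mulVec y = y ⬝ᵥ A.mulVec x := by
  have hs : ∀ i j, A j i = A i j := fun i j => by simpa using hA.isHermitian.apply i j
  simp only [dotProduct, Matrix.mulVec, Finset.mul_sum]
  rw [Finset.sum_comm]
  refine Finset.sum_congr rfl fun j _ => Finset.sum_congr rfl fun i _ => ?_
  rw [hs j i]
  ring

private theorem DB3_eq {A : Matrix (Fin r) (Fin r) ℝ} {β z w : Fin r → ℝ} (h : IsLCP A β z w) :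
    β = w - A.mulVec z := by
  funext i
  have h1 := h.eq i
  show β i = w i - ∑ j, A i j * z j
  linarith

private theorem DB3_mul {A : Matrix (Fin r) (Fin r) ℝ} {β z w : Fin r → ℝ} (h : IsLCP A β z w) : z ⬝ᵥ w = 0 :=
  Finset.sum_eq_zero fun i _ => h.mul i

private theorem DB3_zero {A : Matrix (Fin r) (Fin r) ℝ} (hA : A.PosDef) {z : Fin r → ℝ} (h : qd A z = 0) :
    z = 0 := by
  by_contra hne
  have h3 := qd_pos hA hne
  rw [h] at h3
  exact lt_irrefl _ h3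

/-- A relation between vectors which are supported on a set with fewer than `d` elements. -/
private theorem DB3_rel {d : ℕ} {x : Fin d → Fin r → ℝ} {I : Finset (Fin r)} (hx : ∀ i k, x i k ≠ 0 → k ∈ I)
    (hd : I.card < d) : ∃ a : Fin d → ℝ, ∑ i, a i • x i = 0 ∧ ∃ i, a i ≠ 0 := by
  have h1 : ¬ LinearIndependent ℝ (fun i : Fin d => fun k : I => x i k) := fun h => by
    have h2 := h.fintype_card_le_finrank
    rw [Fintype.card_fin, Module.finrank_fintype_fun_eq_card, Fintype.card_coe] at h2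
    omega
  rw [Fintype.not_linearIndependent_iff] at h1
  obtain ⟨a, ha, ha'⟩ := h1
  refine ⟨a, ?_, ha'⟩
  funext k
  by_cases hk : k ∈ I
  · have h3 := congrFun ha ⟨k, hk⟩
    rw [Finset.sum_apply] at h3 ⊢
    exact h3
  · rw [Finset.sum_apply]
    refine Finset.sum_eq_zero fun i _ => ?_
    have h4 : x i k = 0 := by
      by_contra h5
      exact hk (hx i k h5)
    rw [Pi.smul_apply, h4, smul_zero]

private theorem DB3_key {A : Matrix (Fin r) (Fin r) ℝ} {W : Submodule ℝ (Fin r → ℝ)}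
    {g : (Fin r → ℝ) → ℝ} (hpar : ∀ x ∈ W, ∀ y ∈ W, g (x + y) + g (x - y) = 2 * g x + 2 * g y)
    (hg : ∀ v ∈ W, ∀ z w, IsLCP A v z w → qd A z = g v) {d : ℕ} {v z w : Fin d → Fin r → ℝ}
    (hv : ∀ i, v i ∈ W) (h : ∀ i, IsLCP A (v i) (z i) (w i))
    {I J : Finset (Fin r)} (hIJ : Disjoint I J) (hz : ∀ i k, z i k ≠ 0 → k ∈ I)
    (hw : ∀ i k, w i k ≠ 0 → k ∈ J) (a : Fin d → ℝ) (z0 w0 : Fin r → ℝ)
    (h0 : IsLCP A (∑ i, a i • v i) z0 w0) : qd A z0 = qd A (∑ i, a i • z i) := by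
  have hp : ∀ b : Fin d → ℝ, (∀ i, 0 ≤ b i) → IsLCP A (∑ i, b i • v i) (∑ i, b i • z i) (∑ i, b i • w i) :=
    fun b hb => lcp_sum Finset.univ (fun i _ => hb i) (fun i _ => h i) hIJ (fun i _ => hz i) (fun i _ => hw i)
  have hW : ∀ b : Fin d → ℝ, ∑ i, b i • v i ∈ W := fun b => W.sum_mem fun i _ => W.smul_mem _ (hv i)
  obtain ⟨p, hpd⟩ : ∃ p : Fin d → ℝ, ∀ i, p i = max (a i) 0 := ⟨fun i => max (a i) 0, fun _ => rfl⟩
  obtain ⟨n, hnd⟩ : ∃ n : Fin d → ℝ, ∀ i, n i = max (-a i) 0 := ⟨fun i => max (-a i) 0, fun _ => rfl⟩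
  have hp0 : ∀ i, 0 ≤ p i := fun i => by
    rw [hpd]
    exact le_max_right _ _
  have hn0 : ∀ i, 0 ≤ n i := fun i => by
    rw [hnd]
    exact le_max_right _ _
  have ha : ∀ i, a i = p i - n i := fun i => by
    rw [hpd, hnd]
    rcases le_total 0 (a i) with h1 | h1
    · rw [max_eq_left h1, max_eq_right (by linarith)]
      ring
    · rw [max_eq_right h1, max_eq_left (by linarith)]
      ring
  have hs : ∀ x : Fin d → Fin r → ℝ, ∑ i, a i • x i = ∑ i, p i • x i - ∑ i, n i • x i := fun x => by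
    rw [← Finset.sum_sub_distrib]
    exact Finset.sum_congr rfl fun i _ => by rw [ha, sub_smul]
  have hs2 : ∀ x : Fin d → Fin r → ℝ, ∑ i, (p + n) i • x i = ∑ i, p i • x i + ∑ i, n i • x i := fun x => by
    rw [← Finset.sum_add_distrib]
    exact Finset.sum_congr rfl fun i _ => by rw [Pi.add_apply, add_smul]
  have h1 := hpar _ (hW p) _ (hW n)
  have h2 := hg _ (hW p) _ _ (hp p hp0)
  have h3 := hg _ (hW n) _ _ (hp n hn0)
  have h4 := hg _ (hW (p + n)) _ _ (hp (p + n) fun i => add_nonneg (hp0 i) (hn0 i))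
  rw [hs2 v, hs2 z] at h4
  have h5 := DB3_par A (∑ i, p i • z i) (∑ i, n i • z i)
  have h6 := hg _ (hW a) _ _ h0
  rw [hs v] at h6
  rw [hs z]
  linarith

private theorem DB3_v {A : Matrix (Fin r) (Fin r) ℝ} {d : ℕ} {v z w : Fin d → Fin r → ℝ}
    (h : ∀ i, IsLCP A (v i) (z i) (w i)) (a : Fin d → ℝ) :
    ∑ i, a i • v i = ∑ i, a i • w i - A.mulVec (∑ i, a i • z i) := by
  rw [Matrix.mulVec_sum, ← Finset.sum_sub_distrib]
  refine Finset.sum_congr rfl fun i _ => ?_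
  rw [Matrix.mulVec_smul, ← smul_sub, ← DB3_eq (h i)]

theorem card_ge {A : Matrix (Fin r) (Fin r) ℝ} (hA : A.PosDef) {W : Submodule ℝ (Fin r → ℝ)}
    {g : (Fin r → ℝ) → ℝ} (hpar : ∀ x ∈ W, ∀ y ∈ W, g (x + y) + g (x - y) = 2 * g x + 2 * g y)
    (hg : ∀ v ∈ W, ∀ z w, IsLCP A v z w → qd A z = g v) {d : ℕ} {v z w : Fin d → Fin r → ℝ}
    (hv : ∀ i, v i ∈ W) (hli : LinearIndependent ℝ v) (h : ∀ i, IsLCP A (v i) (z i) (w i))
    {I J : Finset (Fin r)} (hIJ : Disjoint I J) (hz : ∀ i k, z i k ≠ 0 → k ∈ I)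
    (hw : ∀ i k, w i k ≠ 0 → k ∈ J) : d ≤ I.card ∧ d ≤ J.card := by
  have hK := DB3_key hpar hg hv h hIJ hz hw
  constructor
  · by_contra hd
    obtain ⟨a, ha, i0, hi0⟩ := DB3_rel hz (not_le.1 hd)
    have hL : ∀ b : Fin d → ℝ, ∑ i, b i • z i = 0 → ∀ k, 0 ≤ (∑ i, b i • v i) k := by
      intro b hb k
      obtain ⟨z0, w0, h0⟩ := exists_lcp hA (∑ i, b i • v i)
      have h1 := hK b z0 w0 h0
      rw [hb] at h1
      have h2 : z0 = 0 := by
        refine DB3_zero hA (h1.trans ?_)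
        rw [DB3_qd, Matrix.mulVec_zero, dotProduct_zero]
      have h3 := DB3_eq h0
      rw [h2, Matrix.mulVec_zero, sub_zero] at h3
      rw [h3]
      exact h0.w0 k
    have hneg : ∀ x : Fin d → Fin r → ℝ, ∑ i, (-a) i • x i = -∑ i, a i • x i := fun x => by
      rw [← Finset.sum_neg_distrib]
      exact Finset.sum_congr rfl fun i _ => by rw [Pi.neg_apply, neg_smul]
    have h5 : ∑ i, a i • v i = 0 := by
      funext k
      have h6 := hL a ha k
      have h7 := hL (-a) (by rw [hneg, ha, neg_zero]) k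
      rw [hneg, Pi.neg_apply] at h7
      rw [Pi.zero_apply]
      linarith
    exact hi0 (Fintype.linearIndependent_iff.1 hli a h5 i0)
  · by_contra hd
    obtain ⟨a, ha, i0, hi0⟩ := DB3_rel hw (not_le.1 hd)
    have hL : ∀ b : Fin d → ℝ, ∑ i, b i • w i = 0 → ∀ k, 0 ≤ (∑ i, b i • z i) k := by
      intro b hb k
      obtain ⟨z0, w0, h0⟩ := exists_lcp hA (∑ i, b i • v i)
      have h1 := hK b z0 w0 h0
      have h2 := DB3_v h b
      rw [hb, zero_sub] at h2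
      have h3 := DB3_eq h0
      have h4 : w0 = A.mulVec z0 - A.mulVec (∑ i, b i • z i) := by
        rw [h2] at h3
        have h5 : w0 = (w0 - A.mulVec z0) + A.mulVec z0 := by rw [sub_add_cancel]
        rw [h5, ← h3]
        abel
      have h6 := DB3_mul h0
      rw [h4, dotProduct_sub] at h6
      have h7 : z0 - ∑ i, b i • z i = 0 := by
        refine DB3_zero hA ?_
        have h8 := DB3_symm hA (∑ i, b i • z i) z0
        rw [DB3_qd, DB3_qd] at h1
        rw [DB3_qd, Matrix.mulVec_sub, sub_dotProduct, dotProduct_sub, dotProduct_sub, h8]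
        linarith
      rw [← sub_eq_zero.1 h7]
      exact h0.z0 k
    have hneg : ∀ x : Fin d → Fin r → ℝ, ∑ i, (-a) i • x i = -∑ i, a i • x i := fun x => by
      rw [← Finset.sum_neg_distrib]
      exact Finset.sum_congr rfl fun i _ => by rw [Pi.neg_apply, neg_smul]
    have h5 : ∑ i, a i • z i = 0 := by
      funext k
      have h6 := hL a ha k
      have h7 := hL (-a) (by rw [hneg, ha, neg_zero]) k
      rw [hneg, Pi.neg_apply] at h7
      rw [Pi.zero_apply]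
      linarith
    have h6 : ∑ i, a i • v i = 0 := by
      rw [DB3_v h a, ha, h5, Matrix.mulVec_zero, sub_zero]
    exact hi0 (Fintype.linearIndependent_iff.1 hli a h6 i0)

end Pool.Agent.Lib.MP_8ce23f_nt.RR
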