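import Pool.Agent.Lib.MP_8ce23f_nt.RR.DB2
import Pool.Agent.Lib.MP_8ce23f_nt.RR.DB3

/-!
# A generic vector of the subspace

It uses the statements of `exists_color` (DB2) and `card_ge` (DB3).  Choose for every `v` a solution `zz v, ww v` (`exists_lcp`), colour `v` with the pair of
finsets `({0 < zz v}, {0 < ww v})`.  If `finrank W = 0` take `v = 0`.  Otherwise a member of the family of `exists_color`.
-/

namespace Pool.Agent.Lib.MP_8ce23f_nt.RR

variable {r : ℕ}

theorem exists_generic {A : Matrix (Fin r) (Fin r) ℝ} (hA : A.PosDef)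
    {W : Submodule ℝ (Fin r → ℝ)} {g : (Fin r → ℝ) → ℝ}
    (hpar : ∀ x ∈ W, ∀ y ∈ W, g (x + y) + g (x - y) = 2 * g x + 2 * g y)
    (hg : ∀ v ∈ W, ∀ z w, IsLCP A v z w → qd A z = g v) :
    ∃ v ∈ W, ∃ z w, IsLCP A v z w ∧
      Module.finrank ℝ W ≤ (Finset.univ.filter fun i => 0 < z i).card ∧
      Module.finrank ℝ W ≤ (Finset.univ.filter fun i => 0 < w i).card := by
  classical
  choose zz ww hzw using fun v : Fin r → ℝ => exists_lcp hA v
  rcases Nat.eq_zero_or_pos (Module.finrank ℝ W) with h0 | h0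
  · refine ⟨0, W.zero_mem, zz 0, ww 0, hzw 0, ?_, ?_⟩
    · rw [h0]
      exact Nat.zero_le _
    · rw [h0]
      exact Nat.zero_le _
  · obtain ⟨c, v, hv, hli⟩ := exists_color (ι := Finset (Fin r) × Finset (Fin r)) W
      (fun v => (Finset.univ.filter fun i => 0 < zz v i, Finset.univ.filter fun i => 0 < ww v i))
    have hc1 : ∀ i, (Finset.univ.filter fun k => 0 < zz (v i) k) = c.1 := fun i =>
      congrArg Prod.fst (hv i).2
    have hc2 : ∀ i, (Finset.univ.filter fun k => 0 < ww (v i) k) = c.2 := fun i =>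
      congrArg Prod.snd (hv i).2
    obtain ⟨i₀, -⟩ : ∃ i₀ : Fin (Module.finrank ℝ W), i₀ = ⟨0, h0⟩ := ⟨_, rfl⟩
    have hdis : Disjoint c.1 c.2 := by
      rw [Finset.disjoint_left]
      intro k hk1 hk2
      rw [← hc1 i₀, Finset.mem_filter] at hk1
      rw [← hc2 i₀, Finset.mem_filter] at hk2
      exact (mul_pos hk1.2 hk2.2).ne' ((hzw (v i₀)).mul k)
    have hcard := card_ge hA hpar hg (fun i => (hv i).1) hli (fun i => hzw (v i)) hdis
      (fun i k hk => by
        rw [← hc1 i, Finset.mem_filter]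
        exact ⟨Finset.mem_univ _, lt_of_le_of_ne ((hzw (v i)).z0 k) (Ne.symm hk)⟩)
      (fun i k hk => by
        rw [← hc2 i, Finset.mem_filter]
        exact ⟨Finset.mem_univ _, lt_of_le_of_ne ((hzw (v i)).w0 k) (Ne.symm hk)⟩)
    refine ⟨v i₀, (hv i₀).1, zz (v i₀), ww (v i₀), hzw (v i₀), ?_, ?_⟩
    · rw [hc1 i₀]
      exact hcard.1
    · rw [hc2 i₀]
      exact hcard.2

end Pool.Agent.Lib.MP_8ce23f_nt.RR
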