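import Pool.Agent.Lib.MP_8ce23f_nt.RR.N22

/-!
# The limit at infinity, upper bound

For `s = n ∈ ℕ` let `y_n` be the maximum point for `n β` (`exists_isSol`, `Sp_eq`), `x_n = y_n - n z`.  `ray_expand`:
`Sp A 0 = ∑ hfun (n z_i + x_{n,i}) - n ∑ x_{n,i} w_i - qd A x_n/2`, all `n x_{n,i} w_i ≥ 0` (where `w_i > 0` we have `z_i = 0`, `x_{n,i} = y_{n,i} ≥ 0`),
and `0 ≤ Sp A 0` (value at `z = 0`).  So `qd A x_n ≤ r π²/3`, `x_n` is bounded, and `n x_{n,i} w_i ≤ r π²/6`.  A subsequence of `x_n` converges to `x`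
(`tendsto_subseq_of_bounded`); `x_i = 0` where `w_i > 0`, `x_i ≥ 0` where `z_i = 0`; so `x ∈ Feas I Z`.  For `i ∈ I` bound
`hfun ≤ π²/6`, for `w_i > 0`: `hfun (x_{n,i}) → 0`, for `i ∈ Z` use continuity.
-/

open Filter Topology

namespace Pool.Agent.Lib.MP_8ce23f_nt.RR

variable {r : ℕ}

theorem limit_le {A : Matrix (Fin r) (Fin r) ℝ} (hA : A.PosDef) {β z w : Fin r → ℝ}
    (h : IsLCP A β z w)
    (hc : ∀ s : ℝ, 0 ≤ s → Sp A (fun i => s * β i) = Sp A 0 + s ^ 2 * (qd A z / 2)) :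
    ∃ x ∈ Feas (Finset.univ.filter fun i => 0 < z i)
      (Finset.univ.filter fun i => z i = 0 ∧ w i = 0),
    Sp A 0 ≤ (Finset.univ.filter fun i => 0 < z i).card * (Real.pi ^ 2 / 6) +
      obj A (Finset.univ.filter fun i => z i = 0 ∧ w i = 0) x := by
  classical
  obtain ⟨c, hc0, hcq⟩ := qd_ge hA
  choose y hy using fun n : ℕ => exists_isSol hA (fun i => (n : ℝ) * β i)
  obtain ⟨x, hx⟩ : ∃ x : ℕ → Fin r → ℝ, ∀ n i, x n i = y n i - (n : ℝ) * z i := ⟨fun n i => y n i - (n : ℝ) * z i, fun _ _ => rfl⟩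
  have key : ∀ n : ℕ, Sp A 0 = ∑ i, hfun (y n i) - (n : ℝ) * ∑ i, x n i * w i - qd A (x n) / 2 := by
    intro n
    have h1 := Sp_eq hA (hy n)
    have h2 := hc n (Nat.cast_nonneg n)
    have h3 := ray_expand hA h (n : ℝ) (x n) Finset.univ
    have h5 : ∀ i, (n : ℝ) * z i + x n i = y n i := fun i => by rw [hx]; ring
    simp only [h5] at h3
    have h6 : obj A Finset.univ (fun i => y n i) = obj A Finset.univ (y n) := rfl
    rw [h6] at h3
    linarith
  have hxw : ∀ n i, 0 ≤ x n i * w i := by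
    intro n i
    rcases eq_or_lt_of_le (h.w0 i) with hw | hw
    · rw [← hw, mul_zero]
    · have hz : z i = 0 := (mul_eq_zero.mp (h.mul i)).resolve_right hw.ne'
      rw [hx, hz, mul_zero, sub_zero]
      exact mul_nonneg ((hy n).pos i).le hw.le
  have hSp : 0 ≤ Sp A 0 := by
    have h1 := le_csSup (Sp_bddAbove hA (0 : Fin r → ℝ))
      (Set.mem_image_of_mem _ (show (0 : Fin r → ℝ) ∈ {z : Fin r → ℝ | ∀ i, 0 ≤ z i} from fun i => le_refl 0))
    have h2 : obj A Finset.univ (0 : Fin r → ℝ) - ∑ i, (0 : Fin r → ℝ) i * (0 : Fin r → ℝ) i = 0 := by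
      simp [obj, hfun_zero]
    rw [h2] at h1
    exact h1
  have hM : ∀ n, ∑ i, hfun (y n i) ≤ r * (Real.pi ^ 2 / 6) := by
    intro n
    have h1 : ∑ i, hfun (y n i) ≤ ∑ _i : Fin r, Real.pi ^ 2 / 6 :=
      Finset.sum_le_sum fun i _ => hfun_le ((hy n).pos i).le
    simpa using h1
  have hnx : ∀ n : ℕ, 0 ≤ (n : ℝ) * ∑ i, x n i * w i := fun n =>
    mul_nonneg (Nat.cast_nonneg n) (Finset.sum_nonneg fun i _ => hxw n i)
  have hq0 : ∀ v : Fin r → ℝ, 0 ≤ qd A v := fun v =>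
    (mul_nonneg hc0.le (Finset.sum_nonneg fun i _ => sq_nonneg (v i))).trans (hcq v)
  have hqd : ∀ n, qd A (x n) ≤ 2 * (r * (Real.pi ^ 2 / 6)) := by
    intro n
    have h1 := key n
    have h2 := hM n
    have h3 := hnx n
    linarith
  have hnw : ∀ n : ℕ, ∀ i, (n : ℝ) * (x n i * w i) ≤ r * (Real.pi ^ 2 / 6) := by
    intro n i
    have h1 := key n
    have h2 := hM n
    have h3 := hq0 (x n)
    have h4 : x n i * w i ≤ ∑ i, x n i * w i :=
      Finset.single_le_sum (f := fun i => x n i * w i) (fun j _ => hxw n j) (Finset.mem_univ i)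
    have h5 := mul_le_mul_of_nonneg_left h4 (Nat.cast_nonneg (α := ℝ) n)
    linarith
  have hbd : ∀ n, x n ∈ Metric.closedBall (0 : Fin r → ℝ) (1 + 2 * (r * (Real.pi ^ 2 / 6)) / c) := by
    intro n
    have hR : 0 ≤ 1 + 2 * (r * (Real.pi ^ 2 / 6)) / c := by positivity
    rw [mem_closedBall_zero_iff, pi_norm_le_iff_of_nonneg hR]
    intro i
    have h1 : x n i ^ 2 ≤ ∑ i, x n i ^ 2 :=
      Finset.single_le_sum (f := fun i => x n i ^ 2) (fun j _ => sq_nonneg _) (Finset.mem_univ i)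
    have h2 := hcq (x n)
    have h3 := hqd n
    have h4 : x n i ^ 2 ≤ 2 * (r * (Real.pi ^ 2 / 6)) / c := by
      rw [le_div_iff₀ hc0]
      have h5 := mul_le_mul_of_nonneg_left h1 hc0.le
      linarith
    rw [Real.norm_eq_abs]
    have h6 : |x n i| ≤ 1 + x n i ^ 2 := by
      rw [← sq_abs]
      nlinarith [sq_nonneg (|x n i| - 1), abs_nonneg (x n i)]
    linarith
  obtain ⟨a, -, φ, hφ, hlim⟩ := tendsto_subseq_of_bounded (Metric.isBounded_closedBall) hbd
  have hi : ∀ i, Tendsto (fun n => x (φ n) i) atTop (𝓝 (a i)) := fun i => (tendsto_pi_nhds.mp hlim) i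
  have hxy : ∀ n i, ¬ 0 < z i → x n i = y n i := by
    intro n i hz
    have hz' : z i = 0 := le_antisymm (not_lt.mp hz) (h.z0 i)
    rw [hx, hz', mul_zero, sub_zero]
  have ha0 : ∀ i, ¬ 0 < z i → 0 ≤ a i := fun i hz =>
    ge_of_tendsto' (hi i) fun n => by rw [hxy _ _ hz]; exact ((hy _).pos i).le
  have haw : ∀ i, 0 < w i → a i = 0 := by
    intro i hw
    have hz : z i = 0 := (mul_eq_zero.mp (h.mul i)).resolve_right hw.ne'
    have hz' : ¬ 0 < z i := by rw [hz]; exact lt_irrefl 0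
    refine le_antisymm ?_ (ha0 i hz')
    have h1 : Tendsto (fun n : ℕ => (r * (Real.pi ^ 2 / 6) / w i) / ((φ n : ℕ) : ℝ)) atTop (𝓝 0) :=
      tendsto_const_nhds.div_atTop (tendsto_natCast_atTop_atTop.comp hφ.tendsto_atTop)
    refine le_of_tendsto_of_tendsto (hi i) h1 ?_
    filter_upwards [eventually_ge_atTop 1] with n hn
    have h2 : 0 < ((φ n : ℕ) : ℝ) := Nat.cast_pos.mpr (lt_of_lt_of_le hn (hφ.id_le n))
    rw [le_div_iff₀ h2, le_div_iff₀ hw]
    have h3 := hnw (φ n) i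
    calc x (φ n) i * (φ n : ℝ) * w i = (φ n : ℝ) * (x (φ n) i * w i) := by ring
      _ ≤ _ := h3
  have hqc : Continuous (qd A) := by
    unfold qd
    fun_prop
  have hlq : Tendsto (fun n => qd A (x (φ n)) / 2) atTop (𝓝 (qd A a / 2)) :=
    ((hqc.tendsto a).comp hlim).div_const 2
  have hlh : ∀ i, ¬ 0 < z i → Tendsto (fun n => hfun (x (φ n) i)) atTop (𝓝 (hfun (a i))) := by
    intro i hz
    have h1 : ContinuousWithinAt hfun (Set.Ici 0) (a i) := hfun_continuousOn (a i) (ha0 i hz)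
    exact h1.tendsto.comp (tendsto_nhdsWithin_iff.mpr ⟨hi i, Eventually.of_forall fun n => by
      rw [hxy _ _ hz]; exact ((hy _).pos i).le⟩)
  refine ⟨a, ⟨?_, ?_⟩, ?_⟩
  · intro i hiZ
    rw [Finset.mem_filter] at hiZ
    exact ha0 i (by rw [hiZ.2.1]; exact lt_irrefl 0)
  · intro i hI hZ
    rw [Finset.mem_filter] at hI hZ
    have hz : z i = 0 := le_antisymm (not_lt.mp fun h1 => hI ⟨Finset.mem_univ i, h1⟩) (h.z0 i)
    refine haw i (lt_of_le_of_ne (h.w0 i) fun h1 => hZ ⟨Finset.mem_univ i, hz, h1.symm⟩)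
  · have hG : Tendsto (fun n => ((Finset.univ.filter fun i => 0 < z i).card : ℝ) * (Real.pi ^ 2 / 6) +
        (∑ i ∈ Finset.univ.filter fun i => ¬ 0 < z i, hfun (x (φ n) i) - qd A (x (φ n)) / 2)) atTop
        (𝓝 (((Finset.univ.filter fun i => 0 < z i).card : ℝ) * (Real.pi ^ 2 / 6) +
        (∑ i ∈ Finset.univ.filter fun i => ¬ 0 < z i, hfun (a i) - qd A a / 2))) := by
      refine tendsto_const_nhds.add (Tendsto.sub (tendsto_finsetSum _ fun i hz => ?_) hlq)
      rw [Finset.mem_filter] at hz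
      exact hlh i hz.2
    have hle : ∀ n, Sp A 0 ≤ ((Finset.univ.filter fun i => 0 < z i).card : ℝ) * (Real.pi ^ 2 / 6) +
        (∑ i ∈ Finset.univ.filter fun i => ¬ 0 < z i, hfun (x (φ n) i) - qd A (x (φ n)) / 2) := by
      intro n
      have h1 := key (φ n)
      have h2 := hnx (φ n)
      have h3 : ∑ i, hfun (y (φ n) i) = ∑ i ∈ Finset.univ.filter (fun i => 0 < z i), hfun (y (φ n) i) +
          ∑ i ∈ Finset.univ.filter fun i => ¬ 0 < z i, hfun (y (φ n) i) :=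
        (Finset.sum_filter_add_sum_filter_not _ _ _).symm
      have h4 : ∑ i ∈ Finset.univ.filter (fun i => 0 < z i), hfun (y (φ n) i) ≤
          ((Finset.univ.filter fun i => 0 < z i).card : ℝ) * (Real.pi ^ 2 / 6) := by
        have h5 : ∑ i ∈ Finset.univ.filter (fun i => 0 < z i), hfun (y (φ n) i) ≤
            ∑ _i ∈ Finset.univ.filter (fun i => 0 < z i), Real.pi ^ 2 / 6 :=
          Finset.sum_le_sum fun i _ => hfun_le ((hy _).pos i).le
        rw [Finset.sum_const, nsmul_eq_mul] at h5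
        exact h5
      have h6 : ∑ i ∈ Finset.univ.filter (fun i => ¬ 0 < z i), hfun (x (φ n) i) =
          ∑ i ∈ Finset.univ.filter fun i => ¬ 0 < z i, hfun (y (φ n) i) :=
        Finset.sum_congr rfl fun i hz => by
          rw [Finset.mem_filter] at hz
          rw [hxy _ _ hz.2]
      linarith
    have hfin := ge_of_tendsto' hG hle
    have h7 : ∑ i ∈ Finset.univ.filter (fun i => ¬ 0 < z i), hfun (a i) =
        ∑ i ∈ Finset.univ.filter (fun i => z i = 0 ∧ w i = 0), hfun (a i) := by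
      symm
      refine Finset.sum_subset (fun i hz => ?_) fun i hz hz' => ?_
      · rw [Finset.mem_filter] at hz ⊢
        exact ⟨hz.1, by rw [hz.2.1]; exact lt_irrefl 0⟩
      · rw [Finset.mem_filter] at hz hz'
        have hz0 : z i = 0 := le_antisymm (not_lt.mp hz.2) (h.z0 i)
        rw [haw i (lt_of_le_of_ne (h.w0 i) fun h1 => hz' ⟨Finset.mem_univ i, hz0, h1.symm⟩), hfun_zero]
    rw [h7] at hfin
    have h8 : obj A (Finset.univ.filter fun i => z i = 0 ∧ w i = 0) a =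
        ∑ i ∈ Finset.univ.filter (fun i => z i = 0 ∧ w i = 0), hfun (a i) - qd A a / 2 := by
      unfold obj qd
      ring
    rw [h8]
    exact hfin

end Pool.Agent.Lib.MP_8ce23f_nt.RR
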