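import Pool.Agent.Lib.MP_8ce23f_nt.RR.N23
import Pool.Agent.Lib.MP_8ce23f_nt.RR.N24

/-!
# Bounds for the charge

`charge A ∅ univ = 6/π² * Sp A 0` (the private lemmas `n32_feas`, `n32_charge` of `N32.lean`, or the proof in `N30.lean`).
Lower bound: `limit_ge` with `x = 0` (`hfun 0 = 0`).  Upper bound: `limit_le` gives `x` with `Sp A 0 ≤ |I| π²/6 + obj A Z x`, and `obj A Z x ≤ |Z| π²/6`
(`hfun ≤ π²/6`, `qd ≥ 0`; see `N04.lean`, `N32.lean`), and `|I| + |Z| + |{0 < w}| ≤ r` (disjoint: `h.mul`).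
-/

namespace Pool.Agent.Lib.MP_8ce23f_nt.RR

variable {r : ℕ}

private theorem DB5_feas : Feas (∅ : Finset (Fin r)) Finset.univ = {z | ∀ i, 0 ≤ z i} := by
  ext z
  simp [Feas]

private theorem DB5_charge (A : Matrix (Fin r) (Fin r) ℝ) :
    charge A ∅ Finset.univ = 6 / Real.pi ^ 2 * Sp A 0 := by
  unfold charge Sp
  rw [DB5_feas]
  congr 2
  ext t
  simp

private theorem DB5_card {β z w : Fin r → ℝ} {A : Matrix (Fin r) (Fin r) ℝ}
    (h : IsLCP A β z w) :
    (Finset.univ.filter fun i => 0 < z i).card +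
      (Finset.univ.filter fun i => z i = 0 ∧ w i = 0).card +
      (Finset.univ.filter fun i => 0 < w i).card ≤ r := by
  classical
  have d1 : Disjoint (Finset.univ.filter fun i => 0 < z i)
      (Finset.univ.filter fun i => z i = 0 ∧ w i = 0) := by
    rw [Finset.disjoint_left]
    intro i hi hi'
    exact (Finset.mem_filter.1 hi).2.ne' (Finset.mem_filter.1 hi').2.1
  have d2 : Disjoint ((Finset.univ.filter fun i => 0 < z i) ∪
      (Finset.univ.filter fun i => z i = 0 ∧ w i = 0)) (Finset.univ.filter fun i => 0 < w i) := by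
    rw [Finset.disjoint_left]
    intro i hi hi'
    have hw := (Finset.mem_filter.1 hi').2
    rcases Finset.mem_union.1 hi with h1 | h1
    · exact (mul_pos (Finset.mem_filter.1 h1).2 hw).ne' (h.mul i)
    · exact hw.ne' (Finset.mem_filter.1 h1).2.2
  rw [← Finset.card_union_of_disjoint d1, ← Finset.card_union_of_disjoint d2]
  exact (Finset.card_le_univ _).trans (by simp)

theorem charge_bounds {A : Matrix (Fin r) (Fin r) ℝ} (hA : A.PosDef) {β z w : Fin r → ℝ}
    (h : IsLCP A β z w)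
    (hc : ∀ s : ℝ, 0 ≤ s → Sp A (fun i => s * β i) = Sp A 0 + s ^ 2 * (qd A z / 2)) :
    ((Finset.univ.filter fun i => 0 < z i).card : ℝ) ≤ charge A ∅ Finset.univ ∧
      charge A ∅ Finset.univ + (Finset.univ.filter fun i => 0 < w i).card ≤ r := by
  classical
  have hpi : 0 < Real.pi ^ 2 := pow_pos Real.pi_pos 2
  have hcard := DB5_card h
  have hcard' : ((Finset.univ.filter fun i => 0 < z i).card : ℝ) +
      (Finset.univ.filter fun i => z i = 0 ∧ w i = 0).card +
      (Finset.univ.filter fun i => 0 < w i).card ≤ r := by exact_mod_cast hcard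
  rw [DB5_charge]
  have hmul : ∀ t : ℝ, 6 / Real.pi ^ 2 * (t * (Real.pi ^ 2 / 6)) = t := by
    intro t
    field_simp
  constructor
  · have h1 := limit_ge hA h hc (x := 0) ⟨fun i _ => le_rfl, fun i _ _ => rfl⟩
    have h2 : obj A (Finset.univ.filter fun i => z i = 0 ∧ w i = 0) 0 = 0 := by
      simp [obj, hfun_zero]
    rw [h2, add_zero] at h1
    have h3 := mul_le_mul_of_nonneg_left h1 (show (0 : ℝ) ≤ 6 / Real.pi ^ 2 by positivity)
    rwa [hmul] at h3
  · obtain ⟨x, hx, hle⟩ := limit_le hA h hc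
    have h1 : obj A (Finset.univ.filter fun i => z i = 0 ∧ w i = 0) x ≤
        (Finset.univ.filter fun i => z i = 0 ∧ w i = 0).card * (Real.pi ^ 2 / 6) := by
      have h2 : ∑ i ∈ Finset.univ.filter (fun i => z i = 0 ∧ w i = 0), hfun (x i) ≤
          ∑ _i ∈ Finset.univ.filter (fun i => z i = 0 ∧ w i = 0), Real.pi ^ 2 / 6 :=
        Finset.sum_le_sum fun i hi => hfun_le (hx.1 i hi)
      rw [Finset.sum_const, nsmul_eq_mul] at h2
      have h3 : 0 ≤ ∑ i, ∑ j, x i * A i j * x j := n04_qd_nonneg hA x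
      unfold obj
      linarith
    have h4 : Sp A 0 ≤ ((Finset.univ.filter fun i => 0 < z i).card +
        (Finset.univ.filter fun i => z i = 0 ∧ w i = 0).card) * (Real.pi ^ 2 / 6) := by
      rw [add_mul]
      linarith
    have h5 := mul_le_mul_of_nonneg_left h4 (show (0 : ℝ) ≤ 6 / Real.pi ^ 2 by positivity)
    rw [hmul] at h5
    linarith

end Pool.Agent.Lib.MP_8ce23f_nt.RR
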