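import Pool.Agent.Lib.MP_8ce23f_nt.RR.N06

/-!
# The maximum is a quadratic polynomial along the line

`f s = obj A univ (y s) - ∑ s v_i (y s i) = Sp A (s v)` (`Sp_eq`).  `f' = ∑ (phi y_i - (A y)_i - s v_i) y_i' - ∑ v_i y_i = -∑ v_i y_i`
(`hfun_hasDerivAt`, `A` symmetric), and `∑ v_i y_i` has constant derivative `c`, so `∑ v_i y_i(s) = c s + d`, so
`f s = f 0 - d s - c s²/2`.
-/

open Filter Topology

namespace Pool.Agent.Lib.MP_8ce23f_nt.RR

variable {r : ℕ}

/-- A function on the line whose derivative vanishes is constant. -/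
private theorem n20_const {f : ℝ → ℝ} (h : ∀ s, HasDerivAt f 0 s) (s : ℝ) : f s = f 0 :=
  is_const_of_deriv_eq_zero (fun x => (h x).differentiableAt) (fun x => (h x).deriv) s 0

/-- A function on the line with constant derivative is affine. -/
private theorem n20_affine {g : ℝ → ℝ} {c : ℝ} (h : ∀ s, HasDerivAt g c s) (s : ℝ) :
    g s = g 0 + c * s := by
  have h1 : ∀ s, HasDerivAt (fun s => g s - c * s) 0 s := by
    intro s
    have h2 := (h s).fun_sub ((hasDerivAt_id' s).const_mul c)
    rw [mul_one, sub_self] at h2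
    exact h2
  have h3 := n20_const h1 s
  simp only [mul_zero, sub_zero] at h3
  linarith

/-- The cross terms of the derivative of the quadratic form. -/
private theorem n20_cross {A : Matrix (Fin r) (Fin r) ℝ} (hA : ∀ i j, A i j = A j i)
    (y d : Fin r → ℝ) :
    ∑ i, ∑ j, (d i * A i j * y j + y i * A i j * d j) =
      2 * ∑ i, d i * ∑ j, A i j * y j := by
  have h1 : ∑ i, ∑ j, y i * A i j * d j = ∑ i, ∑ j, d i * A i j * y j := by
    rw [Finset.sum_comm]
    refine Finset.sum_congr rfl fun i _ => Finset.sum_congr rfl fun j _ => ?_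
    rw [hA j i]
    ring
  simp only [Finset.sum_add_distrib]
  rw [h1]
  have h2 : ∑ i, ∑ j, d i * A i j * y j = ∑ i, d i * ∑ j, A i j * y j := by
    refine Finset.sum_congr rfl fun i _ => ?_
    rw [Finset.mul_sum]
    refine Finset.sum_congr rfl fun j _ => ?_
    ring
  rw [h2]
  ring

/-- The derivative of the maximum along the line. -/
private theorem n20_deriv {A : Matrix (Fin r) (Fin r) ℝ} (hA : A.PosDef) {v : Fin r → ℝ}
    {y : ℝ → Fin r → ℝ} (hy : ∀ s, IsSol A (fun i => s * v i) (y s))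
    {d : Fin r → ℝ} {s : ℝ} (hd : ∀ i, HasDerivAt (fun s => y s i) (d i) s) :
    HasDerivAt (fun s => obj A Finset.univ (y s) - ∑ i, s * v i * y s i)
      (-∑ i, v i * y s i) s := by
  have hsym : ∀ i j, A i j = A j i := fun i j => by
    have h := hA.isHermitian.apply i j
    simpa using h.symm
  have h1 : HasDerivAt (fun s => ∑ i, hfun (y s i)) (∑ i, phi (y s i) * d i) s :=
    HasDerivAt.fun_sum fun i _ =>
      HasDerivAt.comp (h₂ := hfun) (h := fun s => y s i) s (hfun_hasDerivAt ((hy s).pos i)) (hd i)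
  have h2 : HasDerivAt (fun s => ∑ i, ∑ j, y s i * A i j * y s j)
      (∑ i, ∑ j, (d i * A i j * y s j + y s i * A i j * d j)) s := by
    refine HasDerivAt.fun_sum fun i _ => HasDerivAt.fun_sum fun j _ => ?_
    exact ((hd i).mul_const (A i j)).fun_mul (hd j)
  have h3 : HasDerivAt (fun s => ∑ i, s * v i * y s i)
      (∑ i, (v i * y s i + s * v i * d i)) s := by
    refine HasDerivAt.fun_sum fun i _ => ?_
    have h := ((hasDerivAt_id' s).mul_const (v i)).fun_mul (hd i)
    rw [one_mul] at h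
    exact h
  have h4 := (h1.fun_sub (h2.const_mul (1 / 2))).fun_sub h3
  have h5 : (∑ i, phi (y s i) * d i -
      1 / 2 * (∑ i, ∑ j, (d i * A i j * y s j + y s i * A i j * d j))) -
      ∑ i, (v i * y s i + s * v i * d i) = -∑ i, v i * y s i := by
    rw [n20_cross hsym]
    have h6 : ∑ i, phi (y s i) * d i =
        ∑ i, s * v i * d i + ∑ i, d i * ∑ j, A i j * y s j := by
      rw [← Finset.sum_add_distrib]
      refine Finset.sum_congr rfl fun i _ => ?_
      rw [(hy s).eq i]
      ring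
    rw [h6, Finset.sum_add_distrib]
    ring
  rw [h5] at h4
  exact h4

theorem quadratic {A : Matrix (Fin r) (Fin r) ℝ} (hA : A.PosDef) {v : Fin r → ℝ}
    {y : ℝ → Fin r → ℝ} (hy : ∀ s, IsSol A (fun i => s * v i) (y s))
    (han : ∀ i s, AnalyticAt ℝ (fun s => y s i) s) {c : ℝ}
    (hc : ∀ s, ∑ i, v i * deriv (fun s => y s i) s = c) :
    ∃ c₁ c₂ : ℝ, ∀ s, Sp A (fun i => s * v i) = Sp A 0 + c₁ * s + c₂ * s ^ 2 := by
  have hd : ∀ i s, HasDerivAt (fun s => y s i) (deriv (fun s => y s i) s) s := fun i s =>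
    (han i s).differentiableAt.hasDerivAt
  have hg : ∀ s, HasDerivAt (fun s => ∑ i, v i * y s i) c s := by
    intro s
    have h : HasDerivAt (fun s => ∑ i, v i * y s i)
        (∑ i, v i * deriv (fun s => y s i) s) s :=
      HasDerivAt.fun_sum fun i _ => (hd i s).const_mul (v i)
    rw [hc s] at h
    exact h
  have hg' := n20_affine hg
  have hf : ∀ s, HasDerivAt (fun s => obj A Finset.univ (y s) - ∑ i, s * v i * y s i)
      (-∑ i, v i * y s i) s := fun s => n20_deriv hA hy fun i => hd i s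
  have hF : ∀ s, HasDerivAt (fun s => (obj A Finset.univ (y s) - ∑ i, s * v i * y s i) +
      ((∑ i, v i * y 0 i) * s + c / 2 * s ^ 2)) 0 s := by
    intro s
    have h1 := ((hasDerivAt_id' s).const_mul (∑ i, v i * y 0 i)).fun_add
      ((hasDerivAt_pow 2 s).const_mul (c / 2))
    have h2 := (hf s).fun_add h1
    have h3 : (-∑ i, v i * y s i) + ((∑ i, v i * y 0 i) * 1 +
        c / 2 * (((2 : ℕ) : ℝ) * s ^ (2 - 1))) = 0 := by
      rw [hg' s]
      norm_num
      ring
    rw [h3] at h2
    exact h2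
  refine ⟨-∑ i, v i * y 0 i, -(c / 2), fun s => ?_⟩
  have h4 := n20_const hF s
  have h5 : Sp A (fun i => s * v i) = obj A Finset.univ (y s) - ∑ i, s * v i * y s i :=
    Sp_eq hA (hy s)
  have h6 : Sp A 0 = obj A Finset.univ (y 0) - ∑ i, (0 : ℝ) * v i * y 0 i := by
    have h7 := Sp_eq hA (hy 0)
    have h8 : (fun i => (0 : ℝ) * v i) = (0 : Fin r → ℝ) := by
      funext i
      simp
    rw [h8] at h7
    exact h7
  rw [h5, h6]
  simp only [mul_zero, add_zero, ne_eq, OfNat.ofNat_ne_zero, not_false_eq_true, zero_pow] at h4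
  linarith

end Pool.Agent.Lib.MP_8ce23f_nt.RR
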