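import Pool.Agent.Lib.MP_8ce23f_nt.RR.N22

/-!
# The linear term of a quadratic growth vanishes

`lin_zero`: along a line on which the maximum is a polynomial of degree at most two it is even (`ray_const`).
`sum_eq_zero`: `Sp A (s v) ≥ Sp A 0 - s ∑ v_i y_i`, where `y` is the maximiser at `0`, for both signs
of `s`, so `∑ v_i y_i = 0`.  `prod_eq_one`: the same as a multiplicative relation.
-/

namespace Pool.Agent.Lib.MP_8ce23f_nt.RR

variable {r : ℕ}

/-- Along a direction of quadratic growth the linear term vanishes. -/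
theorem lin_zero {A : Matrix (Fin r) (Fin r) ℝ} (hA : A.PosDef) {v : Fin r → ℝ} {c₁ c₂ : ℝ}
    (hq : ∀ s, Sp A (fun i => s * v i) = Sp A 0 + c₁ * s + c₂ * s ^ 2) : c₁ = 0 := by
  obtain ⟨z, w, h⟩ := exists_lcp hA v
  have h1 := ray_const hA h hq zero_le_one
  have h2 := ray_const hA h hq zero_le_two
  have e1 := hq 1
  have e2 := hq 2
  rw [e1] at h1
  rw [e2] at h2
  linarith

/-- The saddle point is orthogonal to a direction of quadratic growth. -/
theorem sum_eq_zero {A : Matrix (Fin r) (Fin r) ℝ} (hA : A.PosDef) {v : Fin r → ℝ} {c : ℝ}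
    (hq : ∀ s, Sp A (fun i => s * v i) = Sp A 0 + c * s ^ 2) {y : Fin r → ℝ} (hy : IsSol A 0 y) :
    ∑ i, v i * y i = 0 := by
  have hS0 : Sp A 0 = obj A Finset.univ y - ∑ i, (0 : Fin r → ℝ) i * y i := Sp_eq hA hy
  have hz : ∑ i, (0 : Fin r → ℝ) i * y i = 0 := Finset.sum_eq_zero fun i _ => by
    rw [Pi.zero_apply, zero_mul]
  have key : ∀ s : ℝ, 0 ≤ s * (∑ i, v i * y i) + c * s ^ 2 := by
    intro s
    have h1 : obj A Finset.univ y - ∑ i, s * v i * y i ≤ Sp A (fun i => s * v i) :=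
      le_csSup (Sp_bddAbove hA fun i => s * v i) ⟨y, fun i => (hy.pos i).le, rfl⟩
    have h2 : ∑ i, s * v i * y i = s * ∑ i, v i * y i := by
      rw [Finset.mul_sum]
      exact Finset.sum_congr rfl fun i _ => by ring
    rw [hq s, hS0, hz, h2] at h1
    linarith
  by_contra hm
  set m : ℝ := ∑ i, v i * y i with hm'
  have hK : 0 < |c| + 1 := by positivity
  have h3 := key (-(m / (2 * (|c| + 1))))
  have hm2 : 0 < m ^ 2 := by positivity
  have h4 : -(m / (2 * (|c| + 1))) * m + c * (-(m / (2 * (|c| + 1)))) ^ 2 =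
      m ^ 2 * (c - 2 * (|c| + 1)) / (4 * (|c| + 1) ^ 2) := by
    field_simp
    ring
  rw [h4] at h3
  have h5 : c - 2 * (|c| + 1) < 0 := by
    have := le_abs_self c
    linarith
  have h6 : m ^ 2 * (c - 2 * (|c| + 1)) / (4 * (|c| + 1) ^ 2) < 0 :=
    div_neg_of_neg_of_pos (mul_neg_of_pos_of_neg hm2 h5) (by positivity)
  linarith

/-- The solution of Nahm's equations as a saddle point. -/
theorem isSol_of_isNahm {A : Matrix (Fin r) (Fin r) ℝ} {Q : Fin r → ℝ} (hQ : IsNahm A Q) :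
    IsSol A 0 fun i => -Real.log (Q i) := by
  refine ⟨fun i => ?_, fun i => ?_⟩
  · have h1 := Real.log_neg (hQ i).1 (hQ i).2.1
    linarith
  · have h1 : phi (-Real.log (Q i)) = -Real.log (1 - Q i) := by
      unfold phi
      rw [neg_neg, Real.exp_log (hQ i).1]
    rw [h1, (hQ i).2.2, Real.log_prod fun j _ => (Real.rpow_pos_of_pos (hQ j).1 _).ne',
      Pi.zero_apply, zero_add, ← Finset.sum_neg_distrib]
    refine Finset.sum_congr rfl fun j _ => ?_
    rw [Real.log_rpow (hQ j).1]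
    ring

/-- The multiplicative relation between the `Q_i`. -/
theorem prod_eq_one {A : Matrix (Fin r) (Fin r) ℝ} (hA : A.PosDef) {v : Fin r → ℤ}
    (hv : FlatDir A v) {Q : Fin r → ℝ} (hQ : IsNahm A Q) : ∏ i, Q i ^ v i = 1 := by
  obtain ⟨c, hc⟩ := hv
  have h1 := sum_eq_zero hA (v := fun i => (v i : ℝ)) hc (isSol_of_isNahm hQ)
  have h2 : Real.log (∏ i, Q i ^ v i) = 0 := by
    rw [Real.log_prod fun i _ => (zpow_pos (hQ i).1 _).ne']
    have h3 : ∑ i, Real.log (Q i ^ v i) = -∑ i, (v i : ℝ) * -Real.log (Q i) := by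
      rw [← Finset.sum_neg_distrib]
      refine Finset.sum_congr rfl fun i _ => ?_
      rw [Real.log_zpow]
      ring
    rw [h3, h1, neg_zero]
  exact Real.eq_one_of_pos_of_log_eq_zero (Finset.prod_pos fun i _ => zpow_pos (hQ i).1 _) h2

end Pool.Agent.Lib.MP_8ce23f_nt.RR
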