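import Pool.Agent.Lib.MP_8ce23f_nt.RR.N19
import Pool.Agent.Lib.MP_8ce23f_nt.RR.N20
import Pool.Agent.Lib.MP_8ce23f_nt.RR.N36

/-!
# The growth along a flat direction, with the constant

`const_speed2`: copy the proof of `const_speed` (`N19.lean`); at the end the constant is `-(∑ v_i coeff 0 (tay ..))`, and `n19_euler` for `k = 0` with
`hU` gives `∑ v_i coeff 0 (tay ..) = 2 V_1(v)` (as a complex number), so its real part.  `quadratic2`: the proof of `quadratic` (`N20.lean`)
gives the constants explicitly.  `growth_flat`: `exists_path`, then `lin_zero` for the linear term.  `qd_flat`: `ray_const` at `s = 1`.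
(Copy private lemmas under new names with the leaf name.)
-/

namespace Pool.Agent.Lib.MP_8ce23f_nt.RR

variable {r : ℕ}

private theorem DB6_euler {V : ℕ → P r} (hV : ∀ k, (V k).IsHomogeneous (k + 1)) (v : Fin r → ℝ)
    (k : ℕ) :
    ∑ i, (v i : ℂ) * PowerSeries.coeff k
      (PowerSeries.map (MvPolynomial.eval (vC v)) (Uu V i)) =
      ((k : ℂ) + 1) * ((k : ℂ) + 2) * MvPolynomial.eval (vC v) (V (k + 1)) := by
  have h1 := congrArg (MvPolynomial.eval (vC v)) (hV (k + 1)).sum_X_mul_pderiv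
  rw [map_sum, map_nsmul, nsmul_eq_mul] at h1
  simp only [map_mul, MvPolynomial.eval_X] at h1
  have h2 : ∀ i, (v i : ℂ) * PowerSeries.coeff k
      (PowerSeries.map (MvPolynomial.eval (vC v)) (Uu V i)) =
      ((k : ℂ) + 1) * (vC v i * MvPolynomial.eval (vC v)
        (MvPolynomial.pderiv i (V (k + 1)))) := by
    intro i
    rw [PowerSeries.coeff_map, Uu, PowerSeries.coeff_mk, map_mul, map_add, map_natCast, map_one]
    simp only [vC]
    ring
  rw [Finset.sum_congr rfl fun i _ => h2 i, ← Finset.mul_sum, h1]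
  push_cast
  ring

private theorem DB6_init {A : Matrix (Fin r) (Fin r) ℝ} (hA : A.PosDef) {Q : Fin r → ℝ}
    (h0 : ∀ i, 0 < Q i) (hQ : IsSol A 0 fun i => -Real.log (Q i)) {v : Fin r → ℝ}
    {y : ℝ → Fin r → ℝ} (hy : ∀ s, IsSol A (fun i => s * v i) (y s)) (i : Fin r) :
    Real.exp (-(y 0 i)) = Q i := by
  have h1 : IsSol A 0 (y 0) := by
    have h2 := hy 0
    have h3 : (fun i => (0 : ℝ) * v i) = 0 := by
      funext i
      simp
    rwa [h3] at h2
  have h4 := IsSol.unique hA h1 hQ
  rw [h4, neg_neg, Real.exp_log (h0 i)]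

private theorem DB6_const_speed {A : Matrix (Fin r) (Fin r) ℝ} (hA : A.PosDef) {Q : Fin r → ℝ}
    (h0 : ∀ i, 0 < Q i) (hQ : IsSol A 0 fun i => -Real.log (Q i)) {V : ℕ → P r}
    {q : Fin r → PowerSeries (P r)} (h : IsTop (toC A) (vC Q) V q)
    (hd : (Jm (toC A) (vC Q)).det ≠ 0) {v : Fin r → ℝ}
    (hv : ∀ k, 2 ≤ k → MvPolynomial.eval (vC v) (V k) = 0)
    {y : ℝ → Fin r → ℝ} (hy : ∀ s, IsSol A (fun i => s * v i) (y s))
    (han : ∀ i s, AnalyticAt ℝ (fun s => y s i) s) :
    ∀ s, ∑ i, v i * deriv (fun s => y s i) s = -(2 * (MvPolynomial.eval (vC v) (V 1)).re) := by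
  have hs1 := h.sym.map (MvPolynomial.eval (vC v))
  have hs2 := (path_isSym hy han).map (Complex.ofRealHom)
  have hs1' : IsSym (fun i j => (A i j : ℂ)) (fun i => (Q i : ℂ)) (fun i => (v i : ℂ))
      (fun i => PowerSeries.map (MvPolynomial.eval (vC v)) (q i))
      (fun i => PowerSeries.map (MvPolynomial.eval (vC v)) (Uu V i)) := by
    have e1 : (fun i j => MvPolynomial.eval (vC v) (MvPolynomial.C (toC A i j) : P r)) =
        (fun i j => (A i j : ℂ)) := by
      funext i j
      rw [MvPolynomial.eval_C]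
      rfl
    have e2 : (fun i => MvPolynomial.eval (vC v) (MvPolynomial.C (vC Q i) : P r)) =
        (fun i => (Q i : ℂ)) := by
      funext i
      rw [MvPolynomial.eval_C]
      rfl
    have e3 : (fun i => MvPolynomial.eval (vC v) (MvPolynomial.X i : P r)) =
        (fun i => (v i : ℂ)) := by
      funext i
      rw [MvPolynomial.eval_X]
      rfl
    rw [e1, e2, e3] at hs1
    exact hs1
  have hs2' : IsSym (fun i j => (A i j : ℂ)) (fun i => (Q i : ℂ)) (fun i => (v i : ℂ))
      (fun i => PowerSeries.map Complex.ofRealHom (tay fun s => Real.exp (-(y s i))))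
      (fun i => PowerSeries.map Complex.ofRealHom
        (tay fun s => -(deriv (fun s => y s i) s))) := by
    have e2 : (fun i => Complex.ofRealHom (Real.exp (-(y 0 i)))) = (fun i => (Q i : ℂ)) := by
      funext i
      rw [DB6_init hA h0 hQ hy i]
      rfl
    rw [e2] at hs2
    exact hs2
  have hu : IsUnit (Jm (fun i j => (A i j : ℂ)) (fun i => (Q i : ℂ)) :
      Matrix (Fin r) (Fin r) ℂ).det := isUnit_iff_ne_zero.2 hd
  have hU := (IsSym.unique hu hs1' hs2').2
  have hcoef : ∀ k, 1 ≤ k → ∑ i, v i * PowerSeries.coeff k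
      (tay fun s => -(deriv (fun s => y s i) s)) = 0 := by
    intro k hk
    have h1 := DB6_euler h.hom v k
    rw [hv (k + 1) (by omega), mul_zero] at h1
    have h2 : ∀ i, PowerSeries.coeff k
        (PowerSeries.map (MvPolynomial.eval (vC v)) (Uu V i)) =
        ((PowerSeries.coeff k (tay fun s => -(deriv (fun s => y s i) s)) : ℝ) : ℂ) := by
      intro i
      rw [congrFun hU i, PowerSeries.coeff_map]
      rfl
    have h3 : ((∑ i, v i * PowerSeries.coeff k
        (tay fun s => -(deriv (fun s => y s i) s)) : ℝ) : ℂ) = 0 := by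
      rw [Complex.ofReal_sum, ← h1]
      refine Finset.sum_congr rfl fun i _ => ?_
      rw [h2 i, Complex.ofReal_mul]
    exact_mod_cast h3
  have hder : ∀ i s, AnalyticAt ℝ (fun s => -(deriv (fun s => y s i) s)) s := fun i s =>
    ((han i s).deriv).neg
  have hg : ∀ s, AnalyticAt ℝ (fun s => ∑ i, v i * -(deriv (fun s => y s i) s)) s := by
    intro s
    refine Finset.analyticAt_fun_sum _ fun i _ => ?_
    exact analyticAt_const.mul (hder i s)
  have htay : tay (fun s => ∑ i, v i * -(deriv (fun s => y s i) s)) =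
      PowerSeries.C (∑ i, v i * PowerSeries.coeff 0
        (tay fun s => -(deriv (fun s => y s i) s))) := by
    have hm : ∀ i ∈ (Finset.univ : Finset (Fin r)),
        AnalyticAt ℝ ((fun i s => v i * -(deriv (fun s => y s i) s)) i) 0 := fun i _ =>
      analyticAt_const.mul (hder i 0)
    rw [tay_sum Finset.univ (f := fun i s => v i * -(deriv (fun s => y s i) s)) hm]
    rw [Finset.sum_congr rfl fun i _ => tay_smul (hder i 0) (v i)]
    ext k
    rw [map_sum]
    simp only [PowerSeries.coeff_C_mul]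
    rcases Nat.eq_zero_or_pos k with hk | hk
    · subst hk
      rw [PowerSeries.coeff_C, if_pos rfl]
    · rw [PowerSeries.coeff_C, if_neg (by omega)]
      exact hcoef k hk
  have hR : ∑ i, v i * PowerSeries.coeff 0 (tay fun s => -(deriv (fun s => y s i) s)) =
      2 * (MvPolynomial.eval (vC v) (V 1)).re := by
    have h1 := DB6_euler h.hom v 0
    have h2 : ∀ i, PowerSeries.coeff 0
        (PowerSeries.map (MvPolynomial.eval (vC v)) (Uu V i)) =
        ((PowerSeries.coeff 0 (tay fun s => -(deriv (fun s => y s i) s)) : ℝ) : ℂ) := by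
      intro i
      rw [congrFun hU i, PowerSeries.coeff_map]
      rfl
    have h3 : ((∑ i, v i * PowerSeries.coeff 0
        (tay fun s => -(deriv (fun s => y s i) s)) : ℝ) : ℂ) =
        (((0 : ℕ) : ℂ) + 1) * (((0 : ℕ) : ℂ) + 2) * MvPolynomial.eval (vC v) (V (0 + 1)) := by
      rw [Complex.ofReal_sum, ← h1]
      refine Finset.sum_congr rfl fun i _ => ?_
      rw [h2 i, Complex.ofReal_mul]
    have h4 := congrArg Complex.re h3
    rw [Complex.ofReal_re] at h4
    rw [h4]
    simp
  intro s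
  rw [← hR, ← tay_eq_const hg htay s, ← Finset.sum_neg_distrib]
  refine Finset.sum_congr rfl fun i _ => ?_
  ring

/-- A function on the line whose derivative vanishes is constant. -/
private theorem DB6_const {f : ℝ → ℝ} (h : ∀ s, HasDerivAt f 0 s) (s : ℝ) : f s = f 0 :=
  is_const_of_deriv_eq_zero (fun x => (h x).differentiableAt) (fun x => (h x).deriv) s 0

/-- A function on the line with constant derivative is affine. -/
private theorem DB6_affine {g : ℝ → ℝ} {c : ℝ} (h : ∀ s, HasDerivAt g c s) (s : ℝ) :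
    g s = g 0 + c * s := by
  have h1 : ∀ s, HasDerivAt (fun s => g s - c * s) 0 s := by
    intro s
    have h2 := (h s).fun_sub ((hasDerivAt_id' s).const_mul c)
    rw [mul_one, sub_self] at h2
    exact h2
  have h3 := DB6_const h1 s
  simp only [mul_zero, sub_zero] at h3
  linarith

/-- The cross terms of the derivative of the quadratic form. -/
private theorem DB6_cross {A : Matrix (Fin r) (Fin r) ℝ} (hA : ∀ i j, A i j = A j i)
    (y d : Fin r → ℝ) :
    ∑ i, ∑ j, (d i * A i j * y j + y i * A i j * d j) =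
      2 * ∑ i, d i * ∑ j, A i j * y j := by
  have h1 : ∑ i, ∑ j, y i * A i j * d j = ∑ i, ∑ j, d i * A i j * y j := by
    rw [Finset.sum_comm]
    refine Finset.sum_congr rfl fun i _ => Finset.sum_congr rfl fun j _ => ?_
    rw [hA j i]
    ring
  simp only [Finset.sum_add_distrib]
  rw [h1]
  have h2 : ∑ i, ∑ j, d i * A i j * y j = ∑ i, d i * ∑ j, A i j * y j := by
    refine Finset.sum_congr rfl fun i _ => ?_
    rw [Finset.mul_sum]
    refine Finset.sum_congr rfl fun j _ => ?_
    ring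
  rw [h2]
  ring

/-- The derivative of the maximum along the line. -/
private theorem DB6_deriv {A : Matrix (Fin r) (Fin r) ℝ} (hA : A.PosDef) {v : Fin r → ℝ}
    {y : ℝ → Fin r → ℝ} (hy : ∀ s, IsSol A (fun i => s * v i) (y s))
    {d : Fin r → ℝ} {s : ℝ} (hd : ∀ i, HasDerivAt (fun s => y s i) (d i) s) :
    HasDerivAt (fun s => obj A Finset.univ (y s) - ∑ i, s * v i * y s i)
      (-∑ i, v i * y s i) s := by
  have hsym : ∀ i j, A i j = A j i := fun i j => by
    have h := hA.isHermitian.apply i j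
    simpa using h.symm
  have h1 : HasDerivAt (fun s => ∑ i, hfun (y s i)) (∑ i, phi (y s i) * d i) s :=
    HasDerivAt.fun_sum fun i _ =>
      HasDerivAt.comp (h₂ := hfun) (h := fun s => y s i) s (hfun_hasDerivAt ((hy s).pos i)) (hd i)
  have h2 : HasDerivAt (fun s => ∑ i, ∑ j, y s i * A i j * y s j)
      (∑ i, ∑ j, (d i * A i j * y s j + y s i * A i j * d j)) s := by
    refine HasDerivAt.fun_sum fun i _ => HasDerivAt.fun_sum fun j _ => ?_
    exact ((hd i).mul_const (A i j)).fun_mul (hd j)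
  have h3 : HasDerivAt (fun s => ∑ i, s * v i * y s i)
      (∑ i, (v i * y s i + s * v i * d i)) s := by
    refine HasDerivAt.fun_sum fun i _ => ?_
    have h := ((hasDerivAt_id' s).mul_const (v i)).fun_mul (hd i)
    rw [one_mul] at h
    exact h
  have h4 := (h1.fun_sub (h2.const_mul (1 / 2))).fun_sub h3
  have h5 : (∑ i, phi (y s i) * d i -
      1 / 2 * (∑ i, ∑ j, (d i * A i j * y s j + y s i * A i j * d j))) -
      ∑ i, (v i * y s i + s * v i * d i) = -∑ i, v i * y s i := by
    rw [DB6_cross hsym]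
    have h6 : ∑ i, phi (y s i) * d i =
        ∑ i, s * v i * d i + ∑ i, d i * ∑ j, A i j * y s j := by
      rw [← Finset.sum_add_distrib]
      refine Finset.sum_congr rfl fun i _ => ?_
      rw [(hy s).eq i]
      ring
    rw [h6, Finset.sum_add_distrib]
    ring
  rw [h5] at h4
  exact h4

private theorem DB6_quadratic {A : Matrix (Fin r) (Fin r) ℝ} (hA : A.PosDef) {v : Fin r → ℝ}
    {y : ℝ → Fin r → ℝ} (hy : ∀ s, IsSol A (fun i => s * v i) (y s))
    (han : ∀ i s, AnalyticAt ℝ (fun s => y s i) s) {c : ℝ}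
    (hc : ∀ s, ∑ i, v i * deriv (fun s => y s i) s = c) :
    ∃ c₁ : ℝ, ∀ s, Sp A (fun i => s * v i) = Sp A 0 + c₁ * s + -(c / 2) * s ^ 2 := by
  have hd : ∀ i s, HasDerivAt (fun s => y s i) (deriv (fun s => y s i) s) s := fun i s =>
    (han i s).differentiableAt.hasDerivAt
  have hg : ∀ s, HasDerivAt (fun s => ∑ i, v i * y s i) c s := by
    intro s
    have h : HasDerivAt (fun s => ∑ i, v i * y s i)
        (∑ i, v i * deriv (fun s => y s i) s) s :=
      HasDerivAt.fun_sum fun i _ => (hd i s).const_mul (v i)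
    rw [hc s] at h
    exact h
  have hg' := DB6_affine hg
  have hf : ∀ s, HasDerivAt (fun s => obj A Finset.univ (y s) - ∑ i, s * v i * y s i)
      (-∑ i, v i * y s i) s := fun s => DB6_deriv hA hy fun i => hd i s
  have hF : ∀ s, HasDerivAt (fun s => (obj A Finset.univ (y s) - ∑ i, s * v i * y s i) +
      ((∑ i, v i * y 0 i) * s + c / 2 * s ^ 2)) 0 s := by
    intro s
    have h1 := ((hasDerivAt_id' s).const_mul (∑ i, v i * y 0 i)).fun_add
      ((hasDerivAt_pow 2 s).const_mul (c / 2))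
    have h2 := (hf s).fun_add h1
    have h3 : (-∑ i, v i * y s i) + ((∑ i, v i * y 0 i) * 1 +
        c / 2 * (((2 : ℕ) : ℝ) * s ^ (2 - 1))) = 0 := by
      rw [hg' s]
      norm_num
      ring
    rw [h3] at h2
    exact h2
  refine ⟨-∑ i, v i * y 0 i, fun s => ?_⟩
  have h4 := DB6_const hF s
  have h5 : Sp A (fun i => s * v i) = obj A Finset.univ (y s) - ∑ i, s * v i * y s i :=
    Sp_eq hA (hy s)
  have h6 : Sp A 0 = obj A Finset.univ (y 0) - ∑ i, (0 : ℝ) * v i * y 0 i := by
    have h7 := Sp_eq hA (hy 0)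
    have h8 : (fun i => (0 : ℝ) * v i) = (0 : Fin r → ℝ) := by
      funext i
      simp
    rw [h8] at h7
    exact h7
  rw [h5, h6]
  simp only [mul_zero, add_zero, ne_eq, OfNat.ofNat_ne_zero, not_false_eq_true, zero_pow] at h4
  linarith

theorem growth_flat {A : Matrix (Fin r) (Fin r) ℝ} (hA : A.PosDef) {Q : Fin r → ℝ}
    (h0 : ∀ i, 0 < Q i) (hQ : IsSol A 0 fun i => -Real.log (Q i)) {V : ℕ → P r}
    {q : Fin r → PowerSeries (P r)} (h : IsTop (toC A) (vC Q) V q)
    (hd : (Jm (toC A) (vC Q)).det ≠ 0) {v : Fin r → ℝ}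
    (hv : ∀ k, 2 ≤ k → MvPolynomial.eval (vC v) (V k) = 0) (s : ℝ) :
    Sp A (fun i => s * v i) = Sp A 0 + (MvPolynomial.eval (vC v) (V 1)).re * s ^ 2 := by
  obtain ⟨y, hy, han⟩ := exists_path hA v
  have hc := DB6_const_speed hA h0 hQ h hd hv hy han
  obtain ⟨c₁, hc₁⟩ := DB6_quadratic hA hy han hc
  have h1 := lin_zero hA hc₁
  rw [hc₁ s, h1]
  ring

theorem qd_flat {A : Matrix (Fin r) (Fin r) ℝ} (hA : A.PosDef) {Q : Fin r → ℝ}
    (h0 : ∀ i, 0 < Q i) (hQ : IsSol A 0 fun i => -Real.log (Q i)) {V : ℕ → P r}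
    {q : Fin r → PowerSeries (P r)} (h : IsTop (toC A) (vC Q) V q)
    (hd : (Jm (toC A) (vC Q)).det ≠ 0) {v : Fin r → ℝ}
    (hv : ∀ k, 2 ≤ k → MvPolynomial.eval (vC v) (V k) = 0) {z w : Fin r → ℝ}
    (hl : IsLCP A v z w) : qd A z = 2 * (MvPolynomial.eval (vC v) (V 1)).re := by
  have h1 : ∀ s, Sp A (fun i => s * v i) =
      Sp A 0 + 0 * s + (MvPolynomial.eval (vC v) (V 1)).re * s ^ 2 := fun s => by
    rw [growth_flat hA h0 hQ h hd hv s]
    ring
  have h2 := ray_const hA hl h1 zero_le_one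
  rw [h1 1] at h2
  linarith

end Pool.Agent.Lib.MP_8ce23f_nt.RR
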