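import Pool.Agent.Lib.MP_8ce23f_nt.RR.NDefs

/-!
# The parallelogram law for a quadratic form

For example: `eval x p = ∑ (coefficients) x_i x_j` over the support; every monomial of degree `2` is `X_i X_j`, or use
`MvPolynomial.induction_on'`-style induction for the submodule of homogeneous polynomials of degree 2 (`MvPolynomial.homogeneousSubmodule`), or
the polynomial `u ↦ eval (x + u y) p` of degree `≤ 2` at `u = ± 1`.
-/

namespace Pool.Agent.Lib.MP_8ce23f_nt.RR

theorem parallelogram {r : ℕ} {p : P r} (hp : p.IsHomogeneous 2) (x y : Fin r → ℂ) :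
    MvPolynomial.eval (x + y) p + MvPolynomial.eval (x - y) p =
      2 * MvPolynomial.eval x p + 2 * MvPolynomial.eval y p := by
  have h1 : ∀ i, (MvPolynomial.pderiv i p).IsHomogeneous 1 := fun i => hp.pderiv
  have h2 : ∀ i j, (MvPolynomial.pderiv j (MvPolynomial.pderiv i p)).IsHomogeneous 0 := fun i j =>
    (h1 i).pderiv
  have h3 : ∀ i j, MvPolynomial.pderiv j (MvPolynomial.pderiv i p) =
      MvPolynomial.C (MvPolynomial.coeff 0 (MvPolynomial.pderiv j (MvPolynomial.pderiv i p))) :=
    fun i j => MvPolynomial.totalDegree_eq_zero_iff_eq_C.mp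
      (Nat.le_zero.mp (h2 i j).totalDegree_le)
  have hE : ∀ z : Fin r → ℂ, 2 * MvPolynomial.eval z p = ∑ i, ∑ j, z i * (z j *
      MvPolynomial.coeff 0 (MvPolynomial.pderiv j (MvPolynomial.pderiv i p))) := by
    intro z
    have h4 := congrArg (MvPolynomial.eval z) hp.sum_X_mul_pderiv
    rw [map_sum, map_nsmul, nsmul_eq_mul, Nat.cast_ofNat] at h4
    rw [← h4]
    refine Finset.sum_congr rfl fun i _ => ?_
    have h5 := congrArg (MvPolynomial.eval z) (h1 i).sum_X_mul_pderiv
    rw [map_sum, one_smul] at h5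
    rw [map_mul, MvPolynomial.eval_X, ← h5, Finset.mul_sum]
    refine Finset.sum_congr rfl fun j _ => ?_
    rw [map_mul, MvPolynomial.eval_X]
    conv_lhs => rw [h3 i j, MvPolynomial.eval_C]
  have h6 : 2 * (MvPolynomial.eval (x + y) p + MvPolynomial.eval (x - y) p) =
      2 * (2 * MvPolynomial.eval x p + 2 * MvPolynomial.eval y p) := by
    rw [mul_add, mul_add, hE, hE, hE, hE]
    rw [← Finset.sum_add_distrib, Finset.mul_sum, Finset.mul_sum, ← Finset.sum_add_distrib]
    refine Finset.sum_congr rfl fun i _ => ?_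
    rw [← Finset.sum_add_distrib, Finset.mul_sum, Finset.mul_sum, ← Finset.sum_add_distrib]
    refine Finset.sum_congr rfl fun j _ => ?_
    simp only [Pi.add_apply, Pi.sub_apply]
    ring
  exact mul_left_cancel₀ two_ne_zero h6

end Pool.Agent.Lib.MP_8ce23f_nt.RR
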