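import Pool.Agent.Lib.MP_8ce23f_nt.RR.DB4
import Pool.Agent.Lib.MP_8ce23f_nt.RR.DB5
import Pool.Agent.Lib.MP_8ce23f_nt.RR.DB6
import Pool.Agent.Lib.MP_8ce23f_nt.RR.DB7

/-!
# The dimension of a flat subspace is bounded by the effective central charge
-/

namespace Pool.Agent.Lib.MP_8ce23f_nt.RR

variable {r : ℕ}

/-- A subspace on which the top forms of order at least two vanish has dimension `d` with
`d ≤ c ≤ r - d`, where `c` is the effective central charge. -/
theorem dim_le {A : Matrix (Fin r) (Fin r) ℝ} (hA : A.PosDef) {Q : Fin r → ℝ}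
    (h0 : ∀ i, 0 < Q i) (hQ : IsSol A 0 fun i => -Real.log (Q i)) {V : ℕ → P r}
    {q : Fin r → PowerSeries (P r)} (h : IsTop (toC A) (vC Q) V q)
    (hd : (Jm (toC A) (vC Q)).det ≠ 0) {W : Submodule ℝ (Fin r → ℝ)}
    (hW : ∀ v ∈ W, ∀ k, 2 ≤ k → MvPolynomial.eval (vC v) (V k) = 0) :
    (Module.finrank ℝ W : ℝ) ≤ charge A ∅ Finset.univ ∧
      charge A ∅ Finset.univ + Module.finrank ℝ W ≤ r := by
  obtain ⟨v, hv, z, w, hl, h1, h2⟩ := exists_generic hA (W := W)
    (g := fun v => 2 * (MvPolynomial.eval (vC v) (V 1)).re)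
    (fun x _ y _ => by
      have h3 := congrArg Complex.re (parallelogram (h.hom 1) (vC x) (vC y))
      have e1 : vC (x + y) = vC x + vC y := by
        funext i
        simp [vC]
      have e2 : vC (x - y) = vC x - vC y := by
        funext i
        simp [vC]
      simp only [Complex.add_re, Complex.mul_re, Complex.re_ofNat, Complex.im_ofNat, zero_mul,
        sub_zero] at h3
      rw [e1, e2]
      linarith)
    (fun v hv z w hl => qd_flat hA h0 hQ h hd (hW v hv) hl)
  obtain ⟨h3, h4⟩ := charge_bounds hA hl fun s _ => by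
    rw [growth_flat hA h0 hQ h hd (hW v hv) s, qd_flat hA h0 hQ h hd (hW v hv) hl]
    ring
  have h1' : (Module.finrank ℝ W : ℝ) ≤ ((Finset.univ.filter fun i => 0 < z i).card : ℝ) := by
    exact_mod_cast h1
  have h2' : (Module.finrank ℝ W : ℝ) ≤ ((Finset.univ.filter fun i => 0 < w i).card : ℝ) := by
    exact_mod_cast h2
  exact ⟨h1'.trans h3, by linarith⟩

end Pool.Agent.Lib.MP_8ce23f_nt.RR
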