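import Mathlib

/-!
# The symbol system
-/

namespace Pool.Agent.Lib.MP_8ce23f_nt.RR

/-- Polynomials in `r` variables over `ℂ`. -/
abbrev P (r : ℕ) : Type := MvPolynomial (Fin r) ℂ

/-- The symbol system: `q_i' = q_i u_i` and `q_i u_i + (1 - q_i) (∑_j A_ij u_j - b_i) = 0`,
`q_i(0) = Q_i`. -/
structure IsSym {R : Type*} [CommRing R] {r : ℕ} (A : Matrix (Fin r) (Fin r) R) (Q b : Fin r → R)
    (q u : Fin r → PowerSeries R) : Prop where
  q0 : ∀ i, PowerSeries.constantCoeff (q i) = Q i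
  dq : ∀ i, PowerSeries.derivative R (q i) = q i * u i
  lin : ∀ i, q i * u i +
    (1 - q i) * (∑ j, PowerSeries.C (A i j) * u j - PowerSeries.C (b i)) = 0

/-- `U_i = ∑_{k ≥ 0} (k+1) τ^k ∂_i V_{k+1}`. -/
noncomputable def Uu {r : ℕ} (V : ℕ → P r) (i : Fin r) : PowerSeries (P r) :=
  PowerSeries.mk fun k => ((k : P r) + 1) * MvPolynomial.pderiv i (V (k + 1))

/-- `M_ij = ∑_{k ≥ 0} τ^k ∂_i ∂_j V_{k+1}`. -/
noncomputable def Mm {r : ℕ} (V : ℕ → P r) (i j : Fin r) : PowerSeries (P r) :=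
  PowerSeries.mk fun k => MvPolynomial.pderiv i (MvPolynomial.pderiv j (V (k + 1)))

/-- The Jacobian matrix `diag(q) + diag(1-q) A`. -/
noncomputable def Jm {R : Type*} [CommRing R] {r : ℕ} (A : Matrix (Fin r) (Fin r) R)
    (q : Fin r → R) : Matrix (Fin r) (Fin r) R :=
  Matrix.of fun i j => (if i = j then q i else 0) + (1 - q i) * A i j

/-- Top forms: `V_k` is homogeneous of degree `k + 1`, and the `V_k` satisfy the symbol system and
its linearisation. -/
structure IsTop {r : ℕ} (A : Matrix (Fin r) (Fin r) ℂ) (Q : Fin r → ℂ) (V : ℕ → P r)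
    (q : Fin r → PowerSeries (P r)) : Prop where
  hom : ∀ k, (V k).IsHomogeneous (k + 1)
  sym : IsSym (fun i j => (MvPolynomial.C (A i j) : P r)) (fun i => MvPolynomial.C (Q i))
    (fun i => MvPolynomial.X i) q (Uu V)
  mm : ∀ i j, q i * Mm V i j + (1 - q i) *
    (∑ l, PowerSeries.C (MvPolynomial.C (A i l)) * Mm V l j -
      PowerSeries.C (if i = j then 1 else 0)) = 0

end Pool.Agent.Lib.MP_8ce23f_nt.RR
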