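import Pool.Agent.Lib.MP_8ce23f_nt.R2.Defs
import Pool.Agent.Lib.MP_8ce23f_nt.Defs
import Pool.Agent.Lib.MP_8ce23f_nt.RR.Sym

/-!
# Nahm sums of every rank: definitions used in the proof

The definitions of `R2/Defs.lean`, for every rank `r` (the functions of one variable `rp`, `Lam`,
`LamR`, `Xi`, and `Asy`, `E2`, are those of `R2/Defs.lean`).
-/

open Filter Topology Asymptotics
open scoped Real

namespace Pool.Agent.Lib.MP_8ce23f_nt.RR

open Pool.Agent.Lib.MP_8ce23f_nt.R2 (rp Asy E2 Lam LamR Xi)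

variable {r : ℕ}

/-- The exponent `(1/2) nᵀ A n + Bᵀ n`. -/
noncomputable def nex (A : Matrix (Fin r) (Fin r) ℝ) (B : Fin r → ℝ) (n : Fin r → ℝ) : ℝ :=
  (∑ i, ∑ j, n i * A i j * n j) / 2 + ∑ i, B i * n i

/-- The term of the Nahm sum at `q = exp (-t²)`. -/
noncomputable def Fterm (A : Matrix (Fin r) (Fin r) ℝ) (B : Fin r → ℝ) (t : ℝ)
    (n : Fin r → ℕ) : ℝ :=
  Real.exp (-(t ^ 2 * nex A B fun i => (n i : ℝ))) / ∏ i, rp (Real.exp (-t ^ 2)) (n i)

/-- The Nahm sum of `A` and `B` at `q = exp (-t²)`. -/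
noncomputable def F (A : Matrix (Fin r) (Fin r) ℝ) (B : Fin r → ℝ) (t : ℝ) : ℝ :=
  ∑' n : Fin r → ℕ, Fterm A B t n

/-- Solutions of Nahm's equation. -/
structure NahmSol (A : Matrix (Fin r) (Fin r) ℝ) (Q : Fin r → ℝ) : Prop where
  pos : ∀ i, 0 < Q i
  lt : ∀ i, Q i < 1
  eq : ∀ i, Real.log (1 - Q i) = ∑ j, A i j * Real.log (Q j)

/-- All `Q_i` are in `(0, 1)`. -/
def InUnit (Q : Fin r → ℝ) : Prop := ∀ i, 0 < Q i ∧ Q i < 1

theorem NahmSol.inUnit {A : Matrix (Fin r) (Fin r) ℝ} {Q : Fin r → ℝ} (h : NahmSol A Q) :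
    InUnit Q := fun i => ⟨h.pos i, h.lt i⟩

/-- The shift of the variables by `v`. -/
noncomputable def sh (v : Fin r → ℂ) : P r →ₐ[ℂ] P r :=
  MvPolynomial.aeval fun i => MvPolynomial.X i + MvPolynomial.C (v i)

/-- Evaluation at a real point. -/
noncomputable def ev (w : Fin r → ℝ) : P r →+* ℂ := MvPolynomial.eval fun i => (w i : ℂ)

/-- `1 + |w₁| + ⋯ + |w_r|`. -/
noncomputable def nb (w : Fin r → ℝ) : ℝ := 1 + ∑ i, |w i|

/-- `|w|² / 2`. -/
noncomputable def hs (w : Fin r → ℝ) : ℝ := (∑ i, w i ^ 2) / 2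

/-- The components of `L w`. -/
noncomputable def Lw (L : Matrix (Fin r) (Fin r) ℝ) (w : Fin r → ℝ) (i : Fin r) : ℝ :=
  ∑ j, L i j * w j

/-- `κ = Lᵀ (-log Q)`. -/
noncomputable def kap (L : Matrix (Fin r) (Fin r) ℝ) (Q : Fin r → ℝ) (j : Fin r) : ℝ :=
  -∑ i, L i j * Real.log (Q i)

/-- `s = L⁻¹ B`. -/
noncomputable def sv (L : Matrix (Fin r) (Fin r) ℝ) (B : Fin r → ℝ) (j : Fin r) : ℝ :=
  ∑ i, L⁻¹ j i * B i

/-- The integrand. -/
noncomputable def g (L : Matrix (Fin r) (Fin r) ℝ) (Q : Fin r → ℝ) (t : ℝ) (w : Fin r → ℝ) : ℂ :=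
  Complex.exp (-(hs w : ℝ) - ((∑ i, w i * kap L Q i) / t : ℝ) * Complex.I +
    ∑ i, Xi (1 - Q i) (Lw L w i) t)

/-- The quadratic form in the exponent. -/
noncomputable def qf (L : Matrix (Fin r) (Fin r) ℝ) (Q : Fin r → ℝ) (w : Fin r → ℝ) : ℝ :=
  hs w + (∑ i, (1 - Q i) / Q i * Lw L w i ^ 2) / 2

/-- The normalising factor, which does not depend on `B`. -/
noncomputable def Nf (L : Matrix (Fin r) (Fin r) ℝ) (Q : Fin r → ℝ) (t : ℝ) : ℝ :=
  Real.exp (-((∑ i, kap L Q i ^ 2) / (2 * t ^ 2)) - ∑ i, LamR (1 - Q i) t)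

/-- `F` times the normalising factor, times `∏ Q_i^{-B_i}`. -/
noncomputable def FN (A L : Matrix (Fin r) (Fin r) ℝ) (Q : Fin r → ℝ) (B : Fin r → ℝ) (t : ℝ) : ℝ :=
  F A B t * Nf L Q t * Real.exp (-∑ i, B i * Real.log (Q i))

/-- Expansions in powers of `t` with polynomial coefficients and polynomially bounded errors. -/
def PolyExp (f : ℝ → (Fin r → ℝ) → ℂ) (N : ℕ) (p : ℕ → P r) : Prop :=
  ∃ (M : ℕ) (C : ℝ), ∀ t ∈ Set.Ioc (0 : ℝ) 1, ∀ w : Fin r → ℝ,
    ‖f t w - ∑ k ∈ Finset.range N, (t : ℂ) ^ k * ev w (p k)‖ ≤ C * t ^ N * nb w ^ M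

/-- A real matrix as a complex matrix. -/
def Am (A : Matrix (Fin r) (Fin r) ℝ) : Matrix (Fin r) (Fin r) ℂ := A.map fun x : ℝ => (x : ℂ)

/-- The vector of the `Q`'s as a complex vector. -/
def Qv (Q : Fin r → ℝ) : Fin r → ℂ := fun i => (Q i : ℂ)

/-- The formal functional equation for the asymptotic series. -/
def IsFE (A : Matrix (Fin r) (Fin r) ℂ) (Q : Fin r → ℂ) (Γ : PowerSeries (P r)) : Prop :=
  ∀ i : Fin r, Γ =
    PowerSeries.C (MvPolynomial.C (Q i)) *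
      PowerSeries.map (sh (Pi.single i 1) : P r →+* P r) Γ +
    PowerSeries.C (MvPolynomial.C (1 - Q i)) *
      E2 (-(MvPolynomial.X i + MvPolynomial.C (A i i / 2)) : P r) *
      PowerSeries.map (sh (A i) : P r →+* P r) Γ

/-- The nondegeneracy condition. -/
def Nondeg (A : Matrix (Fin r) (Fin r) ℂ) (Q : Fin r → ℂ) : Prop := (Jm A Q).det ≠ 0

/-- The logarithmic derivative data, in the variable `t`. -/
structure TD (A : Matrix (Fin r) (Fin r) ℂ) (Q : Fin r → ℂ) (L : PowerSeries (P r))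
    (R S : Fin r → PowerSeries (P r)) : Prop where
  L0 : PowerSeries.constantCoeff L = 0
  R0 : ∀ i, PowerSeries.constantCoeff (R i) = 1
  S0 : ∀ i, PowerSeries.constantCoeff (S i) = 1
  Rθ : ∀ i, PowerSeries.X * PowerSeries.derivative (P r) (R i) =
    R i * (PowerSeries.map (sh (Pi.single i 1) : P r →+* P r) L - L)
  Sθ : ∀ i, PowerSeries.X * PowerSeries.derivative (P r) (S i) =
    S i * (PowerSeries.map (sh (A i) : P r →+* P r) L - L -
      2 * PowerSeries.X ^ 2 *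
        PowerSeries.C (MvPolynomial.X i + MvPolynomial.C (A i i / 2) : P r))
  fe : ∀ i, PowerSeries.C (MvPolynomial.C (Q i)) * R i +
    PowerSeries.C (MvPolynomial.C (1 - Q i)) * S i = 1

/-- The logarithmic derivative data, in the variable `ε = t²`; the polynomial `D k` is the
coefficient of `ε^k` of the logarithm of the asymptotic series. -/
structure FD (A : Matrix (Fin r) (Fin r) ℂ) (Q : Fin r → ℂ) (D : ℕ → P r)
    (R S : Fin r → PowerSeries (P r)) : Prop where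
  deg : ∀ k : ℕ, 1 ≤ k → (D k).totalDegree ≤ k + 1
  R0 : ∀ i, PowerSeries.constantCoeff (R i) = 1
  S0 : ∀ i, PowerSeries.constantCoeff (S i) = 1
  Rdeg : ∀ (i : Fin r) (k : ℕ), (PowerSeries.coeff k (R i)).totalDegree ≤ k
  Sdeg : ∀ (i : Fin r) (k : ℕ), (PowerSeries.coeff k (S i)).totalDegree ≤ k
  Rθ : ∀ (i : Fin r) (k : ℕ), (k : P r) * PowerSeries.coeff k (R i) =
    ∑ p ∈ Finset.HasAntidiagonal.antidiagonal k, ((p.1 : P r) *
      (sh (Pi.single i 1) (D p.1) - D p.1)) * PowerSeries.coeff p.2 (R i)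
  Sθ : ∀ (i : Fin r) (k : ℕ), (k : P r) * PowerSeries.coeff k (S i) =
    ∑ p ∈ Finset.HasAntidiagonal.antidiagonal k, ((p.1 : P r) * (sh (A i) (D p.1) - D p.1) -
      if p.1 = 1 then MvPolynomial.X i + MvPolynomial.C (A i i / 2) else 0) *
      PowerSeries.coeff p.2 (S i)
  fe : ∀ i, PowerSeries.C (MvPolynomial.C (Q i)) * R i +
    PowerSeries.C (MvPolynomial.C (1 - Q i)) * S i = 1

/-- The top homogeneous part of `D k`. -/
noncomputable def V (D : ℕ → P r) (k : ℕ) : P r :=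
  MvPolynomial.homogeneousComponent (k + 1) (D k)

end Pool.Agent.Lib.MP_8ce23f_nt.RR
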