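import Pool.Agent.Lib.MP_8ce23f_nt.RR.Hom

/-!
# The degree lemma

If `totalDegree D ≤ n + 1`, all components of `sh v D - D` of degree `k > n` vanish
(`hom_shift₁`), and the one of degree `n` is `∑ l, v l ∂_l (hom_{n+1} D)`.
-/

open Filter Topology Asymptotics MeasureTheory
open scoped Real

namespace Pool.Agent.Lib.MP_8ce23f_nt.RR

open Pool.Agent.Lib.MP_8ce23f_nt.R2 (rp Asy E2 Lam LamR Xi)

variable {r : ℕ}

/-- The total degree in terms of homogeneous components. -/
theorem degree_td_le_iff (p : P r) (n : ℕ) :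
    p.totalDegree ≤ n ↔ ∀ k, n < k → MvPolynomial.homogeneousComponent k p = 0 := by
  constructor
  · intro h k hk
    exact MvPolynomial.homogeneousComponent_eq_zero _ _ (lt_of_le_of_lt h hk)
  · intro h
    rw [MvPolynomial.totalDegree, Finset.sup_le_iff]
    intro m hm
    by_contra hcon
    have h1 : (m.sum fun _ e => e) = m.degree := rfl
    have h2 := h m.degree (by rw [← h1]; omega)
    have h3 : MvPolynomial.coeff m (MvPolynomial.homogeneousComponent m.degree p) = 0 := by
      rw [h2, MvPolynomial.coeff_zero]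
    rw [MvPolynomial.coeff_homogeneousComponent, if_pos rfl] at h3
    exact (MvPolynomial.mem_support_iff.1 hm) h3

theorem totalDegree_sh_sub_le (v : Fin r → ℂ) {D : P r} {n : ℕ} (h : D.totalDegree ≤ n + 1) :
    (sh v D - D).totalDegree ≤ n := by
  rw [degree_td_le_iff]
  intro k hk
  rw [hom_shift₁ (p := D) (k := k) (by omega) v,
    MvPolynomial.homogeneousComponent_eq_zero _ _ (show D.totalDegree < k + 1 by omega)]
  simp

theorem totalDegree_sh_sub_le' (v : Fin r → ℂ) {D : P r} (h : D.totalDegree = 0) :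
    sh v D - D = 0 := by
  rw [MvPolynomial.totalDegree_eq_zero_iff_eq_C] at h
  rw [h, show sh v (MvPolynomial.C (D.coeff 0)) = MvPolynomial.C (D.coeff 0) from
    MvPolynomial.aeval_C _ _, sub_self]

/-- The component of degree `n` of the operators. -/
theorem degree_comp (A : Matrix (Fin r) (Fin r) ℂ) (Q : Fin r → ℂ) {D : P r} {n : ℕ}
    (hD : D.totalDegree ≤ n + 1) (i : Fin r) :
    MvPolynomial.homogeneousComponent n
      (MvPolynomial.C (Q i) * (sh (Pi.single i 1) D - D) +
        MvPolynomial.C (1 - Q i) * (sh (A i) D - D)) =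
      ∑ l, MvPolynomial.C (Jm A Q i l) *
        MvPolynomial.pderiv l (MvPolynomial.homogeneousComponent (n + 1) D) := by
  rw [map_add, MvPolynomial.homogeneousComponent_C_mul, MvPolynomial.homogeneousComponent_C_mul,
    hom_shift₁ hD, hom_shift₁ hD, Finset.mul_sum, Finset.mul_sum, ← Finset.sum_add_distrib]
  refine Finset.sum_congr rfl fun l _ => ?_
  have h1 : Jm A Q i l = Q i * (Pi.single i (1 : ℂ) : Fin r → ℂ) l + (1 - Q i) * A i l := by
    rw [Jm, Matrix.of_apply, Pi.single_apply]
    by_cases hil : i = l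
    · rw [if_pos hil, if_pos hil.symm, mul_one]
    · rw [if_neg hil, if_neg (fun h => hil h.symm), mul_zero]
  rw [h1, map_add, map_mul, map_mul]
  ring

/-- The descent step. -/
theorem degree_step {A : Matrix (Fin r) (Fin r) ℂ} {Q : Fin r → ℂ} (hnd : Nondeg A Q) {D : P r}
    {n : ℕ} (hD : D.totalDegree ≤ n + 1)
    (h : ∀ i : Fin r, MvPolynomial.homogeneousComponent n
      (MvPolynomial.C (Q i) * (sh (Pi.single i 1) D - D) +
        MvPolynomial.C (1 - Q i) * (sh (A i) D - D)) = 0) :
    D.totalDegree ≤ n := by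
  set H := MvPolynomial.homogeneousComponent (n + 1) D with hH
  set M : Matrix (Fin r) (Fin r) (P r) := (Jm A Q).map (MvPolynomial.C : ℂ →+* P r) with hM
  have h1 : M.mulVec (fun l => MvPolynomial.pderiv l H) = 0 := by
    funext i
    have h2 := h i
    rw [degree_comp A Q hD i] at h2
    exact h2
  have hdet : M.det = MvPolynomial.C (Jm A Q).det := by
    rw [hM]
    exact (RingHom.map_det (MvPolynomial.C : ℂ →+* P r) (Jm A Q)).symm
  have h3 : M.det • (fun l => MvPolynomial.pderiv l H) = 0 := by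
    have h4 : (M.adjugate * M).mulVec (fun l => MvPolynomial.pderiv l H) = 0 := by
      rw [← Matrix.mulVec_mulVec, h1, Matrix.mulVec_zero]
    rw [Matrix.adjugate_mul, Matrix.smul_mulVec, Matrix.one_mulVec] at h4
    exact h4
  have h5 : ∀ l, MvPolynomial.pderiv l H = 0 := by
    intro l
    have h6 := congrFun h3 l
    rw [Pi.smul_apply, Pi.zero_apply, smul_eq_mul, hdet] at h6
    rcases mul_eq_zero.1 h6 with h7 | h7
    · exact absurd ((map_eq_zero_iff _ (MvPolynomial.C_injective _ _)).1 h7) hnd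
    · exact h7
  have h8 : H = 0 := by
    apply MvPolynomial.funext
    intro β
    have h9 := euler_hom (MvPolynomial.homogeneousComponent_isHomogeneous (n + 1) D) β
    rw [← hH] at h9
    simp only [h5, map_zero, mul_zero, Finset.sum_const_zero] at h9
    have h10 : ((n + 1 : ℕ) : ℂ) ≠ 0 := by exact_mod_cast Nat.succ_ne_zero n
    rw [map_zero]
    exact (mul_eq_zero.1 h9.symm).resolve_left h10
  rw [degree_td_le_iff]
  intro k hk
  rcases Nat.lt_or_ge (n + 1) k with h2 | h2
  · exact MvPolynomial.homogeneousComponent_eq_zero _ _ (lt_of_le_of_lt hD h2)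
  · have : k = n + 1 := by omega
    rw [this]
    exact h8

theorem degree_lemma {A : Matrix (Fin r) (Fin r) ℂ} {Q : Fin r → ℂ} (hnd : Nondeg A Q) {D : P r}
    {m : ℕ} (h : ∀ i : Fin r, (MvPolynomial.C (Q i) * (sh (Pi.single i 1) D - D) +
      MvPolynomial.C (1 - Q i) * (sh (A i) D - D)).totalDegree ≤ m) :
    D.totalDegree ≤ m + 1 := by
  by_contra hcon
  obtain ⟨n, hn⟩ : ∃ n, D.totalDegree = n + 1 := ⟨D.totalDegree - 1, by omega⟩
  have h1 := degree_step hnd (D := D) (n := n) hn.le (fun i =>
    (degree_td_le_iff _ m).1 (h i) n (by omega))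
  omega

theorem degree_lemma_zero {A : Matrix (Fin r) (Fin r) ℂ} {Q : Fin r → ℂ} (hnd : Nondeg A Q)
    {D : P r} (h : ∀ i : Fin r, MvPolynomial.C (Q i) * (sh (Pi.single i 1) D - D) +
      MvPolynomial.C (1 - Q i) * (sh (A i) D - D) = 0) :
    D.totalDegree = 0 := by
  by_contra hcon
  obtain ⟨n, hn⟩ : ∃ n, D.totalDegree = n + 1 := ⟨D.totalDegree - 1, by omega⟩
  have h1 := degree_step hnd (D := D) (n := n) hn.le (fun i => by rw [h i, map_zero])
  omega

end Pool.Agent.Lib.MP_8ce23f_nt.RR
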