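import Pool.Agent.Lib.MP_8ce23f_nt.RR.Defs
import Pool.Agent.Lib.MP_8ce23f_nt.R2.Exact

/-!
# Cholesky factor, Gaussian integral, exponent

`A = L Lᵀ`, the Gaussian integral over `Fin r → ℝ` and the identity of exponents.
-/

open Filter Topology Asymptotics MeasureTheory
open scoped Real

namespace Pool.Agent.Lib.MP_8ce23f_nt.RR

open Pool.Agent.Lib.MP_8ce23f_nt.R2 (rp Asy E2 Lam LamR Xi)

variable {r : ℕ}

open scoped MatrixOrder in
theorem exists_L {A : Matrix (Fin r) (Fin r) ℝ} (hA : A.PosDef) :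
    ∃ L : Matrix (Fin r) (Fin r) ℝ, L * L.transpose = A ∧ IsUnit L.det := by
  obtain ⟨B, hB⟩ := CStarAlgebra.nonneg_iff_eq_star_mul_self.mp hA.posSemidef.nonneg
  rw [Matrix.star_eq_conjTranspose, Matrix.conjTranspose_eq_transpose_of_trivial] at hB
  refine ⟨B.transpose, by rw [Matrix.transpose_transpose, hB], ?_⟩
  have h1 := hA.det_pos
  rw [hB, Matrix.det_mul, Matrix.det_transpose] at h1
  rw [Matrix.det_transpose, isUnit_iff_ne_zero]
  intro h2
  rw [h2, mul_zero] at h1
  exact lt_irrefl _ h1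

private theorem ExactA_gauss_one (z : ℝ) :
    ∫ w : ℝ, Complex.exp (((-(w ^ 2 / 2) : ℝ) : ℂ) + ((w * z : ℝ) : ℂ) * Complex.I)
      = ((√(2 * π) * Real.exp (-(z ^ 2 / 2)) : ℝ) : ℂ) := by
  have h := integral_cexp_quadratic (b := -(1 / 2 : ℂ)) (by norm_num) (z * Complex.I) 0
  have e1 : ∀ w : ℝ, Complex.exp (((-(w ^ 2 / 2) : ℝ) : ℂ) + ((w * z : ℝ) : ℂ) * Complex.I)
      = Complex.exp (-(1 / 2 : ℂ) * (w : ℂ) ^ 2 + z * Complex.I * w + 0) := by
    intro w
    congr 1
    push_cast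
    ring
  simp only [e1]
  rw [h]
  have e2 : (π : ℂ) / -(-(1 / 2 : ℂ)) = ((2 * π : ℝ) : ℂ) := by push_cast; ring
  have e3 : (0 : ℂ) - (z * Complex.I) ^ 2 / (4 * -(1 / 2 : ℂ)) = ((-(z ^ 2 / 2) : ℝ) : ℂ) := by
    rw [mul_pow, Complex.I_sq]
    push_cast
    ring
  have e4 : (((2 * π : ℝ) : ℂ)) ^ (1 / 2 : ℂ) = ((√(2 * π) : ℝ) : ℂ) := by
    rw [Real.sqrt_eq_rpow, Complex.ofReal_cpow (by positivity)]
    congr 1
    push_cast
    rfl
  rw [e2, e3, e4, ← Complex.ofReal_exp, ← Complex.ofReal_mul]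

theorem gauss_integral (z : Fin r → ℝ) :
    ∫ w : Fin r → ℝ, Complex.exp (-(hs w : ℝ) + ((∑ i, w i * z i : ℝ) : ℂ) * Complex.I) =
      (((√(2 * π)) ^ r * Real.exp (-(hs z)) : ℝ) : ℂ) := by
  have e1 : ∀ w : Fin r → ℝ, Complex.exp (-(hs w : ℝ) + ((∑ i, w i * z i : ℝ) : ℂ) * Complex.I) =
      ∏ i, Complex.exp (((-(w i ^ 2 / 2) : ℝ) : ℂ) + ((w i * z i : ℝ) : ℂ) * Complex.I) := by
    intro w
    rw [← Complex.exp_sum]
    congr 1
    unfold hs
    push_cast
    rw [Finset.sum_add_distrib, Finset.sum_mul, Finset.sum_neg_distrib, Finset.sum_div]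
  simp only [e1]
  rw [MeasureTheory.integral_fintype_prod_volume_eq_prod (fun (i : Fin r) (x : ℝ) =>
    Complex.exp (((-(x ^ 2 / 2) : ℝ) : ℂ) + ((x * z i : ℝ) : ℂ) * Complex.I))]
  simp only [ExactA_gauss_one]
  rw [← Complex.ofReal_prod]
  congr 1
  rw [Finset.prod_mul_distrib, Finset.prod_const, Finset.card_univ, Fintype.card_fin, ← Real.exp_sum]
  congr 2
  unfold hs
  rw [Finset.sum_neg_distrib, Finset.sum_div]

theorem exact_exponent {A L : Matrix (Fin r) (Fin r) ℝ} (hL : L * L.transpose = A)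
    (hdet : IsUnit L.det) {Q : Fin r → ℝ} (hQ : NahmSol A Q) (B n : Fin r → ℝ) {t : ℝ}
    (ht : 0 < t) :
    t ^ 2 * hs (sv L B) + ∑ i, n i * Real.log (1 - Q i) -
      hs (fun j => t * sv L B j - kap L Q j / t + t * ∑ i, n i * L i j) =
    -(t ^ 2 * nex A B n) - (∑ j, kap L Q j ^ 2) / (2 * t ^ 2) - ∑ i, B i * Real.log (Q i) := by
  have hA : ∀ i k, A i k = ∑ j, L i j * L k j := by
    intro i k
    rw [← hL, Matrix.mul_apply]
    rfl
  have hB : ∀ i, ∑ j, L i j * sv L B j = B i := by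
    intro i
    have h1 : L.mulVec (L⁻¹.mulVec B) = B := by
      rw [Matrix.mulVec_mulVec, Matrix.mul_nonsing_inv L hdet, Matrix.one_mulVec]
    have h2 := congrFun h1 i
    rw [← h2]
    rfl
  obtain ⟨v, hv⟩ : ∃ v : Fin r → ℝ, v = fun j => ∑ i, n i * L i j := ⟨_, rfl⟩
  have hvj : ∀ j, ∑ i, n i * L i j = v j := fun j => by rw [hv]
  obtain ⟨s, hs'⟩ : ∃ s : Fin r → ℝ, s = sv L B := ⟨_, rfl⟩
  obtain ⟨κ, hκ⟩ : ∃ κ : Fin r → ℝ, κ = kap L Q := ⟨_, rfl⟩
  have h1 : ∑ j, v j ^ 2 = ∑ i, ∑ k, n i * A i k * n k := by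
    calc ∑ j, v j ^ 2 = ∑ j, ∑ i, ∑ k, (n i * L i j) * (n k * L k j) := by
          refine Finset.sum_congr rfl fun j _ => ?_
          rw [← hvj j, sq, Finset.sum_mul_sum]
      _ = ∑ i, ∑ k, ∑ j, (n i * L i j) * (n k * L k j) := by
          rw [Finset.sum_comm]
          refine Finset.sum_congr rfl fun i _ => ?_
          rw [Finset.sum_comm]
      _ = _ := by
          refine Finset.sum_congr rfl fun i _ => Finset.sum_congr rfl fun k _ => ?_
          rw [hA, Finset.mul_sum, Finset.sum_mul]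
          exact Finset.sum_congr rfl fun j _ => by ring
  have h2 : ∑ j, s j * v j = ∑ i, B i * n i := by
    calc ∑ j, s j * v j = ∑ j, ∑ i, n i * (L i j * s j) := by
          refine Finset.sum_congr rfl fun j _ => ?_
          rw [← hvj j, Finset.mul_sum]
          exact Finset.sum_congr rfl fun i _ => by ring
      _ = ∑ i, n i * ∑ j, L i j * s j := by
          rw [Finset.sum_comm]
          exact Finset.sum_congr rfl fun i _ => by rw [Finset.mul_sum]
      _ = _ := by
          refine Finset.sum_congr rfl fun i _ => ?_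
          rw [hs', hB, mul_comm]
  have h3 : ∑ j, s j * κ j = -∑ i, B i * Real.log (Q i) := by
    calc ∑ j, s j * κ j = ∑ j, -∑ i, Real.log (Q i) * (L i j * s j) := by
          refine Finset.sum_congr rfl fun j _ => ?_
          rw [hκ]
          unfold kap
          rw [mul_neg, Finset.mul_sum]
          congr 1
          exact Finset.sum_congr rfl fun i _ => by ring
      _ = -∑ i, Real.log (Q i) * ∑ j, L i j * s j := by
          rw [Finset.sum_neg_distrib, Finset.sum_comm]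
          congr 1
          exact Finset.sum_congr rfl fun i _ => by rw [Finset.mul_sum]
      _ = _ := by
          congr 1
          refine Finset.sum_congr rfl fun i _ => ?_
          rw [hs', hB, mul_comm]
  have h4 : ∑ j, κ j * v j = -∑ i, n i * Real.log (1 - Q i) := by
    calc ∑ j, κ j * v j = ∑ j, -∑ k, ∑ i, (n k * L k j) * (L i j * Real.log (Q i)) := by
          refine Finset.sum_congr rfl fun j _ => ?_
          rw [hκ, ← hvj j]
          unfold kap
          rw [neg_mul, mul_comm, Finset.sum_mul_sum]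
      _ = -∑ k, ∑ i, ∑ j, (n k * L k j) * (L i j * Real.log (Q i)) := by
          rw [Finset.sum_neg_distrib, Finset.sum_comm]
          congr 1
          refine Finset.sum_congr rfl fun k _ => ?_
          rw [Finset.sum_comm]
      _ = _ := by
          congr 1
          refine Finset.sum_congr rfl fun k _ => ?_
          rw [hQ.eq k, Finset.mul_sum]
          refine Finset.sum_congr rfl fun i _ => ?_
          rw [hA, Finset.sum_mul, Finset.mul_sum]
          exact Finset.sum_congr rfl fun j _ => by ring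
  have h5 : ∑ j, (t * s j - κ j / t + t * v j) ^ 2 = t ^ 2 * ∑ j, s j ^ 2 + (∑ j, κ j ^ 2) / t ^ 2 +
      t ^ 2 * ∑ j, v j ^ 2 - 2 * ∑ j, s j * κ j + 2 * t ^ 2 * ∑ j, s j * v j - 2 * ∑ j, κ j * v j := by
    simp only [Finset.mul_sum, Finset.sum_div, ← Finset.sum_add_distrib, ← Finset.sum_sub_distrib]
    refine Finset.sum_congr rfl fun j _ => ?_
    field_simp
    ring
  unfold hs nex
  rw [← hs', ← hκ]
  simp only [hvj]
  rw [h5, h1, h2, h3, h4]
  field_simp
  ring

end Pool.Agent.Lib.MP_8ce23f_nt.RR
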