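import Pool.Agent.Lib.MP_8ce23f_nt.RR.Defs
import Pool.Agent.Lib.MP_8ce23f_nt.R2.AsyCalc

/-!
# Patching of expansions

As the last part of `R2/AsyCalc.lean`, for every rank.
-/

open Filter Topology Asymptotics MeasureTheory
open scoped Real

namespace Pool.Agent.Lib.MP_8ce23f_nt.RR

open Pool.Agent.Lib.MP_8ce23f_nt.R2 (rp Asy E2 Lam LamR Xi)

variable {r : ℕ}

theorem map_ev_E2 (w : Fin r → ℝ) (p : P r) :
    PowerSeries.map (ev w) (E2 p) = E2 (ev w p) := by
  ext n
  rw [PowerSeries.coeff_map]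
  unfold E2
  rw [PowerSeries.coeff_mk, PowerSeries.coeff_mk]
  split_ifs with hn
  · rw [map_mul, map_pow]
    refine congrArg (· * _) ?_
    show MvPolynomial.eval (fun i => (w i : ℂ)) (MvPolynomial.C _) = _
    rw [MvPolynomial.eval_C]
    rfl
  · exact map_zero _

/-- A polynomial is determined by its values at real points. -/
theorem P_ext {p p' : P r} (h : ∀ w : Fin r → ℝ, ev w p = ev w p') : p = p' := by
  refine MvPolynomial.funext_set (fun _ => Set.range ((↑) : ℝ → ℂ)) (fun _ => ?_) ?_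
  · exact Set.infinite_range_of_injective Complex.ofReal_injective
  · intro v hv
    have h0 : ∀ i : Fin r, ∃ x : ℝ, (x : ℂ) = v i := fun i => hv i (Set.mem_univ _)
    choose w hw using h0
    have h1 : v = fun i => (w i : ℂ) := funext fun i => (hw i).symm
    rw [h1]
    exact h w

/-- Patching of the expansions of finite order. -/
theorem patch (f : (Fin r → ℝ) → ℝ → ℂ) (p0 : P r) (h : ∀ N : ℕ, ∃ p : ℕ → P r, p 0 = p0 ∧
      ∀ w : Fin r → ℝ,
      (fun t : ℝ => f w t - ∑ k ∈ Finset.range (N + 1), ev w (p k) * (t : ℂ) ^ k)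
        =O[𝓝[>] 0] fun t : ℝ => t ^ (N + 1)) :
    ∃ Γ : PowerSeries (P r), PowerSeries.constantCoeff Γ = p0 ∧
      ∀ w : Fin r → ℝ, Asy (f w) (PowerSeries.map (ev w) Γ) := by
  choose p hp0 hp using h
  have hagree : ∀ N N' k : ℕ, k ≤ N → N ≤ N' → p N k = p N' k := by
    intro N N' k hk hN
    refine P_ext fun w => ?_
    have h1 := hp N w
    have h2 := R2.asycalc_mono (a := fun k => ev w (p N' k)) (N := N + 1) (by omega) (hp N' w)
    exact R2.asycalc_unique (a := fun k => ev w (p N k)) (b := fun k => ev w (p N' k)) h1 h2 k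
      (by omega)
  refine ⟨PowerSeries.mk fun k => p k k, ?_, fun w N => ?_⟩
  · rw [← PowerSeries.coeff_zero_eq_constantCoeff_apply, PowerSeries.coeff_mk, hp0]
  · have h1 := R2.asycalc_mono (a := fun k => ev w (p N k)) (N := N) (by omega) (hp N w)
    refine h1.congr_left fun t => ?_
    refine congrArg (f w t - ·) ?_
    refine Finset.sum_congr rfl fun k hk => ?_
    rw [PowerSeries.coeff_map, PowerSeries.coeff_mk,
      hagree k N k (le_refl k) (Finset.mem_range.1 hk).le]

end Pool.Agent.Lib.MP_8ce23f_nt.RR
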