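import Pool.Agent.Lib.MP_8ce23f_nt.RR.FShift
import Pool.Agent.Lib.MP_8ce23f_nt.RR.Patch

/-!
# The formal functional equation

As `R2/FE.lean`, for every rank.
-/

open Filter Topology Asymptotics MeasureTheory
open scoped Real

namespace Pool.Agent.Lib.MP_8ce23f_nt.RR

open Pool.Agent.Lib.MP_8ce23f_nt.R2 (rp Asy E2 Lam LamR Xi)

variable {r : ℕ}

theorem fe_ev_sh (v : Fin r → ℝ) (v' : Fin r → ℂ) (hv : ∀ i, v' i = (v i : ℂ))
    (w : Fin r → ℝ) (p : P r) : ev w (sh v' p) = ev (w + v) p := by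
  have h : (ev w).comp ((sh v' : P r →ₐ[ℂ] P r) : P r →+* P r) = ev (w + v) := by
    refine MvPolynomial.ringHom_ext ?_ ?_
    · intro c
      simp [ev, sh]
    · intro i
      simp [ev, sh, hv]
  exact RingHom.congr_fun h p

theorem fe_map_sh (v : Fin r → ℝ) (v' : Fin r → ℂ) (hv : ∀ i, v' i = (v i : ℂ))
    (w : Fin r → ℝ) (Γ : PowerSeries (P r)) :
    PowerSeries.map (ev w) (PowerSeries.map (sh v' : P r →+* P r) Γ) =
      PowerSeries.map (ev (w + v)) Γ := by
  ext n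
  rw [PowerSeries.coeff_map, PowerSeries.coeff_map, PowerSeries.coeff_map]
  exact fe_ev_sh v v' hv w _

theorem fe_real {A : Matrix (Fin r) (Fin r) ℝ} (L : Matrix (Fin r) (Fin r) ℝ) (hA : A.PosDef)
    {Q : Fin r → ℝ} (hQ : NahmSol A Q) (B : Fin r → ℝ) (i : Fin r) {t : ℝ} (ht : 0 < t) :
    FN A L Q B t = Q i * FN A L Q (B + Pi.single i 1) t +
      (1 - Q i) * (Real.exp (-(t ^ 2 * (A i i / 2 + B i))) * FN A L Q (B + A i) t) := by
  have h1 := F_shift hA B i ht
  have h2 : Q i * Real.exp (-∑ j, (B + Pi.single i 1 : Fin r → ℝ) j * Real.log (Q j)) =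
      Real.exp (-∑ j, B j * Real.log (Q j)) := by
    nth_rewrite 1 [← Real.exp_log (hQ.pos i)]
    rw [← Real.exp_add]
    congr 1
    have e : ∑ j, (B + Pi.single i 1 : Fin r → ℝ) j * Real.log (Q j) =
        ∑ j, B j * Real.log (Q j) + Real.log (Q i) := by
      simp only [Pi.add_apply, add_mul, Finset.sum_add_distrib]
      congr 1
      rw [Finset.sum_eq_single i]
      · simp
      · intro j _ hj
        simp [hj]
      · intro h
        exact absurd (Finset.mem_univ i) h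
    rw [e]
    ring
  have h3 : (1 - Q i) * Real.exp (-∑ j, (B + A i) j * Real.log (Q j)) =
      Real.exp (-∑ j, B j * Real.log (Q j)) := by
    have h4 : 0 < 1 - Q i := by linarith [hQ.lt i]
    nth_rewrite 1 [← Real.exp_log h4]
    rw [← Real.exp_add, hQ.eq i]
    congr 1
    have e : ∑ j, (B + A i) j * Real.log (Q j) =
        ∑ j, B j * Real.log (Q j) + ∑ j, A i j * Real.log (Q j) := by
      simp only [Pi.add_apply, add_mul, Finset.sum_add_distrib]
    rw [e]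
    ring
  unfold FN
  linear_combination (Nf L Q t * Real.exp (-∑ j, B j * Real.log (Q j))) * h1 -
    (F A (B + Pi.single i 1) t * Nf L Q t) * h2 -
    (Real.exp (-(t ^ 2 * (A i i / 2 + B i))) * F A (B + A i) t * Nf L Q t) * h3

theorem fe_series {A L : Matrix (Fin r) (Fin r) ℝ} (hA : A.PosDef) {Q : Fin r → ℝ}
    (hQ : NahmSol A Q) {Γ : PowerSeries (P r)}
    (hΓ : ∀ B : Fin r → ℝ, Asy (fun t => (FN A L Q B t : ℂ)) (PowerSeries.map (ev B) Γ))
    (B : Fin r → ℝ) (i : Fin r) : PowerSeries.map (ev B) Γ =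
      PowerSeries.C (Q i : ℂ) * PowerSeries.map (ev (B + Pi.single i 1)) Γ +
      PowerSeries.C (1 - (Q i : ℂ)) * (E2 (-((B i : ℂ) + (A i i : ℂ) / 2)) *
        PowerSeries.map (ev (B + A i)) Γ) := by
  have h1 := ((hΓ (B + Pi.single i 1)).const_mul (Q i : ℂ)).add
    (((R2.Asy.exp_sq (-((B i : ℂ) + (A i i : ℂ) / 2))).mul (hΓ (B + A i))).const_mul
      (1 - (Q i : ℂ)))
  refine (hΓ B).unique (h1.congr' ?_)
  filter_upwards [self_mem_nhdsWithin] with t ht
  rw [fe_real L hA hQ B i ht]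
  push_cast
  have h2 : Complex.exp (-((B i : ℂ) + (A i i : ℂ) / 2) * t ^ 2) =
      Complex.exp (-(t ^ 2 * ((A i i : ℂ) / 2 + (B i : ℂ)))) := by
    congr 1
    ring
  rw [h2]

theorem fe_ext {Γ Γ' : PowerSeries (P r)}
    (h : ∀ w : Fin r → ℝ, PowerSeries.map (ev w) Γ = PowerSeries.map (ev w) Γ') : Γ = Γ' := by
  ext1 n
  refine P_ext fun w => ?_
  have := congrArg (PowerSeries.coeff n) (h w)
  rwa [PowerSeries.coeff_map, PowerSeries.coeff_map] at this

theorem isFE_of_asy {A L : Matrix (Fin r) (Fin r) ℝ} (hA : A.PosDef) {Q : Fin r → ℝ}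
    (hQ : NahmSol A Q) {Γ : PowerSeries (P r)}
    (hΓ : ∀ B : Fin r → ℝ, Asy (fun t => (FN A L Q B t : ℂ)) (PowerSeries.map (ev B) Γ)) :
    IsFE (Am A) (Qv Q) Γ := by
  intro i
  refine fe_ext fun B => ?_
  have hs1 : ∀ j : Fin r, (Pi.single i (1 : ℂ) : Fin r → ℂ) j =
      (((Pi.single i (1 : ℝ) : Fin r → ℝ) j : ℝ) : ℂ) := by
    intro j
    by_cases hj : j = i
    · subst hj
      simp
    · simp [hj]
  have hs2 : ∀ j : Fin r, Am A i j = ((A i j : ℝ) : ℂ) := fun j => rfl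
  rw [map_add, map_mul, map_mul, map_mul, fe_map_sh (Pi.single i 1) _ hs1,
    fe_map_sh (A i) _ hs2, map_ev_E2, PowerSeries.map_C, PowerSeries.map_C,
    fe_series hA hQ hΓ B i, mul_assoc]
  simp [ev, Am, Qv]

end Pool.Agent.Lib.MP_8ce23f_nt.RR
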