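import Pool.Agent.Lib.MP_8ce23f_nt.RR.Defs
import Pool.Agent.Lib.MP_8ce23f_nt.R2.XiReg

/-!
# Bounds, continuity and integrability of the integrand

As the second half of `R2/XiReg.lean`, for every rank.
-/

open Filter Topology Asymptotics MeasureTheory
open scoped Real

namespace Pool.Agent.Lib.MP_8ce23f_nt.RR

open Pool.Agent.Lib.MP_8ce23f_nt.R2 (rp Asy E2 Lam LamR Xi)

variable {r : ℕ}

theorem norm_g_le (L : Matrix (Fin r) (Fin r) ℝ) {Q : Fin r → ℝ} (hQ : InUnit Q) {t : ℝ}
    (ht : 0 < t) (w : Fin r → ℝ) : ‖g L Q t w‖ ≤ Real.exp (-(hs w)) := by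
  unfold g
  rw [Complex.norm_exp]
  apply Real.exp_le_exp.2
  have h1 : ∀ i, (Xi (1 - Q i) (Lw L w i) t).re ≤ 0 := fun i =>
    R2.Xi_re_le (by linarith [(hQ i).2]) (by linarith [(hQ i).1]) _ ht
  have h2 : (∑ i, Xi (1 - Q i) (Lw L w i) t).re ≤ 0 := by
    rw [Complex.re_sum]
    exact Finset.sum_nonpos fun i _ => h1 i
  rw [Complex.add_re, Complex.sub_re, Complex.neg_re, Complex.ofReal_re, Complex.re_ofReal_mul,
    Complex.I_re, mul_zero]
  linarith

theorem continuous_g (L : Matrix (Fin r) (Fin r) ℝ) {Q : Fin r → ℝ} (hQ : InUnit Q) {t : ℝ}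
    (ht : 0 < t) : Continuous fun w : Fin r → ℝ => g L Q t w := by
  unfold g
  refine Complex.continuous_exp.comp ?_
  have c1 : ∀ i, Continuous fun w : Fin r → ℝ => Lw L w i := fun i => by
    unfold Lw
    exact continuous_finsetSum _ fun j _ => continuous_const.mul (continuous_apply j)
  refine Continuous.add (Continuous.sub ?_ ?_) ?_
  · refine Continuous.neg (Complex.continuous_ofReal.comp ?_)
    unfold hs
    exact (continuous_finsetSum _ fun i _ => (continuous_apply i).pow 2).div_const _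
  · refine Continuous.mul (Complex.continuous_ofReal.comp ?_) continuous_const
    exact (continuous_finsetSum _ fun i _ => (continuous_apply i).mul continuous_const).div_const _
  · refine continuous_finsetSum _ fun i _ => ?_
    exact (R2.continuous_Xi (ρ := 1 - Q i) (by linarith [(hQ i).2]) (by linarith [(hQ i).1])
      ht).comp (c1 i)

theorem XiReg_term (x : ℝ) : |x| - x ^ 2 / 2 ≤ 1 + -(1 / 4) * x ^ 2 := by
  have hu : x ^ 2 = |x| ^ 2 := (sq_abs x).symm
  rw [hu]
  nlinarith [sq_nonneg (|x| - 2)]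

theorem XiReg_nb_nonneg (w : Fin r → ℝ) : 0 ≤ nb w := by
  unfold nb
  have h : 0 ≤ ∑ i, |w i| := Finset.sum_nonneg fun i _ => abs_nonneg _
  linarith

theorem XiReg_bound (M : ℕ) (w : Fin r → ℝ) :
    nb w ^ M * Real.exp (-(hs w)) ≤
      (M.factorial * Real.exp (1 + r)) * ∏ i, Real.exp (-(1 / 4) * w i ^ 2) := by
  have hx := XiReg_nb_nonneg w
  have h1 : nb w ^ M ≤ M.factorial * Real.exp (nb w) := by
    have h2 := Real.pow_div_factorial_le_exp (nb w) hx M
    rw [div_le_iff₀ (by positivity)] at h2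
    linarith
  have h3 : Real.exp (nb w) * Real.exp (-(hs w)) ≤
      Real.exp (1 + r) * ∏ i, Real.exp (-(1 / 4) * w i ^ 2) := by
    rw [← Real.exp_sum, ← Real.exp_add, ← Real.exp_add]
    apply Real.exp_le_exp.2
    have h4 : ∑ i, (|w i| - w i ^ 2 / 2) ≤ ∑ i, (1 + -(1 / 4) * w i ^ 2) :=
      Finset.sum_le_sum fun i _ => XiReg_term (w i)
    rw [Finset.sum_sub_distrib, Finset.sum_add_distrib, ← Finset.sum_div] at h4
    have h5 : ∑ _i : Fin r, (1 : ℝ) = r := by simp
    rw [h5] at h4
    unfold nb hs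
    linarith
  calc nb w ^ M * Real.exp (-(hs w))
      ≤ (M.factorial * Real.exp (nb w)) * Real.exp (-(hs w)) :=
        mul_le_mul_of_nonneg_right h1 (Real.exp_pos _).le
    _ = M.factorial * (Real.exp (nb w) * Real.exp (-(hs w))) := by ring
    _ ≤ M.factorial * (Real.exp (1 + r) * ∏ i, Real.exp (-(1 / 4) * w i ^ 2)) :=
        mul_le_mul_of_nonneg_left h3 (by positivity)
    _ = _ := by ring

theorem integrable_gauss_poly (M : ℕ) : Integrable fun w : Fin r → ℝ =>
    nb w ^ M * Real.exp (-(hs w)) := by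
  have h1 : ∀ _i : Fin r, Integrable (fun x : ℝ => Real.exp (-(1 / 4) * x ^ 2)) := fun _ =>
    integrable_exp_neg_mul_sq (by norm_num)
  have h2 : Integrable (fun w : Fin r → ℝ => ∏ i, Real.exp (-(1 / 4) * w i ^ 2)) :=
    Integrable.fintype_prod h1
  refine Integrable.mono' (h2.const_mul (M.factorial * Real.exp (1 + r))) ?_ ?_
  · refine Continuous.aestronglyMeasurable ?_
    have c1 : Continuous fun w : Fin r → ℝ => nb w := by
      unfold nb
      exact continuous_const.add (continuous_finsetSum _ fun i _ => (continuous_apply i).abs)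
    have c2 : Continuous fun w : Fin r → ℝ => hs w := by
      unfold hs
      exact (continuous_finsetSum _ fun i _ => (continuous_apply i).pow 2).div_const _
    exact (c1.pow M).mul (Real.continuous_exp.comp c2.neg)
  · refine Filter.Eventually.of_forall fun w => ?_
    rw [Real.norm_of_nonneg (mul_nonneg (pow_nonneg (XiReg_nb_nonneg w) M) (Real.exp_pos _).le)]
    exact XiReg_bound M w

end Pool.Agent.Lib.MP_8ce23f_nt.RR
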