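import Pool.Agent.Lib.MP_8ce23f_nt.RR.ExactA
import Pool.Agent.Lib.MP_8ce23f_nt.RR.XiReg

/-!
# The exact integral representation

As `FN_eq_integral` of `R2/Exact.lean`, for every rank.
-/

open Filter Topology Asymptotics MeasureTheory
open scoped Real

namespace Pool.Agent.Lib.MP_8ce23f_nt.RR

open Pool.Agent.Lib.MP_8ce23f_nt.R2 (rp Asy E2 Lam LamR Xi)

variable {r : ℕ}

/-- Sums over `Fin r → ℕ` of products. -/
private lemma FNInt_summable_tsum_pi : ∀ {r : ℕ} (f : Fin r → ℕ → ℂ),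
    (∀ i, Summable fun k => ‖f i k‖) →
    (Summable fun n : Fin r → ℕ => ‖∏ i, f i (n i)‖) ∧
      ∑' n : Fin r → ℕ, ∏ i, f i (n i) = ∏ i, ∑' k, f i k := by
  intro r
  induction r with
  | zero =>
    intro f _
    constructor
    · exact (hasSum_unique _).summable
    · rw [(hasSum_unique (fun n : Fin 0 → ℕ => ∏ i, f i (n i))).tsum_eq]
      simp
  | succ r ih =>
    intro f hf
    obtain ⟨h1, h2⟩ := ih (fun i => f i.succ) (fun i => hf i.succ)
    have e : ∀ p : ℕ × (Fin r → ℕ), ∏ i, f i ((Fin.consEquiv (fun _ : Fin (r + 1) => ℕ) p) i) =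
        f 0 p.1 * ∏ i : Fin r, f i.succ (p.2 i) := by
      intro p
      rw [Fin.prod_univ_succ]
      rfl
    have key : ∀ g : (Fin r → ℕ) → ℂ, (Summable fun n => ‖g n‖) →
        (Summable fun p : ℕ × (Fin r → ℕ) => ‖f 0 p.1 * g p.2‖) ∧
        ∑' p : ℕ × (Fin r → ℕ), f 0 p.1 * g p.2 = (∑' k, f 0 k) * ∑' n, g n := by
      intro g hg
      exact ⟨(hf 0).mul_norm hg, (tsum_mul_tsum_of_summable_norm (hf 0) hg).symm⟩
    obtain ⟨h3, h4⟩ := key _ h1
    constructor
    · rw [← (Fin.consEquiv (fun _ : Fin (r + 1) => ℕ)).summable_iff]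
      refine h3.congr fun p => ?_
      rw [← e p]
      rfl
    · rw [← (Fin.consEquiv (fun _ : Fin (r + 1) => ℕ)).tsum_eq, Fin.prod_univ_succ, ← h2, ← h4]
      exact tsum_congr fun p => e p

theorem FN_eq_integral {A L : Matrix (Fin r) (Fin r) ℝ} (hL : L * L.transpose = A)
    (hdet : IsUnit L.det) {Q : Fin r → ℝ} (hQ : NahmSol A Q) (B : Fin r → ℝ) {t : ℝ}
    (ht : 0 < t) :
    (FN A L Q B t : ℂ) =
      Complex.exp ((t ^ 2 * hs (sv L B) : ℝ)) *
        ((((√(2 * π)) ^ r : ℝ) : ℂ)⁻¹ * ∫ w : Fin r → ℝ,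
          Complex.exp ((t * ∑ i, w i * sv L B i : ℝ) * Complex.I) * g L Q t w) := by
  have hρ : ∀ i, 0 < 1 - Q i := fun i => by linarith [hQ.lt i]
  have hρ' : ∀ i, 1 - Q i < 1 := fun i => by linarith [hQ.pos i]
  have hq0 : 0 ≤ Real.exp (-t ^ 2) := (Real.exp_pos _).le
  have hq1 : Real.exp (-t ^ 2) < 1 := by
    rw [Real.exp_lt_one_iff]
    nlinarith
  have hrp : ∀ n, 0 < rp (Real.exp (-t ^ 2)) n := fun n => R2.rp_pos hq0 hq1 n
  set q := Real.exp (-t ^ 2) with hq
  set c : (Fin r → ℕ) → ℝ := fun n => ∏ i, ((1 - Q i) ^ n i / rp q (n i)) with hc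
  set z : (Fin r → ℕ) → Fin r → ℝ := fun n j =>
    t * sv L B j - kap L Q j / t + t * ∑ i, (n i : ℝ) * L i j with hz
  set Fn : (Fin r → ℕ) → (Fin r → ℝ) → ℂ := fun n w => (c n : ℂ) *
    Complex.exp (-(hs w : ℝ) + ((∑ i, w i * z n i : ℝ) : ℂ) * Complex.I) with hFn
  have hc0 : ∀ n, 0 ≤ c n := fun n => by
    simp only [hc]
    refine Finset.prod_nonneg fun i _ => ?_
    have h1 := hrp (n i)
    have h2 := hρ i
    positivity
  -- summability
  have hsum : ∀ (ρ y : ℝ), 0 < ρ → ρ < 1 → Summable fun n : ℕ =>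
      ‖(ρ * Complex.exp (t * y * Complex.I)) ^ n / (rp q n : ℂ)‖ := by
    intro ρ y h0 h1
    have hX : ‖(ρ : ℂ) * Complex.exp (t * y * Complex.I)‖ < 1 := by
      have e : (t : ℂ) * y * Complex.I = ((t * y : ℝ) : ℂ) * Complex.I := by push_cast; rfl
      rw [norm_mul, e, Complex.norm_exp_ofReal_mul_I, mul_one, Complex.norm_real,
        Real.norm_eq_abs, abs_of_pos h0]
      exact h1
    exact R2.summable_pow_div_rp hX ht
  have hcs : Summable c := by
    have h1 := (FNInt_summable_tsum_pi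
      (fun (i : Fin r) (k : ℕ) => ((((1 - Q i) ^ k / rp q k : ℝ)) : ℂ)) (fun i => by
        have h2 := hsum (1 - Q i) 0 (hρ i) (hρ' i)
        refine h2.congr fun n => ?_
        have h3 := hrp n
        congr 1
        push_cast
        simp)).1
    refine h1.congr fun n => ?_
    rw [← Complex.ofReal_prod, Complex.norm_real, Real.norm_eq_abs, abs_of_nonneg]
    exact hc0 n
  have hnorm : ∀ n w, ‖Fn n w‖ = c n * Real.exp (-(hs w)) := by
    intro n w
    simp only [hFn]
    rw [norm_mul, Complex.norm_real, Real.norm_eq_abs, abs_of_nonneg (hc0 n), Complex.norm_exp]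
    rw [Complex.add_re, Complex.neg_re, Complex.ofReal_re, Complex.re_ofReal_mul, Complex.I_re,
      mul_zero, add_zero]
  have hgi : Integrable fun w : Fin r → ℝ => Real.exp (-(hs w)) := by
    have := integrable_gauss_poly (r := r) 0
    simpa using this
  have hint : ∀ n, Integrable (Fn n) := by
    intro n
    refine (hgi.const_mul (c n)).mono' ?_ (Eventually.of_forall fun w => (hnorm n w).le)
    refine Continuous.aestronglyMeasurable ?_
    simp only [hFn, hs]
    fun_prop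
  have hsn : Summable fun n => ∫ w, ‖Fn n w‖ := by
    simp only [hnorm]
    simp only [integral_const_mul]
    exact hcs.mul_right _
  -- the integrand
  have hlam : ∀ (ρ y : ℝ), 0 < ρ → ρ < 1 → Complex.exp (Xi ρ y t)
      = Complex.exp (-(LamR ρ t : ℂ)) *
        ∑' n : ℕ, (ρ * Complex.exp (t * y * Complex.I)) ^ n / (rp q n : ℂ) := by
    intro ρ y h0 h1
    have hX : ‖(ρ : ℂ) * Complex.exp (t * y * Complex.I)‖ < 1 := by
      have e : (t : ℂ) * y * Complex.I = ((t * y : ℝ) : ℂ) * Complex.I := by push_cast; rfl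
      rw [norm_mul, e, Complex.norm_exp_ofReal_mul_I, mul_one, Complex.norm_real,
        Real.norm_eq_abs, abs_of_pos h0]
      exact h1
    rw [R2.tsum_pow_div_rp hX ht, ← Complex.exp_add]
    congr 1
    unfold Xi
    ring
  have hphase : ∀ (n : Fin r → ℕ) (w : Fin r → ℝ),
      ∑ j, w j * z n j = t * ∑ j, w j * sv L B j - (∑ j, w j * kap L Q j) / t +
        t * ∑ i, (n i : ℝ) * Lw L w i := by
    intro n w
    simp only [hz, Lw]
    have e1 : ∑ i, (n i : ℝ) * ∑ j, L i j * w j = ∑ j, w j * ∑ i, (n i : ℝ) * L i j := by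
      simp only [Finset.mul_sum]
      rw [Finset.sum_comm]
      refine Finset.sum_congr rfl fun j _ => Finset.sum_congr rfl fun i _ => ?_
      ring
    rw [e1, Finset.mul_sum, Finset.sum_div, Finset.mul_sum, ← Finset.sum_sub_distrib,
      ← Finset.sum_add_distrib]
    refine Finset.sum_congr rfl fun j _ => ?_
    ring
  have hkey : ∀ w : Fin r → ℝ,
      Complex.exp ((t * ∑ i, w i * sv L B i : ℝ) * Complex.I) * g L Q t w
      = (∏ i, Complex.exp (-(LamR (1 - Q i) t : ℂ))) * ∑' n, Fn n w := by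
    intro w
    have hg : g L Q t w = Complex.exp (-(hs w : ℝ) -
        ((∑ i, w i * kap L Q i) / t : ℝ) * Complex.I) *
        ∏ i, Complex.exp (Xi (1 - Q i) (Lw L w i) t) := by
      unfold g
      rw [← Complex.exp_sum, ← Complex.exp_add]
    have hprod := (FNInt_summable_tsum_pi (fun (i : Fin r) (n : ℕ) =>
      (((1 - Q i : ℝ) : ℂ) * Complex.exp (t * (Lw L w i : ℝ) * Complex.I)) ^ n / (rp q n : ℂ))
      (fun i => hsum (1 - Q i) (Lw L w i) (hρ i) (hρ' i))).2
    have h4 : ∏ i, Complex.exp (Xi (1 - Q i) (Lw L w i) t) =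
        (∏ i, Complex.exp (-(LamR (1 - Q i) t : ℂ))) *
        ∑' n : Fin r → ℕ, ∏ i, (((1 - Q i : ℝ) : ℂ) *
          Complex.exp (t * (Lw L w i : ℝ) * Complex.I)) ^ n i / (rp q (n i) : ℂ) := by
      rw [hprod, ← Finset.prod_mul_distrib]
      exact Finset.prod_congr rfl fun i _ => hlam (1 - Q i) (Lw L w i) (hρ i) (hρ' i)
    rw [hg, h4]
    have e1 : ∀ (a b c d : ℂ), a * (b * (c * d)) = c * ((a * b) * d) := by
      intros; ring
    rw [e1, ← tsum_mul_left]
    congr 1
    refine tsum_congr fun n => ?_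
    simp only [hFn, hc]
    have h5 : ∏ i, (((1 - Q i : ℝ) : ℂ) * Complex.exp (t * (Lw L w i : ℝ) * Complex.I)) ^ n i /
        (rp q (n i) : ℂ) = ((∏ i, ((1 - Q i) ^ n i / rp q (n i)) : ℝ) : ℂ) *
        Complex.exp (∑ i, ((n i : ℂ) * (t * (Lw L w i : ℝ) * Complex.I))) := by
      rw [Complex.exp_sum, Complex.ofReal_prod, ← Finset.prod_mul_distrib]
      refine Finset.prod_congr rfl fun i _ => ?_
      rw [mul_pow, ← Complex.exp_nat_mul]
      push_cast
      ring
    rw [h5, hphase n w]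
    have e2 : ∀ (a b c d : ℂ), a * b * (c * d) = c * ((a * b) * d) := by
      intros; ring
    rw [e2, ← Complex.exp_add, ← Complex.exp_add]
    congr 1
    congr 1
    push_cast
    rw [add_mul, sub_mul, Finset.mul_sum (s := Finset.univ) (f := fun i => (n i : ℂ) * (Lw L w i : ℂ)),
      Finset.sum_mul]
    have e3 : ∑ i, ((n i : ℂ) * (t * (Lw L w i : ℂ) * Complex.I)) =
        ∑ i, (t : ℂ) * ((n i : ℂ) * (Lw L w i : ℂ)) * Complex.I :=
      Finset.sum_congr rfl fun i _ => by ring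
    rw [e3]
    ring
  simp only [hkey]
  rw [integral_const_mul, ← integral_tsum_of_summable_integral_norm hint hsn]
  have hI : ∀ n, ∫ w, Fn n w
      = ((c n * ((√(2 * π)) ^ r * Real.exp (-(hs (z n)))) : ℝ) : ℂ) := by
    intro n
    simp only [hFn]
    rw [integral_const_mul, gauss_integral, ← Complex.ofReal_mul]
  simp only [hI]
  rw [← Complex.ofReal_tsum]
  -- pass to the reals
  have hreal : FN A L Q B t
      = Real.exp (t ^ 2 * hs (sv L B)) * (((√(2 * π)) ^ r)⁻¹ *
        ((∏ i, Real.exp (-LamR (1 - Q i) t)) *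
          ∑' n, c n * ((√(2 * π)) ^ r * Real.exp (-(hs (z n)))))) := by
    unfold FN F Nf
    rw [← tsum_mul_right, ← tsum_mul_right, ← tsum_mul_left, ← tsum_mul_left, ← tsum_mul_left]
    refine tsum_congr fun n => ?_
    have hexp := exact_exponent hL hdet hQ B (fun i => (n i : ℝ)) ht
    have hcn : c n = Real.exp (∑ i, (n i : ℝ) * Real.log (1 - Q i)) / ∏ i, rp q (n i) := by
      simp only [hc]
      rw [Finset.prod_div_distrib, Real.exp_sum]
      congr 1
      refine Finset.prod_congr rfl fun i _ => ?_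
      rw [mul_comm, Real.exp_mul, Real.exp_log (hρ i), Real.rpow_natCast]
    have hpr : (∏ i, rp q (n i)) ≠ 0 := Finset.prod_ne_zero_iff.2 fun i _ => (hrp (n i)).ne'
    have hpi : (√(2 * π)) ^ r ≠ 0 := by positivity
    simp only [Fterm]
    rw [hcn, ← hq, ← Real.exp_sum]
    have e3 : Real.exp (t ^ 2 * hs (sv L B)) * (((√(2 * π)) ^ r)⁻¹ *
        (Real.exp (∑ i, -LamR (1 - Q i) t) *
          (Real.exp (∑ i, (n i : ℝ) * Real.log (1 - Q i)) / (∏ i, rp q (n i)) *
            ((√(2 * π)) ^ r * Real.exp (-(hs (z n)))))))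
        = (Real.exp (t ^ 2 * hs (sv L B)) * Real.exp (∑ i, (n i : ℝ) * Real.log (1 - Q i))
          * Real.exp (-(hs (z n))) * Real.exp (∑ i, -LamR (1 - Q i) t)) /
          (∏ i, rp q (n i)) := by
      field_simp
    rw [e3, div_mul_eq_mul_div, div_mul_eq_mul_div]
    congr 1
    rw [← Real.exp_add, ← Real.exp_add, ← Real.exp_add, ← Real.exp_add, ← Real.exp_add]
    congr 1
    rw [Finset.sum_neg_distrib]
    simp only [hz]
    linarith [hexp]
  rw [hreal]
  push_cast
  ring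

end Pool.Agent.Lib.MP_8ce23f_nt.RR
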