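import Pool.Agent.Lib.MP_8ce23f_nt.RR.Defs
import Pool.Agent.Lib.MP_8ce23f_nt.R2.LamSum

/-!
# Summability and the functional equations

As `R2/FShift.lean`, for every rank.
-/

open Filter Topology Asymptotics MeasureTheory
open scoped Real

namespace Pool.Agent.Lib.MP_8ce23f_nt.RR

open Pool.Agent.Lib.MP_8ce23f_nt.R2 (rp Asy E2 Lam LamR Xi)

variable {r : ℕ}

theorem FShift_q {t : ℝ} (ht : 0 < t) : 0 ≤ Real.exp (-t ^ 2) ∧ Real.exp (-t ^ 2) < 1 := by
  refine ⟨(Real.exp_pos _).le, ?_⟩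
  rw [Real.exp_lt_one_iff]
  have : 0 < t ^ 2 := by positivity
  linarith

theorem FShift_quad_dot (A : Matrix (Fin r) (Fin r) ℝ) (x : Fin r → ℝ) :
    ∑ i, ∑ j, x i * A i j * x j = x ⬝ᵥ (A.mulVec x) := by
  simp only [dotProduct, Matrix.mulVec, Finset.mul_sum, mul_assoc]

theorem exists_quad_lower {A : Matrix (Fin r) (Fin r) ℝ} (hA : A.PosDef) :
    ∃ α : ℝ, 0 < α ∧ ∀ x : Fin r → ℝ, α * ∑ i, x i ^ 2 ≤ ∑ i, ∑ j, x i * A i j * x j := by
  have hcont : Continuous fun x : Fin r → ℝ => ∑ i, ∑ j, x i * A i j * x j := by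
    fun_prop
  have hpos : ∀ x : Fin r → ℝ, x ≠ 0 → 0 < ∑ i, ∑ j, x i * A i j * x j := by
    intro x hx
    rw [FShift_quad_dot]
    have := hA.dotProduct_mulVec_pos hx
    simpa using this
  have hK : IsCompact {x : Fin r → ℝ | ∑ i, x i ^ 2 = 1} := by
    apply Metric.isCompact_of_isClosed_isBounded
    · exact isClosed_eq (by fun_prop) continuous_const
    · apply (Metric.isBounded_closedBall (x := (0 : Fin r → ℝ)) (r := 1)).subset
      intro x hx
      rw [mem_closedBall_zero_iff, pi_norm_le_iff_of_nonneg zero_le_one]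
      intro i
      rw [Real.norm_eq_abs]
      apply abs_le_one_iff_mul_self_le_one.2
      have h1 : x i ^ 2 ≤ ∑ i, x i ^ 2 :=
        Finset.single_le_sum (f := fun i => x i ^ 2) (fun i _ => sq_nonneg _) (Finset.mem_univ i)
      have h2 : ∑ i, x i ^ 2 = 1 := hx
      nlinarith
  obtain ⟨α, hα, hmin⟩ : ∃ α : ℝ, 0 < α ∧ ∀ x : Fin r → ℝ, ∑ i, x i ^ 2 = 1 →
      α ≤ ∑ i, ∑ j, x i * A i j * x j := by
    rcases Set.eq_empty_or_nonempty {x : Fin r → ℝ | ∑ i, x i ^ 2 = 1} with h | h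
    · refine ⟨1, one_pos, fun x hx => ?_⟩
      have : x ∈ ({x : Fin r → ℝ | ∑ i, x i ^ 2 = 1}) := hx
      rw [h] at this
      exact this.elim
    · obtain ⟨x0, hx0, hm⟩ := hK.exists_isMinOn h hcont.continuousOn
      refine ⟨_, hpos x0 ?_, fun x hx => hm hx⟩
      rintro rfl
      have h2 : ∑ i : Fin r, ((0 : Fin r → ℝ) i) ^ 2 = 1 := hx0
      simp at h2
  refine ⟨α, hα, fun x => ?_⟩
  rcases eq_or_ne x 0 with rfl | hx
  · simp
  · obtain ⟨s, hs⟩ : ∃ s, s = ∑ i, x i ^ 2 := ⟨_, rfl⟩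
    have hs0 : 0 < s := by
      rw [hs]
      obtain ⟨i, hi⟩ := Function.ne_iff.1 hx
      have hi' : 0 < x i ^ 2 := by
        have : x i ≠ 0 := hi
        positivity
      exact lt_of_lt_of_le hi' (Finset.single_le_sum (f := fun i => x i ^ 2)
        (fun i _ => sq_nonneg _) (Finset.mem_univ i))
    have hr : Real.sqrt s ^ 2 = s := Real.sq_sqrt hs0.le
    have hr0 : 0 < Real.sqrt s := Real.sqrt_pos.2 hs0
    have h1 := hmin (fun i => x i / Real.sqrt s) (by
      simp only [div_pow, hr]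
      rw [← Finset.sum_div, ← hs, div_self hs0.ne'])
    have h2 : ∑ i, ∑ j, x i / Real.sqrt s * A i j * (x j / Real.sqrt s) =
        (∑ i, ∑ j, x i * A i j * x j) / s := by
      rw [Finset.sum_div]
      refine Finset.sum_congr rfl fun i _ => ?_
      rw [Finset.sum_div]
      refine Finset.sum_congr rfl fun j _ => ?_
      nth_rw 3 [← hr]
      field_simp
    rw [h2, le_div_iff₀ hs0] at h1
    rw [← hs]
    exact h1

theorem exists_ex_lower {A : Matrix (Fin r) (Fin r) ℝ} (hA : A.PosDef) (B : Fin r → ℝ) :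
    ∃ α C : ℝ, 0 < α ∧ ∀ n : Fin r → ℕ,
      α * (∑ i, (n i : ℝ)) - C ≤ nex A B (fun i => (n i : ℝ)) := by
  obtain ⟨α, hα, hq⟩ := exists_quad_lower hA
  refine ⟨α / 4, ∑ i, B i ^ 2 / α, by positivity, fun n => ?_⟩
  have h1 := hq fun i => (n i : ℝ)
  have h4 : ∀ u z : ℝ, 0 ≤ α / 4 * u ^ 2 + z * u + z ^ 2 / α := by
    intro u z
    have h5 : α / 4 * u ^ 2 + z * u + z ^ 2 / α = (α * u + 2 * z) ^ 2 / (4 * α) := by
      field_simp
      ring
    rw [h5]
    positivity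
  have h5 : ∑ i, (α / 4 * (n i : ℝ) - B i ^ 2 / α) ≤
      ∑ i, (α / 2 * (n i : ℝ) ^ 2 + B i * (n i : ℝ)) := by
    refine Finset.sum_le_sum fun i _ => ?_
    have h2 : (n i : ℝ) ≤ (n i : ℝ) ^ 2 := by
      have : n i ≤ n i ^ 2 := Nat.le_self_pow (by norm_num) _
      exact_mod_cast this
    have h6 := h4 (n i) (B i)
    nlinarith
  unfold nex
  rw [Finset.sum_sub_distrib, ← Finset.mul_sum, Finset.sum_add_distrib, ← Finset.mul_sum] at h5
  linarith

theorem FShift_geom {ρ : ℝ} (h0 : 0 ≤ ρ) (h1 : ρ < 1) :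
    Summable fun n : Fin r → ℕ => ∏ i, ρ ^ n i := by
  refine summable_of_sum_le (c := ∏ _i : Fin r, (1 - ρ)⁻¹)
    (fun n => Finset.prod_nonneg fun i _ => pow_nonneg h0 _) fun u => ?_
  have hN : ∀ n ∈ u, ∀ i, n i < (u.sup fun n => ∑ i, n i) + 1 := by
    intro n hn i
    have h2 : n i ≤ ∑ i, n i := Finset.single_le_sum (f := n) (fun i _ => Nat.zero_le _)
      (Finset.mem_univ i)
    have h3 : (∑ i, n i) ≤ u.sup fun n => ∑ i, n i :=
      Finset.le_sup (f := fun n : Fin r → ℕ => ∑ i, n i) hn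
    omega
  obtain ⟨N, hN'⟩ : ∃ N, N = (u.sup fun n => ∑ i, n i) + 1 := ⟨_, rfl⟩
  rw [← hN'] at hN
  have hsum := summable_geometric_of_lt_one h0 h1
  calc ∑ n ∈ u, ∏ i, ρ ^ n i
      ≤ ∑ n ∈ Fintype.piFinset (fun _ : Fin r => Finset.range N), ∏ i, ρ ^ n i :=
        Finset.sum_le_sum_of_subset_of_nonneg
          (fun n hn => Fintype.mem_piFinset.2 fun i => Finset.mem_range.2 (hN n hn i))
          (fun n _ _ => Finset.prod_nonneg fun i _ => pow_nonneg h0 _)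
    _ = ∏ _i : Fin r, ∑ k ∈ Finset.range N, ρ ^ k := by
        rw [Finset.prod_univ_sum]
    _ ≤ ∏ _i : Fin r, (1 - ρ)⁻¹ := by
        refine Finset.prod_le_prod (fun i _ => Finset.sum_nonneg fun k _ => pow_nonneg h0 _)
          fun i _ => ?_
        rw [← tsum_geometric_of_lt_one h0 h1]
        exact hsum.sum_le_tsum _ fun k _ => pow_nonneg h0 _

theorem FShift_prodrp_pos {t : ℝ} (ht : 0 < t) (n : Fin r → ℕ) :
    0 < ∏ i, rp (Real.exp (-t ^ 2)) (n i) := by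
  obtain ⟨hq0, hq1⟩ := FShift_q ht
  exact Finset.prod_pos fun i _ => R2.rp_pos hq0 hq1 _

theorem Fterm_pos (A : Matrix (Fin r) (Fin r) ℝ) (B : Fin r → ℝ) {t : ℝ} (ht : 0 < t)
    (n : Fin r → ℕ) : 0 < Fterm A B t n :=
  div_pos (Real.exp_pos _) (FShift_prodrp_pos ht n)

theorem FShift_bound {A : Matrix (Fin r) (Fin r) ℝ} (hA : A.PosDef) (B : Fin r → ℝ) {t : ℝ}
    (ht : 0 < t) : ∃ K ρ : ℝ, 0 ≤ ρ ∧ ρ < 1 ∧ ∀ n : Fin r → ℕ,
      Fterm A B t n ≤ K * ∏ i, ρ ^ n i := by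
  obtain ⟨hq0, hq1⟩ := FShift_q ht
  obtain ⟨α, C, hα, hn⟩ := exists_ex_lower hA B
  obtain ⟨c, hc, hcn⟩ := R2.exists_rp_lower hq0 hq1
  refine ⟨Real.exp (t ^ 2 * C) / ∏ _i : Fin r, c, Real.exp (-(t ^ 2 * α)), (Real.exp_pos _).le, ?_,
    fun n => ?_⟩
  · rw [Real.exp_lt_one_iff]
    have : 0 < t ^ 2 * α := by positivity
    linarith
  · unfold Fterm
    have h0 : (∏ i, Real.exp (-(t ^ 2 * α)) ^ n i) =
        Real.exp (-(t ^ 2 * α) * ∑ i, (n i : ℝ)) := by
      rw [Finset.mul_sum, Real.exp_sum]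
      refine Finset.prod_congr rfl fun i _ => ?_
      rw [← Real.exp_nat_mul, mul_comm]
    have h1 : Real.exp (-(t ^ 2 * nex A B fun i => (n i : ℝ))) ≤
        Real.exp (t ^ 2 * C) * ∏ i, Real.exp (-(t ^ 2 * α)) ^ n i := by
      rw [h0, ← Real.exp_add]
      apply Real.exp_le_exp.2
      have h2 := mul_le_mul_of_nonneg_left (hn n) (sq_nonneg t)
      nlinarith
    have h3 : (∏ _i : Fin r, c) ≤ ∏ i, rp (Real.exp (-t ^ 2)) (n i) :=
      Finset.prod_le_prod (fun i _ => hc.le) fun i _ => hcn _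
    have hcp : 0 < ∏ _i : Fin r, c := Finset.prod_pos fun i _ => hc
    have hpp : 0 ≤ ∏ i, Real.exp (-(t ^ 2 * α)) ^ n i :=
      Finset.prod_nonneg fun i _ => by positivity
    calc _ ≤ (Real.exp (t ^ 2 * C) * ∏ i, Real.exp (-(t ^ 2 * α)) ^ n i) / ∏ _i : Fin r, c :=
          div_le_div₀ (by positivity) h1 hcp h3
      _ = _ := by ring

theorem summable_Fterm {A : Matrix (Fin r) (Fin r) ℝ} (hA : A.PosDef) (B : Fin r → ℝ) {t : ℝ}
    (ht : 0 < t) : Summable (Fterm A B t) := by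
  obtain ⟨K, ρ, hr0, hr1, hb⟩ := FShift_bound hA B ht
  exact Summable.of_nonneg_of_le (fun n => (Fterm_pos A B ht n).le) hb
    ((FShift_geom hr0 hr1).mul_left K)

theorem F_pos {A : Matrix (Fin r) (Fin r) ℝ} (hA : A.PosDef) (B : Fin r → ℝ) {t : ℝ}
    (ht : 0 < t) : 0 < F A B t :=
  (summable_Fterm hA B ht).tsum_pos (fun n => (Fterm_pos A B ht n).le) 0 (Fterm_pos A B ht _)

theorem FShift_ex_dot (A : Matrix (Fin r) (Fin r) ℝ) (B n : Fin r → ℝ) :
    nex A B n = n ⬝ᵥ (A.mulVec n) / 2 + B ⬝ᵥ n := by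
  unfold nex
  rw [FShift_quad_dot]
  rfl

theorem FShift_shift (A : Matrix (Fin r) (Fin r) ℝ) (B : Fin r → ℝ) (i : Fin r) (t : ℝ)
    (n : Fin r → ℕ) : Fterm A (B + Pi.single i 1) t n =
      Fterm A B t n * Real.exp (-t ^ 2) ^ n i := by
  unfold Fterm
  rw [← Real.exp_nat_mul, div_mul_eq_mul_div, ← Real.exp_add]
  have h : nex A (B + Pi.single i 1) (fun j => (n j : ℝ)) = nex A B (fun j => (n j : ℝ)) + n i := by
    rw [FShift_ex_dot, FShift_ex_dot, add_dotProduct, single_one_dotProduct]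
    ring
  rw [h]
  congr 2
  ring

theorem FShift_exshift {A : Matrix (Fin r) (Fin r) ℝ} (hA : A.PosDef) (B : Fin r → ℝ)
    (i : Fin r) (x : Fin r → ℝ) :
    nex A B (x + Pi.single i 1) = A i i / 2 + B i + nex A (B + A i) x := by
  have hs : ∀ j k, A j k = A k j := by
    intro j k
    have := hA.isHermitian.apply j k
    simpa using this.symm
  have h1 : x ⬝ᵥ (A.mulVec (Pi.single i 1)) = A i ⬝ᵥ x := by
    rw [Matrix.mulVec_single_one]
    unfold dotProduct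
    refine Finset.sum_congr rfl fun j _ => ?_
    rw [Matrix.col_apply, hs j i, mul_comm]
  have h2 : (Pi.single i 1 : Fin r → ℝ) ⬝ᵥ (A.mulVec x) = A i ⬝ᵥ x := by
    rw [single_one_dotProduct]
    rfl
  have h3 : (Pi.single i 1 : Fin r → ℝ) ⬝ᵥ (A.mulVec (Pi.single i 1)) = A i i := by
    rw [single_one_dotProduct, Matrix.mulVec_single_one]
    rfl
  rw [FShift_ex_dot, FShift_ex_dot, Matrix.mulVec_add, add_dotProduct, dotProduct_add,
    dotProduct_add, h1, h2, h3, dotProduct_add, dotProduct_single_one, add_dotProduct]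
  ring

theorem FShift_succ {A : Matrix (Fin r) (Fin r) ℝ} (hA : A.PosDef) (B : Fin r → ℝ) (i : Fin r)
    {t : ℝ} (ht : 0 < t) (n : Fin r → ℕ) :
    Fterm A B t (n + Pi.single i 1) - Fterm A (B + Pi.single i 1) t (n + Pi.single i 1) =
      Real.exp (-(t ^ 2 * (A i i / 2 + B i))) * Fterm A (B + A i) t n := by
  obtain ⟨hq0, hq1⟩ := FShift_q ht
  rw [FShift_shift]
  obtain ⟨m, hm⟩ : ∃ m : Fin r → ℕ, m = n + Pi.single i 1 := ⟨_, rfl⟩
  rw [← hm]
  have hni : m i = n i + 1 := by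
    rw [hm]
    simp
  have hnj : ∀ j, j ≠ i → m j = n j := by
    intro j hj
    rw [hm]
    simp [hj]
  rw [hni]
  have hcast : (fun j => ((m j : ℕ) : ℝ)) = (fun j => (n j : ℝ)) + Pi.single i 1 := by
    funext j
    rcases eq_or_ne j i with rfl | hj
    · simp [hni]
    · simp [hj, hnj j hj]
  have h1 : ∏ j, rp (Real.exp (-t ^ 2)) (m j) =
      (∏ j, rp (Real.exp (-t ^ 2)) (n j)) * (1 - Real.exp (-t ^ 2) ^ (n i + 1)) := by
    rw [← Finset.mul_prod_erase Finset.univ (fun j => rp (Real.exp (-t ^ 2)) (m j))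
        (Finset.mem_univ i),
      ← Finset.mul_prod_erase Finset.univ (fun j => rp (Real.exp (-t ^ 2)) (n j))
        (Finset.mem_univ i), hni]
    have h2 : ∏ j ∈ Finset.univ.erase i, rp (Real.exp (-t ^ 2)) (m j) =
        ∏ j ∈ Finset.univ.erase i, rp (Real.exp (-t ^ 2)) (n j) := by
      refine Finset.prod_congr rfl fun j hj => ?_
      rw [hnj j (Finset.ne_of_mem_erase hj)]
    rw [h2]
    have h3 : rp (Real.exp (-t ^ 2)) (n i + 1) =
        rp (Real.exp (-t ^ 2)) (n i) * (1 - Real.exp (-t ^ 2) ^ (n i + 1)) := by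
      unfold rp
      rw [Finset.prod_range_succ]
    rw [h3]
    ring
  have h2 : 0 < ∏ j, rp (Real.exp (-t ^ 2)) (n j) := FShift_prodrp_pos ht n
  have h3 : 0 < ∏ j, rp (Real.exp (-t ^ 2)) (m j) := FShift_prodrp_pos ht _
  have h5 : 0 < 1 - Real.exp (-t ^ 2) ^ (n i + 1) := by
    rw [h1] at h3
    exact (pos_iff_pos_of_mul_pos h3).1 h2
  have h6 : Real.exp (-(t ^ 2 * nex A B fun j => ((m j : ℕ) : ℝ))) =
      Real.exp (-(t ^ 2 * (A i i / 2 + B i))) *
        Real.exp (-(t ^ 2 * nex A (B + A i) fun j => (n j : ℝ))) := by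
    rw [hcast, FShift_exshift hA, ← Real.exp_add]
    congr 1
    ring
  unfold Fterm
  rw [h6, h1]
  have h2' := h2.ne'
  have h5' := h5.ne'
  field_simp

theorem F_shift {A : Matrix (Fin r) (Fin r) ℝ} (hA : A.PosDef) (B : Fin r → ℝ) (i : Fin r)
    {t : ℝ} (ht : 0 < t) :
    F A B t - F A (B + Pi.single i 1) t =
      Real.exp (-(t ^ 2 * (A i i / 2 + B i))) * F A (B + A i) t := by
  unfold F
  rw [← (summable_Fterm hA B ht).tsum_sub (summable_Fterm hA (B + Pi.single i 1) ht),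
    ← tsum_mul_left]
  have hinj : Function.Injective (fun n : Fin r → ℕ => n + Pi.single i 1) :=
    add_left_injective _
  refine (hinj.tsum_eq
    (f := fun n : Fin r → ℕ => Fterm A B t n - Fterm A (B + Pi.single i 1) t n) ?_).symm.trans
    (tsum_congr fun n => FShift_succ hA B i ht n)
  intro n hn
  rcases Nat.eq_zero_or_pos (n i) with h0 | h0
  · exfalso
    apply hn
    show Fterm A B t n - Fterm A (B + Pi.single i 1) t n = 0
    rw [FShift_shift, h0, pow_zero, mul_one, sub_self]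
  · refine ⟨n - Pi.single i 1, ?_⟩
    show n - Pi.single i 1 + Pi.single i 1 = n
    funext j
    rcases eq_or_ne j i with rfl | hj
    · simp only [Pi.add_apply, Pi.sub_apply, Pi.single_eq_same]
      omega
    · simp [hj]

end Pool.Agent.Lib.MP_8ce23f_nt.RR
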