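import Pool.Agent.Lib.MP_8ce23f_nt.RR.Defs
import Pool.Agent.Lib.MP_8ce23f_nt.R2.LogDer

/-!
# The logarithmic derivative

As the last part of `R2/LogDer.lean`, for every rank.
-/

open Filter Topology Asymptotics MeasureTheory
open scoped Real

namespace Pool.Agent.Lib.MP_8ce23f_nt.RR

open Pool.Agent.Lib.MP_8ce23f_nt.R2 (rp Asy E2 Lam LamR Xi)

variable {r : ℕ}

/-- `L` is the logarithmic derivative of `Γ`. -/
def IsLogDer (Γ L : PowerSeries (P r)) : Prop :=
  PowerSeries.X * PowerSeries.derivative (P r) Γ = L * Γ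

theorem exists_TD {A : Matrix (Fin r) (Fin r) ℂ} {Q : Fin r → ℂ} {Γ : PowerSeries (P r)} {γ : ℂ}
    (hγ : γ ≠ 0) (h0 : PowerSeries.constantCoeff Γ = MvPolynomial.C γ) (hFE : IsFE A Q Γ) :
    ∃ (L : PowerSeries (P r)) (R S : Fin r → PowerSeries (P r)), IsLogDer Γ L ∧
      TD A Q L R S := by
  have hu : IsUnit Γ := by
    rw [PowerSeries.isUnit_iff_constantCoeff, h0]
    exact (IsUnit.mk0 γ hγ).map (MvPolynomial.C : ℂ →+* P r)
  obtain ⟨Γ', h1⟩ := hu.exists_right_inv
  have hL : PowerSeries.X * PowerSeries.derivative (P r) Γ =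
      (PowerSeries.X * PowerSeries.derivative (P r) Γ * Γ') * Γ := by
    calc PowerSeries.X * PowerSeries.derivative (P r) Γ =
        PowerSeries.X * PowerSeries.derivative (P r) Γ * (Γ * Γ') := by rw [h1, mul_one]
      _ = _ := by ring
  have hc : PowerSeries.constantCoeff Γ' * MvPolynomial.C γ = 1 := by
    have := congrArg PowerSeries.constantCoeff h1
    rw [map_mul, h0, map_one] at this
    rw [mul_comm]
    exact this
  have hcm : ∀ v : Fin r → ℂ, PowerSeries.constantCoeff (PowerSeries.map (sh v : P r →+* P r) Γ * Γ') = 1 := by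
    intro v
    rw [map_mul, ← PowerSeries.coeff_zero_eq_constantCoeff_apply, PowerSeries.coeff_map,
      PowerSeries.coeff_zero_eq_constantCoeff_apply, h0]
    have h2 : ((sh v : P r →+* P r)) (MvPolynomial.C γ) = MvPolynomial.C γ := by
      show sh v (MvPolynomial.C γ) = MvPolynomial.C γ
      unfold sh
      rw [MvPolynomial.aeval_C]
      rfl
    rw [h2, mul_comm]
    exact hc
  refine ⟨PowerSeries.X * PowerSeries.derivative (P r) Γ * Γ',
    fun i => PowerSeries.map (sh (Pi.single i 1) : P r →+* P r) Γ * Γ',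
    fun i => (E2 (-(MvPolynomial.X i + MvPolynomial.C (A i i / 2)) : P r) *
      PowerSeries.map (sh (A i) : P r →+* P r) Γ) * Γ', hL, ?_⟩
  refine { L0 := ?_, R0 := ?_, S0 := ?_, Rθ := ?_, Sθ := ?_, fe := ?_ }
  · rw [map_mul, map_mul, PowerSeries.constantCoeff_X, zero_mul, zero_mul]
  · intro i
    exact hcm _
  · intro i
    show PowerSeries.constantCoeff ((E2 (-(MvPolynomial.X i + MvPolynomial.C (A i i / 2)) : P r) *
      PowerSeries.map (sh (A i) : P r →+* P r) Γ) * Γ') = 1
    rw [mul_assoc, map_mul, R2.LogDer_const_E2, one_mul]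
    exact hcm _
  · intro i
    exact R2.LogDer_quot (R2.LogDer_map _ hL) hL h1
  · intro i
    exact R2.LogDer_neg (R2.LogDer_quot (R2.LogDer_mul_E2 (R2.LogDer_map _ hL) _) hL h1)
  · intro i
    exact R2.LogDer_fe (hFE i) h1

theorem logDer_eval {Γ L : PowerSeries (P r)} {γ : ℂ} (hγ : γ ≠ 0)
    (h0 : PowerSeries.constantCoeff Γ = MvPolynomial.C γ) (hL : IsLogDer Γ L)
    {z z₀ : Fin r → ℂ} {c : ℂ}
    (h : PowerSeries.map (MvPolynomial.eval z) Γ =
      E2 c * PowerSeries.map (MvPolynomial.eval z₀) Γ) {k : ℕ} (hk : 3 ≤ k) :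
    MvPolynomial.eval z (PowerSeries.coeff k L) = MvPolynomial.eval z₀ (PowerSeries.coeff k L) := by
  have h1 := R2.LogDer_map (MvPolynomial.eval z) hL
  have h2 := R2.LogDer_mul_E2 (R2.LogDer_map (MvPolynomial.eval z₀) hL) c
  rw [← h, h1] at h2
  have hne : PowerSeries.map (MvPolynomial.eval z) Γ ≠ 0 := by
    intro h3
    have h4 := congrArg (PowerSeries.coeff 0) h3
    rw [PowerSeries.coeff_map, PowerSeries.coeff_zero_eq_constantCoeff_apply, h0, map_zero] at h4
    apply hγ
    have h5 : MvPolynomial.eval z (MvPolynomial.C γ) = γ := MvPolynomial.eval_C _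
    rw [← h5]
    exact h4
  have h3 := mul_right_cancel₀ hne h2
  have h4 := congrArg (PowerSeries.coeff k) h3
  rw [PowerSeries.coeff_map, map_add, PowerSeries.coeff_map] at h4
  rw [h4]
  have h5 : PowerSeries.coeff k (2 * PowerSeries.X ^ 2 * PowerSeries.C c : PowerSeries ℂ) = 0 := by
    have h6 : (2 * PowerSeries.X ^ 2 * PowerSeries.C c : PowerSeries ℂ) =
        PowerSeries.X ^ 2 * PowerSeries.C (2 * c) := by
      rw [map_mul, map_ofNat]
      ring
    rw [h6, PowerSeries.coeff_X_pow_mul', if_pos (by omega), PowerSeries.coeff_C, if_neg (by omega)]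
  rw [h5, zero_add]

end Pool.Agent.Lib.MP_8ce23f_nt.RR
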