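import Pool.Agent.Lib.MP_8ce23f_nt.RR.NDefs

/-!
# The derivative of `hfun` and its tangents

`phi y = ∑ exp (-(n+1) y)/(n+1)` for `y > 0` (`Real.hasSum_pow_div_log_of_abs_lt_one`).
Derivative: `hasDerivAt_tsum_of_isPreconnected` (or `hasDerivAt_tsum`) on `(y/2, ∞)`, where the derivatives are bounded by
`exp (-(n+1) y/2)`.  Tangent inequality: termwise, `1 - exp (-n z) ≤ 1 - exp (-n y) + n exp (-n y) (z - y)`
(convexity of `exp`: `exp (-n z) ≥ exp (-n y) (1 + (-n z + n y))`, `Real.add_one_le_exp`), divide by `n²` and sum.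
`hfun_ge`: tangent inequality at `y` with `z = 0` and `hfun 0 = 0` (all terms vanish).
-/

open Filter Topology

namespace Pool.Agent.Lib.MP_8ce23f_nt.RR

variable {r : ℕ}

private theorem n02_exp_lt {y : ℝ} (hy : 0 < y) : Real.exp (-y) < 1 := by
  rw [Real.exp_lt_one_iff]; linarith

private theorem n02_summable {y : ℝ} (hy : 0 ≤ y) :
    Summable fun n : ℕ => (1 - Real.exp (-(((n : ℝ) + 1) * y))) / ((n : ℝ) + 1) ^ 2 := by
  have h1 : Summable fun n : ℕ => 1 / ((n : ℝ) + 1) ^ 2 := by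
    have h := (summable_nat_add_iff 1).2 (Real.summable_one_div_nat_pow.2 (le_refl 2))
    refine h.congr fun n => ?_
    push_cast
    rfl
  refine Summable.of_nonneg_of_le (fun n => ?_) (fun n => ?_) h1
  · have : Real.exp (-(((n : ℝ) + 1) * y)) ≤ 1 := by
      rw [Real.exp_le_one_iff]
      have : (0 : ℝ) ≤ ((n : ℝ) + 1) * y := by positivity
      linarith
    have h2 : (0 : ℝ) ≤ 1 - Real.exp (-(((n : ℝ) + 1) * y)) := by linarith
    positivity
  · have : 0 < Real.exp (-(((n : ℝ) + 1) * y)) := Real.exp_pos _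
    have h3 : (0 : ℝ) < ((n : ℝ) + 1) ^ 2 := by positivity
    rw [div_le_div_iff_of_pos_right h3]
    linarith

theorem phi_hasSum {y : ℝ} (hy : 0 < y) :
    HasSum (fun n : ℕ => Real.exp (-(((n : ℝ) + 1) * y)) / ((n : ℝ) + 1)) (phi y) := by
  have hlt : |Real.exp (-y)| < 1 := by
    rw [abs_of_pos (Real.exp_pos _)]; exact n02_exp_lt hy
  have h := Real.hasSum_pow_div_log_of_abs_lt_one hlt
  refine h.congr_fun ?_
  intro n
  rw [← Real.exp_nat_mul]
  congr 2
  push_cast
  ring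

theorem phi_pos {y : ℝ} (hy : 0 < y) : 0 < phi y := by
  have h1 := n02_exp_lt hy
  have h2 := Real.exp_pos (-y)
  have h3 : Real.log (1 - Real.exp (-y)) < 0 := Real.log_neg (by linarith) (by linarith)
  unfold phi
  linarith

theorem phi_strictAnti : StrictAntiOn phi (Set.Ioi 0) := by
  intro a ha b hb hab
  have ha' : (0 : ℝ) < a := ha
  have h1 := n02_exp_lt ha'
  have h2 : Real.exp (-b) < Real.exp (-a) := Real.exp_lt_exp.2 (by linarith)
  have h3 : Real.log (1 - Real.exp (-a)) < Real.log (1 - Real.exp (-b)) :=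
    Real.log_lt_log (by linarith) (by linarith)
  unfold phi
  linarith

/-- `phi y → ∞` as `y → 0+`. -/
theorem phi_large (K : ℝ) : ∃ ε : ℝ, 0 < ε ∧ ∀ y : ℝ, 0 < y → y < ε → K < phi y := by
  refine ⟨Real.exp (-K), Real.exp_pos _, fun y hy hyK => ?_⟩
  have h1 := n02_exp_lt hy
  have h2 := Real.add_one_le_exp (-y)
  have h3 : Real.log (1 - Real.exp (-y)) ≤ Real.log y :=
    Real.log_le_log (by linarith) (by linarith)
  have h4 : Real.log y < -K := by
    have := Real.log_lt_log hy hyK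
    rwa [Real.log_exp] at this
  unfold phi
  linarith

theorem phi_analyticAt {y : ℝ} (hy : 0 < y) : AnalyticAt ℝ phi y := by
  have h1 := n02_exp_lt hy
  have h2 : AnalyticAt ℝ (fun z : ℝ => 1 - Real.exp (-z)) y := by fun_prop
  have h3 : AnalyticAt ℝ (fun z : ℝ => Real.log (1 - Real.exp (-z))) y := by
    have h4 : AnalyticAt ℝ Real.log (1 - Real.exp (-y)) := analyticAt_log (by linarith)
    exact AnalyticAt.comp_of_eq h4 h2 rfl
  exact h3.neg

theorem phi_hasDerivAt {y : ℝ} (hy : 0 < y) :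
    HasDerivAt phi (-(Real.exp (-y) / (1 - Real.exp (-y)))) y := by
  have h1 := n02_exp_lt hy
  have h2 : HasDerivAt (fun z : ℝ => 1 - Real.exp (-z)) (Real.exp (-y)) y := by
    have h3 : HasDerivAt (fun z : ℝ => Real.exp (-z)) (Real.exp (-y) * (-1)) y :=
      (hasDerivAt_neg y).exp
    have h4 := h3.const_sub 1
    have h5 : -(Real.exp (-y) * (-1)) = Real.exp (-y) := by ring
    rw [h5] at h4
    exact h4
  have h6 : HasDerivAt (fun z : ℝ => Real.log (1 - Real.exp (-z)))
      (Real.exp (-y) / (1 - Real.exp (-y))) y := h2.log (by linarith)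
  exact h6.neg

theorem hfun_hasDerivAt {y : ℝ} (hy : 0 < y) : HasDerivAt hfun (phi y) y := by
  have hy2 : 0 < y / 2 := by linarith
  have hsum := (phi_hasSum hy2).summable
  have hmain := hasDerivAt_tsum_of_isPreconnected
    (g := fun (n : ℕ) (z : ℝ) => (1 - Real.exp (-(((n : ℝ) + 1) * z))) / ((n : ℝ) + 1) ^ 2)
    (g' := fun (n : ℕ) (z : ℝ) => Real.exp (-(((n : ℝ) + 1) * z)) / ((n : ℝ) + 1))
    (t := Set.Ioi (y / 2)) (y₀ := y) (y := y) hsum isOpen_Ioi isPreconnected_Ioi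
    (fun n z _ => ?_) (fun n z hz => ?_) (by show y / 2 < y; linarith) (n02_summable hy.le)
    (by show y / 2 < y; linarith)
  · rw [(phi_hasSum hy).tsum_eq] at hmain
    exact hmain
  · have h3 : HasDerivAt (fun z : ℝ => -(((n : ℝ) + 1) * z)) (-((n : ℝ) + 1)) z := by
      have h := ((hasDerivAt_id' z).const_mul ((n : ℝ) + 1)).neg
      rw [mul_one] at h
      exact h
    have h4 := ((h3.exp).const_sub 1).div_const (((n : ℝ) + 1) ^ 2)
    have h5 : -(Real.exp (-(((n : ℝ) + 1) * z)) * -((n : ℝ) + 1)) / ((n : ℝ) + 1) ^ 2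
        = Real.exp (-(((n : ℝ) + 1) * z)) / ((n : ℝ) + 1) := by
      have : ((n : ℝ) + 1) ≠ 0 := by positivity
      field_simp
    rw [h5] at h4
    exact h4
  · have hz' : y / 2 < z := hz
    have h6 : (0 : ℝ) < (n : ℝ) + 1 := by positivity
    rw [Real.norm_eq_abs, abs_of_pos (by positivity), div_le_div_iff_of_pos_right h6]
    apply Real.exp_le_exp.2
    nlinarith

theorem hfun_le_tangent {y z : ℝ} (hy : 0 < y) (hz : 0 ≤ z) :
    hfun z ≤ hfun y + phi y * (z - y) := by
  have h1 := (n02_summable hz).hasSum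
  have h2 := (n02_summable hy.le).hasSum
  have h3 := (phi_hasSum hy).mul_right (z - y)
  have h4 := h2.add h3
  refine hasSum_le (fun n => ?_) h1 h4
  have hm : (0 : ℝ) < (n : ℝ) + 1 := by positivity
  have h5 := Real.add_one_le_exp (-(((n : ℝ) + 1) * (z - y)))
  have h6 : Real.exp (-(((n : ℝ) + 1) * z))
      = Real.exp (-(((n : ℝ) + 1) * y)) * Real.exp (-(((n : ℝ) + 1) * (z - y))) := by
    rw [← Real.exp_add]
    congr 1
    ring
  have h7 : Real.exp (-(((n : ℝ) + 1) * y)) * (-(((n : ℝ) + 1) * (z - y)) + 1)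
      ≤ Real.exp (-(((n : ℝ) + 1) * z)) := by
    rw [h6]
    exact mul_le_mul_of_nonneg_left h5 (Real.exp_pos _).le
  have h8 : (1 - Real.exp (-(((n : ℝ) + 1) * y))) / ((n : ℝ) + 1) ^ 2
        + Real.exp (-(((n : ℝ) + 1) * y)) / ((n : ℝ) + 1) * (z - y)
      = ((1 - Real.exp (-(((n : ℝ) + 1) * y)))
        + Real.exp (-(((n : ℝ) + 1) * y)) * (((n : ℝ) + 1) * (z - y))) / ((n : ℝ) + 1) ^ 2 := by
    field_simp
  rw [h8, div_le_div_iff_of_pos_right (by positivity)]
  nlinarith [h7]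

theorem hfun_ge {y : ℝ} (hy : 0 < y) : y * phi y ≤ hfun y := by
  have h1 := hfun_le_tangent hy (le_refl (0 : ℝ))
  have h2 : hfun 0 = 0 := by
    unfold hfun
    simp
  rw [h2] at h1
  nlinarith [h1]

end Pool.Agent.Lib.MP_8ce23f_nt.RR
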