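import Pool.Agent.Lib.MP_8ce23f_nt.RR.N01
import Pool.Agent.Lib.MP_8ce23f_nt.RR.N02

/-!
# Existence of the solution of the saddle point equation

Put `J z = obj A univ z - ∑ x_i z_i`.  On `{z | ∀ i, 0 ≤ z i}` it is continuous (`hfun_continuousOn`) and
`J z ≤ r π²/6 + |x||z| - (c/2) |z|²` with `c > 0` (positive definite: minimum of the form on the unit sphere, or use
`0 < c` with `c ∑ z_i² ≤ zᵀ A z`); `J 0 = 0`.  So `J` attains its maximum over `{z ≥ 0}` at some `y`
(compact set `{z ≥ 0, |z| ≤ R}`).  `y_i > 0`: otherwise `y_i = 0`, and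
`J (y + ε e_i) - J y = hfun ε - ε (x_i + (A y)_i) - ε² A_ii/2 ≥ ε (phi ε - x_i - (A y)_i - ε A_ii/2) > 0` for small
`ε` (`hfun_ge`, `phi_large`).  As `y` is an interior maximum the derivative of `J` in direction `e_i` vanishes:
`phi (y_i) = x_i + (A y)_i`.  (`A` is symmetric: `hA.isHermitian`.)
-/

open Filter Topology

namespace Pool.Agent.Lib.MP_8ce23f_nt.RR

variable {r : ℕ}

theorem n03_qd_pos {A : Matrix (Fin r) (Fin r) ℝ} (hA : A.PosDef) {z : Fin r → ℝ} (hz : z ≠ 0) :
    0 < qd A z := by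
  have h := hA.dotProduct_mulVec_pos hz
  have e : qd A z = star z ⬝ᵥ (A.mulVec z) := by
    simp only [qd, dotProduct, Matrix.mulVec, star_trivial]
    refine Finset.sum_congr rfl fun i _ => ?_
    rw [Finset.mul_sum]
    exact Finset.sum_congr rfl fun j _ => by ring
  rw [e]
  exact h

theorem n03_qd_continuous (A : Matrix (Fin r) (Fin r) ℝ) : Continuous (qd A) := by
  unfold qd
  fun_prop

theorem n03_qd_smul (A : Matrix (Fin r) (Fin r) ℝ) (c : ℝ) (z : Fin r → ℝ) :
    qd A (fun i => c * z i) = c ^ 2 * qd A z := by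
  simp only [qd, Finset.mul_sum]
  exact Finset.sum_congr rfl fun i _ => Finset.sum_congr rfl fun j _ => by ring

/-- Coercivity of a positive definite form. -/
theorem qd_ge {A : Matrix (Fin r) (Fin r) ℝ} (hA : A.PosDef) :
    ∃ c : ℝ, 0 < c ∧ ∀ z : Fin r → ℝ, c * ∑ i, z i ^ 2 ≤ qd A z := by
  classical
  set K : Set (Fin r → ℝ) := {z | ∑ i, z i ^ 2 = 1} with hK
  have hKsub : K ⊆ Set.Icc (fun _ => -1) (fun _ => 1) := by
    intro z hz
    have h1 : ∀ i, z i ^ 2 ≤ 1 := fun i => by
      have h2 : z i ^ 2 ≤ ∑ j, z j ^ 2 :=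
        Finset.single_le_sum (f := fun j => z j ^ 2) (fun j _ => sq_nonneg (z j))
          (Finset.mem_univ i)
      rw [hz] at h2
      exact h2
    constructor
    · intro i
      have := h1 i
      show -1 ≤ z i
      nlinarith
    · intro i
      have := h1 i
      show z i ≤ 1
      nlinarith
  have hKc : IsCompact K := by
    refine IsCompact.of_isClosed_subset isCompact_Icc ?_ hKsub
    exact isClosed_eq (by fun_prop) continuous_const
  rcases K.eq_empty_or_nonempty with hE | hN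
  · refine ⟨1, one_pos, fun z => ?_⟩
    have hz : z = 0 := by
      by_contra hz
      have hs : 0 < ∑ i, z i ^ 2 := by
        obtain ⟨i, hi⟩ := Function.ne_iff.1 hz
        have hi' : z i ≠ 0 := hi
        exact Finset.sum_pos' (fun j _ => sq_nonneg (z j))
          ⟨i, Finset.mem_univ i, by positivity⟩
      have : (fun i => (Real.sqrt (∑ i, z i ^ 2))⁻¹ * z i) ∈ K := by
        show ∑ i, ((Real.sqrt (∑ i, z i ^ 2))⁻¹ * z i) ^ 2 = 1
        simp only [mul_pow, ← Finset.mul_sum]
        rw [inv_pow, Real.sq_sqrt hs.le, inv_mul_cancel₀ hs.ne']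
      rw [hE] at this
      exact this
    subst hz
    simp [qd]
  · obtain ⟨z0, hz0, hmin⟩ := hKc.exists_isMinOn hN (n03_qd_continuous A).continuousOn
    have hz0' : z0 ≠ 0 := by
      rintro rfl
      have : ∑ i : Fin r, (0 : Fin r → ℝ) i ^ 2 = 1 := hz0
      simp at this
    refine ⟨qd A z0, n03_qd_pos hA hz0', fun z => ?_⟩
    by_cases hz : z = 0
    · subst hz
      simp [qd]
    · have hs : 0 < ∑ i, z i ^ 2 := by
        obtain ⟨i, hi⟩ := Function.ne_iff.1 hz
        have hi' : z i ≠ 0 := hi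
        exact Finset.sum_pos' (fun j _ => sq_nonneg (z j))
          ⟨i, Finset.mem_univ i, by positivity⟩
      have hm : (fun i => (Real.sqrt (∑ i, z i ^ 2))⁻¹ * z i) ∈ K := by
        show ∑ i, ((Real.sqrt (∑ i, z i ^ 2))⁻¹ * z i) ^ 2 = 1
        simp only [mul_pow, ← Finset.mul_sum]
        rw [inv_pow, Real.sq_sqrt hs.le, inv_mul_cancel₀ hs.ne']
      have h2 : qd A z0 ≤ qd A (fun i => (Real.sqrt (∑ i, z i ^ 2))⁻¹ * z i) := hmin hm
      rw [n03_qd_smul, inv_pow, Real.sq_sqrt hs.le] at h2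
      have h3 : qd A z0 * ∑ i, z i ^ 2 ≤ ((∑ i, z i ^ 2)⁻¹ * qd A z) * ∑ i, z i ^ 2 :=
        mul_le_mul_of_nonneg_right h2 hs.le
      have h4 : ((∑ i, z i ^ 2)⁻¹ * qd A z) * ∑ i, z i ^ 2 = qd A z := by
        field_simp
      rw [h4] at h3
      exact h3

theorem qd_pos {A : Matrix (Fin r) (Fin r) ℝ} (hA : A.PosDef) {z : Fin r → ℝ} (hz : z ≠ 0) :
    0 < qd A z := n03_qd_pos hA hz

theorem n03_symm {A : Matrix (Fin r) (Fin r) ℝ} (hA : A.PosDef) (i j : Fin r) :
    A i j = A j i := by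
  have h := hA.isHermitian.apply i j
  rw [star_trivial] at h
  exact h.symm

/-- The objective. -/
noncomputable def n03J (A : Matrix (Fin r) (Fin r) ℝ) (x z : Fin r → ℝ) : ℝ :=
  obj A Finset.univ z - ∑ i, x i * z i

theorem n03J_eq (A : Matrix (Fin r) (Fin r) ℝ) (x z : Fin r → ℝ) :
    n03J A x z = ∑ i, hfun (z i) - 1 / 2 * qd A z - ∑ i, x i * z i := rfl

theorem n03_qd_add {A : Matrix (Fin r) (Fin r) ℝ} (hA : A.PosDef) (y : Fin r → ℝ) (i : Fin r)
    (t : ℝ) : qd A (fun j => y j + if j = i then t else 0) =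
      qd A y + 2 * t * ∑ j, A i j * y j + t ^ 2 * A i i := by
  have e1 : qd A (fun j => y j + if j = i then t else 0) =
      ∑ a, ∑ b, (y a * A a b * y b + (if a = i then t * (A a b * y b) else 0) +
        (if b = i then y a * A a b * t else 0) +
        (if a = i then (if b = i then t * A a b * t else 0) else 0)) := by
    refine Finset.sum_congr rfl fun a _ => Finset.sum_congr rfl fun b _ => ?_
    show (y a + if a = i then t else 0) * A a b * (y b + if b = i then t else 0) = _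
    split_ifs <;> ring
  rw [e1]
  simp only [Finset.sum_add_distrib]
  have e2 : ∑ a, ∑ b, (if a = i then t * (A a b * y b) else 0) = t * ∑ j, A i j * y j := by
    rw [Finset.sum_eq_single i]
    · simp [Finset.mul_sum]
    · intro a _ ha
      simp [ha]
    · intro h
      exact absurd (Finset.mem_univ i) h
  have e3 : ∑ a, ∑ b, (if b = i then y a * A a b * t else 0) = t * ∑ j, A i j * y j := by
    rw [Finset.mul_sum]
    refine Finset.sum_congr rfl fun a _ => ?_
    rw [Finset.sum_ite_eq' Finset.univ i fun b => y a * A a b * t]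
    simp only [Finset.mem_univ, if_true]
    rw [n03_symm hA a i]
    ring
  have e4 : ∑ a, ∑ b, (if a = i then (if b = i then t * A a b * t else 0) else 0) =
      t ^ 2 * A i i := by
    rw [Finset.sum_eq_single i]
    · simp
      ring
    · intro a _ ha
      simp [ha]
    · intro h
      exact absurd (Finset.mem_univ i) h
  rw [e2, e3, e4]
  show qd A y + t * ∑ j, A i j * y j + t * ∑ j, A i j * y j + t ^ 2 * A i i = _
  ring

theorem n03J_add {A : Matrix (Fin r) (Fin r) ℝ} (hA : A.PosDef) (x y : Fin r → ℝ) (i : Fin r)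
    (t : ℝ) : n03J A x (fun j => y j + if j = i then t else 0) =
      n03J A x y + (hfun (y i + t) - hfun (y i)) - t * (x i + ∑ j, A i j * y j) -
        t ^ 2 / 2 * A i i := by
  rw [n03J_eq, n03J_eq, n03_qd_add hA]
  have e1 : ∑ j, hfun (y j + if j = i then t else 0) - ∑ j, hfun (y j) =
      hfun (y i + t) - hfun (y i) := by
    rw [← Finset.sum_sub_distrib, Finset.sum_eq_single i]
    · simp
    · intro a _ ha
      simp [ha]
    · intro h
      exact absurd (Finset.mem_univ i) h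
  have e2 : ∑ j, x j * (y j + if j = i then t else 0) - ∑ j, x j * y j = x i * t := by
    rw [← Finset.sum_sub_distrib, Finset.sum_eq_single i]
    · simp
      ring
    · intro a _ ha
      simp [ha]
    · intro h
      exact absurd (Finset.mem_univ i) h
  linear_combination e1 - e2

theorem n03J_zero (A : Matrix (Fin r) (Fin r) ℝ) (x : Fin r → ℝ) : n03J A x 0 = 0 := by
  rw [n03J_eq]
  simp [qd, hfun_zero]

theorem n03J_continuousOn (A : Matrix (Fin r) (Fin r) ℝ) (x : Fin r → ℝ) :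
    ContinuousOn (n03J A x) {z | ∀ i, 0 ≤ z i} := by
  have e : n03J A x = fun z => ∑ i, hfun (z i) - 1 / 2 * qd A z - ∑ i, x i * z i := by
    funext z
    exact n03J_eq A x z
  rw [e]
  refine ContinuousOn.sub (ContinuousOn.sub ?_ ?_) ?_
  · refine continuousOn_finsetSum _ fun i _ => ?_
    exact hfun_continuousOn.comp (continuous_apply i).continuousOn fun z hz => hz i
  · exact (continuous_const.mul (n03_qd_continuous A)).continuousOn
  · exact Continuous.continuousOn (by fun_prop)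

theorem n03_exists_max {A : Matrix (Fin r) (Fin r) ℝ} (hA : A.PosDef) (x : Fin r → ℝ) :
    ∃ y : Fin r → ℝ, (∀ i, 0 ≤ y i) ∧ ∀ z : Fin r → ℝ, (∀ i, 0 ≤ z i) → n03J A x z ≤ n03J A x y := by
  obtain ⟨c, hc, hcz⟩ := qd_ge hA
  set C0 : ℝ := (r : ℝ) * (Real.pi ^ 2 / 6) + ∑ i, x i ^ 2 / c with hC0
  have hC0nn : 0 ≤ C0 := by
    have : 0 ≤ ∑ i, x i ^ 2 / c := Finset.sum_nonneg fun i _ => by positivity
    positivity
  have hb : ∀ z : Fin r → ℝ, (∀ i, 0 ≤ z i) → n03J A x z ≤ C0 - c / 4 * ∑ i, z i ^ 2 := by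
    intro z hz
    rw [n03J_eq]
    have h1 : ∑ i, hfun (z i) ≤ (r : ℝ) * (Real.pi ^ 2 / 6) := by
      have := Finset.sum_le_sum fun i (_ : i ∈ (Finset.univ : Finset (Fin r))) => hfun_le (hz i)
      simpa using this
    have h2 : -∑ i, x i * z i ≤ ∑ i, x i ^ 2 / c + c / 4 * ∑ i, z i ^ 2 := by
      rw [← Finset.sum_neg_distrib, Finset.mul_sum, ← Finset.sum_add_distrib]
      refine Finset.sum_le_sum fun i _ => ?_
      have h3 : 0 ≤ (x i + c / 2 * z i) ^ 2 / c := by positivity
      have h4 : (x i + c / 2 * z i) ^ 2 / c = x i ^ 2 / c + x i * z i + c / 4 * z i ^ 2 := by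
        field_simp
        ring
      rw [h4] at h3
      linarith
    have h5 := hcz z
    nlinarith
  set R : ℝ := 4 * C0 / c + 1 with hR
  have hR1 : 1 ≤ R := by
    have : 0 ≤ 4 * C0 / c := by positivity
    linarith
  have hcomp : IsCompact (Set.Icc (fun _ => 0 : Fin r → ℝ) (fun _ => R)) := isCompact_Icc
  have hne : (Set.Icc (fun _ => 0 : Fin r → ℝ) (fun _ => R)).Nonempty :=
    ⟨fun _ => 0, fun _ => le_rfl, fun _ => by
      show (0 : ℝ) ≤ R
      linarith⟩
  obtain ⟨y, hy, hmax⟩ := hcomp.exists_isMaxOn hne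
    ((n03J_continuousOn A x).mono fun z hz i => hz.1 i)
  refine ⟨y, fun i => hy.1 i, fun z hz => ?_⟩
  by_cases hzR : ∀ i, z i ≤ R
  · exact hmax ⟨hz, hzR⟩
  · push Not at hzR
    obtain ⟨i, hi⟩ := hzR
    have h0 : n03J A x (fun _ => 0) ≤ n03J A x y :=
      hmax (a := fun _ => 0) ⟨fun _ => le_rfl, fun _ => by
        show (0 : ℝ) ≤ R
        linarith⟩
    have h0' : n03J A x (fun _ => 0) = 0 := n03J_zero A x
    rw [h0'] at h0
    have h1 : z i ^ 2 ≤ ∑ j, z j ^ 2 :=
      Finset.single_le_sum (f := fun j => z j ^ 2) (fun j _ => sq_nonneg (z j))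
        (Finset.mem_univ i)
    have h2 : R < z i ^ 2 := by nlinarith
    have h3 : R ≤ ∑ j, z j ^ 2 := by linarith
    have h4 := hb z hz
    have h5 : c / 4 * R = C0 + c / 4 := by
      rw [hR]
      field_simp
    have h6 : c / 4 * R ≤ c / 4 * ∑ j, z j ^ 2 :=
      mul_le_mul_of_nonneg_left h3 (by positivity)
    linarith

/-- Coercivity of a positive definite form: the consequence for the objective. -/
theorem n03_max_pos {A : Matrix (Fin r) (Fin r) ℝ} (hA : A.PosDef) {x y : Fin r → ℝ}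
    (hy : ∀ i, 0 ≤ y i) (hmax : ∀ z : Fin r → ℝ, (∀ i, 0 ≤ z i) → n03J A x z ≤ n03J A x y) :
    ∀ i, 0 < y i := by
  intro i
  by_contra hcon
  have h0 : y i = 0 := le_antisymm (not_lt.1 hcon) (hy i)
  obtain ⟨ε0, hε0, hph⟩ := phi_large (x i + ∑ j, A i j * y j + |A i i| / 2)
  set ε : ℝ := min (ε0 / 2) 1 with hε
  have hεp : 0 < ε := lt_min (by linarith) one_pos
  have hε1 : ε ≤ 1 := min_le_right _ _
  have hεlt : ε < ε0 := lt_of_le_of_lt (min_le_left _ _) (by linarith)
  have h1 := hph ε hεp hεlt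
  have h2 := hfun_ge hεp
  have h3 := hmax (fun j => y j + if j = i then ε else 0) fun j => by
    show 0 ≤ y j + if j = i then ε else 0
    have := hy j
    split_ifs <;> linarith
  rw [n03J_add hA, h0, hfun_zero, zero_add] at h3
  have h4 : ε ^ 2 / 2 * A i i ≤ ε * (|A i i| / 2) := by
    have h5 : A i i ≤ |A i i| := le_abs_self _
    have h6 : ε ^ 2 / 2 * A i i ≤ ε ^ 2 / 2 * |A i i| :=
      mul_le_mul_of_nonneg_left h5 (by positivity)
    have h7 : ε ^ 2 / 2 * |A i i| ≤ ε * (|A i i| / 2) := by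
      have h8 : ε ^ 2 ≤ ε := by nlinarith
      nlinarith [abs_nonneg (A i i)]
    linarith
  have h9 : ε * (x i + ∑ j, A i j * y j + |A i i| / 2) < ε * phi ε :=
    mul_lt_mul_of_pos_left h1 hεp
  nlinarith

theorem n03_max_eq {A : Matrix (Fin r) (Fin r) ℝ} (hA : A.PosDef) {x y : Fin r → ℝ}
    (hy : ∀ i, 0 < y i) (hmax : ∀ z : Fin r → ℝ, (∀ i, 0 ≤ z i) → n03J A x z ≤ n03J A x y)
    (i : Fin r) : phi (y i) = x i + ∑ j, A i j * y j := by
  set g : ℝ → ℝ := fun t => n03J A x y + (hfun (y i + t) - hfun (y i)) -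
    t * (x i + ∑ j, A i j * y j) - t ^ 2 / 2 * A i i with hg
  have hloc : IsLocalMax g 0 := by
    have hev : ∀ᶠ t in 𝓝 (0 : ℝ), -y i < t := lt_mem_nhds (by have := hy i; linarith)
    filter_upwards [hev] with t ht
    have h1 := hmax (fun j => y j + if j = i then t else 0) fun j => by
      show 0 ≤ y j + if j = i then t else 0
      have := hy j
      split_ifs with hji
      · subst hji
        linarith
      · linarith
    rw [n03J_add hA] at h1
    have h2 : g 0 = n03J A x y := by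
      simp [hg]
    rw [h2]
    exact h1
  have hd : HasDerivAt g (phi (y i) - (x i + ∑ j, A i j * y j)) 0 := by
    have h1 : HasDerivAt (fun t : ℝ => hfun (y i + t)) (phi (y i)) 0 := by
      have h2 : HasDerivAt hfun (phi (y i + 0)) (y i + 0) :=
        hfun_hasDerivAt (by rw [add_zero]; exact hy i)
      have h3 := h2.comp_const_add (y i) 0
      rwa [add_zero] at h3
    have h4 : HasDerivAt (fun t : ℝ => t * (x i + ∑ j, A i j * y j))
        (1 * (x i + ∑ j, A i j * y j)) 0 := (hasDerivAt_id (0 : ℝ)).mul_const _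
    have h5 : HasDerivAt (fun t : ℝ => t ^ 2 / 2 * A i i) ((2 : ℕ) * (0 : ℝ) ^ (2 - 1) / 2 * A i i) 0 :=
      ((hasDerivAt_pow 2 (0 : ℝ)).div_const 2).mul_const _
    have h6 := (((h1.sub_const (hfun (y i))).const_add (n03J A x y)).sub h4).sub h5
    have e : phi (y i) - 1 * (x i + ∑ j, A i j * y j) - ((2 : ℕ) * (0 : ℝ) ^ (2 - 1) / 2 * A i i) =
        phi (y i) - (x i + ∑ j, A i j * y j) := by
      norm_num
    rw [e] at h6
    exact h6
  have h := hloc.hasDerivAt_eq_zero hd
  linarith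

theorem exists_isSol {A : Matrix (Fin r) (Fin r) ℝ} (hA : A.PosDef) (x : Fin r → ℝ) :
    ∃ y, IsSol A x y := by
  obtain ⟨y, hy, hmax⟩ := n03_exists_max hA x
  have hpos := n03_max_pos hA hy hmax
  exact ⟨y, hpos, fun i => n03_max_eq hA hpos hmax i⟩

end Pool.Agent.Lib.MP_8ce23f_nt.RR
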