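import Pool.Agent.Lib.MP_8ce23f_nt.RR.Defs
import Pool.Agent.Lib.MP_8ce23f_nt.RR.N03

/-!
# Existence of solutions of the equation

The maximum of `∑ h(z_i) - zᵀ A z / 2` over `z ≥ 0` (`exists_isSol`) gives a solution of Nahm's
equation.
-/

open Filter Topology Asymptotics MeasureTheory
open scoped Real

namespace Pool.Agent.Lib.MP_8ce23f_nt.RR

open Pool.Agent.Lib.MP_8ce23f_nt.R2 (rp Asy E2 Lam LamR Xi)

variable {r : ℕ}

theorem exists_nahmSol {A : Matrix (Fin r) (Fin r) ℝ} (hA : A.PosDef) :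
    ∃ Q : Fin r → ℝ, NahmSol A Q := by
  obtain ⟨y, hy⟩ := exists_isSol hA 0
  refine ⟨fun i => Real.exp (-(y i)), fun i => Real.exp_pos _, fun i => ?_, fun i => ?_⟩
  · rw [Real.exp_lt_one_iff]
    linarith [hy.pos i]
  · have h1 := hy.eq i
    unfold phi at h1
    rw [Pi.zero_apply, zero_add] at h1
    have h2 : ∑ j, A i j * Real.log (Real.exp (-(y j))) = -∑ j, A i j * y j := by
      rw [← Finset.sum_neg_distrib]
      refine Finset.sum_congr rfl fun j _ => ?_
      rw [Real.log_exp]
      ring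
    rw [h2]
    linarith

/-- A solution of Nahm's equation is a solution of the saddle point equation at `0`. -/
theorem NahmSol.isSol {A : Matrix (Fin r) (Fin r) ℝ} {Q : Fin r → ℝ} (h : NahmSol A Q) :
    IsSol A 0 fun i => -Real.log (Q i) := by
  refine ⟨fun i => ?_, fun i => ?_⟩
  · have := Real.log_neg (h.pos i) (h.lt i)
    linarith
  · unfold phi
    rw [neg_neg, Real.exp_log (h.pos i), h.eq i, Pi.zero_apply, zero_add,
      ← Finset.sum_neg_distrib]
    refine Finset.sum_congr rfl fun j _ => ?_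
    ring

end Pool.Agent.Lib.MP_8ce23f_nt.RR
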