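import Pool.Agent.Lib.MP_8ce23f_nt.RR.Defs

/-!
# Nondegeneracy

`Jm A Q = diag (1 - Q) * (diag (Q/(1-Q)) + A)`, and `diag (Q/(1-Q)) + A` is positive definite.
-/

open Filter Topology Asymptotics MeasureTheory
open scoped Real

namespace Pool.Agent.Lib.MP_8ce23f_nt.RR

open Pool.Agent.Lib.MP_8ce23f_nt.R2 (rp Asy E2 Lam LamR Xi)

variable {r : ℕ}

theorem det_Jm_pos {A : Matrix (Fin r) (Fin r) ℝ} (hA : A.PosDef) {Q : Fin r → ℝ}
    (hQ : InUnit Q) : 0 < (Jm A Q).det := by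
  have h0 : ∀ i, 0 < 1 - Q i := fun i => sub_pos.2 (hQ i).2
  have h1 : Jm A Q = Matrix.diagonal (fun i => 1 - Q i) * (Matrix.diagonal (fun i => Q i / (1 - Q i)) + A) := by
    ext i l
    rw [Matrix.diagonal_mul, Matrix.add_apply, Matrix.diagonal_apply]
    unfold Jm
    rw [Matrix.of_apply, mul_add]
    congr 1
    split_ifs with h
    · rw [mul_div_cancel₀ _ (h0 i).ne']
    · rw [mul_zero]
  have h2 : (Matrix.diagonal (fun i => Q i / (1 - Q i)) + A).PosDef :=
    (Matrix.PosDef.diagonal fun i => div_pos (hQ i).1 (h0 i)).add hA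
  rw [h1, Matrix.det_mul, Matrix.det_diagonal]
  exact mul_pos (Finset.prod_pos fun i _ => h0 i) h2.det_pos

theorem nondeg {A : Matrix (Fin r) (Fin r) ℝ} (hA : A.PosDef) {Q : Fin r → ℝ}
    (hQ : InUnit Q) : Nondeg (Am A) (Qv Q) := by
  have h1 : Jm (Am A) (Qv Q) = Complex.ofRealHom.mapMatrix (Jm A Q) := by
    ext i l
    rw [RingHom.mapMatrix_apply, Matrix.map_apply]
    unfold Jm Am Qv
    rw [Matrix.of_apply, Matrix.of_apply, Matrix.map_apply, map_add, map_mul, map_sub, map_one]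
    congr 1
    split_ifs with h
    · rfl
    · rw [map_zero]
  unfold Nondeg
  rw [h1, ← RingHom.map_det]
  have h2 := (det_Jm_pos hA hQ).ne'
  exact (map_ne_zero_iff _ Complex.ofRealHom.injective).2 h2

end Pool.Agent.Lib.MP_8ce23f_nt.RR
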