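import Pool.Agent.Lib.MP_8ce23f_nt.RR.AtIy
import Pool.Agent.Lib.MP_8ce23f_nt.R2.Cusp
import Pool.Agent.Lib.MP_8ce23f_nt.R2.Compare
import Pool.Agent.Lib.MP_8ce23f_nt.R2.Relation

/-!
# Two admissible vectors

As `R2/Relation.lean`, for every rank.
-/

open Filter Topology Asymptotics
open scoped Real MatrixGroups Manifold
open UpperHalfPlane hiding I

namespace Pool.Agent.Lib.MP_8ce23f_nt.RR

open Pool.Agent.Lib.MP_8ce23f_nt.R2 (rp Asy E2 Lam LamR Xi)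

variable {r : ℕ}

theorem relation_one {A : Matrix (Fin r) (Fin r) ℚ} (hA : A.PosDef) {B : Fin r → ℚ} {C : ℚ}
    (hm : IsModularFunction (nahmSum A B C)) :
    ∃ (K : ℂ) (ν δ : ℝ) (E : ℝ → ℂ), K ≠ 0 ∧ 0 < δ ∧
      E =O[𝓝[>] 0] (fun t : ℝ => Real.exp (-(δ / t ^ 2))) ∧
      ∀ t : ℝ, ((F (A.map fun x : ℚ => (x : ℝ)) (fun i => (B i : ℝ)) t : ℝ) : ℂ) =
        K * Real.exp (C * t ^ 2 + ν / t ^ 2) * (1 + E t) := by
  obtain ⟨K, ν, δ, y₀, Cst, hK, hδ, hy₀, hb⟩ :=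
    R2.cusp_leading (nahmSum_mdiff hA B C) hm (nahmSum_ne_zero hA B C)
  refine ⟨K, 2 * π * ν, 2 * π * δ,
    fun t => ((F (A.map fun x : ℚ => (x : ℝ)) (fun i => (B i : ℝ)) t : ℝ) : ℂ) /
      (K * Real.exp (C * t ^ 2 + (2 * π * ν) / t ^ 2)) - 1, hK, by positivity, ?_, ?_⟩
  · rw [isBigO_iff]
    refine ⟨Cst / ‖K‖, ?_⟩
    have h1 : ∀ᶠ t : ℝ in 𝓝[>] 0, t ^ 2 / (2 * π) < y₀ := by
      have : Tendsto (fun t : ℝ => t ^ 2 / (2 * π)) (𝓝[>] 0) (𝓝 (0 ^ 2 / (2 * π))) :=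
        ((continuous_pow 2).div_const _).tendsto 0 |>.mono_left nhdsWithin_le_nhds
      rw [zero_pow two_ne_zero, zero_div] at this
      exact this.eventually (eventually_lt_nhds hy₀)
    filter_upwards [h1, self_mem_nhdsWithin] with t ht1 ht
    have ht : 0 < t := ht
    have hy : 0 < t ^ 2 / (2 * π) := by positivity
    have hh := hb (t ^ 2 / (2 * π)) hy ht1
    have e1 : nahmSum A B C (pt 0 (t ^ 2 / (2 * π)) hy) =
        ((Real.exp (-(C * t ^ 2)) *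
          F (A.map fun x : ℚ => (x : ℝ)) (fun i => (B i : ℝ)) t : ℝ) : ℂ) :=
      nahmSum_tp A B C ht
    have e2 : ∀ z : ℝ, z / (t ^ 2 / (2 * π)) = (2 * π * z) / t ^ 2 := by
      intro z
      field_simp
    rw [e1, e2, e2] at hh
    rw [Real.norm_eq_abs, abs_of_pos (Real.exp_pos _)]
    have hKn : 0 < ‖K‖ := norm_pos_iff.mpr hK
    have e3 : ((F (A.map fun x : ℚ => (x : ℝ)) (fun i => (B i : ℝ)) t : ℝ) : ℂ) /
        (K * Real.exp (C * t ^ 2 + (2 * π * ν) / t ^ 2)) - 1 =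
        (((Real.exp (-(C * t ^ 2)) *
            F (A.map fun x : ℚ => (x : ℝ)) (fun i => (B i : ℝ)) t : ℝ) : ℂ) *
          Real.exp (-((2 * π * ν) / t ^ 2)) - K) / K := by
      have hne : ((Real.exp (C * t ^ 2 + (2 * π * ν) / t ^ 2) : ℝ) : ℂ) ≠ 0 := by
        exact_mod_cast (Real.exp_pos _).ne'
      have hx : ((Real.exp (-(C * t ^ 2)) : ℝ) : ℂ) * ((Real.exp (-((2 * π * ν) / t ^ 2)) : ℝ) : ℂ) =
          ((Real.exp (C * t ^ 2 + (2 * π * ν) / t ^ 2) : ℝ) : ℂ)⁻¹ := by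
        rw [← Complex.ofReal_mul, ← Real.exp_add, ← Complex.ofReal_inv, ← Real.exp_neg]
        congr 2
        ring
      rw [sub_div, div_self hK, Complex.ofReal_mul]
      congr 1
      have : ((Real.exp (-(C * t ^ 2)) : ℝ) : ℂ) *
          ((F (A.map fun x : ℚ => (x : ℝ)) (fun i => (B i : ℝ)) t : ℝ) : ℂ) *
          ((Real.exp (-((2 * π * ν) / t ^ 2)) : ℝ) : ℂ) =
          ((Real.exp (-(C * t ^ 2)) : ℝ) : ℂ) * ((Real.exp (-((2 * π * ν) / t ^ 2)) : ℝ) : ℂ) *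
          ((F (A.map fun x : ℚ => (x : ℝ)) (fun i => (B i : ℝ)) t : ℝ) : ℂ) := by ring
      rw [this, hx]
      field_simp
    rw [e3, norm_div, div_mul_eq_mul_div]
    gcongr
  · intro t
    have hne : K * ((Real.exp (C * t ^ 2 + (2 * π * ν) / t ^ 2) : ℝ) : ℂ) ≠ 0 :=
      mul_ne_zero hK (by exact_mod_cast (Real.exp_pos _).ne')
    show _ = K * Real.exp (C * t ^ 2 + (2 * π * ν) / t ^ 2) * (1 + (_ / _ - 1))
    rw [add_sub_cancel, mul_div_cancel₀ _ hne]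

theorem admissible_relation {A : Matrix (Fin r) (Fin r) ℚ} (hA : A.PosDef) {B B₀ : Fin r → ℚ}
    (hB : Admissible A B) (hB₀ : Admissible A B₀) {L : Matrix (Fin r) (Fin r) ℝ}
    {Q : Fin r → ℝ} {Γ : PowerSeries (P r)} {γ : ℂ} (hγ : γ ≠ 0)
    (h0 : PowerSeries.constantCoeff Γ = MvPolynomial.C γ)
    (hΓ : ∀ B : Fin r → ℝ, Asy (fun t => (FN (A.map fun x : ℚ => (x : ℝ)) L Q B t : ℂ))
      (PowerSeries.map (ev B) Γ)) :
    ∃ c : ℂ, PowerSeries.map (MvPolynomial.eval fun i => (B i : ℂ)) Γ =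
      E2 c * PowerSeries.map (MvPolynomial.eval fun i => (B₀ i : ℂ)) Γ := by
  obtain ⟨C, hC⟩ := hB
  obtain ⟨C₀, hC₀⟩ := hB₀
  obtain ⟨K, ν, δ, E, hK, hδ, hE, hF⟩ := relation_one hA hC
  obtain ⟨K₀, ν₀, δ₀, E₀, hK₀, hδ₀, hE₀, hF₀⟩ := relation_one hA hC₀
  obtain ⟨hne, hEq⟩ := R2.relation_err hδ₀ hE hE₀
  have hcc : ∀ x : Fin r → ℂ,
      PowerSeries.constantCoeff (PowerSeries.map (MvPolynomial.eval x) Γ) = γ := by
    intro x
    rw [← PowerSeries.coeff_zero_eq_constantCoeff_apply, PowerSeries.coeff_map,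
      PowerSeries.coeff_zero_eq_constantCoeff_apply, h0]
    exact MvPolynomial.eval_C γ
  have hcast : ∀ q : ℚ, (((q : ℚ) : ℝ) : ℂ) = (q : ℂ) := fun q => Complex.ofReal_ratCast q
  have hfB : Asy (fun t => (FN (A.map fun x : ℚ => (x : ℝ)) L Q (fun i => (B i : ℝ)) t : ℂ))
      (PowerSeries.map (MvPolynomial.eval fun i => (B i : ℂ)) Γ) := by
    have h := hΓ fun i => (B i : ℝ)
    unfold ev at h
    simp only [hcast] at h
    exact h
  have hfB₀ : Asy (fun t => (FN (A.map fun x : ℚ => (x : ℝ)) L Q (fun i => (B₀ i : ℝ)) t : ℂ))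
      (PowerSeries.map (MvPolynomial.eval fun i => (B₀ i : ℂ)) Γ) := by
    have h := hΓ fun i => (B₀ i : ℝ)
    unfold ev at h
    simp only [hcast] at h
    exact h
  refine ⟨((C - C₀ : ℝ) : ℂ), ?_⟩
  refine R2.compare hfB hfB₀ (by rw [hcc, hcc]) (by rw [hcc]; exact hγ)
    (K := K / K₀ * Real.exp (-(∑ i, (B i : ℝ) * Real.log (Q i)) +
      (∑ i, (B₀ i : ℝ) * Real.log (Q i))))
    (c := C - C₀) (μ := ν - ν₀) (lt_min hδ hδ₀) hEq ?_
  filter_upwards [hne] with t ht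
  unfold FN
  push_cast only [Complex.ofReal_mul]
  rw [hF t, hF₀ t]
  have x1 : ((Real.exp (C * t ^ 2 + ν / t ^ 2) : ℝ) : ℂ) =
      ((Real.exp (C₀ * t ^ 2 + ν₀ / t ^ 2) : ℝ) : ℂ) *
        ((Real.exp ((C - C₀) * t ^ 2 + (ν - ν₀) / t ^ 2) : ℝ) : ℂ) := by
    rw [← Complex.ofReal_mul, ← Real.exp_add]
    congr 2
    ring
  have x2 : ((Real.exp (-(∑ i, (B i : ℝ) * Real.log (Q i))) : ℝ) : ℂ) =
      ((Real.exp (-(∑ i, (B₀ i : ℝ) * Real.log (Q i))) : ℝ) : ℂ) *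
        ((Real.exp (-(∑ i, (B i : ℝ) * Real.log (Q i)) +
      (∑ i, (B₀ i : ℝ) * Real.log (Q i))) : ℝ) : ℂ) := by
    rw [← Complex.ofReal_mul, ← Real.exp_add]
    congr 2
    ring
  rw [x1, x2, add_sub_cancel]
  field_simp

end Pool.Agent.Lib.MP_8ce23f_nt.RR
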