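import Pool.Agent.Lib.MP_8ce23f_nt.RR.Gam
import Pool.Agent.Lib.MP_8ce23f_nt.RR.FE
import Pool.Agent.Lib.MP_8ce23f_nt.RR.NahmEx
import Pool.Agent.Lib.MP_8ce23f_nt.RR.LogDer
import Pool.Agent.Lib.MP_8ce23f_nt.RR.ToFD
import Pool.Agent.Lib.MP_8ce23f_nt.RR.NondegL
import Pool.Agent.Lib.MP_8ce23f_nt.RR.Relation

/-!
# The constraint on admissible vectors

As `exists_formal` of `R2/Final.lean`, for every rank.
-/

open Filter Topology Asymptotics
open scoped Real MatrixGroups Manifold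
open UpperHalfPlane hiding I

namespace Pool.Agent.Lib.MP_8ce23f_nt.RR

open Pool.Agent.Lib.MP_8ce23f_nt.R2 (rp Asy E2 Lam LamR Xi)

variable {r : ℕ}

theorem exists_formal' (A : Matrix (Fin r) (Fin r) ℚ) (hA : A.PosDef) {Q : Fin r → ℝ}
    (hQ : NahmSol (A.map fun x : ℚ => (x : ℝ)) Q) :
    ∃ (D : ℕ → P r) (R S : Fin r → PowerSeries (P r)),
      FD (A.map fun x : ℚ => (x : ℂ)) (fun i => (Q i : ℂ)) D R S ∧
      ∀ B B₀ : Fin r → ℚ, Admissible A B → Admissible A B₀ → ∀ k, 2 ≤ k →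
        MvPolynomial.eval (fun i => (B i : ℂ)) (D k) =
          MvPolynomial.eval (fun i => (B₀ i : ℂ)) (D k) := by
  have hpd := posDef_real hA
  obtain ⟨L, hL, hdet⟩ := exists_L hpd
  obtain ⟨Γ, γ, hγ, h0, hΓ⟩ := exists_Gam hL hdet hQ
  have hFE := isFE_of_asy hpd hQ hΓ
  obtain ⟨M, R, S, hM, hTD⟩ := exists_TD hγ h0 hFE
  have hnd := nondeg hpd hQ.inUnit
  obtain ⟨D, R', S', hFD, hDL⟩ := exists_FD hnd hTD
  have hAm : Am (A.map fun x : ℚ => (x : ℝ)) = A.map fun x : ℚ => (x : ℂ) := by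
    ext i j
    simp [Am, Matrix.map_apply]
  rw [hAm] at hFD
  refine ⟨D, R', S', hFD, fun B B₀ hB hB₀ k hk => ?_⟩
  obtain ⟨c, hc⟩ := admissible_relation hA hB hB₀ hγ h0 hΓ
  have h1 := logDer_eval hγ h0 hM hc (k := 2 * k) (by omega)
  rw [← hDL k (by omega)] at h1
  have h2 : ∀ z : Fin r → ℂ, MvPolynomial.eval z (2 * (k : P r) * D k) =
      2 * (k : ℂ) * MvPolynomial.eval z (D k) := by
    intro z
    rw [map_mul, map_mul, map_natCast]
    congr 2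
    exact map_ofNat (MvPolynomial.eval z) 2
  rw [h2, h2] at h1
  have h3 : (2 * (k : ℂ)) ≠ 0 := by
    have : (k : ℂ) ≠ 0 := by exact_mod_cast (by omega : k ≠ 0)
    simp [this]
  exact mul_left_cancel₀ h3 h1

theorem exists_formal (A : Matrix (Fin r) (Fin r) ℚ) (hA : A.PosDef) :
    ∃ (Q : Fin r → ℝ) (D : ℕ → P r) (R S : Fin r → PowerSeries (P r)),
      NahmSol (A.map fun x : ℚ => (x : ℝ)) Q ∧
      FD (A.map fun x : ℚ => (x : ℂ)) (fun i => (Q i : ℂ)) D R S ∧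
      ∀ B B₀ : Fin r → ℚ, Admissible A B → Admissible A B₀ → ∀ k, 2 ≤ k →
        MvPolynomial.eval (fun i => (B i : ℂ)) (D k) =
          MvPolynomial.eval (fun i => (B₀ i : ℂ)) (D k) := by
  obtain ⟨Q, hQ⟩ := exists_nahmSol (posDef_real hA)
  obtain ⟨D, R, S, h⟩ := exists_formal' A hA hQ
  exact ⟨Q, D, R, S, hQ, h⟩

end Pool.Agent.Lib.MP_8ce23f_nt.RR
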