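import Pool.Agent.Lib.MP_8ce23f_nt.RR.PolyExpAlg
import Pool.Agent.Lib.MP_8ce23f_nt.RR.XiReg
import Pool.Agent.Lib.MP_8ce23f_nt.R2.ExpRem
import Pool.Agent.Lib.MP_8ce23f_nt.R2.XiExp

/-!
# Expansion of the integrand

As `R2/GExp.lean`, for every rank; the linear terms cancel because
`∑ i, Lw L w i * (-log Q_i) = ∑ j, w j * kap L Q j`.
-/

open Filter Topology Asymptotics MeasureTheory
open scoped Real

namespace Pool.Agent.Lib.MP_8ce23f_nt.RR

open Pool.Agent.Lib.MP_8ce23f_nt.R2 (rp Asy E2 Lam LamR Xi)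

variable {r : ℕ}

private theorem GExp_congr {f f' : ℝ → (Fin r → ℝ) → ℂ} {N : ℕ} {p : ℕ → P r}
    (hf : PolyExp f N p)
    (h : ∀ t ∈ Set.Ioc (0 : ℝ) 1, ∀ w, f t w = f' t w) : PolyExp f' N p := by
  obtain ⟨M, C, hC⟩ := hf
  exact ⟨M, C, fun t ht w => by rw [← h t ht w]; exact hC t ht w⟩

private theorem GExp_t_pow {f : ℝ → (Fin r → ℝ) → ℂ} {N : ℕ} {p : ℕ → P r}
    (hf : PolyExp f N p) (j : ℕ) :
    ∃ p' : ℕ → P r, (1 ≤ j → p' 0 = 0) ∧
      PolyExp (fun t w => (t : ℂ) ^ j * f t w) (N + j) p' := by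
  induction j with
  | zero => exact ⟨p, fun h => absurd h (by omega), by simpa using hf⟩
  | succ j ih =>
    obtain ⟨p', _, h⟩ := ih
    refine ⟨_, fun _ => ?_, GExp_congr h.t_mul ?_⟩
    · simp
    · intro t _ w
      ring

private theorem GExp_ev (w : Fin r → ℝ) (q : P r) (p : Polynomial ℂ) :
    ev w (Polynomial.aeval q p) = p.eval (ev w q) := by
  rw [Polynomial.aeval_def, Polynomial.hom_eval₂]
  have h : (ev w).comp (algebraMap ℂ (P r)) = RingHom.id ℂ := by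
    ext c
    simp [ev, MvPolynomial.algebraMap_eq]
  rw [h, Polynomial.eval₂_id]

/-- the quadratic part of the exponent -/
private noncomputable def GExp_E (L : Matrix (Fin r) (Fin r) ℝ) (Q : Fin r → ℝ)
    (w : Fin r → ℝ) : ℝ :=
  -(∑ i, (1 - Q i) / Q i * Lw L w i ^ 2) / 2

/-- the small part of the exponent -/
private noncomputable def GExp_Z (L : Matrix (Fin r) (Fin r) ℝ) (Q : Fin r → ℝ) (t : ℝ)
    (w : Fin r → ℝ) : ℂ :=
  ∑ i, Xi (1 - Q i) (Lw L w i) t -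
    ((∑ i, w i * kap L Q i) / t : ℝ) * Complex.I -
    (GExp_E L Q w : ℝ)

/-- a linear form as a polynomial -/
private noncomputable def GExp_lin (L : Matrix (Fin r) (Fin r) ℝ) (i : Fin r) : P r :=
  ∑ j, MvPolynomial.C ((L i j : ℝ) : ℂ) * MvPolynomial.X j

private theorem GExp_ev_lin (L : Matrix (Fin r) (Fin r) ℝ) (w : Fin r → ℝ) (i : Fin r) :
    ev w (GExp_lin L i) = ((Lw L w i : ℝ) : ℂ) := by
  unfold GExp_lin Lw ev
  rw [map_sum, Complex.ofReal_sum]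
  refine Finset.sum_congr rfl fun j _ => ?_
  rw [map_mul, MvPolynomial.eval_C, MvPolynomial.eval_X, Complex.ofReal_mul]

private theorem GExp_kap (L : Matrix (Fin r) (Fin r) ℝ) (Q w : Fin r → ℝ) :
    ∑ i, w i * kap L Q i = ∑ i, -(Real.log (Q i)) * Lw L w i := by
  have h1 : ∀ j, w j * kap L Q j = ∑ i, -(Real.log (Q i)) * (L i j * w j) := by
    intro j
    unfold kap
    rw [mul_neg, Finset.mul_sum, ← Finset.sum_neg_distrib]
    refine Finset.sum_congr rfl fun i _ => ?_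
    ring
  have h2 : ∀ i, -(Real.log (Q i)) * Lw L w i = ∑ j, -(Real.log (Q i)) * (L i j * w j) := by
    intro i
    unfold Lw
    rw [Finset.mul_sum]
  rw [Finset.sum_congr rfl fun j _ => h1 j, Finset.sum_congr rfl fun i _ => h2 i,
    Finset.sum_comm]

private theorem GExp_bd (L : Matrix (Fin r) (Fin r) ℝ) (i : Fin r) (w : Fin r → ℝ) :
    1 + |Lw L w i| ≤ (1 + ∑ j, |L i j|) * nb w := by
  have h1 : |Lw L w i| ≤ ∑ j, |L i j| * |w j| := by
    unfold Lw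
    refine (Finset.abs_sum_le_sum_abs _ _).trans (le_of_eq ?_)
    exact Finset.sum_congr rfl fun j _ => abs_mul _ _
  have h2 : ∑ j, |L i j| * |w j| ≤ ∑ j, |L i j| * nb w :=
    Finset.sum_le_sum fun j _ => mul_le_mul_of_nonneg_left (abs_le_nb w j) (abs_nonneg _)
  rw [← Finset.sum_mul] at h2
  have h3 := one_le_nb w
  linarith

private theorem GExp_Z_exp (L : Matrix (Fin r) (Fin r) ℝ) {Q : Fin r → ℝ} (hQ : InUnit Q)
    (N : ℕ) :
    ∃ p : ℕ → P r, PolyExp (fun t w => (t : ℂ)⁻¹ * GExp_Z L Q t w) N p := by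
  have hx : ∀ i, ∃ (p : ℕ → Polynomial ℂ) (M : ℕ) (C : ℝ), ∀ t ∈ Set.Ioc (0 : ℝ) 1, ∀ y : ℝ,
      ‖Xi (1 - Q i) y t - (((-(Real.log (1 - (1 - Q i))) * y / t : ℝ) : ℂ) * Complex.I -
          (((1 - Q i) / (1 - (1 - Q i)) * y ^ 2 / 2 : ℝ) : ℂ) +
          ∑ k ∈ Finset.range N, (t : ℂ) ^ (k + 1) * (p k).eval (y : ℂ))‖ ≤
        C * t ^ (N + 1) * (1 + |y|) ^ M := fun i =>
    R2.Xi_expansion (ρ := 1 - Q i) (by linarith [(hQ i).2]) (by linarith [(hQ i).1]) N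
  choose p M C h using hx
  refine ⟨fun k => ∑ i, Polynomial.aeval (GExp_lin L i) (p i k), ∑ i, M i,
    ∑ i, |C i| * (1 + ∑ j, |L i j|) ^ M i, ?_⟩
  intro t ht w
  have ht0 : 0 < t := ht.1
  have htc : (t : ℂ) ≠ 0 := by exact_mod_cast ht0.ne'
  have hnb := one_le_nb w
  set A : Fin r → ℂ := fun i => Xi (1 - Q i) (Lw L w i) t -
    (((-(Real.log (1 - (1 - Q i))) * Lw L w i / t : ℝ) : ℂ) * Complex.I -
      (((1 - Q i) / (1 - (1 - Q i)) * Lw L w i ^ 2 / 2 : ℝ) : ℂ) +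
      ∑ k ∈ Finset.range N, (t : ℂ) ^ (k + 1) * (p i k).eval ((Lw L w i : ℝ) : ℂ)) with hA
  have hAb : ∀ i, ‖A i‖ ≤ |C i| * t ^ (N + 1) *
      ((1 + ∑ j, |L i j|) ^ M i * nb w ^ (∑ i, M i)) := by
    intro i
    refine (h i t ht (Lw L w i)).trans ?_
    have hs0 : (0 : ℝ) ≤ ∑ j, |L i j| := Finset.sum_nonneg fun j _ => abs_nonneg _
    have e1 : (1 + |Lw L w i|) ^ M i ≤ (1 + ∑ j, |L i j|) ^ M i * nb w ^ (∑ i, M i) := by
      calc (1 + |Lw L w i|) ^ M i ≤ ((1 + ∑ j, |L i j|) * nb w) ^ M i :=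
            pow_le_pow_left₀ (by positivity) (GExp_bd L i w) _
        _ = (1 + ∑ j, |L i j|) ^ M i * nb w ^ M i := mul_pow _ _ _
        _ ≤ (1 + ∑ j, |L i j|) ^ M i * nb w ^ (∑ i, M i) := by
            refine mul_le_mul_of_nonneg_left ?_ (by positivity)
            exact pow_le_pow_right₀ hnb
              (Finset.single_le_sum (fun j _ => Nat.zero_le (M j)) (Finset.mem_univ i))
    exact mul_le_mul (mul_le_mul_of_nonneg_right (le_abs_self _) (by positivity)) e1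
      (by positivity) (by positivity)
  have e2 : ∑ k ∈ Finset.range N, (t : ℂ) ^ k *
      ev w (∑ i, Polynomial.aeval (GExp_lin L i) (p i k)) =
      (t : ℂ)⁻¹ * ∑ i, ∑ k ∈ Finset.range N,
        (t : ℂ) ^ (k + 1) * (p i k).eval ((Lw L w i : ℝ) : ℂ) := by
    rw [Finset.sum_comm, Finset.mul_sum]
    refine Finset.sum_congr rfl fun k _ => ?_
    rw [map_sum, Finset.mul_sum, Finset.mul_sum]
    refine Finset.sum_congr rfl fun i _ => ?_
    rw [GExp_ev, GExp_ev_lin, pow_succ]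
    field_simp
  have hAs : ∑ i, A i = GExp_Z L Q t w - ∑ i, ∑ k ∈ Finset.range N,
        (t : ℂ) ^ (k + 1) * (p i k).eval ((Lw L w i : ℝ) : ℂ) := by
    have e3 : (((∑ i, w i * kap L Q i) / t : ℝ) : ℂ) * Complex.I =
        ∑ i, ((-(Real.log (Q i)) * Lw L w i / t : ℝ) : ℂ) * Complex.I := by
      rw [GExp_kap, Finset.sum_div, Complex.ofReal_sum, Finset.sum_mul]
    have e4 : ((GExp_E L Q w : ℝ) : ℂ) =
        -∑ i, (((1 - Q i) / Q i * Lw L w i ^ 2 / 2 : ℝ) : ℂ) := by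
      unfold GExp_E
      rw [neg_div, Finset.sum_div, Complex.ofReal_neg, Complex.ofReal_sum]
    unfold GExp_Z
    rw [e3, e4, hA, ← Finset.sum_sub_distrib, sub_neg_eq_add, ← Finset.sum_add_distrib,
      ← Finset.sum_sub_distrib]
    refine Finset.sum_congr rfl fun i _ => ?_
    have e5 : (1 - (1 - Q i)) = Q i := by ring
    beta_reduce
    rw [e5]
    ring
  have key : (t : ℂ)⁻¹ * GExp_Z L Q t w - ∑ k ∈ Finset.range N, (t : ℂ) ^ k *
      ev w (∑ i, Polynomial.aeval (GExp_lin L i) (p i k)) = (t : ℂ)⁻¹ * ∑ i, A i := by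
    rw [e2, ← mul_sub, hAs]
  show ‖(t : ℂ)⁻¹ * GExp_Z L Q t w - ∑ k ∈ Finset.range N, (t : ℂ) ^ k *
      ev w (∑ i, Polynomial.aeval (GExp_lin L i) (p i k))‖ ≤ _
  rw [key, norm_mul, norm_inv, Complex.norm_real, Real.norm_of_nonneg ht0.le]
  calc t⁻¹ * ‖∑ i, A i‖
      ≤ t⁻¹ * ∑ i, |C i| * t ^ (N + 1) * ((1 + ∑ j, |L i j|) ^ M i * nb w ^ (∑ i, M i)) := by
        refine mul_le_mul_of_nonneg_left ?_ (by positivity)
        exact (norm_sum_le _ _).trans (Finset.sum_le_sum fun i _ => hAb i)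
    _ = (∑ i, |C i| * (1 + ∑ j, |L i j|) ^ M i) * t ^ N * nb w ^ (∑ i, M i) := by
        rw [Finset.mul_sum, Finset.sum_mul, Finset.sum_mul]
        refine Finset.sum_congr rfl fun i _ => ?_
        rw [pow_succ]
        field_simp

private theorem GExp_main (L : Matrix (Fin r) (Fin r) ℝ) {Q : Fin r → ℝ} (hQ : InUnit Q)
    (N : ℕ) :
    ∃ p : ℕ → P r, p 0 = 1 ∧ PolyExp (fun t w => ∑ j ∈ Finset.range (N + 1),
      (GExp_Z L Q t w) ^ j / (j.factorial : ℂ)) (N + 1) p := by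
  obtain ⟨z, hz⟩ := GExp_Z_exp L hQ N
  have h1 : ∀ j : ℕ, ∃ p : ℕ → P r, (p 0 = if j = 0 then 1 else 0) ∧
      PolyExp (fun t w => (GExp_Z L Q t w) ^ j / (j.factorial : ℂ)) (N + 1) p := by
    intro j
    rcases Nat.eq_zero_or_pos j with rfl | hj
    · refine ⟨fun k => if k = 0 then 1 else 0, by simp, ?_⟩
      exact GExp_congr (PolyExp.one (N + 1)) (fun t _ w => by simp)
    · obtain ⟨q, _, hq⟩ := hz.pow j
      obtain ⟨q', hq'0, hq'⟩ := GExp_t_pow (hq.const_mul ((j.factorial : ℂ)⁻¹)) j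
      refine ⟨q', ?_, ?_⟩
      · rw [hq'0 hj, if_neg (by omega)]
      · refine GExp_congr (hq'.trunc (by omega : N + 1 ≤ N + j)) ?_
        intro t ht w
        have htc : (t : ℂ) ≠ 0 := by exact_mod_cast ht.1.ne'
        rw [mul_pow, inv_pow]
        field_simp
  choose p hp0 hp using h1
  refine ⟨fun k => ∑ j ∈ Finset.range (N + 1), p j k, ?_, ?_⟩
  · show ∑ j ∈ Finset.range (N + 1), p j 0 = 1
    rw [Finset.sum_eq_single 0]
    · rw [hp0, if_pos rfl]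
    · intro j _ hj
      rw [hp0, if_neg hj]
    · intro h
      exact absurd (Finset.mem_range.2 (by omega)) h
  · exact PolyExp.sum (Finset.range (N + 1)) (fun j _ => hp j)

theorem g_expansion (L : Matrix (Fin r) (Fin r) ℝ) {Q : Fin r → ℝ} (hQ : InUnit Q) (N : ℕ) :
    ∃ (p : ℕ → P r) (M : ℕ) (C : ℝ), p 0 = 1 ∧ ∀ t ∈ Set.Ioc (0 : ℝ) 1, ∀ w : Fin r → ℝ,
      ‖g L Q t w - Complex.exp (-(qf L Q w : ℝ)) *
          ∑ k ∈ Finset.range (N + 1), (t : ℂ) ^ k * ev w (p k)‖ ≤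
        C * t ^ (N + 1) * (nb w ^ M * Real.exp (-(hs w))) := by
  obtain ⟨p, hp0, M2, C2, hp⟩ := GExp_main L hQ N
  obtain ⟨z, hz⟩ := GExp_Z_exp L hQ N
  obtain ⟨M1, C1, hC1, hb⟩ := hz.bound
  refine ⟨p, M1 * (N + 1) + M2, C1 ^ (N + 1) + |C2|, hp0, ?_⟩
  intro t ht w
  have ht0 : 0 < t := ht.1
  have htc : (t : ℂ) ≠ 0 := by exact_mod_cast ht0.ne'
  set Z := GExp_Z L Q t w with hZ
  set E := GExp_E L Q w with hE
  set G := Real.exp (-(hs w)) with hG
  have hE0 : E ≤ 0 := by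
    have e1 : 0 ≤ ∑ i, (1 - Q i) / Q i * Lw L w i ^ 2 :=
      Finset.sum_nonneg fun i _ =>
        mul_nonneg (div_nonneg (by linarith [(hQ i).2]) (hQ i).1.le) (sq_nonneg _)
    rw [hE]
    unfold GExp_E
    linarith
  have hEZ : (E : ℂ) + Z = ∑ i, Xi (1 - Q i) (Lw L w i) t -
      ((∑ i, w i * kap L Q i) / t : ℝ) * Complex.I := by
    rw [hZ, hE]
    unfold GExp_Z
    ring
  have hre : E + Z.re ≤ 0 := by
    have e1 := congrArg Complex.re hEZ
    rw [Complex.add_re, Complex.ofReal_re, Complex.sub_re, Complex.re_sum, Complex.re_ofReal_mul,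
      Complex.I_re, mul_zero, sub_zero] at e1
    rw [e1]
    exact Finset.sum_nonpos fun i _ =>
      R2.Xi_re_le (ρ := 1 - Q i) (by linarith [(hQ i).2]) (by linarith [(hQ i).1]) (Lw L w i) ht0
  have hg : g L Q t w = (G : ℂ) * (Real.exp E : ℂ) * Complex.exp Z := by
    rw [hG, Complex.ofReal_exp, Complex.ofReal_exp, ← Complex.exp_add, ← Complex.exp_add]
    unfold g
    congr 1
    rw [Complex.ofReal_neg]
    linear_combination -hEZ
  have hq : Complex.exp (-(qf L Q w : ℝ)) = (G : ℂ) * (Real.exp E : ℂ) := by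
    rw [hG, Complex.ofReal_exp, Complex.ofReal_exp, ← Complex.exp_add]
    congr 1
    rw [← Complex.ofReal_add, ← Complex.ofReal_neg]
    congr 1
    rw [hE]
    unfold qf GExp_E
    ring
  have hG0 : 0 < G := Real.exp_pos _
  have hEx0 : 0 < Real.exp E := Real.exp_pos _
  have hEx1 : Real.exp E ≤ 1 := Real.exp_le_one_iff.2 hE0
  set S := ∑ j ∈ Finset.range (N + 1), Z ^ j / (j.factorial : ℂ) with hS
  set R := ∑ k ∈ Finset.range (N + 1), (t : ℂ) ^ k * ev w (p k) with hR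
  have h1 : ‖Complex.exp Z - S‖ ≤ ‖Z‖ ^ (N + 1) / ((N + 1).factorial : ℝ) * max 1 (Real.exp Z.re) :=
    R2.exp_sub_sum_le Z (N + 1)
  have hW : 1 ≤ nb w := one_le_nb w
  have hW0 : 0 ≤ nb w := zero_le_one.trans hW
  have h2 : ‖Z‖ ≤ t * (C1 * nb w ^ M1) := by
    have e1 := hb t ht w
    rw [norm_mul, norm_inv, Complex.norm_real, Real.norm_of_nonneg ht0.le,
      inv_mul_le_iff₀ ht0] at e1
    exact e1
  have h3 : Real.exp E * ‖Complex.exp Z - S‖ ≤ ‖Z‖ ^ (N + 1) := by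
    have e1 : Real.exp E * max 1 (Real.exp Z.re) ≤ 1 := by
      rw [mul_max_of_nonneg _ _ hEx0.le, mul_one, ← Real.exp_add]
      exact max_le hEx1 (Real.exp_le_one_iff.2 hre)
    have e2 : (1 : ℝ) ≤ ((N + 1).factorial : ℝ) := by
      exact_mod_cast Nat.factorial_pos (N + 1)
    have e3 : ‖Z‖ ^ (N + 1) / ((N + 1).factorial : ℝ) ≤ ‖Z‖ ^ (N + 1) :=
      div_le_self (by positivity) e2
    calc Real.exp E * ‖Complex.exp Z - S‖
        ≤ Real.exp E * (‖Z‖ ^ (N + 1) / ((N + 1).factorial : ℝ) * max 1 (Real.exp Z.re)) :=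
          mul_le_mul_of_nonneg_left h1 hEx0.le
      _ = (‖Z‖ ^ (N + 1) / ((N + 1).factorial : ℝ)) * (Real.exp E * max 1 (Real.exp Z.re)) := by ring
      _ ≤ (‖Z‖ ^ (N + 1) / ((N + 1).factorial : ℝ)) * 1 :=
          mul_le_mul_of_nonneg_left e1 (by positivity)
      _ ≤ ‖Z‖ ^ (N + 1) := by rw [mul_one]; exact e3
  have h4 : ‖Z‖ ^ (N + 1) ≤ C1 ^ (N + 1) * t ^ (N + 1) * nb w ^ (M1 * (N + 1) + M2) := by
    calc ‖Z‖ ^ (N + 1) ≤ (t * (C1 * nb w ^ M1)) ^ (N + 1) :=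
          pow_le_pow_left₀ (norm_nonneg _) h2 _
      _ = C1 ^ (N + 1) * t ^ (N + 1) * nb w ^ (M1 * (N + 1)) := by
          rw [mul_pow, mul_pow, ← pow_mul]
          ring
      _ ≤ C1 ^ (N + 1) * t ^ (N + 1) * nb w ^ (M1 * (N + 1) + M2) := by
          refine mul_le_mul_of_nonneg_left ?_ (by positivity)
          exact pow_le_pow_right₀ hW (by omega)
  have h5 : ‖S - R‖ ≤ |C2| * t ^ (N + 1) * nb w ^ (M1 * (N + 1) + M2) := by
    have e1 := hp t ht w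
    refine e1.trans ?_
    refine mul_le_mul (mul_le_mul_of_nonneg_right (le_abs_self _) (by positivity)) ?_
      (by positivity) (by positivity)
    exact pow_le_pow_right₀ hW (by omega)
  have h6 : g L Q t w - Complex.exp (-(qf L Q w : ℝ)) * R
      = (G : ℂ) * ((Real.exp E : ℂ) * (Complex.exp Z - S) + (Real.exp E : ℂ) * (S - R)) := by
    rw [hg, hq]
    ring
  rw [h6, norm_mul, Complex.norm_real, Real.norm_of_nonneg hG0.le]
  have h7 : ‖(Real.exp E : ℂ) * (Complex.exp Z - S) + (Real.exp E : ℂ) * (S - R)‖ ≤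
      (C1 ^ (N + 1) + |C2|) * t ^ (N + 1) * nb w ^ (M1 * (N + 1) + M2) := by
    refine (norm_add_le _ _).trans ?_
    rw [norm_mul, norm_mul, Complex.norm_real, Real.norm_of_nonneg hEx0.le]
    have e1 : Real.exp E * ‖S - R‖ ≤ ‖S - R‖ := mul_le_of_le_one_left (norm_nonneg _) hEx1
    calc Real.exp E * ‖Complex.exp Z - S‖ + Real.exp E * ‖S - R‖
        ≤ C1 ^ (N + 1) * t ^ (N + 1) * nb w ^ (M1 * (N + 1) + M2)
          + |C2| * t ^ (N + 1) * nb w ^ (M1 * (N + 1) + M2) :=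
          add_le_add (h3.trans h4) (e1.trans h5)
      _ = (C1 ^ (N + 1) + |C2|) * t ^ (N + 1) * nb w ^ (M1 * (N + 1) + M2) := by ring
  calc G * ‖(Real.exp E : ℂ) * (Complex.exp Z - S) + (Real.exp E : ℂ) * (S - R)‖
      ≤ G * ((C1 ^ (N + 1) + |C2|) * t ^ (N + 1) * nb w ^ (M1 * (N + 1) + M2)) :=
        mul_le_mul_of_nonneg_left h7 hG0.le
    _ = (C1 ^ (N + 1) + |C2|) * t ^ (N + 1) *
        (nb w ^ (M1 * (N + 1) + M2) * G) := by ring

end Pool.Agent.Lib.MP_8ce23f_nt.RR
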