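import Pool.Agent.Lib.MP_8ce23f_nt.RR.IntExp
import Pool.Agent.Lib.MP_8ce23f_nt.RR.FNInt
import Pool.Agent.Lib.MP_8ce23f_nt.RR.Patch

/-!
# The asymptotic series

As `R2/Gam.lean`, for every rank.
-/

open Filter Topology Asymptotics MeasureTheory
open scoped Real

namespace Pool.Agent.Lib.MP_8ce23f_nt.RR

open Pool.Agent.Lib.MP_8ce23f_nt.R2 (rp Asy E2 Lam LamR Xi)

variable {r : ℕ}

/-- The linear polynomial with values `sv L B j`. -/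
noncomputable def Gam_S (L : Matrix (Fin r) (Fin r) ℝ) (j : Fin r) : P r :=
  ∑ i, MvPolynomial.C ((L⁻¹ j i : ℝ) : ℂ) * MvPolynomial.X i

theorem Gam_ev_S (L : Matrix (Fin r) (Fin r) ℝ) (j : Fin r) (B : Fin r → ℝ) :
    ev B (Gam_S L j) = ((sv L B j : ℝ) : ℂ) := by
  unfold Gam_S sv ev
  rw [map_sum, Complex.ofReal_sum]
  refine Finset.sum_congr rfl fun i _ => ?_
  rw [map_mul, MvPolynomial.eval_C, MvPolynomial.eval_X, Complex.ofReal_mul]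

theorem Gam_ev_sq (L : Matrix (Fin r) (Fin r) ℝ) (B : Fin r → ℝ) :
    ev B (MvPolynomial.C (1 / 2 : ℂ) * ∑ j, Gam_S L j ^ 2) = ((hs (sv L B) : ℝ) : ℂ) := by
  rw [map_mul, map_sum]
  have h1 : ev B (MvPolynomial.C (1 / 2 : ℂ)) = 1 / 2 := by
    unfold ev
    rw [MvPolynomial.eval_C]
  rw [h1]
  unfold hs
  push_cast
  simp only [map_pow, Gam_ev_S]
  ring

theorem Gam_constantCoeff_E2 (p : P r) : PowerSeries.constantCoeff (E2 p) = 1 := by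
  rw [← PowerSeries.coeff_zero_eq_constantCoeff_apply, E2, PowerSeries.coeff_mk]
  simp

theorem exists_Gam {A L : Matrix (Fin r) (Fin r) ℝ} (hL : L * L.transpose = A)
    (hdet : IsUnit L.det) {Q : Fin r → ℝ} (hQ : NahmSol A Q) :
    ∃ (Γ : PowerSeries (P r)) (γ : ℂ), γ ≠ 0 ∧ PowerSeries.constantCoeff Γ = MvPolynomial.C γ ∧
      ∀ B : Fin r → ℝ, Asy (fun t => (FN A L Q B t : ℂ)) (PowerSeries.map (ev B) Γ) := by
  obtain ⟨Γ₁, hΓ₁, hAsy⟩ := patch (fun B t => ∫ w : Fin r → ℝ,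
      Complex.exp ((t * ∑ i, w i * sv L B i : ℝ) * Complex.I) * g L Q t w)
    (MvPolynomial.C (∫ w : Fin r → ℝ, Complex.exp (-(qf L Q w : ℝ))))
    (fun N => integral_expansion L hQ.inUnit N)
  have hpi : ((((√(2 * π)) ^ r : ℝ) : ℂ)⁻¹) ≠ 0 := by
    apply inv_ne_zero
    have : (0 : ℝ) < (√(2 * π)) ^ r := by positivity
    exact_mod_cast this.ne'
  refine ⟨E2 (MvPolynomial.C (1 / 2 : ℂ) * ∑ j, Gam_S L j ^ 2) *
    (PowerSeries.C (MvPolynomial.C ((((√(2 * π)) ^ r : ℝ) : ℂ)⁻¹)) * Γ₁),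
    (((√(2 * π)) ^ r : ℝ) : ℂ)⁻¹ * ∫ w : Fin r → ℝ, Complex.exp (-(qf L Q w : ℝ)),
    mul_ne_zero hpi (integral_qf_ne_zero L hQ.inUnit), ?_, fun B => ?_⟩
  · rw [map_mul, map_mul, Gam_constantCoeff_E2, hΓ₁, one_mul, PowerSeries.constantCoeff_C,
      ← MvPolynomial.C_mul]
  · rw [map_mul, map_mul, map_ev_E2, Gam_ev_sq, PowerSeries.map_C]
    have hC : ev B (MvPolynomial.C ((((√(2 * π)) ^ r : ℝ) : ℂ)⁻¹)) =
        (((√(2 * π)) ^ r : ℝ) : ℂ)⁻¹ := by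
      unfold ev
      rw [MvPolynomial.eval_C]
    rw [hC]
    refine R2.Asy.congr' ?_ (R2.Asy.mul (R2.Asy.exp_sq _)
      (R2.Asy.const_mul (hAsy B) ((((√(2 * π)) ^ r : ℝ) : ℂ)⁻¹)))
    filter_upwards [self_mem_nhdsWithin] with t ht
    rw [FN_eq_integral hL hdet hQ B ht]
    congr 2
    push_cast
    ring

end Pool.Agent.Lib.MP_8ce23f_nt.RR
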