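import Pool.Agent.Lib.MP_8ce23f_nt.RR.FShift
import Pool.Agent.Lib.MP_8ce23f_nt.R2.Holo
import Pool.Agent.Lib.MP_8ce23f_nt.Main

/-!
# The Nahm sum of a positive definite matrix is holomorphic

As `R2/Holo.lean`, for every rank.  A positive definite rational matrix is positive definite over
`ℝ`; the lower bound of the exponent is `exists_ex_lower`.
-/

open Filter Topology Asymptotics
open scoped Real MatrixGroups Manifold
open UpperHalfPlane hiding I

namespace Pool.Agent.Lib.MP_8ce23f_nt.RR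

open Pool.Agent.Lib.MP_8ce23f_nt.R2 (rp Asy E2 Lam LamR Xi)

variable {r : ℕ}

theorem posDef_real {A : Matrix (Fin r) (Fin r) ℚ} (hA : A.PosDef) :
    (A.map fun x : ℚ => (x : ℝ)).PosDef := by
  have hherm : (A.map fun x : ℚ => (x : ℝ)).IsHermitian := by
    ext i j
    have h := congrFun (congrFun hA.1 i) j
    simp only [Matrix.conjTranspose_apply, star_trivial] at h
    simp only [Matrix.conjTranspose_apply, Matrix.map_apply, star_trivial]
    rw [h]
  have hform : ∀ x : Fin r → ℝ, star x ⬝ᵥ ((A.map fun x : ℚ => (x : ℝ)).mulVec x) =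
      ∑ i, ∑ j, x i * (A i j : ℝ) * x j := by
    intro x
    simp only [dotProduct, Matrix.mulVec, Matrix.map_apply, Pi.star_apply, star_trivial,
      Finset.mul_sum, mul_assoc]
  have hcont : Continuous fun x : Fin r → ℝ => ∑ i, ∑ j, x i * (A i j : ℝ) * x j := by
    fun_prop
  have hdense : DenseRange fun y : Fin r → ℚ => (fun i => ((y i : ℚ) : ℝ) : Fin r → ℝ) :=
    DenseRange.piMap fun _ => Rat.denseRange_cast
  have hnn : ∀ x : Fin r → ℝ, 0 ≤ ∑ i, ∑ j, x i * (A i j : ℝ) * x j := by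
    intro x
    refine hdense.induction_on (p := fun x : Fin r → ℝ => 0 ≤ ∑ i, ∑ j, x i * (A i j : ℝ) * x j)
      x (isClosed_le continuous_const hcont) fun y => ?_
    have h := hA.posSemidef.dotProduct_mulVec_nonneg y
    simp only [dotProduct, Matrix.mulVec, Pi.star_apply, star_trivial, Finset.mul_sum] at h
    have h2 : (0 : ℝ) ≤ ((∑ i, ∑ j, y i * (A i j * y j) : ℚ) : ℝ) := by exact_mod_cast h
    push_cast at h2
    simpa only [mul_assoc] using h2
  have hps : (A.map fun x : ℚ => (x : ℝ)).PosSemidef :=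
    Matrix.PosSemidef.of_dotProduct_mulVec_nonneg hherm fun x => by
      rw [hform]
      exact hnn x
  refine hps.posDef_iff_det_ne_zero.2 ?_
  have hdet : A.det ≠ 0 := by
    have h := hA.isUnit
    rw [Matrix.isUnit_iff_isUnit_det] at h
    exact h.ne_zero
  have h3 : (A.map fun x : ℚ => (x : ℝ)).det = ((A.det : ℚ) : ℝ) := by
    have := (RingHom.map_det (Rat.castHom ℝ) A).symm
    simpa [RingHom.mapMatrix_apply] using this
  rw [h3]
  exact_mod_cast hdet

theorem nahmExp_eq_ex (A : Matrix (Fin r) (Fin r) ℚ) (B : Fin r → ℚ) (C : ℚ) (n : Fin r → ℕ) :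
    ((nahmExp A B C n : ℚ) : ℝ) =
      nex (A.map fun x : ℚ => (x : ℝ)) (fun i => (B i : ℝ)) (fun i => (n i : ℝ)) + C := by
  simp only [nahmExp, nex, Matrix.map_apply]
  push_cast
  ring

private theorem Holo_nahmExp_lower {A : Matrix (Fin r) (Fin r) ℚ} (hA : A.PosDef)
    (B : Fin r → ℚ) (C : ℚ) :
    ∃ α K : ℝ, 0 < α ∧ 0 ≤ K ∧ ∀ n : Fin r → ℕ,
      α * (∑ i, (n i : ℝ)) - K ≤ ((nahmExp A B C n : ℚ) : ℝ) := by
  obtain ⟨α, C', hα, h⟩ := exists_ex_lower (posDef_real hA) fun i => (B i : ℝ)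
  refine ⟨α, |C'| + |(C : ℝ)|, hα, by positivity, fun n => ?_⟩
  rw [nahmExp_eq_ex]
  have h1 := h n
  have h2 := le_abs_self C'
  have h3 := neg_abs_le (C : ℝ)
  linarith

/-- The term as a function of the complex variable. -/
private noncomputable def Holo_term (A : Matrix (Fin r) (Fin r) ℚ) (B : Fin r → ℚ) (C : ℚ)
    (n : Fin r → ℕ) (z : ℂ) : ℂ :=
  Complex.exp (2 * π * Complex.I * (nahmExp A B C n : ℚ) * z) /
    ∏ i, ∏ j ∈ Finset.range (n i), (1 - Complex.exp (2 * π * Complex.I * (((j : ℚ) + 1 : ℚ)) * z))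

private theorem Holo_term_eq (A : Matrix (Fin r) (Fin r) ℚ) (B : Fin r → ℚ) (C : ℚ)
    (n : Fin r → ℕ) (τ : ℍ) :
    qPow (nahmExp A B C n) τ / ∏ i, qFac (n i) τ = Holo_term A B C n (τ : ℂ) := rfl

private theorem Holo_term_diff (A : Matrix (Fin r) (Fin r) ℚ) (B : Fin r → ℚ) (C : ℚ)
    (n : Fin r → ℕ) {U : Set ℂ} (hU : ∀ z ∈ U, 0 < z.im) :
    DifferentiableOn ℂ (Holo_term A B C n) U := by
  intro z hz
  have hden : (∏ i, ∏ j ∈ Finset.range (n i),
      (1 - Complex.exp (2 * π * Complex.I * (((j : ℚ) + 1 : ℚ)) * z))) ≠ 0 := by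
    have h1 : ∏ i, qFac (n i) ⟨z, hU z hz⟩ ≠ 0 := by
      refine Finset.prod_ne_zero_iff.2 fun i _ => ?_
      rw [qFac_eq]
      exact poch_ne_zero (norm_qr_one_lt _) _
    exact h1
  have hd : Differentiable ℂ fun z : ℂ => ∏ i, ∏ j ∈ Finset.range (n i),
      (1 - Complex.exp (2 * π * Complex.I * (((j : ℚ) + 1 : ℚ)) * z)) := by
    fun_prop
  have hn : Differentiable ℂ fun z : ℂ =>
      Complex.exp (2 * π * Complex.I * (nahmExp A B C n : ℚ) * z) := by
    fun_prop
  exact ((hn z).div (hd z) hden).differentiableWithinAt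

private theorem Holo_summable {ρ : ℝ} (h0 : 0 ≤ ρ) (h1 : ρ < 1) :
    Summable fun n : Fin r → ℕ => ∏ i, ρ ^ n i := by
  have h := (summable_tsum_pi (r := r) (fun _ k => (ρ : ℂ) ^ k) (fun _ => by
    simpa [norm_pow, abs_of_nonneg h0] using summable_geometric_of_lt_one h0 h1)).1
  refine h.congr fun n => ?_
  rw [norm_prod]
  refine Finset.prod_congr rfl fun i _ => ?_
  rw [norm_pow, Complex.norm_real, Real.norm_eq_abs, abs_of_nonneg h0]

theorem nahmSum_mdiff {A : Matrix (Fin r) (Fin r) ℚ} (hA : A.PosDef) (B : Fin r → ℚ) (C : ℚ) :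
    MDifferentiable 𝓘(ℂ) 𝓘(ℂ) (nahmSum A B C) := by
  rw [UpperHalfPlane.mdifferentiable_iff]
  intro z₀ hz₀
  have hz₀' : 0 < z₀.im := hz₀
  obtain ⟨α, K, hα, hK, hexp⟩ := Holo_nahmExp_lower hA B C
  set y₀ : ℝ := z₀.im / 2 with hy₀
  set y₁ : ℝ := 2 * z₀.im with hy₁
  have hy₀pos : 0 < y₀ := by positivity
  set U : Set ℂ := {z | y₀ < z.im ∧ z.im < y₁} with hU
  have hUo : IsOpen U :=
    (isOpen_lt continuous_const Complex.continuous_im).inter
      (isOpen_lt Complex.continuous_im continuous_const)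
  have hzU : z₀ ∈ U := ⟨by rw [hy₀]; linarith, by rw [hy₁]; linarith⟩
  have hUpos : ∀ z ∈ U, 0 < z.im := fun z hz => hy₀pos.trans hz.1
  have hπ := Real.pi_pos
  set ρ : ℝ := Real.exp (-(2 * π * y₀)) with hρ
  have hρ1 : ρ < 1 := by
    rw [hρ, Real.exp_lt_one_iff]
    have : 0 < 2 * π * y₀ := by positivity
    linarith
  have hρ0 : 0 < ρ := Real.exp_pos _
  set ρ' : ℝ := Real.exp (-(2 * π * (α * y₀))) with hρ'
  have hρ'1 : ρ' < 1 := by
    rw [hρ', Real.exp_lt_one_iff]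
    have : 0 < 2 * π * (α * y₀) := by positivity
    linarith
  have hρ'0 : 0 < ρ' := Real.exp_pos _
  obtain ⟨c, hc, hcl⟩ := exists_poch_lower (q := (ρ : ℂ)) (by
    rw [Complex.norm_real, Real.norm_eq_abs, abs_of_pos hρ0]; exact hρ1)
  have hbound : ∀ (n : Fin r → ℕ) (z : ℂ), z ∈ U → ‖Holo_term A B C n z‖ ≤
      Real.exp (2 * π * K * y₁) * (∏ i, ρ' ^ n i) / c ^ r := by
    intro n z hz
    have hzp := hUpos z hz
    set τ : ℍ := ⟨z, hzp⟩ with hτ
    have hτim : τ.im = z.im := rfl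
    have e1 : Holo_term A B C n z = qPow (nahmExp A B C n) τ / ∏ i, qFac (n i) τ := rfl
    rw [e1, norm_div]
    have hden : c ^ r ≤ ‖∏ i, qFac (n i) τ‖ := by
      rw [norm_prod]
      have hq : ‖qr 1 τ‖ ≤ ρ := by
        rw [norm_qr, hρ]
        apply Real.exp_le_exp.2
        have h1 : y₀ ≤ τ.im := hz.1.le
        have : 2 * π * y₀ ≤ 2 * π * 1 * τ.im := by
          nlinarith
        linarith
      have h1 : ∀ m, c ≤ ‖qFac m τ‖ := by
        intro m
        rw [qFac_eq]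
        exact (hcl m).trans (R2.Holo_poch_le hq hρ1 m)
      calc c ^ r = ∏ _i : Fin r, c := by simp
        _ ≤ ∏ i, ‖qFac (n i) τ‖ := Finset.prod_le_prod (fun _ _ => hc.le) fun i _ => h1 (n i)
    have hnum : ‖qPow (nahmExp A B C n) τ‖ ≤
        Real.exp (2 * π * K * y₁) * (∏ i, ρ' ^ n i) := by
      have e2 : ∏ i, ρ' ^ n i = Real.exp ((∑ i, (n i : ℝ)) * -(2 * π * (α * y₀))) := by
        rw [Finset.sum_mul, Real.exp_sum]
        refine Finset.prod_congr rfl fun i _ => ?_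
        rw [hρ', ← Real.exp_nat_mul]
      rw [qPow_eq, norm_qr, e2, ← Real.exp_add]
      apply Real.exp_le_exp.2
      have h1 : y₀ ≤ τ.im := hz.1.le
      have h2 : τ.im ≤ y₁ := hz.2.le
      have h3 := hexp n
      have hs : (0 : ℝ) ≤ ∑ i, (n i : ℝ) := Finset.sum_nonneg fun i _ => Nat.cast_nonneg _
      have h4 : (α * (∑ i, (n i : ℝ)) - K) * τ.im ≤ ((nahmExp A B C n : ℚ) : ℝ) * τ.im :=
        mul_le_mul_of_nonneg_right h3 (hy₀pos.le.trans h1)
      have h5 : α * (∑ i, (n i : ℝ)) * y₀ ≤ α * (∑ i, (n i : ℝ)) * τ.im :=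
        mul_le_mul_of_nonneg_left h1 (mul_nonneg hα.le hs)
      have h6 : K * τ.im ≤ K * y₁ := mul_le_mul_of_nonneg_left h2 hK
      have h7 : α * (∑ i, (n i : ℝ)) * y₀ - K * y₁ ≤ ((nahmExp A B C n : ℚ) : ℝ) * τ.im := by
        linarith
      have h8 := mul_le_mul_of_nonneg_left h7 (mul_pos two_pos hπ).le
      linarith
    exact div_le_div₀ (mul_nonneg (Real.exp_pos _).le
      (Finset.prod_nonneg fun i _ => pow_nonneg hρ'0.le _)) hnum (pow_pos hc r) hden
  have hsum : Summable fun n : Fin r → ℕ =>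
      Real.exp (2 * π * K * y₁) * (∏ i, ρ' ^ n i) / c ^ r :=
    ((Holo_summable hρ'0.le hρ'1).mul_left _).div_const _
  have hdiff := Complex.differentiableOn_tsum_of_summable_norm hsum
    (fun n => Holo_term_diff A B C n hUpos) hUo hbound
  refine ((hdiff.differentiableAt (hUo.mem_nhds hzU)).congr_of_eventuallyEq
    ?_).differentiableWithinAt
  filter_upwards [hUo.mem_nhds hzU] with z hz
  simp only [Function.comp, nahmSum]
  apply tsum_congr
  intro n
  rw [Holo_term_eq, ofComplex_apply_of_im_pos (hUpos z hz)]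

end Pool.Agent.Lib.MP_8ce23f_nt.RR
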