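import Pool.Agent.Lib.MP_8ce23f_nt.RR.Defs

/-!
# Homogeneous components of shifts and products

As `R2/Hom.lean`, for every rank.
-/

open Filter Topology Asymptotics MeasureTheory
open scoped Real

namespace Pool.Agent.Lib.MP_8ce23f_nt.RR

open Pool.Agent.Lib.MP_8ce23f_nt.R2 (rp Asy E2 Lam LamR Xi)

variable {r : ℕ}


theorem Hom_prod (p p' : P r) (k : ℕ) :
    MvPolynomial.homogeneousComponent k (p * p') =
      ∑ y ∈ Finset.HasAntidiagonal.antidiagonal k,
        MvPolynomial.homogeneousComponent y.1 p * MvPolynomial.homogeneousComponent y.2 p' := by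
  classical
  ext d
  rw [MvPolynomial.coeff_homogeneousComponent, MvPolynomial.coeff_sum, MvPolynomial.coeff_mul]
  simp only [MvPolynomial.coeff_mul]
  rw [Finset.sum_comm]
  have key : ∀ x ∈ Finset.HasAntidiagonal.antidiagonal d, ∑ y ∈ Finset.HasAntidiagonal.antidiagonal k,
      MvPolynomial.coeff x.1 (MvPolynomial.homogeneousComponent y.1 p) *
        MvPolynomial.coeff x.2 (MvPolynomial.homogeneousComponent y.2 p') =
      if d.degree = k then MvPolynomial.coeff x.1 p * MvPolynomial.coeff x.2 p' else 0 := by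
    intro x hx
    have hx' : x.1 + x.2 = d := Finset.HasAntidiagonal.mem_antidiagonal.1 hx
    have hdeg : d.degree = x.1.degree + x.2.degree := by rw [← hx', map_add]
    by_cases hk : d.degree = k
    · rw [if_pos hk, Finset.sum_eq_single (x.1.degree, x.2.degree)]
      · rw [MvPolynomial.coeff_homogeneousComponent, MvPolynomial.coeff_homogeneousComponent,
          if_pos rfl, if_pos rfl]
      · intro y _ hne
        rw [MvPolynomial.coeff_homogeneousComponent, MvPolynomial.coeff_homogeneousComponent]
        by_cases h1 : x.1.degree = y.1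
        · by_cases h2 : x.2.degree = y.2
          · exact absurd (Prod.ext h1.symm h2.symm) hne
          · rw [if_neg h2, mul_zero]
        · rw [if_neg h1, zero_mul]
      · intro hh
        exfalso
        apply hh
        rw [Finset.HasAntidiagonal.mem_antidiagonal]
        rw [← hk, hdeg]
    · rw [if_neg hk]
      refine Finset.sum_eq_zero (fun y hy => ?_)
      have hy' : y.1 + y.2 = k := Finset.HasAntidiagonal.mem_antidiagonal.1 hy
      rw [MvPolynomial.coeff_homogeneousComponent, MvPolynomial.coeff_homogeneousComponent]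
      by_cases h1 : x.1.degree = y.1
      · by_cases h2 : x.2.degree = y.2
        · exfalso
          apply hk
          rw [hdeg, h1, h2, hy']
        · rw [if_neg h2, mul_zero]
      · rw [if_neg h1, zero_mul]
  rw [Finset.sum_congr rfl key]
  by_cases hk : d.degree = k
  · simp only [if_pos hk]
  · simp only [if_neg hk, Finset.sum_const_zero]

theorem hom_mul {p p' : P r} {i j : ℕ} (hp : p.totalDegree ≤ i) (hp' : p'.totalDegree ≤ j) :
    MvPolynomial.homogeneousComponent (i + j) (p * p') =
      MvPolynomial.homogeneousComponent i p * MvPolynomial.homogeneousComponent j p' := by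
  rw [Hom_prod, Finset.sum_eq_single (i, j)]
  · intro y hy hne
    have hy' : y.1 + y.2 = i + j := Finset.HasAntidiagonal.mem_antidiagonal.1 hy
    by_cases h1 : i < y.1
    · rw [MvPolynomial.homogeneousComponent_eq_zero y.1 p (by omega), zero_mul]
    · by_cases h2 : j < y.2
      · rw [MvPolynomial.homogeneousComponent_eq_zero y.2 p' (by omega), mul_zero]
      · exact absurd (Prod.ext (by simp; omega) (by simp; omega)) hne
  · intro hh
    exact absurd (Finset.HasAntidiagonal.mem_antidiagonal.2 (by simp)) hh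

/-! ### Multiplication by a variable -/

private theorem Hom_X (k : ℕ) (i : Fin r) :
    MvPolynomial.homogeneousComponent k (MvPolynomial.X i : P r) = if k = 1 then MvPolynomial.X i else 0 :=
  MvPolynomial.homogeneousComponent_of_mem (MvPolynomial.isHomogeneous_X ℂ i)

private theorem Hom_mul_X_zero (p : P r) (i : Fin r) :
    MvPolynomial.homogeneousComponent 0 (p * MvPolynomial.X i) = 0 := by
  rw [Hom_prod]
  refine Finset.sum_eq_zero (fun y hy => ?_)
  have hy' : y.1 + y.2 = 0 := Finset.HasAntidiagonal.mem_antidiagonal.1 hy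
  rw [Hom_X, if_neg (by omega), mul_zero]

private theorem Hom_mul_X_succ (p : P r) (i : Fin r) (k : ℕ) :
    MvPolynomial.homogeneousComponent (k + 1) (p * MvPolynomial.X i) =
      MvPolynomial.homogeneousComponent k p * MvPolynomial.X i := by
  rw [Hom_prod, Finset.sum_eq_single (k, 1)]
  · rw [Hom_X, if_pos rfl]
  · intro y hy hne
    have hy' : y.1 + y.2 = k + 1 := Finset.HasAntidiagonal.mem_antidiagonal.1 hy
    rw [Hom_X, if_neg, mul_zero]
    intro h
    exact hne (Prod.ext (by simp; omega) h)
  · intro hh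
    exact absurd (Finset.HasAntidiagonal.mem_antidiagonal.2 (by simp)) hh

private theorem Hom_C (k : ℕ) (a : ℂ) :
    MvPolynomial.homogeneousComponent k (MvPolynomial.C a : P r) = if k = 0 then MvPolynomial.C a else 0 :=
  MvPolynomial.homogeneousComponent_of_mem (MvPolynomial.isHomogeneous_C (Fin r) a)

private theorem Hom_mul_C (k : ℕ) (p : P r) (a : ℂ) :
    MvPolynomial.homogeneousComponent k (p * MvPolynomial.C a) =
      MvPolynomial.homogeneousComponent k p * MvPolynomial.C a := by
  rw [mul_comm, MvPolynomial.homogeneousComponent_C_mul, mul_comm]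

/-! ### The Taylor expansion -/

/-- `X_i ↦ X_i + v_i T` -/
private noncomputable def Hom_Phi (v : Fin r → ℂ) : P r →ₐ[ℂ] Polynomial (P r) :=
  MvPolynomial.aeval fun i => Polynomial.C (MvPolynomial.X i) +
    Polynomial.C (MvPolynomial.C (v i)) * Polynomial.X

private theorem Hom_Phi_C (v : Fin r → ℂ) (a : ℂ) :
    Hom_Phi v (MvPolynomial.C a) = Polynomial.C (MvPolynomial.C a) := by
  unfold Hom_Phi
  rw [MvPolynomial.aeval_C]
  rfl

private theorem Hom_Phi_mul_X (v : Fin r → ℂ) (p : P r) (i : Fin r) :
    Hom_Phi v (p * MvPolynomial.X i) = Hom_Phi v p * Polynomial.C (MvPolynomial.X i) +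
      Hom_Phi v p * Polynomial.C (MvPolynomial.C (v i)) * Polynomial.X := by
  rw [map_mul]
  have h : Hom_Phi v (MvPolynomial.X i) = Polynomial.C (MvPolynomial.X i) +
    Polynomial.C (MvPolynomial.C (v i)) * Polynomial.X := by
    unfold Hom_Phi
    rw [MvPolynomial.aeval_X]
  rw [h, mul_add, mul_assoc]

private theorem Hom_Phi_coeff_zero_mul_X (v : Fin r → ℂ) (p : P r) (i : Fin r) :
    (Hom_Phi v (p * MvPolynomial.X i)).coeff 0 = (Hom_Phi v p).coeff 0 * MvPolynomial.X i := by
  rw [Hom_Phi_mul_X, Polynomial.coeff_add, Polynomial.coeff_mul_C, Polynomial.coeff_mul_X_zero, add_zero]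

private theorem Hom_Phi_coeff_succ_mul_X (v : Fin r → ℂ) (p : P r) (i : Fin r) (n : ℕ) :
    (Hom_Phi v (p * MvPolynomial.X i)).coeff (n + 1) = (Hom_Phi v p).coeff (n + 1) * MvPolynomial.X i +
      (Hom_Phi v p).coeff n * MvPolynomial.C (v i) := by
  rw [Hom_Phi_mul_X, Polynomial.coeff_add, Polynomial.coeff_mul_C, Polynomial.coeff_mul_X,
    Polynomial.coeff_mul_C]

/-- coefficients of high order vanish -/
private theorem Hom_Phi_vanish (v : Fin r → ℂ) (p : P r) : ∀ j n : ℕ, j < n →
    (Hom_Phi v (MvPolynomial.homogeneousComponent j p)).coeff n = 0 := by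
  induction p using MvPolynomial.induction_on with
  | C a =>
    intro j n h
    rw [Hom_C]
    by_cases hj : j = 0
    · rw [if_pos hj, Hom_Phi_C, Polynomial.coeff_C, if_neg (by omega)]
    · rw [if_neg hj, map_zero, Polynomial.coeff_zero]
  | add p q hp hq =>
    intro j n h
    rw [map_add, map_add, Polynomial.coeff_add, hp j n h, hq j n h, add_zero]
  | mul_X p i hp =>
    intro j n h
    rcases j with _ | j
    · rw [Hom_mul_X_zero, map_zero, Polynomial.coeff_zero]
    · obtain ⟨n, rfl⟩ : ∃ n', n = n' + 1 := ⟨n - 1, by omega⟩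
      rw [Hom_mul_X_succ, Hom_Phi_coeff_succ_mul_X, hp j (n + 1) (by omega), hp j n (by omega), zero_mul,
        zero_mul, add_zero]

/-- homogeneous components of the coefficients -/
private theorem Hom_Phi_hom (v : Fin r → ℂ) (p : P r) : ∀ k n : ℕ,
    MvPolynomial.homogeneousComponent k ((Hom_Phi v p).coeff n) =
      (Hom_Phi v (MvPolynomial.homogeneousComponent (k + n) p)).coeff n := by
  induction p using MvPolynomial.induction_on with
  | C a =>
    intro k n
    rw [Hom_Phi_C, Polynomial.coeff_C, Hom_C]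
    rcases n with _ | n
    · rw [if_pos rfl, Hom_C, add_zero]
      by_cases hk : k = 0
      · rw [if_pos hk, Hom_Phi_C, Polynomial.coeff_C, if_pos rfl]
      · rw [if_neg hk, map_zero, Polynomial.coeff_zero]
    · rw [if_neg (by omega), if_neg (by omega), map_zero, map_zero, Polynomial.coeff_zero]
  | add p q hp hq =>
    intro k n
    rw [map_add, map_add, Polynomial.coeff_add, map_add, map_add, Polynomial.coeff_add, hp k n, hq k n]
  | mul_X p i hp =>
    intro k n
    rcases k with _ | k
    · rcases n with _ | n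
      · rw [Hom_Phi_coeff_zero_mul_X, Hom_mul_X_zero, add_zero, Hom_mul_X_zero, map_zero,
          Polynomial.coeff_zero]
      · have e1 : 0 + (n + 1) = (0 + n) + 1 := by omega
        rw [Hom_Phi_coeff_succ_mul_X, map_add, Hom_mul_X_zero, Hom_mul_C, hp 0 n, e1, Hom_mul_X_succ,
          Hom_Phi_coeff_succ_mul_X, Hom_Phi_vanish v p (0 + n) (n + 1) (by omega), zero_mul]
    · rcases n with _ | n
      · have e1 : k + 1 + 0 = (k + 0) + 1 := by omega
        rw [Hom_Phi_coeff_zero_mul_X, Hom_mul_X_succ, hp k 0, e1, Hom_mul_X_succ, Hom_Phi_coeff_zero_mul_X]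
        rfl
      · have e1 : k + 1 + (n + 1) = (k + (n + 1)) + 1 := by omega
        have e2 : k + (n + 1) = k + 1 + n := by omega
        rw [Hom_Phi_coeff_succ_mul_X, map_add, Hom_mul_X_succ, Hom_mul_C, hp k (n + 1), hp (k + 1) n, e1,
          Hom_mul_X_succ, Hom_Phi_coeff_succ_mul_X, e2]

/-- the derivative in direction `v` -/
private noncomputable def Hom_D (v : Fin r → ℂ) (p : P r) : P r := ∑ l, MvPolynomial.C (v l) * MvPolynomial.pderiv l p

private theorem Hom_D_C (v : Fin r → ℂ) (a : ℂ) : Hom_D v (MvPolynomial.C a) = 0 := by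
  unfold Hom_D
  refine Finset.sum_eq_zero (fun l _ => ?_)
  rw [MvPolynomial.pderiv_C, mul_zero]

private theorem Hom_D_add (v : Fin r → ℂ) (p q : P r) : Hom_D v (p + q) = Hom_D v p + Hom_D v q := by
  unfold Hom_D
  rw [← Finset.sum_add_distrib]
  refine Finset.sum_congr rfl (fun l _ => ?_)
  rw [map_add, mul_add]

private theorem Hom_D_mul_X (v : Fin r → ℂ) (p : P r) (i : Fin r) :
    Hom_D v (p * MvPolynomial.X i) = Hom_D v p * MvPolynomial.X i + p * MvPolynomial.C (v i) := by
  classical
  unfold Hom_D
  have h : ∀ l : Fin r, MvPolynomial.C (v l) * MvPolynomial.pderiv l (p * MvPolynomial.X i) =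
      MvPolynomial.C (v l) * MvPolynomial.pderiv l p * MvPolynomial.X i +
        (if l = i then p * MvPolynomial.C (v l) else 0) := by
    intro l
    rw [MvPolynomial.pderiv_mul, MvPolynomial.pderiv_X]
    by_cases hl : l = i
    · subst hl
      rw [if_pos rfl, Pi.single_eq_same]
      ring
    · rw [if_neg hl, Pi.single_eq_of_ne (fun h => hl h.symm)]
      ring
  rw [Finset.sum_congr rfl fun l _ => h l, Finset.sum_add_distrib, ← Finset.sum_mul,
    Finset.sum_ite_eq' Finset.univ i, if_pos (Finset.mem_univ i)]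

private theorem Hom_D_mul_C (v : Fin r → ℂ) (p : P r) (a : ℂ) :
    Hom_D v (p * MvPolynomial.C a) = Hom_D v p * MvPolynomial.C a := by
  unfold Hom_D
  rw [Finset.sum_mul]
  refine Finset.sum_congr rfl (fun l _ => ?_)
  rw [MvPolynomial.pderiv_mul, MvPolynomial.pderiv_C, mul_zero, add_zero, mul_assoc]

private theorem Hom_Phi_zero (v : Fin r → ℂ) (p : P r) : (Hom_Phi v p).coeff 0 = p := by
  induction p using MvPolynomial.induction_on with
  | C a => rw [Hom_Phi_C, Polynomial.coeff_C, if_pos rfl]
  | add p q hp hq => rw [map_add, Polynomial.coeff_add, hp, hq]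
  | mul_X p i hp => rw [Hom_Phi_coeff_zero_mul_X, hp]

private theorem Hom_Phi_one (v : Fin r → ℂ) (p : P r) : (Hom_Phi v p).coeff 1 = Hom_D v p := by
  induction p using MvPolynomial.induction_on with
  | C a => rw [Hom_Phi_C, Polynomial.coeff_C, if_neg (by decide), Hom_D_C]
  | add p q hp hq => rw [map_add, Polynomial.coeff_add, hp, hq, Hom_D_add]
  | mul_X p i hp =>
    have := Hom_Phi_coeff_succ_mul_X v p i 0
    rw [zero_add] at this
    rw [this, hp, Hom_Phi_zero, Hom_D_mul_X]

/-- the shift is the value at `T = 1` -/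
private theorem Hom_Phi_eval (v : Fin r → ℂ) (p : P r) : sh v p = (Hom_Phi v p).eval 1 := by
  induction p using MvPolynomial.induction_on with
  | C a =>
    rw [Hom_Phi_C, Polynomial.eval_C]
    unfold sh
    rw [MvPolynomial.aeval_C]
    rfl
  | add p q hp hq => rw [map_add, map_add, Polynomial.eval_add, hp, hq]
  | mul_X p i hp =>
    rw [map_mul, hp, Hom_Phi_mul_X, Polynomial.eval_add, Polynomial.eval_mul_X, Polynomial.eval_mul,
      Polynomial.eval_mul, Polynomial.eval_C, Polynomial.eval_C, mul_one, ← mul_add]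
    congr 1
    unfold sh
    rw [MvPolynomial.aeval_X]

private theorem Hom_shift (v : Fin r → ℂ) (p : P r) (k N : ℕ) (hN : (Hom_Phi v p).natDegree < N) :
    MvPolynomial.homogeneousComponent k (sh v p) =
      ∑ n ∈ Finset.range N, (Hom_Phi v (MvPolynomial.homogeneousComponent (k + n) p)).coeff n := by
  rw [Hom_Phi_eval, Polynomial.eval_eq_sum_range' hN, map_sum]
  refine Finset.sum_congr rfl (fun n _ => ?_)
  rw [one_pow, mul_one, Hom_Phi_hom]

theorem hom_shift₁ {p : P r} {k : ℕ} (hp : p.totalDegree ≤ k + 1) (v : Fin r → ℂ) :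
    MvPolynomial.homogeneousComponent k (sh v p - p) =
      ∑ l, MvPolynomial.C (v l) *
        MvPolynomial.pderiv l (MvPolynomial.homogeneousComponent (k + 1) p) := by
  rw [map_sub, Hom_shift v p k (2 + ((Hom_Phi v p).natDegree + 1)) (by omega), Finset.sum_range_add]
  have h0 : ∑ x ∈ Finset.range ((Hom_Phi v p).natDegree + 1),
      (Hom_Phi v (MvPolynomial.homogeneousComponent (k + (2 + x)) p)).coeff (2 + x) = 0 := by
    refine Finset.sum_eq_zero (fun x _ => ?_)
    rw [MvPolynomial.homogeneousComponent_eq_zero _ p (by omega), map_zero, Polynomial.coeff_zero]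
  rw [h0, add_zero, Finset.sum_range_succ, Finset.sum_range_one, Hom_Phi_zero, Hom_Phi_one, add_zero,
    add_sub_cancel_left]
  rfl

/-- Euler's identity. -/
theorem euler_hom {p : P r} {k : ℕ} (hp : p.IsHomogeneous k) (β : Fin r → ℂ) :
    ∑ l, β l * MvPolynomial.eval β (MvPolynomial.pderiv l p) = k * MvPolynomial.eval β p := by
  have h := congrArg (MvPolynomial.eval β) hp.sum_X_mul_pderiv
  rw [map_sum, nsmul_eq_mul, map_mul, map_natCast] at h
  rw [← h]
  refine Finset.sum_congr rfl (fun l _ => ?_)
  rw [map_mul, MvPolynomial.eval_X]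

end Pool.Agent.Lib.MP_8ce23f_nt.RR
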