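import Pool.Agent.Lib.MP_8ce23f_nt.RR.PolyExpAlg
import Pool.Agent.Lib.MP_8ce23f_nt.RR.XiReg

/-!
# Moments are polynomials

As `R2/Moments.lean`, for every rank; `sv L B i` is a linear polynomial in `B`.
-/

open Filter Topology Asymptotics MeasureTheory
open scoped Real

namespace Pool.Agent.Lib.MP_8ce23f_nt.RR

open Pool.Agent.Lib.MP_8ce23f_nt.R2 (rp Asy E2 Lam LamR Xi)

variable {r : ℕ}

private theorem moments_cont_ev (p : P r) : Continuous fun w : Fin r → ℝ => ev w p := by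
  have h1 : Continuous fun w : Fin r → ℝ => (fun i => ((w i : ℝ) : ℂ) : Fin r → ℂ) :=
    continuous_pi fun i => Complex.continuous_ofReal.comp (continuous_apply i)
  exact (MvPolynomial.continuous_eval p).comp h1

private theorem moments_cont_qf (L : Matrix (Fin r) (Fin r) ℝ) (Q : Fin r → ℝ) :
    Continuous fun w : Fin r → ℝ => qf L Q w := by
  unfold qf hs Lw
  fun_prop

theorem hs_le_qf (L : Matrix (Fin r) (Fin r) ℝ) {Q : Fin r → ℝ} (hQ : InUnit Q)
    (w : Fin r → ℝ) : hs w ≤ qf L Q w := by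
  have h1 : 0 ≤ ∑ i, (1 - Q i) / Q i * Lw L w i ^ 2 :=
    Finset.sum_nonneg fun i _ =>
      mul_nonneg (div_nonneg (sub_nonneg.2 (hQ i).2.le) (hQ i).1.le) (sq_nonneg _)
  unfold qf
  linarith

private theorem moments_norm_exp (L : Matrix (Fin r) (Fin r) ℝ) (Q : Fin r → ℝ)
    (w : Fin r → ℝ) : ‖Complex.exp (-(qf L Q w : ℝ))‖ = Real.exp (-(qf L Q w)) := by
  rw [Complex.norm_exp, Complex.neg_re, Complex.ofReal_re]

theorem integrable_poly_qf (L : Matrix (Fin r) (Fin r) ℝ) {Q : Fin r → ℝ} (hQ : InUnit Q)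
    (p : P r) : Integrable fun w : Fin r → ℝ => Complex.exp (-(qf L Q w : ℝ)) * ev w p := by
  obtain ⟨M, C, hC, hb⟩ := exists_ev_bound p
  refine ((integrable_gauss_poly (r := r) M).const_mul C).mono' ?_
    (Eventually.of_forall fun w => ?_)
  · refine Continuous.aestronglyMeasurable (Continuous.mul ?_ (moments_cont_ev p))
    exact Complex.continuous_exp.comp
      (Complex.continuous_ofReal.comp (moments_cont_qf L Q)).neg
  · rw [norm_mul, moments_norm_exp]
    have h1 : Real.exp (-(qf L Q w)) ≤ Real.exp (-(hs w)) :=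
      Real.exp_le_exp.2 (neg_le_neg (hs_le_qf L hQ w))
    calc Real.exp (-(qf L Q w)) * ‖ev w p‖
        ≤ Real.exp (-(hs w)) * (C * nb w ^ M) :=
          mul_le_mul h1 (hb w) (norm_nonneg _) (Real.exp_pos _).le
      _ = C * (nb w ^ M * Real.exp (-(hs w))) := by ring

private theorem moments_ev_lin (w : Fin r → ℝ) (c : Fin r → ℂ) :
    ev w (∑ i, MvPolynomial.C (c i) * MvPolynomial.X i) = ∑ i, c i * (w i : ℂ) := by
  simp [ev]

private theorem moments_ev_X (w : Fin r → ℝ) (i : Fin r) :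
    ev w (MvPolynomial.X i : P r) = (w i : ℂ) := by
  simp [ev]

private theorem moments_integrable (L : Matrix (Fin r) (Fin r) ℝ) {Q : Fin r → ℝ}
    (hQ : InUnit Q) (j : ℕ) (p : P r) (c : Fin r → ℝ) :
    Integrable fun w : Fin r → ℝ => Complex.exp (-(qf L Q w : ℝ)) *
        (((∑ i, w i * c i : ℝ) : ℂ) ^ j * ev w p) := by
  have h1 := integrable_poly_qf L hQ
    ((∑ i, MvPolynomial.C (c i : ℂ) * MvPolynomial.X i) ^ j * p)
  refine h1.congr (Eventually.of_forall fun w => ?_)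
  show Complex.exp (-(qf L Q w : ℝ)) *
      ev w ((∑ i, MvPolynomial.C (c i : ℂ) * MvPolynomial.X i) ^ j * p) =
    Complex.exp (-(qf L Q w : ℝ)) * (((∑ i, w i * c i : ℝ) : ℂ) ^ j * ev w p)
  rw [map_mul, map_pow, moments_ev_lin]
  have h2 : ∑ i, (c i : ℂ) * (w i : ℂ) = ((∑ i, w i * c i : ℝ) : ℂ) := by
    push_cast
    exact Finset.sum_congr rfl fun i _ => mul_comm _ _
  rw [h2]

theorem exists_moment (L : Matrix (Fin r) (Fin r) ℝ) {Q : Fin r → ℝ} (hQ : InUnit Q)
    (j : ℕ) (p : P r) : ∃ m : P r, ∀ B : Fin r → ℝ,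
      ∫ w : Fin r → ℝ, Complex.exp (-(qf L Q w : ℝ)) *
        (((∑ i, w i * sv L B i : ℝ) : ℂ) ^ j * ev w p) = ev B m := by
  have hS : ∀ i : Fin r, ∃ S : P r, ∀ B : Fin r → ℝ, ev B S = ((sv L B i : ℝ) : ℂ) := by
    intro i
    refine ⟨∑ k, MvPolynomial.C ((L⁻¹ i k : ℝ) : ℂ) * MvPolynomial.X k, fun B => ?_⟩
    rw [moments_ev_lin]
    unfold sv
    push_cast
    rfl
  choose S hS using hS
  induction j generalizing p with
  | zero =>
    refine ⟨MvPolynomial.C (∫ w : Fin r → ℝ, Complex.exp (-(qf L Q w : ℝ)) * ev w p),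
      fun B => ?_⟩
    simp only [pow_zero, one_mul]
    simp [ev]
  | succ j ih =>
    choose m hm using fun i : Fin r => ih (MvPolynomial.X i * p)
    refine ⟨∑ i, S i * m i, fun B => ?_⟩
    rw [map_sum]
    have h1 : ∀ i : Fin r, ev B (S i * m i) = ∫ w : Fin r → ℝ, ((sv L B i : ℝ) : ℂ) *
        (Complex.exp (-(qf L Q w : ℝ)) *
          (((∑ i, w i * sv L B i : ℝ) : ℂ) ^ j * ev w (MvPolynomial.X i * p))) := by
      intro i
      rw [map_mul, ← hm i B, hS, integral_const_mul]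
    rw [Finset.sum_congr rfl fun i _ => h1 i,
      ← integral_finsetSum Finset.univ fun i _ =>
        (moments_integrable L hQ j (MvPolynomial.X i * p) (sv L B)).const_mul _]
    refine integral_congr_ae (Eventually.of_forall fun w => ?_)
    simp only [map_mul, moments_ev_X]
    rw [pow_succ]
    push_cast
    rw [mul_assoc, Finset.sum_mul, Finset.mul_sum, Finset.mul_sum]
    refine Finset.sum_congr rfl fun i _ => ?_
    ring

theorem integral_qf_ne_zero (L : Matrix (Fin r) (Fin r) ℝ) {Q : Fin r → ℝ} (hQ : InUnit Q) :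
    ∫ w : Fin r → ℝ, Complex.exp (-(qf L Q w : ℝ)) ≠ 0 := by
  have h1 : ∀ w : Fin r → ℝ, Complex.exp (-(qf L Q w : ℝ)) =
      ((Real.exp (-(qf L Q w)) : ℝ) : ℂ) := by
    intro w
    rw [Complex.ofReal_exp, Complex.ofReal_neg]
  have h2 : Integrable fun w : Fin r → ℝ => Real.exp (-(qf L Q w)) := by
    have h3 := integrable_gauss_poly (r := r) 0
    refine h3.mono' ?_ (Eventually.of_forall fun w => ?_)
    · exact (Real.continuous_exp.comp (moments_cont_qf L Q).neg).aestronglyMeasurable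
    · rw [Real.norm_eq_abs, abs_of_pos (Real.exp_pos _), pow_zero, one_mul]
      exact Real.exp_le_exp.2 (neg_le_neg (hs_le_qf L hQ w))
  have h3 := integral_exp_pos h2
  simp_rw [h1]
  rw [integral_complex_ofReal]
  exact Complex.ofReal_ne_zero.2 h3.ne'

end Pool.Agent.Lib.MP_8ce23f_nt.RR
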