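import Pool.Agent.Lib.MP_8ce23f_nt.RR.GExp
import Pool.Agent.Lib.MP_8ce23f_nt.RR.Moments

/-!
# Expansion of the integral

As `R2/IntExp.lean`, for every rank.
-/

open Filter Topology Asymptotics MeasureTheory
open scoped Real

namespace Pool.Agent.Lib.MP_8ce23f_nt.RR

open Pool.Agent.Lib.MP_8ce23f_nt.R2 (rp Asy E2 Lam LamR Xi)

variable {r : ℕ}

theorem intExp_norm (L : Matrix (Fin r) (Fin r) ℝ) {Q : Fin r → ℝ} (hQ : InUnit Q)
    (w : Fin r → ℝ) :
    ‖Complex.exp (-(qf L Q w : ℝ))‖ ≤ Real.exp (-(hs w)) := by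
  rw [Complex.norm_exp]
  apply Real.exp_le_exp.2
  have := hs_le_qf L hQ w
  simp only [Complex.neg_re, Complex.ofReal_re]
  linarith

/-- the coefficients of the exponential -/
noncomputable def intExp_q (s : Fin r → ℝ) (j : ℕ) : P r :=
  MvPolynomial.C (Complex.I ^ j / (j.factorial : ℂ)) *
    (∑ i, MvPolynomial.C (s i : ℂ) * MvPolynomial.X i) ^ j

theorem intExp_lin (s w : Fin r → ℝ) :
    ∑ i, (s i : ℂ) * (w i : ℂ) = ((∑ i, w i * s i : ℝ) : ℂ) := by
  push_cast
  exact Finset.sum_congr rfl (fun i _ => mul_comm _ _)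

theorem intExp_ev_q (s : Fin r → ℝ) (j : ℕ) (w : Fin r → ℝ) :
    ev w (intExp_q s j) =
      Complex.I ^ j / (j.factorial : ℂ) * ((∑ i, w i * s i : ℝ) : ℂ) ^ j := by
  unfold intExp_q ev
  simp only [map_mul, map_pow, map_sum, MvPolynomial.eval_C, MvPolynomial.eval_X]
  rw [intExp_lin]

theorem intExp_abs (s w : Fin r → ℝ) : |∑ i, w i * s i| ≤ (∑ i, |s i|) * nb w := by
  rw [Finset.sum_mul]
  refine (Finset.abs_sum_le_sum_abs _ _).trans (Finset.sum_le_sum fun i _ => ?_)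
  rw [abs_mul, mul_comm]
  exact mul_le_mul_of_nonneg_left (abs_le_nb w i) (abs_nonneg _)

theorem intExp_exp (s : Fin r → ℝ) (N : ℕ) :
    PolyExp (fun t w => Complex.exp ((t * ∑ i, w i * s i : ℝ) * Complex.I)) N (intExp_q s) := by
  refine ⟨N, (∑ i, |s i|) ^ N, ?_⟩
  intro t ht w
  have h1 := R2.exp_sub_sum_le ((t * ∑ i, w i * s i : ℝ) * Complex.I) N
  have h2 : ∑ j ∈ Finset.range N, ((t * ∑ i, w i * s i : ℝ) * Complex.I) ^ j /
      (j.factorial : ℂ) =
      ∑ k ∈ Finset.range N, (t : ℂ) ^ k * ev w (intExp_q s k) := by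
    refine Finset.sum_congr rfl (fun j _ => ?_)
    rw [intExp_ev_q, Complex.ofReal_mul, mul_pow, mul_pow]
    ring
  rw [h2] at h1
  refine h1.trans ?_
  have h3 : (((t * ∑ i, w i * s i : ℝ) : ℂ) * Complex.I).re = 0 := by
    rw [Complex.re_ofReal_mul, Complex.I_re, mul_zero]
  rw [h3, Real.exp_zero, max_self, mul_one]
  have h4 : ‖((t * ∑ i, w i * s i : ℝ) : ℂ) * Complex.I‖ = t * |∑ i, w i * s i| := by
    rw [norm_mul, Complex.norm_I, mul_one, Complex.norm_real, Real.norm_eq_abs, abs_mul,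
      abs_of_pos ht.1]
  rw [h4, mul_pow]
  have h6 : |∑ i, w i * s i| ^ N ≤ (∑ i, |s i|) ^ N * nb w ^ N := by
    rw [← mul_pow]
    exact pow_le_pow_left₀ (abs_nonneg _) (intExp_abs s w) N
  have h7 : (1 : ℝ) ≤ (N.factorial : ℝ) := by exact_mod_cast Nat.factorial_pos N
  have h8 : 0 ≤ t ^ N * |∑ i, w i * s i| ^ N :=
    mul_nonneg (pow_nonneg ht.1.le _) (pow_nonneg (abs_nonneg _) _)
  calc t ^ N * |∑ i, w i * s i| ^ N / (N.factorial : ℝ) ≤ t ^ N * |∑ i, w i * s i| ^ N :=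
        div_le_self h8 h7
    _ ≤ t ^ N * ((∑ i, |s i|) ^ N * nb w ^ N) :=
        mul_le_mul_of_nonneg_left h6 (pow_nonneg ht.1.le _)
    _ = _ := by ring

/-- a finite sum is its own expansion -/
theorem intExp_poly (p : ℕ → P r) (N : ℕ) :
    PolyExp (fun t w => ∑ k ∈ Finset.range N, (t : ℂ) ^ k * ev w (p k)) N p := by
  refine ⟨0, 0, fun t _ w => ?_⟩
  simp

/-- pointwise expansion of the integrand -/
theorem intExp_point (L : Matrix (Fin r) (Fin r) ℝ) {Q : Fin r → ℝ} (hQ : InUnit Q)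
    (N : ℕ) (p : ℕ → P r) (M : ℕ) (C : ℝ)
    (hg : ∀ t ∈ Set.Ioc (0 : ℝ) 1, ∀ w : Fin r → ℝ,
      ‖g L Q t w - Complex.exp (-(qf L Q w : ℝ)) *
          ∑ k ∈ Finset.range (N + 1), (t : ℂ) ^ k * ev w (p k)‖ ≤
        C * t ^ (N + 1) * (nb w ^ M * Real.exp (-(hs w))))
    (s : Fin r → ℝ) :
    ∃ (M' : ℕ) (C' : ℝ), ∀ t ∈ Set.Ioc (0 : ℝ) 1, ∀ w : Fin r → ℝ,
      ‖Complex.exp ((t * ∑ i, w i * s i : ℝ) * Complex.I) * g L Q t w -
          ∑ n ∈ Finset.range (N + 1), (t : ℂ) ^ n * (Complex.exp (-(qf L Q w : ℝ)) *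
            ev w (∑ ij ∈ Finset.HasAntidiagonal.antidiagonal n, intExp_q s ij.1 * p ij.2))‖ ≤
        t ^ (N + 1) * (C * (nb w ^ M * Real.exp (-(hs w))) +
          C' * (nb w ^ M' * Real.exp (-(hs w)))) := by
  obtain ⟨M', C', h1⟩ := (intExp_exp s (N + 1)).mul (intExp_poly p (N + 1))
  refine ⟨M', C', fun t ht w => ?_⟩
  have h2 := h1 t ht w
  have h3 := hg t ht w
  set E := Complex.exp ((t * ∑ i, w i * s i : ℝ) * Complex.I) with hE
  set G := g L Q t w
  set q := Complex.exp (-(qf L Q w : ℝ)) with hq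
  set f := ∑ k ∈ Finset.range (N + 1), (t : ℂ) ^ k * ev w (p k)
  have e1 : ∑ n ∈ Finset.range (N + 1), (t : ℂ) ^ n * (q *
      ev w (∑ ij ∈ Finset.HasAntidiagonal.antidiagonal n, intExp_q s ij.1 * p ij.2)) =
      q * ∑ n ∈ Finset.range (N + 1), (t : ℂ) ^ n *
      ev w (∑ ij ∈ Finset.HasAntidiagonal.antidiagonal n, intExp_q s ij.1 * p ij.2) := by
    rw [Finset.mul_sum]
    exact Finset.sum_congr rfl (fun n _ => by ring)
  rw [e1]
  set Z := ∑ n ∈ Finset.range (N + 1), (t : ℂ) ^ n *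
      ev w (∑ ij ∈ Finset.HasAntidiagonal.antidiagonal n, intExp_q s ij.1 * p ij.2)
  have e2 : E * G - q * Z = E * (G - q * f) + q * (E * f - Z) := by ring
  have hEn : ‖E‖ = 1 := by
    rw [hE, Complex.norm_exp_ofReal_mul_I]
  have hqn : ‖q‖ ≤ Real.exp (-(hs w)) := intExp_norm L hQ w
  rw [e2]
  refine (norm_add_le _ _).trans ?_
  rw [norm_mul, norm_mul, hEn, one_mul]
  have h4 : ‖q‖ * ‖E * f - Z‖ ≤ Real.exp (-(hs w)) * (C' * t ^ (N + 1) * nb w ^ M') :=
    mul_le_mul hqn h2 (norm_nonneg _) (Real.exp_pos _).le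
  calc _ ≤ C * t ^ (N + 1) * (nb w ^ M * Real.exp (-(hs w))) +
      Real.exp (-(hs w)) * (C' * t ^ (N + 1) * nb w ^ M') := add_le_add h3 h4
    _ = _ := by ring

theorem intExp_integrable (L : Matrix (Fin r) (Fin r) ℝ) {Q : Fin r → ℝ} (hQ : InUnit Q)
    (s : Fin r → ℝ) {t : ℝ} (ht : 0 < t) :
    Integrable fun w : Fin r → ℝ => Complex.exp ((t * ∑ i, w i * s i : ℝ) * Complex.I) *
      g L Q t w := by
  have h0 := integrable_gauss_poly (r := r) 0
  refine h0.mono' ?_ ?_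
  · apply Continuous.aestronglyMeasurable
    refine Continuous.mul ?_ (continuous_g L hQ ht)
    fun_prop
  · refine Filter.Eventually.of_forall (fun w => ?_)
    rw [norm_mul, Complex.norm_exp_ofReal_mul_I, one_mul, pow_zero, one_mul]
    exact norm_g_le L hQ ht w

theorem integral_expansion (L : Matrix (Fin r) (Fin r) ℝ) {Q : Fin r → ℝ} (hQ : InUnit Q)
    (N : ℕ) :
    ∃ p : ℕ → P r,
      p 0 = MvPolynomial.C (∫ w : Fin r → ℝ, Complex.exp (-(qf L Q w : ℝ))) ∧
      ∀ B : Fin r → ℝ, (fun t : ℝ => (∫ w : Fin r → ℝ,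
          Complex.exp ((t * ∑ i, w i * sv L B i : ℝ) * Complex.I) * g L Q t w) -
          ∑ k ∈ Finset.range (N + 1), ev B (p k) * (t : ℂ) ^ k)
        =O[𝓝[>] 0] fun t : ℝ => t ^ (N + 1) := by
  obtain ⟨p, M, C, hp0, hg⟩ := g_expansion L hQ N
  choose m hm using fun (j : ℕ) (k : ℕ) => exists_moment L hQ j (p k)
  refine ⟨fun n => if n = 0 then
      MvPolynomial.C (∫ w : Fin r → ℝ, Complex.exp (-(qf L Q w : ℝ))) else
    ∑ ij ∈ Finset.HasAntidiagonal.antidiagonal n,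
      MvPolynomial.C (Complex.I ^ ij.1 / (ij.1.factorial : ℂ)) * m ij.1 ij.2, by simp, ?_⟩
  intro B
  -- the coefficients are integrals
  have hco : ∀ n : ℕ, ev B (if n = 0 then
      MvPolynomial.C (∫ w : Fin r → ℝ, Complex.exp (-(qf L Q w : ℝ))) else
      ∑ ij ∈ Finset.HasAntidiagonal.antidiagonal n,
      MvPolynomial.C (Complex.I ^ ij.1 / (ij.1.factorial : ℂ)) * m ij.1 ij.2) =
      ∫ w : Fin r → ℝ, Complex.exp (-(qf L Q w : ℝ)) * ev w
        (∑ ij ∈ Finset.HasAntidiagonal.antidiagonal n, intExp_q (sv L B) ij.1 * p ij.2) := by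
    intro n
    by_cases hn : n = 0
    · subst hn
      rw [if_pos rfl]
      have e1 : ∀ w : Fin r → ℝ, Complex.exp (-(qf L Q w : ℝ)) * ev w
        (∑ ij ∈ Finset.HasAntidiagonal.antidiagonal 0, intExp_q (sv L B) ij.1 * p ij.2) =
          Complex.exp (-(qf L Q w : ℝ)) := by
        intro w
        rw [show Finset.HasAntidiagonal.antidiagonal 0 = {((0 : ℕ), (0 : ℕ))} from rfl,
          Finset.sum_singleton, map_mul, intExp_ev_q, hp0, map_one]
        simp
      simp_rw [e1]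
      unfold ev
      rw [MvPolynomial.eval_C]
    · rw [if_neg hn]
      have e1 : ∀ w : Fin r → ℝ, Complex.exp (-(qf L Q w : ℝ)) * ev w
        (∑ ij ∈ Finset.HasAntidiagonal.antidiagonal n, intExp_q (sv L B) ij.1 * p ij.2) =
          ∑ ij ∈ Finset.HasAntidiagonal.antidiagonal n,
            (Complex.I ^ ij.1 / (ij.1.factorial : ℂ)) *
            (Complex.exp (-(qf L Q w : ℝ)) *
              (((∑ i, w i * sv L B i : ℝ) : ℂ) ^ ij.1 * ev w (p ij.2))) := by
        intro w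
        rw [map_sum, Finset.mul_sum]
        refine Finset.sum_congr rfl (fun ij _ => ?_)
        rw [map_mul, intExp_ev_q]
        ring
      simp_rw [e1]
      rw [integral_finsetSum]
      · rw [map_sum]
        refine Finset.sum_congr rfl (fun ij _ => ?_)
        rw [map_mul, integral_const_mul, hm]
        congr 1
        unfold ev
        rw [MvPolynomial.eval_C]
      · intro ij _
        apply Integrable.const_mul
        have h5 := integrable_poly_qf L hQ
          ((∑ i, MvPolynomial.C (sv L B i : ℂ) * MvPolynomial.X i) ^ ij.1 * p ij.2)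
        refine h5.congr (Filter.Eventually.of_forall (fun w => ?_))
        simp only
        congr 1
        rw [map_mul]
        congr 1
        unfold ev
        simp only [map_mul, map_pow, map_sum, MvPolynomial.eval_C, MvPolynomial.eval_X]
        rw [intExp_lin]
  obtain ⟨M', C', hpt⟩ := intExp_point L hQ N p M C hg (sv L B)
  have hI1 := (integrable_gauss_poly (r := r) M).const_mul C
  have hI2 := (integrable_gauss_poly (r := r) M').const_mul C'
  have hI := hI1.add hI2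
  refine IsBigO.of_bound (∫ w : Fin r → ℝ, (C * (nb w ^ M * Real.exp (-(hs w))) +
          C' * (nb w ^ M' * Real.exp (-(hs w))))) ?_
  have hev : ∀ᶠ t : ℝ in 𝓝[>] 0, t ∈ Set.Ioc (0 : ℝ) 1 := Ioc_mem_nhdsGT one_pos
  filter_upwards [hev] with t ht
  have hint : ∀ n : ℕ, Integrable fun w : Fin r → ℝ => (t : ℂ) ^ n *
      (Complex.exp (-(qf L Q w : ℝ)) *
            ev w (∑ ij ∈ Finset.HasAntidiagonal.antidiagonal n,
              intExp_q (sv L B) ij.1 * p ij.2)) :=
    fun n => (integrable_poly_qf L hQ _).const_mul _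
  have e3 : ∑ k ∈ Finset.range (N + 1), ev B (if k = 0 then
      MvPolynomial.C (∫ w : Fin r → ℝ, Complex.exp (-(qf L Q w : ℝ))) else
      ∑ ij ∈ Finset.HasAntidiagonal.antidiagonal k,
      MvPolynomial.C (Complex.I ^ ij.1 / (ij.1.factorial : ℂ)) * m ij.1 ij.2) * (t : ℂ) ^ k =
      ∫ w : Fin r → ℝ, ∑ n ∈ Finset.range (N + 1), (t : ℂ) ^ n *
        (Complex.exp (-(qf L Q w : ℝ)) *
            ev w (∑ ij ∈ Finset.HasAntidiagonal.antidiagonal n,
              intExp_q (sv L B) ij.1 * p ij.2)) := by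
    rw [integral_finsetSum _ (fun n _ => hint n)]
    refine Finset.sum_congr rfl (fun n _ => ?_)
    rw [hco, integral_const_mul]
    ring
  rw [e3, ← integral_sub (intExp_integrable L hQ _ ht.1)
    (integrable_finsetSum _ (fun n _ => hint n))]
  have h6 := norm_integral_le_of_norm_le (hI.const_mul (t ^ (N + 1)))
    (Filter.Eventually.of_forall (fun w => hpt t ht w))
  refine h6.trans ?_
  rw [integral_const_mul, mul_comm]
  apply le_of_eq
  congr 1
  rw [Real.norm_eq_abs, abs_of_nonneg (pow_nonneg ht.1.le _)]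

end Pool.Agent.Lib.MP_8ce23f_nt.RR
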