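import Pool.Agent.Lib.MP_8ce23f_nt.RR.N25

/-!
# A uniform degree

Universal coefficients: `J = Σ k ∈ [2,K], {m : degree m = k+1}` (a finite type), `Λ = MvPolynomial J ℂ`.  For every `d` consider the matrix over `Λ` whose rows are the
monomials of degree `d` and whose columns are the pairs `(k, m')`, `2 ≤ k ≤ K`, `deg m' + k + 1 = d`, with the coefficients of `X^{m'} V_k`.
At a point `c` of `ℂ^J` (a family of forms) all monomials of degree `d` lie in the ideal iff the columns span (take the homogeneous component of degree `d`), iff some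
maximal minor does not vanish at `c`.  The ideal generated by all maximal minors for all `d` is finitely generated (`Λ` is Noetherian), so there is
`d₀` such that for every `c`: if some minor for some `d` is `≠ 0` at `c`, then some minor for some `d ≤ d₀` is `≠ 0`.  If all monomials of degree `d` lie in the ideal,
then also all monomials of larger degree.  With `exists_deg` this gives the claim for `d₀`.
-/

namespace Pool.Agent.Lib.MP_8ce23f_nt.RR

variable {r : ℕ}

/-- the monomials of degree at most `d` -/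
private abbrev n26_L (r d : ℕ) : Type := {m : Fin r →₀ ℕ // m.degree ≤ d}

/-- the monomials of degree `d` -/
private abbrev n26_R (r d : ℕ) : Type := {m : Fin r →₀ ℕ // m.degree = d}

private noncomputable instance n26_fL (r d : ℕ) : Fintype (n26_L r d) := (Finsupp.finite_of_degree_le d).fintype

private noncomputable instance n26_fR (r d : ℕ) : Fintype (n26_R r d) := (Finsupp.finite_of_degree_eq d).fintype

/-- the matrix of the multiples of the forms of coefficients `v` -/
private noncomputable def n26_M {Λ : Type} [CommRing Λ] (K : ℕ) (v : ℕ → (Fin r →₀ ℕ) → Λ) (d : ℕ) :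
    Matrix (n26_R r d) (Fin (K + 1) × n26_L r d) Λ :=
  fun m c => if 2 ≤ (c.1 : ℕ) ∧ c.2.1 ≤ m.1 then v c.1 (m.1 - c.2.1) else 0

/-- the product with a matrix -/
private noncomputable def n26_D {Λ : Type} [CommRing Λ] (K : ℕ) (v : ℕ → (Fin r →₀ ℕ) → Λ) (d : ℕ)
    (N : Matrix (Fin (K + 1) × n26_L r d) (n26_R r d) Λ) : Matrix (n26_R r d) (n26_R r d) Λ :=
  n26_M K v d * N

private theorem n26_map {Λ Λ' : Type} [CommRing Λ] [CommRing Λ'] (φ : Λ →+* Λ') (K : ℕ)
    (v : ℕ → (Fin r →₀ ℕ) → Λ) (v' : ℕ → (Fin r →₀ ℕ) → Λ') (d : ℕ)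
    (h : ∀ k ≤ K, ∀ n : Fin r →₀ ℕ, φ (v k n) = v' k n) : (n26_M K v d).map φ = n26_M K v' d := by
  ext m c
  rw [Matrix.map_apply]
  unfold n26_M
  split_ifs
  · exact h _ (Nat.lt_succ_iff.1 c.1.2) _
  · exact map_zero φ

private theorem n26_coeff {d : ℕ} (g V : P r) (m : n26_R r d) :
    ∑ m' : n26_L r d, (if m'.1 ≤ m.1 then MvPolynomial.coeff (m.1 - m'.1) V else 0) * MvPolynomial.coeff m'.1 g =
      MvPolynomial.coeff m.1 (g * V) := by
  classical
  induction g using MvPolynomial.induction_on' with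
  | monomial s a =>
    rw [MvPolynomial.coeff_monomial_mul']
    by_cases hs : s.degree ≤ d
    · rw [Finset.sum_eq_single (⟨s, hs⟩ : n26_L r d)]
      · rw [MvPolynomial.coeff_monomial, if_pos rfl]
        split_ifs
        · exact mul_comm _ _
        · exact zero_mul _
      · intro b _ hb
        have h1 : MvPolynomial.coeff b.1 (MvPolynomial.monomial s a : P r) = 0 := by
          rw [MvPolynomial.coeff_monomial, if_neg fun h => hb (Subtype.ext h.symm)]
        rw [h1, mul_zero]
      · intro h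
        exact absurd (Finset.mem_univ _) h
    · rw [Finset.sum_eq_zero, if_neg]
      · intro h
        refine hs ?_
        rw [← m.2]
        exact Finsupp.degree_mono h
      · intro b _
        have h1 : MvPolynomial.coeff b.1 (MvPolynomial.monomial s a : P r) = 0 := by
          rw [MvPolynomial.coeff_monomial, if_neg]
          intro h
          refine hs ?_
          rw [h]
          exact b.2
        rw [h1, mul_zero]
  | add p q hp hq =>
    rw [add_mul, MvPolynomial.coeff_add, ← hp, ← hq, ← Finset.sum_add_distrib]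
    refine Finset.sum_congr rfl fun m' _ => ?_
    rw [MvPolynomial.coeff_add, mul_add]

private theorem n26_A {K d : ℕ} {V : ℕ → P r}
    (h : ∀ m : Fin r →₀ ℕ, m.degree = d →
      (MvPolynomial.monomial m 1 : P r) ∈ Ideal.span {f | ∃ k, 2 ≤ k ∧ k ≤ K ∧ f = V k}) :
    ∃ N : Matrix (Fin (K + 1) × n26_L r d) (n26_R r d) ℂ,
      n26_D K (fun k n => MvPolynomial.coeff n (V k)) d N = 1 := by
  classical
  have hle : Ideal.span {f | ∃ k, 2 ≤ k ∧ k ≤ K ∧ f = V k} ≤
      Ideal.span (Set.range fun k : Fin (K + 1) => if 2 ≤ (k : ℕ) then V k else 0) := by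
    refine Ideal.span_mono ?_
    rintro f ⟨k, h2, hk, rfl⟩
    refine ⟨⟨k, Nat.lt_succ_iff.2 hk⟩, ?_⟩
    exact if_pos h2
  have h1 : ∀ m : n26_R r d, ∃ c : Fin (K + 1) → P r,
      ∑ k, c k • (if 2 ≤ (k : ℕ) then V k else 0) = MvPolynomial.monomial m.1 1 := fun m =>
    (Submodule.mem_span_range_iff_exists_fun _).1 (hle (h m.1 m.2))
  choose c hc using h1
  refine ⟨fun x m => MvPolynomial.coeff x.2.1 (c m x.1), ?_⟩
  ext m'' m
  unfold n26_D
  rw [Matrix.mul_apply, Fintype.sum_prod_type]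
  have h2 : ∀ k : Fin (K + 1), ∑ m' : n26_L r d, n26_M K (fun k n => MvPolynomial.coeff n (V k)) d m'' (k, m') *
      MvPolynomial.coeff m'.1 (c m k) = MvPolynomial.coeff m''.1 (c m k • (if 2 ≤ (k : ℕ) then V k else 0)) := by
    intro k
    by_cases hk : 2 ≤ (k : ℕ)
    · rw [if_pos hk, smul_eq_mul, ← n26_coeff]
      refine Finset.sum_congr rfl fun m' _ => ?_
      unfold n26_M
      simp only [hk, true_and]
    · rw [if_neg hk, smul_zero, MvPolynomial.coeff_zero]
      refine Finset.sum_eq_zero fun m' _ => ?_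
      unfold n26_M
      simp only [hk, false_and, if_false, zero_mul]
  rw [Finset.sum_congr rfl fun k _ => h2 k, ← MvPolynomial.coeff_sum, hc, MvPolynomial.coeff_monomial, Matrix.one_apply]
  by_cases he : m'' = m
  · rw [if_pos he, if_pos (by rw [he])]
  · rw [if_neg he, if_neg fun h => he (Subtype.ext h.symm)]

private theorem n26_B {K d : ℕ} {V : ℕ → P r} (hV : ∀ k, (V k).IsHomogeneous (k + 1))
    {N : Matrix (Fin (K + 1) × n26_L r d) (n26_R r d) ℂ}
    (hN : (n26_D K (fun k n => MvPolynomial.coeff n (V k)) d N).det ≠ 0) (m : Fin r →₀ ℕ) (hm : m.degree = d) :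
    (MvPolynomial.monomial m 1 : P r) ∈ Ideal.span {f | ∃ k, 2 ≤ k ∧ k ≤ K ∧ f = V k} := by
  classical
  obtain ⟨N', hN'⟩ : ∃ N' : Matrix (Fin (K + 1) × n26_L r d) (n26_R r d) ℂ,
      n26_D K (fun k n => MvPolynomial.coeff n (V k)) d N' = 1 := by
    refine ⟨N * (n26_D K (fun k n => MvPolynomial.coeff n (V k)) d N)⁻¹, ?_⟩
    have h1 := Matrix.mul_nonsing_inv _ (isUnit_iff_ne_zero.2 hN)
    conv_rhs => rw [← h1]
    exact (Matrix.mul_assoc _ _ _).symm
  unfold n26_D at hN' 
  obtain ⟨f, hf⟩ : ∃ f : P r, f = ∑ x : Fin (K + 1) × n26_L r d,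
      if 2 ≤ (x.1 : ℕ) ∧ x.2.1.degree + ((x.1 : ℕ) + 1) = d then
        MvPolynomial.monomial x.2.1 (N' x ⟨m, hm⟩) * V x.1 else 0 := ⟨_, rfl⟩
  have hfm : f = MvPolynomial.monomial m 1 := by
    ext n
    rw [hf, MvPolynomial.coeff_sum, MvPolynomial.coeff_monomial]
    by_cases hn : n.degree = d
    · have h1 := congrFun (congrFun hN' ⟨n, hn⟩) ⟨m, hm⟩
      rw [Matrix.mul_apply, Matrix.one_apply] at h1
      have h2 : (if (⟨n, hn⟩ : n26_R r d) = ⟨m, hm⟩ then (1 : ℂ) else 0) = if m = n then 1 else 0 := by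
        by_cases he : m = n
        · rw [if_pos he, if_pos (Subtype.ext he.symm)]
        · rw [if_neg he, if_neg fun h => he (congrArg Subtype.val h).symm]
      rw [← h2, ← h1]
      refine Finset.sum_congr rfl fun x _ => ?_
      unfold n26_M
      by_cases hx : 2 ≤ (x.1 : ℕ)
      · by_cases hd : x.2.1.degree + ((x.1 : ℕ) + 1) = d
        · rw [if_pos ⟨hx, hd⟩, MvPolynomial.coeff_monomial_mul']
          by_cases hle : x.2.1 ≤ n
          · rw [if_pos hle, if_pos ⟨hx, hle⟩, mul_comm]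
          · rw [if_neg hle, if_neg fun h => hle h.2, zero_mul]
        · rw [if_neg fun h => hd h.2, MvPolynomial.coeff_zero]
          by_cases hle : x.2.1 ≤ n
          · have h3 : (n - x.2.1).degree ≠ (x.1 : ℕ) + 1 := by
              intro h4
              apply hd
              have h5 := congrArg Finsupp.degree (tsub_add_cancel_of_le hle)
              rw [map_add, h4, hn] at h5
              omega
            rw [if_pos ⟨hx, hle⟩]
            show 0 = MvPolynomial.coeff (n - x.2.1) (V x.1) * N' x ⟨m, hm⟩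
            rw [(hV x.1).coeff_eq_zero h3, zero_mul]
          · rw [if_neg fun h => hle h.2, zero_mul]
      · rw [if_neg fun h => hx h.1, if_neg fun h => hx h.1, zero_mul, MvPolynomial.coeff_zero]
    · rw [if_neg fun h : m = n => hn (by rw [← h]; exact hm)]
      refine Finset.sum_eq_zero fun x _ => ?_
      by_cases hx : 2 ≤ (x.1 : ℕ) ∧ x.2.1.degree + ((x.1 : ℕ) + 1) = d
      · rw [if_pos hx, MvPolynomial.coeff_monomial_mul']
        by_cases hle : x.2.1 ≤ n
        · have h3 : (n - x.2.1).degree ≠ (x.1 : ℕ) + 1 := by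
            intro h4
            apply hn
            have h5 := congrArg Finsupp.degree (tsub_add_cancel_of_le hle)
            rw [map_add, h4] at h5
            omega
          rw [if_pos hle, (hV x.1).coeff_eq_zero h3, mul_zero]
        · rw [if_neg hle]
      · rw [if_neg hx, MvPolynomial.coeff_zero]
  rw [← hfm, hf]
  refine Ideal.sum_mem _ fun x _ => ?_
  split_ifs with hx
  · exact Ideal.mul_mem_left _ _ (Ideal.subset_span ⟨x.1, hx.1, Nat.lt_succ_iff.1 x.1.2, rfl⟩)
  · exact Ideal.zero_mem _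

private theorem n26_div (d e : ℕ) (m : Fin r →₀ ℕ) (hm : m.degree = d + e) : ∃ m' ≤ m, m'.degree = d := by
  classical
  induction e generalizing m with
  | zero => exact ⟨m, le_rfl, by rw [hm, add_zero]⟩
  | succ e ih =>
    have h0 : m ≠ 0 := by
      intro h
      rw [h, map_zero] at hm
      omega
    obtain ⟨i, hi⟩ := Finsupp.ne_iff.1 h0
    have hle : Finsupp.single i 1 ≤ m := by
      rw [Finsupp.single_le_iff]
      exact Nat.one_le_iff_ne_zero.2 hi
    have h1 := congrArg Finsupp.degree (tsub_add_cancel_of_le hle)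
    rw [map_add, Finsupp.degree_single, hm] at h1
    obtain ⟨m', h2, h3⟩ := ih (m - Finsupp.single i 1) (by omega)
    exact ⟨m', h2.trans tsub_le_self, h3⟩

private theorem n26_up {I : Ideal (P r)} {d e : ℕ} (hde : d ≤ e)
    (h : ∀ m : Fin r →₀ ℕ, m.degree = d → (MvPolynomial.monomial m 1 : P r) ∈ I) (m : Fin r →₀ ℕ)
    (hm : m.degree = e) : (MvPolynomial.monomial m 1 : P r) ∈ I := by
  obtain ⟨m', h1, h2⟩ := n26_div d (e - d) m (by rw [hm]; omega)
  have h3 : (MvPolynomial.monomial m 1 : P r) = MvPolynomial.monomial (m - m') 1 * MvPolynomial.monomial m' 1 := by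
    rw [MvPolynomial.monomial_mul, one_mul, tsub_add_cancel_of_le h1]
  rw [h3]
  exact I.mul_mem_left _ (h m' h2)

/-- the universal coefficients -/
private abbrev n26_J (r K : ℕ) : Type := Fin (K + 1) × n26_L r (K + 1)

private noncomputable def n26_v (r K : ℕ) (k : ℕ) (n : Fin r →₀ ℕ) : MvPolynomial (n26_J r K) ℂ := by
  classical
  exact if h : k < K + 1 ∧ n.degree ≤ K + 1 then MvPolynomial.X (⟨k, h.1⟩, ⟨n, h.2⟩) else 0

private theorem n26_eval {K : ℕ} {V : ℕ → P r} (hV : ∀ k, (V k).IsHomogeneous (k + 1)) (k : ℕ) (hk : k ≤ K)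
    (n : Fin r →₀ ℕ) :
    MvPolynomial.eval (fun x : n26_J r K => MvPolynomial.coeff x.2.1 (V x.1)) (n26_v r K k n) =
      MvPolynomial.coeff n (V k) := by
  unfold n26_v
  by_cases hn : n.degree ≤ K + 1
  · rw [dif_pos ⟨Nat.lt_succ_iff.2 hk, hn⟩, MvPolynomial.eval_X]
  · rw [dif_neg fun h => hn h.2, map_zero, (hV k).coeff_eq_zero]
    intro h
    omega

theorem uniform_deg (r K : ℕ) : ∃ d : ℕ, ∀ V : ℕ → P r, (∀ k, (V k).IsHomogeneous (k + 1)) →
    (∀ β : Fin r → ℂ, (∀ k, 2 ≤ k → k ≤ K → MvPolynomial.eval β (V k) = 0) → β = 0) →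
    ∀ m : Fin r →₀ ℕ, m.degree = d →
      (MvPolynomial.monomial m 1 : P r) ∈ Ideal.span {f | ∃ k, 2 ≤ k ∧ k ≤ K ∧ f = V k} := by
  classical
  obtain ⟨I, hI⟩ : ∃ I : ℕ → Ideal (MvPolynomial (n26_J r K) ℂ), I = fun d =>
      Ideal.span (Set.range fun N : Matrix (Fin (K + 1) × n26_L r d) (n26_R r d) ℂ =>
        (n26_D K (n26_v r K) d (N.map MvPolynomial.C)).det) := ⟨_, rfl⟩
  obtain ⟨J, hJ⟩ : ∃ J : ℕ →o Ideal (MvPolynomial (n26_J r K) ℂ), ∀ D, J D = ⨆ d : Fin (D + 1), I d := by
    refine ⟨⟨fun D => ⨆ d : Fin (D + 1), I d, fun D D' h => ?_⟩, fun D => rfl⟩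
    refine iSup_le fun d => ?_
    exact le_iSup (fun d : Fin (D' + 1) => I d) ⟨d, lt_of_lt_of_le d.2 (Nat.succ_le_succ h)⟩
  obtain ⟨D₀, hD₀⟩ := monotone_stabilizes_iff_noetherian.2
    (inferInstance : IsNoetherian (MvPolynomial (n26_J r K) ℂ) (MvPolynomial (n26_J r K) ℂ)) J
  refine ⟨D₀, fun V hV h0 m hm => ?_⟩
  obtain ⟨e, he⟩ : ∃ e : MvPolynomial (n26_J r K) ℂ →+* ℂ,
      e = MvPolynomial.eval (fun x : n26_J r K => MvPolynomial.coeff x.2.1 (V x.1)) := ⟨_, rfl⟩
  have hmap : ∀ (d : ℕ) (N : Matrix (Fin (K + 1) × n26_L r d) (n26_R r d) ℂ),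
      e (n26_D K (n26_v r K) d (N.map MvPolynomial.C)).det =
        (n26_D K (fun k n => MvPolynomial.coeff n (V k)) d N).det := by
    intro d N
    unfold n26_D
    rw [RingHom.map_det, RingHom.mapMatrix_apply, Matrix.map_mul,
      n26_map e K (n26_v r K) (fun k n => MvPolynomial.coeff n (V k)) d (fun k hk n => by
        rw [he]
        exact n26_eval hV k hk n), Matrix.map_map]
    congr 2
    ext i j
    rw [Matrix.map_apply, Function.comp_apply, he, MvPolynomial.eval_C]
  obtain ⟨d, hd⟩ := exists_deg h0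
  obtain ⟨N, hN⟩ := n26_A (hd d le_rfl)
  have h1 : (n26_D K (n26_v r K) d (N.map MvPolynomial.C)).det ∈ J D₀ := by
    have h2 : J D₀ = J (max d D₀) := hD₀ _ (le_max_right _ _)
    rw [h2, hJ]
    have h3 : I d ≤ ⨆ d' : Fin (max d D₀ + 1), I d' :=
      le_iSup (fun d' : Fin (max d D₀ + 1) => I d') ⟨d, Nat.lt_succ_iff.2 (le_max_left _ _)⟩
    refine h3 ?_
    rw [hI]
    exact Ideal.subset_span ⟨N, rfl⟩
  have h4 : ∃ (d' : ℕ) (_ : d' ≤ D₀) (N' : Matrix (Fin (K + 1) × n26_L r d') (n26_R r d') ℂ),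
      (n26_D K (fun k n => MvPolynomial.coeff n (V k)) d' N').det ≠ 0 := by
    by_contra hcon
    push Not at hcon
    have h5 : J D₀ ≤ RingHom.ker e := by
      rw [hJ]
      refine iSup_le fun d' => ?_
      rw [hI, Ideal.span_le]
      rintro _ ⟨N', rfl⟩
      show _ ∈ RingHom.ker e
      rw [RingHom.mem_ker, hmap]
      exact hcon d' (Nat.lt_succ_iff.1 d'.2) N'
    have h6 := h5 h1
    rw [RingHom.mem_ker, hmap, hN, Matrix.det_one] at h6
    exact one_ne_zero h6
  obtain ⟨d', hd', N', hN'⟩ := h4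
  exact n26_up hd' (fun m hm => n26_B hV hN' m hm) m hm

end Pool.Agent.Lib.MP_8ce23f_nt.RR
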