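import Pool.Agent.Lib.MP_8ce23f_nt.RR.NDefs

/-!
# Counting the solutions

Let `S` be the solution set and `E = {f | totalDegree f < d}` (finite dimensional, dimension `N` = number of exponents of degree `< d`).  Claim: for every polynomial `f` there is
`g ∈ E` with `f = g` on `S`: strong induction on the degree; a monomial of degree `e ≥ d` lies in the ideal `(V_2,…,V_K)` (it is a multiple of a monomial of degree `d`), so
it equals `∑ g_k V_k` with `g_k` homogeneous of degree `e - k - 1` (take homogeneous components); on `S` it agrees with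
`∑ g_k (V_k - D_k + D_k(z₀))`, of degree `< e` (as `V_k` is the component of degree `k+1` of `D_k`, `totalDegree D_k ≤ k+1`, and
`D_k(z) = D_k(z₀)` on `S`; `k + 1 ≥ 3 > 0`).  Hence any `n` points of `S` satisfy `n ≤ N`: the evaluation map `P r → ℂ^n` is surjective (interpolation for distinct points), and its
restriction to `E` is still surjective.
-/

namespace Pool.Agent.Lib.MP_8ce23f_nt.RR

variable {r : ℕ}

/-- the combinations of the monomials of degree less than `d` -/
private noncomputable def n27_E (r d : ℕ) : Submodule ℂ (P r) :=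
  Submodule.span ℂ (Set.range fun m : {m : Fin r →₀ ℕ // m.degree < d} => (MvPolynomial.monomial m.1 1 : P r))

/-- the polynomials which agree on `S` with a combination of the monomials of degree less than `d` -/
private noncomputable def n27_M (d : ℕ) (S : Set (Fin r → ℂ)) : Submodule ℂ (P r) where
  carrier := {f | ∃ g ∈ n27_E r d, ∀ z ∈ S, MvPolynomial.eval z f = MvPolynomial.eval z g}
  zero_mem' := ⟨0, Submodule.zero_mem _, fun _ _ => rfl⟩
  add_mem' := by
    rintro f f' ⟨g, hg, h⟩ ⟨g', hg', h'⟩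
    refine ⟨g + g', Submodule.add_mem _ hg hg', fun z hz => ?_⟩
    rw [map_add, map_add, h z hz, h' z hz]
  smul_mem' := by
    rintro c f ⟨g, hg, h⟩
    refine ⟨c • g, Submodule.smul_mem _ _ hg, fun z hz => ?_⟩
    rw [MvPolynomial.smul_eval, MvPolynomial.smul_eval, h z hz]

private theorem n27_mem {d : ℕ} {S : Set (Fin r → ℂ)} {f : P r} :
    f ∈ n27_M d S ↔ ∃ g ∈ n27_E r d, ∀ z ∈ S, MvPolynomial.eval z f = MvPolynomial.eval z g := Iff.rfl

private theorem n27_van {d : ℕ} {S : Set (Fin r → ℂ)} {f : P r} (h : ∀ z ∈ S, MvPolynomial.eval z f = 0) :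
    f ∈ n27_M d S :=
  n27_mem.2 ⟨0, Submodule.zero_mem _, fun z hz => by rw [h z hz, map_zero]⟩

private theorem n27_sum {M : Submodule ℂ (P r)} {f : P r}
    (h : ∀ m ∈ f.support, (MvPolynomial.monomial m 1 : P r) ∈ M) : f ∈ M := by
  rw [f.as_sum]
  refine Submodule.sum_mem _ fun m hm => ?_
  have h1 : (MvPolynomial.monomial m (MvPolynomial.coeff m f) : P r) =
      MvPolynomial.coeff m f • MvPolynomial.monomial m 1 := by
    rw [MvPolynomial.smul_monomial, smul_eq_mul, mul_one]
  rw [h1]
  exact Submodule.smul_mem _ _ (h m hm)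

private theorem n27_deg {f : P r} {n : ℕ} (h : f.totalDegree ≤ n) : ∀ m ∈ f.support, m.degree ≤ n :=
  fun _ hm => (MvPolynomial.le_totalDegree hm).trans h

/-- the part of `D` of degree at most `k` -/
private theorem n27_low {D : P r} {k : ℕ} (hD : D.totalDegree ≤ k + 1) (c : ℂ) :
    (MvPolynomial.homogeneousComponent (k + 1) D - D + MvPolynomial.C c).totalDegree ≤ k := by
  refine Finset.sup_le fun m hm => ?_
  by_contra hlt
  have hlt' : k < m.degree := not_le.1 hlt
  apply MvPolynomial.mem_support_iff.1 hm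
  have hm0 : (0 : Fin r →₀ ℕ) ≠ m := by
    rintro rfl
    rw [map_zero] at hlt'
    exact absurd hlt' (Nat.not_lt_zero _)
  rw [MvPolynomial.coeff_add, MvPolynomial.coeff_sub, MvPolynomial.coeff_homogeneousComponent,
    MvPolynomial.coeff_C, if_neg hm0, add_zero]
  by_cases h1 : m.degree = k + 1
  · rw [if_pos h1, sub_self]
  · rw [if_neg h1, zero_sub, neg_eq_zero]
    by_contra h2
    have h3 := n27_deg hD m (MvPolynomial.mem_support_iff.2 h2)
    omega

private theorem n27_step {K d : ℕ} {D : ℕ → P r} (hD : ∀ k, 1 ≤ k → (D k).totalDegree ≤ k + 1)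
    (z₀ : Fin r → ℂ) {S : Set (Fin r → ℂ)}
    (hS : ∀ z ∈ S, ∀ k, 2 ≤ k → k ≤ K → MvPolynomial.eval z (D k) = MvPolynomial.eval z₀ (D k)) (e : ℕ)
    (ih : ∀ m : Fin r →₀ ℕ, m.degree < e → (MvPolynomial.monomial m 1 : P r) ∈ n27_M d S) (f : P r)
    (hf : f ∈ Ideal.span {f | ∃ k, 2 ≤ k ∧ k ≤ K ∧ f = MvPolynomial.homogeneousComponent (k + 1) (D k)}) :
    ∀ a : P r, MvPolynomial.homogeneousComponent e (a * f) ∈ n27_M d S := by
  induction hf using Submodule.span_induction with
  | mem f hf =>
    obtain ⟨k, hk, hkK, rfl⟩ := hf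
    intro a
    obtain ⟨V, hV⟩ : ∃ V : P r, V = MvPolynomial.homogeneousComponent (k + 1) (D k) := ⟨_, rfl⟩
    have hVh : V.IsHomogeneous (k + 1) := by
      rw [hV]
      exact MvPolynomial.homogeneousComponent_isHomogeneous _ _
    rw [← hV]
    have h1 : MvPolynomial.homogeneousComponent e (a * V) =
        ∑ m ∈ a.support, MvPolynomial.homogeneousComponent e
          (MvPolynomial.monomial m (MvPolynomial.coeff m a) * V) := by
      conv_lhs => rw [a.as_sum]
      rw [Finset.sum_mul, map_sum]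
    rw [h1]
    refine Submodule.sum_mem _ fun m _ => ?_
    obtain ⟨c, hc⟩ : ∃ c : ℂ, c = MvPolynomial.coeff m a := ⟨_, rfl⟩
    rw [← hc]
    have h2 : (MvPolynomial.monomial m c * V : P r).IsHomogeneous (m.degree + (k + 1)) :=
      (MvPolynomial.isHomogeneous_monomial c rfl).mul hVh
    rw [MvPolynomial.homogeneousComponent_of_mem ((MvPolynomial.mem_homogeneousSubmodule _ _).2 h2)]
    by_cases he : e = m.degree + (k + 1)
    · rw [if_pos he]
      have h3 : (MvPolynomial.monomial m c * V : P r) =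
          MvPolynomial.monomial m c * (V - D k + MvPolynomial.C (MvPolynomial.eval z₀ (D k))) +
            MvPolynomial.monomial m c * (D k - MvPolynomial.C (MvPolynomial.eval z₀ (D k))) := by
        ring
      rw [h3]
      refine Submodule.add_mem _ (n27_sum fun m' hm' => ih m' ?_) (n27_van fun z hz => ?_)
      · have h4 := n27_low (hD k (by omega)) (MvPolynomial.eval z₀ (D k))
        rw [← hV] at h4
        have h5 : (MvPolynomial.monomial m c : P r).totalDegree ≤ m.degree :=
          MvPolynomial.totalDegree_monomial_le m c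
        have h6 := n27_deg ((MvPolynomial.totalDegree_mul _ _).trans (Nat.add_le_add h5 h4)) m' hm'
        omega
      · rw [map_mul, map_sub, MvPolynomial.eval_C, hS z hz k hk hkK, sub_self, mul_zero]
    · rw [if_neg he]
      exact Submodule.zero_mem _
  | zero =>
    intro a
    rw [mul_zero, map_zero]
    exact Submodule.zero_mem _
  | add f g _ _ h1 h2 =>
    intro a
    rw [mul_add, map_add]
    exact Submodule.add_mem _ (h1 a) (h2 a)
  | smul b f _ h1 =>
    intro a
    rw [smul_eq_mul, ← mul_assoc]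
    exact h1 (a * b)

private theorem n27_all {K d : ℕ} {D : ℕ → P r} (hD : ∀ k, 1 ≤ k → (D k).totalDegree ≤ k + 1)
    (hI : ∀ m : Fin r →₀ ℕ, m.degree = d → (MvPolynomial.monomial m 1 : P r) ∈
      Ideal.span {f | ∃ k, 2 ≤ k ∧ k ≤ K ∧ f = MvPolynomial.homogeneousComponent (k + 1) (D k)})
    (z₀ : Fin r → ℂ) {S : Set (Fin r → ℂ)}
    (hS : ∀ z ∈ S, ∀ k, 2 ≤ k → k ≤ K → MvPolynomial.eval z (D k) = MvPolynomial.eval z₀ (D k)) (f : P r) :
    f ∈ n27_M d S := by
  refine n27_sum fun m hm => ?_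
  clear hm
  obtain ⟨e, he⟩ : ∃ e, e = m.degree := ⟨_, rfl⟩
  induction e using Nat.strong_induction_on generalizing m with
  | _ e ih =>
    by_cases h1 : e < d
    · refine n27_mem.2 ⟨MvPolynomial.monomial m 1, ?_, fun z _ => rfl⟩
      exact Submodule.subset_span ⟨⟨m, by omega⟩, rfl⟩
    · obtain ⟨m', hm', hd'⟩ := Finsupp.exists_le_degree_eq m d (by omega)
      have h2 : (MvPolynomial.monomial m 1 : P r) ∈
          Ideal.span {f | ∃ k, 2 ≤ k ∧ k ≤ K ∧ f = MvPolynomial.homogeneousComponent (k + 1) (D k)} := by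
        have h3 : (MvPolynomial.monomial m 1 : P r) =
            MvPolynomial.monomial (m - m') 1 * MvPolynomial.monomial m' 1 := by
          rw [MvPolynomial.monomial_mul, mul_one, tsub_add_cancel_of_le hm']
        rw [h3]
        exact Ideal.mul_mem_left _ _ (hI m' hd')
      have h3 := n27_step hD z₀ hS e (fun m'' h => ih m''.degree h m'' rfl) _ h2 1
      rw [one_mul, MvPolynomial.homogeneousComponent_of_mem
        ((MvPolynomial.mem_homogeneousSubmodule _ _).2 (MvPolynomial.isHomogeneous_monomial (1 : ℂ) rfl)),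
        if_pos he] at h3
      exact h3

private theorem n27_card {d : ℕ} {S : Set (Fin r → ℂ)} (hM : ∀ f : P r, f ∈ n27_M d S) (N : ℕ)
    (hN : Module.finrank ℂ (n27_E r d) ≤ N) [Module.Finite ℂ (n27_E r d)] (t : Finset (Fin r → ℂ))
    (ht : ∀ z ∈ t, z ∈ S) : t.card ≤ N := by
  classical
  have hli : LinearIndependent ℂ
      (fun z : t => ((MvPolynomial.aeval z.1 : P r →ₐ[ℂ] ℂ).toLinearMap.comp (n27_E r d).subtype :
        Module.Dual ℂ (n27_E r d))) := by
    rw [Fintype.linearIndependent_iff]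
    intro g hg
    have h1 := linearIndependent_monoidHom (P r) ℂ
    have h2 : Function.Injective fun z : t => ((MvPolynomial.eval z.1 : P r →+* ℂ) : P r →* ℂ) := by
      intro z z' hz
      apply Subtype.ext
      funext i
      have h3 := DFunLike.congr_fun hz (MvPolynomial.X i)
      have h4 : MvPolynomial.eval z.1 (MvPolynomial.X i) = MvPolynomial.eval z'.1 (MvPolynomial.X i) := h3
      rwa [MvPolynomial.eval_X, MvPolynomial.eval_X] at h4
    have h5 := h1.comp _ h2
    rw [Fintype.linearIndependent_iff] at h5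
    refine h5 g ?_
    funext f
    obtain ⟨f', hf', hff⟩ := n27_mem.1 (hM f)
    have h6 := LinearMap.congr_fun hg ⟨f', hf'⟩
    rw [LinearMap.sum_apply] at h6
    rw [Finset.sum_apply]
    refine Eq.trans (Finset.sum_congr rfl fun z _ => ?_) h6
    have h7 : MvPolynomial.eval z.1 f = MvPolynomial.eval z.1 f' := hff z.1 (ht z.1 z.2)
    show g z * MvPolynomial.eval z.1 f = g z * MvPolynomial.aeval z.1 f'
    rw [h7]
    rfl
  have h8 := hli.fintype_card_le_finrank
  rw [Subspace.dual_finrank_eq, Fintype.card_coe] at h8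
  exact h8.trans hN

theorem count (r K d : ℕ) : ∃ N : ℕ, ∀ (D : ℕ → P r), (∀ k, 1 ≤ k → (D k).totalDegree ≤ k + 1) →
    (∀ m : Fin r →₀ ℕ, m.degree = d → (MvPolynomial.monomial m 1 : P r) ∈
      Ideal.span {f | ∃ k, 2 ≤ k ∧ k ≤ K ∧ f = MvPolynomial.homogeneousComponent (k + 1) (D k)}) →
    ∀ z₀ : Fin r → ℂ,
      {z : Fin r → ℂ | ∀ k, 2 ≤ k → k ≤ K →
        MvPolynomial.eval z (D k) = MvPolynomial.eval z₀ (D k)}.Finite ∧
      {z : Fin r → ℂ | ∀ k, 2 ≤ k → k ≤ K →
        MvPolynomial.eval z (D k) = MvPolynomial.eval z₀ (D k)}.ncard ≤ N := by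
  have hfin : Finite {m : Fin r →₀ ℕ // m.degree < d} := (Finsupp.finite_of_degree_lt d).to_subtype
  have := Fintype.ofFinite {m : Fin r →₀ ℕ // m.degree < d}
  have : Module.Finite ℂ (n27_E r d) := Module.Finite.span_of_finite ℂ (Set.finite_range _)
  refine ⟨Module.finrank ℂ (n27_E r d), fun D hD hI z₀ => ?_⟩
  obtain ⟨S, hS⟩ : ∃ S : Set (Fin r → ℂ), S = {z : Fin r → ℂ | ∀ k, 2 ≤ k → k ≤ K →
        MvPolynomial.eval z (D k) = MvPolynomial.eval z₀ (D k)} := ⟨_, rfl⟩
  rw [← hS]
  have hM : ∀ f : P r, f ∈ n27_M d S := n27_all hD hI z₀ (fun z hz => by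
    rw [hS] at hz
    exact hz)
  have hc := n27_card hM _ le_rfl
  have hfinS : S.Finite := by
    by_contra h
    obtain ⟨t, ht, hc'⟩ := Set.Infinite.exists_subset_card_eq h (Module.finrank ℂ (n27_E r d) + 1)
    have h1 := hc t fun z hz => ht hz
    omega
  refine ⟨hfinS, ?_⟩
  rw [Set.ncard_eq_toFinset_card S hfinS]
  exact hc _ fun z hz => hfinS.mem_toFinset.1 hz

end Pool.Agent.Lib.MP_8ce23f_nt.RR
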