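import Pool.Agent.Lib.MP_8ce23f_nt.RR.N04

/-!
# Charges

`charge A I Z ≥ 0`: the set `obj A Z '' Feas I Z` is bounded above (`hfun ≤ π²/6`, `qd ≥ 0`) and contains `obj A Z 0 = 0`.
`not_splits`: `|I| ≥ 1`.
`thin`: `charge A I Z = charge A' I Z`, as `z_k = 0` for `z ∈ Feas I Z`.  WLOG `A k k < A' k k` (otherwise equal, so `A = A'`, or swap).  Let `y` solve the equation for `A'` at `0`
(`exists_isSol`, `y > 0`): `obj A univ y = obj A' univ y + (A' k k - A k k) y_k²/2 > obj A' univ y = Sp A' 0`, so `charge A ∅ univ > charge A' ∅ univ`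
(`Sp A 0 = sSup (obj A univ '' Feas ∅ univ)`).
-/

namespace Pool.Agent.Lib.MP_8ce23f_nt.RR

variable {r : ℕ}

private theorem n32_feas : Feas (∅ : Finset (Fin r)) Finset.univ = {z | ∀ i, 0 ≤ z i} := by
  ext z
  simp [Feas]

private theorem n32_charge (A : Matrix (Fin r) (Fin r) ℝ) :
    charge A ∅ Finset.univ = 6 / Real.pi ^ 2 * Sp A 0 := by
  unfold charge Sp
  rw [n32_feas]
  congr 2
  ext t
  simp

private theorem n32_obj {A A' : Matrix (Fin r) (Fin r) ℝ} {k : Fin r}
    (hk : ∀ i j, (i, j) ≠ (k, k) → A i j = A' i j) (Z : Finset (Fin r)) (z : Fin r → ℝ) :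
    obj A Z z = obj A' Z z + 1 / 2 * (A' k k - A k k) * z k ^ 2 := by
  have h1 : (∑ i, ∑ j, z i * A i j * z j) - ∑ i, ∑ j, z i * A' i j * z j =
      (A k k - A' k k) * z k ^ 2 := by
    rw [← Finset.sum_sub_distrib]
    simp_rw [← Finset.sum_sub_distrib]
    rw [Finset.sum_eq_single k, Finset.sum_eq_single k]
    · ring
    · intro j _ hj
      rw [hk k j (fun h => hj (congrArg Prod.snd h))]
      ring
    · intro h
      exact absurd (Finset.mem_univ k) h
    · intro i _ hi
      refine Finset.sum_eq_zero fun j _ => ?_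
      rw [hk i j (fun h => hi (congrArg Prod.fst h))]
      ring
    · intro h
      exact absurd (Finset.mem_univ k) h
  unfold obj
  linarith

private theorem n32_lt {A A' : Matrix (Fin r) (Fin r) ℝ} (hA : A.PosDef) (hA' : A'.PosDef) {k : Fin r}
    (hk : ∀ i j, (i, j) ≠ (k, k) → A i j = A' i j) (hlt : A k k < A' k k) :
    charge A' ∅ Finset.univ < charge A ∅ Finset.univ := by
  rw [n32_charge, n32_charge]
  obtain ⟨y, hy⟩ := exists_isSol hA' 0
  have h1 := Sp_eq hA' hy
  have h2 : obj A Finset.univ y ≤ Sp A 0 := by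
    refine le_csSup (Sp_bddAbove hA 0) ⟨y, fun i => (hy.pos i).le, ?_⟩
    simp
  have h3 := n32_obj hk Finset.univ y
  have h4 : 0 < 1 / 2 * (A' k k - A k k) * y k ^ 2 := by
    have h5 := hy.pos k
    have h6 : 0 < A' k k - A k k := sub_pos.2 hlt
    positivity
  simp only [Pi.zero_apply, zero_mul, Finset.sum_const_zero, sub_zero] at h1
  refine mul_lt_mul_of_pos_left ?_ (by positivity)
  linarith

private theorem n32_eq {A A' : Matrix (Fin r) (Fin r) ℝ} {k : Fin r}
    (hk : ∀ i j, (i, j) ≠ (k, k) → A i j = A' i j) {I Z : Finset (Fin r)} (hI : k ∉ I)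
    (hZ : k ∉ Z) : charge A I Z = charge A' I Z := by
  unfold charge
  congr 2
  refine Set.image_congr fun z hz => ?_
  rw [n32_obj hk Z z, hz.2 k hI hZ]
  simp

theorem charge_nonneg {A : Matrix (Fin r) (Fin r) ℝ} (hA : A.PosDef) (I Z : Finset (Fin r)) :
    0 ≤ charge A I Z := by
  have _ := hA
  unfold charge
  refine mul_nonneg (by positivity) ?_
  by_cases hb : BddAbove (obj A Z '' Feas I Z)
  · refine le_csSup hb ⟨0, ⟨fun i _ => le_rfl, fun i _ _ => rfl⟩, ?_⟩
    simp [obj, hfun_zero]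
  · rw [Real.sSup_of_not_bddAbove hb]

theorem not_splits_of_charge_lt {A : Matrix (Fin r) (Fin r) ℝ} (hA : A.PosDef)
    (h : charge A ∅ Finset.univ < 1) : ¬ Splits A := by
  rintro ⟨I, Z, hI, _, _, he⟩
  have h1 := charge_nonneg hA I Z
  have h2 : (1 : ℝ) ≤ I.card := by exact_mod_cast hI.card_pos
  linarith

theorem thin {A A' : Matrix (Fin r) (Fin r) ℝ} (hA : A.PosDef) (hA' : A'.PosDef) {k : Fin r}
    (hk : ∀ i j, (i, j) ≠ (k, k) → A i j = A' i j) {I Z : Finset (Fin r)} (hI : k ∉ I)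
    (hZ : k ∉ Z) (h : charge A ∅ Finset.univ = I.card + charge A I Z)
    (h' : charge A' ∅ Finset.univ = I.card + charge A' I Z) : A = A' := by
  have h1 := n32_eq hk hI hZ
  have hk' : ∀ i j, (i, j) ≠ (k, k) → A' i j = A i j := fun i j hij => (hk i j hij).symm
  rcases lt_trichotomy (A k k) (A' k k) with h2 | h2 | h2
  · have h3 := n32_lt hA hA' hk h2
    linarith
  · ext i j
    by_cases hij : (i, j) = (k, k)
    · obtain ⟨rfl, rfl⟩ := Prod.mk.inj hij
      exact h2
    · exact hk i j hij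
  · have h3 := n32_lt hA' hA hk' h2
    linarith

end Pool.Agent.Lib.MP_8ce23f_nt.RR
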