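import Pool.Agent.Lib.MP_8ce23f_nt.RR.NDefs

/-!
# Taylor series

`tay f = ∑ f^(n)(0)/n! X^n`.  Product: Leibniz rule (`iteratedDeriv_mul` or similar in Mathlib, or by induction /
`HasFPowerSeriesAt`); an analytic function is smooth near `0`.
`tay_eq_const`: all derivatives of positive order vanish at `0`, so `f` is constant near `0`
(`AnalyticAt` Taylor expansion), hence everywhere by the identity theorem
(`AnalyticOnNhd.eq_of_eventuallyEq`).
-/

open Filter Topology

namespace Pool.Agent.Lib.MP_8ce23f_nt.RR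

variable {r : ℕ}

theorem tay_constantCoeff (f : ℝ → ℝ) : PowerSeries.constantCoeff (tay f) = f 0 := by
  rw [← PowerSeries.coeff_zero_eq_constantCoeff_apply, tay, PowerSeries.coeff_mk, iteratedDeriv_zero,
    Nat.factorial_zero, Nat.cast_one, div_one]

theorem tay_congr {f g : ℝ → ℝ} (h : f =ᶠ[𝓝 0] g) : tay f = tay g := by
  ext n
  rw [tay, tay, PowerSeries.coeff_mk, PowerSeries.coeff_mk, h.iteratedDeriv_eq n]

theorem tay_add {f g : ℝ → ℝ} (hf : AnalyticAt ℝ f 0) (hg : AnalyticAt ℝ g 0) :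
    tay (fun s => f s + g s) = tay f + tay g := by
  ext n
  rw [tay, tay, tay, map_add, PowerSeries.coeff_mk, PowerSeries.coeff_mk, PowerSeries.coeff_mk,
    iteratedDeriv_fun_add hf.contDiffAt hg.contDiffAt, add_div]

theorem tay_smul {f : ℝ → ℝ} (hf : AnalyticAt ℝ f 0) (c : ℝ) :
    tay (fun s => c * f s) = PowerSeries.C c * tay f := by
  ext n
  rw [tay, tay, PowerSeries.coeff_C_mul, PowerSeries.coeff_mk, PowerSeries.coeff_mk,
    iteratedDeriv_const_mul c hf.contDiffAt, mul_div_assoc]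

theorem tay_const (c : ℝ) : tay (fun _ => c) = PowerSeries.C c := by
  ext n
  rw [tay, PowerSeries.coeff_mk, iteratedDeriv_const, PowerSeries.coeff_C]
  split_ifs with h
  · rw [h, Nat.factorial_zero, Nat.cast_one, div_one]
  · rw [zero_div]

theorem tay_sum {ι : Type*} (t : Finset ι) {f : ι → ℝ → ℝ} (hf : ∀ i ∈ t, AnalyticAt ℝ (f i) 0) :
    tay (fun s => ∑ i ∈ t, f i s) = ∑ i ∈ t, tay (f i) := by
  ext n
  rw [tay, map_sum, PowerSeries.coeff_mk, iteratedDeriv_fun_sum (fun i hi => (hf i hi).contDiffAt),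
    Finset.sum_div]
  refine Finset.sum_congr rfl fun i _ => ?_
  rw [tay, PowerSeries.coeff_mk]

theorem tay_mul {f g : ℝ → ℝ} (hf : AnalyticAt ℝ f 0) (hg : AnalyticAt ℝ g 0) :
    tay (fun s => f s * g s) = tay f * tay g := by
  ext n
  rw [PowerSeries.coeff_mul, tay, PowerSeries.coeff_mk, iteratedDeriv_fun_mul hf.contDiffAt hg.contDiffAt,
    Finset.Nat.sum_antidiagonal_eq_sum_range_succ
      (fun i j => PowerSeries.coeff i (tay f) * PowerSeries.coeff j (tay g)), Finset.sum_div]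
  refine Finset.sum_congr rfl fun i hi => ?_
  have hin : i ≤ n := Nat.lt_succ_iff.1 (Finset.mem_range.1 hi)
  have h1 : ((n.choose i : ℕ) : ℝ) * (i.factorial : ℝ) * ((n - i).factorial : ℝ) = (n.factorial : ℝ) := by
    exact_mod_cast Nat.choose_mul_factorial_mul_factorial hin
  have h2 : (i.factorial : ℝ) ≠ 0 := by exact_mod_cast i.factorial_ne_zero
  have h3 : ((n - i).factorial : ℝ) ≠ 0 := by exact_mod_cast (n - i).factorial_ne_zero
  have h4 : ((n.choose i : ℕ) : ℝ) ≠ 0 := by exact_mod_cast (Nat.choose_pos hin).ne'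
  rw [tay, tay, PowerSeries.coeff_mk, PowerSeries.coeff_mk, ← h1]
  field_simp

theorem tay_deriv (f : ℝ → ℝ) : tay (deriv f) = PowerSeries.derivative ℝ (tay f) := by
  ext n
  have h1 : ((n + 1).factorial : ℝ) = ((n : ℝ) + 1) * (n.factorial : ℝ) := by
    rw [Nat.factorial_succ]
    push_cast
    ring
  have h2 : (n.factorial : ℝ) ≠ 0 := by exact_mod_cast n.factorial_ne_zero
  have h3 : (n : ℝ) + 1 ≠ 0 := by positivity
  rw [PowerSeries.coeff_derivative, tay, tay, PowerSeries.coeff_mk, PowerSeries.coeff_mk,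
    iteratedDeriv_succ', h1]
  field_simp

theorem tay_eq_const {f : ℝ → ℝ} (hf : ∀ s, AnalyticAt ℝ f s) {c : ℝ}
    (h : tay f = PowerSeries.C c) (s : ℝ) : f s = c := by
  have h0 : tay f = tay (fun _ => c) := by rw [h, tay_const]
  have h1 : (fun n => iteratedDeriv n f 0 / (n.factorial : ℝ)) =
      fun n => iteratedDeriv n (fun _ : ℝ => c) 0 / (n.factorial : ℝ) := by
    funext n
    have h2 := congrArg (PowerSeries.coeff n) h0
    rw [tay, tay, PowerSeries.coeff_mk, PowerSeries.coeff_mk] at h2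
    exact h2
  have hc : ∀ s, AnalyticAt ℝ (fun _ : ℝ => c) s := fun s => analyticAt_const
  have h2 := (hf 0).hasFPowerSeriesAt
  have h3 := (hc 0).hasFPowerSeriesAt
  rw [h1] at h2
  have h4 := h2.sub h3
  rw [sub_self] at h4
  have h5 := h4.eventually_eq_zero
  have h6 : f =ᶠ[𝓝 0] fun _ => c := by
    filter_upwards [h5] with x hx
    rw [Pi.sub_apply] at hx
    exact sub_eq_zero.1 hx
  have h7 := AnalyticOnNhd.eq_of_eventuallyEq (𝕜 := ℝ) (fun x _ => hf x) (fun x _ => hc x) h6
  exact congrFun h7 s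

end Pool.Agent.Lib.MP_8ce23f_nt.RR
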