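import Pool.Agent.Lib.MP_8ce23f_nt.RR.N04
import Pool.Agent.Lib.MP_8ce23f_nt.RR.N07

/-!
# The path satisfies the symbol system

`q_i(s) = exp (-(y s i))`, `u_i(s) = -(d/ds) (y s i)`.  `q_i' = q_i u_i`.  Differentiate
`phi (y s i) = s β_i + ∑ A_ij (y s j)` (`phi_hasDerivAt`): `-q_i/(1-q_i) y_i' = β_i + ∑ A_ij y_j'`, i.e.
`q_i u_i = (1 - q_i) (β_i - ∑ A_ij u_j)`.  Take Taylor series (N07).
-/

open Filter Topology

namespace Pool.Agent.Lib.MP_8ce23f_nt.RR

variable {r : ℕ}

private theorem n08_fun {A : Matrix (Fin r) (Fin r) ℝ} {β : Fin r → ℝ}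
    {y : ℝ → Fin r → ℝ} (hy : ∀ s, IsSol A (fun i => s * β i) (y s))
    (han : ∀ i s, AnalyticAt ℝ (fun s => y s i) s) (i : Fin r) (s : ℝ) :
    Real.exp (-(y s i)) * (-(deriv (fun s => y s i) s)) +
      (1 + (-1) * Real.exp (-(y s i))) *
        (∑ j, A i j * (-(deriv (fun s => y s j) s)) + (-1) * β i) = 0 := by
  have hd : ∀ j, HasDerivAt (fun s => y s j) (deriv (fun s => y s j) s) s :=
    fun j => (han j s).differentiableAt.hasDerivAt
  have h1 : HasDerivAt (fun s => phi (y s i))
      (-(Real.exp (-(y s i)) / (1 - Real.exp (-(y s i)))) * deriv (fun s => y s i) s) s :=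
    HasDerivAt.comp (h₂ := phi) (h := fun s => y s i) s (phi_hasDerivAt ((hy s).pos i)) (hd i)
  have h2 : HasDerivAt (fun s => s * β i + ∑ j, A i j * y s j)
      (1 * β i + ∑ j, A i j * deriv (fun s => y s j) s) s := by
    refine ((hasDerivAt_id' s).mul_const (β i)).add ?_
    exact HasDerivAt.fun_sum fun j _ => (hd j).const_mul (A i j)
  have h3 : (fun s => phi (y s i)) = fun s => s * β i + ∑ j, A i j * y s j :=
    funext fun t => (hy t).eq i
  rw [h3] at h1
  have h4 := h1.unique h2
  have h5 : 0 < 1 - Real.exp (-(y s i)) := by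
    have : Real.exp (-(y s i)) < 1 := by
      rw [Real.exp_lt_one_iff]
      have := (hy s).pos i
      linarith
    linarith
  have h6 : ∑ j, A i j * (-(deriv (fun s => y s j) s)) =
      -∑ j, A i j * deriv (fun s => y s j) s := by
    rw [← Finset.sum_neg_distrib]
    exact Finset.sum_congr rfl fun j _ => by ring
  rw [h6]
  have h7 : ∑ j, A i j * deriv (fun s => y s j) s =
      -(Real.exp (-(y s i)) / (1 - Real.exp (-(y s i)))) * deriv (fun s => y s i) s - β i := by
    linarith
  rw [h7]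
  field_simp
  ring

theorem path_isSym {A : Matrix (Fin r) (Fin r) ℝ} {β : Fin r → ℝ}
    {y : ℝ → Fin r → ℝ} (hy : ∀ s, IsSol A (fun i => s * β i) (y s))
    (han : ∀ i s, AnalyticAt ℝ (fun s => y s i) s) :
    IsSym A (fun i => Real.exp (-(y 0 i))) β
      (fun i => tay fun s => Real.exp (-(y s i)))
      (fun i => tay fun s => -(deriv (fun s => y s i) s)) := by
  have hE : ∀ i s, AnalyticAt ℝ (fun s => Real.exp (-(y s i))) s :=
    fun i s => (han i s).neg.rexp
  have hU : ∀ i s, AnalyticAt ℝ (fun s => -(deriv (fun s => y s i) s)) s :=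
    fun i s => (han i s).deriv.neg
  refine ⟨fun i => tay_constantCoeff _, fun i => ?_, fun i => ?_⟩
  · rw [← tay_deriv, ← tay_mul (hE i 0) (hU i 0)]
    congr 1
    funext s
    exact ((han i s).differentiableAt.hasDerivAt.neg.exp).deriv
  · have hM : ∀ j, AnalyticAt ℝ (fun s => A i j * (-(deriv (fun s => y s j) s))) 0 :=
      fun j => analyticAt_const.mul (hU j 0)
    have hS : AnalyticAt ℝ (fun s => ∑ j, A i j * (-(deriv (fun s => y s j) s))) 0 :=
      Finset.analyticAt_fun_sum _ fun j _ => hM j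
    have e1 : (∑ j, PowerSeries.C (A i j) * tay (fun s => -(deriv (fun s => y s j) s)) -
        PowerSeries.C (β i)) =
        tay (fun s => ∑ j, A i j * (-(deriv (fun s => y s j) s)) + (-1) * β i) := by
      rw [tay_add hS analyticAt_const, tay_const,
        tay_sum Finset.univ (fun j _ => hM j)]
      simp only [neg_mul, one_mul, map_neg, sub_eq_add_neg]
      congr 1
      exact Finset.sum_congr rfl fun j _ => (tay_smul (hU j 0) (A i j)).symm
    have hN : AnalyticAt ℝ (fun s => (-1) * Real.exp (-(y s i))) 0 :=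
      analyticAt_const.mul (hE i 0)
    have e2 : (1 - tay (fun s => Real.exp (-(y s i)))) =
        tay (fun s => 1 + (-1) * Real.exp (-(y s i))) := by
      rw [tay_add analyticAt_const hN, tay_const,
        tay_smul (hE i 0) (-1)]
      simp [sub_eq_add_neg]
    have hA1 : AnalyticAt ℝ (fun s => ∑ j, A i j * (-(deriv (fun s => y s j) s)) +
        (-1) * β i) 0 := hS.add analyticAt_const
    have hA2 : AnalyticAt ℝ (fun s => 1 + (-1) * Real.exp (-(y s i))) 0 :=
      analyticAt_const.add hN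
    have hB1 : AnalyticAt ℝ (fun s => Real.exp (-(y s i)) *
        (-(deriv (fun s => y s i) s))) 0 := (hE i 0).mul (hU i 0)
    have hB2 : AnalyticAt ℝ (fun s => (1 + (-1) * Real.exp (-(y s i))) *
        (∑ j, A i j * (-(deriv (fun s => y s j) s)) + (-1) * β i)) 0 := hA2.mul hA1
    rw [e1, e2, ← tay_mul (hE i 0) (hU i 0), ← tay_mul hA2 hA1, ← tay_add hB1 hB2]
    have e3 : (fun s => Real.exp (-(y s i)) * (-(deriv (fun s => y s i) s)) +
        (1 + (-1) * Real.exp (-(y s i))) *
          (∑ j, A i j * (-(deriv (fun s => y s j) s)) + (-1) * β i)) = fun _ => (0 : ℝ) :=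
      funext fun s => n08_fun hy han i s
    rw [e3, tay_const, map_zero]

end Pool.Agent.Lib.MP_8ce23f_nt.RR
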