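import Pool.Agent.Lib.MP_8ce23f_nt.RR.NDefs

/-!
# Uniqueness and functoriality of the symbol system

Uniqueness: strong induction on `n`: `coeff j (q i)` agree for `j ≤ n` and `coeff j (u i)` agree for `j < n`.
Coefficient `n` of `lin`: `∑_j (Jm A Q)_ij coeff n (u_j)` + (terms which contain `coeff k (q i)` with
`1 ≤ k ≤ n` and `coeff l (u j)` with `l < n`) = `(1-Q_i) b_i [n = 0] + ...`; the matrix `Jm A Q` is invertible, so
`coeff n (u_j)` agree; coefficient `n` of `dq`: `(n+1) coeff (n+1) (q i) = ∑ coeff k (q i) coeff (n-k) (u i)`, and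
`n+1` is invertible (`Algebra ℚ R`).
`map`: apply `PowerSeries.map φ` to all identities (see `LogDer_map_derivative` in R2/LogDer.lean).
-/

namespace Pool.Agent.Lib.MP_8ce23f_nt.RR

variable {r : ℕ}

private theorem n09_cast_unit {R : Type*} [CommRing R] [Algebra ℚ R] (n : ℕ) :
    IsUnit ((n : R) + 1) := by
  have h : ((n : R) + 1) = algebraMap ℚ R ((n : ℚ) + 1) := by
    rw [map_add, map_one, map_natCast]
  rw [h]
  exact (IsUnit.mk0 _ (by positivity)).map (algebraMap ℚ R)

private theorem n09_dvd_of_deriv {R : Type*} [CommRing R] [Algebra ℚ R] {n : ℕ}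
    {f : PowerSeries R} (h0 : (PowerSeries.X : PowerSeries R) ∣ f)
    (h : (PowerSeries.X : PowerSeries R) ^ n ∣ PowerSeries.derivative R f) :
    (PowerSeries.X : PowerSeries R) ^ (n + 1) ∣ f := by
  rw [PowerSeries.X_pow_dvd_iff] at h ⊢
  intro m hm
  rcases m with _ | m
  · rw [PowerSeries.coeff_zero_eq_constantCoeff]
    exact PowerSeries.X_dvd_iff.1 h0
  · have h1 := h m (by omega)
    rw [PowerSeries.coeff_derivative] at h1
    exact ((n09_cast_unit (R := R) m).mul_left_eq_zero).1 h1

private theorem n09_key {R : Type*} [CommRing R] [Algebra ℚ R] {A : Matrix (Fin r) (Fin r) R}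
    {Q b : Fin r → R} {q u q' u' : Fin r → PowerSeries R} (hd : IsUnit (Jm A Q).det)
    (h : IsSym A Q b q u) (h' : IsSym A Q b q' u') (n : ℕ) :
    (∀ i, (PowerSeries.X : PowerSeries R) ^ (n + 1) ∣ (q i - q' i)) ∧
      (∀ i, (PowerSeries.X : PowerSeries R) ^ n ∣ (u i - u' i)) := by
  induction n with
  | zero =>
    refine ⟨fun i => ?_, fun i => by simp⟩
    rw [zero_add, pow_one, PowerSeries.X_dvd_iff, map_sub, h.q0, h'.q0, sub_self]
  | succ n ih =>
    obtain ⟨hq, hu⟩ := ih
    have hu0 := hu
    choose v hv using hu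
    choose w hw using hq
    have h1 : ∀ i, q' i * v i + (1 - q' i) * (∑ j, PowerSeries.C (A i j) * v j) =
        PowerSeries.X * (w i * ((∑ j, PowerSeries.C (A i j) * u j - PowerSeries.C (b i)) - u i)) := by
      intro i
      have e1 := h.lin i
      have e2 := h'.lin i
      have e3 : ∑ j, PowerSeries.C (A i j) * u j - ∑ j, PowerSeries.C (A i j) * u' j =
          PowerSeries.X ^ n * ∑ j, PowerSeries.C (A i j) * v j := by
        rw [← Finset.sum_sub_distrib, Finset.mul_sum]
        refine Finset.sum_congr rfl fun j _ => ?_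
        rw [← mul_sub, hv j]
        ring
      apply PowerSeries.X_pow_mul_cancel (k := n)
      have e4 := hv i
      have e5 := hw i
      have e6 : PowerSeries.X ^ n * (q' i * v i + (1 - q' i) * (∑ j, PowerSeries.C (A i j) * v j)) =
          q' i * (PowerSeries.X ^ n * v i) +
            (1 - q' i) * (PowerSeries.X ^ n * ∑ j, PowerSeries.C (A i j) * v j) := by ring
      rw [e6, ← e3, ← e4]
      have e7 : PowerSeries.X ^ n * (PowerSeries.X *
          (w i * ((∑ j, PowerSeries.C (A i j) * u j - PowerSeries.C (b i)) - u i))) =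
          (PowerSeries.X ^ (n + 1) * w i) *
            ((∑ j, PowerSeries.C (A i j) * u j - PowerSeries.C (b i)) - u i) := by ring
      rw [e7, ← e5]
      linear_combination e1 - e2
    have h2 : ∀ i, PowerSeries.constantCoeff (v i) = 0 := by
      have h3 : (Jm A Q).mulVec (fun i => PowerSeries.constantCoeff (v i)) = 0 := by
        funext i
        have e := congrArg PowerSeries.constantCoeff (h1 i)
        rw [map_mul PowerSeries.constantCoeff PowerSeries.X, PowerSeries.constantCoeff_X, zero_mul,
          map_add, map_mul, map_mul, map_sub, map_one, map_sum, h'.q0] at e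
        have e2 : ∀ j, PowerSeries.constantCoeff (PowerSeries.C (A i j) * v j) =
            A i j * PowerSeries.constantCoeff (v j) := by
          intro j
          rw [map_mul, PowerSeries.constantCoeff_C]
        rw [Finset.sum_congr rfl fun j _ => e2 j] at e
        rw [Matrix.mulVec, dotProduct, Pi.zero_apply, ← e]
        have e3 : ∀ j, Jm A Q i j * PowerSeries.constantCoeff (v j) =
            (if i = j then Q i * PowerSeries.constantCoeff (v j) else 0) +
              (1 - Q i) * (A i j * PowerSeries.constantCoeff (v j)) := by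
          intro j
          rw [Jm, Matrix.of_apply]
          split_ifs <;> ring
        rw [Finset.sum_congr rfl fun j _ => e3 j, Finset.sum_add_distrib, Finset.sum_ite_eq,
          if_pos (Finset.mem_univ i), ← Finset.mul_sum]
      have h4 : (fun i => PowerSeries.constantCoeff (v i)) = 0 := by
        have e := congrArg ((Jm A Q)⁻¹).mulVec h3
        rw [Matrix.mulVec_mulVec, Matrix.nonsing_inv_mul _ hd, Matrix.one_mulVec,
          Matrix.mulVec_zero] at e
        exact e
      intro i
      exact congrFun h4 i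
    have h5 : ∀ i, (PowerSeries.X : PowerSeries R) ^ (n + 1) ∣ (u i - u' i) := by
      intro i
      rw [hv i, pow_succ]
      exact mul_dvd_mul_left _ (PowerSeries.X_dvd_iff.2 (h2 i))
    have h6 : ∀ i, (PowerSeries.X : PowerSeries R) ^ (n + 1) ∣ (q i - q' i) := fun i =>
      ⟨w i, hw i⟩
    refine ⟨fun i => ?_, h5⟩
    apply n09_dvd_of_deriv
    · exact dvd_trans (dvd_pow_self _ (Nat.succ_ne_zero n)) (h6 i)
    · have e : PowerSeries.derivative R (q i - q' i) = q' i * (u i - u' i) + (q i - q' i) * u i := by
        rw [map_sub, h.dq, h'.dq]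
        ring
      rw [e]
      exact dvd_add (Dvd.dvd.mul_left (h5 i) _) (Dvd.dvd.mul_right (h6 i) _)

private theorem n09_eq_of_dvd {R : Type*} [CommRing R] {f g : PowerSeries R}
    (h : ∀ n, (PowerSeries.X : PowerSeries R) ^ n ∣ (f - g)) : f = g := by
  ext n
  have h1 := (PowerSeries.X_pow_dvd_iff.1 (h (n + 1))) n (Nat.lt_succ_self n)
  rw [map_sub] at h1
  exact sub_eq_zero.1 h1

private theorem n09_map_derivative {R R' : Type*} [CommRing R] [CommRing R'] (φ : R →+* R')
    (f : PowerSeries R) :
    PowerSeries.map φ (PowerSeries.derivative R f) =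
      PowerSeries.derivative R' (PowerSeries.map φ f) := by
  ext n
  rw [PowerSeries.coeff_map, PowerSeries.coeff_derivative, PowerSeries.coeff_derivative,
    PowerSeries.coeff_map, map_mul, map_add, map_one, map_natCast]

theorem IsSym.unique {R : Type*} [CommRing R] [Algebra ℚ R] {A : Matrix (Fin r) (Fin r) R}
    {Q b : Fin r → R} {q u q' u' : Fin r → PowerSeries R} (hd : IsUnit (Jm A Q).det)
    (h : IsSym A Q b q u) (h' : IsSym A Q b q' u') : q = q' ∧ u = u' := by
  constructor
  · funext i
    exact n09_eq_of_dvd fun n => dvd_trans (pow_dvd_pow _ (Nat.le_succ n))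
      ((n09_key hd h h' n).1 i)
  · funext i
    exact n09_eq_of_dvd fun n => (n09_key hd h h' n).2 i

theorem IsSym.map {R R' : Type*} [CommRing R] [CommRing R'] (φ : R →+* R')
    {A : Matrix (Fin r) (Fin r) R} {Q b : Fin r → R} {q u : Fin r → PowerSeries R}
    (h : IsSym A Q b q u) :
    IsSym (fun i j => φ (A i j)) (fun i => φ (Q i)) (fun i => φ (b i))
      (fun i => PowerSeries.map φ (q i)) (fun i => PowerSeries.map φ (u i)) := by
  refine ⟨fun i => ?_, fun i => ?_, fun i => ?_⟩
  · have e := congrArg φ (h.q0 i)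
    rw [← e, ← PowerSeries.coeff_zero_eq_constantCoeff_apply, PowerSeries.coeff_map,
      PowerSeries.coeff_zero_eq_constantCoeff_apply]
  · have e := congrArg (PowerSeries.map φ) (h.dq i)
    rw [n09_map_derivative, map_mul] at e
    exact e
  · have e := congrArg (PowerSeries.map φ) (h.lin i)
    rw [map_zero, map_add, map_mul, map_mul, map_sub, map_one, map_sub, map_sum,
      PowerSeries.map_C] at e
    have e2 : ∀ j, PowerSeries.map φ (PowerSeries.C (A i j) * u j) =
        PowerSeries.C (φ (A i j)) * PowerSeries.map φ (u j) := by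
      intro j
      rw [map_mul, PowerSeries.map_C]
    rw [Finset.sum_congr rfl fun j _ => e2 j] at e
    exact e

/-- `Jm` commutes with ring homomorphisms. -/
theorem Jm_map {R R' : Type*} [CommRing R] [CommRing R'] (φ : R →+* R')
    (A : Matrix (Fin r) (Fin r) R) (q : Fin r → R) :
    (Jm (fun i j => φ (A i j)) (fun i => φ (q i)) : Matrix (Fin r) (Fin r) R').det =
      φ (Jm A q).det := by
  rw [RingHom.map_det]
  congr 1
  ext i j
  rw [RingHom.mapMatrix_apply, Matrix.map_apply, Jm, Jm, Matrix.of_apply, Matrix.of_apply, map_add,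
    map_mul, map_sub, map_one]
  split_ifs
  · rfl
  · rw [map_zero]

end Pool.Agent.Lib.MP_8ce23f_nt.RR
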