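import Pool.Agent.Lib.MP_8ce23f_nt.RR.N06
import Pool.Agent.Lib.MP_8ce23f_nt.RR.N08
import Pool.Agent.Lib.MP_8ce23f_nt.RR.N09

/-!
# Constant speed along a real common zero

`map (eval (vC v))` of `IsTop.sym` (use `IsSym.map`) gives `IsSym (toC A) (vC Q) (vC v) _ û` over `ℂ` with
`û_i = map (eval (vC v)) (Uu V i)`, and `∑ v_i û_i = ∑_k (k+1)(k+2) V_{k+1}(v) τ^k = C (2 V_1(v))` (Euler, `hv`).  `path_isSym`, mapped
to `ℂ` by `algebraMap ℝ ℂ`, is another solution; `exp (-(y 0 i)) = Q i` because `y 0` and `-log Q` both solve the equation at `0`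
(`hQ`, `IsSol.unique`).  By `IsSym.unique` the series agree; so `∑ v_i tay (-(y_i)') ` is a constant series, and
`tay_eq_const` applies to the analytic function `∑ v_i y_i'`.
-/

open Filter Topology

namespace Pool.Agent.Lib.MP_8ce23f_nt.RR

variable {r : ℕ}

private theorem n19_euler {V : ℕ → P r} (hV : ∀ k, (V k).IsHomogeneous (k + 1)) (v : Fin r → ℝ)
    (k : ℕ) :
    ∑ i, (v i : ℂ) * PowerSeries.coeff k
      (PowerSeries.map (MvPolynomial.eval (vC v)) (Uu V i)) =
      ((k : ℂ) + 1) * ((k : ℂ) + 2) * MvPolynomial.eval (vC v) (V (k + 1)) := by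
  have h1 := congrArg (MvPolynomial.eval (vC v)) (hV (k + 1)).sum_X_mul_pderiv
  rw [map_sum, map_nsmul, nsmul_eq_mul] at h1
  simp only [map_mul, MvPolynomial.eval_X] at h1
  have h2 : ∀ i, (v i : ℂ) * PowerSeries.coeff k
      (PowerSeries.map (MvPolynomial.eval (vC v)) (Uu V i)) =
      ((k : ℂ) + 1) * (vC v i * MvPolynomial.eval (vC v)
        (MvPolynomial.pderiv i (V (k + 1)))) := by
    intro i
    rw [PowerSeries.coeff_map, Uu, PowerSeries.coeff_mk, map_mul, map_add, map_natCast, map_one]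
    simp only [vC]
    ring
  rw [Finset.sum_congr rfl fun i _ => h2 i, ← Finset.mul_sum, h1]
  push_cast
  ring

private theorem n19_init {A : Matrix (Fin r) (Fin r) ℝ} (hA : A.PosDef) {Q : Fin r → ℝ}
    (h0 : ∀ i, 0 < Q i) (hQ : IsSol A 0 fun i => -Real.log (Q i)) {v : Fin r → ℝ}
    {y : ℝ → Fin r → ℝ} (hy : ∀ s, IsSol A (fun i => s * v i) (y s)) (i : Fin r) :
    Real.exp (-(y 0 i)) = Q i := by
  have h1 : IsSol A 0 (y 0) := by
    have h2 := hy 0
    have h3 : (fun i => (0 : ℝ) * v i) = 0 := by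
      funext i
      simp
    rwa [h3] at h2
  have h4 := IsSol.unique hA h1 hQ
  rw [h4, neg_neg, Real.exp_log (h0 i)]

theorem const_speed {A : Matrix (Fin r) (Fin r) ℝ} (hA : A.PosDef) {Q : Fin r → ℝ}
    (h0 : ∀ i, 0 < Q i) (hQ : IsSol A 0 fun i => -Real.log (Q i)) {V : ℕ → P r}
    {q : Fin r → PowerSeries (P r)} (h : IsTop (toC A) (vC Q) V q)
    (hd : (Jm (toC A) (vC Q)).det ≠ 0) {v : Fin r → ℝ}
    (hv : ∀ k, 2 ≤ k → MvPolynomial.eval (vC v) (V k) = 0)
    {y : ℝ → Fin r → ℝ} (hy : ∀ s, IsSol A (fun i => s * v i) (y s))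
    (han : ∀ i s, AnalyticAt ℝ (fun s => y s i) s) :
    ∃ c : ℝ, ∀ s, ∑ i, v i * deriv (fun s => y s i) s = c := by
  have hs1 := h.sym.map (MvPolynomial.eval (vC v))
  have hs2 := (path_isSym hy han).map (Complex.ofRealHom)
  have hs1' : IsSym (fun i j => (A i j : ℂ)) (fun i => (Q i : ℂ)) (fun i => (v i : ℂ))
      (fun i => PowerSeries.map (MvPolynomial.eval (vC v)) (q i))
      (fun i => PowerSeries.map (MvPolynomial.eval (vC v)) (Uu V i)) := by
    have e1 : (fun i j => MvPolynomial.eval (vC v) (MvPolynomial.C (toC A i j) : P r)) =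
        (fun i j => (A i j : ℂ)) := by
      funext i j
      rw [MvPolynomial.eval_C]
      rfl
    have e2 : (fun i => MvPolynomial.eval (vC v) (MvPolynomial.C (vC Q i) : P r)) =
        (fun i => (Q i : ℂ)) := by
      funext i
      rw [MvPolynomial.eval_C]
      rfl
    have e3 : (fun i => MvPolynomial.eval (vC v) (MvPolynomial.X i : P r)) =
        (fun i => (v i : ℂ)) := by
      funext i
      rw [MvPolynomial.eval_X]
      rfl
    rw [e1, e2, e3] at hs1
    exact hs1
  have hs2' : IsSym (fun i j => (A i j : ℂ)) (fun i => (Q i : ℂ)) (fun i => (v i : ℂ))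
      (fun i => PowerSeries.map Complex.ofRealHom (tay fun s => Real.exp (-(y s i))))
      (fun i => PowerSeries.map Complex.ofRealHom
        (tay fun s => -(deriv (fun s => y s i) s))) := by
    have e2 : (fun i => Complex.ofRealHom (Real.exp (-(y 0 i)))) = (fun i => (Q i : ℂ)) := by
      funext i
      rw [n19_init hA h0 hQ hy i]
      rfl
    rw [e2] at hs2
    exact hs2
  have hu : IsUnit (Jm (fun i j => (A i j : ℂ)) (fun i => (Q i : ℂ)) :
      Matrix (Fin r) (Fin r) ℂ).det := isUnit_iff_ne_zero.2 hd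
  have hU := (IsSym.unique hu hs1' hs2').2
  have hcoef : ∀ k, 1 ≤ k → ∑ i, v i * PowerSeries.coeff k
      (tay fun s => -(deriv (fun s => y s i) s)) = 0 := by
    intro k hk
    have h1 := n19_euler h.hom v k
    rw [hv (k + 1) (by omega), mul_zero] at h1
    have h2 : ∀ i, PowerSeries.coeff k
        (PowerSeries.map (MvPolynomial.eval (vC v)) (Uu V i)) =
        ((PowerSeries.coeff k (tay fun s => -(deriv (fun s => y s i) s)) : ℝ) : ℂ) := by
      intro i
      rw [congrFun hU i, PowerSeries.coeff_map]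
      rfl
    have h3 : ((∑ i, v i * PowerSeries.coeff k
        (tay fun s => -(deriv (fun s => y s i) s)) : ℝ) : ℂ) = 0 := by
      rw [Complex.ofReal_sum, ← h1]
      refine Finset.sum_congr rfl fun i _ => ?_
      rw [h2 i, Complex.ofReal_mul]
    exact_mod_cast h3
  have hder : ∀ i s, AnalyticAt ℝ (fun s => -(deriv (fun s => y s i) s)) s := fun i s =>
    ((han i s).deriv).neg
  have hg : ∀ s, AnalyticAt ℝ (fun s => ∑ i, v i * -(deriv (fun s => y s i) s)) s := by
    intro s
    refine Finset.analyticAt_fun_sum _ fun i _ => ?_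
    exact analyticAt_const.mul (hder i s)
  have htay : tay (fun s => ∑ i, v i * -(deriv (fun s => y s i) s)) =
      PowerSeries.C (∑ i, v i * PowerSeries.coeff 0
        (tay fun s => -(deriv (fun s => y s i) s))) := by
    have hm : ∀ i ∈ (Finset.univ : Finset (Fin r)),
        AnalyticAt ℝ ((fun i s => v i * -(deriv (fun s => y s i) s)) i) 0 := fun i _ =>
      analyticAt_const.mul (hder i 0)
    rw [tay_sum Finset.univ (f := fun i s => v i * -(deriv (fun s => y s i) s)) hm]
    rw [Finset.sum_congr rfl fun i _ => tay_smul (hder i 0) (v i)]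
    ext k
    rw [map_sum]
    simp only [PowerSeries.coeff_C_mul]
    rcases Nat.eq_zero_or_pos k with hk | hk
    · subst hk
      rw [PowerSeries.coeff_C, if_pos rfl]
    · rw [PowerSeries.coeff_C, if_neg (by omega)]
      exact hcoef k hk
  refine ⟨-(∑ i, v i * PowerSeries.coeff 0 (tay fun s => -(deriv (fun s => y s i) s))),
    fun s => ?_⟩
  rw [← tay_eq_const hg htay s, ← Finset.sum_neg_distrib]
  refine Finset.sum_congr rfl fun i _ => ?_
  ring

end Pool.Agent.Lib.MP_8ce23f_nt.RR
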