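import Pool.Agent.Lib.MP_8ce23f_nt.RR.NDefs

/-!
# A rational basis

`W₀ = span_ℚ (range β) ⊆ ℂ` is finite dimensional over `ℚ`: choose a basis `θ'_1, …, θ'_m`; `β_i = ∑ b'_ik θ'_k`
with `b'_ik ∈ ℚ`; let `N > 0` be a common denominator, `θ = θ'/N`, `b = N b'` (integers).
If `x ∈ Wspan β`: the map `ℚ^r → ℚ^m`, `c ↦ cᵀ b` is surjective (as the `β_i` span), its kernel is
`{c | ∑ c_i β_i = 0}` (linear independence of `θ`), and `c ↦ ∑ c_i x_i` is a `ℚ`-linear map `ℚ^r → ℂ` which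
vanishes on this kernel, so it factors: `∑ c_i x_i = ∑_k (cᵀ b)_k σ_k` (`LinearMap` lift; take `c = e_i`).
-/

namespace Pool.Agent.Lib.MP_8ce23f_nt.RR

variable {r : ℕ}

theorem exists_basis (β : Fin r → ℂ) : ∃ (m : ℕ) (θ : Fin m → ℂ) (b : Fin r → Fin m → ℤ),
    LinearIndependent ℚ θ ∧ (∀ i, β i = ∑ k, (b i k : ℂ) * θ k) ∧
    ∀ x ∈ Wspan β, ∃ σ : Fin m → ℂ, ∀ i, x i = ∑ k, (b i k : ℂ) * σ k := by
  classical
  have hfin : FiniteDimensional ℚ (Submodule.span ℚ (Set.range β)) :=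
    FiniteDimensional.span_of_finite ℚ (Set.finite_range β)
  obtain ⟨m, ⟨b0⟩⟩ : ∃ m : ℕ, Nonempty (Module.Basis (Fin m) ℚ (Submodule.span ℚ (Set.range β))) :=
    ⟨_, ⟨Module.finBasis ℚ (Submodule.span ℚ (Set.range β))⟩⟩
  have hmem : ∀ i, β i ∈ Submodule.span ℚ (Set.range β) := fun i => Submodule.subset_span ⟨i, rfl⟩
  obtain ⟨B, hB⟩ : ∃ B : Fin r → Fin m → ℚ, ∀ i k, B i k = b0.repr ⟨β i, hmem i⟩ k :=
    ⟨_, fun _ _ => rfl⟩
  have hβ0 : ∀ i, β i = ∑ k, B i k • ((b0 k : Submodule.span ℚ (Set.range β)) : ℂ) := by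
    intro i
    have h1 := congrArg (Subtype.val) (b0.sum_repr ⟨β i, hmem i⟩)
    rw [Submodule.coe_sum] at h1
    refine h1.symm.trans (Finset.sum_congr rfl fun k _ => ?_)
    rw [hB]
    rfl
  obtain ⟨⟨N, hN⟩, hint⟩ := IsLocalization.exist_integer_multiples_of_finite (nonZeroDivisors ℤ)
    (fun q : Fin r × Fin m => B q.1 q.2)
  have hN0 : (N : ℚ) ≠ 0 := by
    exact_mod_cast nonZeroDivisors.ne_zero hN
  choose b hb using fun (i : Fin r) (k : Fin m) => hint (i, k)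
  have hb' : ∀ i k, (b i k : ℚ) = N * B i k := by
    intro i k
    have h1 := hb i k
    rw [eq_intCast] at h1
    rw [h1]
    exact zsmul_eq_mul _ _
  obtain ⟨θ, hθ⟩ : ∃ θ : Fin m → ℂ, ∀ k, θ k =
      (N : ℚ)⁻¹ • ((b0 k : Submodule.span ℚ (Set.range β)) : ℂ) := ⟨_, fun _ => rfl⟩
  have hβ : ∀ i, β i = ∑ k, (b i k : ℂ) * θ k := by
    intro i
    rw [hβ0]
    refine Finset.sum_congr rfl fun k _ => ?_
    have h1 : B i k = (b i k : ℚ) * (N : ℚ)⁻¹ := by
      rw [hb']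
      field_simp
    rw [h1, hθ, mul_smul, Algebra.smul_def]
    congr 1
  have hmemθ : ∀ k, θ k ∈ Submodule.span ℚ (Set.range β) := by
    intro k
    rw [hθ]
    exact Submodule.smul_mem _ _ (b0 k).2
  have hc : ∀ k, ∃ c : Fin r → ℚ, ∑ i, (c i : ℂ) * β i = θ k := by
    intro k
    obtain ⟨c, hc⟩ := (Submodule.mem_span_range_iff_exists_fun ℚ).1 (hmemθ k)
    refine ⟨c, ?_⟩
    rw [← hc]
    exact Finset.sum_congr rfl fun i _ => (Rat.smul_def _ _).symm
  choose c hc using hc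
  refine ⟨m, θ, b, ?_, hβ, ?_⟩
  · have h1 : LinearIndependent ℚ fun k => ((b0 k : Submodule.span ℚ (Set.range β)) : ℂ) :=
      b0.linearIndependent.map' (Submodule.subtype _) (Submodule.ker_subtype _)
    have h2 := h1.units_smul (fun _ : Fin m => Units.mk0 (N : ℚ)⁻¹ (inv_ne_zero hN0))
    have h3 : θ = (fun _ : Fin m => Units.mk0 (N : ℚ)⁻¹ (inv_ne_zero hN0)) •
        fun k : Fin m => ((b0 k : Submodule.span ℚ (Set.range β)) : ℂ) := by
      funext k
      rw [hθ]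
      rfl
    rw [h3]
    exact h2
  · intro x hx
    refine ⟨fun k => ∑ j, (c k j : ℂ) * x j, fun i => ?_⟩
    have h1 : ∀ y : Fin r → ℂ, ∑ j, (((if i = j then 1 else 0) - ∑ k, (b i k : ℚ) * c k j : ℚ) : ℂ) * y j =
        y i - ∑ k, (b i k : ℂ) * ∑ j, (c k j : ℂ) * y j := by
      intro y
      have h2 : ∀ j, (((if i = j then 1 else 0) - ∑ k, (b i k : ℚ) * c k j : ℚ) : ℂ) * y j =
          (if i = j then y j else 0) - ∑ k, (b i k : ℂ) * ((c k j : ℂ) * y j) := by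
        intro j
        have h3 : ∑ k, (b i k : ℂ) * ((c k j : ℂ) * y j) = (∑ k, (b i k : ℂ) * (c k j : ℂ)) * y j := by
          rw [Finset.sum_mul]
          exact Finset.sum_congr rfl fun k _ => by ring
        rw [h3]
        push_cast
        split_ifs <;> ring
      rw [Finset.sum_congr rfl fun j _ => h2 j, Finset.sum_sub_distrib, Finset.sum_ite_eq]
      rw [if_pos (Finset.mem_univ i), Finset.sum_comm]
      congr 1
      exact Finset.sum_congr rfl fun k _ => by rw [Finset.mul_sum]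
    have h2 := hx (fun j => (if i = j then 1 else 0) - ∑ k, (b i k : ℚ) * c k j) (by
      rw [h1]
      simp only [hc]
      rw [← hβ i, sub_self])
    rw [h1] at h2
    exact sub_eq_zero.1 h2

end Pool.Agent.Lib.MP_8ce23f_nt.RR
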