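import Pool.Agent.Lib.MP_8ce23f_nt.RR.N15
import Pool.Agent.Lib.MP_8ce23f_nt.RR.N11

/-!
# A common complex zero gives a common integral zero

Let `m, θ, b` be as in `exists_basis β`, `φ = lsub b : P r → P m`, `H_k = φ (V k)`, and for vectors
`x, y` let `c_k = ∂_x ∂_y H_{k+1}`.  The series `∑ c_k τ^k` is a linear combination of the
`map φ (Mm V i j)`, so it is algebraic over `TT m`; hence (`vanish`) if `c_k(θ) = 0` for all
`k ≥ 1` then `c_k = 0` for all `k ≥ 1`.  This is used three times.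
For `x = y = θ`: `c_k(θ) = (k+2)(k+1) H_{k+1}(θ) = 0` by Euler, so `∂_θ ∂_θ H_{k+1} = 0`.
For `x = θ`: `c_k` is homogeneous of degree `k`, so
`k c_k(θ) = ∂_θ c_k (θ) = ∂_y (∂_θ ∂_θ H_{k+1}) (θ) = 0`, so `∂_θ ∂_y H_{k+1} = 0`.
For all `x, y`: `k c_k(θ) = ∂_x (∂_θ ∂_y H_{k+1}) (θ) = 0`, so `∂_x ∂_y H_{k+1} = 0`.
By Euler, `H_{k+1} = 0`.  Some column `v` of `b` is not zero, and `V_k(v) = H_k(e) = 0`.
-/

namespace Pool.Agent.Lib.MP_8ce23f_nt.RR

variable {r : ℕ}

private theorem n35_eval_lsub {m : ℕ} (b : Fin r → Fin m → ℤ) {x : Fin r → ℂ} {σ : Fin m → ℂ}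
    (hx : ∀ i, x i = ∑ k, (b i k : ℂ) * σ k) (p : P r) :
    MvPolynomial.eval σ (lsub b p) = MvPolynomial.eval x p := by
  have h : ((MvPolynomial.aeval σ : P m →ₐ[ℂ] ℂ).comp (lsub b)) = (MvPolynomial.aeval x : P r →ₐ[ℂ] ℂ) := by
    refine MvPolynomial.algHom_ext fun i => ?_
    rw [AlgHom.comp_apply, lsub, MvPolynomial.aeval_X, map_sum, MvPolynomial.aeval_X, hx i]
    refine Finset.sum_congr rfl fun k _ => ?_
    rw [map_mul, MvPolynomial.aeval_X, MvPolynomial.aeval_C]
    rfl
  exact DFunLike.congr_fun h p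

private theorem n35_jm_mul {R : Type*} [CommRing R] (A : Matrix (Fin r) (Fin r) R) (q : Fin r → R)
    (M : Matrix (Fin r) (Fin r) R)
    (h : ∀ i j, q i * M i j + (1 - q i) * (∑ l, A i l * M l j - (if i = j then 1 else 0)) = 0) :
    Jm A q * M = Matrix.diagonal fun i => 1 - q i := by
  ext i j
  rw [Matrix.mul_apply, Matrix.diagonal_apply]
  have h1 : ∑ l, Jm A q i l * M l j = q i * M i j + (1 - q i) * ∑ l, A i l * M l j := by
    have h2 : ∀ l, Jm A q i l * M l j = (if i = l then q i * M l j else 0) + (1 - q i) * (A i l * M l j) := by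
      intro l
      unfold Jm
      rw [Matrix.of_apply]
      split_ifs <;> ring
    simp only [h2]
    rw [Finset.sum_add_distrib, Finset.sum_ite_eq, if_pos (Finset.mem_univ _), ← Finset.mul_sum]
  rw [h1]
  have h3 := h i j
  split_ifs at h3 ⊢ with hij
  · linear_combination h3
  · linear_combination h3

private theorem n35_alg {m : ℕ} {A : Matrix (Fin r) (Fin r) (PowerSeries (P m))}
    {q : Fin r → PowerSeries (P m)} {M : Matrix (Fin r) (Fin r) (PowerSeries (P m))}
    (hA : ∀ i j, IsAlgebraic (TT m) (A i j)) (hq : ∀ i, IsAlgebraic (TT m) (q i))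
    (hdet : (Jm A q).det ≠ 0) (h : Jm A q * M = Matrix.diagonal fun i => 1 - q i) (i j : Fin r) :
    IsAlgebraic (TT m) (M i j) := by
  set S := Subalgebra.algebraicClosure (TT m) (PowerSeries (P m)) with hS
  have hJ : ∀ i j, Jm A q i j ∈ S := by
    intro i j
    unfold Jm
    rw [Matrix.of_apply]
    refine S.add_mem ?_ (S.mul_mem (S.sub_mem S.one_mem (hq i)) (hA i j))
    split_ifs
    · exact hq i
    · exact S.zero_mem
  have hdetS : ∀ N : Matrix (Fin r) (Fin r) (PowerSeries (P m)), (∀ i j, N i j ∈ S) → N.det ∈ S := by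
    intro N hN
    rw [Matrix.det_apply]
    refine S.sum_mem fun σ _ => ?_
    rw [Units.smul_def]
    exact S.zsmul_mem (S.prod_mem fun i _ => hN _ _) _
  have hadj : ∀ i j, (Jm A q).adjugate i j ∈ S := by
    intro i j
    rw [Matrix.adjugate_apply]
    refine hdetS _ fun a b => ?_
    rw [Matrix.updateRow_apply]
    split_ifs
    · rw [Pi.single_apply]
      split_ifs
      · exact S.one_mem
      · exact S.zero_mem
    · exact hJ a b
  have h1 : (Jm A q).det * M i j ∈ S := by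
    have h2 : (Jm A q).det • M = (Jm A q).adjugate * Matrix.diagonal fun i => 1 - q i := by
      rw [← h, ← Matrix.mul_assoc, Matrix.adjugate_mul, Matrix.smul_mul, Matrix.one_mul]
    have h3 : (Jm A q).det * M i j = ((Jm A q).adjugate * Matrix.diagonal fun i => 1 - q i) i j := by
      rw [← h2, Matrix.smul_apply, smul_eq_mul]
    rw [h3, Matrix.mul_diagonal]
    exact S.mul_mem (hadj i j) (S.sub_mem S.one_mem (hq j))
  exact IsAlgebraic.of_mul (mem_nonZeroDivisors_of_ne_zero hdet) (hdetS _ hJ) h1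

/-- The derivative in the direction `x`. -/
private noncomputable def n35dl {m : ℕ} (x : Fin m → ℂ) : Derivation ℂ (P m) (P m) :=
  MvPolynomial.mkDerivation ℂ fun k => MvPolynomial.C (x k)

private theorem n35_dl_eq {m : ℕ} (x : Fin m → ℂ) (p : P m) :
    n35dl x p = ∑ k, MvPolynomial.C (x k) * MvPolynomial.pderiv k p := by
  have hs : ∀ p : P m, (∑ k, (MvPolynomial.C (x k) : P m) •
      (MvPolynomial.pderiv k : Derivation ℂ (P m) (P m))) p =
      ∑ k, MvPolynomial.C (x k) * MvPolynomial.pderiv k p := by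
    intro p
    have h1 := congrFun (map_sum (Derivation.coeFnAddMonoidHom : Derivation ℂ (P m) (P m) →+ _)
      (fun k => (MvPolynomial.C (x k) : P m) •
        (MvPolynomial.pderiv k : Derivation ℂ (P m) (P m))) Finset.univ) p
    rw [Finset.sum_apply] at h1
    exact h1
  have h : n35dl x = ∑ k, (MvPolynomial.C (x k) : P m) • (MvPolynomial.pderiv k : Derivation ℂ (P m) (P m)) := by
    refine MvPolynomial.derivation_ext fun i => ?_
    rw [n35dl, MvPolynomial.mkDerivation_X, hs, Finset.sum_eq_single i]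
    · rw [MvPolynomial.pderiv_X_self, mul_one]
    · intro k _ hk
      rw [MvPolynomial.pderiv_X_of_ne (Ne.symm hk), mul_zero]
    · intro hi
      exact absurd (Finset.mem_univ i) hi
  rw [h, hs]

private theorem n35_dl_comm {m : ℕ} (x y : Fin m → ℂ) (p : P m) :
    n35dl x (n35dl y p) = n35dl y (n35dl x p) := by
  have h : ⁅n35dl x, n35dl y⁆ = 0 := by
    refine MvPolynomial.derivation_ext fun i => ?_
    rw [Derivation.commutator_apply]
    have h1 : n35dl y (MvPolynomial.X i) = MvPolynomial.C (y i) := MvPolynomial.mkDerivation_X _ _ _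
    have h2 : n35dl x (MvPolynomial.X i) = MvPolynomial.C (x i) := MvPolynomial.mkDerivation_X _ _ _
    rw [h1, h2, MvPolynomial.derivation_C, MvPolynomial.derivation_C, sub_zero]
    rfl
  have h1 := congrArg (fun D : Derivation ℂ (P m) (P m) => D p) h
  simp only [Derivation.commutator_apply] at h1
  exact sub_eq_zero.1 h1

private theorem n35_hom {m : ℕ} {p : P m} {n : ℕ} (hp : p.IsHomogeneous (n + 1)) (x : Fin m → ℂ) :
    (n35dl x p).IsHomogeneous n := by
  rw [n35_dl_eq]
  refine MvPolynomial.IsHomogeneous.sum _ _ _ fun k _ => ?_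
  have h := (MvPolynomial.isHomogeneous_C (Fin m) (x k)).mul (hp.pderiv (i := k))
  rwa [zero_add] at h

private theorem n35_euler {m : ℕ} {p : P m} {n : ℕ} (hp : p.IsHomogeneous n) (x : Fin m → ℂ) :
    MvPolynomial.eval x (n35dl x p) = n * MvPolynomial.eval x p := by
  have h1 := congrArg (MvPolynomial.eval x) hp.sum_X_mul_pderiv
  rw [map_sum, map_nsmul, nsmul_eq_mul] at h1
  rw [← h1, n35_dl_eq, map_sum]
  refine Finset.sum_congr rfl fun i _ => ?_
  rw [map_mul, map_mul, MvPolynomial.eval_X, MvPolynomial.eval_C]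

private theorem n35_chain {m : ℕ} (b : Fin r → Fin m → ℤ) (x : Fin m → ℂ) (p : P r) :
    n35dl x (lsub b p) = lsub b (n35dl (fun i => ∑ k, (b i k : ℂ) * x k) p) := by
  induction p using MvPolynomial.induction_on with
  | C a =>
    have h1 : lsub b (MvPolynomial.C a) = MvPolynomial.C a := (lsub b : P r →ₐ[ℂ] P m).commutes a
    rw [h1, MvPolynomial.derivation_C, MvPolynomial.derivation_C, map_zero]
  | add p q hp hq => rw [map_add, map_add, map_add, map_add, hp, hq]
  | mul_X p i hp =>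
    rw [map_mul, Derivation.leibniz, Derivation.leibniz, map_add, hp]
    have h1 : lsub b (MvPolynomial.X i) = ∑ k, MvPolynomial.C (b i k : ℂ) * MvPolynomial.X k :=
      MvPolynomial.aeval_X _ _
    have h2 : n35dl (fun i => ∑ k, (b i k : ℂ) * x k) (MvPolynomial.X i) =
        MvPolynomial.C (∑ k, (b i k : ℂ) * x k) := MvPolynomial.mkDerivation_X _ _ _
    have h3 : n35dl x (lsub b (MvPolynomial.X i)) = lsub b (MvPolynomial.C (∑ k, (b i k : ℂ) * x k)) := by
      have h4 : lsub b (MvPolynomial.C (∑ k, (b i k : ℂ) * x k)) =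
          MvPolynomial.C (∑ k, (b i k : ℂ) * x k) := (lsub b : P r →ₐ[ℂ] P m).commutes _
      rw [h4, h1, map_sum, map_sum]
      refine Finset.sum_congr rfl fun k _ => ?_
      rw [Derivation.leibniz, MvPolynomial.derivation_C, smul_zero, add_zero, smul_eq_mul, map_mul]
      have h5 : n35dl x (MvPolynomial.X k) = MvPolynomial.C (x k) := MvPolynomial.mkDerivation_X _ _ _
      rw [h5]
    rw [h3, h2, smul_eq_mul, smul_eq_mul, smul_eq_mul, smul_eq_mul, map_mul, map_mul]

/-- The vanishing statement for second derivatives. -/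
private theorem n35_van {A : Matrix (Fin r) (Fin r) ℚ} {Q : Fin r → ℂ} {V : ℕ → P r}
    {q : Fin r → PowerSeries (P r)} (h : IsTop (A.map fun x : ℚ => (x : ℂ)) Q V q)
    (h0 : ∀ i, Q i ≠ 0) (h1 : ∀ i, Q i ≠ 1)
    (hd : (Jm (A.map fun x : ℚ => (x : ℂ)) Q).det ≠ 0) {m : ℕ} (b : Fin r → Fin m → ℤ)
    {θ : Fin m → ℂ} (hθ : LinearIndependent ℚ θ) (x y : Fin m → ℂ)
    (hz : ∀ k, 1 ≤ k → MvPolynomial.eval θ (n35dl x (n35dl y (lsub b (V (k + 1))))) = 0)
    {k : ℕ} (hk : 1 ≤ k) : n35dl x (n35dl y (lsub b (V (k + 1)))) = 0 := by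
  set φ : P r →+* P m := (lsub b : P r →ₐ[ℂ] P m).toRingHom with hφdef
  have hφC : ∀ c : ℂ, φ (MvPolynomial.C c) = MvPolynomial.C c := fun c => by
    have := (lsub b : P r →ₐ[ℂ] P m).commutes c
    exact this
  have hφX : ∀ i, φ (MvPolynomial.X i) = ∑ k, MvPolynomial.C (b i k : ℂ) * MvPolynomial.X k := fun i => by
    show (lsub b : P r →ₐ[ℂ] P m) (MvPolynomial.X i) = _
    rw [lsub, MvPolynomial.aeval_X]
  have hsym : IsSym (fun i j => (MvPolynomial.C ((A i j : ℚ) : ℂ) : P m)) (fun i => MvPolynomial.C (Q i))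
      (fun i => ∑ k, MvPolynomial.C (b i k : ℂ) * MvPolynomial.X k)
      (fun i => PowerSeries.map φ (q i)) (fun i => PowerSeries.map φ (Uu V i)) := by
    have h2 := h.sym.map φ
    simp only [hφC, hφX] at h2
    exact h2
  have halg : ∀ i, IsAlgebraic (TT m) (PowerSeries.map φ (q i)) := fun i => alg_q b hsym h0 h1 hd i
  have hCalg : ∀ c : ℂ, IsAlgebraic (TT m) (PowerSeries.C (MvPolynomial.C c) : PowerSeries (P m)) :=
    fun c => by
      have h2 : (PowerSeries.C (MvPolynomial.C c) : PowerSeries (P m)) ∈ TT m := by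
        have h3 := (TT m).algebraMap_mem c
        rw [PowerSeries.algebraMap_apply, MvPolynomial.algebraMap_eq] at h3
        exact h3
      exact isAlgebraic_algebraMap (A := PowerSeries (P m)) (⟨_, h2⟩ : TT m)
  set M' : Matrix (Fin r) (Fin r) (PowerSeries (P m)) := fun i j => PowerSeries.map φ (Mm V i j)
    with hM'
  set A'' : Matrix (Fin r) (Fin r) (PowerSeries (P m)) :=
    fun i j => PowerSeries.C (MvPolynomial.C ((A i j : ℚ) : ℂ)) with hA''
  set q' : Fin r → PowerSeries (P m) := fun i => PowerSeries.map φ (q i) with hq'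
  have hmm : ∀ i j, q' i * M' i j + (1 - q' i) * (∑ l, A'' i l * M' l j -
      (if i = j then 1 else 0)) = 0 := by
    intro i j
    have h2 := congrArg (PowerSeries.map φ) (h.mm i j)
    simp only [map_add, map_mul, map_sub, map_one, map_sum, map_zero, PowerSeries.map_C,
      Matrix.map_apply, hφC] at h2
    have h3 : (PowerSeries.C (φ (if i = j then 1 else 0)) : PowerSeries (P m)) =
        (if i = j then 1 else 0) := by
      split_ifs
      · rw [map_one, map_one]
      · rw [map_zero, map_zero]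
    rw [h3] at h2
    exact h2
  have hdet : (Jm A'' q').det ≠ 0 := by
    intro hz
    have h2 := Jm_map (PowerSeries.constantCoeff (R := P m)) A'' q'
    rw [hz, map_zero] at h2
    have h3 : (fun i => PowerSeries.constantCoeff (q' i)) = fun i => MvPolynomial.C (Q i) :=
      funext hsym.q0
    have h4 : (fun i j => PowerSeries.constantCoeff (A'' i j)) =
        fun i j => (MvPolynomial.C ((A i j : ℚ) : ℂ) : P m) := by
      funext i j
      exact PowerSeries.constantCoeff_C _
    have h5 := Jm_map (MvPolynomial.C : ℂ →+* P m) (A.map fun x : ℚ => (x : ℂ)) Q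
    rw [h3, h4] at h2
    exact hd (MvPolynomial.C_injective _ _ ((h5.symm.trans h2).trans (map_zero _).symm))
  have hM'alg : ∀ i j, IsAlgebraic (TT m) (M' i j) :=
    n35_alg (fun i j => hCalg _) halg hdet (n35_jm_mul A'' q' M' hmm)
  set bx : Fin r → ℂ := fun i => ∑ k, (b i k : ℂ) * x k with hbx
  set by' : Fin r → ℂ := fun i => ∑ k, (b i k : ℂ) * y k with hby
  set Φ : PowerSeries (P m) := ∑ i, ∑ j, PowerSeries.C (MvPolynomial.C (bx i * by' j)) * M' i j
    with hΦ
  have hcΦ : ∀ k, PowerSeries.coeff k Φ = n35dl x (n35dl y (lsub b (V (k + 1)))) := by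
    intro k
    have h2 : n35dl x (n35dl y (lsub b (V (k + 1)))) = φ (n35dl bx (n35dl by' (V (k + 1)))) := by
      rw [n35_chain b y, n35_chain b x]
      rfl
    have h3 : n35dl bx (n35dl by' (V (k + 1))) = ∑ i, ∑ j, MvPolynomial.C (bx i * by' j) *
        MvPolynomial.pderiv i (MvPolynomial.pderiv j (V (k + 1))) := by
      rw [n35_dl_eq bx]
      refine Finset.sum_congr rfl fun i _ => ?_
      rw [n35_dl_eq by', map_sum (MvPolynomial.pderiv i), Finset.mul_sum]
      refine Finset.sum_congr rfl fun j _ => ?_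
      rw [MvPolynomial.pderiv_C_mul, MvPolynomial.C_mul]
      rw [mul_assoc]
    rw [h2, h3, hΦ, map_sum, map_sum]
    refine Finset.sum_congr rfl fun i _ => ?_
    rw [map_sum, map_sum]
    refine Finset.sum_congr rfl fun j _ => ?_
    rw [PowerSeries.coeff_C_mul, map_mul φ, hφC]
    show _ * PowerSeries.coeff k (PowerSeries.map φ (Mm V i j)) = _
    rw [PowerSeries.coeff_map, Mm, PowerSeries.coeff_mk]
  set c0 : ℂ := MvPolynomial.eval θ (PowerSeries.coeff 0 Φ) with hc0
  have hΨ : IsAlgebraic (TT m) (Φ - PowerSeries.C (MvPolynomial.C c0)) := by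
    set S := Subalgebra.algebraicClosure (TT m) (PowerSeries (P m)) with hS
    have h2 : Φ ∈ S := S.sum_mem fun i _ => S.sum_mem fun j _ => S.mul_mem (hCalg _) (hM'alg i j)
    exact S.sub_mem h2 (hCalg c0)
  have hz' : PowerSeries.map (MvPolynomial.eval θ) (Φ - PowerSeries.C (MvPolynomial.C c0)) = 0 := by
    ext k
    rw [PowerSeries.coeff_map, map_sub, PowerSeries.coeff_C, map_sub]
    rcases Nat.eq_zero_or_pos k with rfl | hk'
    · rw [if_pos rfl, MvPolynomial.eval_C, ← hc0, sub_self, map_zero]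
    · rw [if_neg hk'.ne', map_zero, sub_zero, hcΦ, map_zero]
      exact hz k hk'
  have hv := vanish hθ hΨ hz'
  rw [← hcΦ k, sub_eq_zero.mp hv, PowerSeries.coeff_C, if_neg (by omega)]

theorem exists_int_zero {A : Matrix (Fin r) (Fin r) ℚ} {Q : Fin r → ℝ} {V : ℕ → P r}
    {q : Fin r → PowerSeries (P r)} (h : IsTop (A.map fun x : ℚ => (x : ℂ)) (vC Q) V q)
    (h0 : ∀ i, 0 < Q i) (h1 : ∀ i, Q i < 1)
    (hd : (Jm (A.map fun x : ℚ => (x : ℂ)) (vC Q)).det ≠ 0) {β : Fin r → ℂ} (hne : β ≠ 0)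
    (hβ : ∀ k, 2 ≤ k → MvPolynomial.eval β (V k) = 0) :
    ∃ v : Fin r → ℤ, v ≠ 0 ∧ ∀ k, 2 ≤ k → MvPolynomial.eval (fun i => (v i : ℂ)) (V k) = 0 := by
  have h0' : ∀ i, vC Q i ≠ 0 := by
    intro i hi
    have h2 : (Q i : ℂ) = 0 := hi
    exact (h0 i).ne' (Complex.ofReal_eq_zero.1 h2)
  have h1' : ∀ i, vC Q i ≠ 1 := by
    intro i hi
    have h2 : (Q i : ℂ) = 1 := hi
    exact (h1 i).ne (Complex.ofReal_eq_one.1 h2)
  obtain ⟨m, θ, b, hθ, hθβ, -⟩ := exists_basis β
  have hhom : ∀ k, (lsub b (V (k + 1))).IsHomogeneous (k + 2) := by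
    intro k
    have h2 := (h.hom (k + 1)).aeval (fun i => ∑ k, MvPolynomial.C (b i k : ℂ) * MvPolynomial.X k)
      (n := 1) (fun i => MvPolynomial.IsHomogeneous.sum _ _ _ fun k _ => by
        have h3 := (MvPolynomial.isHomogeneous_C (Fin m) (b i k : ℂ)).mul
          (MvPolynomial.isHomogeneous_X ℂ k)
        rwa [zero_add] at h3)
    rw [one_mul] at h2
    exact h2
  have hθ0 : ∀ k, 1 ≤ k → MvPolynomial.eval θ (lsub b (V (k + 1))) = 0 := by
    intro k hk
    rw [n35_eval_lsub b hθβ]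
    exact hβ (k + 1) (by omega)
  -- the first step
  have s0 : ∀ k, 1 ≤ k → n35dl θ (n35dl θ (lsub b (V (k + 1)))) = 0 := by
    intro k hk
    refine n35_van h h0' h1' hd b hθ θ θ (fun k hk => ?_) hk
    rw [n35_euler (n35_hom (hhom k) θ), n35_euler (hhom k), hθ0 k hk, mul_zero, mul_zero]
  -- the second step
  have s1 : ∀ y : Fin m → ℂ, ∀ k, 1 ≤ k → n35dl θ (n35dl y (lsub b (V (k + 1)))) = 0 := by
    intro y k hk
    refine n35_van h h0' h1' hd b hθ θ y (fun k hk => ?_) hk
    have h2 := n35_euler (n35_hom (n35_hom (hhom k) y) θ) θ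
    rw [n35_dl_comm θ y, n35_dl_comm θ y, s0 k hk, map_zero, map_zero] at h2
    have h3 : (k : ℂ) ≠ 0 := Nat.cast_ne_zero.2 (by omega)
    rw [n35_dl_comm θ y]
    exact (mul_eq_zero.1 h2.symm).resolve_left h3
  -- the third step
  have s2 : ∀ x y : Fin m → ℂ, ∀ k, 1 ≤ k → n35dl x (n35dl y (lsub b (V (k + 1)))) = 0 := by
    intro x y k hk
    refine n35_van h h0' h1' hd b hθ x y (fun k hk => ?_) hk
    have h2 := n35_euler (n35_hom (n35_hom (hhom k) y) x) θ
    rw [n35_dl_comm θ x, s1 y k hk, map_zero, map_zero] at h2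
    have h3 : (k : ℂ) ≠ 0 := Nat.cast_ne_zero.2 (by omega)
    exact (mul_eq_zero.1 h2.symm).resolve_left h3
  have s3 : ∀ x : Fin m → ℂ, ∀ k, 1 ≤ k → MvPolynomial.eval x (lsub b (V (k + 1))) = 0 := by
    intro x k hk
    have h2 := n35_euler (n35_hom (hhom k) x) x
    rw [s2 x x k hk, map_zero, n35_euler (hhom k)] at h2
    have h3 : ((k + 1 : ℕ) : ℂ) ≠ 0 := Nat.cast_ne_zero.2 (by omega)
    have h4 : ((k + 2 : ℕ) : ℂ) ≠ 0 := Nat.cast_ne_zero.2 (by omega)
    exact (mul_eq_zero.1 ((mul_eq_zero.1 h2.symm).resolve_left h3)).resolve_left h4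
  -- a column of `b` which is not zero
  obtain ⟨k0, hk0⟩ : ∃ k0, (fun i => b i k0) ≠ 0 := by
    by_contra hc
    push Not at hc
    refine hne (funext fun i => ?_)
    rw [hθβ i]
    refine Finset.sum_eq_zero fun k _ => ?_
    have h2 : b i k = 0 := congrFun (hc k) i
    rw [h2, Int.cast_zero, zero_mul]
  refine ⟨fun i => b i k0, hk0, fun k hk => ?_⟩
  obtain ⟨k', rfl⟩ : ∃ k', k = k' + 1 := ⟨k - 1, by omega⟩
  have h2 : ∀ i, ((b i k0 : ℤ) : ℂ) = ∑ l, (b i l : ℂ) * (Pi.single k0 1 : Fin m → ℂ) l := by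
    intro i
    rw [Finset.sum_eq_single k0]
    · rw [Pi.single_eq_same, mul_one]
    · intro l _ hl
      rw [Pi.single_eq_of_ne hl, mul_zero]
    · intro hi
      exact absurd (Finset.mem_univ k0) hi
  rw [← n35_eval_lsub b h2]
  exact s3 _ k' (by omega)

end Pool.Agent.Lib.MP_8ce23f_nt.RR
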