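import Pool.Agent.Lib.MP_8ce23f_nt.RR.N30
import Pool.Agent.Lib.MP_8ce23f_nt.RR.N19
import Pool.Agent.Lib.MP_8ce23f_nt.RR.N20
import Pool.Agent.Lib.MP_8ce23f_nt.RR.N35
import Pool.Agent.Lib.MP_8ce23f_nt.RR.N36

/-!
# A common zero of the top forms gives a flat direction

`exists_int_zero`, `exists_path`, `const_speed`, `quadratic`, `lin_zero`; a flat direction makes
the charge split (`splits_of_quadratic`).
-/

namespace Pool.Agent.Lib.MP_8ce23f_nt.RR

variable {r : ℕ}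

theorem toC_toR (A : Matrix (Fin r) (Fin r) ℚ) : toC (toR A) = A.map fun x : ℚ => (x : ℂ) := by
  ext i j
  simp [toC, toR]

theorem flat_of_zero {A : Matrix (Fin r) (Fin r) ℚ}
    (hA : (A.map fun x : ℚ => (x : ℝ)).PosDef) {Q : Fin r → ℝ}
    (h0 : ∀ i, 0 < Q i) (h1 : ∀ i, Q i < 1)
    (hQ : IsSol (A.map fun x : ℚ => (x : ℝ)) 0 fun i => -Real.log (Q i))
    {V : ℕ → P r} {q : Fin r → PowerSeries (P r)}
    (h : IsTop (A.map fun x : ℚ => (x : ℂ)) (vC Q) V q)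
    (hd : (Jm (A.map fun x : ℚ => (x : ℂ)) (vC Q)).det ≠ 0) {β : Fin r → ℂ} (hne : β ≠ 0)
    (hβ : ∀ k, 2 ≤ k → MvPolynomial.eval β (V k) = 0) :
    Flat (A.map fun x : ℚ => (x : ℝ)) := by
  obtain ⟨v, hv0, hv⟩ := exists_int_zero h h0 h1 hd hne hβ
  have hvC : vC (fun i => (v i : ℝ)) = fun i => (v i : ℂ) := by
    funext i
    simp [vC]
  rw [← hvC] at hv
  obtain ⟨y, hy, han⟩ := exists_path hA fun i => (v i : ℝ)
  have hC := toC_toR A
  obtain ⟨c, hc⟩ := const_speed hA h0 hQ (V := V) (q := q) (by rw [← hC] at h; exact h)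
    (by rw [← hC] at hd; exact hd) hv hy han
  obtain ⟨c₁, c₂, hq⟩ := quadratic hA hy han hc
  have h2 := lin_zero hA hq
  refine ⟨v, hv0, c₂, fun s => ?_⟩
  have h3 := hq s
  rw [h2, zero_mul, add_zero] at h3
  exact h3

theorem splits_of_flat {A : Matrix (Fin r) (Fin r) ℝ} (hA : A.PosDef) (h : Flat A) :
    Splits A := by
  obtain ⟨v, hv0, c, hq⟩ := h
  refine splits_of_quadratic hA (v := fun i => (v i : ℝ)) (fun h0 => hv0 ?_) (c₁ := 0) (c₂ := c)
    fun s => ?_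
  · funext i
    have h1 := congrFun h0 i
    simpa using h1
  · rw [zero_mul, add_zero]
    exact hq s

end Pool.Agent.Lib.MP_8ce23f_nt.RR
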