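import Pool.Agent.Lib.MP_8ce23f_nt.RR.Reg

/-!
# A uniform number of equations suffices

`V (D i) k` is the component of degree `k + 1` of `D i k - C (coeff 0 (D i k))`; the basis theorem
in `UP r`.
-/

open Filter Topology Asymptotics MeasureTheory
open scoped Real

namespace Pool.Agent.Lib.MP_8ce23f_nt.RR

open Pool.Agent.Lib.MP_8ce23f_nt.R2 (rp Asy E2 Lam LamR Xi)

variable {r : ℕ}

/-- evaluation of the parameters and of the variables -/
private noncomputable def Noeth_ev (ϖ : Par r) (z : Fin r → ℂ) : UP r →+* ℂ :=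
  MvPolynomial.eval₂Hom (MvPolynomial.eval ϖ) z

private theorem Noeth_ev_eq (ϖ : Par r) (z : Fin r → ℂ) (F : UP r) :
    Noeth_ev ϖ z F = MvPolynomial.eval z (spec ϖ F) := by
  unfold spec
  rw [MvPolynomial.eval_map]
  rfl

private theorem Noeth_regV {ι : Type*} {ϖ : ι → Par r} {D : ι → ℕ → P r} {k : ℕ}
    (h : Reg ϖ (fun i => D i k - MvPolynomial.C (MvPolynomial.coeff 0 (D i k)))) :
    Reg ϖ (fun i => V (D i) k) := by
  have h1 := h.hom (k + 1)
  refine Eq.mp (congrArg (Reg ϖ) (funext fun i => ?_)) h1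
  show _ = MvPolynomial.homogeneousComponent (k + 1) (D i k)
  rw [map_sub, MvPolynomial.homogeneousComponent_of_mem (MvPolynomial.isHomogeneous_C _ _),
    if_neg (by omega), sub_zero]

theorem exists_K0 {ι : Type*} {ϖ : ι → Par r} {D : ι → ℕ → P r}
    (hnd : ∀ i, MvPolynomial.eval (ϖ i) detP ≠ 0)
    (hD : ∀ k, 2 ≤ k → Reg ϖ (fun i => D i k - MvPolynomial.C (MvPolynomial.coeff 0 (D i k)))) :
    ∃ K : ℕ, ∀ i (β : Fin r → ℂ),
      (∀ k, 2 ≤ k → k ≤ K → MvPolynomial.eval β (V (D i) k) = 0) →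
      ∀ k, 2 ≤ k → MvPolynomial.eval β (V (D i) k) = 0 := by
  have hD' : ∀ n : ℕ, Reg ϖ (fun i => V (D i) (n + 2)) :=
    fun n => Noeth_regV (hD (n + 2) (by omega))
  choose e F hF using hD'
  have hG : ∀ n i (z : Fin r → ℂ), Noeth_ev (ϖ i) z (F n) =
      MvPolynomial.eval (ϖ i) detP ^ e n * MvPolynomial.eval z (V (D i) (n + 2)) := by
    intro n i z
    rw [Noeth_ev_eq, ← hF n i, map_mul, MvPolynomial.eval_C]
  let J : ℕ →o Ideal (UP r) :=
    { toFun := fun n => Ideal.span (F '' {m | m ≤ n})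
      monotone' := fun a b hab => Ideal.span_mono
        (Set.image_mono (fun m (hm : m ≤ a) => le_trans hm hab)) }
  obtain ⟨N, hN⟩ := monotone_stabilizes_iff_noetherian.2
    (inferInstance : IsNoetherian (UP r) (UP r)) J
  refine ⟨N + 2, fun i z h k hk => ?_⟩
  obtain ⟨m, rfl⟩ : ∃ m, k = m + 2 := ⟨k - 2, by omega⟩
  by_cases hm : m ≤ N
  · exact h (m + 2) (by omega) (by omega)
  · have h1 : F m ∈ J m := Ideal.subset_span ⟨m, le_refl m, rfl⟩
    have h2 : J N = J m := hN m (by omega)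
    rw [← h2] at h1
    have h3 : J N ≤ RingHom.ker (Noeth_ev (ϖ i) z) := by
      refine Ideal.span_le.2 ?_
      rintro _ ⟨a, ha, rfl⟩
      have ha' : a ≤ N := ha
      show Noeth_ev (ϖ i) z (F a) = 0
      rw [hG, h (a + 2) (by omega) (by omega), mul_zero]
    have h4 : Noeth_ev (ϖ i) z (F m) = 0 := h3 h1
    rw [hG] at h4
    rcases mul_eq_zero.1 h4 with h5 | h5
    · exact absurd h5 (pow_ne_zero _ (hnd i))
    · exact h5

end Pool.Agent.Lib.MP_8ce23f_nt.RR
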