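import Pool.Agent.Lib.MP_8ce23f_nt.RR.RegInv

/-!
# The polynomials `D k` depend polynomially on the parameters

As `R2/RegD.lean`, for every rank.
-/

open Filter Topology Asymptotics MeasureTheory
open scoped Real

namespace Pool.Agent.Lib.MP_8ce23f_nt.RR

open Pool.Agent.Lib.MP_8ce23f_nt.R2 (rp Asy E2 Lam LamR Xi)

variable {r : ℕ}

variable {ι : Type*} {ϖ : ι → Par r}

theorem RegD_congr {f f' : ι → P r} (h : Reg ϖ f) (hf : ∀ i, f' i = f i) : Reg ϖ f' := by
  have : f' = f := funext hf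
  rw [this]
  exact h

theorem RegD_sh_C (v : Fin r → ℂ) (c : ℂ) : sh v (MvPolynomial.C c) = MvPolynomial.C c := by
  unfold sh
  rw [MvPolynomial.aeval_C]
  rfl

theorem RegD_delta_e {D : ι → P r} (h : Reg ϖ (fun i => D i - MvPolynomial.C (MvPolynomial.coeff 0 (D i))))
    (l : Fin r) : Reg ϖ (fun i => sh (Pi.single l 1) (D i) - D i) := by
  refine RegD_congr ((h.sh_e l).sub h) (fun i => ?_)
  rw [map_sub, RegD_sh_C]
  ring

theorem RegD_delta_A {D : ι → P r} (h : Reg ϖ (fun i => D i - MvPolynomial.C (MvPolynomial.coeff 0 (D i))))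
    (l : Fin r) : Reg ϖ (fun i => sh (Apar (ϖ i) l) (D i) - D i) := by
  refine RegD_congr ((h.sh_A l).sub h) (fun i => ?_)
  rw [map_sub, RegD_sh_C]
  ring

theorem RegD_nat (n : ℕ) : Reg ϖ (fun _ => ((n : ℕ) : P r)) := by
  refine RegD_congr (Reg.Cc (ϖ := ϖ) (n : ℂ)) (fun i => ?_)
  rw [map_natCast]

theorem RegD_Q (l : Fin r) : Reg ϖ (fun i => (MvPolynomial.C (Qpar (ϖ i) l) : P r)) := by
  refine RegD_congr (Reg.C (ϖ := ϖ) (QU l)) (fun i => ?_)
  rw [eval_QU]

theorem RegD_Q' (l : Fin r) : Reg ϖ (fun i => (MvPolynomial.C (1 - Qpar (ϖ i) l) : P r)) := by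
  refine RegD_congr ((Reg.Cc (ϖ := ϖ) 1).sub (RegD_Q l)) (fun i => ?_)
  rw [map_sub]

theorem RegD_A (l : Fin r) : Reg ϖ (fun i => (MvPolynomial.C (Apar (ϖ i) l l / 2) : P r)) := by
  refine RegD_congr ((Reg.C (ϖ := ϖ) (AU l l)).mul (Reg.Cc (1 / 2))) (fun i => ?_)
  rw [eval_AU, ← map_mul]
  congr 1
  ring

/-- the data at the step `k` -/
def RegD_Claim {ι : Type*} (ϖ : ι → Par r) (D : ι → ℕ → P r) (R S : ι → Fin r → PowerSeries (P r)) (k : ℕ) : Prop :=
  (1 ≤ k → Reg ϖ (fun i => D i k - MvPolynomial.C (MvPolynomial.coeff 0 (D i k)))) ∧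
  (∀ l, Reg ϖ (fun i => PowerSeries.coeff k (R i l))) ∧
  (∀ l, Reg ϖ (fun i => PowerSeries.coeff k (S i l)))

theorem RegD_split {k : ℕ} (f : ℕ × ℕ → P r) :
    ∑ p ∈ Finset.HasAntidiagonal.antidiagonal k, f p =
      f (k, 0) + ∑ p ∈ (Finset.HasAntidiagonal.antidiagonal k).erase (k, 0), f p :=
  (Finset.add_sum_erase _ f (Finset.HasAntidiagonal.mem_antidiagonal.2 (by simp))).symm

theorem RegD_step {D : ι → ℕ → P r} {R S : ι → Fin r → PowerSeries (P r)}
    (h : ∀ i, FD (Apar (ϖ i)) (Qpar (ϖ i)) (D i) (R i) (S i)) (k : ℕ)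
    (ih : ∀ j < k, RegD_Claim ϖ D R S j) : RegD_Claim ϖ D R S k := by
  rcases Nat.eq_zero_or_pos k with rfl | hk
  · refine ⟨fun h0 => absurd h0 (by decide), fun l => ?_, fun l => ?_⟩
    · refine RegD_congr (Reg.Cc (ϖ := ϖ) 1) (fun i => ?_)
      rw [PowerSeries.coeff_zero_eq_constantCoeff_apply, (h i).R0 l, map_one]
    · refine RegD_congr (Reg.Cc (ϖ := ϖ) 1) (fun i => ?_)
      rw [PowerSeries.coeff_zero_eq_constantCoeff_apply, (h i).S0 l, map_one]
  · -- the remainders
    have hr : ∀ l : Fin r, Reg ϖ (fun i => ∑ p ∈ (Finset.HasAntidiagonal.antidiagonal k).erase (k, 0),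
        ((p.1 : P r) * (sh (Pi.single l 1) (D i p.1) - D i p.1)) * PowerSeries.coeff p.2 (R i l)) := by
      intro l
      refine Reg.sum _ (fun p hp => ?_)
      obtain ⟨hp1, hp2⟩ := Finset.mem_erase.1 hp
      have hp3 : p.1 + p.2 = k := Finset.HasAntidiagonal.mem_antidiagonal.1 hp2
      rcases Nat.eq_zero_or_pos p.1 with h0 | h0
      · refine RegD_congr (RegD_nat (ϖ := ϖ) 0) (fun i => ?_)
        rw [h0, Nat.cast_zero, zero_mul, zero_mul]
      · have hlt : p.1 < k := by
          rcases Nat.lt_or_ge p.1 k with h1 | h1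
          · exact h1
          · exact absurd (Prod.ext (by simp; omega) (by simp; omega)) hp1
        exact ((RegD_nat p.1).mul (RegD_delta_e ((ih p.1 hlt).1 h0) l)).mul ((ih p.2 (by omega)).2.1 l)
    have hs : ∀ l : Fin r, Reg ϖ (fun i => ∑ p ∈ (Finset.HasAntidiagonal.antidiagonal k).erase (k, 0),
        ((p.1 : P r) * (sh (Apar (ϖ i) l) (D i p.1) - D i p.1) -
          if p.1 = 1 then MvPolynomial.X l + MvPolynomial.C (Apar (ϖ i) l l / 2) else 0) *
          PowerSeries.coeff p.2 (S i l)) := by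
      intro l
      refine Reg.sum _ (fun p hp => ?_)
      obtain ⟨hp1, hp2⟩ := Finset.mem_erase.1 hp
      have hp3 : p.1 + p.2 = k := Finset.HasAntidiagonal.mem_antidiagonal.1 hp2
      rcases Nat.eq_zero_or_pos p.1 with h0 | h0
      · refine RegD_congr (RegD_nat (ϖ := ϖ) 0) (fun i => ?_)
        rw [h0, if_neg (by decide), Nat.cast_zero, zero_mul, sub_zero, zero_mul]
      · have hlt : p.1 < k := by
          rcases Nat.lt_or_ge p.1 k with h1 | h1
          · exact h1
          · exact absurd (Prod.ext (by simp; omega) (by simp; omega)) hp1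
        refine Reg.mul (Reg.sub ((RegD_nat p.1).mul (RegD_delta_A ((ih p.1 hlt).1 h0) l)) ?_)
          ((ih p.2 (by omega)).2.2 l)
        by_cases h1 : p.1 = 1
        · simp only [if_pos h1]
          exact (Reg.X l).add (RegD_A l)
        · simp only [if_neg h1]
          exact RegD_congr (RegD_nat (ϖ := ϖ) 0) (fun i => by simp)
    have hs' : ∀ l : Fin r, Reg ϖ (fun i => (∑ p ∈ (Finset.HasAntidiagonal.antidiagonal k).erase (k, 0),
        ((p.1 : P r) * (sh (Apar (ϖ i) l) (D i p.1) - D i p.1) -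
          if p.1 = 1 then MvPolynomial.X l + MvPolynomial.C (Apar (ϖ i) l l / 2) else 0) *
          PowerSeries.coeff p.2 (S i l)) -
          if k = 1 then MvPolynomial.X l + MvPolynomial.C (Apar (ϖ i) l l / 2) else 0) := by
      intro l
      refine (hs l).sub ?_
      by_cases h1 : k = 1
      · simp only [if_pos h1]
        exact (Reg.X l).add (RegD_A l)
      · simp only [if_neg h1]
        exact RegD_congr (RegD_nat (ϖ := ϖ) 0) (fun i => by simp)
    -- the equations
    set rr : Fin r → ι → P r := fun l i => ∑ p ∈ (Finset.HasAntidiagonal.antidiagonal k).erase (k, 0),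
        ((p.1 : P r) * (sh (Pi.single l 1) (D i p.1) - D i p.1)) * PowerSeries.coeff p.2 (R i l) with hrdef
    set s : Fin r → ι → P r := fun l i => (∑ p ∈ (Finset.HasAntidiagonal.antidiagonal k).erase (k, 0),
        ((p.1 : P r) * (sh (Apar (ϖ i) l) (D i p.1) - D i p.1) -
          if p.1 = 1 then MvPolynomial.X l + MvPolynomial.C (Apar (ϖ i) l l / 2) else 0) *
          PowerSeries.coeff p.2 (S i l)) -
          if k = 1 then MvPolynomial.X l + MvPolynomial.C (Apar (ϖ i) l l / 2) else 0 with hsdef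
    have eR : ∀ l i, (k : P r) * PowerSeries.coeff k (R i l) =
        (k : P r) * (sh (Pi.single l 1) (D i k) - D i k) + rr l i := by
      intro l i
      rw [(h i).Rθ l k, RegD_split]
      show (k : P r) * (sh (Pi.single l 1) (D i k) - D i k) * PowerSeries.coeff 0 (R i l) + _ = _
      rw [PowerSeries.coeff_zero_eq_constantCoeff_apply, (h i).R0 l, mul_one]
    have eS : ∀ l i, (k : P r) * PowerSeries.coeff k (S i l) =
        (k : P r) * (sh (Apar (ϖ i) l) (D i k) - D i k) + s l i := by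
      intro l i
      rw [(h i).Sθ l k, RegD_split]
      show ((k : P r) * (sh (Apar (ϖ i) l) (D i k) - D i k) -
        if k = 1 then MvPolynomial.X l + MvPolynomial.C (Apar (ϖ i) l l / 2) else 0) *
          PowerSeries.coeff 0 (S i l) + _ = _
      rw [PowerSeries.coeff_zero_eq_constantCoeff_apply, (h i).S0 l, mul_one, hsdef]
      ring
    have hk' : (MvPolynomial.C (1 / (k : ℂ)) : P r) * (k : P r) = 1 := by
      have hk0 : (k : ℂ) ≠ 0 := by exact_mod_cast (by omega : k ≠ 0)
      have h1 : (k : P r) = MvPolynomial.C (k : ℂ) := by rw [map_natCast]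
      rw [h1, ← map_mul, one_div, inv_mul_cancel₀ hk0, map_one]
    have efe : ∀ l i, MvPolynomial.C (Qpar (ϖ i) l) * PowerSeries.coeff k (R i l) +
        MvPolynomial.C (1 - Qpar (ϖ i) l) * PowerSeries.coeff k (S i l) = 0 := by
      intro l i
      have h1 := congrArg (PowerSeries.coeff k) ((h i).fe l)
      rw [map_add, PowerSeries.coeff_C_mul, PowerSeries.coeff_C_mul, PowerSeries.coeff_one,
        if_neg (by omega)] at h1
      exact h1
    have hD : Reg ϖ (fun i => D i k - MvPolynomial.C (MvPolynomial.coeff 0 (D i k))) := by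
      refine Reg.inv_T (m := k + 1) (fun i => (h i).deg k hk) (fun l => ?_)
      refine RegD_congr ((Reg.Cc (ϖ := ϖ) (1 / (k : ℂ))).mul
        (((RegD_Q l).mul (hr l)).add ((RegD_Q' l).mul (hs' l))).neg) (fun i => ?_)
      show _ = MvPolynomial.C (1 / (k : ℂ)) *
        -(MvPolynomial.C (Qpar (ϖ i) l) * rr l i + MvPolynomial.C (1 - Qpar (ϖ i) l) * s l i)
      have e1 : rr l i = (k : P r) * PowerSeries.coeff k (R i l) -
          (k : P r) * (sh (Pi.single l 1) (D i k) - D i k) := by rw [eR l i]; ring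
      have e2 : s l i = (k : P r) * PowerSeries.coeff k (S i l) -
          (k : P r) * (sh (Apar (ϖ i) l) (D i k) - D i k) := by rw [eS l i]; ring
      rw [e1, e2]
      have e3 := efe l i
      generalize sh (Pi.single l 1) (D i k) - D i k = a
      generalize sh (Apar (ϖ i) l) (D i k) - D i k = b
      generalize PowerSeries.coeff k (R i l) = x at *
      generalize PowerSeries.coeff k (S i l) = y at *
      generalize (MvPolynomial.C (Qpar (ϖ i) l) : P r) = q at *
      generalize (MvPolynomial.C (1 - Qpar (ϖ i) l) : P r) = q' at *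
      generalize (MvPolynomial.C (1 / (k : ℂ)) : P r) = c at *
      calc q * a + q' * b = 1 * (q * a + q' * b) := by rw [one_mul]
        _ = (c * (k : P r)) * (q * a + q' * b) := by rw [hk']
        _ = c * -(q * ((k : P r) * x - (k : P r) * a) + q' * ((k : P r) * y - (k : P r) * b)) +
            (c * (k : P r)) * (q * x + q' * y) := by ring
        _ = c * -(q * ((k : P r) * x - (k : P r) * a) + q' * ((k : P r) * y - (k : P r) * b)) := by
            rw [e3, mul_zero, add_zero]
    refine ⟨fun _ => hD, fun l => ?_, fun l => ?_⟩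
    · refine RegD_congr ((Reg.Cc (ϖ := ϖ) (1 / (k : ℂ))).mul
        (((RegD_nat k).mul (RegD_delta_e hD l)).add (hr l))) (fun i => ?_)
      show PowerSeries.coeff k (R i l) = MvPolynomial.C (1 / (k : ℂ)) *
        ((k : P r) * (sh (Pi.single l 1) (D i k) - D i k) + rr l i)
      rw [← eR l i, ← mul_assoc, hk', one_mul]
    · refine RegD_congr ((Reg.Cc (ϖ := ϖ) (1 / (k : ℂ))).mul
        (((RegD_nat k).mul (RegD_delta_A hD l)).add (hs' l))) (fun i => ?_)
      show PowerSeries.coeff k (S i l) = MvPolynomial.C (1 / (k : ℂ)) *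
        ((k : P r) * (sh (Apar (ϖ i) l) (D i k) - D i k) + s l i)
      rw [← eS l i, ← mul_assoc, hk', one_mul]

theorem reg_D {ι : Type*} {ϖ : ι → Par r} {D : ι → ℕ → P r}
    {R S : ι → Fin r → PowerSeries (P r)}
    (h : ∀ i, FD (Apar (ϖ i)) (Qpar (ϖ i)) (D i) (R i) (S i)) (k : ℕ) (hk : 1 ≤ k) :
    Reg ϖ (fun i => D i k - MvPolynomial.C (MvPolynomial.coeff 0 (D i k))) := by
  have key : ∀ k, RegD_Claim ϖ D R S k := by
    intro k
    induction k using Nat.strong_induction_on with
    | _ k ih => exact RegD_step h k ih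
  exact (key k).1 hk

end Pool.Agent.Lib.MP_8ce23f_nt.RR
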