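import Pool.Agent.Lib.MP_8ce23f_nt.RR.TMaps
import Pool.Agent.Lib.MP_8ce23f_nt.RR.Degree

/-!
# The symbol equations

`q i = C (C (Q i)) * T0 (R i)`, `1 - q i = C (C (1 - Q i)) * T0 (S i)`;
`θ (T0 (R i)) = X * Uu (V D) i * T0 (R i)`,
`θ (T0 (S i)) = X * (∑ l, C (C (A i l)) * Uu (V D) l - C (X i)) * T0 (S i)`.
-/

open Filter Topology Asymptotics MeasureTheory
open scoped Real

namespace Pool.Agent.Lib.MP_8ce23f_nt.RR

open Pool.Agent.Lib.MP_8ce23f_nt.R2 (rp Asy E2 Lam LamR Xi)

variable {r : ℕ}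

private theorem Symbol_pderiv_comm (i j : Fin r) (p : P r) :
    MvPolynomial.pderiv i (MvPolynomial.pderiv j p) = MvPolynomial.pderiv j (MvPolynomial.pderiv i p) := by
  have h : ⁅(MvPolynomial.pderiv i : Derivation ℂ (P r) (P r)),
      (MvPolynomial.pderiv j : Derivation ℂ (P r) (P r))⁆ = 0 := by
    apply MvPolynomial.derivation_ext
    intro k
    rw [Derivation.commutator_apply, MvPolynomial.pderiv_X, MvPolynomial.pderiv_X, Pi.single_apply,
      Pi.single_apply]
    split_ifs <;> simp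
  have h2 := congrArg (fun d : Derivation ℂ (P r) (P r) => d p) h
  simp only [Derivation.commutator_apply] at h2
  exact sub_eq_zero.1 h2

/-- the logarithmic derivative -/
private noncomputable def Symbol_W (D : ℕ → P r) (v : Fin r → ℂ) (c : P r) : PowerSeries (P r) :=
  PowerSeries.mk fun k => (k : P r) * (sh v (D k) - D k) - if k = 1 then c else 0

/-- the top symbol of the logarithm -/
private noncomputable def Symbol_g0 (D : ℕ → P r) (v : Fin r → ℂ) (c : P r) : PowerSeries (P r) :=
  PowerSeries.mk fun k => if k = 0 then 0 else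
    (∑ l, MvPolynomial.C (v l) * MvPolynomial.pderiv l (V D k)) -
      if k = 1 then MvPolynomial.homogeneousComponent 1 c else 0

private theorem Symbol_totalDegree_natCast_mul (k : ℕ) (p : P r) :
    ((k : P r) * p).totalDegree ≤ p.totalDegree := by
  have h : (k : P r) * p = MvPolynomial.C (k : ℂ) * p := by
    rw [map_natCast]
  rw [h]
  refine (MvPolynomial.totalDegree_mul _ _).trans ?_
  rw [MvPolynomial.totalDegree_C, zero_add]

private theorem Symbol_hom_natCast_mul (k n : ℕ) (p : P r) :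
    MvPolynomial.homogeneousComponent n ((k : P r) * p) =
      (k : P r) * MvPolynomial.homogeneousComponent n p := by
  have h : ∀ p : P r, (k : P r) * p = MvPolynomial.C (k : ℂ) * p := by
    intro p
    rw [map_natCast]
  rw [h, h, MvPolynomial.homogeneousComponent_C_mul]

private theorem Symbol_W_WB {D : ℕ → P r} (hD : ∀ k : ℕ, 1 ≤ k → (D k).totalDegree ≤ k + 1)
    (v : Fin r → ℂ) {c : P r} (hc : c.totalDegree ≤ 1) : WB (Symbol_W D v c) := by
  intro k
  rw [Symbol_W, PowerSeries.coeff_mk]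
  refine (MvPolynomial.totalDegree_sub _ _).trans (max_le ?_ ?_)
  · rcases Nat.eq_zero_or_pos k with hk | hk
    · subst hk
      simp
    · exact (Symbol_totalDegree_natCast_mul _ _).trans (totalDegree_sh_sub_le v (hD k hk))
  · split_ifs with h1
    · rw [h1]; exact hc
    · simp

private theorem Symbol_g0_zero (D : ℕ → P r) (v : Fin r → ℂ) (c : P r) :
    PowerSeries.constantCoeff (Symbol_g0 D v c) = 0 := by
  rw [← PowerSeries.coeff_zero_eq_constantCoeff_apply, Symbol_g0, PowerSeries.coeff_mk]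
  simp

private theorem Symbol_T0W {D : ℕ → P r} (hD : ∀ k : ℕ, 1 ≤ k → (D k).totalDegree ≤ k + 1)
    (v : Fin r → ℂ) (c : P r) : T0 (Symbol_W D v c) = θ (Symbol_g0 D v c) := by
  ext1 k
  rw [coeff_θ, T0, Symbol_W, Symbol_g0, PowerSeries.coeff_mk, PowerSeries.coeff_mk,
    PowerSeries.coeff_mk, map_sub, Symbol_hom_natCast_mul]
  rcases Nat.eq_zero_or_pos k with hk | hk
  · subst hk
    simp
  · rw [hom_shift₁ (hD k hk), if_neg (Nat.pos_iff_ne_zero.1 hk), mul_sub]
    congr 1
    split_ifs with h1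
    · subst h1
      simp
    · simp

private theorem Symbol_θ_mul (a b : PowerSeries (P r)) : θ (a * b) = a * θ b + b * θ a := by
  rw [θ, θ, θ, Derivation.leibniz, smul_eq_mul, smul_eq_mul]
  ring

private theorem Symbol_θ_sub (a b : PowerSeries (P r)) : θ (a - b) = θ a - θ b := by
  rw [θ, θ, θ, map_sub, mul_sub]

private theorem Symbol_dc_const {l : Fin r} {y : PowerSeries (P r)} {z : ℂ}
    (h : PowerSeries.constantCoeff y = MvPolynomial.C z) :
    PowerSeries.constantCoeff (dc l y) = 0 := by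
  rw [← PowerSeries.coeff_zero_eq_constantCoeff_apply, dc, PowerSeries.coeff_mk,
    PowerSeries.coeff_zero_eq_constantCoeff_apply, h, MvPolynomial.pderiv_C]

private theorem Symbol_T0_const {R : PowerSeries (P r)} (h : PowerSeries.constantCoeff R = 1) :
    PowerSeries.constantCoeff (T0 R) = 1 := by
  rw [← PowerSeries.coeff_zero_eq_constantCoeff_apply, T0, PowerSeries.coeff_mk,
    PowerSeries.coeff_zero_eq_constantCoeff_apply, h, MvPolynomial.homogeneousComponent_zero]
  simp

private theorem Symbol_ode0 {R W : PowerSeries (P r)} {g0 : PowerSeries (P r)} (hR : WB R)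
    (hW : WB W) (h : θ R = W * R) (h0 : T0 W = θ g0) : θ (T0 R) = θ g0 * T0 R := by
  rw [← T0_θ, h, T0_mul hW hR, h0]

private theorem Symbol_θ_const (y : PowerSeries (P r)) : PowerSeries.constantCoeff (θ y) = 0 := by
  rw [← PowerSeries.coeff_zero_eq_constantCoeff_apply, coeff_θ]
  simp

private theorem Symbol_dc0 {R W : PowerSeries (P r)} {g0 : PowerSeries (P r)} (hR : WB R)
    (hW : WB W) (hc : PowerSeries.constantCoeff R = 1) (hg : PowerSeries.constantCoeff g0 = 0)
    (h : θ R = W * R) (h0 : T0 W = θ g0) (j : Fin r) : dc j (T0 R) = T0 R * dc j g0 := by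
  have h1 := Symbol_ode0 hR hW h h0
  have hdc : dc j (θ (T0 R)) = θ g0 * dc j (T0 R) + θ (dc j g0) * T0 R := by
    rw [h1, dc_mul, dc_θ]
  rw [dc_θ] at hdc
  have hy : θ (dc j (T0 R) - T0 R * dc j g0) = θ g0 * (dc j (T0 R) - T0 R * dc j g0) := by
    rw [Symbol_θ_sub, Symbol_θ_mul, hdc, h1]
    ring
  have hz : PowerSeries.constantCoeff (dc j (T0 R) - T0 R * dc j g0) = 0 := by
    rw [map_sub, map_mul, Symbol_dc_const (z := 1) (by rw [Symbol_T0_const hc, map_one]),
      Symbol_dc_const (z := 0) (by rw [hg, map_zero]), mul_zero, sub_zero]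
  exact sub_eq_zero.1 (ode_unique (Symbol_θ_const g0) hz hy)

private theorem Symbol_X_cancel {a b : PowerSeries (P r)}
    (h : PowerSeries.X * a = PowerSeries.X * b) : a = b :=
  mul_left_cancel₀ PowerSeries.X_ne_zero h

/-- the derivative of the logarithm -/
private theorem Symbol_der_g0 (D : ℕ → P r) (v : Fin r → ℂ) (c : P r) :
    PowerSeries.derivative (P r) (Symbol_g0 D v c) =
      (∑ l, PowerSeries.C (MvPolynomial.C (v l)) * Uu (V D) l) -
        PowerSeries.C (MvPolynomial.homogeneousComponent 1 c) := by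
  ext1 k
  rw [PowerSeries.coeff_derivative, Symbol_g0, PowerSeries.coeff_mk,
    if_neg (Nat.succ_ne_zero k), map_sub, map_sum, sub_mul, Finset.sum_mul]
  congr 1
  · refine Finset.sum_congr rfl fun l _ => ?_
    rw [PowerSeries.coeff_C_mul, Uu, PowerSeries.coeff_mk]
    ring
  · rw [PowerSeries.coeff_C]
    rcases Nat.eq_zero_or_pos k with hk | hk
    · subst hk
      simp
    · rw [if_neg (by omega), if_neg (by omega)]
      simp

private theorem Symbol_dcg0 (D : ℕ → P r) (v : Fin r → ℂ) (c : P r) (j : Fin r) :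
    dc j (Symbol_g0 D v c) =
      PowerSeries.X * ((∑ l, PowerSeries.C (MvPolynomial.C (v l)) * Mm (V D) l j) -
        PowerSeries.C (MvPolynomial.pderiv j (MvPolynomial.homogeneousComponent 1 c))) := by
  ext1 k
  rw [dc, PowerSeries.coeff_mk, Symbol_g0, PowerSeries.coeff_mk]
  rcases k with _ | k
  · simp
  · rw [if_neg (Nat.succ_ne_zero k), PowerSeries.coeff_succ_X_mul, map_sub, map_sub,
      map_sum, map_sum]
    congr 1
    · refine Finset.sum_congr rfl fun l _ => ?_
      rw [MvPolynomial.pderiv_C_mul, PowerSeries.coeff_C_mul, Mm,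
        PowerSeries.coeff_mk, Symbol_pderiv_comm]
    · rw [PowerSeries.coeff_C]
      rcases Nat.eq_zero_or_pos k with hk | hk
      · subst hk
        simp
      · rw [if_neg (by omega), if_neg (by omega)]
        simp

private theorem Symbol_θR {A : Matrix (Fin r) (Fin r) ℂ} {Q : Fin r → ℂ} {D : ℕ → P r}
    {R S : Fin r → PowerSeries (P r)} (h : FD A Q D R S) (i : Fin r) :
    θ (R i) = Symbol_W D (Pi.single i 1) 0 * R i := by
  ext1 k
  rw [coeff_θ, h.Rθ, PowerSeries.coeff_mul]
  refine Finset.sum_congr rfl fun p _ => ?_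
  rw [Symbol_W, PowerSeries.coeff_mk, ite_self, sub_zero]

private theorem Symbol_θS {A : Matrix (Fin r) (Fin r) ℂ} {Q : Fin r → ℂ} {D : ℕ → P r}
    {R S : Fin r → PowerSeries (P r)} (h : FD A Q D R S) (i : Fin r) :
    θ (S i) = Symbol_W D (A i) (MvPolynomial.X i + MvPolynomial.C (A i i / 2)) * S i := by
  ext1 k
  rw [coeff_θ, h.Sθ, PowerSeries.coeff_mul]
  refine Finset.sum_congr rfl fun p _ => ?_
  rw [Symbol_W, PowerSeries.coeff_mk]

private theorem Symbol_cdeg (i : Fin r) (z : ℂ) :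
    (MvPolynomial.X i + MvPolynomial.C z : P r).totalDegree ≤ 1 := by
  refine (MvPolynomial.totalDegree_add _ _).trans (max_le ?_ ?_)
  · rw [MvPolynomial.totalDegree_X]
  · rw [MvPolynomial.totalDegree_C]; exact Nat.zero_le _

private theorem Symbol_chom1 (i : Fin r) (z : ℂ) :
    MvPolynomial.homogeneousComponent 1 (MvPolynomial.X i + MvPolynomial.C z : P r) =
      MvPolynomial.X i := by
  rw [map_add, MvPolynomial.homogeneousComponent_eq_self (MvPolynomial.isHomogeneous_X ℂ i),
    MvPolynomial.homogeneousComponent_eq_zero 1 (MvPolynomial.C z : P r)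
      (by rw [MvPolynomial.totalDegree_C]; exact Nat.one_pos), add_zero]

private theorem Symbol_single (f : Fin r → PowerSeries (P r)) (i : Fin r) :
    ∑ l, PowerSeries.C (MvPolynomial.C ((Pi.single i 1 : Fin r → ℂ) l)) * f l = f i := by
  rw [Finset.sum_eq_single i]
  · rw [Pi.single_eq_same, map_one, map_one, one_mul]
  · intro b _ hb
    rw [Pi.single_eq_of_ne hb, map_zero, map_zero, zero_mul]
  · intro hi
    exact absurd (Finset.mem_univ i) hi

theorem top_T0 {A : Matrix (Fin r) (Fin r) ℂ} {Q : Fin r → ℂ} {D : ℕ → P r}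
    {R S : Fin r → PowerSeries (P r)} (h : FD A Q D R S) :
    IsTop A Q (V D) (fun i => PowerSeries.C (MvPolynomial.C (Q i)) * T0 (R i)) ∧
      ∀ i j, dc j (T0 (R i)) = T0 (R i) * (PowerSeries.X * Mm (V D) i j) := by
  have hWR : ∀ i, WB (R i) := fun i k => h.Rdeg i k
  have hWS : ∀ i, WB (S i) := fun i k => h.Sdeg i k
  have hWr : ∀ i : Fin r, WB (Symbol_W D (Pi.single i 1) 0) := fun i =>
    Symbol_W_WB h.deg _ (by simp)
  have hWs : ∀ i : Fin r, WB (Symbol_W D (A i) (MvPolynomial.X i + MvPolynomial.C (A i i / 2))) :=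
    fun i => Symbol_W_WB h.deg _ (Symbol_cdeg i _)
  have odeR : ∀ i, θ (T0 (R i)) = θ (Symbol_g0 D (Pi.single i 1) 0) * T0 (R i) := fun i =>
    Symbol_ode0 (hWR i) (hWr i) (Symbol_θR h i) (Symbol_T0W h.deg _ _)
  have odeS : ∀ i, θ (T0 (S i)) =
      θ (Symbol_g0 D (A i) (MvPolynomial.X i + MvPolynomial.C (A i i / 2))) * T0 (S i) := fun i =>
    Symbol_ode0 (hWS i) (hWs i) (Symbol_θS h i) (Symbol_T0W h.deg _ _)
  have dcR : ∀ i j, dc j (T0 (R i)) = T0 (R i) * dc j (Symbol_g0 D (Pi.single i 1) 0) :=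
    fun i j => Symbol_dc0 (hWR i) (hWr i) (h.R0 i) (Symbol_g0_zero _ _ _) (Symbol_θR h i)
      (Symbol_T0W h.deg _ _) j
  have dcS : ∀ i j, dc j (T0 (S i)) = T0 (S i) *
      dc j (Symbol_g0 D (A i) (MvPolynomial.X i + MvPolynomial.C (A i i / 2))) :=
    fun i j => Symbol_dc0 (hWS i) (hWs i) (h.S0 i) (Symbol_g0_zero _ _ _) (Symbol_θS h i)
      (Symbol_T0W h.deg _ _) j
  have fe0 : ∀ i, PowerSeries.C (MvPolynomial.C (Q i)) * T0 (R i) +
      PowerSeries.C (MvPolynomial.C (1 - Q i)) * T0 (S i) = 1 := by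
    intro i
    rw [← T0_Cmul, ← T0_Cmul, ← T0_add, h.fe i, T0_one]
  have hdcC : ∀ (j : Fin r) (z : ℂ), dc j (PowerSeries.C (MvPolynomial.C z)) = 0 := by
    intro j z
    ext1 k
    rw [dc, PowerSeries.coeff_mk, PowerSeries.coeff_C]
    split_ifs
    · rw [MvPolynomial.pderiv_C, map_zero]
    · rw [map_zero, map_zero]
  have hdcadd : ∀ (j : Fin r) (y z : PowerSeries (P r)), dc j (y + z) = dc j y + dc j z := by
    intro j y z
    ext1 k
    rw [map_add, dc, dc, dc, PowerSeries.coeff_mk, PowerSeries.coeff_mk, PowerSeries.coeff_mk,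
      map_add, map_add]
  have fed : ∀ i j, PowerSeries.C (MvPolynomial.C (Q i)) * dc j (T0 (R i)) +
      PowerSeries.C (MvPolynomial.C (1 - Q i)) * dc j (T0 (S i)) = 0 := by
    intro i j
    have h1 := congrArg (dc j) (fe0 i)
    rw [hdcadd, dc_mul, dc_mul, hdcC, hdcC, zero_mul, zero_mul, add_zero, add_zero] at h1
    rw [h1]
    have h2 : (1 : PowerSeries (P r)) = PowerSeries.C (MvPolynomial.C 1) := by
      rw [map_one, map_one]
    rw [h2, hdcC]
  have hS : ∀ i, 1 - PowerSeries.C (MvPolynomial.C (Q i)) * T0 (R i) =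
      PowerSeries.C (MvPolynomial.C (1 - Q i)) * T0 (S i) := by
    intro i
    rw [← fe0 i]
    ring
  have hder : ∀ (z : P r) (y : PowerSeries (P r)),
      PowerSeries.derivative (P r) (PowerSeries.C z * y) =
        PowerSeries.C z * PowerSeries.derivative (P r) y := by
    intro z y
    rw [Derivation.leibniz, PowerSeries.derivative_C, smul_zero, add_zero, smul_eq_mul]
  have dR : ∀ i, PowerSeries.derivative (P r) (T0 (R i)) = T0 (R i) * Uu (V D) i := by
    intro i
    apply Symbol_X_cancel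
    have h1 := odeR i
    rw [θ, θ, Symbol_der_g0, Symbol_single, map_zero, map_zero, sub_zero] at h1
    rw [h1]
    ring
  have dS : ∀ i, PowerSeries.derivative (P r) (T0 (S i)) =
      T0 (S i) * (∑ l, PowerSeries.C (MvPolynomial.C (A i l)) * Uu (V D) l -
        PowerSeries.C (MvPolynomial.X i)) := by
    intro i
    apply Symbol_X_cancel
    have h1 := odeS i
    rw [θ, θ, Symbol_der_g0, Symbol_chom1] at h1
    rw [h1]
    ring
  have dq : ∀ i, PowerSeries.derivative (P r) (PowerSeries.C (MvPolynomial.C (Q i)) * T0 (R i)) =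
      PowerSeries.C (MvPolynomial.C (Q i)) * T0 (R i) * Uu (V D) i := by
    intro i
    rw [hder, dR]
    ring
  refine ⟨⟨?_, ⟨?_, ?_, ?_⟩, ?_⟩, ?_⟩
  · intro k
    exact MvPolynomial.homogeneousComponent_isHomogeneous _ _
  · intro i
    rw [map_mul, Symbol_T0_const (h.R0 i), PowerSeries.constantCoeff_C, mul_one]
  · intro i
    exact dq i
  · intro i
    rw [hS, ← dq i]
    have h1 := congrArg (PowerSeries.derivative (P r)) (fe0 i)
    rw [map_add, PowerSeries.derivative_one, hder (MvPolynomial.C (1 - Q i)), dS] at h1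
    rw [← h1]
    ring
  · intro i j
    rw [hS]
    have h1 := fed i j
    rw [dcR, dcS, Symbol_dcg0, Symbol_dcg0, Symbol_chom1, MvPolynomial.pderiv_X, Symbol_single,
      map_zero, map_zero, map_zero, sub_zero] at h1
    have h3 : (Pi.single j 1 : Fin r → P r) i = if i = j then 1 else 0 := by
      rw [Pi.single_apply]
    rw [h3] at h1
    apply Symbol_X_cancel
    rw [mul_zero]
    linear_combination h1
  · intro i j
    rw [dcR, Symbol_dcg0, Symbol_single, map_zero, map_zero, map_zero, sub_zero]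

theorem isTop_of_FD {A : Matrix (Fin r) (Fin r) ℂ} {Q : Fin r → ℂ} {D : ℕ → P r}
    {R S : Fin r → PowerSeries (P r)} (h : FD A Q D R S) :
    ∃ q : Fin r → PowerSeries (P r), IsTop A Q (V D) q :=
  ⟨_, (top_T0 h).1⟩

end Pool.Agent.Lib.MP_8ce23f_nt.RR
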