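import Pool.Agent.Lib.MP_8ce23f_nt.RR.Final
import Pool.Agent.Lib.MP_8ce23f_nt.RR.Symbol
import Pool.Agent.Lib.MP_8ce23f_nt.RR.RegD
import Pool.Agent.Lib.MP_8ce23f_nt.RR.Noeth
import Pool.Agent.Lib.MP_8ce23f_nt.RR.NahmEx
import Pool.Agent.Lib.MP_8ce23f_nt.RR.Holo
import Pool.Agent.Lib.MP_8ce23f_nt.RR.N34
import Pool.Agent.Lib.MP_8ce23f_nt.RR.N26
import Pool.Agent.Lib.MP_8ce23f_nt.RR.N27
import Pool.Agent.Lib.MP_8ce23f_nt.RR.N32

/-!
# Finiteness of the admissible vectors in every rank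
-/

namespace Pool.Agent.Lib.MP_8ce23f_nt.RR

open MvPolynomial

variable {r : ℕ}

/-- The formal data of a positive definite rational matrix. -/
structure Dat (A : Matrix (Fin r) (Fin r) ℚ) where
  Q : Fin r → ℝ
  D : ℕ → P r
  R : Fin r → PowerSeries (P r)
  S : Fin r → PowerSeries (P r)
  sol : NahmSol (A.map fun x : ℚ => (x : ℝ)) Q
  fd : FD (A.map fun x : ℚ => (x : ℂ)) (fun i => (Q i : ℂ)) D R S
  key : ∀ B B₀ : Fin r → ℚ, Admissible A B → Admissible A B₀ → ∀ k, 2 ≤ k →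
    eval (fun i => (B i : ℂ)) (D k) = eval (fun i => (B₀ i : ℂ)) (D k)

theorem exists_dat (A : Matrix (Fin r) (Fin r) ℚ) (hA : A.PosDef) : Nonempty (Dat A) := by
  obtain ⟨Q, D, R, S, h1, h2, h3⟩ := exists_formal A hA
  exact ⟨⟨Q, D, R, S, h1, h2, h3⟩⟩

/-- The matrices which are not flat. -/
abbrev NF (r : ℕ) : Type :=
  {A : Matrix (Fin r) (Fin r) ℚ // A.PosDef ∧ ¬ Flat (A.map fun x : ℚ => (x : ℝ))}

/-- A choice of formal data. -/
noncomputable def dat (A : NF r) : Dat A.1 := (exists_dat A.1 A.2.1).some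

/-- The parameters of a matrix. -/
noncomputable def par (A : NF r) : Par r :=
  Sum.elim (fun p => ((A.1 p.1 p.2 : ℚ) : ℂ)) (fun i => ((dat A).Q i : ℂ))

theorem Apar_par (A : NF r) : Apar (par A) = A.1.map fun x : ℚ => (x : ℂ) := rfl

theorem Qpar_par (A : NF r) : Qpar (par A) = fun i => ((dat A).Q i : ℂ) := rfl

theorem map_map_real (A : Matrix (Fin r) (Fin r) ℚ) :
    (Am (A.map fun x : ℚ => (x : ℝ))) = A.map fun x : ℚ => (x : ℂ) := by
  ext i j
  simp [Am]

theorem nondeg_dat (A : NF r) :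
    (Jm (A.1.map fun x : ℚ => (x : ℂ)) (vC (dat A).Q)).det ≠ 0 := by
  have h := nondeg (posDef_real A.2.1) (dat A).sol.inUnit
  rw [map_map_real] at h
  exact h

theorem nondeg_par (A : NF r) : eval (par A) detP ≠ 0 := by
  rw [← nondeg_iff, Apar_par, Qpar_par]
  exact nondeg_dat A

/-- A common zero of the top forms of positive order `≥ 2` is zero, outside the flat matrices. -/
theorem zero_of_notFlat (A : NF r) (β : Fin r → ℂ)
    (h : ∀ k, 2 ≤ k → eval β (V (dat A).D k) = 0) : β = 0 := by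
  by_contra hne
  obtain ⟨q, hq⟩ := isTop_of_FD (dat A).fd
  exact A.2.2 (flat_of_zero (posDef_real A.2.1) (dat A).sol.pos (dat A).sol.lt
    (dat A).sol.isSol hq (nondeg_dat A) hne h)

theorem exists_K (r : ℕ) : ∃ K : ℕ, ∀ (A : NF r) (β : Fin r → ℂ),
    (∀ k, 2 ≤ k → k ≤ K → eval β (V (dat A).D k) = 0) → β = 0 := by
  obtain ⟨K, hK⟩ := exists_K0 (ϖ := par (r := r)) (D := fun A => (dat A).D) nondeg_par
    fun k hk => reg_D (ϖ := par (r := r)) (D := fun A => (dat A).D) (R := fun A => (dat A).R)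
      (S := fun A => (dat A).S) (fun A => (dat A).fd) k (by omega)
  exact ⟨K, fun A β h => zero_of_notFlat A β (hK A β h)⟩

theorem cv_injective : Function.Injective fun (B : Fin r → ℚ) (i : Fin r) => (B i : ℂ) := by
  intro B B' h
  funext i
  have := congrFun h i
  simpa using this

/-- At most `N` admissible vectors for matrices which are not flat; `N` depends only on `r`. -/
theorem finite_of_notFlat (r : ℕ) : ∃ N : ℕ, ∀ A : Matrix (Fin r) (Fin r) ℚ, A.PosDef →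
    ({B : Fin r → ℚ | Admissible A B}.Finite ∧ {B : Fin r → ℚ | Admissible A B}.ncard ≤ N) ∨
    Flat (A.map fun x : ℚ => (x : ℝ)) := by
  obtain ⟨K, hK⟩ := exists_K r
  obtain ⟨d, hd⟩ := uniform_deg r K
  obtain ⟨N, hN⟩ := count r K d
  refine ⟨N, fun A hA => ?_⟩
  by_cases hF : Flat (A.map fun x : ℚ => (x : ℝ))
  · exact Or.inr hF
  left
  set A' : NF r := ⟨A, hA, hF⟩ with hA'
  rcases Set.eq_empty_or_nonempty {B : Fin r → ℚ | Admissible A B} with h0 | ⟨B₀, hB₀⟩
  · rw [h0]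
    exact ⟨Set.finite_empty, by simp⟩
  obtain ⟨h1, h2⟩ := hN (dat A').D (dat A').fd.deg
    (hd (V (dat A').D) (fun k => homogeneousComponent_isHomogeneous (k + 1) ((dat A').D k))
      (hK A')) (fun i => (B₀ i : ℂ))
  have hsub : (fun (B : Fin r → ℚ) (i : Fin r) => (B i : ℂ)) '' {B | Admissible A B} ⊆
      {z : Fin r → ℂ | ∀ k, 2 ≤ k → k ≤ K →
        eval z ((dat A').D k) = eval (fun i => (B₀ i : ℂ)) ((dat A').D k)} := by
    rintro _ ⟨B, hB, rfl⟩ k hk _
    exact (dat A').key B B₀ hB hB₀ k hk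
  have hfin : {B : Fin r → ℚ | Admissible A B}.Finite :=
    Set.Finite.of_finite_image (h1.subset hsub) cv_injective.injOn
  refine ⟨hfin, ?_⟩
  rw [← Set.ncard_image_of_injective _ (cv_injective (r := r))]
  exact (Set.ncard_le_ncard hsub h1).trans h2

/-- A flat positive definite matrix is exceptional. -/
theorem exceptional_of_flat {A : Matrix (Fin r) (Fin r) ℝ} (hA : A.PosDef) (h : Flat A) :
    Exceptional A := by
  have hS := splits_of_flat hA h
  obtain ⟨v, hv0, hv⟩ := h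
  refine ⟨⟨v, hv0, hv, fun Q hQ => prod_eq_one hA hv hQ⟩, ?_, ?_⟩
  · by_contra hlt
    exact not_splits_of_charge_lt hA (not_le.1 hlt) hS
  · obtain ⟨I, Z, h1, h2, h3, h4⟩ := hS
    exact ⟨I, Z, h1, h2, h3, h4, fun k hI hZ A' hA' hk h' =>
      thin hA' hA hk hI hZ h' h4⟩

/-- The theorem in every rank. -/
theorem finite_or_exceptional (r : ℕ) : ∃ N : ℕ, ∀ A : Matrix (Fin r) (Fin r) ℚ, A.PosDef →
    ({B : Fin r → ℚ | Admissible A B}.Finite ∧ {B : Fin r → ℚ | Admissible A B}.ncard ≤ N) ∨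
    Exceptional (A.map fun x : ℚ => (x : ℝ)) := by
  obtain ⟨N, hN⟩ := finite_of_notFlat r
  exact ⟨N, fun A hA => (hN A hA).imp_right (exceptional_of_flat (posDef_real hA))⟩

end Pool.Agent.Lib.MP_8ce23f_nt.RR
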