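import Pool.Agent.Lib.MP_8ce23f_nt.RR.NDefs

/-!
# The function `hfun`: elementary properties

`hfun y = ∑ (1 - exp (-(n+1) y)) / (n+1)²`.  Every term is between `0` and `1/(n+1)²` for `y ≥ 0`, so the
series is absolutely and uniformly convergent on `[0,∞)` (`hasSum_zeta_two`,
`continuousOn_tsum`, `tendsto_tsum_of_dominated_convergence`); it is strictly increasing since every term is.
-/

open Filter Topology

namespace Pool.Agent.Lib.MP_8ce23f_nt.RR

variable {r : ℕ}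

private theorem n01_pos (n : ℕ) : (0 : ℝ) < ((n : ℝ) + 1) ^ 2 := by positivity

private theorem n01_term_nonneg {y : ℝ} (hy : 0 ≤ y) (n : ℕ) :
    0 ≤ (1 - Real.exp (-(((n : ℝ) + 1) * y))) / ((n : ℝ) + 1) ^ 2 := by
  refine div_nonneg ?_ (n01_pos n).le
  have h1 : -(((n : ℝ) + 1) * y) ≤ 0 := by
    have : 0 ≤ ((n : ℝ) + 1) * y := by positivity
    linarith
  have h2 := Real.exp_le_one_iff.2 h1
  linarith

private theorem n01_term_le (y : ℝ) (n : ℕ) :
    (1 - Real.exp (-(((n : ℝ) + 1) * y))) / ((n : ℝ) + 1) ^ 2 ≤ 1 / ((n : ℝ) + 1) ^ 2 := by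
  refine div_le_div_of_nonneg_right ?_ (n01_pos n).le
  have := Real.exp_pos (-(((n : ℝ) + 1) * y))
  linarith

private theorem n01_hasSum : HasSum (fun n : ℕ => (1 : ℝ) / ((n : ℝ) + 1) ^ 2) (Real.pi ^ 2 / 6) := by
  have h1 := (hasSum_nat_add_iff' 1).2 hasSum_zeta_two
  have h2 : Real.pi ^ 2 / 6 - ∑ i ∈ Finset.range 1, (1 : ℝ) / ((i : ℕ) : ℝ) ^ 2 = Real.pi ^ 2 / 6 := by
    simp
  rw [h2] at h1
  have h3 : (fun n : ℕ => (1 : ℝ) / (((n + 1 : ℕ)) : ℝ) ^ 2) = fun n : ℕ => (1 : ℝ) / ((n : ℝ) + 1) ^ 2 := by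
    funext n
    push_cast
    rfl
  rw [h3] at h1
  exact h1

theorem hfun_summable {y : ℝ} (hy : 0 ≤ y) :
    Summable fun n : ℕ => (1 - Real.exp (-(((n : ℝ) + 1) * y))) / ((n : ℝ) + 1) ^ 2 := by
  exact Summable.of_nonneg_of_le (n01_term_nonneg hy) (n01_term_le y) n01_hasSum.summable

theorem hfun_zero : hfun 0 = 0 := by
  unfold hfun
  simp

theorem hfun_nonneg {y : ℝ} (hy : 0 ≤ y) : 0 ≤ hfun y := by
  exact tsum_nonneg (n01_term_nonneg hy)

theorem hfun_le {y : ℝ} (hy : 0 ≤ y) : hfun y ≤ Real.pi ^ 2 / 6 := by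
  rw [← n01_hasSum.tsum_eq]
  exact Summable.tsum_le_tsum (n01_term_le y) (hfun_summable hy) n01_hasSum.summable

theorem hfun_strictMono : StrictMonoOn hfun (Set.Ici 0) := by
  intro x hx y hy hxy
  have hlt : ∀ n : ℕ, (1 - Real.exp (-(((n : ℝ) + 1) * x))) / ((n : ℝ) + 1) ^ 2 <
      (1 - Real.exp (-(((n : ℝ) + 1) * y))) / ((n : ℝ) + 1) ^ 2 := by
    intro n
    refine div_lt_div_of_pos_right ?_ (n01_pos n)
    have h1 : ((n : ℝ) + 1) * x < ((n : ℝ) + 1) * y := mul_lt_mul_of_pos_left hxy (by positivity)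
    have h2 := Real.exp_lt_exp.2 (neg_lt_neg h1)
    linarith
  exact Summable.tsum_lt_tsum (fun n => (hlt n).le) (hlt 0) (hfun_summable hx) (hfun_summable hy)

theorem hfun_continuousOn : ContinuousOn hfun (Set.Ici 0) := by
  refine continuousOn_tsum (u := fun n : ℕ => (1 : ℝ) / ((n : ℝ) + 1) ^ 2) (fun n => ?_) n01_hasSum.summable ?_
  · have hc : Continuous fun y : ℝ => (1 - Real.exp (-(((n : ℝ) + 1) * y))) / ((n : ℝ) + 1) ^ 2 := by
      fun_prop
    exact hc.continuousOn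
  · intro n y hy
    rw [Real.norm_eq_abs, abs_of_nonneg (n01_term_nonneg hy n)]
    exact n01_term_le y n

theorem hfun_tendsto : Tendsto hfun atTop (𝓝 (Real.pi ^ 2 / 6)) := by
  rw [← n01_hasSum.tsum_eq]
  refine tendsto_tsum_of_dominated_convergence (bound := fun n : ℕ => (1 : ℝ) / ((n : ℝ) + 1) ^ 2)
    n01_hasSum.summable (fun n => ?_) ?_
  · have h1 : Tendsto (fun y : ℝ => ((n : ℝ) + 1) * y) atTop atTop :=
      Tendsto.const_mul_atTop (by positivity) tendsto_id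
    have h2 : Tendsto (fun y : ℝ => Real.exp (-(((n : ℝ) + 1) * y))) atTop (𝓝 0) :=
      Real.tendsto_exp_neg_atTop_nhds_zero.comp h1
    have h3 : Tendsto (fun y : ℝ => (1 - Real.exp (-(((n : ℝ) + 1) * y))) / ((n : ℝ) + 1) ^ 2) atTop
        (𝓝 ((1 - 0) / ((n : ℝ) + 1) ^ 2)) := (tendsto_const_nhds.sub h2).div_const _
    rw [sub_zero] at h3
    exact h3
  · filter_upwards [eventually_ge_atTop (0 : ℝ)] with y hy n
    rw [Real.norm_eq_abs, abs_of_nonneg (n01_term_nonneg hy n)]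
    exact n01_term_le y n

end Pool.Agent.Lib.MP_8ce23f_nt.RR
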