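import Pool.Agent.Lib.MP_8ce23f_nt.RR.N03

/-!
# Uniqueness, and the solution is the maximum

Uniqueness: `∑ (y_i - y'_i) (phi (y_i) - phi (y'_i)) = (y - y')ᵀ A (y - y')`; the left side is `≤ 0` as `phi` is
decreasing, the right side is `> 0` unless `y = y'` (`qd_pos`).
Maximum: `∑ hfun z_i ≤ ∑ hfun y_i + ∑ phi y_i (z_i - y_i)` (`hfun_le_tangent`), `phi y_i = x_i + (A y)_i`, and
`zᵀAz = yᵀAy + 2 (z-y)ᵀAy + (z-y)ᵀA(z-y)` (`A` symmetric).  Equality only for `z = y`.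
`Sp_eq`: `Sp A x` is the supremum, attained at `y`.
-/

namespace Pool.Agent.Lib.MP_8ce23f_nt.RR

variable {r : ℕ}

theorem n04_qd (A : Matrix (Fin r) (Fin r) ℝ) (z : Fin r → ℝ) :
    qd A z = ∑ i, z i * ∑ j, A i j * z j := by
  unfold qd
  refine Finset.sum_congr rfl fun i _ => ?_
  rw [Finset.mul_sum]
  exact Finset.sum_congr rfl fun j _ => by ring

theorem n04_symm {A : Matrix (Fin r) (Fin r) ℝ} (hA : A.PosDef) (i j : Fin r) : A i j = A j i := by
  have h := hA.isHermitian.apply i j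
  rw [star_trivial] at h
  exact h.symm

/-- `zᵀAz = yᵀAy + 2 (z-y)ᵀAy + (z-y)ᵀA(z-y)`. -/
theorem n04_expand {A : Matrix (Fin r) (Fin r) ℝ} (hA : A.PosDef) (y z : Fin r → ℝ) :
    qd A z = qd A y + 2 * ∑ i, (z i - y i) * ∑ j, A i j * y j + qd A (z - y) := by
  have h1 : ∑ i, (z i - y i) * ∑ j, A i j * y j = ∑ i, ∑ j, (z i - y i) * A i j * y j := by
    refine Finset.sum_congr rfl fun i _ => ?_
    rw [Finset.mul_sum]
    exact Finset.sum_congr rfl fun j _ => by ring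
  have h2 : ∑ i, ∑ j, (z i - y i) * A i j * y j = ∑ i, ∑ j, y i * A i j * (z j - y j) := by
    rw [Finset.sum_comm]
    refine Finset.sum_congr rfl fun i _ => Finset.sum_congr rfl fun j _ => ?_
    rw [n04_symm hA j i]
    ring
  rw [two_mul, h1]
  nth_rewrite 2 [h2]
  unfold qd
  rw [← Finset.sum_add_distrib, ← Finset.sum_add_distrib, ← Finset.sum_add_distrib]
  refine Finset.sum_congr rfl fun i _ => ?_
  rw [← Finset.sum_add_distrib, ← Finset.sum_add_distrib, ← Finset.sum_add_distrib]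
  refine Finset.sum_congr rfl fun j _ => ?_
  simp only [Pi.sub_apply]
  ring

theorem IsSol.unique {A : Matrix (Fin r) (Fin r) ℝ} (hA : A.PosDef) {x y y' : Fin r → ℝ}
    (h : IsSol A x y) (h' : IsSol A x y') : y = y' := by
  by_contra hne
  have hne' : y - y' ≠ 0 := sub_ne_zero.2 hne
  have h1 := qd_pos hA hne'
  have h2 : qd A (y - y') = ∑ i, (y i - y' i) * (phi (y i) - phi (y' i)) := by
    rw [n04_qd]
    refine Finset.sum_congr rfl fun i _ => ?_
    rw [h.eq i, h'.eq i]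
    simp only [Pi.sub_apply, mul_sub, Finset.sum_sub_distrib]
    ring
  have h3 : ∑ i, (y i - y' i) * (phi (y i) - phi (y' i)) ≤ 0 := by
    refine Finset.sum_nonpos fun i _ => ?_
    rcases lt_trichotomy (y i) (y' i) with h4 | h4 | h4
    · have h5 := phi_strictAnti (Set.mem_Ioi.2 (h.pos i)) (Set.mem_Ioi.2 (h'.pos i)) h4
      exact mul_nonpos_of_nonpos_of_nonneg (by linarith) (by linarith)
    · rw [h4, sub_self, zero_mul]
    · have h5 := phi_strictAnti (Set.mem_Ioi.2 (h'.pos i)) (Set.mem_Ioi.2 (h.pos i)) h4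
      exact mul_nonpos_of_nonneg_of_nonpos (by linarith) (by linarith)
  linarith

theorem n04_obj (A : Matrix (Fin r) (Fin r) ℝ) (z : Fin r → ℝ) :
    obj A Finset.univ z = ∑ i, hfun (z i) - 1 / 2 * qd A z := rfl

theorem IsSol.le {A : Matrix (Fin r) (Fin r) ℝ} (hA : A.PosDef) {x y : Fin r → ℝ}
    (h : IsSol A x y) {z : Fin r → ℝ} (hz : ∀ i, 0 ≤ z i) :
    obj A Finset.univ z - ∑ i, x i * z i + 1 / 2 * qd A (z - y) ≤
      obj A Finset.univ y - ∑ i, x i * y i := by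
  have h1 : ∑ i, hfun (z i) ≤ ∑ i, (hfun (y i) + phi (y i) * (z i - y i)) :=
    Finset.sum_le_sum fun i _ => hfun_le_tangent (h.pos i) (hz i)
  rw [Finset.sum_add_distrib] at h1
  have h2 : ∑ i, phi (y i) * (z i - y i) =
      (∑ i, x i * z i - ∑ i, x i * y i) + ∑ i, (z i - y i) * ∑ j, A i j * y j := by
    rw [← Finset.sum_sub_distrib, ← Finset.sum_add_distrib]
    refine Finset.sum_congr rfl fun i _ => ?_
    rw [h.eq i]
    ring
  rw [n04_obj, n04_obj, n04_expand hA y z]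
  linarith

theorem n04_qd_nonneg {A : Matrix (Fin r) (Fin r) ℝ} (hA : A.PosDef) (z : Fin r → ℝ) : 0 ≤ qd A z := by
  by_cases hz : z = 0
  · rw [hz]
    unfold qd
    simp
  · exact (qd_pos hA hz).le

theorem n04_le {A : Matrix (Fin r) (Fin r) ℝ} (hA : A.PosDef) {x y : Fin r → ℝ}
    (h : IsSol A x y) {z : Fin r → ℝ} (hz : ∀ i, 0 ≤ z i) :
    obj A Finset.univ z - ∑ i, x i * z i ≤ obj A Finset.univ y - ∑ i, x i * y i := by
  have h1 := h.le hA hz
  have h2 := n04_qd_nonneg hA (z - y)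
  linarith

theorem Sp_bddAbove {A : Matrix (Fin r) (Fin r) ℝ} (hA : A.PosDef) (x : Fin r → ℝ) :
    BddAbove ((fun z => obj A Finset.univ z - ∑ i, x i * z i) '' {z | ∀ i, 0 ≤ z i}) := by
  obtain ⟨y, hy⟩ := exists_isSol hA x
  refine ⟨obj A Finset.univ y - ∑ i, x i * y i, ?_⟩
  rintro _ ⟨z, hz, rfl⟩
  exact n04_le hA hy hz

theorem Sp_eq {A : Matrix (Fin r) (Fin r) ℝ} (hA : A.PosDef) {x y : Fin r → ℝ}
    (h : IsSol A x y) : Sp A x = obj A Finset.univ y - ∑ i, x i * y i := by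
  unfold Sp
  have h1 : IsGreatest ((fun z => obj A Finset.univ z - ∑ i, x i * z i) '' {z | ∀ i, 0 ≤ z i})
      (obj A Finset.univ y - ∑ i, x i * y i) := by
    refine ⟨⟨y, fun i => (h.pos i).le, rfl⟩, ?_⟩
    rintro _ ⟨z, hz, rfl⟩
    exact n04_le hA h hz
  exact h1.csSup_eq

end Pool.Agent.Lib.MP_8ce23f_nt.RR
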