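import Pool.Agent.Lib.MP_8ce23f_nt.RR.N04

/-!
# Analyticity of the saddle point along a line

Choose `y s` with `IsSol A (s β) (y s)` (`exists_isSol`).  The map `Θ z i = phi (z i) - ∑ j, A i j * z j` is analytic on the
open set `{z | ∀ i, 0 < z i}`, and its derivative at `z` is `-(diag (exp (-z_i)/(1 - exp (-z_i))) + A)`, which is
invertible (positive definite).  So `Θ` has a local inverse at `y s₀`, analytic at `s₀ β` (`ContDiffAt` with
`n = ω`: `ContDiffAt.toOpenPartialHomeomorph`, `ContDiffAt.to_localInverse`, or `HasStrictFDerivAt.localInverse` and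
`OpenPartialHomeomorph.contDiffAt_symm`; `contDiffAt_omega_iff_analyticAt`); its values near `s₀ β` are
positive, so they agree with `y s` by `IsSol.unique`.
-/

open Filter Topology
open scoped ContDiff

namespace Pool.Agent.Lib.MP_8ce23f_nt.RR

variable {r : ℕ}

/-- The map `Θ`. -/
private noncomputable def n06_T (A : Matrix (Fin r) (Fin r) ℝ) (z : Fin r → ℝ) (i : Fin r) : ℝ :=
  phi (z i) - ∑ j, A i j * z j

/-- Its derivative. -/
private noncomputable def n06_L (A : Matrix (Fin r) (Fin r) ℝ) (z : Fin r → ℝ) :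
    (Fin r → ℝ) →L[ℝ] (Fin r → ℝ) :=
  ContinuousLinearMap.pi fun i =>
    (-(Real.exp (-(z i)) / (1 - Real.exp (-(z i))))) •
      (ContinuousLinearMap.proj i : (Fin r → ℝ) →L[ℝ] ℝ) -
    ∑ j, A i j • (ContinuousLinearMap.proj j : (Fin r → ℝ) →L[ℝ] ℝ)

private theorem n06_L_apply (A : Matrix (Fin r) (Fin r) ℝ) (z w : Fin r → ℝ) (i : Fin r) :
    n06_L A z w i =
      -(Real.exp (-(z i)) / (1 - Real.exp (-(z i)))) * w i - ∑ j, A i j * w j := by
  simp [n06_L]

private theorem n06_hasFDerivAt (A : Matrix (Fin r) (Fin r) ℝ) {z : Fin r → ℝ}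
    (hz : ∀ i, 0 < z i) : HasFDerivAt (n06_T A) (n06_L A z) z := by
  rw [hasFDerivAt_pi']
  intro i
  have h1 : HasFDerivAt (fun w : Fin r → ℝ => phi (w i))
      ((-(Real.exp (-(z i)) / (1 - Real.exp (-(z i))))) •
        (ContinuousLinearMap.proj i : (Fin r → ℝ) →L[ℝ] ℝ)) z := by
    have h0 : HasFDerivAt (fun w : Fin r → ℝ => w i)
      (ContinuousLinearMap.proj i : (Fin r → ℝ) →L[ℝ] ℝ) z := hasFDerivAt_apply i z
    have key := HasDerivAt.comp_hasFDerivAt (h₂ := phi) (f := fun w : Fin r → ℝ => w i) z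
      (phi_hasDerivAt (hz i)) h0
    exact key
  have h2 : HasFDerivAt (fun w : Fin r → ℝ => ∑ j, A i j * w j)
      (∑ j, A i j • (ContinuousLinearMap.proj j : (Fin r → ℝ) →L[ℝ] ℝ)) z :=
    HasFDerivAt.fun_sum fun j _ => (hasFDerivAt_apply j z).const_mul (A i j)
  exact h1.sub h2

private theorem n06_contDiffAt (A : Matrix (Fin r) (Fin r) ℝ) {z : Fin r → ℝ}
    (hz : ∀ i, 0 < z i) : ContDiffAt ℝ ω (n06_T A) z := by
  rw [contDiffAt_pi]
  intro i
  have h1 : ContDiffAt ℝ ω (fun w : Fin r → ℝ => w i) z := (contDiff_apply ℝ ℝ i).contDiffAt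
  have h2 : ContDiffAt ℝ ω (fun w : Fin r → ℝ => phi (w i)) z := by
    have key := ContDiffAt.comp (g := phi) z ((phi_analyticAt (hz i)).contDiffAt (n := ω)) h1
    exact key
  have h3 : ContDiffAt ℝ ω (fun w : Fin r → ℝ => ∑ j, A i j * w j) z :=
    ContDiffAt.sum fun j _ => contDiffAt_const.mul (contDiff_apply ℝ ℝ j).contDiffAt
  exact h2.sub h3

private theorem n06_inj {A : Matrix (Fin r) (Fin r) ℝ} (hA : A.PosDef) {z : Fin r → ℝ}
    (hz : ∀ i, 0 < z i) : Function.Injective (n06_L A z) := by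
  rw [injective_iff_map_eq_zero]
  intro w hw
  by_contra hne
  have h1 := qd_pos hA hne
  have h2 : ∑ i, w i * n06_L A z w i = 0 := by
    rw [hw]
    simp
  have h3 : ∑ i, w i * n06_L A z w i =
      -(∑ i, Real.exp (-(z i)) / (1 - Real.exp (-(z i))) * w i ^ 2) - qd A w := by
    unfold qd
    rw [← Finset.sum_neg_distrib, ← Finset.sum_sub_distrib]
    refine Finset.sum_congr rfl fun i _ => ?_
    rw [n06_L_apply, mul_sub, Finset.mul_sum]
    have h4 : ∑ j, w i * (A i j * w j) = ∑ j, w i * A i j * w j :=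
      Finset.sum_congr rfl fun j _ => by ring
    rw [h4]
    ring
  have h5 : 0 ≤ ∑ i, Real.exp (-(z i)) / (1 - Real.exp (-(z i))) * w i ^ 2 := by
    refine Finset.sum_nonneg fun i _ => mul_nonneg (div_nonneg (Real.exp_pos _).le ?_)
      (sq_nonneg _)
    have : Real.exp (-(z i)) < 1 := Real.exp_lt_one_iff.2 (by linarith [hz i])
    linarith
  rw [h3] at h2
  linarith

theorem exists_path {A : Matrix (Fin r) (Fin r) ℝ} (hA : A.PosDef) (β : Fin r → ℝ) :
    ∃ y : ℝ → Fin r → ℝ, (∀ s, IsSol A (fun i => s * β i) (y s)) ∧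
      ∀ i s, AnalyticAt ℝ (fun s => y s i) s := by
  choose y hy using fun s : ℝ => exists_isSol hA (fun i => s * β i)
  refine ⟨y, hy, fun i s₀ => ?_⟩
  have hpos := (hy s₀).pos
  have hTa : n06_T A (y s₀) = fun i => s₀ * β i := by
    funext i
    unfold n06_T
    rw [(hy s₀).eq i]
    ring
  have hc := n06_contDiffAt A hpos
  set e₀ : (Fin r → ℝ) ≃ₗ[ℝ] (Fin r → ℝ) :=
    LinearEquiv.ofInjectiveEndo (n06_L A (y s₀) : (Fin r → ℝ) →ₗ[ℝ] (Fin r → ℝ))
      (n06_inj hA hpos) with he₀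
  set e : (Fin r → ℝ) ≃L[ℝ] (Fin r → ℝ) := e₀.toContinuousLinearEquiv with he
  have hecoe : (e : (Fin r → ℝ) →L[ℝ] (Fin r → ℝ)) = n06_L A (y s₀) := by
    ext1 w
    rfl
  have hd : HasFDerivAt (n06_T A) (e : (Fin r → ℝ) →L[ℝ] (Fin r → ℝ)) (y s₀) := by
    rw [hecoe]
    exact n06_hasFDerivAt A hpos
  have hω : (ω : WithTop ℕ∞) ≠ 0 := by simp
  have hstrict := hc.hasStrictFDerivAt' hd hω
  have hG : ContDiffAt ℝ ω (hc.localInverse hd hω) (n06_T A (y s₀)) := hc.to_localInverse hd hω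
  have hG0 : hc.localInverse hd hω (n06_T A (y s₀)) = y s₀ := hc.localInverse_apply_image hd hω
  have hlin : ContDiffAt ℝ ω (fun s : ℝ => (fun i => s * β i : Fin r → ℝ)) s₀ := by
    rw [contDiffAt_pi]
    intro i
    exact contDiffAt_id.mul contDiffAt_const
  rw [hTa] at hG hG0
  have hg : ContDiffAt ℝ ω (fun s : ℝ => hc.localInverse hd hω (fun i => s * β i)) s₀ :=
    ContDiffAt.comp s₀ hG hlin
  have hev : ∀ᶠ x in 𝓝 (n06_T A (y s₀)), n06_T A (hc.localInverse hd hω x) = x :=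
    hstrict.eventually_right_inverse
  rw [hTa] at hev
  have hcont : ContinuousAt (fun s : ℝ => (fun i => s * β i : Fin r → ℝ)) s₀ := hlin.continuousAt
  have hev2 : ∀ᶠ s in 𝓝 s₀, n06_T A (hc.localInverse hd hω (fun i => s * β i)) =
      fun i => s * β i := hcont.eventually hev
  have hev3 : ∀ᶠ s in 𝓝 s₀, ∀ j, 0 < hc.localInverse hd hω (fun i => s * β i) j := by
    rw [Filter.eventually_all]
    intro j
    have h1 : ContinuousAt (fun s : ℝ => hc.localInverse hd hω (fun i => s * β i) j) s₀ :=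
      (continuousAt_pi.1 hg.continuousAt) j
    refine h1.eventually_const_lt ?_
    show 0 < hc.localInverse hd hω (fun i => s₀ * β i) j
    rw [hG0]
    exact hpos j
  have hev4 : (fun s => hc.localInverse hd hω (fun i => s * β i) i) =ᶠ[𝓝 s₀] fun s => y s i := by
    filter_upwards [hev2, hev3] with s h1 h2
    have h3 : IsSol A (fun i => s * β i) (hc.localInverse hd hω (fun i => s * β i)) := by
      refine ⟨h2, fun j => ?_⟩
      have h4 := congrFun h1 j
      unfold n06_T at h4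
      exact sub_eq_iff_eq_add.1 h4
    rw [h3.unique hA (hy s)]
  have han : AnalyticAt ℝ (fun s => hc.localInverse hd hω (fun i => s * β i) i) s₀ :=
    (contDiffAt_pi.1 hg i).analyticAt
  exact han.congr hev4

end Pool.Agent.Lib.MP_8ce23f_nt.RR
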