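import Pool.Agent.Lib.MP_8ce23f_nt.RR.N09

/-!
# The top forms are real

`A`, `Q` real.  Let `σ = MvPolynomial.map (starRingEnd ℂ) : P r →+* P r`.  `σ` fixes `C (A i j)`, `C (Q i)`, `X i`, so
`IsSym.map σ` and `IsSym.unique` (the determinant is a nonzero constant, hence a unit) give
`PowerSeries.map σ (Uu V i) = Uu V i`, i.e. `σ (∂_i V_{k+1}) = ∂_i V_{k+1}` (divide by `k+1`); as `σ` commutes with `∂_i` and
`(k+2) V_{k+1} = ∑ X_i ∂_i V_{k+1}` (Euler: `MvPolynomial.IsHomogeneous.sum_X_mul_pderiv` or see R2/Hom `euler_hom`),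
`σ V_{k+1} = V_{k+1}`.
-/

namespace Pool.Agent.Lib.MP_8ce23f_nt.RR

variable {r : ℕ}

theorem top_real {A : Matrix (Fin r) (Fin r) ℝ} {Q : Fin r → ℝ} {V : ℕ → P r}
    {q : Fin r → PowerSeries (P r)} (h : IsTop (toC A) (vC Q) V q)
    (hd : (Jm (toC A) (vC Q)).det ≠ 0) {k : ℕ} (hk : 1 ≤ k) :
    MvPolynomial.map (starRingEnd ℂ) (V k) = V k := by
  obtain ⟨k, rfl⟩ : ∃ l, k = l + 1 := ⟨k - 1, by omega⟩
  set σ : P r →+* P r := MvPolynomial.map (starRingEnd ℂ) with hσ
  -- the coefficients are real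
  have hA : ∀ i j, σ (MvPolynomial.C (toC A i j)) = MvPolynomial.C (toC A i j) := by
    intro i j
    rw [hσ, MvPolynomial.map_C]
    congr 1
    exact Complex.conj_ofReal _
  have hQ : ∀ i, σ (MvPolynomial.C (vC Q i)) = MvPolynomial.C (vC Q i) := by
    intro i
    rw [hσ, MvPolynomial.map_C]
    congr 1
    exact Complex.conj_ofReal _
  have hX : ∀ i, σ (MvPolynomial.X i) = MvPolynomial.X i := by
    intro i
    rw [hσ, MvPolynomial.map_X]
  have h1 := h.sym.map σ
  simp only [hA, hQ, hX] at h1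
  have hu : IsUnit (Jm (fun i j => (MvPolynomial.C (toC A i j) : P r)) fun i => MvPolynomial.C (vC Q i)).det := by
    rw [Jm_map (MvPolynomial.C : ℂ →+* P r) (toC A) (vC Q)]
    exact (isUnit_iff_ne_zero.2 hd).map _
  have h2 := (IsSym.unique hu h.sym h1).2
  -- the derivatives are real
  have h3 : ∀ i, σ (MvPolynomial.pderiv i (V (k + 1))) = MvPolynomial.pderiv i (V (k + 1)) := by
    intro i
    have h4 := congrArg (fun f : Fin r → PowerSeries (P r) => PowerSeries.coeff k (f i)) h2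
    have h5 : ((k : P r) + 1) * MvPolynomial.pderiv i (V (k + 1)) =
        σ (((k : P r) + 1) * MvPolynomial.pderiv i (V (k + 1))) := by
      have h6 : PowerSeries.coeff k (Uu V i) = PowerSeries.coeff k (PowerSeries.map σ (Uu V i)) := h4
      rw [PowerSeries.coeff_map] at h6
      unfold Uu at h6
      rw [PowerSeries.coeff_mk] at h6
      exact h6
    rw [map_mul, map_add, map_natCast, map_one] at h5
    have h7 : ((k : P r) + 1) ≠ 0 := by exact_mod_cast Nat.succ_ne_zero k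
    exact (mul_left_cancel₀ h7 h5).symm
  -- Euler
  have h8 := (h.hom (k + 1)).sum_X_mul_pderiv
  have h9 := ((h.hom (k + 1)).map (starRingEnd ℂ)).sum_X_mul_pderiv
  have h10 : ∑ i, (MvPolynomial.X i : P r) * MvPolynomial.pderiv i (MvPolynomial.map (starRingEnd ℂ) (V (k + 1))) =
      ∑ i, (MvPolynomial.X i : P r) * MvPolynomial.pderiv i (V (k + 1)) := by
    refine Finset.sum_congr rfl fun i _ => ?_
    rw [MvPolynomial.pderiv_map]
    congr 1
    exact h3 i
  rw [h8, h9] at h10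
  rw [nsmul_eq_mul, nsmul_eq_mul] at h10
  have h11 : ((k + 1 + 1 : ℕ) : P r) ≠ 0 := Nat.cast_ne_zero.2 (Nat.succ_ne_zero _)
  exact mul_left_cancel₀ h11 h10

end Pool.Agent.Lib.MP_8ce23f_nt.RR
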