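import Pool.Agent.Lib.MP_8ce23f_nt.RR.NDefs

/-!
# Algebraic functions of exponentials which vanish on a generic line

`ex_inj`: for `p = ∑ c_a Z^a`, `map (eval θ) (zMap m p) = ∑_a c_a exp (τ (a·θ))`, where
`map (eval θ) (ex (X k)) = ex (θ k)` and `ex (c + d) = ex c * ex d`
(`PowerSeries.exp_mul_exp_eq_exp_add`, `PowerSeries.exp_pow_eq_rescale_exp`).  The numbers `a·θ`, `a ∈ ℕ^m`, are
pairwise distinct (`θ` linearly independent over `ℚ`), and `exp (c τ)` for distinct `c` are linearly independent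
over `ℂ` (coefficients: `∑ c_a (a·θ)^n = 0` for all `n`; Vandermonde, `Matrix.eq_zero_of_forall_pow_sum_mul_pow_eq_zero` or
apply polynomials: `∑ c_a P(a·θ) = 0` for every polynomial `P`).
`vanish`: suppose `g ≠ 0`.  `PowerSeries (P m)` is a domain, so `IsAlgebraic.exists_nonzero_coeff_and_aeval_eq_zero` (or divide by
a power of the variable) gives a polynomial over `TT m` with nonzero constant coefficient `c₀` and root `g`.
Apply `map (eval θ)`: the image of `g` is `0`, so the image of `c₀` is `0`; `c₀ = zMap m p`, so `p = 0` by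
`ex_inj`, contradiction.
-/

namespace Pool.Agent.Lib.MP_8ce23f_nt.RR

variable {r : ℕ}

theorem ex_add {R : Type*} [CommRing R] [Algebra ℚ R] (c d : R) : ex (c + d) = ex c * ex d :=
  (PowerSeries.exp_mul_exp_eq_exp_add c d).symm

theorem map_ex {R R' : Type*} [CommRing R] [Algebra ℚ R] [CommRing R'] [Algebra ℚ R']
    (φ : R →+* R') (c : R) : PowerSeries.map φ (ex c) = ex (φ c) := by
  ext n
  unfold ex
  rw [PowerSeries.coeff_map, PowerSeries.coeff_rescale, PowerSeries.coeff_rescale, PowerSeries.coeff_exp,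
    PowerSeries.coeff_exp, map_mul, map_pow, RingHom.map_rat_algebraMap]

private theorem N12_ex_zero {R : Type*} [CommRing R] [Algebra ℚ R] : ex (0 : R) = 1 := by
  ext n
  unfold ex
  rw [PowerSeries.coeff_rescale, PowerSeries.coeff_exp, PowerSeries.coeff_one]
  by_cases hn : n = 0
  · subst hn
    rw [pow_zero, one_mul, if_pos rfl, Nat.factorial_zero, Nat.cast_one, div_one, map_one]
  · rw [zero_pow hn, zero_mul, if_neg hn]

private theorem N12_ex_pow {R : Type*} [CommRing R] [Algebra ℚ R] (c : R) (n : ℕ) : ex c ^ n = ex ((n : R) * c) := by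
  induction n with
  | zero => rw [pow_zero, Nat.cast_zero, zero_mul, N12_ex_zero]
  | succ n ih => rw [pow_succ, ih, ← ex_add, Nat.cast_succ, add_mul, one_mul]

private theorem N12_ex_sum {R : Type*} [CommRing R] [Algebra ℚ R] {ι : Type*} (s : Finset ι) (c : ι → R) :
    ∏ i ∈ s, ex (c i) = ex (∑ i ∈ s, c i) := by
  classical
  induction s using Finset.induction_on with
  | empty => rw [Finset.prod_empty, Finset.sum_empty, N12_ex_zero]
  | insert a s ha ih => rw [Finset.prod_insert ha, Finset.sum_insert ha, ih, ex_add]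

private theorem N12_coeff (c : ℂ) (n : ℕ) : PowerSeries.coeff n (ex c) = c ^ n * ((1 / (n.factorial : ℚ) : ℚ) : ℂ) := by
  unfold ex
  rw [PowerSeries.coeff_rescale, PowerSeries.coeff_exp]
  rfl

private theorem N12_van {ι : Type*} (s : Finset ι) (c l : ι → ℂ) (hl : ∀ i ∈ s, ∀ j ∈ s, l i = l j → i = j)
    (h : ∀ n : ℕ, ∑ i ∈ s, c i * l i ^ n = 0) : ∀ i ∈ s, c i = 0 := by
  classical
  have h1 : ∀ q : Polynomial ℂ, ∑ i ∈ s, c i * q.eval (l i) = 0 := by
    intro q
    simp_rw [Polynomial.eval_eq_sum_range, Finset.mul_sum]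
    rw [Finset.sum_comm]
    refine Finset.sum_eq_zero fun n _ => ?_
    have h2 : ∀ i ∈ s, c i * (q.coeff n * l i ^ n) = q.coeff n * (c i * l i ^ n) := fun i _ => by ring
    rw [Finset.sum_congr rfl h2, ← Finset.mul_sum, h n, mul_zero]
  intro i hi
  have h3 := h1 (∏ j ∈ s.erase i, (Polynomial.X - Polynomial.C (l j)))
  rw [Finset.sum_eq_single i] at h3
  · rcases mul_eq_zero.1 h3 with h4 | h4
    · exact h4
    · exfalso
      rw [Polynomial.eval_prod, Finset.prod_eq_zero_iff] at h4
      obtain ⟨j, hj, hj'⟩ := h4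
      rw [Polynomial.eval_sub, Polynomial.eval_X, Polynomial.eval_C, sub_eq_zero] at hj'
      exact (Finset.mem_erase.1 hj).1 (hl i hi j (Finset.mem_of_mem_erase hj) hj').symm
  · intro j hj hji
    rw [Polynomial.eval_prod, Finset.prod_eq_zero (Finset.mem_erase.2 ⟨hji, hj⟩), mul_zero]
    rw [Polynomial.eval_sub, Polynomial.eval_X, Polynomial.eval_C, sub_self]
  · intro h5
    exact absurd hi h5

private theorem N12_map {m : ℕ} (θ : Fin m → ℂ) (p : P m) :
    PowerSeries.map (MvPolynomial.eval θ) (zMap m p) =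
      ∑ a ∈ p.support, PowerSeries.C (p.coeff a) * ex (∑ k, (a k : ℂ) * θ k) := by
  have h1 : PowerSeries.map (MvPolynomial.eval θ) (zMap m p) =
      MvPolynomial.eval₂ (PowerSeries.C : ℂ →+* PowerSeries ℂ) (fun k => ex (θ k)) p := by
    have h2 : ((PowerSeries.map (MvPolynomial.eval θ)).comp (zMap m : P m →+* PowerSeries (P m))) =
        MvPolynomial.eval₂Hom (PowerSeries.C : ℂ →+* PowerSeries ℂ) (fun k => ex (θ k)) := by
      refine MvPolynomial.ringHom_ext (fun c => ?_) fun k => ?_
      · rw [MvPolynomial.eval₂Hom_C, RingHom.comp_apply]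
        have h3 : (zMap m : P m →+* PowerSeries (P m)) (MvPolynomial.C c) =
            PowerSeries.C (MvPolynomial.C c) := by
          have h4 : zMap m (MvPolynomial.C c) = algebraMap ℂ (PowerSeries (P m)) c := AlgHom.commutes _ _
          exact h4.trans PowerSeries.algebraMap_apply
        rw [h3, PowerSeries.map_C, MvPolynomial.eval_C]
      · rw [MvPolynomial.eval₂Hom_X', RingHom.comp_apply]
        have h3 : (zMap m : P m →+* PowerSeries (P m)) (MvPolynomial.X k) = ex (MvPolynomial.X k) :=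
          MvPolynomial.aeval_X _ _
        rw [h3, map_ex, MvPolynomial.eval_X]
    exact congrArg (fun f : P m →+* PowerSeries ℂ => f p) h2
  rw [h1, MvPolynomial.eval₂_eq']
  refine Finset.sum_congr rfl fun a _ => ?_
  congr 1
  rw [← N12_ex_sum]
  exact Finset.prod_congr rfl fun k _ => N12_ex_pow _ _

theorem ex_inj {m : ℕ} {θ : Fin m → ℂ} (hθ : LinearIndependent ℚ θ) {p : P m}
    (h : PowerSeries.map (MvPolynomial.eval θ) (zMap m p) = 0) : p = 0 := by
  rw [N12_map] at h
  have h1 : ∀ n : ℕ, ∑ a ∈ p.support, p.coeff a * (∑ k, (a k : ℂ) * θ k) ^ n = 0 := by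
    intro n
    have h2 := congrArg (PowerSeries.coeff n) h
    rw [map_sum, map_zero] at h2
    simp_rw [PowerSeries.coeff_C_mul, N12_coeff, ← mul_assoc] at h2
    rw [← Finset.sum_mul] at h2
    rcases mul_eq_zero.1 h2 with h3 | h3
    · exact h3
    · exfalso
      have h4 : (1 / (n.factorial : ℚ) : ℚ) = 0 := by exact_mod_cast h3
      exact (one_div_ne_zero (Nat.cast_ne_zero.2 (Nat.factorial_ne_zero n))) h4
  have h2 := N12_van p.support p.coeff (fun a => ∑ k, (a k : ℂ) * θ k) (fun a _ b _ hab => by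
    refine Finsupp.ext fun k => ?_
    have h3 : ∑ k, ((a k : ℚ) - (b k : ℚ)) • θ k = 0 := by
      have h4 : ∀ k, ((a k : ℚ) - (b k : ℚ)) • θ k = (a k : ℂ) * θ k - (b k : ℂ) * θ k := by
        intro k
        rw [Algebra.smul_def, ← sub_mul]
        congr 1
        rw [map_sub, map_natCast, map_natCast]
      rw [Finset.sum_congr rfl fun k _ => h4 k, Finset.sum_sub_distrib]
      exact sub_eq_zero.2 hab
    have h5 := Fintype.linearIndependent_iff.1 hθ _ h3 k
    exact_mod_cast sub_eq_zero.1 h5) h1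
  refine MvPolynomial.ext _ _ fun a => ?_
  by_cases ha : a ∈ p.support
  · rw [h2 a ha, MvPolynomial.coeff_zero]
  · rw [MvPolynomial.notMem_support_iff.1 ha, MvPolynomial.coeff_zero]

theorem vanish {m : ℕ} {θ : Fin m → ℂ} (hθ : LinearIndependent ℚ θ) {g : PowerSeries (P m)}
    (hg : IsAlgebraic (TT m) g) (h0 : PowerSeries.map (MvPolynomial.eval θ) g = 0) : g = 0 := by
  by_contra hne
  obtain ⟨q, hq0, hq⟩ := hg.exists_nonzero_coeff_and_aeval_eq_zero (mem_nonZeroDivisors_of_ne_zero hne)
  have h1 := congrArg (PowerSeries.map (MvPolynomial.eval θ)) hq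
  rw [Polynomial.aeval_def, Polynomial.hom_eval₂, h0, Polynomial.eval₂_at_zero, map_zero] at h1
  obtain ⟨p, hp⟩ : ∃ p : P m, zMap m p = (q.coeff 0 : PowerSeries (P m)) := (q.coeff 0).2
  have h2 : PowerSeries.map (MvPolynomial.eval θ) (zMap m p) = 0 := by
    rw [hp]
    exact h1
  have h3 := ex_inj hθ h2
  rw [h3, map_zero] at hp
  exact hq0 (Subtype.ext hp.symm)

end Pool.Agent.Lib.MP_8ce23f_nt.RR
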