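import Mathlib

/-!
# The Jacobian criterion

Let `L = k(x_1, …, x_r)`.  If every `k`-derivation of `L` kills all `x_i`, then every `k`-derivation of `L` is zero, so
`Ω[L⁄k] = 0` (a nonzero vector space over `L` has a nonzero linear functional), `L/k` is formally unramified,
essentially of finite type (finitely generated field extension), hence algebraic
(`Algebra.FormallyUnramified.iff_isSeparable` and friends in Mathlib.RingTheory.Unramified.Field).
-/

namespace Pool.Agent.Lib.MP_8ce23f_nt.RR

variable {r : ℕ}

/-- A derivation which kills the generators is zero. -/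
private theorem n13_zero {k K : Type*} [Field k] [Field K] [Algebra k K] {s : Set K}
    (δ : Derivation k (IntermediateField.adjoin k s) (IntermediateField.adjoin k s))
    (h : ∀ (x : K) (hx : x ∈ s), δ ⟨x, IntermediateField.subset_adjoin k _ hx⟩ = 0) :
    δ = 0 := by
  have key : ∀ (a : K) (ha : a ∈ IntermediateField.adjoin k s), δ ⟨a, ha⟩ = 0 := by
    intro a ha
    induction ha using IntermediateField.adjoin_induction with
    | mem x hx => exact h x hx
    | algebraMap x =>
      exact δ.map_algebraMap x
    | add x y hx hy h1 h2 =>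
      have : (⟨x + y, add_mem hx hy⟩ : IntermediateField.adjoin k s) = ⟨x, hx⟩ + ⟨y, hy⟩ := rfl
      rw [this, map_add, h1, h2, add_zero]
    | inv x hx h1 =>
      have : (⟨x⁻¹, inv_mem hx⟩ : IntermediateField.adjoin k s) = (⟨x, hx⟩)⁻¹ := rfl
      rw [this, Derivation.leibniz_inv, h1, smul_zero]
    | mul x y hx hy h1 h2 =>
      have : (⟨x * y, mul_mem hx hy⟩ : IntermediateField.adjoin k s) = ⟨x, hx⟩ * ⟨y, hy⟩ := rfl
      rw [this, Derivation.leibniz, h1, h2, smul_zero, smul_zero, add_zero]
  ext a
  have := key a.1 a.2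
  simpa using congrArg Subtype.val this

theorem jac {k K : Type*} [Field k] [Field K] [Algebra k K] [CharZero k] {r : ℕ} (x : Fin r → K)
    (h : ∀ δ : Derivation k (IntermediateField.adjoin k (Set.range x))
      (IntermediateField.adjoin k (Set.range x)), ∀ i,
      δ ⟨x i, IntermediateField.subset_adjoin k _ ⟨i, rfl⟩⟩ = 0) :
    ∀ i, IsAlgebraic k (x i) := by
  set L := IntermediateField.adjoin k (Set.range x) with hL
  have hδ : ∀ δ : Derivation k L L, δ = 0 := by
    intro δ
    refine n13_zero δ ?_
    rintro y ⟨i, rfl⟩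
    exact h δ i
  have hΩ : ∀ f : Ω[L⁄k] →ₗ[L] L, f = 0 := by
    intro f
    have := hδ (KaehlerDifferential.linearMapEquivDerivation k L f)
    exact (KaehlerDifferential.linearMapEquivDerivation k L).map_eq_zero_iff.mp this
  have hsub : Subsingleton Ω[L⁄k] := by
    refine ⟨fun a b => ?_⟩
    rw [← sub_eq_zero, ← Module.forall_dual_apply_eq_zero_iff L]
    intro φ
    rw [hΩ φ, LinearMap.zero_apply]
  have : Algebra.FormallyUnramified k L := ⟨hsub⟩
  have : Algebra.EssFiniteType k L := by
    rw [IntermediateField.essFiniteType_iff]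
    exact IntermediateField.fg_def.mpr ⟨Set.range x, Set.finite_range x, rfl⟩
  have : Algebra.IsSeparable k L := Algebra.FormallyUnramified.isSeparable k L
  intro i
  have h1 : IsAlgebraic k (⟨x i, IntermediateField.subset_adjoin k _ ⟨i, rfl⟩⟩ : L) :=
    Algebra.IsAlgebraic.isAlgebraic _
  exact (IntermediateField.isAlgebraic_iff (S := L)).mp h1

end Pool.Agent.Lib.MP_8ce23f_nt.RR
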