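import Pool.Agent.Lib.MP_8ce23f_nt.RR.N12

/-!
# The multiplicative relations between the `q_i`

Both sides `y` of the identity satisfy `y' = w y` with the same
`w = N b_i + ∑_j (n_ij)⁻ u_j + N (∑_j A_ij u_j - b_i) = ∑_j (n_ij)⁺ u_j`:
`q_j' = q_j u_j`, `(ex c)' = c ex c`, and `(1 - q_i)' = -q_i u_i = (1 - q_i) (∑_j A_ij u_j - b_i)` (`dq`, `lin`).
A solution of `y' = w y` with zero constant coefficient is zero (coefficientwise induction).  The constant coefficients are
nonzero constants; `c` is their quotient.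
-/

namespace Pool.Agent.Lib.MP_8ce23f_nt.RR

variable {r : ℕ}

section n14

variable {R : Type*} [CommRing R]

theorem n14_mul {x y v w : PowerSeries R} (hx : PowerSeries.derivative R x = x * v)
    (hy : PowerSeries.derivative R y = y * w) :
    PowerSeries.derivative R (x * y) = (x * y) * (v + w) := by
  rw [Derivation.leibniz, hx, hy]
  simp only [smul_eq_mul]
  ring

theorem n14_pow {x v : PowerSeries R} (hx : PowerSeries.derivative R x = x * v) (k : ℕ) :
    PowerSeries.derivative R (x ^ k) = x ^ k * ((k : PowerSeries R) * v) := by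
  induction k with
  | zero => simp
  | succ k ih =>
    rw [pow_succ, n14_mul ih hx]
    push_cast
    ring

theorem n14_prod {ι : Type*} (s : Finset ι) {x v : ι → PowerSeries R}
    (hx : ∀ j ∈ s, PowerSeries.derivative R (x j) = x j * v j) :
    PowerSeries.derivative R (∏ j ∈ s, x j) = (∏ j ∈ s, x j) * ∑ j ∈ s, v j := by
  classical
  induction s using Finset.induction_on with
  | empty => simp
  | insert a s ha ih =>
    rw [Finset.prod_insert ha, Finset.sum_insert ha]
    exact n14_mul (hx a (Finset.mem_insert_self a s))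
      (ih fun j hj => hx j (Finset.mem_insert_of_mem hj))

theorem n14_ex [Algebra ℚ R] (c : R) :
    PowerSeries.derivative R (ex c) = ex c * PowerSeries.C c := by
  ext k
  rw [PowerSeries.coeff_mul_C]
  rw [PowerSeries.coeff_derivative]
  simp only [ex, PowerSeries.coeff_rescale, PowerSeries.coeff_exp]
  have h1 : (((k + 1).factorial : ℚ))⁻¹ * ((k : ℚ) + 1) = ((k.factorial : ℚ))⁻¹ := by
    rw [Nat.factorial_succ]
    push_cast
    have : (k.factorial : ℚ) ≠ 0 := by exact_mod_cast Nat.factorial_ne_zero k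
    have : (k : ℚ) + 1 ≠ 0 := by positivity
    field_simp
  have h2 : algebraMap ℚ R (1 / ((k + 1).factorial : ℚ)) * ((k : R) + 1) =
      algebraMap ℚ R (1 / (k.factorial : ℚ)) := by
    have h3 : ((k : R) + 1) = algebraMap ℚ R ((k : ℚ) + 1) := by simp
    rw [h3, ← map_mul, one_div, h1, one_div]
  rw [mul_assoc, h2, pow_succ]
  ring

/-- A solution of `y' = y w` with zero constant coefficient is zero. -/
theorem n14_zero [IsDomain R] [CharZero R] {y w : PowerSeries R}
    (hy : PowerSeries.derivative R y = y * w) (h0 : PowerSeries.constantCoeff y = 0) : y = 0 := by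
  ext k
  rw [map_zero]
  induction k using Nat.strong_induction_on with
  | _ k ih =>
    rcases k with _ | k
    · rw [PowerSeries.coeff_zero_eq_constantCoeff_apply]
      exact h0
    · have h1 := congrArg (PowerSeries.coeff k) hy
      rw [PowerSeries.coeff_derivative, PowerSeries.coeff_mul] at h1
      have h2 : ∑ p ∈ Finset.HasAntidiagonal.antidiagonal k,
          PowerSeries.coeff p.1 y * PowerSeries.coeff p.2 w = 0 := by
        refine Finset.sum_eq_zero fun p hp => ?_
        have h3 : p.1 + p.2 = k := by simpa using hp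
        rw [ih p.1 (by omega), zero_mul]
      rw [h2] at h1
      rcases mul_eq_zero.mp h1 with h3 | h3
      · exact h3
      · exfalso
        have h4 : ((k + 1 : ℕ) : R) = 0 := by
          push_cast
          exact h3
        exact (Nat.cast_ne_zero.mpr (Nat.succ_ne_zero k)) h4

end n14

theorem relation {m : ℕ} {A : Matrix (Fin r) (Fin r) ℚ} {Q : Fin r → ℂ} {b : Fin r → P m}
    {q u : Fin r → PowerSeries (P m)}
    (h : IsSym (fun i j => (MvPolynomial.C ((A i j : ℚ) : ℂ) : P m)) (fun i => MvPolynomial.C (Q i))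
      b q u)
    (h0 : ∀ i, Q i ≠ 0) (h1 : ∀ i, Q i ≠ 1) (N : ℕ) (n : Matrix (Fin r) (Fin r) ℤ)
    (hn : ∀ i j, ((n i j : ℤ) : ℚ) = N * A i j) (i : Fin r) :
    ∃ c : ℂ, c ≠ 0 ∧ (1 - q i) ^ N * ex ((N : P m) * b i) * ∏ j, q j ^ (-(n i j)).toNat =
      PowerSeries.C (MvPolynomial.C c) * ∏ j, q j ^ (n i j).toNat := by
  -- logarithmic derivative of `1 - q_i`
  have hd : PowerSeries.derivative (P m) (1 - q i) = (1 - q i) *
      (∑ j, PowerSeries.C (MvPolynomial.C ((A i j : ℚ) : ℂ) : P m) * u j - PowerSeries.C (b i)) := by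
    have h2 := h.lin i
    have h3 : PowerSeries.derivative (P m) (1 - q i) = - (q i * u i) := by
      rw [map_sub, h.dq i]
      simp
    rw [h3]
    linear_combination - h2
  have hY1 : PowerSeries.derivative (P m)
      ((1 - q i) ^ N * ex ((N : P m) * b i) * ∏ j, q j ^ (-(n i j)).toNat) =
      ((1 - q i) ^ N * ex ((N : P m) * b i) * ∏ j, q j ^ (-(n i j)).toNat) *
      ((N : PowerSeries (P m)) * (∑ j, PowerSeries.C (MvPolynomial.C ((A i j : ℚ) : ℂ) : P m) * u j
        - PowerSeries.C (b i)) + PowerSeries.C ((N : P m) * b i) +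
        ∑ j, (((-(n i j)).toNat : ℕ) : PowerSeries (P m)) * u j) :=
    n14_mul (n14_mul (n14_pow hd N) (n14_ex _)) (n14_prod _ fun j _ => n14_pow (h.dq j) _)
  have hY2 : PowerSeries.derivative (P m) (∏ j, q j ^ (n i j).toNat) =
      (∏ j, q j ^ (n i j).toNat) * ∑ j, (((n i j).toNat : ℕ) : PowerSeries (P m)) * u j :=
    n14_prod _ fun j _ => n14_pow (h.dq j) _
  have hw : (N : PowerSeries (P m)) *
        (∑ j, PowerSeries.C (MvPolynomial.C ((A i j : ℚ) : ℂ) : P m) * u j
        - PowerSeries.C (b i)) + PowerSeries.C ((N : P m) * b i) +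
        ∑ j, (((-(n i j)).toNat : ℕ) : PowerSeries (P m)) * u j =
        ∑ j, (((n i j).toNat : ℕ) : PowerSeries (P m)) * u j := by
    have hj : ∀ j, (N : PowerSeries (P m)) *
        PowerSeries.C (MvPolynomial.C ((A i j : ℚ) : ℂ) : P m) +
        (((-(n i j)).toNat : ℕ) : PowerSeries (P m)) =
        (((n i j).toNat : ℕ) : PowerSeries (P m)) := by
      intro j
      have e1 : ((N : ℂ) * ((A i j : ℚ) : ℂ)) + (((-(n i j)).toNat : ℕ) : ℂ) =
          (((n i j).toNat : ℕ) : ℂ) := by
        have e2 := hn i j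
        have e3 : (((n i j).toNat : ℕ) : ℤ) - (((-(n i j)).toNat : ℕ) : ℤ) = n i j := by
          omega
        have e4 : (((n i j).toNat : ℕ) : ℚ) - (((-(n i j)).toNat : ℕ) : ℚ) = N * A i j := by
          rw [← e2]
          exact_mod_cast e3
        have e5 : (((n i j).toNat : ℕ) : ℂ) - (((-(n i j)).toNat : ℕ) : ℂ) =
            (N : ℂ) * ((A i j : ℚ) : ℂ) := by
          have := congrArg (fun x : ℚ => (x : ℂ)) e4
          simpa using this
        rw [← e5]
        ring
      have e6 : ∀ k : ℕ, (k : PowerSeries (P m)) =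
          PowerSeries.C (MvPolynomial.C (k : ℂ) : P m) := by
        intro k
        simp
      rw [e6, e6, e6, ← map_mul, ← map_add, ← map_mul, ← map_add, e1]
    have e7 : PowerSeries.C ((N : P m) * b i) =
        (N : PowerSeries (P m)) * PowerSeries.C (b i) := by
      rw [map_mul]
      simp
    rw [e7, mul_sub, Finset.mul_sum]
    rw [show ∀ x y z : PowerSeries (P m), x - y + y + z = x + z from fun x y z => by ring]
    rw [← Finset.sum_add_distrib]
    refine Finset.sum_congr rfl fun j _ => ?_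
    rw [← hj j]
    ring
  -- constant coefficients
  have hc1 : PowerSeries.constantCoeff
      ((1 - q i) ^ N * ex ((N : P m) * b i) * ∏ j, q j ^ (-(n i j)).toNat) =
      MvPolynomial.C ((1 - Q i) ^ N * ∏ j, Q j ^ (-(n i j)).toNat) := by
    have e1 : PowerSeries.constantCoeff (ex ((N : P m) * b i)) = 1 := by
      rw [← PowerSeries.coeff_zero_eq_constantCoeff_apply]
      simp [ex, PowerSeries.coeff_rescale, PowerSeries.coeff_exp]
    simp only [map_mul, map_pow, map_sub, map_one, map_prod, h.q0, e1, mul_one]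
  have hc2 : PowerSeries.constantCoeff (∏ j, q j ^ (n i j).toNat) =
      MvPolynomial.C (∏ j, Q j ^ (n i j).toNat) := by
    simp only [map_pow, map_prod, h.q0]
  have n1 : (1 - Q i) ^ N * ∏ j, Q j ^ (-(n i j)).toNat ≠ 0 :=
    mul_ne_zero (pow_ne_zero _ (sub_ne_zero.mpr (h1 i).symm))
      (Finset.prod_ne_zero_iff.mpr fun j _ => pow_ne_zero _ (h0 j))
  have n2 : ∏ j, Q j ^ (n i j).toNat ≠ 0 :=
    Finset.prod_ne_zero_iff.mpr fun j _ => pow_ne_zero _ (h0 j)
  refine ⟨((1 - Q i) ^ N * ∏ j, Q j ^ (-(n i j)).toNat) / ∏ j, Q j ^ (n i j).toNat,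
    div_ne_zero n1 n2, ?_⟩
  rw [← sub_eq_zero]
  refine n14_zero (w := ∑ j, (((n i j).toNat : ℕ) : PowerSeries (P m)) * u j) ?_ ?_
  · have hZ : ∀ (c : P m) (y1 y2 w : PowerSeries (P m)), PowerSeries.derivative (P m) y1 = y1 * w →
        PowerSeries.derivative (P m) y2 = y2 * w →
        PowerSeries.derivative (P m) (y1 - PowerSeries.C c * y2) =
          (y1 - PowerSeries.C c * y2) * w := by
      intro c y1 y2 w g1 g2
      rw [map_sub, Derivation.leibniz, g1, g2, PowerSeries.derivative_C]
      simp only [smul_eq_mul]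
      ring
    exact hZ _ _ _ _ (hY1.trans (by rw [hw])) hY2
  · have hC : ∀ (c d e : ℂ) (y1 y2 : PowerSeries (P m)), PowerSeries.constantCoeff y1 =
        MvPolynomial.C d → PowerSeries.constantCoeff y2 = MvPolynomial.C e → c * e = d →
        PowerSeries.constantCoeff (y1 - PowerSeries.C (MvPolynomial.C c) * y2) = 0 := by
      intro c d e y1 y2 g1 g2 g3
      rw [map_sub, map_mul, g1, g2, PowerSeries.constantCoeff_C, ← map_mul, g3, sub_self]
    exact hC _ _ _ _ _ hc1 hc2 (div_mul_cancel₀ _ n2)

end Pool.Agent.Lib.MP_8ce23f_nt.RR
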