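import Pool.Agent.Lib.MP_8ce23f_nt.RR.N13
import Pool.Agent.Lib.MP_8ce23f_nt.RR.N14
import Pool.Agent.Lib.MP_8ce23f_nt.RR.N09

/-!
# The `q_i` are algebraic over the exponentials

Choose `N > 0` with `n = N A` integral and use `relation`; `ex (N b_i) = ∏_k ex (X_k)^(N b_ik)` (exponents in `ℤ`;
multiply by the inverse powers to get a relation with nonnegative exponents, or work in the field).
Let `K` be the fraction field of the domain `PowerSeries (P m)`, `k = IntermediateField.adjoin ℂ {ex (X_k)} ⊆ K`, `L = k(q_1,…,q_r)`, and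
`δ` a `k`-derivation of `L`; put `y_i = δ q_i / q_i`.  Apply `δ` to the relation (logarithmic derivative):
`- N δ q_i/(1 - q_i) = ∑_j n_ij y_j`, i.e. `q_i y_i + (1 - q_i) ∑_j A_ij y_j = 0`, i.e. `Jm A q · y = 0`.  The determinant of `Jm A q`
is nonzero (its constant coefficient is the constant `det (Jm A Q) ≠ 0`; `Jm_map`), so `y = 0`.  By `jac` the `q_i` are algebraic
over `k`, and `k` is the fraction field of the image of `TT m`
(`IsFractionRing.isAlgebraic_iff`, `IntermediateField.adjoin` of `Algebra.adjoin`).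
-/

namespace Pool.Agent.Lib.MP_8ce23f_nt.RR

variable {r : ℕ}

section ld

variable {k L : Type*} [Field k] [Field L] [Algebra k L] (δ : Derivation k L L)

private theorem alg_q_ld_mul {a b : L} (ha : a ≠ 0) (hb : b ≠ 0) :
    δ (a * b) / (a * b) = δ a / a + δ b / b := by
  rw [Derivation.leibniz]
  simp only [smul_eq_mul]
  field_simp
  ring

private theorem alg_q_ld_pow {a : L} (ha : a ≠ 0) (n : ℕ) :
    δ (a ^ n) / (a ^ n) = n * (δ a / a) := by
  induction n with
  | zero => simp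
  | succ n ih =>
    rw [pow_succ, alg_q_ld_mul δ (pow_ne_zero n ha) ha, ih]
    push_cast
    ring

private theorem alg_q_ld_prod {ι : Type*} (s : Finset ι) {f : ι → L} (hf : ∀ i ∈ s, f i ≠ 0) :
    δ (∏ i ∈ s, f i) / (∏ i ∈ s, f i) = ∑ i ∈ s, δ (f i) / f i := by
  classical
  induction s using Finset.induction_on with
  | empty => simp
  | insert a s has ih =>
    rw [Finset.prod_insert has, Finset.sum_insert has,
      alg_q_ld_mul δ (hf a (Finset.mem_insert_self a s))
        (Finset.prod_ne_zero_iff.mpr fun i hi => hf i (Finset.mem_insert_of_mem hi)),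
      ih fun i hi => hf i (Finset.mem_insert_of_mem hi)]

private theorem alg_q_ld_alg (c : k) : δ (algebraMap k L c) / (algebraMap k L c) = 0 := by
  simp

end ld

private theorem alg_q_lin {k L : Type*} [Field k] [Field L] [Algebra k L] [CharZero L]
    (δ : Derivation k L L) (X : Fin r → L) (A : Matrix (Fin r) (Fin r) ℚ) (N : ℕ) (hN : N ≠ 0)
    (n : Matrix (Fin r) (Fin r) ℤ) (hn : ∀ i j, ((n i j : ℤ) : ℚ) = N * A i j)
    (c d : Fin r → k) (hc : ∀ i, c i ≠ 0) (hd : ∀ i, d i ≠ 0)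
    (hx0 : ∀ i, X i ≠ 0) (hx1 : ∀ i, 1 - X i ≠ 0)
    (hrel : ∀ i, (1 - X i) ^ N * algebraMap k L (c i) * ∏ j, X j ^ (-(n i j)).toNat =
      algebraMap k L (d i) * ∏ j, X j ^ (n i j).toNat) (i : Fin r) :
    X i * (δ (X i) / X i) + (1 - X i) * ∑ j, ((A i j : ℚ) : L) * (δ (X j) / X j) = 0 := by
  have hp : ∀ e : Fin r → ℕ, (∏ j, X j ^ e j) ≠ 0 := fun e =>
    Finset.prod_ne_zero_iff.mpr fun j _ => pow_ne_zero _ (hx0 j)
  have hc' : algebraMap k L (c i) ≠ 0 := (map_ne_zero _).mpr (hc i)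
  have hd' : algebraMap k L (d i) ≠ 0 := (map_ne_zero _).mpr (hd i)
  have hprod : ∀ e : Fin r → ℕ, δ (∏ j, X j ^ e j) / (∏ j, X j ^ e j) =
      ∑ j, (e j : L) * (δ (X j) / X j) := by
    intro e
    rw [alg_q_ld_prod δ Finset.univ fun j _ => pow_ne_zero _ (hx0 j)]
    exact Finset.sum_congr rfl fun j _ => alg_q_ld_pow δ (hx0 j) _
  have h : δ ((1 - X i) ^ N * algebraMap k L (c i) * ∏ j, X j ^ (-(n i j)).toNat) /
      ((1 - X i) ^ N * algebraMap k L (c i) * ∏ j, X j ^ (-(n i j)).toNat) =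
      δ (algebraMap k L (d i) * ∏ j, X j ^ (n i j).toNat) /
      (algebraMap k L (d i) * ∏ j, X j ^ (n i j).toNat) := by
    rw [hrel i]
  rw [alg_q_ld_mul δ (mul_ne_zero (pow_ne_zero N (hx1 i)) hc') (hp _),
    alg_q_ld_mul δ (pow_ne_zero N (hx1 i)) hc', alg_q_ld_mul δ hd' (hp _),
    alg_q_ld_alg, alg_q_ld_alg, hprod, hprod, alg_q_ld_pow δ (hx1 i)] at h
  have hnA : ∀ j, ((n i j : ℤ) : L) = N * ((A i j : ℚ) : L) := by
    intro j
    have h2 := congrArg (fun z : ℚ => (z : L)) (hn i j)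
    simpa using h2
  have hsplit : ∀ j, (((n i j).toNat : ℕ) : L) - (((-(n i j)).toNat : ℕ) : L) = ((n i j : ℤ) : L) := by
    intro j
    have h3 : (((n i j).toNat : ℕ) : ℤ) - (((-(n i j)).toNat : ℕ) : ℤ) = n i j := by omega
    calc (((n i j).toNat : ℕ) : L) - (((-(n i j)).toNat : ℕ) : L) =
        (((((n i j).toNat : ℕ) : ℤ) - (((-(n i j)).toNat : ℕ) : ℤ) : ℤ) : L) := by
          rw [Int.cast_sub, Int.cast_natCast, Int.cast_natCast]
      _ = _ := by rw [h3]
  have h5 : (N : L) * (δ (1 - X i) / (1 - X i)) =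
      (N : L) * ∑ j, ((A i j : ℚ) : L) * (δ (X j) / X j) := by
    have h6 : (N : L) * (δ (1 - X i) / (1 - X i)) =
        ∑ j, (((n i j).toNat : ℕ) : L) * (δ (X j) / X j) -
          ∑ j, (((-(n i j)).toNat : ℕ) : L) * (δ (X j) / X j) := by
      rw [eq_sub_iff_add_eq]
      simpa using h
    rw [h6, ← Finset.sum_sub_distrib, Finset.mul_sum]
    refine Finset.sum_congr rfl fun j _ => ?_
    rw [← sub_mul, hsplit, hnA]
    ring
  have h7 : δ (1 - X i) / (1 - X i) = ∑ j, ((A i j : ℚ) : L) * (δ (X j) / X j) :=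
    mul_left_cancel₀ (Nat.cast_ne_zero.mpr hN) h5
  have h8 : δ (1 - X i) = - δ (X i) := by simp
  rw [← h7, h8, mul_div_cancel₀ _ (hx1 i), mul_div_cancel₀ _ (hx0 i)]
  ring

private theorem alg_q_fieldaux {k K : Type*} [Field k] [Field K] [Algebra k K] [CharZero k]
    (x : Fin r → K) (A : Matrix (Fin r) (Fin r) ℚ) (N : ℕ) (hN : N ≠ 0)
    (n : Matrix (Fin r) (Fin r) ℤ) (hn : ∀ i j, ((n i j : ℤ) : ℚ) = N * A i j)
    (c d : Fin r → k) (hc : ∀ i, c i ≠ 0) (hd : ∀ i, d i ≠ 0)
    (hx0 : ∀ i, x i ≠ 0) (hx1 : ∀ i, 1 - x i ≠ 0)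
    (hrel : ∀ i, (1 - x i) ^ N * algebraMap k K (c i) * ∏ j, x j ^ (-(n i j)).toNat =
      algebraMap k K (d i) * ∏ j, x j ^ (n i j).toNat)
    (hdet : (Jm (fun i j => ((A i j : ℚ) : K)) x).det ≠ 0) (L : IntermediateField k K)
    (X : Fin r → L) (hXK : ∀ i, algebraMap L K (X i) = x i) (δ : Derivation k L L)
    (i : Fin r) : δ (X i) = 0 := by
  have : CharZero L := charZero_of_injective_algebraMap (algebraMap k L).injective
  have hinj := (algebraMap L K).injective
  have hX0 : ∀ i, X i ≠ 0 := by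
    intro i h
    exact hx0 i (by rw [← hXK, h, map_zero])
  have hX1 : ∀ i, 1 - X i ≠ 0 := by
    intro i h
    refine hx1 i ?_
    rw [← hXK, ← map_one (algebraMap L K), ← map_sub, h, map_zero]
  have hrelL : ∀ i, (1 - X i) ^ N * algebraMap k L (c i) * ∏ j, X j ^ (-(n i j)).toNat =
      algebraMap k L (d i) * ∏ j, X j ^ (n i j).toNat := by
    intro i
    apply hinj
    simp only [map_mul, map_pow, map_sub, map_one, map_prod, hXK,
      ← IsScalarTower.algebraMap_apply k L K]
    exact hrel i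
  have hlin := alg_q_lin δ X A N hN n hn c d hc hd hX0 hX1 hrelL
  have hy : (fun j => algebraMap L K (δ (X j) / X j)) = 0 := by
    refine Matrix.eq_zero_of_mulVec_eq_zero hdet ?_
    funext i
    have h1 := congrArg (algebraMap L K) (hlin i)
    simp only [map_add, map_mul, map_sub, map_one, map_sum, hXK, map_zero, map_ratCast] at h1
    rw [Pi.zero_apply, ← h1]
    simp only [Matrix.mulVec, dotProduct, Jm, Matrix.of_apply, add_mul, Finset.sum_add_distrib,
      ite_mul, zero_mul, Finset.sum_ite_eq, Finset.mem_univ, if_true]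
    rw [Finset.mul_sum]
    congr 1
    exact Finset.sum_congr rfl fun j _ => by ring
  have h2 := congrFun hy i
  simp only [Pi.zero_apply] at h2
  have h3 : δ (X i) / X i = 0 := hinj (by rw [h2, map_zero])
  rcases div_eq_zero_iff.mp h3 with h4 | h4
  · exact h4
  · exact absurd h4 (hX0 i)

private theorem alg_q_field {k K : Type*} [Field k] [Field K] [Algebra k K] [CharZero k]
    (x : Fin r → K) (A : Matrix (Fin r) (Fin r) ℚ) (N : ℕ) (hN : N ≠ 0)
    (n : Matrix (Fin r) (Fin r) ℤ) (hn : ∀ i j, ((n i j : ℤ) : ℚ) = N * A i j)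
    (c d : Fin r → k) (hc : ∀ i, c i ≠ 0) (hd : ∀ i, d i ≠ 0)
    (hx0 : ∀ i, x i ≠ 0) (hx1 : ∀ i, 1 - x i ≠ 0)
    (hrel : ∀ i, (1 - x i) ^ N * algebraMap k K (c i) * ∏ j, x j ^ (-(n i j)).toNat =
      algebraMap k K (d i) * ∏ j, x j ^ (n i j).toNat)
    (hdet : (Jm (fun i j => ((A i j : ℚ) : K)) x).det ≠ 0) (i : Fin r) :
    IsAlgebraic k (x i) := by
  have : CharZero K := charZero_of_injective_algebraMap (algebraMap k K).injective
  refine jac x ?_ i
  intro δ i
  obtain ⟨X, hX⟩ : ∃ X : Fin r → IntermediateField.adjoin k (Set.range x), X = fun i =>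
    ⟨x i, IntermediateField.subset_adjoin k _ ⟨i, rfl⟩⟩ := ⟨_, rfl⟩
  have goal' : δ (X i) = 0 := alg_q_fieldaux x A N hN n hn c d hc hd hx0 hx1 hrel hdet
    (IntermediateField.adjoin k (Set.range x)) X (fun i => by rw [hX]; rfl) δ i
  rw [hX] at goal'
  exact goal'

private theorem alg_q_denoms (A : Matrix (Fin r) (Fin r) ℚ) :
    ∃ N : ℕ, N ≠ 0 ∧ ∃ n : Matrix (Fin r) (Fin r) ℤ, ∀ i j, ((n i j : ℤ) : ℚ) = N * A i j := by
  refine ⟨∏ p : Fin r × Fin r, (A p.1 p.2).den,
    Finset.prod_ne_zero_iff.mpr fun p _ => (A p.1 p.2).den_nz, ?_⟩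
  have hdvd : ∀ i j, (A i j).den ∣ ∏ p : Fin r × Fin r, (A p.1 p.2).den := fun i j =>
    Finset.dvd_prod_of_mem (fun p : Fin r × Fin r => (A p.1 p.2).den) (Finset.mem_univ (i, j))
  choose e he using hdvd
  refine ⟨fun i j => (e i j : ℤ) * (A i j).num, fun i j => ?_⟩
  rw [he i j]
  have h1 : ((A i j).den : ℚ) * A i j = (A i j).num := Rat.den_mul_eq_num (A i j)
  push_cast
  rw [← h1]
  ring

private theorem alg_q_ex_zero {R : Type*} [CommRing R] [Algebra ℚ R] : ex (0 : R) = 1 := by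
  ext n
  rcases Nat.eq_zero_or_pos n with h | h
  · subst h
    simp [ex]
  · simp [ex, PowerSeries.coeff_one, Nat.pos_iff_ne_zero.mp h]

private theorem alg_q_ex_nat {R : Type*} [CommRing R] [Algebra ℚ R] (n : ℕ) (a : R) :
    ex ((n : R) * a) = ex a ^ n := by
  induction n with
  | zero => simp [alg_q_ex_zero]
  | succ n ih => rw [Nat.cast_succ, add_mul, one_mul, ex_add, ih, pow_succ]

private theorem alg_q_ex_sum {R : Type*} [CommRing R] [Algebra ℚ R] {ι : Type*} (s : Finset ι)
    (a : ι → R) : ex (∑ i ∈ s, a i) = ∏ i ∈ s, ex (a i) := by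
  classical
  induction s using Finset.induction_on with
  | empty => simp [alg_q_ex_zero]
  | insert b s hb ih => rw [Finset.sum_insert hb, Finset.prod_insert hb, ex_add, ih]

private theorem alg_q_ex_int {R : Type*} [CommRing R] [Algebra ℚ R] (z : ℤ) (a : R) :
    ex ((z : R) * a) * ex a ^ (-z).toNat = ex a ^ z.toNat := by
  rw [← alg_q_ex_nat, ← alg_q_ex_nat, ← ex_add, ← add_mul]
  have h : z + (((-z).toNat : ℕ) : ℤ) = ((z.toNat : ℕ) : ℤ) := by omega
  have h2 := congrArg (fun z : ℤ => (z : R)) h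
  simp only [Int.cast_add, Int.cast_natCast] at h2
  rw [h2]

private theorem alg_q_ex_ne {R : Type*} [CommRing R] [Nontrivial R] [Algebra ℚ R] (a : R) :
    ex a ≠ 0 := by
  intro h
  have h1 := congrArg (PowerSeries.coeff (R := R) 0) h
  rw [ex, PowerSeries.coeff_rescale] at h1
  simp at h1

private theorem alg_q_ex_mem {m : ℕ} (k : Fin m) : ex (MvPolynomial.X k : P m) ∈ TT m := by
  refine ⟨MvPolynomial.X k, ?_⟩
  simp [zMap]

theorem alg_q {m : ℕ} {A : Matrix (Fin r) (Fin r) ℚ} {Q : Fin r → ℂ} (b : Fin r → Fin m → ℤ)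
    {q u : Fin r → PowerSeries (P m)}
    (h : IsSym (fun i j => (MvPolynomial.C ((A i j : ℚ) : ℂ) : P m)) (fun i => MvPolynomial.C (Q i))
      (fun i => ∑ k, MvPolynomial.C (b i k : ℂ) * MvPolynomial.X k) q u)
    (h0 : ∀ i, Q i ≠ 0) (h1 : ∀ i, Q i ≠ 1)
    (hd : (Jm (A.map fun x : ℚ => (x : ℂ)) Q).det ≠ 0) (i : Fin r) :
    IsAlgebraic (TT m) (q i) := by
  obtain ⟨N, hN, n, hn⟩ := alg_q_denoms A
  have hrel := fun i => relation h h0 h1 N n hn i
  choose c hc hrel using hrel
  -- the exponential factors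
  set ep : Fin r → PowerSeries (P m) := fun i =>
    ∏ k, ex (MvPolynomial.X k : P m) ^ ((N : ℤ) * b i k).toNat with hep
  set em : Fin r → PowerSeries (P m) := fun i =>
    ∏ k, ex (MvPolynomial.X k : P m) ^ (-((N : ℤ) * b i k)).toNat with hem
  have hex : ∀ i, ex ((N : P m) * ∑ k, MvPolynomial.C (b i k : ℂ) * MvPolynomial.X k) * em i =
      ep i := by
    intro i
    have e1 : ((N : P m) * ∑ k, MvPolynomial.C (b i k : ℂ) * MvPolynomial.X k) =
        ∑ k, ((((N : ℤ) * b i k : ℤ) : P m)) * MvPolynomial.X k := by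
      rw [Finset.mul_sum]
      refine Finset.sum_congr rfl fun k _ => ?_
      have e2 : (MvPolynomial.C (b i k : ℂ) : P m) = ((b i k : ℤ) : P m) := by
        simp
      rw [e2]
      push_cast
      ring
    rw [e1, alg_q_ex_sum, hem, hep, ← Finset.prod_mul_distrib]
    exact Finset.prod_congr rfl fun k _ => alg_q_ex_int _ _
  have hepm : ∀ i, ep i ∈ TT m := fun i =>
    prod_mem fun k _ => pow_mem (alg_q_ex_mem k) _
  have hemm : ∀ i, em i ∈ TT m := fun i =>
    prod_mem fun k _ => pow_mem (alg_q_ex_mem k) _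
  have hep0 : ∀ i, ep i ≠ 0 := fun i =>
    Finset.prod_ne_zero_iff.mpr fun k _ => pow_ne_zero _ (alg_q_ex_ne _)
  have hem0 : ∀ i, em i ≠ 0 := fun i =>
    Finset.prod_ne_zero_iff.mpr fun k _ => pow_ne_zero _ (alg_q_ex_ne _)
  have hcC : ∀ i, (PowerSeries.C (MvPolynomial.C (c i)) : PowerSeries (P m)) ∈ TT m := by
    intro i
    have h2 := (TT m).algebraMap_mem (c i)
    rwa [PowerSeries.algebraMap_apply] at h2
  have hcC0 : ∀ i, (PowerSeries.C (MvPolynomial.C (c i)) : PowerSeries (P m)) ≠ 0 := by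
    intro i hh
    have h2 := congrArg (PowerSeries.constantCoeff (R := P m)) hh
    simp [hc i] at h2
  have hrel2 : ∀ i, (1 - q i) ^ N * ep i * ∏ j, q j ^ (-(n i j)).toNat =
      (PowerSeries.C (MvPolynomial.C (c i)) * em i) * ∏ j, q j ^ (n i j).toNat := by
    intro i
    rw [← hex i]
    have h3 := hrel i
    calc _ = ((1 - q i) ^ N * ex ((N : P m) * ∑ k, MvPolynomial.C (b i k : ℂ) *
          MvPolynomial.X k) * ∏ j, q j ^ (-(n i j)).toNat) * em i := by ring
      _ = _ := by rw [h3]; ring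
  -- the fields
  let : Algebra (FractionRing (TT m)) (FractionRing (PowerSeries (P m))) :=
    FractionRing.liftAlgebra (TT m) (FractionRing (PowerSeries (P m)))
  have : IsScalarTower (TT m) (FractionRing (TT m)) (FractionRing (PowerSeries (P m))) :=
    FractionRing.isScalarTower_liftAlgebra (TT m) (FractionRing (PowerSeries (P m)))
  have : CharZero (FractionRing (TT m)) :=
    charZero_of_injective_ringHom
      ((algebraMap (TT m) (FractionRing (TT m))).comp (algebraMap ℂ (TT m))).injective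
  set φ : PowerSeries (P m) →+* FractionRing (PowerSeries (P m)) :=
    algebraMap (PowerSeries (P m)) (FractionRing (PowerSeries (P m))) with hφ
  have hφinj : Function.Injective φ := IsFractionRing.injective _ _
  have hTT : ∀ (a : PowerSeries (P m)) (ha : a ∈ TT m),
      algebraMap (FractionRing (TT m)) (FractionRing (PowerSeries (P m)))
        (algebraMap (TT m) (FractionRing (TT m)) ⟨a, ha⟩) = φ a := by
    intro a ha
    rw [← IsScalarTower.algebraMap_apply (TT m) (FractionRing (TT m))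
      (FractionRing (PowerSeries (P m)))]
    rfl
  have hq0 : ∀ i, q i ≠ 0 := by
    intro i hh
    have h2 := h.q0 i
    rw [hh, map_zero] at h2
    exact h0 i ((MvPolynomial.C_eq_zero (σ := Fin m)).mp h2.symm)
  have hq1 : ∀ i, 1 - q i ≠ 0 := by
    intro i hh
    have h2 := h.q0 i
    rw [← sub_eq_zero.mp hh, map_one] at h2
    exact h1 i ((MvPolynomial.C_injective (Fin m) ℂ (by rw [map_one]; exact h2.symm)))
  have hdet : (Jm (fun i j => ((A i j : ℚ) : FractionRing (PowerSeries (P m))))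
      (fun i => φ (q i))).det ≠ 0 := by
    have h2 : (Jm (fun i j => (PowerSeries.C (MvPolynomial.C ((A i j : ℚ) : ℂ)) :
        PowerSeries (P m))) q).det ≠ 0 := by
      intro hh
      have h3 := congrArg (PowerSeries.constantCoeff (R := P m)) hh
      rw [map_zero, ← Jm_map] at h3
      simp only [h.q0, PowerSeries.constantCoeff_C] at h3
      have h4 := Jm_map (r := r) (MvPolynomial.C : ℂ →+* P m)
        (A.map fun x : ℚ => (x : ℂ)) Q
      simp only [Matrix.map_apply] at h4
      rw [h4] at h3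
      exact hd ((MvPolynomial.C_eq_zero (σ := Fin m)).mp h3)
    have h5 := Jm_map φ (fun i j => (PowerSeries.C (MvPolynomial.C ((A i j : ℚ) : ℂ)) :
        PowerSeries (P m))) q
    have h6 : (fun i j => φ (PowerSeries.C (MvPolynomial.C ((A i j : ℚ) : ℂ)))) =
        fun i j => ((A i j : ℚ) : FractionRing (PowerSeries (P m))) := by
      funext i j
      exact map_ratCast ((φ.comp (PowerSeries.C (R := P m))).comp (MvPolynomial.C : ℂ →+* P m)) (A i j)
    rw [h6] at h5
    rw [h5]
    exact (map_ne_zero_iff φ hφinj).mpr h2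
  have key := alg_q_field (k := FractionRing (TT m)) (K := FractionRing (PowerSeries (P m)))
    (fun i => φ (q i)) A N hN n hn
    (fun i => algebraMap (TT m) (FractionRing (TT m)) ⟨ep i, hepm i⟩)
    (fun i => algebraMap (TT m) (FractionRing (TT m))
      ⟨PowerSeries.C (MvPolynomial.C (c i)) * em i, mul_mem (hcC i) (hemm i)⟩)
    (fun i hh => hep0 i (by
      have h2 := IsFractionRing.injective (TT m) (FractionRing (TT m)) (hh.trans (map_zero _).symm)
      exact congrArg Subtype.val h2))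
    (fun i hh => mul_ne_zero (hcC0 i) (hem0 i) (by
      have h2 := IsFractionRing.injective (TT m) (FractionRing (TT m)) (hh.trans (map_zero _).symm)
      exact congrArg Subtype.val h2))
    (fun i => (map_ne_zero_iff φ hφinj).mpr (hq0 i))
    (fun i => by
      have h2 := (map_ne_zero_iff φ hφinj).mpr (hq1 i)
      rwa [map_sub, map_one] at h2)
    (fun i => by
      rw [hTT, hTT]
      have h2 := congrArg φ (hrel2 i)
      simp only [map_mul, map_pow, map_sub, map_one, map_prod] at h2 ⊢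
      exact h2)
    hdet i
  have key2 : IsAlgebraic (TT m) (φ (q i)) :=
    (IsFractionRing.isAlgebraic_iff (TT m) (FractionRing (TT m))
      (FractionRing (PowerSeries (P m)))).mpr key
  exact (isAlgebraic_algebraMap_iff hφinj).mp key2

end Pool.Agent.Lib.MP_8ce23f_nt.RR
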