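import Pool.Agent.Lib.MP_8ce23f_nt.RR.N15
import Pool.Agent.Lib.MP_8ce23f_nt.RR.N11

/-!
# The flat direction spreads over the rational span

Let `m, θ, b` be as in `exists_basis β`, `φ = lsub b : P r → P m`.  `PowerSeries.map φ` of the system in `IsTop` gives `IsSym` over `P m` with
`q'_i = map φ q_i` and right sides `∑_k b_ik X_k`; so the `q'_i` are algebraic (`alg_q`).
Put `M'_ij = map φ (Mm V i j)`.  `mm` says `Jm (C A) q' * M' = diag (1 - q')`; multiply by the adjugate:
`det (Jm) M' = adj (Jm) diag (1 - q')`, so every `M'_ij` is algebraic over `TT m` (`IsAlgebraic.of_mul`, the determinant is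
algebraic and nonzero), hence so is `Ψ = ∑_i ∑_j β_i β_j M'_ij - C (C c₀)`, `c₀ = ∑∑ β_i β_j (coefficient 0, a constant since V 1 is quadratic)`.
`map (eval θ) (map φ p) = map (eval β) p`, so coefficient `k` of `map (eval θ) Ψ` is (`k ≥ 1`)
`∑∑ β_i β_j (∂_i ∂_j V_{k+1})(β) = (k+2)(k+1) V_{k+1}(β) = 0` (Euler twice), and `0` for `k = 0`.  By `vanish`, `Ψ = 0`,
i.e. `φ (dd β (V (k+1))) = 0` for `k ≥ 1`.  Finally `x_i = ∑_k b_ik σ_k` for `x ∈ Wspan β`, so
`eval x p = eval σ (φ p)`.
-/

namespace Pool.Agent.Lib.MP_8ce23f_nt.RR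

variable {r : ℕ}

private theorem N16_eval_lsub {m : ℕ} (b : Fin r → Fin m → ℤ) {x : Fin r → ℂ} {σ : Fin m → ℂ}
    (hx : ∀ i, x i = ∑ k, (b i k : ℂ) * σ k) (p : P r) :
    MvPolynomial.eval σ (lsub b p) = MvPolynomial.eval x p := by
  have h : ((MvPolynomial.aeval σ : P m →ₐ[ℂ] ℂ).comp (lsub b)) = (MvPolynomial.aeval x : P r →ₐ[ℂ] ℂ) := by
    refine MvPolynomial.algHom_ext fun i => ?_
    rw [AlgHom.comp_apply, lsub, MvPolynomial.aeval_X, map_sum, MvPolynomial.aeval_X, hx i]
    refine Finset.sum_congr rfl fun k _ => ?_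
    rw [map_mul, MvPolynomial.aeval_X, MvPolynomial.aeval_C]
    rfl
  exact DFunLike.congr_fun h p

private theorem N16_euler {p : P r} {n : ℕ} (hp : p.IsHomogeneous (n + 1)) (β : Fin r → ℂ) :
    MvPolynomial.eval β (dd β p) = ((n : ℂ) * (n + 1)) * MvPolynomial.eval β p := by
  have he : ∀ {f : P r} {d : ℕ}, f.IsHomogeneous d →
      ∑ i, β i * MvPolynomial.eval β (MvPolynomial.pderiv i f) = d * MvPolynomial.eval β f := by
    intro f d hf
    have h1 := congrArg (MvPolynomial.eval β) hf.sum_X_mul_pderiv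
    rw [map_sum, map_nsmul, nsmul_eq_mul] at h1
    rw [← h1]
    refine Finset.sum_congr rfl fun i _ => ?_
    rw [map_mul, MvPolynomial.eval_X]
  have h2 : MvPolynomial.eval β (dd β p) = ∑ j, β j * ∑ i, β i *
      MvPolynomial.eval β (MvPolynomial.pderiv i (MvPolynomial.pderiv j p)) := by
    unfold dd
    rw [map_sum]
    simp only [map_sum, map_mul, MvPolynomial.eval_C]
    rw [Finset.sum_comm]
    refine Finset.sum_congr rfl fun j _ => ?_
    rw [Finset.mul_sum]
    refine Finset.sum_congr rfl fun i _ => ?_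
    ring
  have h3 : ∀ j, ∑ i, β i * MvPolynomial.eval β (MvPolynomial.pderiv i (MvPolynomial.pderiv j p)) =
      n * MvPolynomial.eval β (MvPolynomial.pderiv j p) := by
    intro j
    exact he (hp.pderiv (i := j))
  rw [h2]
  simp only [h3]
  have h4 : ∑ j, β j * ((n : ℂ) * MvPolynomial.eval β (MvPolynomial.pderiv j p)) =
      n * ∑ j, β j * MvPolynomial.eval β (MvPolynomial.pderiv j p) := by
    rw [Finset.mul_sum]
    refine Finset.sum_congr rfl fun j _ => ?_
    ring
  rw [h4, he hp]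
  push_cast
  ring

private theorem N16_jm_mul {R : Type*} [CommRing R] (A : Matrix (Fin r) (Fin r) R) (q : Fin r → R)
    (M : Matrix (Fin r) (Fin r) R)
    (h : ∀ i j, q i * M i j + (1 - q i) * (∑ l, A i l * M l j - (if i = j then 1 else 0)) = 0) :
    Jm A q * M = Matrix.diagonal fun i => 1 - q i := by
  ext i j
  rw [Matrix.mul_apply, Matrix.diagonal_apply]
  have h1 : ∑ l, Jm A q i l * M l j = q i * M i j + (1 - q i) * ∑ l, A i l * M l j := by
    have h2 : ∀ l, Jm A q i l * M l j = (if i = l then q i * M l j else 0) + (1 - q i) * (A i l * M l j) := by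
      intro l
      unfold Jm
      rw [Matrix.of_apply]
      split_ifs <;> ring
    simp only [h2]
    rw [Finset.sum_add_distrib, Finset.sum_ite_eq, if_pos (Finset.mem_univ _), ← Finset.mul_sum]
  rw [h1]
  have h3 := h i j
  split_ifs at h3 ⊢ with hij
  · linear_combination h3
  · linear_combination h3

private theorem N16_alg {m : ℕ} {A : Matrix (Fin r) (Fin r) (PowerSeries (P m))}
    {q : Fin r → PowerSeries (P m)} {M : Matrix (Fin r) (Fin r) (PowerSeries (P m))}
    (hA : ∀ i j, IsAlgebraic (TT m) (A i j)) (hq : ∀ i, IsAlgebraic (TT m) (q i))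
    (hdet : (Jm A q).det ≠ 0) (h : Jm A q * M = Matrix.diagonal fun i => 1 - q i) (i j : Fin r) :
    IsAlgebraic (TT m) (M i j) := by
  set S := Subalgebra.algebraicClosure (TT m) (PowerSeries (P m)) with hS
  have hJ : ∀ i j, Jm A q i j ∈ S := by
    intro i j
    unfold Jm
    rw [Matrix.of_apply]
    refine S.add_mem ?_ (S.mul_mem (S.sub_mem S.one_mem (hq i)) (hA i j))
    split_ifs
    · exact hq i
    · exact S.zero_mem
  have hdetS : ∀ N : Matrix (Fin r) (Fin r) (PowerSeries (P m)), (∀ i j, N i j ∈ S) → N.det ∈ S := by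
    intro N hN
    rw [Matrix.det_apply]
    refine S.sum_mem fun σ _ => ?_
    rw [Units.smul_def]
    exact S.zsmul_mem (S.prod_mem fun i _ => hN _ _) _
  have hadj : ∀ i j, (Jm A q).adjugate i j ∈ S := by
    intro i j
    rw [Matrix.adjugate_apply]
    refine hdetS _ fun a b => ?_
    rw [Matrix.updateRow_apply]
    split_ifs
    · rw [Pi.single_apply]
      split_ifs
      · exact S.one_mem
      · exact S.zero_mem
    · exact hJ a b
  have h1 : (Jm A q).det * M i j ∈ S := by
    have h2 : (Jm A q).det • M = (Jm A q).adjugate * Matrix.diagonal fun i => 1 - q i := by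
      rw [← h, ← Matrix.mul_assoc, Matrix.adjugate_mul, Matrix.smul_mul, Matrix.one_mul]
    have h3 : (Jm A q).det * M i j = ((Jm A q).adjugate * Matrix.diagonal fun i => 1 - q i) i j := by
      rw [← h2, Matrix.smul_apply, smul_eq_mul]
    rw [h3, Matrix.mul_diagonal]
    exact S.mul_mem (hadj i j) (S.sub_mem S.one_mem (hq j))
  exact IsAlgebraic.of_mul (mem_nonZeroDivisors_of_ne_zero hdet) (hdetS _ hJ) h1

theorem flat_span {A : Matrix (Fin r) (Fin r) ℚ} {Q : Fin r → ℂ} {V : ℕ → P r}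
    {q : Fin r → PowerSeries (P r)} (h : IsTop (A.map fun x : ℚ => (x : ℂ)) Q V q)
    (h0 : ∀ i, Q i ≠ 0) (h1 : ∀ i, Q i ≠ 1)
    (hd : (Jm (A.map fun x : ℚ => (x : ℂ)) Q).det ≠ 0) {β : Fin r → ℂ}
    (hβ : ∀ k, 2 ≤ k → MvPolynomial.eval β (V k) = 0) {k : ℕ} (hk : 2 ≤ k)
    {x : Fin r → ℂ} (hx : x ∈ Wspan β) : MvPolynomial.eval x (dd β (V k)) = 0 := by
  obtain ⟨m, θ, b, hθ, hθβ, hW⟩ := exists_basis β
  set φ : P r →+* P m := (lsub b : P r →ₐ[ℂ] P m).toRingHom with hφdef
  have hφC : ∀ c : ℂ, φ (MvPolynomial.C c) = MvPolynomial.C c := fun c => by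
    have := (lsub b : P r →ₐ[ℂ] P m).commutes c
    exact this
  have hφX : ∀ i, φ (MvPolynomial.X i) = ∑ k, MvPolynomial.C (b i k : ℂ) * MvPolynomial.X k := fun i => by
    show (lsub b : P r →ₐ[ℂ] P m) (MvPolynomial.X i) = _
    rw [lsub, MvPolynomial.aeval_X]
  have hsym : IsSym (fun i j => (MvPolynomial.C ((A i j : ℚ) : ℂ) : P m)) (fun i => MvPolynomial.C (Q i))
      (fun i => ∑ k, MvPolynomial.C (b i k : ℂ) * MvPolynomial.X k)
      (fun i => PowerSeries.map φ (q i)) (fun i => PowerSeries.map φ (Uu V i)) := by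
    have h2 := h.sym.map φ
    simp only [hφC, hφX] at h2
    exact h2
  have halg : ∀ i, IsAlgebraic (TT m) (PowerSeries.map φ (q i)) := fun i => alg_q b hsym h0 h1 hd i
  have hCalg : ∀ c : ℂ, IsAlgebraic (TT m) (PowerSeries.C (MvPolynomial.C c) : PowerSeries (P m)) :=
    fun c => by
      have h2 : (PowerSeries.C (MvPolynomial.C c) : PowerSeries (P m)) ∈ TT m := by
        have h3 := (TT m).algebraMap_mem c
        rw [PowerSeries.algebraMap_apply, MvPolynomial.algebraMap_eq] at h3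
        exact h3
      exact isAlgebraic_algebraMap (A := PowerSeries (P m)) (⟨_, h2⟩ : TT m)
  set M' : Matrix (Fin r) (Fin r) (PowerSeries (P m)) := fun i j => PowerSeries.map φ (Mm V i j)
    with hM'
  set A'' : Matrix (Fin r) (Fin r) (PowerSeries (P m)) :=
    fun i j => PowerSeries.C (MvPolynomial.C ((A i j : ℚ) : ℂ)) with hA''
  set q' : Fin r → PowerSeries (P m) := fun i => PowerSeries.map φ (q i) with hq'
  have hmm : ∀ i j, q' i * M' i j + (1 - q' i) * (∑ l, A'' i l * M' l j -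
      (if i = j then 1 else 0)) = 0 := by
    intro i j
    have h2 := congrArg (PowerSeries.map φ) (h.mm i j)
    simp only [map_add, map_mul, map_sub, map_one, map_sum, map_zero, PowerSeries.map_C,
      Matrix.map_apply, hφC] at h2
    have h3 : (PowerSeries.C (φ (if i = j then 1 else 0)) : PowerSeries (P m)) =
        (if i = j then 1 else 0) := by
      split_ifs
      · rw [map_one, map_one]
      · rw [map_zero, map_zero]
    rw [h3] at h2
    exact h2
  have hdet : (Jm A'' q').det ≠ 0 := by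
    intro hz
    have h2 := Jm_map (PowerSeries.constantCoeff (R := P m)) A'' q'
    rw [hz, map_zero] at h2
    have h3 : (fun i => PowerSeries.constantCoeff (q' i)) = fun i => MvPolynomial.C (Q i) :=
      funext hsym.q0
    have h4 : (fun i j => PowerSeries.constantCoeff (A'' i j)) =
        fun i j => (MvPolynomial.C ((A i j : ℚ) : ℂ) : P m) := by
      funext i j
      exact PowerSeries.constantCoeff_C _
    have h5 := Jm_map (MvPolynomial.C : ℂ →+* P m) (A.map fun x : ℚ => (x : ℂ)) Q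
    rw [h3, h4] at h2
    exact hd (MvPolynomial.C_injective _ _ ((h5.symm.trans h2).trans (map_zero _).symm))
  have hM'alg : ∀ i j, IsAlgebraic (TT m) (M' i j) :=
    N16_alg (fun i j => hCalg _) halg hdet (N16_jm_mul A'' q' M' hmm)
  set Φ : PowerSeries (P m) := ∑ i, ∑ j, PowerSeries.C (MvPolynomial.C (β i * β j)) * M' i j
    with hΦ
  set c0 : ℂ := MvPolynomial.eval θ (PowerSeries.coeff 0 Φ) with hc0
  have hcΦ : ∀ k, PowerSeries.coeff k Φ = φ (dd β (V (k + 1))) := by
    intro k
    rw [hΦ]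
    unfold dd
    rw [map_sum, map_sum]
    refine Finset.sum_congr rfl fun i _ => ?_
    rw [map_sum, map_sum]
    refine Finset.sum_congr rfl fun j _ => ?_
    rw [PowerSeries.coeff_C_mul, map_mul φ, hφC]
    show _ * PowerSeries.coeff k (PowerSeries.map φ (Mm V i j)) = _
    rw [PowerSeries.coeff_map, Mm, PowerSeries.coeff_mk]
  have hΨ : IsAlgebraic (TT m) (Φ - PowerSeries.C (MvPolynomial.C c0)) := by
    set S := Subalgebra.algebraicClosure (TT m) (PowerSeries (P m)) with hS
    have h2 : Φ ∈ S := S.sum_mem fun i _ => S.sum_mem fun j _ => S.mul_mem (hCalg _) (hM'alg i j)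
    exact S.sub_mem h2 (hCalg c0)
  have hz : PowerSeries.map (MvPolynomial.eval θ) (Φ - PowerSeries.C (MvPolynomial.C c0)) = 0 := by
    ext k
    rw [PowerSeries.coeff_map, map_sub, PowerSeries.coeff_C, map_sub]
    rcases Nat.eq_zero_or_pos k with rfl | hk'
    · rw [if_pos rfl, MvPolynomial.eval_C, ← hc0, sub_self, map_zero]
    · rw [if_neg hk'.ne', map_zero, sub_zero, hcΦ, map_zero]
      show MvPolynomial.eval θ (lsub b _) = _
      rw [N16_eval_lsub b hθβ, N16_euler (h.hom (k + 1)), hβ (k + 1) (by omega), mul_zero]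
  have hv := vanish hθ hΨ hz
  obtain ⟨σ, hσ⟩ := hW x hx
  obtain ⟨k', rfl⟩ : ∃ k', k = k' + 1 := ⟨k - 1, by omega⟩
  have h6 : φ (dd β (V (k' + 1))) = 0 := by
    rw [← hcΦ k', sub_eq_zero.mp hv, PowerSeries.coeff_C, if_neg (by omega)]
  rw [← N16_eval_lsub b hσ]
  have h7 : (lsub b : P r →ₐ[ℂ] P m) (dd β (V (k' + 1))) = 0 := h6
  rw [h7, map_zero]

end Pool.Agent.Lib.MP_8ce23f_nt.RR
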