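import Pool.Agent.Lib.MP_8ce23f_nt.RR.NDefs

/-!
# From a complex direction to real directions

`u = Re β`, `v = Im β` (real vectors, as complex vectors `u', v'`).  `x u' + y v' ∈ Wspan β` for all real `x, y`: a rational relation
`∑ c_i β_i = 0` has real and imaginary parts `∑ c_i u_i = 0`, `∑ c_i v_i = 0`.  Let `G ∈ ℝ[X,Y]` (or `ℂ[X,Y]` with real coefficients) be `V(X u + Y v)`,
homogeneous of degree `k+1`, real since `V` is real.  The hypothesis says `(∂_X + i ∂_Y)² G = 0` at all real points, so
`G_XX = G_YY` and `G_XY = 0` (real and imaginary parts), so `G_XXX = G_XYY = 0` and `G_YYY = G_XXY = 0`.  The coefficient of `X^(k+1)` in `G` is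
`V(u)`, and `G_XXX = (k+1) k (k-1) V(u) X^(k-2) + …`; `k ≥ 2`, so `V(u) = 0`.  Same for `v`.
(Another way: one-variable polynomials / `iteratedDeriv` of `t ↦ V(t u + s v)`.)
-/

namespace Pool.Agent.Lib.MP_8ce23f_nt.RR

variable {r : ℕ}

private noncomputable def N17_D (w : Fin r → ℂ) (p : P r) : P r :=
  ∑ i, MvPolynomial.C (w i) * MvPolynomial.pderiv i p

private lemma N17_D_add (w : Fin r → ℂ) (p q : P r) :
    N17_D w (p + q) = N17_D w p + N17_D w q := by
  simp only [N17_D, map_add, mul_add, Finset.sum_add_distrib]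

private lemma N17_D_C (w : Fin r → ℂ) (a : ℂ) : N17_D w (MvPolynomial.C a : P r) = 0 := by
  simp [N17_D]

private lemma N17_D_X (w : Fin r → ℂ) (j : Fin r) :
    N17_D w (MvPolynomial.X j : P r) = MvPolynomial.C (w j) := by
  unfold N17_D
  rw [Finset.sum_eq_single j]
  · simp
  · intro b _ hb
    rw [MvPolynomial.pderiv_X_of_ne (Ne.symm hb)]
    simp
  · intro h
    exact absurd (Finset.mem_univ j) h

private lemma N17_D_mul (w : Fin r → ℂ) (p q : P r) :
    N17_D w (p * q) = N17_D w p * q + p * N17_D w q := by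
  simp only [N17_D, Finset.sum_mul, Finset.mul_sum, ← Finset.sum_add_distrib]
  refine Finset.sum_congr rfl fun i _ => ?_
  rw [MvPolynomial.pderiv_mul]
  ring

private lemma N17_D_comm (w w' : Fin r → ℂ) (p : P r) :
    N17_D w (N17_D w' p) = N17_D w' (N17_D w p) := by
  induction p using MvPolynomial.induction_on with
  | C a => simp only [N17_D_C]; rw [← MvPolynomial.C_0, N17_D_C, N17_D_C]
  | add p q hp hq => simp only [N17_D_add, hp, hq]
  | mul_X p i hp =>
    simp only [N17_D_add, N17_D_mul, N17_D_X, N17_D_C, hp, mul_zero, add_zero]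
    ring

private noncomputable def N17_F (x w : Fin r → ℂ) : P r →ₐ[ℂ] Polynomial ℂ :=
  MvPolynomial.aeval fun i => Polynomial.C (x i) + Polynomial.C (w i) * Polynomial.X

private lemma N17_F_C (x w : Fin r → ℂ) (a : ℂ) :
    N17_F x w (MvPolynomial.C a) = Polynomial.C a := by
  unfold N17_F
  rw [MvPolynomial.aeval_C]
  rfl

private lemma N17_F_X (x w : Fin r → ℂ) (i : Fin r) :
    N17_F x w (MvPolynomial.X i) = Polynomial.C (x i) + Polynomial.C (w i) * Polynomial.X := by
  unfold N17_F
  rw [MvPolynomial.aeval_X]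

private lemma N17_F_der (x w : Fin r → ℂ) (p : P r) :
    Polynomial.derivative (N17_F x w p) = N17_F x w (N17_D w p) := by
  induction p using MvPolynomial.induction_on with
  | C a => rw [N17_F_C, N17_D_C, map_zero, Polynomial.derivative_C]
  | add p q hp hq => rw [map_add, N17_D_add, map_add, map_add, hp, hq]
  | mul_X p i hp =>
    rw [map_mul (N17_F x w), Polynomial.derivative_mul, hp, N17_D_mul, N17_D_X,
      map_add (N17_F x w), map_mul (N17_F x w), map_mul (N17_F x w), N17_F_X, N17_F_C]
    simp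

private lemma N17_F_eval (x w : Fin r → ℂ) (s : ℂ) (p : P r) :
    Polynomial.eval s (N17_F x w p) = MvPolynomial.eval (fun i => x i + s * w i) p := by
  induction p using MvPolynomial.induction_on with
  | C a => rw [N17_F_C, Polynomial.eval_C, MvPolynomial.eval_C]
  | add p q hp hq => rw [map_add, map_add, Polynomial.eval_add, hp, hq]
  | mul_X p i hp =>
    rw [map_mul, map_mul, Polynomial.eval_mul, hp, N17_F_X, MvPolynomial.eval_X]
    simp only [Polynomial.eval_add, Polynomial.eval_C, Polynomial.eval_mul, Polynomial.eval_X]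
    ring

private lemma N17_line (x w : Fin r → ℂ) (p q : P r)
    (h : ∀ s : ℝ, MvPolynomial.eval (fun i => x i + (s : ℂ) * w i) p =
      MvPolynomial.eval (fun i => x i + (s : ℂ) * w i) q) :
    MvPolynomial.eval x (N17_D w p) = MvPolynomial.eval x (N17_D w q) := by
  have h1 : N17_F x w p = N17_F x w q := by
    refine Polynomial.eq_of_infinite_eval_eq _ _ ?_
    refine Set.Infinite.mono (s := Set.range fun s : ℝ => (s : ℂ)) ?_ ?_
    · rintro _ ⟨s, rfl⟩
      show Polynomial.eval _ _ = Polynomial.eval _ _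
      rw [N17_F_eval, N17_F_eval, h s]
    · exact Set.infinite_range_of_injective Complex.ofReal_injective
  have h2 : N17_F x w (N17_D w p) = N17_F x w (N17_D w q) := by
    rw [← N17_F_der, ← N17_F_der, h1]
  have h3 := congrArg (Polynomial.eval 0) h2
  rw [N17_F_eval, N17_F_eval] at h3
  simpa using h3

private lemma N17_euler {n : ℕ} (w : Fin r → ℂ) {p : P r} (hp : p.IsHomogeneous n) :
    MvPolynomial.eval w (N17_D w p) = n * MvPolynomial.eval w p := by
  have h := congrArg (MvPolynomial.eval w) hp.sum_X_mul_pderiv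
  rw [map_sum, nsmul_eq_mul, map_mul, map_natCast] at h
  rw [← h]
  unfold N17_D
  rw [map_sum]
  refine Finset.sum_congr rfl fun i _ => ?_
  rw [map_mul, map_mul, MvPolynomial.eval_C, MvPolynomial.eval_X]

private lemma N17_D_hom {n : ℕ} (w : Fin r → ℂ) {p : P r} (hp : p.IsHomogeneous n) :
    (N17_D w p).IsHomogeneous (n - 1) := by
  unfold N17_D
  refine MvPolynomial.IsHomogeneous.sum _ _ _ fun i _ => ?_
  have h := (MvPolynomial.isHomogeneous_C (Fin r) (w i)).mul (hp.pderiv (i := i))
  rwa [zero_add] at h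

private lemma N17_key {k : ℕ} (hk : 2 ≤ k) {V : P r} (hV : V.IsHomogeneous (k + 1))
    (u v : Fin r → ℂ)
    (h1 : ∀ s t : ℝ, MvPolynomial.eval (fun i => (s : ℂ) * u i + (t : ℂ) * v i)
        (N17_D u (N17_D u V)) =
      MvPolynomial.eval (fun i => (s : ℂ) * u i + (t : ℂ) * v i) (N17_D v (N17_D v V)))
    (h2 : ∀ s t : ℝ, MvPolynomial.eval (fun i => (s : ℂ) * u i + (t : ℂ) * v i)
        (N17_D u (N17_D v V)) = 0) :
    MvPolynomial.eval u V = 0 := by
  have a1 : MvPolynomial.eval u (N17_D u (N17_D u (N17_D u V))) =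
      MvPolynomial.eval u (N17_D u (N17_D v (N17_D v V))) := by
    refine N17_line u u _ _ fun s => ?_
    have h := h1 (1 + s) 0
    have e : (fun i => ((1 + s : ℝ) : ℂ) * u i + ((0 : ℝ) : ℂ) * v i) =
        fun i => u i + (s : ℂ) * u i := by
      funext i
      push_cast
      ring
    rwa [e] at h
  have a2 : MvPolynomial.eval u (N17_D v (N17_D u (N17_D v V))) =
      MvPolynomial.eval u (N17_D v (MvPolynomial.C 0)) := by
    refine N17_line u v _ _ fun s => ?_
    have h := h2 1 s
    have e : (fun i => ((1 : ℝ) : ℂ) * u i + (s : ℂ) * v i) =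
        fun i => u i + (s : ℂ) * v i := by
      funext i
      push_cast
      ring
    rw [e] at h
    rw [h, MvPolynomial.eval_C]
  rw [N17_D_C, map_zero] at a2
  rw [N17_D_comm u v (N17_D v V), a2] at a1
  have c1 := N17_euler u (N17_D_hom u (N17_D_hom u hV))
  have c2 := N17_euler u (N17_D_hom u hV)
  have c3 := N17_euler u hV
  rw [c1, c2, c3] at a1
  obtain ⟨m, rfl⟩ : ∃ m, k = m + 2 := ⟨k - 2, by omega⟩
  have d1 : m + 2 + 1 - 1 - 1 = m + 1 := by omega
  have d2 : m + 2 + 1 - 1 = m + 2 := by omega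
  rw [d1, d2] at a1
  have e1 : ((m + 1 : ℕ) : ℂ) ≠ 0 := Nat.cast_ne_zero.mpr (by omega)
  have e2 : ((m + 2 : ℕ) : ℂ) ≠ 0 := Nat.cast_ne_zero.mpr (by omega)
  have e3 : ((m + 2 + 1 : ℕ) : ℂ) ≠ 0 := Nat.cast_ne_zero.mpr (by omega)
  have b1 := (mul_eq_zero.mp a1).resolve_left e1
  have b2 := (mul_eq_zero.mp b1).resolve_left e2
  exact (mul_eq_zero.mp b2).resolve_left e3

private lemma N17_conj_eval (a : Fin r → ℝ) (p : P r) :
    (starRingEnd ℂ) (MvPolynomial.eval (fun i => (a i : ℂ)) p) =
      MvPolynomial.eval (fun i => (a i : ℂ)) (MvPolynomial.map (starRingEnd ℂ) p) := by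
  induction p using MvPolynomial.induction_on with
  | C a => rw [MvPolynomial.eval_C, MvPolynomial.map_C, MvPolynomial.eval_C]
  | add p q hp hq => rw [map_add, map_add, map_add, map_add, hp, hq]
  | mul_X p i hp =>
    rw [map_mul, map_mul, map_mul, map_mul, hp, MvPolynomial.eval_X, MvPolynomial.map_X,
      MvPolynomial.eval_X, Complex.conj_ofReal]

private lemma N17_D_real (a : Fin r → ℝ) {p : P r}
    (hp : MvPolynomial.map (starRingEnd ℂ) p = p) :
    MvPolynomial.map (starRingEnd ℂ) (N17_D (vC a) p) = N17_D (vC a) p := by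
  unfold N17_D vC
  rw [map_sum]
  refine Finset.sum_congr rfl fun i _ => ?_
  rw [map_mul, MvPolynomial.map_C, Complex.conj_ofReal, ← MvPolynomial.pderiv_map, hp]

private lemma N17_im (a : Fin r → ℝ) {p : P r}
    (hp : MvPolynomial.map (starRingEnd ℂ) p = p) :
    (MvPolynomial.eval (fun i => (a i : ℂ)) p).im = 0 := by
  have h := N17_conj_eval a p
  rw [hp] at h
  exact Complex.conj_eq_iff_im.mp h

private lemma N17_dd (β : Fin r → ℂ) (p : P r) : dd β p = N17_D β (N17_D β p) := by
  unfold dd N17_D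
  refine Finset.sum_congr rfl fun i _ => ?_
  rw [map_sum, Finset.mul_sum]
  refine Finset.sum_congr rfl fun j _ => ?_
  rw [MvPolynomial.pderiv_C_mul, MvPolynomial.C_mul]
  ring

private lemma N17_D_smul (w : Fin r → ℂ) (c : ℂ) (p : P r) :
    N17_D w (MvPolynomial.C c * p) = MvPolynomial.C c * N17_D w p := by
  rw [N17_D_mul, N17_D_C]
  ring

private lemma N17_D_lin (β : Fin r → ℂ) (p : P r) :
    N17_D β p = N17_D (vC fun i => (β i).re) p +
      MvPolynomial.C Complex.I * N17_D (vC fun i => (β i).im) p := by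
  unfold N17_D vC
  rw [Finset.mul_sum, ← Finset.sum_add_distrib]
  refine Finset.sum_congr rfl fun i _ => ?_
  have h : β i = ((β i).re : ℂ) + Complex.I * ((β i).im : ℂ) := by
    conv_lhs => rw [← Complex.re_add_im (β i)]
    ring
  conv_lhs => rw [h]
  rw [MvPolynomial.C_add, MvPolynomial.C_mul]
  ring

private lemma N17_mem (β : Fin r → ℂ) (s t : ℝ) :
    (fun i => (s : ℂ) * (vC fun i => (β i).re) i + (t : ℂ) * (vC fun i => (β i).im) i) ∈
      Wspan β := by
  intro c hc
  have h1 : ∑ i, (c i : ℝ) * (β i).re = 0 := by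
    have h := congrArg Complex.re hc
    rw [Complex.re_sum] at h
    rw [Complex.zero_re] at h
    rw [← h]
    refine Finset.sum_congr rfl fun i _ => ?_
    have e : ((c i : ℚ) : ℂ) = (((c i : ℚ) : ℝ) : ℂ) := by push_cast; rfl
    rw [e, Complex.re_ofReal_mul]
  have h2 : ∑ i, (c i : ℝ) * (β i).im = 0 := by
    have h := congrArg Complex.im hc
    rw [Complex.im_sum] at h
    rw [Complex.zero_im] at h
    rw [← h]
    refine Finset.sum_congr rfl fun i _ => ?_
    have e : ((c i : ℚ) : ℂ) = (((c i : ℚ) : ℝ) : ℂ) := by push_cast; rfl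
    rw [e, Complex.im_ofReal_mul]
  have h3 : ∑ i, (c i : ℂ) * ((β i).re : ℂ) = 0 := by
    have h := congrArg (fun x : ℝ => (x : ℂ)) h1
    push_cast at h
    exact h
  have h4 : ∑ i, (c i : ℂ) * ((β i).im : ℂ) = 0 := by
    have h := congrArg (fun x : ℝ => (x : ℂ)) h2
    push_cast at h
    exact h
  calc ∑ i, (c i : ℂ) * ((s : ℂ) * (vC fun i => (β i).re) i +
        (t : ℂ) * (vC fun i => (β i).im) i)
      = (s : ℂ) * ∑ i, (c i : ℂ) * ((β i).re : ℂ) +
        (t : ℂ) * ∑ i, (c i : ℂ) * ((β i).im : ℂ) := by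
        rw [Finset.mul_sum, Finset.mul_sum, ← Finset.sum_add_distrib]
        refine Finset.sum_congr rfl fun i _ => ?_
        unfold vC
        ring
    _ = 0 := by rw [h3, h4]; ring

theorem real_zero {k : ℕ} (hk : 2 ≤ k) {V : P r} (hV : V.IsHomogeneous (k + 1))
    (hreal : MvPolynomial.map (starRingEnd ℂ) V = V) {β : Fin r → ℂ}
    (h : ∀ x ∈ Wspan β, MvPolynomial.eval x (dd β V) = 0) :
    MvPolynomial.eval (vC fun i => (β i).re) V = 0 ∧
      MvPolynomial.eval (vC fun i => (β i).im) V = 0 := by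
  have key : ∀ s t : ℝ, MvPolynomial.eval
        (fun i => (s : ℂ) * (vC fun i => (β i).re) i + (t : ℂ) * (vC fun i => (β i).im) i)
        (N17_D (vC fun i => (β i).re) (N17_D (vC fun i => (β i).re) V)) =
      MvPolynomial.eval
        (fun i => (s : ℂ) * (vC fun i => (β i).re) i + (t : ℂ) * (vC fun i => (β i).im) i)
        (N17_D (vC fun i => (β i).im) (N17_D (vC fun i => (β i).im) V)) ∧
      MvPolynomial.eval
        (fun i => (s : ℂ) * (vC fun i => (β i).re) i + (t : ℂ) * (vC fun i => (β i).im) i)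
        (N17_D (vC fun i => (β i).re) (N17_D (vC fun i => (β i).im) V)) = 0 := by
    intro s t
    have h0 := h _ (N17_mem β s t)
    have e : (fun i => (s : ℂ) * (vC fun i => (β i).re) i +
        (t : ℂ) * (vC fun i => (β i).im) i) =
        fun i => ((s * (β i).re + t * (β i).im : ℝ) : ℂ) := by
      funext i
      unfold vC
      push_cast
      ring
    rw [e] at h0 ⊢
    have i1 := N17_im (fun i => s * (β i).re + t * (β i).im)
      (N17_D_real (fun i => (β i).re) (N17_D_real (fun i => (β i).re) hreal))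
    have i2 := N17_im (fun i => s * (β i).re + t * (β i).im)
      (N17_D_real (fun i => (β i).im) (N17_D_real (fun i => (β i).im) hreal))
    have i3 := N17_im (fun i => s * (β i).re + t * (β i).im)
      (N17_D_real (fun i => (β i).re) (N17_D_real (fun i => (β i).im) hreal))
    rw [N17_dd, N17_D_lin β V, N17_D_lin β] at h0
    simp only [N17_D_add, N17_D_smul] at h0
    rw [N17_D_comm (vC fun i => (β i).im) (vC fun i => (β i).re) V] at h0
    simp only [map_add, map_mul, MvPolynomial.eval_C] at h0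
    generalize MvPolynomial.eval (fun i => ((s * (β i).re + t * (β i).im : ℝ) : ℂ))
      (N17_D (vC fun i => (β i).re) (N17_D (vC fun i => (β i).re) V)) = A at *
    generalize MvPolynomial.eval (fun i => ((s * (β i).re + t * (β i).im : ℝ) : ℂ))
      (N17_D (vC fun i => (β i).im) (N17_D (vC fun i => (β i).im) V)) = B at *
    generalize MvPolynomial.eval (fun i => ((s * (β i).re + t * (β i).im : ℝ) : ℂ))
      (N17_D (vC fun i => (β i).re) (N17_D (vC fun i => (β i).im) V)) = G at *
    have hr := congrArg Complex.re h0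
    have hi := congrArg Complex.im h0
    simp only [Complex.add_re, Complex.add_im, Complex.mul_re, Complex.mul_im, Complex.I_re,
      Complex.I_im, Complex.zero_re, Complex.zero_im, i1, i2, i3] at hr hi
    refine ⟨Complex.ext ?_ ?_, Complex.ext ?_ ?_⟩
    · linarith
    · rw [i1, i2]
    · rw [Complex.zero_re]; linarith
    · rw [Complex.zero_im]; exact i3
  refine ⟨N17_key hk hV _ _ (fun s t => (key s t).1) (fun s t => (key s t).2),
    N17_key hk hV _ (vC fun i => (β i).re) (fun s t => ?_) (fun s t => ?_)⟩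
  · have h1 := (key t s).1
    have e : (fun i => (s : ℂ) * (vC fun i => (β i).im) i +
        (t : ℂ) * (vC fun i => (β i).re) i) =
        fun i => (t : ℂ) * (vC fun i => (β i).re) i + (s : ℂ) * (vC fun i => (β i).im) i := by
      funext i
      ring
    rw [e]
    exact h1.symm
  · have h1 := (key t s).2
    have e : (fun i => (s : ℂ) * (vC fun i => (β i).im) i +
        (t : ℂ) * (vC fun i => (β i).re) i) =
        fun i => (t : ℂ) * (vC fun i => (β i).re) i + (s : ℂ) * (vC fun i => (β i).im) i := by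
      funext i
      ring
    rw [e, N17_D_comm]
    exact h1

end Pool.Agent.Lib.MP_8ce23f_nt.RR
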