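import Pool.Agent.Lib.MP_8ce23f_nt.RR.N16
import Pool.Agent.Lib.MP_8ce23f_nt.RR.N17
import Pool.Agent.Lib.MP_8ce23f_nt.RR.N10

/-!
# A common complex zero gives a common real zero

Combine `flat_span`, `top_real`, `real_zero`; `β ≠ 0` so `Re β ≠ 0` or `Im β ≠ 0`.
-/

namespace Pool.Agent.Lib.MP_8ce23f_nt.RR

variable {r : ℕ}

theorem exists_real_zero {A : Matrix (Fin r) (Fin r) ℚ} {Q : Fin r → ℝ} {V : ℕ → P r}
    {q : Fin r → PowerSeries (P r)} (h : IsTop (A.map fun x : ℚ => (x : ℂ)) (vC Q) V q)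
    (h0 : ∀ i, 0 < Q i) (h1 : ∀ i, Q i < 1)
    (hd : (Jm (A.map fun x : ℚ => (x : ℂ)) (vC Q)).det ≠ 0) {β : Fin r → ℂ} (hne : β ≠ 0)
    (hβ : ∀ k, 2 ≤ k → MvPolynomial.eval β (V k) = 0) :
    ∃ v : Fin r → ℝ, v ≠ 0 ∧ ∀ k, 2 ≤ k → MvPolynomial.eval (vC v) (V k) = 0 := by
  have hA : (A.map fun x : ℚ => (x : ℂ)) = toC (toR A) := by
    ext i j
    simp only [toC, toR, Matrix.map_apply, Complex.ofReal_ratCast]
  have h0' : ∀ i, vC Q i ≠ 0 := by
    intro i hi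
    have h2 : (Q i : ℂ) = 0 := hi
    exact (h0 i).ne' (Complex.ofReal_eq_zero.1 h2)
  have h1' : ∀ i, vC Q i ≠ 1 := by
    intro i hi
    have h2 : (Q i : ℂ) = 1 := hi
    exact (h1 i).ne (Complex.ofReal_eq_one.1 h2)
  have hr : IsTop (toC (toR A)) (vC Q) V q := hA ▸ h
  have hd' : (Jm (toC (toR A)) (vC Q)).det ≠ 0 := hA ▸ hd
  have key : ∀ k, 2 ≤ k → MvPolynomial.eval (vC fun i => (β i).re) (V k) = 0 ∧
      MvPolynomial.eval (vC fun i => (β i).im) (V k) = 0 := by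
    intro k hk
    exact real_zero hk (h.hom k) (top_real hr hd' (le_trans one_le_two hk))
      (fun x hx => flat_span h h0' h1' hd hβ hk hx)
  by_cases hre : (fun i => (β i).re) = 0
  · refine ⟨fun i => (β i).im, ?_, fun k hk => (key k hk).2⟩
    intro him
    apply hne
    ext i
    exact Complex.ext (congrFun hre i) (congrFun him i)
  · exact ⟨fun i => (β i).re, hre, fun k hk => (key k hk).1⟩

end Pool.Agent.Lib.MP_8ce23f_nt.RR
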