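import Pool.Agent.Lib.MP_8ce23f_nt.RR.N03

/-!
# The linear complementarity problem

`z` = the minimum of `zᵀAz/2 + β·z` over `{z ≥ 0}` (exists by coercivity, `qd_ge`).  `w_i = β_i + (A z)_i` is the derivative in
direction `e_i`: `w_i ≥ 0` since `z + ε e_i` is allowed, and if `z_i > 0` also `z - ε e_i` is allowed, so `w_i = 0`.
-/

namespace Pool.Agent.Lib.MP_8ce23f_nt.RR

variable {r : ℕ}

private theorem n21_qd (A : Matrix (Fin r) (Fin r) ℝ) (z : Fin r → ℝ) : qd A z = z ⬝ᵥ A.mulVec z := by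
  simp only [qd, dotProduct, Matrix.mulVec, Finset.mul_sum, mul_assoc]

private theorem n21_step {A : Matrix (Fin r) (Fin r) ℝ} (hA : A.PosDef) (β z : Fin r → ℝ) (i : Fin r) (t : ℝ) :
    qd A (z + Pi.single i t) / 2 + ∑ j, β j * (z + Pi.single i t : Fin r → ℝ) j =
      qd A z / 2 + ∑ j, β j * z j + (t * (β i + ∑ j, A i j * z j) + t ^ 2 * A i i / 2) := by
  have hs : ∀ j, A j i = A i j := fun j => by simpa using hA.isHermitian.apply i j
  have h1 : z ⬝ᵥ A.mulVec (Pi.single i t) = t * ∑ j, A i j * z j := by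
    simp only [dotProduct, Matrix.mulVec_single, Pi.smul_apply, MulOpposite.smul_eq_mul_unop, MulOpposite.unop_op,
      Matrix.col_apply, Finset.mul_sum]
    exact Finset.sum_congr rfl fun j _ => by rw [hs j]; ring
  have h2 : Pi.single i t ⬝ᵥ A.mulVec z = t * ∑ j, A i j * z j := by
    rw [single_dotProduct]
    rfl
  have h3 : (Pi.single i t : Fin r → ℝ) ⬝ᵥ A.mulVec (Pi.single i t) = t ^ 2 * A i i := by
    rw [single_dotProduct]
    simp only [Matrix.mulVec_single, Pi.smul_apply, MulOpposite.smul_eq_mul_unop, MulOpposite.unop_op,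
      Matrix.col_apply]
    ring
  have h4 : ∑ j, β j * (z + Pi.single i t : Fin r → ℝ) j = ∑ j, β j * z j + β i * t := by
    have h5 : β ⬝ᵥ (z + Pi.single i t) = β ⬝ᵥ z + β i * t := by rw [dotProduct_add, dotProduct_single]
    exact h5
  rw [n21_qd, n21_qd, h4, Matrix.mulVec_add, dotProduct_add, add_dotProduct, add_dotProduct, h1, h2, h3]
  ring

private theorem n21_min {A : Matrix (Fin r) (Fin r) ℝ} (hA : A.PosDef) (β : Fin r → ℝ) :
    ∃ z : Fin r → ℝ, (∀ i, 0 ≤ z i) ∧ ∀ y : Fin r → ℝ, (∀ i, 0 ≤ y i) →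
      qd A z / 2 + ∑ j, β j * z j ≤ qd A y / 2 + ∑ j, β j * y j := by
  obtain ⟨c, hc, hcA⟩ := qd_ge hA
  have hlow : ∀ y : Fin r → ℝ, c / 4 * ∑ i, y i ^ 2 - (∑ i, β i ^ 2) / c ≤ qd A y / 2 + ∑ j, β j * y j := by
    intro y
    have h1 : ∀ i, -(c / 4 * y i ^ 2) - β i ^ 2 / c ≤ β i * y i := by
      intro i
      have h2 : 0 ≤ (c * y i + 2 * β i) ^ 2 / (4 * c) := by positivity
      have h3 : (c * y i + 2 * β i) ^ 2 / (4 * c) = c / 4 * y i ^ 2 + β i * y i + β i ^ 2 / c := by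
        field_simp
        ring
      linarith
    have h4 : ∑ i, (-(c / 4 * y i ^ 2) - β i ^ 2 / c) ≤ ∑ i, β i * y i := Finset.sum_le_sum fun i _ => h1 i
    rw [Finset.sum_sub_distrib, Finset.sum_neg_distrib, ← Finset.mul_sum, ← Finset.sum_div] at h4
    have h5 := hcA y
    linarith
  have hcont : Continuous fun y : Fin r → ℝ => qd A y / 2 + ∑ j, β j * y j := by
    unfold qd
    fun_prop
  have hK : IsCompact {y : Fin r → ℝ | (∀ i, 0 ≤ y i) ∧ c / 4 * ∑ i, y i ^ 2 ≤ (∑ i, β i ^ 2) / c} := by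
    refine Metric.isCompact_of_isClosed_isBounded ?_ ?_
    · refine IsClosed.inter ?_ ?_
      · show IsClosed {y : Fin r → ℝ | ∀ i, 0 ≤ y i}
        rw [Set.ofPred_forall]
        exact isClosed_iInter fun i => isClosed_le continuous_const (continuous_apply i)
      · exact isClosed_le (f := fun y : Fin r → ℝ => c / 4 * ∑ i, y i ^ 2) (by fun_prop) continuous_const
    · rw [isBounded_iff_forall_norm_le]
      refine ⟨(∑ i, β i ^ 2) / c / (c / 4) + 1, fun y hy => ?_⟩
      have hD : 0 ≤ (∑ i, β i ^ 2) / c / (c / 4) := by positivity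
      rw [pi_norm_le_iff_of_nonneg (by linarith)]
      intro i
      have h1 : y i ^ 2 ≤ ∑ i, y i ^ 2 := Finset.single_le_sum (f := fun i => y i ^ 2) (fun i _ => sq_nonneg _) (Finset.mem_univ i)
      have h2 : ∑ i, y i ^ 2 ≤ (∑ i, β i ^ 2) / c / (c / 4) := by
        rw [le_div_iff₀ (by positivity)]
        have := hy.2
        linarith
      rw [Real.norm_eq_abs, abs_of_nonneg (hy.1 i)]
      nlinarith [sq_nonneg (y i - 1)]
  have h0 : (0 : Fin r → ℝ) ∈ {y : Fin r → ℝ | (∀ i, 0 ≤ y i) ∧ c / 4 * ∑ i, y i ^ 2 ≤ (∑ i, β i ^ 2) / c} := by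
    refine ⟨fun i => le_refl _, ?_⟩
    simp only [Pi.zero_apply, ne_eq, OfNat.ofNat_ne_zero, not_false_eq_true, zero_pow, Finset.sum_const_zero, mul_zero]
    positivity
  obtain ⟨z, hz, hmin⟩ := hK.exists_isMinOn ⟨0, h0⟩ hcont.continuousOn
  refine ⟨z, hz.1, fun y hy => ?_⟩
  by_cases hyK : c / 4 * ∑ i, y i ^ 2 ≤ (∑ i, β i ^ 2) / c
  · exact hmin ⟨hy, hyK⟩
  · have h1 : qd A z / 2 + ∑ j, β j * z j ≤ qd A 0 / 2 + ∑ j, β j * (0 : Fin r → ℝ) j := hmin h0
    have h2 : qd A (0 : Fin r → ℝ) / 2 + ∑ j, β j * (0 : Fin r → ℝ) j = 0 := by simp [qd]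
    have h3 := hlow y
    rw [h2] at h1
    linarith [not_le.1 hyK]

theorem exists_lcp {A : Matrix (Fin r) (Fin r) ℝ} (hA : A.PosDef) (β : Fin r → ℝ) :
    ∃ z w, IsLCP A β z w := by
  obtain ⟨z, hz, hmin⟩ := n21_min hA β
  have hd : ∀ i, 0 < A i i := fun i => hA.diag_pos
  have hvar : ∀ (i : Fin r) (t : ℝ), 0 ≤ z i + t → 0 ≤ t * (β i + ∑ j, A i j * z j) + t ^ 2 * A i i / 2 := by
    intro i t ht
    have h1 := hmin (z + Pi.single i t) (by
      intro j
      by_cases hj : j = i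
      · subst hj
        simpa using ht
      · simpa [Pi.single_eq_of_ne hj] using hz j)
    rw [n21_step hA] at h1
    linarith
  have hw : ∀ i, 0 ≤ β i + ∑ j, A i j * z j := by
    intro i
    by_contra h
    rw [not_le] at h
    have h1 := hvar i (-(β i + ∑ j, A i j * z j) / A i i) (by
      have := hz i
      have h2 : 0 < -(β i + ∑ j, A i j * z j) / A i i := div_pos (by linarith) (hd i)
      linarith)
    have h3 : -(β i + ∑ j, A i j * z j) / A i i * (β i + ∑ j, A i j * z j) +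
        (-(β i + ∑ j, A i j * z j) / A i i) ^ 2 * A i i / 2 = -((β i + ∑ j, A i j * z j) ^ 2 / (2 * A i i)) := by
      have := (hd i).ne'
      field_simp
      ring
    have h4 : 0 < (β i + ∑ j, A i j * z j) ^ 2 / (2 * A i i) := by
      have h5 := hd i
      have h6 : (β i + ∑ j, A i j * z j) ≠ 0 := h.ne
      positivity
    rw [h3] at h1
    linarith
  refine ⟨z, fun i => β i + ∑ j, A i j * z j, hz, hw, fun i => rfl, fun i => ?_⟩
  show z i * (β i + ∑ j, A i j * z j) = 0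
  rcases (hz i).eq_or_lt with h | h
  · rw [← h, zero_mul]
  · rcases (hw i).eq_or_lt with h1 | h1
    · rw [← h1, mul_zero]
    · exfalso
      obtain ⟨w, hwd⟩ : ∃ w, w = β i + ∑ j, A i j * z j := ⟨_, rfl⟩
      rw [← hwd] at h1
      obtain ⟨ε, hε⟩ : ∃ ε, ε = min (z i) (w / A i i) := ⟨_, rfl⟩
      have hε0 : 0 < ε := by
        rw [hε]
        exact lt_min h (div_pos h1 (hd i))
      have hε1 : ε ≤ z i := hε ▸ min_le_left _ _
      have hε2 : ε * A i i ≤ w := by
        have h2 : ε ≤ w / A i i := hε ▸ min_le_right _ _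
        rwa [le_div_iff₀ (hd i)] at h2
      have h3 := hvar i (-ε) (by linarith)
      rw [← hwd] at h3
      have h4 : ε * (ε * A i i) ≤ ε * w := mul_le_mul_of_nonneg_left hε2 hε0.le
      have h5 : 0 < ε * w := mul_pos hε0 h1
      nlinarith

end Pool.Agent.Lib.MP_8ce23f_nt.RR
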