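import Pool.Agent.Lib.MP_8ce23f_nt.RR.N04
import Pool.Agent.Lib.MP_8ce23f_nt.RR.N21

/-!
# Bounds for the maximum along a ray

Write a point of `{z' ≥ 0}` as `s z + x`.  `-(s z + x)ᵀA(s z + x)/2 - s β·(s z + x) = s² qd A z/2 - s x·w - qd A x/2`
because `β·z = -qd A z` (`mul`, `eq`).  Where `w_i > 0` we have `z_i = 0`, so `x_i ≥ 0` and `s x_i w_i ≥ 0`; so the value is at most
`r π²/6 + s² qd A z/2`.  Lower bound: the point `s z` gives `∑ hfun (s z_i) + s² qd A z/2 ≥ s² qd A z/2`.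
`ray_const`: the polynomial `Sp A 0 + c₁ s + (c₂ - qd A z/2) s²` is bounded on `[0,∞)`, so `c₁ = 0`, `c₂ = qd A z/2`.
-/

namespace Pool.Agent.Lib.MP_8ce23f_nt.RR

variable {r : ℕ}

private theorem n22_qd_nonneg {A : Matrix (Fin r) (Fin r) ℝ} (hA : A.PosDef) (x : Fin r → ℝ) :
    0 ≤ qd A x := by
  obtain ⟨c, hc, h⟩ := qd_ge hA
  exact le_trans (mul_nonneg hc.le (Finset.sum_nonneg fun i _ => sq_nonneg (x i))) (h x)

private theorem n22_symm {A : Matrix (Fin r) (Fin r) ℝ} (hA : A.PosDef) (i j : Fin r) :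
    A i j = A j i := by
  have h := hA.isHermitian.apply i j
  rw [← h]
  exact star_trivial (A j i)

private theorem n22_qd_add {A : Matrix (Fin r) (Fin r) ℝ} (hA : A.PosDef) (s : ℝ) (x z : Fin r → ℝ) :
    ∑ i, ∑ j, (s * z i + x i) * A i j * (s * z j + x j) =
      s ^ 2 * qd A z + 2 * s * (∑ i, x i * ∑ j, A i j * z j) + qd A x := by
  have e1 : ∑ i, ∑ j, z i * A i j * x j = ∑ i, x i * ∑ j, A i j * z j := by
    rw [Finset.sum_comm]
    refine Finset.sum_congr rfl fun j _ => ?_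
    rw [Finset.mul_sum]
    refine Finset.sum_congr rfl fun i _ => ?_
    rw [n22_symm hA i j]
    ring
  have e2 : ∑ i, ∑ j, x i * A i j * z j = ∑ i, x i * ∑ j, A i j * z j := by
    refine Finset.sum_congr rfl fun i _ => ?_
    rw [Finset.mul_sum]
    refine Finset.sum_congr rfl fun j _ => ?_
    ring
  have e3 : ∑ i, ∑ j, (s * z i + x i) * A i j * (s * z j + x j) =
      s ^ 2 * (∑ i, ∑ j, z i * A i j * z j) + s * (∑ i, ∑ j, z i * A i j * x j) +
        s * (∑ i, ∑ j, x i * A i j * z j) + ∑ i, ∑ j, x i * A i j * x j := by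
    simp only [Finset.mul_sum, ← Finset.sum_add_distrib]
    refine Finset.sum_congr rfl fun i _ => Finset.sum_congr rfl fun j _ => ?_
    ring
  rw [e3, e1, e2]
  unfold qd
  ring

private theorem n22_beta {A : Matrix (Fin r) (Fin r) ℝ} {β z w : Fin r → ℝ}
    (h : IsLCP A β z w) : ∑ i, β i * z i = -qd A z := by
  have h1 : ∑ i, z i * w i = 0 := Finset.sum_eq_zero fun i _ => h.mul i
  have h2 : ∑ i, z i * w i = ∑ i, β i * z i + qd A z := by
    unfold qd
    rw [← Finset.sum_add_distrib]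
    refine Finset.sum_congr rfl fun i _ => ?_
    rw [h.eq i, mul_add, Finset.mul_sum, mul_comm (z i) (β i)]
    refine congrArg (β i * z i + ·) (Finset.sum_congr rfl fun j _ => ?_)
    ring
  linarith

theorem ray_expand {A : Matrix (Fin r) (Fin r) ℝ} (hA : A.PosDef) {β z w : Fin r → ℝ}
    (h : IsLCP A β z w) (s : ℝ) (x : Fin r → ℝ) (Z : Finset (Fin r)) :
    obj A Z (fun i => s * z i + x i) - ∑ i, s * β i * (s * z i + x i) =
      ∑ i ∈ Z, hfun (s * z i + x i) + s ^ 2 * (qd A z / 2) - s * ∑ i, x i * w i - qd A x / 2 := by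
  have e1 := n22_qd_add hA s x z
  have e2 : ∑ i, s * β i * (s * z i + x i) = s ^ 2 * (∑ i, β i * z i) + s * ∑ i, β i * x i := by
    rw [Finset.mul_sum, Finset.mul_sum, ← Finset.sum_add_distrib]
    refine Finset.sum_congr rfl fun i _ => ?_
    ring
  have e3 : ∑ i, x i * w i = ∑ i, β i * x i + ∑ i, x i * ∑ j, A i j * z j := by
    rw [← Finset.sum_add_distrib]
    refine Finset.sum_congr rfl fun i _ => ?_
    rw [h.eq i]
    ring
  unfold obj
  rw [e1, e2, e3, n22_beta h]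
  ring

theorem ray_bounds {A : Matrix (Fin r) (Fin r) ℝ} (hA : A.PosDef) {β z w : Fin r → ℝ}
    (h : IsLCP A β z w) {s : ℝ} (hs : 0 ≤ s) :
    s ^ 2 * (qd A z / 2) ≤ Sp A (fun i => s * β i) ∧
      Sp A (fun i => s * β i) ≤ s ^ 2 * (qd A z / 2) + r * (Real.pi ^ 2 / 6) := by
  refine ⟨?_, ?_⟩
  · have h1 := ray_expand hA h s (fun _ => 0) Finset.univ
    have h2 : obj A Finset.univ (fun i => s * z i + (fun _ => (0 : ℝ)) i) -
        ∑ i, s * β i * (s * z i + (fun _ => (0 : ℝ)) i) ≤ Sp A (fun i => s * β i) :=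
      le_csSup (Sp_bddAbove hA (fun i => s * β i)) ⟨fun i => s * z i + (fun _ => (0 : ℝ)) i, fun i => by
        have := mul_nonneg hs (h.z0 i)
        show 0 ≤ s * z i + 0
        linarith, rfl⟩
    have h3 : 0 ≤ ∑ i, hfun (s * z i + (fun _ => (0 : ℝ)) i) :=
      Finset.sum_nonneg fun i _ => hfun_nonneg (by
        have := mul_nonneg hs (h.z0 i)
        show 0 ≤ s * z i + 0
        linarith)
    have h4 : ∑ i, (fun _ => (0 : ℝ)) i * w i = 0 := Finset.sum_eq_zero fun i _ => zero_mul _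
    have h5 : qd A (fun _ => (0 : ℝ)) = 0 := by
      unfold qd
      exact Finset.sum_eq_zero fun i _ => Finset.sum_eq_zero fun j _ => by ring
    rw [h4, h5] at h1
    linarith
  · refine csSup_le ⟨_, ⟨fun _ => 0, fun _ => le_refl _, rfl⟩⟩ ?_
    rintro _ ⟨y, hy, rfl⟩
    have h1 := ray_expand hA h s (fun i => y i - s * z i) Finset.univ
    have e : (fun i => s * z i + (fun i => y i - s * z i) i) = y := by
      funext i
      show s * z i + (y i - s * z i) = y i
      ring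
    have e' : ∀ i, s * z i + (fun i => y i - s * z i) i = y i := fun i => congrFun e i
    rw [e] at h1
    simp only [e'] at h1
    have h2 : ∑ i, hfun (y i) ≤ r * (Real.pi ^ 2 / 6) := by
      have h3 := Finset.sum_le_card_nsmul Finset.univ (fun i => hfun (y i)) (Real.pi ^ 2 / 6)
        fun i _ => hfun_le (hy i)
      rw [Finset.card_univ, Fintype.card_fin, nsmul_eq_mul] at h3
      exact h3
    have h3 : 0 ≤ ∑ i, (y i - s * z i) * w i := by
      refine Finset.sum_nonneg fun i _ => ?_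
      have h4 : (y i - s * z i) * w i = y i * w i - s * (z i * w i) := by ring
      rw [h4, h.mul i, mul_zero, sub_zero]
      exact mul_nonneg (hy i) (h.w0 i)
    have h4 := n22_qd_nonneg hA (fun i => y i - s * z i)
    have h5 := mul_nonneg hs h3
    show obj A Finset.univ y - ∑ i, s * β i * y i ≤ _
    linarith

theorem ray_const {A : Matrix (Fin r) (Fin r) ℝ} (hA : A.PosDef) {β z w : Fin r → ℝ}
    (h : IsLCP A β z w) {c₁ c₂ : ℝ}
    (hq : ∀ s, Sp A (fun i => s * β i) = Sp A 0 + c₁ * s + c₂ * s ^ 2) {s : ℝ} (hs : 0 ≤ s) :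
    Sp A (fun i => s * β i) = Sp A 0 + s ^ 2 * (qd A z / 2) := by
  have hb : ∀ t : ℝ, 0 ≤ t → |c₁ * t + (c₂ - qd A z / 2) * t ^ 2| ≤ r * (Real.pi ^ 2 / 6) + |Sp A 0| := by
    intro t ht
    obtain ⟨h1, h2⟩ := ray_bounds hA h ht
    rw [hq t] at h1 h2
    have h3 := neg_abs_le (Sp A 0)
    have h4 := le_abs_self (Sp A 0)
    have h5 : 0 ≤ (r : ℝ) * (Real.pi ^ 2 / 6) := by positivity
    rw [abs_le]
    constructor <;> nlinarith
  have hK : 0 ≤ (r : ℝ) * (Real.pi ^ 2 / 6) + |Sp A 0| := le_trans (abs_nonneg _) (hb 0 le_rfl)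
  obtain ⟨K, hKdef⟩ : ∃ K : ℝ, K = (r : ℝ) * (Real.pi ^ 2 / 6) + |Sp A 0| := ⟨_, rfl⟩
  obtain ⟨d, hd⟩ : ∃ d : ℝ, d = c₂ - qd A z / 2 := ⟨_, rfl⟩
  rw [← hKdef] at hK
  rw [← hKdef, ← hd] at hb
  have hd0 : d = 0 := by
    by_contra hne
    have hpos : 0 < |d| := abs_pos.2 hne
    have h1 : ∀ t : ℝ, 0 ≤ t → 2 * |d| * t ^ 2 ≤ 3 * K := by
      intro t ht
      have h2 := abs_le.1 (hb t ht)
      have h3 := abs_le.1 (hb (2 * t) (by linarith))
      have h4 : |2 * d * t ^ 2| ≤ 3 * K := by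
        rw [abs_le]
        constructor <;> nlinarith [h2.1, h2.2, h3.1, h3.2]
      rwa [abs_mul, abs_mul, abs_of_nonneg (sq_nonneg t), abs_two] at h4
    have h2 := h1 (3 * K / |d| + 1) (by positivity)
    have h3 : 3 * K ≤ |d| * (3 * K / |d| + 1) := by
      rw [mul_add, mul_div_cancel₀ _ hpos.ne']
      linarith
    have h4 : (1 : ℝ) ≤ 3 * K / |d| + 1 := by
      have : 0 ≤ 3 * K / |d| := by positivity
      linarith
    have h5 : |d| * (3 * K / |d| + 1) ≤ |d| * (3 * K / |d| + 1) ^ 2 :=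
      mul_le_mul_of_nonneg_left (by nlinarith) hpos.le
    have h6 : 0 < |d| * (3 * K / |d| + 1) ^ 2 := by positivity
    nlinarith
  have hc0 : c₁ = 0 := by
    by_contra hne
    have hpos : 0 < |c₁| := abs_pos.2 hne
    have h2 := hb (K / |c₁| + 1) (by positivity)
    rw [hd0, zero_mul, add_zero, abs_mul, abs_of_nonneg (show (0 : ℝ) ≤ K / |c₁| + 1 by positivity), mul_add,
      mul_div_cancel₀ _ hpos.ne'] at h2
    linarith
  have hc2 : c₂ = qd A z / 2 := by linarith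
  rw [hq s, hc0, hc2]
  ring

end Pool.Agent.Lib.MP_8ce23f_nt.RR
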