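import Pool.Agent.Lib.MP_8ce23f_nt.RR.N22

/-!
# The limit at infinity, lower bound

`I = {z_i > 0}`, `Z = {z_i = 0, w_i = 0}`.  For `x ∈ Feas I Z` the point `s z + x` is `≥ 0` for large `s`, and `∑ x_i w_i = 0`.  By `ray_expand`
(with `Z = univ`) and `hc`: `Sp A 0 ≥ ∑_i hfun (s z_i + x_i) - qd A x/2`; the indices outside `I ∪ Z` contribute `hfun 0 = 0`; let `s → ∞`
(`hfun_tendsto` for `i ∈ I`): `Sp A 0 ≥ |I| π²/6 + obj A Z x`.
-/

open Filter Topology

namespace Pool.Agent.Lib.MP_8ce23f_nt.RR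

variable {r : ℕ}

theorem limit_ge {A : Matrix (Fin r) (Fin r) ℝ} (hA : A.PosDef) {β z w : Fin r → ℝ}
    (h : IsLCP A β z w)
    (hc : ∀ s : ℝ, 0 ≤ s → Sp A (fun i => s * β i) = Sp A 0 + s ^ 2 * (qd A z / 2))
    {x : Fin r → ℝ}
    (hx : x ∈ Feas (Finset.univ.filter fun i => 0 < z i)
      (Finset.univ.filter fun i => z i = 0 ∧ w i = 0)) :
    (Finset.univ.filter fun i => 0 < z i).card * (Real.pi ^ 2 / 6) +
      obj A (Finset.univ.filter fun i => z i = 0 ∧ w i = 0) x ≤ Sp A 0 := by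
  classical
  obtain ⟨hx1, hx2⟩ := hx
  have hzI : ∀ i, ¬ 0 < z i → z i = 0 := fun i hi => le_antisymm (not_lt.1 hi) (h.z0 i)
  have hxw : ∑ i, x i * w i = 0 := by
    refine Finset.sum_eq_zero fun i _ => ?_
    by_cases h1 : 0 < z i
    · have h2 : w i = 0 := (mul_eq_zero.1 (h.mul i)).resolve_left h1.ne'
      rw [h2, mul_zero]
    · by_cases h2 : w i = 0
      · rw [h2, mul_zero]
      · have h3 : x i = 0 := hx2 i (fun h4 => h1 (Finset.mem_filter.1 h4).2)
          fun h4 => h2 (Finset.mem_filter.1 h4).2.2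
        rw [h3, zero_mul]
  have hnn : ∀ i, ¬ 0 < z i → 0 ≤ x i := by
    intro i h1
    by_cases h2 : w i = 0
    · exact hx1 i (Finset.mem_filter.2 ⟨Finset.mem_univ i, hzI i h1, h2⟩)
    · have h3 : x i = 0 := hx2 i (fun h4 => h1 (Finset.mem_filter.1 h4).2)
        fun h4 => h2 (Finset.mem_filter.1 h4).2.2
      rw [h3]
  have hev : ∀ᶠ s : ℝ in atTop, ∀ i, 0 ≤ s * z i + x i := by
    rw [Filter.eventually_all]
    intro i
    by_cases h1 : 0 < z i
    · filter_upwards [Filter.eventually_ge_atTop (-x i / z i)] with s hs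
      have h2 := mul_le_mul_of_nonneg_right hs h1.le
      rw [div_mul_cancel₀ _ h1.ne'] at h2
      linarith
    · refine Filter.Eventually.of_forall fun s => ?_
      rw [hzI i h1, mul_zero, zero_add]
      exact hnn i h1
  have hlim : Tendsto (fun s : ℝ => ∑ i, hfun (s * z i + x i)) atTop
      (𝓝 (∑ i, if 0 < z i then Real.pi ^ 2 / 6 else hfun (x i))) := by
    refine tendsto_finsetSum _ fun i _ => ?_
    by_cases h1 : 0 < z i
    · rw [if_pos h1]
      exact hfun_tendsto.comp (tendsto_atTop_add_const_right _ _ (tendsto_id.atTop_mul_const h1))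
    · rw [if_neg h1]
      have h2 : (fun s : ℝ => hfun (s * z i + x i)) = fun _ => hfun (x i) := by
        funext s
        rw [hzI i h1, mul_zero, zero_add]
      rw [h2]
      exact tendsto_const_nhds
  have hle : ∀ᶠ s : ℝ in atTop, ∑ i, hfun (s * z i + x i) ≤ Sp A 0 + qd A x / 2 := by
    filter_upwards [hev, Filter.eventually_ge_atTop (0 : ℝ)] with s hs hs0
    have h1 := ray_expand hA h s x Finset.univ
    rw [hxw, mul_zero, sub_zero] at h1
    have h2 := le_csSup (Sp_bddAbove hA fun i => s * β i)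
      ⟨fun i => s * z i + x i, hs, rfl⟩
    have h3 : sSup ((fun z => obj A Finset.univ z - ∑ i, (s * β i) * z i) '' {z | ∀ i, 0 ≤ z i}) =
        Sp A 0 + s ^ 2 * (qd A z / 2) := hc s hs0
    rw [h3] at h2
    change obj A Finset.univ (fun i => s * z i + x i) - ∑ i, (s * β i) * (s * z i + x i) ≤ _ at h2
    rw [h1] at h2
    linarith
  have hfin := le_of_tendsto hlim hle
  have hsum : (∑ i, if 0 < z i then Real.pi ^ 2 / 6 else hfun (x i)) =
      (Finset.univ.filter fun i => 0 < z i).card * (Real.pi ^ 2 / 6) +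
        ∑ i ∈ Finset.univ.filter fun i => z i = 0 ∧ w i = 0, hfun (x i) := by
    rw [Finset.sum_ite, Finset.sum_const, nsmul_eq_mul]
    congr 1
    refine (Finset.sum_subset (fun i hi => ?_) fun i hi hi' => ?_).symm
    · obtain ⟨h1, h2, h3⟩ := Finset.mem_filter.1 hi
      exact Finset.mem_filter.2 ⟨h1, by rw [h2]; exact lt_irrefl 0⟩
    · have h3 : x i = 0 := hx2 i (fun h4 => (Finset.mem_filter.1 hi).2 (Finset.mem_filter.1 h4).2) hi'
      rw [h3, hfun_zero]
  rw [hsum] at hfin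
  unfold obj
  have h4 : ∑ i, ∑ j, x i * A i j * x j = qd A x := rfl
  rw [h4]
  linarith

end Pool.Agent.Lib.MP_8ce23f_nt.RR
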