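import Pool.Agent.Lib.MP_8ce23f_nt.RR.NDefs

/-!
# Nullstellensatz for forms

The zero locus of the ideal `(V_2, …, V_K)` is contained in `{0}`, so by Hilbert's Nullstellensatz
(`MvPolynomial.vanishingIdeal_zeroLocus_eq_radical`) some power `X_i^e` lies in the ideal for every `i`; a monomial of degree `≥ r e` is divisible by
one of them (if `r = 0` every monomial has degree `0`; take `d = 1`: there is no monomial of degree `1`).
-/

namespace Pool.Agent.Lib.MP_8ce23f_nt.RR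

variable {r : ℕ}

theorem exists_deg {K : ℕ} {V : ℕ → P r}
    (h : ∀ β : Fin r → ℂ, (∀ k, 2 ≤ k → k ≤ K → MvPolynomial.eval β (V k) = 0) → β = 0) :
    ∃ d : ℕ, ∀ e, d ≤ e → ∀ m : Fin r →₀ ℕ, m.degree = e →
      (MvPolynomial.monomial m 1 : P r) ∈ Ideal.span {f | ∃ k, 2 ≤ k ∧ k ≤ K ∧ f = V k} := by
  obtain ⟨I, hI⟩ : ∃ I : Ideal (P r), I = Ideal.span {f | ∃ k, 2 ≤ k ∧ k ≤ K ∧ f = V k} := ⟨_, rfl⟩
  rw [← hI]
  have hz : MvPolynomial.zeroLocus ℂ I ⊆ {0} := by
    intro x hx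
    rw [Set.mem_singleton_iff]
    refine h x fun k h2 hk => ?_
    have h1 := hx (V k) (by rw [hI]; exact Ideal.subset_span ⟨k, h2, hk, rfl⟩)
    rwa [← MvPolynomial.aeval_eq_eval]
  have hpow : ∀ i : Fin r, ∃ n : ℕ, (MvPolynomial.X i : P r) ^ n ∈ I := by
    intro i
    have h1 : (MvPolynomial.X i : P r) ∈ MvPolynomial.vanishingIdeal ℂ (MvPolynomial.zeroLocus ℂ I) := by
      intro x hx
      rw [Set.mem_singleton_iff.1 (hz hx), MvPolynomial.aeval_X, Pi.zero_apply]
    rw [MvPolynomial.vanishingIdeal_zeroLocus_eq_radical] at h1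
    exact h1
  choose n hn using hpow
  refine ⟨∑ i, n i + 1, fun e he m hm => ?_⟩
  have hex : ∃ i, n i ≤ m i := by
    by_contra hc
    push Not at hc
    have h1 : ∑ i, m i ≤ ∑ i, n i := Finset.sum_le_sum fun i _ => (hc i).le
    have h2 : m.degree = ∑ i, m i := Finsupp.degree_eq_sum m
    omega
  obtain ⟨i, hi⟩ := hex
  have h1 : (MvPolynomial.monomial m 1 : P r) = MvPolynomial.monomial (m - Finsupp.single i (n i)) 1 * MvPolynomial.X i ^ n i := by
    rw [MvPolynomial.X_pow_eq_monomial, MvPolynomial.monomial_mul, one_mul, tsub_add_cancel_of_le]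
    rw [Finsupp.single_le_iff]
    exact hi
  rw [h1]
  exact I.mul_mem_left _ (hn i)

end Pool.Agent.Lib.MP_8ce23f_nt.RR
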