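import Pool.Agent.Lib.MP_8ce23f_nt.RR.N22

/-!
# The index sets are proper

`ne_I`: if all `z_i = 0` then `w = β ≥ 0`, `β ≠ 0`, `qd A z = 0`, so `Sp A β = Sp A 0` (`hc`, `s = 1`).  Let `y` solve the equation at `β` (`exists_isSol`, `y > 0`):
`Sp A β = obj A univ y - β·y < obj A univ y ≤ Sp A 0`, contradiction.
`ne_J`: if all `w_i = 0`: let `y` solve the equation at `0`, `Sp A 0 = obj A univ y`.  `ray_expand` with `s = 1`, `x = y`:
`Sp A β ≥ ∑ hfun (z_i + y_i) + qd A z/2 - qd A y/2 > obj A univ y + qd A z/2` when some `z_i > 0` (`hfun_strictMono`); if `z = 0` then `β = w - A z = 0`.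
-/

namespace Pool.Agent.Lib.MP_8ce23f_nt.RR

variable {r : ℕ}

theorem ne_I {A : Matrix (Fin r) (Fin r) ℝ} (hA : A.PosDef) {β z w : Fin r → ℝ} (hβ : β ≠ 0)
    (h : IsLCP A β z w)
    (hc : ∀ s : ℝ, 0 ≤ s → Sp A (fun i => s * β i) = Sp A 0 + s ^ 2 * (qd A z / 2)) :
    ∃ i, 0 < z i := by
  by_contra hcon
  push Not at hcon
  have hz : ∀ i, z i = 0 := fun i => le_antisymm (hcon i) (h.z0 i)
  have hw : ∀ i, w i = β i := by
    intro i
    rw [h.eq i, Finset.sum_eq_zero fun j _ => by rw [hz j, mul_zero], add_zero]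
  have hβ0 : ∀ i, 0 ≤ β i := fun i => hw i ▸ h.w0 i
  have hq : qd A z = 0 := by
    unfold qd
    exact Finset.sum_eq_zero fun i _ => Finset.sum_eq_zero fun j _ => by rw [hz j, mul_zero]
  have h1 := hc 1 zero_le_one
  have h2 : (fun i => 1 * β i) = β := funext fun i => one_mul _
  rw [h2, hq, zero_div, mul_zero, add_zero] at h1
  obtain ⟨y, hy⟩ := exists_isSol hA β
  have h3 := Sp_eq hA hy
  have h4 : obj A Finset.univ y ≤ Sp A 0 := by
    refine le_csSup (Sp_bddAbove hA 0) ⟨y, fun i => (hy.pos i).le, ?_⟩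
    change obj A Finset.univ y - ∑ i, (0 : Fin r → ℝ) i * y i = obj A Finset.univ y
    rw [Finset.sum_eq_zero fun i _ => by rw [Pi.zero_apply, zero_mul], sub_zero]
  have h5 : 0 < ∑ i, β i * y i := by
    obtain ⟨i, hi⟩ := Function.ne_iff.1 hβ
    refine Finset.sum_pos' (fun j _ => mul_nonneg (hβ0 j) (hy.pos j).le) ⟨i, Finset.mem_univ i, ?_⟩
    exact mul_pos (lt_of_le_of_ne (hβ0 i) (Ne.symm hi)) (hy.pos i)
  linarith

theorem ne_J {A : Matrix (Fin r) (Fin r) ℝ} (hA : A.PosDef) {β z w : Fin r → ℝ} (hβ : β ≠ 0)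
    (h : IsLCP A β z w)
    (hc : ∀ s : ℝ, 0 ≤ s → Sp A (fun i => s * β i) = Sp A 0 + s ^ 2 * (qd A z / 2)) :
    ∃ i, 0 < w i := by
  by_contra hcon
  push Not at hcon
  have hw : ∀ i, w i = 0 := fun i => le_antisymm (hcon i) (h.w0 i)
  by_cases hz : ∀ i, z i = 0
  · refine hβ (funext fun i => ?_)
    have h1 := h.eq i
    rw [hw i, Finset.sum_eq_zero fun j _ => by rw [hz j, mul_zero], add_zero] at h1
    exact h1.symm
  · push Not at hz
    obtain ⟨i₀, hi₀⟩ := hz
    have hi₀' : 0 < z i₀ := lt_of_le_of_ne (h.z0 i₀) (Ne.symm hi₀)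
    obtain ⟨y, hy⟩ := exists_isSol hA (0 : Fin r → ℝ)
    have h3 := Sp_eq hA hy
    have h3' : ∑ i, (0 : Fin r → ℝ) i * y i = 0 :=
      Finset.sum_eq_zero fun i _ => by rw [Pi.zero_apply, zero_mul]
    rw [h3', sub_zero] at h3
    have h4 := ray_expand hA h 1 y Finset.univ
    have h5 : obj A Finset.univ (fun i => 1 * z i + y i) - ∑ i, 1 * β i * (1 * z i + y i) ≤
        Sp A (fun i => 1 * β i) :=
      le_csSup (Sp_bddAbove hA _) ⟨fun i => 1 * z i + y i,
        fun i => add_nonneg (mul_nonneg zero_le_one (h.z0 i)) (hy.pos i).le, rfl⟩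
    have h6 := hc 1 zero_le_one
    have h7 : ∑ i, y i * w i = 0 := Finset.sum_eq_zero fun i _ => by rw [hw i, mul_zero]
    have h8 : obj A Finset.univ y = ∑ i, hfun (y i) - qd A y / 2 := by
      unfold obj qd
      ring
    have h9 : ∑ i, hfun (y i) < ∑ i, hfun (1 * z i + y i) := by
      refine Finset.sum_lt_sum (fun i _ => ?_) ⟨i₀, Finset.mem_univ _, ?_⟩
      · refine hfun_strictMono.monotoneOn (hy.pos i).le ?_ ?_
        · exact add_nonneg (mul_nonneg zero_le_one (h.z0 i)) (hy.pos i).le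
        · rw [one_mul]
          exact le_add_of_nonneg_left (h.z0 i)
      · refine hfun_strictMono (hy.pos i₀).le ?_ ?_
        · exact add_nonneg (mul_nonneg zero_le_one (h.z0 i₀)) (hy.pos i₀).le
        · rw [one_mul]
          exact lt_add_of_pos_left _ hi₀'
    rw [h7] at h4
    linarith

end Pool.Agent.Lib.MP_8ce23f_nt.RR
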