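import Pool.Agent.Lib.MP_8ce23f_nt.RR.N23
import Pool.Agent.Lib.MP_8ce23f_nt.RR.N24
import Pool.Agent.Lib.MP_8ce23f_nt.RR.N29
import Pool.Agent.Lib.MP_8ce23f_nt.RR.N21

/-!
# The charge splits

Take `z, w` from `exists_lcp A v`, `ray_const`, and `I = {z_i > 0}`, `Z = {z_i = 0, w_i = 0}`.  `limit_ge` and `limit_le` give
`Sp A 0 = |I| π²/6 + sSup (obj A Z '' Feas I Z)` (the set is bounded above by `limit_ge`).  `Sp A 0 = sSup (obj A univ '' Feas ∅ univ)`
(the same set).  Multiply by `6/π²`.  `ne_I`, `ne_J`: `I ≠ ∅`, `I ∪ Z ≠ univ` (an index with `w_i > 0` has `z_i = 0`).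
-/

namespace Pool.Agent.Lib.MP_8ce23f_nt.RR

variable {r : ℕ}

theorem splits_of_quadratic {A : Matrix (Fin r) (Fin r) ℝ} (hA : A.PosDef) {v : Fin r → ℝ}
    (hv : v ≠ 0) {c₁ c₂ : ℝ}
    (hq : ∀ s, Sp A (fun i => s * v i) = Sp A 0 + c₁ * s + c₂ * s ^ 2) : Splits A := by
  classical
  obtain ⟨z, w, h⟩ := exists_lcp hA v
  have hc : ∀ s : ℝ, 0 ≤ s → Sp A (fun i => s * v i) = Sp A 0 + s ^ 2 * (qd A z / 2) :=
    fun s hs => ray_const hA h hq hs
  obtain ⟨i₀, hi₀⟩ := ne_I hA hv h hc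
  obtain ⟨j₀, hj₀⟩ := ne_J hA hv h hc
  have hzj : z j₀ = 0 := by
    rcases mul_eq_zero.1 (h.mul j₀) with h1 | h1
    · exact h1
    · exact absurd h1 hj₀.ne'
  refine ⟨Finset.univ.filter fun i => 0 < z i, Finset.univ.filter fun i => z i = 0 ∧ w i = 0,
    ⟨i₀, Finset.mem_filter.2 ⟨Finset.mem_univ _, hi₀⟩⟩, ?_, ?_, ?_⟩
  · rw [Finset.disjoint_left]
    intro i hi hi'
    have h1 := (Finset.mem_filter.1 hi).2
    have h2 := (Finset.mem_filter.1 hi').2.1
    exact h1.ne' h2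
  · intro hU
    have h1 : j₀ ∈ (Finset.univ.filter fun i => 0 < z i) ∪ (Finset.univ.filter fun i => z i = 0 ∧ w i = 0) := by
      rw [hU]
      exact Finset.mem_univ _
    rcases Finset.mem_union.1 h1 with h2 | h2
    · exact (Finset.mem_filter.1 h2).2.ne' hzj
    · exact hj₀.ne' (Finset.mem_filter.1 h2).2.2
  · obtain ⟨x, hx, hle⟩ := limit_le hA h hc
    have hmax : IsGreatest (obj A (Finset.univ.filter fun i => z i = 0 ∧ w i = 0) ''
        Feas (Finset.univ.filter fun i => 0 < z i) (Finset.univ.filter fun i => z i = 0 ∧ w i = 0))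
        (obj A (Finset.univ.filter fun i => z i = 0 ∧ w i = 0) x) := by
      refine ⟨⟨x, hx, rfl⟩, ?_⟩
      rintro _ ⟨x', hx', rfl⟩
      have h1 := limit_ge hA h hc hx'
      linarith
    have h2 := limit_ge hA h hc hx
    have hS : Sp A 0 = sSup (obj A Finset.univ '' Feas ∅ Finset.univ) := by
      unfold Sp
      congr 1
      have e1 : ({z | ∀ i, 0 ≤ z i} : Set (Fin r → ℝ)) = Feas ∅ Finset.univ := by
        ext z
        exact ⟨fun hz => ⟨fun i _ => hz i, fun i _ hi => absurd (Finset.mem_univ i) hi⟩, fun hz i => hz.1 i (Finset.mem_univ i)⟩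
      rw [e1]
      refine Set.image_congr fun z _ => ?_
      simp
    unfold charge
    rw [← hS, hmax.csSup_eq]
    have h3 : Sp A 0 = (Finset.univ.filter fun i => 0 < z i).card * (Real.pi ^ 2 / 6) +
        obj A (Finset.univ.filter fun i => z i = 0 ∧ w i = 0) x := le_antisymm hle h2
    rw [h3]
    have hpi : Real.pi ^ 2 ≠ 0 := pow_ne_zero _ Real.pi_ne_zero
    field_simp

end Pool.Agent.Lib.MP_8ce23f_nt.RR
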