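import Pool.Agent.Lib.MP_8ce23f_nt.Charge
import Pool.Agent.Lib.MP_8ce23f_nt.RR.Sym

/-!
# Definitions for the second half of the proof (rank `r`)
-/

namespace Pool.Agent.Lib.MP_8ce23f_nt.RR

variable {r : ℕ}

/-- `φ(y) = -log (1 - exp (-y))`, the derivative of `hfun`. -/
noncomputable def phi (y : ℝ) : ℝ := -Real.log (1 - Real.exp (-y))

/-- `zᵀ A z`. -/
noncomputable def qd (A : Matrix (Fin r) (Fin r) ℝ) (z : Fin r → ℝ) : ℝ :=
  ∑ i, ∑ j, z i * A i j * z j

/-- `y` is a positive solution of the saddle point equation at `x`. -/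
structure IsSol (A : Matrix (Fin r) (Fin r) ℝ) (x y : Fin r → ℝ) : Prop where
  pos : ∀ i, 0 < y i
  eq : ∀ i, phi (y i) = x i + ∑ j, A i j * y j

/-- The supremum of `∑ h(z_i) - zᵀ A z / 2 - x·z` over `z ≥ 0`. -/
noncomputable def Sp (A : Matrix (Fin r) (Fin r) ℝ) (x : Fin r → ℝ) : ℝ :=
  sSup ((fun z => obj A Finset.univ z - ∑ i, x i * z i) '' {z | ∀ i, 0 ≤ z i})

/-- A solution of the linear complementarity problem. -/
structure IsLCP (A : Matrix (Fin r) (Fin r) ℝ) (β z w : Fin r → ℝ) : Prop where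
  z0 : ∀ i, 0 ≤ z i
  w0 : ∀ i, 0 ≤ w i
  eq : ∀ i, w i = β i + ∑ j, A i j * z j
  mul : ∀ i, z i * w i = 0

/-- The vectors which satisfy every rational linear relation satisfied by `β`. -/
def Wspan (β : Fin r → ℂ) : Set (Fin r → ℂ) :=
  {x | ∀ c : Fin r → ℚ, ∑ i, (c i : ℂ) * β i = 0 → ∑ i, (c i : ℂ) * x i = 0}

/-- The second derivative in the direction `β`. -/
noncomputable def dd (β : Fin r → ℂ) (p : P r) : P r :=
  ∑ i, ∑ j, MvPolynomial.C (β i * β j) * MvPolynomial.pderiv i (MvPolynomial.pderiv j p)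

/-- `exp (c τ)`. -/
noncomputable def ex {R : Type*} [CommRing R] [Algebra ℚ R] (c : R) : PowerSeries R :=
  PowerSeries.rescale c (PowerSeries.exp R)

/-- The substitution `Z_k ↦ exp (τ X_k)`. -/
noncomputable def zMap (m : ℕ) : P m →ₐ[ℂ] PowerSeries (P m) :=
  MvPolynomial.aeval fun k => ex (MvPolynomial.X k)

/-- The ring generated by the `exp (τ X_k)`. -/
noncomputable def TT (m : ℕ) : Subalgebra ℂ (PowerSeries (P m)) := (zMap m).range

/-- The linear substitution `X_i ↦ ∑_k b_ik X_k`. -/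
noncomputable def lsub {m : ℕ} (b : Fin r → Fin m → ℤ) : P r →ₐ[ℂ] P m :=
  MvPolynomial.aeval fun i => ∑ k, MvPolynomial.C (b i k : ℂ) * MvPolynomial.X k

/-- The Taylor series at `0`. -/
noncomputable def tay (f : ℝ → ℝ) : PowerSeries ℝ :=
  PowerSeries.mk fun n => iteratedDeriv n f 0 / (n.factorial : ℝ)

/-- A rational matrix as a real matrix. -/
noncomputable def toR (A : Matrix (Fin r) (Fin r) ℚ) : Matrix (Fin r) (Fin r) ℝ :=
  A.map fun x : ℚ => (x : ℝ)

/-- A real matrix as a complex matrix. -/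
noncomputable def toC (A : Matrix (Fin r) (Fin r) ℝ) : Matrix (Fin r) (Fin r) ℂ :=
  A.map fun x : ℝ => (x : ℂ)

/-- A real vector as a complex vector. -/
noncomputable def vC (v : Fin r → ℝ) : Fin r → ℂ := fun i => (v i : ℂ)

end Pool.Agent.Lib.MP_8ce23f_nt.RR
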