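import Pool.Agent.Lib.MP_8ce23f_nt.RR.Defs

/-!
# Families of polynomials depending polynomially on parameters

As `R2/Reg.lean`; the parameters are the entries of `A` and `Q`.
-/

open Filter Topology Asymptotics MeasureTheory
open scoped Real

namespace Pool.Agent.Lib.MP_8ce23f_nt.RR

open Pool.Agent.Lib.MP_8ce23f_nt.R2 (rp Asy E2 Lam LamR Xi)

variable {r : ℕ}

/-- The parameters. -/
abbrev Par (r : ℕ) : Type := (Fin r × Fin r) ⊕ Fin r → ℂ

/-- Polynomials in the parameters. -/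
abbrev PP (r : ℕ) : Type := MvPolynomial ((Fin r × Fin r) ⊕ Fin r) ℂ

/-- Polynomials in `r` variables with coefficients depending on the parameters. -/
abbrev UP (r : ℕ) : Type := MvPolynomial (Fin r) (PP r)

/-- Specialisation of the parameters. -/
noncomputable def spec (ϖ : Par r) : UP r →+* P r := MvPolynomial.map (MvPolynomial.eval ϖ)

/-- The matrix attached to the parameters. -/
def Apar (ϖ : Par r) : Matrix (Fin r) (Fin r) ℂ := fun i j => ϖ (Sum.inl (i, j))

/-- The vector `Q` attached to the parameters. -/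
def Qpar (ϖ : Par r) : Fin r → ℂ := fun i => ϖ (Sum.inr i)

/-- The universal matrix. -/
noncomputable def AU : Matrix (Fin r) (Fin r) (PP r) := fun i j => MvPolynomial.X (Sum.inl (i, j))

/-- The universal `Q`. -/
noncomputable def QU : Fin r → PP r := fun i => MvPolynomial.X (Sum.inr i)

/-- The universal determinant. -/
noncomputable def detP : PP r := (Jm AU QU).det

/-- Regular families. -/
def Reg {ι : Type*} (ϖ : ι → Par r) (f : ι → P r) : Prop :=
  ∃ (e : ℕ) (F : UP r), ∀ i,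
    MvPolynomial.C (MvPolynomial.eval (ϖ i) detP ^ e) * f i = spec (ϖ i) F

variable {ι : Type*} {ϖ : ι → Par r} {f f' : ι → P r}

theorem eval_AU (ϖ : Par r) (i j : Fin r) : MvPolynomial.eval ϖ (AU i j) = Apar ϖ i j := by
  rw [AU, Apar, MvPolynomial.eval_X]

theorem eval_QU (ϖ : Par r) (i : Fin r) : MvPolynomial.eval ϖ (QU i) = Qpar ϖ i := by
  rw [QU, Qpar, MvPolynomial.eval_X]

theorem eval_Jm (ϖ : Par r) (i j : Fin r) :
    MvPolynomial.eval ϖ (Jm AU QU i j) = Jm (Apar ϖ) (Qpar ϖ) i j := by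
  rw [Jm, Jm, Matrix.of_apply, Matrix.of_apply, map_add, map_mul, map_sub, map_one, eval_AU,
    eval_QU]
  split_ifs
  · rw [eval_QU]
  · rw [map_zero]

theorem eval_detP (ϖ : Par r) : MvPolynomial.eval ϖ detP = (Jm (Apar ϖ) (Qpar ϖ)).det := by
  rw [detP, RingHom.map_det]
  congr 1
  ext i j
  rw [RingHom.mapMatrix_apply, Matrix.map_apply, eval_Jm]

theorem nondeg_iff (ϖ : Par r) :
    Nondeg (Apar ϖ) (Qpar ϖ) ↔ MvPolynomial.eval ϖ detP ≠ 0 := by
  rw [eval_detP]
  exact Iff.rfl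

theorem reg_spec_C (ϖ : Par r) (c : PP r) :
    spec ϖ (MvPolynomial.C c) = MvPolynomial.C (MvPolynomial.eval ϖ c) := by
  unfold spec
  rw [MvPolynomial.map_C]

theorem reg_spec_X (ϖ : Par r) (l : Fin r) : spec ϖ (MvPolynomial.X l) = MvPolynomial.X l := by
  unfold spec
  rw [MvPolynomial.map_X]

theorem Reg.const (F : UP r) : Reg ϖ (fun i => spec (ϖ i) F) := by
  exact ⟨0, F, fun i => by simp⟩

theorem Reg.C (c : PP r) : Reg ϖ (fun i => MvPolynomial.C (MvPolynomial.eval (ϖ i) c)) := by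
  refine ⟨0, MvPolynomial.C c, fun i => ?_⟩
  rw [reg_spec_C, pow_zero, map_one, one_mul]

theorem Reg.X (l : Fin r) : Reg ϖ (fun _ => (MvPolynomial.X l : P r)) := by
  refine ⟨0, MvPolynomial.X l, fun i => ?_⟩
  rw [reg_spec_X, pow_zero, map_one, one_mul]

theorem Reg.Cc (c : ℂ) : Reg ϖ (fun _ => (MvPolynomial.C c : P r)) := by
  refine ⟨0, MvPolynomial.C (MvPolynomial.C c), fun i => ?_⟩
  rw [reg_spec_C, MvPolynomial.eval_C, pow_zero, map_one, one_mul]

theorem Reg.add (h : Reg ϖ f) (h' : Reg ϖ f') : Reg ϖ (fun i => f i + f' i) := by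
  obtain ⟨e, F, hF⟩ := h
  obtain ⟨e', F', hF'⟩ := h'
  refine ⟨e + e', MvPolynomial.C (detP ^ e') * F + MvPolynomial.C (detP ^ e) * F', fun i => ?_⟩
  rw [map_add, map_mul, map_mul, reg_spec_C, reg_spec_C, ← hF i, ← hF' i]
  simp only [map_pow, pow_add, map_mul]
  ring

theorem Reg.neg (h : Reg ϖ f) : Reg ϖ (fun i => -f i) := by
  obtain ⟨e, F, hF⟩ := h
  exact ⟨e, -F, fun i => by rw [map_neg, ← hF i, mul_neg]⟩

theorem Reg.sub (h : Reg ϖ f) (h' : Reg ϖ f') : Reg ϖ (fun i => f i - f' i) := by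
  simp only [sub_eq_add_neg]
  exact h.add h'.neg

theorem Reg.mul (h : Reg ϖ f) (h' : Reg ϖ f') : Reg ϖ (fun i => f i * f' i) := by
  obtain ⟨e, F, hF⟩ := h
  obtain ⟨e', F', hF'⟩ := h'
  refine ⟨e + e', F * F', fun i => ?_⟩
  rw [map_mul, ← hF i, ← hF' i, pow_add, map_mul]
  ring

theorem Reg.sum {κ : Type*} (s : Finset κ) {g : κ → ι → P r} (h : ∀ k ∈ s, Reg ϖ (g k)) :
    Reg ϖ (fun i => ∑ k ∈ s, g k i) := by
  classical
  induction s using Finset.induction_on with
  | empty =>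
    refine ⟨0, 0, fun i => ?_⟩
    simp
  | insert a s ha ih =>
    have h1 := (h a (Finset.mem_insert_self a s)).add
      (ih (fun k hk => h k (Finset.mem_insert_of_mem hk)))
    refine Eq.mp (congrArg (Reg ϖ) (funext fun i => ?_)) h1
    rw [Finset.sum_insert ha]

theorem Reg.of_det_mul
    (h : Reg ϖ (fun i => MvPolynomial.C (MvPolynomial.eval (ϖ i) detP) * f i)) : Reg ϖ f := by
  obtain ⟨e, F, hF⟩ := h
  refine ⟨e + 1, F, fun i => ?_⟩
  rw [← hF i, pow_succ, map_mul, mul_assoc]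

theorem Reg.pderiv (h : Reg ϖ f) (l : Fin r) :
    Reg ϖ (fun i => MvPolynomial.pderiv l (f i)) := by
  obtain ⟨e, F, hF⟩ := h
  refine ⟨e, MvPolynomial.pderiv l F, fun i => ?_⟩
  rw [← MvPolynomial.pderiv_C_mul, hF i, spec, MvPolynomial.pderiv_map]

theorem Reg.hom (h : Reg ϖ f) (k : ℕ) :
    Reg ϖ (fun i => MvPolynomial.homogeneousComponent k (f i)) := by
  obtain ⟨e, F, hF⟩ := h
  refine ⟨e, MvPolynomial.homogeneousComponent k F, fun i => ?_⟩
  rw [← MvPolynomial.homogeneousComponent_C_mul, hF i, spec]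
  ext d
  rw [MvPolynomial.coeff_homogeneousComponent, MvPolynomial.coeff_map, MvPolynomial.coeff_map,
    MvPolynomial.coeff_homogeneousComponent]
  split_ifs
  · rfl
  · rw [map_zero]

/-- the universal shift -/
noncomputable def regShU (w : Fin r → PP r) : UP r →ₐ[PP r] UP r :=
  MvPolynomial.aeval fun i => MvPolynomial.X i + MvPolynomial.C (w i)

theorem reg_sh_spec (ϖ : Par r) (w : Fin r → PP r) (F : UP r) :
    sh (fun j => MvPolynomial.eval ϖ (w j)) (spec ϖ F) = spec ϖ (regShU w F) := by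
  have h : ((sh (fun j => MvPolynomial.eval ϖ (w j)) : P r →ₐ[ℂ] P r) : P r →+* P r).comp (spec ϖ) =
      (spec ϖ).comp ((regShU w : UP r →ₐ[PP r] UP r) : UP r →+* UP r) := by
    refine MvPolynomial.ringHom_ext ?_ ?_
    · intro c
      rw [RingHom.comp_apply, RingHom.comp_apply, reg_spec_C]
      simp only [RingHom.coe_coe, sh, regShU, MvPolynomial.aeval_C, MvPolynomial.algebraMap_eq]
      rw [reg_spec_C]
    · intro i
      rw [RingHom.comp_apply, RingHom.comp_apply, reg_spec_X]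
      simp only [RingHom.coe_coe, sh, regShU, MvPolynomial.aeval_X]
      rw [map_add, reg_spec_X, reg_spec_C]
  exact RingHom.congr_fun h F

theorem reg_sh {w : Fin r → PP r} (h : Reg ϖ f) :
    Reg ϖ (fun i => sh (fun j => MvPolynomial.eval (ϖ i) (w j)) (f i)) := by
  obtain ⟨e, F, hF⟩ := h
  refine ⟨e, regShU w F, fun i => ?_⟩
  rw [← reg_sh_spec, ← hF i, map_mul]
  congr 1
  simp [sh]

theorem Reg.sh_e (h : Reg ϖ f) (l : Fin r) : Reg ϖ (fun i => sh (Pi.single l 1) (f i)) := by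
  have h1 := reg_sh (w := fun j : Fin r => (Pi.single l 1 : Fin r → PP r) j) h
  refine Eq.mp (congrArg (Reg ϖ) (funext fun i => ?_)) h1
  congr 2
  funext j
  by_cases hj : j = l
  · subst hj
    simp
  · simp [hj]

theorem Reg.sh_A (h : Reg ϖ f) (l : Fin r) : Reg ϖ (fun i => sh (Apar (ϖ i) l) (f i)) := by
  have h1 := reg_sh (w := fun j : Fin r => AU l j) h
  refine Eq.mp (congrArg (Reg ϖ) (funext fun i => ?_)) h1
  congr 2
  funext j
  exact eval_AU (ϖ i) l j

end Pool.Agent.Lib.MP_8ce23f_nt.RR
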