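import Pool.Agent.Lib.MP_8ce23f_nt.RR.Reg
import Pool.Agent.Lib.MP_8ce23f_nt.RR.Hom

/-!
# Inverting the difference operators in regular families

As `R2/RegInv.lean`, with the adjugate in place of the rule for `2 × 2` matrices.
-/

open Filter Topology Asymptotics MeasureTheory
open scoped Real

namespace Pool.Agent.Lib.MP_8ce23f_nt.RR

open Pool.Agent.Lib.MP_8ce23f_nt.R2 (rp Asy E2 Lam LamR Xi)

variable {r : ℕ}

variable {ι : Type*} {ϖ : ι → Par r}

/-- The difference operator. -/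
private noncomputable def RegInv_T (A : Matrix (Fin r) (Fin r) ℂ) (Q : Fin r → ℂ) (l : Fin r)
    (p : P r) : P r :=
  MvPolynomial.C (Q l) * (sh (Pi.single l 1) p - p) +
    MvPolynomial.C (1 - Q l) * (sh (A l) p - p)

private theorem RegInv_T_sub (A : Matrix (Fin r) (Fin r) ℂ) (Q : Fin r → ℂ) (l : Fin r)
    (p q : P r) :
    RegInv_T A Q l (p - q) = RegInv_T A Q l p - RegInv_T A Q l q := by
  unfold RegInv_T
  rw [map_sub (sh (Pi.single l 1)), map_sub (sh (A l))]
  ring

private theorem RegInv_hom_T (A : Matrix (Fin r) (Fin r) ℂ) (Q : Fin r → ℂ) (l : Fin r)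
    {p : P r} {k : ℕ} (hp : p.totalDegree ≤ k + 1) :
    MvPolynomial.homogeneousComponent k (RegInv_T A Q l p) =
      ∑ n, MvPolynomial.C (Jm A Q l n) *
        MvPolynomial.pderiv n (MvPolynomial.homogeneousComponent (k + 1) p) := by
  classical
  unfold RegInv_T
  rw [map_add, MvPolynomial.homogeneousComponent_C_mul, MvPolynomial.homogeneousComponent_C_mul,
    hom_shift₁ hp, hom_shift₁ hp, Finset.mul_sum, Finset.mul_sum, ← Finset.sum_add_distrib]
  refine Finset.sum_congr rfl fun n _ => ?_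
  have h1 : (Jm A Q l n : ℂ) = (Q l) * (Pi.single l (1 : ℂ) : Fin r → ℂ) n +
      (1 - Q l) * A l n := by
    unfold Jm
    rw [Matrix.of_apply]
    congr 1
    by_cases h : l = n
    · subst h
      rw [if_pos rfl, Pi.single_eq_same, mul_one]
    · rw [if_neg h, Pi.single_eq_of_ne (Ne.symm h), mul_zero]
  rw [h1, MvPolynomial.C_add, MvPolynomial.C_mul, MvPolynomial.C_mul]
  ring

private theorem RegInv_congr {f g : ι → P r} (h : Reg ϖ f) (hfg : ∀ i, f i = g i) :
    Reg ϖ g := by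
  have : f = g := funext hfg
  rwa [← this]

private theorem RegInv_reg_T {D : ι → P r} (h : Reg ϖ D) (l : Fin r) :
    Reg ϖ (fun i => RegInv_T (Apar (ϖ i)) (Qpar (ϖ i)) l (D i)) := by
  have hQ : Reg ϖ (fun i => MvPolynomial.C (Qpar (ϖ i) l)) :=
    RegInv_congr (Reg.C (ϖ := ϖ) (QU l)) fun i => by rw [eval_QU]
  have hQ' : Reg ϖ (fun i => MvPolynomial.C (1 - Qpar (ϖ i) l)) :=
    RegInv_congr (Reg.C (ϖ := ϖ) (1 - QU l)) fun i => by rw [map_sub, map_one, eval_QU]
  exact (hQ.mul ((h.sh_e l).sub h)).add (hQ'.mul ((h.sh_A l).sub h))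

private theorem RegInv_adj (w : Par r) (n k : Fin r) :
    ∑ l, MvPolynomial.eval w ((Jm (AU (r := r)) QU).adjugate n l) * Jm (Apar w) (Qpar w) l k =
      if n = k then MvPolynomial.eval w detP else 0 := by
  classical
  have h := congrFun (congrFun (Matrix.adjugate_mul (Jm (AU (r := r)) QU)) n) k
  rw [Matrix.mul_apply, Matrix.smul_apply, Matrix.one_apply, smul_eq_mul] at h
  have h2 := congrArg (MvPolynomial.eval w) h
  rw [map_sum] at h2
  rw [← Finset.sum_congr rfl fun l _ => ?_, h2]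
  · by_cases hnk : n = k
    · rw [if_pos hnk, if_pos hnk, mul_one]
      rfl
    · rw [if_neg hnk, if_neg hnk, mul_zero, map_zero]
  · rw [map_mul, eval_Jm]

private theorem RegInv_cramer {D : ι → P r} {k : ℕ} (hm : ∀ i, (D i).totalDegree ≤ k + 1)
    (h : ∀ l : Fin r, Reg ϖ (fun i => RegInv_T (Apar (ϖ i)) (Qpar (ϖ i)) l (D i)))
    (n : Fin r) :
    Reg ϖ (fun i => MvPolynomial.pderiv n (MvPolynomial.homogeneousComponent (k + 1) (D i))) := by
  classical
  have hG : ∀ l : Fin r, Reg ϖ (fun i => MvPolynomial.homogeneousComponent k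
      (RegInv_T (Apar (ϖ i)) (Qpar (ϖ i)) l (D i))) := fun l => (h l).hom k
  apply Reg.of_det_mul
  refine RegInv_congr (Reg.sum (ϖ := ϖ) Finset.univ (g := fun l i =>
    MvPolynomial.C (MvPolynomial.eval (ϖ i) ((Jm (AU (r := r)) QU).adjugate n l)) *
      MvPolynomial.homogeneousComponent k
        (RegInv_T (Apar (ϖ i)) (Qpar (ϖ i)) l (D i))) fun l _ =>
    (Reg.C (ϖ := ϖ) ((Jm (AU (r := r)) QU).adjugate n l)).mul (hG l)) fun i => ?_
  have h1 : ∀ l : Fin r,
      MvPolynomial.C (MvPolynomial.eval (ϖ i) ((Jm (AU (r := r)) QU).adjugate n l)) *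
      MvPolynomial.homogeneousComponent k
        (RegInv_T (Apar (ϖ i)) (Qpar (ϖ i)) l (D i)) =
      ∑ m, (MvPolynomial.C (MvPolynomial.eval (ϖ i) ((Jm (AU (r := r)) QU).adjugate n l) *
        Jm (Apar (ϖ i)) (Qpar (ϖ i)) l m) : P r) *
        MvPolynomial.pderiv m (MvPolynomial.homogeneousComponent (k + 1) (D i)) := by
    intro l
    rw [RegInv_hom_T _ _ l (hm i), Finset.mul_sum]
    refine Finset.sum_congr rfl fun m _ => ?_
    rw [MvPolynomial.C_mul, mul_assoc]
  rw [Finset.sum_congr rfl fun l _ => h1 l, Finset.sum_comm]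
  have h2 : ∀ m : Fin r,
      ∑ l, (MvPolynomial.C (MvPolynomial.eval (ϖ i) ((Jm (AU (r := r)) QU).adjugate n l) *
        Jm (Apar (ϖ i)) (Qpar (ϖ i)) l m) : P r) *
        MvPolynomial.pderiv m (MvPolynomial.homogeneousComponent (k + 1) (D i)) =
      MvPolynomial.C (if n = m then MvPolynomial.eval (ϖ i) detP else 0) *
        MvPolynomial.pderiv m (MvPolynomial.homogeneousComponent (k + 1) (D i)) := by
    intro m
    rw [← Finset.sum_mul, ← map_sum, RegInv_adj]
  rw [Finset.sum_congr rfl fun m _ => h2 m, Finset.sum_eq_single n]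
  · rw [if_pos rfl]
  · intro m _ hm'
    rw [if_neg (Ne.symm hm'), MvPolynomial.C_0, zero_mul]
  · intro hn
    exact absurd (Finset.mem_univ n) hn

private theorem RegInv_top {D : ι → P r} {k : ℕ} (hm : ∀ i, (D i).totalDegree ≤ k + 1)
    (h : ∀ l : Fin r, Reg ϖ (fun i => RegInv_T (Apar (ϖ i)) (Qpar (ϖ i)) l (D i))) :
    Reg ϖ (fun i => MvPolynomial.homogeneousComponent (k + 1) (D i)) := by
  refine RegInv_congr ((Reg.Cc (ϖ := ϖ) (((k + 1 : ℕ) : ℂ)⁻¹)).mul
    (Reg.sum (ϖ := ϖ) Finset.univ (g := fun l i => MvPolynomial.X l *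
      MvPolynomial.pderiv l (MvPolynomial.homogeneousComponent (k + 1) (D i)))
      fun l _ => (Reg.X (ϖ := ϖ) l).mul (RegInv_cramer hm h l))) fun i => ?_
  have he := (MvPolynomial.homogeneousComponent_isHomogeneous (k + 1) (D i)).sum_X_mul_pderiv
  rw [he, nsmul_eq_mul]
  have hk : ((k + 1 : ℕ) : ℂ) ≠ 0 := Nat.cast_ne_zero.2 (Nat.succ_ne_zero k)
  have hc : (MvPolynomial.C (((k + 1 : ℕ) : ℂ)⁻¹) : P r) * ((k + 1 : ℕ) : P r) = 1 := by
    rw [← MvPolynomial.C_eq_coe_nat, ← MvPolynomial.C_mul, inv_mul_cancel₀ hk, MvPolynomial.C_1]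
  rw [← mul_assoc, hc, one_mul]

private theorem RegInv_totalDegree {p : P r} {k : ℕ} (hp : p.totalDegree ≤ k + 1) :
    (p - MvPolynomial.homogeneousComponent (k + 1) p).totalDegree ≤ k := by
  classical
  unfold MvPolynomial.totalDegree
  refine Finset.sup_le fun s hs => ?_
  rw [MvPolynomial.mem_support_iff, MvPolynomial.coeff_sub,
    MvPolynomial.coeff_homogeneousComponent] at hs
  have hdeg : (s.sum fun _ e => e) = s.degree := rfl
  have hsp : s ∈ p.support := by
    rw [MvPolynomial.mem_support_iff]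
    intro h0
    apply hs
    rw [h0]
    split_ifs <;> simp
  have h1 : (s.sum fun _ e => e) ≤ k + 1 := (MvPolynomial.le_totalDegree hsp).trans hp
  have h2 : s.degree ≠ k + 1 := by
    intro h3
    apply hs
    rw [if_pos h3, sub_self]
  omega

private theorem RegInv_coeff {p : P r} {k : ℕ} :
    MvPolynomial.coeff 0 (p - MvPolynomial.homogeneousComponent (k + 1) p) =
      MvPolynomial.coeff 0 p := by
  classical
  rw [MvPolynomial.coeff_sub, MvPolynomial.coeff_homogeneousComponent, if_neg, sub_zero]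
  rw [map_zero]
  omega

private theorem RegInv_main (m : ℕ) : ∀ (D : ι → P r), (∀ i, (D i).totalDegree ≤ m) →
    (∀ l : Fin r, Reg ϖ (fun i => RegInv_T (Apar (ϖ i)) (Qpar (ϖ i)) l (D i))) →
    Reg ϖ (fun i => D i - MvPolynomial.C (MvPolynomial.coeff 0 (D i))) := by
  induction m with
  | zero =>
    intro D hD _
    refine RegInv_congr (Reg.Cc (ϖ := ϖ) 0) fun i => ?_
    have h0 : (D i).totalDegree = 0 := Nat.le_zero.1 (hD i)
    rw [MvPolynomial.C_0, eq_comm, sub_eq_zero]
    exact MvPolynomial.totalDegree_eq_zero_iff_eq_C.1 h0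
  | succ k ih =>
    intro D hD hT
    have hH := RegInv_top hD hT
    have h1 := ih (fun i => D i - MvPolynomial.homogeneousComponent (k + 1) (D i))
      (fun i => RegInv_totalDegree (hD i))
      (fun l => RegInv_congr ((hT l).sub (RegInv_reg_T hH l)) fun i => by
        rw [RegInv_T_sub])
    refine RegInv_congr (h1.add hH) fun i => ?_
    rw [RegInv_coeff]
    ring

theorem Reg.inv_T {D : ι → P r} {m : ℕ} (hm : ∀ i, (D i).totalDegree ≤ m)
    (h : ∀ l : Fin r, Reg ϖ (fun i => MvPolynomial.C (Qpar (ϖ i) l) *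
        (sh (Pi.single l 1) (D i) - D i) +
      MvPolynomial.C (1 - Qpar (ϖ i) l) * (sh (Apar (ϖ i) l) (D i) - D i))) :
    Reg ϖ (fun i => D i - MvPolynomial.C (MvPolynomial.coeff 0 (D i))) :=
  RegInv_main m D hm h

end Pool.Agent.Lib.MP_8ce23f_nt.RR
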