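import Pool.Agent.Lib.MP_8ce23f_nt.RR.SDefs

/-!
# Separation of levels

Leaf SA1 of the table `srl`.  Mathlib only.  Write `D` for the derivative and `x` for `X`.

`sep_aux` (i): if `f' ∈ K` and `f = ∑_{i < m} x^i k_i` with all `k_i ∈ K`, then `k_i = 0` for `i ≥ 2`
(we may take `k_i = 0` for `i ≥ m`) and `k_1` is a constant.  Proof: `f' = ∑ x^i (k_i' + (i+1) k_{i+1})`; by `tr`,
`k_i' + (i+1) k_{i+1} = 0` for `i ≥ 1`.  The top one has `k_top' = 0`, so it is a constant; if top `≥ 2` then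
`k_{top-1}' = - top * k_top` is a constant `c`, `k_{top-1} = c x + c'` is in `K`, so `c = 0` by `tr`; so `k_top = 0`.
(ii): for every `n`, if `f_i' ∈ K` for `i < n` and `∑_{i<n} x^i f_i` is of the form `∑_{j<m} x^j k_j` with `k_j ∈ K`, then
each `f_i` is `k + λ x` with `k ∈ K`, `λ ∈ ℂ`: induction on `n`: differentiate: `∑_{i<n-1} x^i (i+1) f_{i+1}` is again in
`K[x]`, as `f_i' ∈ K`; so `f_i = k_i + λ_i x` for `i ≥ 1`, hence `f_0 ∈ K[x]`, and (i).
(iii): if moreover the sum is a polynomial `p` with constant coefficients: `∑ x^i k_i + λ_i x^(i+1) = p`, by `tr`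
`k_i + λ_{i-1} = p_i`, so every `k_i` is a constant, and `f_i = k_i + λ_i x` has no coefficient `j ≥ 2`.
-/

namespace Pool.Agent.Lib.MP_8ce23f_nt.RR

open PowerSeries

/-- The series `f + g x + ...` with coefficients in `K`. -/
private noncomputable def SA1_S (K : Subalgebra ℂ (PowerSeries ℂ)) : Subalgebra K (PowerSeries ℂ) :=
  (Polynomial.aeval (R := K) (X : PowerSeries ℂ)).range

private theorem SA1_memK {K : Subalgebra ℂ (PowerSeries ℂ)} {k : PowerSeries ℂ} (hk : k ∈ K) : k ∈ SA1_S K :=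
  (SA1_S K).algebraMap_mem ⟨k, hk⟩

private theorem SA1_memX {K : Subalgebra ℂ (PowerSeries ℂ)} : (X : PowerSeries ℂ) ∈ SA1_S K :=
  ⟨Polynomial.X, Polynomial.aeval_X _⟩

private theorem SA1_C {K : Subalgebra ℂ (PowerSeries ℂ)} (a : ℂ) : PowerSeries.C a ∈ K :=
  K.algebraMap_mem a

private theorem SA1_sum {K : Subalgebra ℂ (PowerSeries ℂ)} (q : Polynomial K) (m : ℕ) (hm : q.natDegree < m) :
    (Polynomial.aeval (X : PowerSeries ℂ) q : PowerSeries ℂ) =
      ∑ i ∈ Finset.range m, X ^ i * ((q.coeff i : K) : PowerSeries ℂ) := by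
  rw [Polynomial.aeval_eq_sum_range' hm]
  refine Finset.sum_congr rfl fun j _ => ?_
  rw [mul_comm]
  rfl

private theorem SA1_inj {K : Subalgebra ℂ (PowerSeries ℂ)} (hK : DK K) (q q' : Polynomial K)
    (h : (Polynomial.aeval (X : PowerSeries ℂ) q : PowerSeries ℂ) = Polynomial.aeval (X : PowerSeries ℂ) q') (i : ℕ) :
    ((q.coeff i : K) : PowerSeries ℂ) = ((q'.coeff i : K) : PowerSeries ℂ) := by
  rw [SA1_sum q (q.natDegree + q'.natDegree + 1 + i) (by omega),
    SA1_sum q' (q.natDegree + q'.natDegree + 1 + i) (by omega)] at h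
  have h1 := hK.tr (q.natDegree + q'.natDegree + 1 + i) (fun i => ((q.coeff i : K) : PowerSeries ℂ) -
    ((q'.coeff i : K) : PowerSeries ℂ)) (fun i => K.sub_mem (q.coeff i).2 (q'.coeff i).2) (by
      simp only [mul_sub, Finset.sum_sub_distrib]
      rw [h, sub_self]) i (by omega)
  exact sub_eq_zero.mp h1

private theorem SA1_coe (p : Polynomial ℂ) : Polynomial.aeval (X : PowerSeries ℂ) p = (p : PowerSeries ℂ) := by
  rw [Polynomial.aeval_def]
  exact Polynomial.eval₂_C_X_eq_coe

private theorem SA1_coe_mem {K : Subalgebra ℂ (PowerSeries ℂ)} (p : Polynomial ℂ) : (p : PowerSeries ℂ) ∈ SA1_S K := by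
  refine ⟨p.map (algebraMap ℂ K), ?_⟩
  rw [← SA1_coe p]
  exact Polynomial.aeval_map_algebraMap K _ p

private theorem SA1_const {K : Subalgebra ℂ (PowerSeries ℂ)} (hK : DK K) (n : ℕ) (k : ℕ → PowerSeries ℂ)
    (hk : ∀ i, k i ∈ K) (p : Polynomial ℂ) (h : ∑ i ∈ Finset.range n, X ^ i * k i = (p : PowerSeries ℂ))
    (i : ℕ) (hi : i < n) : k i = PowerSeries.C (p.coeff i) := by
  have h2 := SA1_inj hK (∑ j ∈ Finset.range n, Polynomial.C (⟨k j, hk j⟩ : K) * Polynomial.X ^ j)
      (p.map (algebraMap ℂ K)) (by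
    rw [Polynomial.aeval_map_algebraMap, SA1_coe, ← h, map_sum]
    refine Finset.sum_congr rfl fun j _ => ?_
    rw [map_mul, Polynomial.aeval_C, map_pow, Polynomial.aeval_X, mul_comm]
    rfl) i
  simp only [Polynomial.finsetSum_coeff, Polynomial.coeff_C_mul, Polynomial.coeff_X_pow, mul_ite, mul_one,
    mul_zero, Finset.sum_ite_eq, Finset.mem_range, hi, if_true, Polynomial.coeff_map] at h2
  exact h2

private theorem SA1_d_zero {f : PowerSeries ℂ} (h : derivative ℂ f = 0) : f = PowerSeries.C (constantCoeff f) := by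
  refine derivative.ext ?_ ?_
  · rw [h, derivative_C]
  · rw [constantCoeff_C]

private theorem SA1_dterm (f : PowerSeries ℂ) (i : ℕ) :
    derivative ℂ (X ^ i * f) = X ^ i * derivative ℂ f + (i : PowerSeries ℂ) * X ^ (i - 1) * f := by
  rw [Derivation.leibniz, derivative_pow, derivative_X, smul_eq_mul, smul_eq_mul]
  ring

private theorem SA1_dsum (n : ℕ) (f : ℕ → PowerSeries ℂ) :
    derivative ℂ (∑ i ∈ Finset.range (n + 1), X ^ i * f i) =
      ∑ i ∈ Finset.range (n + 1), X ^ i * derivative ℂ (f i) +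
      ∑ i ∈ Finset.range n, X ^ i * (((i : PowerSeries ℂ) + 1) * f (i + 1)) := by
  rw [map_sum, Finset.sum_congr rfl fun i _ => SA1_dterm (f i) i, Finset.sum_add_distrib]
  congr 1
  rw [Finset.sum_range_succ']
  rw [Nat.cast_zero, zero_mul, zero_mul, add_zero]
  refine Finset.sum_congr rfl fun i _ => ?_
  rw [Nat.add_sub_cancel]
  push_cast
  ring

private theorem SA1_dmem {K : Subalgebra ℂ (PowerSeries ℂ)} (hK : DK K) {f : PowerSeries ℂ} (hf : f ∈ SA1_S K) :
    derivative ℂ f ∈ SA1_S K := by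
  obtain ⟨q, rfl⟩ := hf
  change derivative ℂ (Polynomial.aeval (X : PowerSeries ℂ) q) ∈ SA1_S K
  rw [SA1_sum q (q.natDegree + 1) (by omega), SA1_dsum]
  refine add_mem (sum_mem fun i _ => mul_mem (pow_mem SA1_memX i) (SA1_memK (hK.der _ (q.coeff i).2)))
    (sum_mem fun i _ => mul_mem (pow_mem SA1_memX i) (mul_mem (add_mem (natCast_mem _ i) (one_mem _))
      (SA1_memK (q.coeff (i + 1)).2)))

private theorem SA1_i {K : Subalgebra ℂ (PowerSeries ℂ)} (hK : DK K) {f : PowerSeries ℂ} (hf : f ∈ SA1_S K)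
    (hd : derivative ℂ f ∈ K) : ∃ k ∈ K, ∃ a : ℂ, f = k + PowerSeries.C a * X := by
  obtain ⟨q, rfl⟩ := hf
  set c : ℕ → PowerSeries ℂ := fun i => ((q.coeff i : K) : PowerSeries ℂ) with hc
  have hcK : ∀ i, c i ∈ K := fun i => (q.coeff i).2
  have hc0 : ∀ i, q.natDegree < i → c i = 0 := fun i hi => by
    simp only [hc, Polynomial.coeff_eq_zero_of_natDegree_lt hi]
    rfl
  have h2 : (Polynomial.aeval (X : PowerSeries ℂ) q : PowerSeries ℂ) =
      ∑ i ∈ Finset.range (q.natDegree + 2), X ^ i * c i := SA1_sum q (q.natDegree + 2) (by omega)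
  set g : PowerSeries ℂ := derivative ℂ (Polynomial.aeval (X : PowerSeries ℂ) q) with hg
  have hgK : g ∈ K := hd
  have h3 : ∑ i ∈ Finset.range (q.natDegree + 2), X ^ i *
      (derivative ℂ (c i) + ((i : PowerSeries ℂ) + 1) * c (i + 1) - if i = 0 then g else 0) = 0 := by
    have h4 : g = ∑ i ∈ Finset.range (q.natDegree + 2), X ^ i * derivative ℂ (c i) +
      ∑ i ∈ Finset.range (q.natDegree + 2), X ^ i * (((i : PowerSeries ℂ) + 1) * c (i + 1)) := by
      rw [hg, h2, SA1_dsum, Finset.sum_range_succ (fun i => X ^ i * (((i : PowerSeries ℂ) + 1) * c (i + 1)))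
        (q.natDegree + 1), hc0 (q.natDegree + 1 + 1) (by omega), mul_zero, mul_zero, add_zero]
    have h5 : ∑ i ∈ Finset.range (q.natDegree + 2), X ^ i * (if i = 0 then g else 0) = g := by
      simp [mul_ite, Finset.sum_ite_eq']
    rw [Finset.sum_congr rfl fun i _ => show X ^ i * (derivative ℂ (c i) + ((i : PowerSeries ℂ) + 1) * c (i + 1) -
      if i = 0 then g else 0) = (X ^ i * derivative ℂ (c i) + X ^ i * (((i : PowerSeries ℂ) + 1) * c (i + 1))) -
      X ^ i * (if i = 0 then g else 0) by ring]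
    rw [Finset.sum_sub_distrib, Finset.sum_add_distrib, ← h4, h5, sub_self]
  have h5 : ∀ i, 1 ≤ i → derivative ℂ (c i) + ((i : PowerSeries ℂ) + 1) * c (i + 1) = 0 := by
    intro i hi
    by_cases hi2 : i < q.natDegree + 2
    · have h6 := hK.tr (q.natDegree + 2) (fun i => derivative ℂ (c i) + ((i : PowerSeries ℂ) + 1) * c (i + 1) -
        if i = 0 then g else 0) (fun i => ?_) h3 i hi2
      · simp only [if_neg (show ¬ i = 0 by omega), sub_zero] at h6
        exact h6
      · refine K.sub_mem (K.add_mem (hK.der _ (hcK i)) (K.mul_mem (K.add_mem (natCast_mem K i) K.one_mem) (hcK (i + 1)))) ?_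
        split_ifs
        · exact hgK
        · exact K.zero_mem
    · rw [hc0 i (by omega), hc0 (i + 1) (by omega), map_zero, mul_zero, add_zero]
  have h7 : ∀ j i, 2 ≤ i → q.natDegree < i + j → c i = 0 := by
    intro j
    induction j with
    | zero => intro i _ hi; exact hc0 i (by omega)
    | succ j ih =>
      intro i hi hij
      have h8 := ih (i + 1) (by omega) (by omega)
      have h9 := h5 i (by omega)
      rw [h8, mul_zero, add_zero] at h9
      have h10 := SA1_d_zero h9
      set a : ℂ := constantCoeff (c i) with ha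
      obtain ⟨l, rfl⟩ : ∃ l, i = l + 1 := ⟨i - 1, by omega⟩
      have h11 := h5 l (by omega)
      have h12 : c l = ((Polynomial.C (constantCoeff (c l)) + Polynomial.C (-((l : ℂ) + 1) * a) * Polynomial.X :
          Polynomial ℂ) : PowerSeries ℂ) := by
        refine derivative.ext ?_ ?_
        · rw [derivative_coe]
          simp only [Polynomial.derivative_add, Polynomial.derivative_C, zero_add, Polynomial.derivative_C_mul,
            Polynomial.derivative_X, mul_one, Polynomial.coe_C]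
          rw [eq_neg_of_add_eq_zero_left h11, h10]
          simp
          ring
        · simp
      have h13 := SA1_const hK 1 (fun _ => c l) (fun _ => hcK l) _ (by rw [Finset.sum_range_one, pow_zero, one_mul]; exact h12) 0
        (by omega)
      have h14 := congrArg (fun s => coeff 1 s) (h12.symm.trans h13)
      simp only [Polynomial.coeff_coe, Polynomial.coeff_add, Polynomial.coeff_C_mul, Polynomial.coeff_C_succ,
        Polynomial.coeff_X_one, mul_one, zero_add, coeff_C] at h14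
      have h15 : ((l : ℂ) + 1) ≠ 0 := by exact_mod_cast Nat.succ_ne_zero l
      have h16 : a = 0 := by
        have h17 : -((l : ℂ) + 1) * a = 0 := by simpa using h14
        rcases mul_eq_zero.mp h17 with h18 | h18
        · exact absurd (neg_eq_zero.mp h18) h15
        · exact h18
      rw [h10, h16, map_zero]
  have h8 : ∀ i, 2 ≤ i → c i = 0 := fun i hi => h7 (q.natDegree + 1) i hi (by omega)
  have h9 := h5 1 le_rfl
  rw [h8 2 le_rfl, mul_zero, add_zero] at h9
  refine ⟨c 0, hcK 0, constantCoeff (c 1), ?_⟩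
  rw [← SA1_d_zero h9]
  change (Polynomial.aeval (X : PowerSeries ℂ) q : PowerSeries ℂ) = c 0 + c 1 * X
  rw [h2, Finset.sum_range_succ', Finset.sum_range_succ']
  rw [Finset.sum_eq_zero fun i _ => by rw [h8 (i + 1 + 1) (by omega), mul_zero]]
  ring

private theorem SA1_ii {K : Subalgebra ℂ (PowerSeries ℂ)} (hK : DK K) (n : ℕ) : ∀ (f : ℕ → PowerSeries ℂ),
    (∀ i, derivative ℂ (f i) ∈ K) → ∑ i ∈ Finset.range n, X ^ i * f i ∈ SA1_S K →
    ∀ i < n, ∃ k ∈ K, ∃ a : ℂ, f i = k + PowerSeries.C a * X := by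
  induction n with
  | zero => intro f _ _ i hi; omega
  | succ n ih =>
    intro f hf h
    have h1 : ∑ i ∈ Finset.range n, X ^ i * (((i : PowerSeries ℂ) + 1) * f (i + 1)) ∈ SA1_S K := by
      have h2 := SA1_dmem hK h
      rw [SA1_dsum] at h2
      have h3 : ∑ i ∈ Finset.range (n + 1), X ^ i * derivative ℂ (f i) ∈ SA1_S K :=
        sum_mem fun i _ => mul_mem (pow_mem SA1_memX i) (SA1_memK (hf i))
      have h4 := sub_mem h2 h3
      rwa [add_sub_cancel_left] at h4
    have h2 := ih (fun i => ((i : PowerSeries ℂ) + 1) * f (i + 1)) (fun i => by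
      rw [Derivation.leibniz, smul_eq_mul, smul_eq_mul, map_add, Derivation.map_natCast, Derivation.map_one_eq_zero,
        add_zero, mul_zero, add_zero]
      exact K.mul_mem (K.add_mem (natCast_mem K i) K.one_mem) (hf (i + 1))) h1
    have h3 : ∀ i < n, ∃ k ∈ K, ∃ a : ℂ, f (i + 1) = k + PowerSeries.C a * X := by
      intro i hi
      obtain ⟨k, hk, a, h4⟩ := h2 i hi
      have h5 : ((i : ℂ) + 1) ≠ 0 := by exact_mod_cast Nat.succ_ne_zero i
      have h7 : PowerSeries.C (((i : ℂ) + 1)⁻¹) * ((i : PowerSeries ℂ) + 1) = 1 := by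
        have h8 : ((i : PowerSeries ℂ) + 1) = PowerSeries.C ((i : ℂ) + 1) := by simp
        rw [h8, ← map_mul, inv_mul_cancel₀ h5, map_one]
      refine ⟨PowerSeries.C (((i : ℂ) + 1)⁻¹) * k, K.mul_mem (SA1_C _) hk, ((i : ℂ) + 1)⁻¹ * a, ?_⟩
      calc f (i + 1) = PowerSeries.C (((i : ℂ) + 1)⁻¹) * (((i : PowerSeries ℂ) + 1) * f (i + 1)) := by
            rw [← mul_assoc, h7, one_mul]
        _ = PowerSeries.C (((i : ℂ) + 1)⁻¹) * (k + PowerSeries.C a * X) := by rw [h4]
        _ = _ := by rw [map_mul]; ring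
    have h4 : f 0 ∈ SA1_S K := by
      rw [Finset.sum_range_succ', pow_zero, one_mul] at h
      have h5 : ∑ i ∈ Finset.range n, X ^ (i + 1) * f (i + 1) ∈ SA1_S K := by
        refine sum_mem fun i hi => mul_mem (pow_mem SA1_memX _) ?_
        obtain ⟨k, hk, a, h6⟩ := h3 i (Finset.mem_range.mp hi)
        rw [h6]
        exact add_mem (SA1_memK hk) (mul_mem (SA1_memK (SA1_C a)) SA1_memX)
      have h6 := sub_mem h h5
      rwa [add_sub_cancel_left] at h6
    intro i hi
    rcases Nat.eq_zero_or_pos i with rfl | hi0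
    · exact SA1_i hK h4 (hf 0)
    · obtain ⟨l, rfl⟩ : ∃ l, i = l + 1 := ⟨i - 1, by omega⟩
      exact h3 l (by omega)

/-- An element of `K` which is a polynomial is a constant. -/
theorem sep_poly {K : Subalgebra ℂ (PowerSeries ℂ)} (hK : DK K) {f : PowerSeries ℂ} (hf : f ∈ K)
    (p : Polynomial ℂ) (h : f = (p : PowerSeries ℂ)) (j : ℕ) (hj : 1 ≤ j) : coeff j f = 0 := by
  have h1 := SA1_const hK 1 (fun _ => f) (fun _ => hf) p
    (by rw [Finset.sum_range_one, pow_zero, one_mul]; exact h) 0 (by omega)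
  rw [h1, coeff_C, if_neg (by omega)]

/-- The levels separate. -/
theorem sep {K : Subalgebra ℂ (PowerSeries ℂ)} (hK : DK K) (n : ℕ) (f : ℕ → PowerSeries ℂ)
    (hf : ∀ i, derivative ℂ (f i) ∈ K) (p : Polynomial ℂ)
    (h : ∑ i ∈ Finset.range n, X ^ i * f i = (p : PowerSeries ℂ)) (i : ℕ) (hi : i < n) (j : ℕ)
    (hj : 2 ≤ j) : coeff j (f i) = 0 := by
  have h1 : ∑ i ∈ Finset.range n, X ^ i * f i ∈ SA1_S K := by
    rw [h]
    exact SA1_coe_mem p
  have h2 := SA1_ii hK n f hf h1
  choose! k hkK a hk using h2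
  have h3 : ∑ l ∈ Finset.range n, X ^ l * (if l < n then k l else 0) =
      ((p - ∑ l ∈ Finset.range n, Polynomial.C (a l) * Polynomial.X ^ (l + 1) : Polynomial ℂ) : PowerSeries ℂ) := by
    rw [Polynomial.coe_sub, ← h, eq_sub_iff_add_eq]
    have h4 : ((∑ l ∈ Finset.range n, Polynomial.C (a l) * Polynomial.X ^ (l + 1) : Polynomial ℂ) : PowerSeries ℂ) =
        ∑ l ∈ Finset.range n, PowerSeries.C (a l) * X ^ (l + 1) := by
      rw [← SA1_coe, map_sum]
      refine Finset.sum_congr rfl fun l _ => ?_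
      rw [map_mul, map_pow, Polynomial.aeval_X, Polynomial.aeval_C]
      rfl
    rw [h4, ← Finset.sum_add_distrib]
    refine Finset.sum_congr rfl fun l hl => ?_
    rw [if_pos (Finset.mem_range.mp hl), hk l (Finset.mem_range.mp hl)]
    ring
  have h5 := SA1_const hK n (fun l => if l < n then k l else 0) (fun l => by
    by_cases hl : l < n
    · simp only [if_pos hl]; exact hkK l hl
    · simp only [if_neg hl]; exact K.zero_mem) _ h3 i hi
  simp only [if_pos hi] at h5
  rw [hk i hi, h5, map_add, coeff_C, if_neg (by omega), zero_add, PowerSeries.coeff_C_mul, coeff_X,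
    if_neg (by omega), mul_zero]

end Pool.Agent.Lib.MP_8ce23f_nt.RR
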