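import Pool.Agent.Lib.MP_8ce23f_nt.RR.SDefs

/-!
# Laurent series: poles and the Euler derivation

Leaf SA2 of the table `srl`.  Mathlib only.

`dle_mul`: `HahnSeries.coeff_mul`-type formula (sum over `addAntidiagonal`), or write `f = single (-m) 1 * f'` with
`f'` a power series (`LaurentSeries`, `HahnSeries.ofPowerSeries`).  `dle_inv`: `s = single (-n) c * (1 + ...)`; e.g. if `s⁻¹` had
order `< n` look at the product of the lowest coefficients (`HahnSeries.order_mul`, `HahnSeries.order`).
`exists_theta`: the Euler operator `f ↦ ∑ e f_e ϖ^e` is a derivation (coefficient of a product: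
`e = e₁ + e₂`); support is contained in the support of `f` (partially well-ordered).
`theta_aeval`: chain rule, `MvPolynomial.induction_on`.
-/

namespace Pool.Agent.Lib.MP_8ce23f_nt.RR

variable {r : ℕ}

theorem dle_mono {m n : ℤ} (h : m ≤ n) {f : LF} (hf : dle m f) : dle n f := by
  intro e he
  exact hf e (by omega)

theorem dle_zero (n : ℤ) : dle n 0 := by
  intro e _
  exact HahnSeries.coeff_zero

theorem dle_add {n : ℤ} {f g : LF} (hf : dle n f) (hg : dle n g) : dle n (f + g) := by
  intro e he
  rw [HahnSeries.coeff_add, hf e he, hg e he, add_zero]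

theorem dle_neg {n : ℤ} {f : LF} (hf : dle n f) : dle n (-f) := by
  intro e he
  rw [HahnSeries.coeff_neg, hf e he, neg_zero]

theorem dle_sub {n : ℤ} {f g : LF} (hf : dle n f) (hg : dle n g) : dle n (f - g) := by
  intro e he
  rw [HahnSeries.coeff_sub, hf e he, hg e he, sub_zero]

theorem dle_sum {n : ℤ} {ι : Type*} (s : Finset ι) {f : ι → LF} (h : ∀ i ∈ s, dle n (f i)) :
    dle n (∑ i ∈ s, f i) := by
  exact Finset.sum_induction f (dle n) (fun _ _ => dle_add) (dle_zero n) h

theorem dle_mul {m n : ℤ} {f g : LF} (hf : dle m f) (hg : dle n g) : dle (m + n) (f * g) := by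
  intro e he
  rw [HahnSeries.coeff_mul]
  refine Finset.sum_eq_zero fun ij hij => ?_
  rw [Finset.mem_antidiagonal] at hij
  rcases lt_or_ge ij.1 (-m) with h | h
  · rw [hf _ h, zero_mul]
  · rw [hg _ (by omega), mul_zero]

private theorem SA2_alg (c : ℂ) : algebraMap ℂ LF c = HahnSeries.C c := by
  rw [HahnSeries.algebraMap_apply', PowerSeries.algebraMap_apply, Algebra.algebraMap_self, RingHom.id_apply,
    HahnSeries.ofPowerSeries_C]

private theorem SA2_const (c : ℂ) : dle 0 (algebraMap ℂ LF c) := by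
  intro e he
  rw [SA2_alg, HahnSeries.C_apply]
  exact HahnSeries.coeff_single_of_ne (by omega)

private theorem SA2_one : dle 0 (1 : LF) := by
  have h1 := SA2_const 1
  rwa [map_one] at h1

theorem dle_pow {n : ℤ} {f : LF} (hf : dle n f) (k : ℕ) : dle (k * n) (f ^ k) := by
  induction k with
  | zero =>
    rw [pow_zero, Nat.cast_zero, zero_mul]
    exact SA2_one
  | succ k ih =>
    rw [pow_succ, Nat.cast_succ, add_mul, one_mul]
    exact dle_mul ih hf

theorem dle_const (c : ℂ) : dle 0 (algebraMap ℂ LF c) := by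
  exact SA2_const c

theorem dle_single (n : ℤ) (c : ℂ) : dle n (HahnSeries.single (-n) c) := by
  intro e he
  exact HahnSeries.coeff_single_of_ne he.ne

theorem dle_inv {n : ℤ} {s : LF} (hs : dle n s) (hne : s.coeff (-n) ≠ 0) : dle (-n) s⁻¹ := by
  have hs0 : s ≠ 0 := by
    rintro rfl
    exact hne HahnSeries.coeff_zero
  have h1 : s.order = -n := by
    refine le_antisymm (HahnSeries.order_le_of_coeff_ne_zero hne) ?_
    by_contra h2
    exact hs0 (HahnSeries.coeff_order_eq_zero.mp (hs _ (not_le.mp h2)))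
  have h2 := HahnSeries.order_mul hs0 (inv_ne_zero hs0)
  rw [mul_inv_cancel₀ hs0, HahnSeries.order_one, h1] at h2
  intro e he
  exact HahnSeries.coeff_eq_zero_of_lt_order (by omega)

theorem coeff_const_mul (c : ℂ) (f : LF) (e : ℤ) :
    (algebraMap ℂ LF c * f).coeff e = c * f.coeff e := by
  rw [SA2_alg, HahnSeries.C_mul_eq_smul, HahnSeries.coeff_smul, smul_eq_mul]

private theorem SA2_prod {n : ℤ} {δ : Fin r → LF} (hδ : ∀ i, dle n (δ i)) (m : Fin r →₀ ℕ)
    (t : Finset (Fin r)) : dle (((∑ i ∈ t, m i : ℕ) : ℤ) * n) (∏ i ∈ t, δ i ^ m i) := by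
  classical
  induction t using Finset.induction_on with
  | empty =>
    rw [Finset.sum_empty, Finset.prod_empty, Nat.cast_zero, zero_mul]
    exact SA2_one
  | insert a t ha ih =>
    rw [Finset.sum_insert ha, Finset.prod_insert ha, Nat.cast_add, add_mul]
    exact dle_mul (dle_pow (hδ a) _) ih

/-- A polynomial of degree at most `d` in functions with poles of order at most `n ≥ 0`. -/
theorem dle_aeval {n : ℤ} (hn : 0 ≤ n) {δ : Fin r → LF} (hδ : ∀ i, dle n (δ i)) {p : P r} {d : ℕ}
    (hp : p.totalDegree ≤ d) : dle (n * d) (MvPolynomial.aeval δ p) := by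
  rw [MvPolynomial.aeval_def, MvPolynomial.eval₂_eq]
  refine dle_sum _ fun m hm => ?_
  have h1 : ((∑ i ∈ m.support, m i : ℕ) : ℤ) * n ≤ n * d := by
    rw [mul_comm]
    refine mul_le_mul_of_nonneg_left ?_ hn
    exact_mod_cast (MvPolynomial.le_totalDegree hm).trans hp
  refine dle_mono h1 ?_
  have h2 := dle_mul (dle_const (MvPolynomial.coeff m p)) (SA2_prod hδ m m.support)
  rw [zero_add] at h2
  exact h2

private noncomputable def SA2_th (f : LF) : LF :=
  ⟨fun e => (e : ℂ) * f.coeff e, f.isPWO_support.mono fun e he => by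
    rw [Function.mem_support] at he
    exact right_ne_zero_of_mul he⟩

private theorem SA2_supp (f : LF) : (SA2_th f).support ⊆ f.support := by
  intro e he
  exact right_ne_zero_of_mul (HahnSeries.mem_support _ _ |>.mp he)

private theorem SA2_add (f g : LF) : SA2_th (f + g) = SA2_th f + SA2_th g := by
  refine HahnSeries.ext (funext fun e => ?_)
  show (e : ℂ) * (f + g).coeff e = (SA2_th f + SA2_th g).coeff e
  rw [HahnSeries.coeff_add, HahnSeries.coeff_add, mul_add]
  rfl

private theorem SA2_smul (c : ℂ) (f : LF) : SA2_th (algebraMap ℂ LF c * f) = algebraMap ℂ LF c * SA2_th f := by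
  refine HahnSeries.ext (funext fun e => ?_)
  show (e : ℂ) * (algebraMap ℂ LF c * f).coeff e = (algebraMap ℂ LF c * SA2_th f).coeff e
  rw [coeff_const_mul, coeff_const_mul]
  show (e : ℂ) * (c * f.coeff e) = c * ((e : ℂ) * f.coeff e)
  ring

/-- The Euler derivation. -/
theorem exists_theta : ∃ T : Derivation ℂ LF LF, ∀ (f : LF) (e : ℤ), (T f).coeff e = e * f.coeff e := by
  refine ⟨Derivation.mk' (@LinearMap.mk ℂ ℂ _ _ (RingHom.id ℂ) LF LF _ _ Algebra.toModule
    HahnSeries.instModule ⟨SA2_th, SA2_add⟩ fun c f => ?_) fun f g => ?_, fun f e => rfl⟩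
  · have h1 : SA2_th (algebraMap ℂ LF c * f) = c • SA2_th f := by
      rw [SA2_smul, SA2_alg, HahnSeries.C_mul_eq_smul]
    rw [Algebra.smul_def]
    exact h1
  refine HahnSeries.ext (funext fun e => ?_)
  have h1 : (f * SA2_th g).coeff e = ∑ ij ∈ Finset.antidiagonal f.isPWO_support g.isPWO_support e,
      f.coeff ij.1 * ((ij.2 : ℂ) * g.coeff ij.2) :=
    HahnSeries.coeff_mul_right' g.isPWO_support (SA2_supp g)
  have h2 : (SA2_th f * g).coeff e = ∑ ij ∈ Finset.antidiagonal f.isPWO_support g.isPWO_support e,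
      ((ij.1 : ℂ) * f.coeff ij.1) * g.coeff ij.2 :=
    HahnSeries.coeff_mul_left' f.isPWO_support (SA2_supp f)
  show (e : ℂ) * (f * g).coeff e = (f * SA2_th g + g * SA2_th f).coeff e
  rw [HahnSeries.coeff_add, mul_comm g, h1, h2, HahnSeries.coeff_mul, Finset.mul_sum,
    ← Finset.sum_add_distrib]
  refine Finset.sum_congr rfl fun ij hij => ?_
  rw [Finset.mem_antidiagonal] at hij
  rw [← hij.2.2]
  push_cast
  ring

theorem theta_ker {T : Derivation ℂ LF LF} (hT : ∀ (f : LF) (e : ℤ), (T f).coeff e = e * f.coeff e)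
    {f : LF} (h : T f = 0) : ∃ c : ℂ, f = algebraMap ℂ LF c := by
  refine ⟨f.coeff 0, HahnSeries.ext (funext fun e => ?_)⟩
  rw [SA2_alg, HahnSeries.C_apply]
  rcases eq_or_ne e 0 with rfl | he
  · rw [HahnSeries.coeff_single_same]
  · rw [HahnSeries.coeff_single_of_ne he]
    have h1 := hT f e
    rw [h, HahnSeries.coeff_zero] at h1
    rcases mul_eq_zero.mp h1.symm with h2 | h2
    · exact absurd (Int.cast_eq_zero.mp h2) he
    · exact h2

theorem theta_dle {T : Derivation ℂ LF LF} (hT : ∀ (f : LF) (e : ℤ), (T f).coeff e = e * f.coeff e)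
    {n : ℤ} {f : LF} (h : dle n f) : dle n (T f) := by
  intro e he
  rw [hT, h e he, mul_zero]

theorem theta_aeval (T : Derivation ℂ LF LF) (b : Fin r → LF) (p : P r) :
    T (MvPolynomial.aeval b p) =
      ∑ a, T (b a) * MvPolynomial.aeval b (MvPolynomial.pderiv a p) := by
  induction p using MvPolynomial.induction_on with
  | C c =>
    rw [MvPolynomial.aeval_C, Derivation.map_algebraMap]
    refine (Finset.sum_eq_zero fun a _ => ?_).symm
    rw [MvPolynomial.pderiv_C, map_zero, mul_zero]
  | add p q hp hq =>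
    rw [map_add, map_add, hp, hq, ← Finset.sum_add_distrib]
    refine Finset.sum_congr rfl fun a _ => ?_
    rw [map_add, map_add, mul_add]
  | mul_X p i hp =>
    rw [map_mul, MvPolynomial.aeval_X, Derivation.leibniz, hp, smul_eq_mul, smul_eq_mul]
    have h1 : ∀ a, T (b a) * MvPolynomial.aeval b (MvPolynomial.pderiv a (p * MvPolynomial.X i)) =
        b i * (T (b a) * MvPolynomial.aeval b (MvPolynomial.pderiv a p)) +
          (if a = i then MvPolynomial.aeval b p * T (b a) else 0) := by
      intro a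
      rw [MvPolynomial.pderiv_mul, MvPolynomial.pderiv_X, map_add, map_mul, map_mul,
        MvPolynomial.aeval_X]
      by_cases hai : a = i
      · subst hai
        rw [Pi.single_eq_same, map_one, if_pos rfl]
        ring
      · rw [Pi.single_eq_of_ne (Ne.symm hai), map_zero, if_neg hai]
        ring
    rw [Finset.sum_congr rfl fun a _ => h1 a, Finset.sum_add_distrib, ← Finset.mul_sum,
      Finset.sum_ite_eq' Finset.univ i, if_pos (Finset.mem_univ i), add_comm]

end Pool.Agent.Lib.MP_8ce23f_nt.RR
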