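import Pool.Agent.Lib.MP_8ce23f_nt.RR.SDefs

/-!
# The polynomials `hc`

Leaf SA3 of the table `srl`.  Mathlib only.  All statements by `MvPolynomial.induction_on` (or on monomials) from the
definition of `lin`.  For the degrees: a bidegree argument: for `p` homogeneous of degree `d`, the coefficient of `u^i` in
`lin β p` is homogeneous of degree `d - i` (zero if `i > d`); e.g. first for monomials `∏ (X_i + β_i u)^(a_i)`, by induction.
-/

namespace Pool.Agent.Lib.MP_8ce23f_nt.RR

variable {r : ℕ}

private theorem SA3_X (β : Fin r → ℂ) (j : Fin r) : lin β (MvPolynomial.X j) =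
    Polynomial.C (MvPolynomial.X j) + Polynomial.C (MvPolynomial.C (β j)) * Polynomial.X :=
  MvPolynomial.aeval_X _ j

private theorem SA3_C (β : Fin r → ℂ) (c : ℂ) : lin β (MvPolynomial.C c) = Polynomial.C (MvPolynomial.C c) := by
  have h1 : lin β (MvPolynomial.C c) = algebraMap ℂ (Polynomial (P r)) c :=
    (lin β).commutes c
  rw [h1]
  rfl

/-- The bidegree condition. -/
private def SA3_B (d : ℕ) (F : Polynomial (P r)) : Prop :=
  ∀ i, (F.coeff i).totalDegree ≤ d - i ∧ (d < i → F.coeff i = 0)

private theorem SA3_B.mono {d e : ℕ} {F : Polynomial (P r)} (h : SA3_B d F) (hde : d ≤ e) : SA3_B e F := by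
  intro i
  refine ⟨(h i).1.trans (by omega), fun hi => (h i).2 (by omega)⟩

private theorem SA3_B.add {d : ℕ} {F G : Polynomial (P r)} (h : SA3_B d F) (h' : SA3_B d G) : SA3_B d (F + G) := by
  intro i
  rw [Polynomial.coeff_add]
  refine ⟨(MvPolynomial.totalDegree_add _ _).trans (max_le (h i).1 (h' i).1), fun hi => ?_⟩
  rw [(h i).2 hi, (h' i).2 hi, add_zero]

private theorem SA3_B.mul {d e : ℕ} {F G : Polynomial (P r)} (h : SA3_B d F) (h' : SA3_B e G) :
    SA3_B (d + e) (F * G) := by
  intro n
  rw [Polynomial.coeff_mul]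
  constructor
  · refine (MvPolynomial.totalDegree_finsetSum _ _).trans (Finset.sup_le fun x hx => ?_)
    rw [Finset.HasAntidiagonal.mem_antidiagonal] at hx
    by_cases h1 : d < x.1
    · rw [(h x.1).2 h1, zero_mul, MvPolynomial.totalDegree_zero]
      exact Nat.zero_le _
    by_cases h2 : e < x.2
    · rw [(h' x.2).2 h2, mul_zero, MvPolynomial.totalDegree_zero]
      exact Nat.zero_le _
    have h3 := (MvPolynomial.totalDegree_mul (F.coeff x.1) (G.coeff x.2))
    have h4 := (h x.1).1
    have h5 := (h' x.2).1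
    omega
  · intro hn
    refine Finset.sum_eq_zero fun x hx => ?_
    rw [Finset.HasAntidiagonal.mem_antidiagonal] at hx
    by_cases h1 : d < x.1
    · rw [(h x.1).2 h1, zero_mul]
    · rw [(h' x.2).2 (by omega), mul_zero]

private theorem SA3_B.C (c : ℂ) : SA3_B 0 (Polynomial.C (MvPolynomial.C c) : Polynomial (P r)) := by
  intro i
  rw [Polynomial.coeff_C]
  split_ifs with h
  · rw [MvPolynomial.totalDegree_C]
    exact ⟨Nat.zero_le _, fun h1 => by omega⟩
  · rw [MvPolynomial.totalDegree_zero]
    exact ⟨Nat.zero_le _, fun _ => rfl⟩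

private theorem SA3_B.X (β : Fin r → ℂ) (j : Fin r) : SA3_B 1 (lin β (MvPolynomial.X j)) := by
  intro i
  rw [SA3_X, Polynomial.coeff_add, Polynomial.coeff_C_mul, Polynomial.coeff_C, Polynomial.coeff_X]
  match i with
  | 0 =>
    rw [if_pos rfl, if_neg (by norm_num), mul_zero, add_zero, MvPolynomial.totalDegree_X]
    exact ⟨le_rfl, fun h => by omega⟩
  | 1 =>
    rw [if_neg (by norm_num), if_pos rfl, mul_one, zero_add, MvPolynomial.totalDegree_C]
    exact ⟨le_rfl, fun h => by omega⟩
  | i + 2 =>
    rw [if_neg (by omega), if_neg (by omega), mul_zero, add_zero, MvPolynomial.totalDegree_zero]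
    exact ⟨Nat.zero_le _, fun _ => rfl⟩

private theorem SA3_B.pow {d : ℕ} {F : Polynomial (P r)} (h : SA3_B d F) (n : ℕ) : SA3_B (n * d) (F ^ n) := by
  induction n with
  | zero =>
    rw [pow_zero, zero_mul]
    have h1 := SA3_B.C (r := r) 1
    rwa [map_one, map_one] at h1
  | succ n ih =>
    rw [pow_succ, Nat.succ_mul]
    exact ih.mul h

private theorem SA3_B.prod {ι : Type*} (S : Finset ι) (F : ι → Polynomial (P r)) (d : ι → ℕ)
    (h : ∀ i ∈ S, SA3_B (d i) (F i)) : SA3_B (∑ i ∈ S, d i) (∏ i ∈ S, F i) := by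
  classical
  induction S using Finset.induction_on with
  | empty =>
    rw [Finset.prod_empty, Finset.sum_empty]
    have h1 := SA3_B.C (r := r) 1
    rwa [map_one, map_one] at h1
  | insert a S ha ih =>
    rw [Finset.prod_insert ha, Finset.sum_insert ha]
    exact (h a (Finset.mem_insert_self a S)).mul (ih fun i hi => h i (Finset.mem_insert_of_mem hi))

private theorem SA3_B.sum {ι : Type*} (S : Finset ι) (F : ι → Polynomial (P r)) (d : ℕ)
    (h : ∀ i ∈ S, SA3_B d (F i)) : SA3_B d (∑ i ∈ S, F i) := by
  classical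
  induction S using Finset.induction_on with
  | empty =>
    rw [Finset.sum_empty]
    intro i
    rw [Polynomial.coeff_zero, MvPolynomial.totalDegree_zero]
    exact ⟨Nat.zero_le _, fun _ => rfl⟩
  | insert a S ha ih =>
    rw [Finset.sum_insert ha]
    exact (h a (Finset.mem_insert_self a S)).add (ih fun i hi => h i (Finset.mem_insert_of_mem hi))

private theorem SA3_lin (β : Fin r → ℂ) {p : P r} {d : ℕ} (hp : p.totalDegree ≤ d) : SA3_B d (lin β p) := by
  have h1 : lin β p = ∑ m ∈ p.support, Polynomial.C (MvPolynomial.C (MvPolynomial.coeff m p)) *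
      ∏ i ∈ m.support, lin β (MvPolynomial.X i) ^ m i := by
    conv_lhs => rw [MvPolynomial.as_sum p, map_sum]
    refine Finset.sum_congr rfl fun m _ => ?_
    rw [MvPolynomial.monomial_eq, map_mul, SA3_C, Finsupp.prod, map_prod]
    refine congrArg _ (Finset.prod_congr rfl fun i _ => map_pow _ _ _)
  rw [h1]
  refine SA3_B.sum _ _ _ fun m hm => ?_
  have h2 := (SA3_B.C (r := r) (MvPolynomial.coeff m p)).mul
    (SA3_B.prod m.support (fun i => lin β (MvPolynomial.X i) ^ m i) (fun i => m i * 1)
      fun i _ => (SA3_B.X β i).pow (m i))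
  refine h2.mono ?_
  rw [zero_add]
  have h3 := MvPolynomial.le_totalDegree hm
  refine le_trans ?_ (h3.trans hp)
  rw [Finsupp.sum]
  exact Finset.sum_le_sum fun i _ => by rw [mul_one]

private theorem SA3_coeff_mul_X (β : Fin r → ℂ) (p : P r) (j : Fin r) (i : ℕ) :
    (lin β (p * MvPolynomial.X j)).coeff (i + 1) =
      (lin β p).coeff (i + 1) * MvPolynomial.X j + (lin β p).coeff i * MvPolynomial.C (β j) := by
  rw [map_mul, SA3_X, mul_add, Polynomial.coeff_add, Polynomial.coeff_mul_C, ← mul_assoc, Polynomial.coeff_mul_X,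
    Polynomial.coeff_mul_C]

private theorem SA3_coeff_mul_X0 (β : Fin r → ℂ) (p : P r) (j : Fin r) :
    (lin β (p * MvPolynomial.X j)).coeff 0 = (lin β p).coeff 0 * MvPolynomial.X j := by
  rw [map_mul, SA3_X, mul_add, Polynomial.coeff_add, Polynomial.coeff_mul_C, ← mul_assoc, Polynomial.coeff_mul_X_zero,
    add_zero]

private theorem SA3_der (β : Fin r → ℂ) (p : P r) : Polynomial.derivative (lin β p) =
    ∑ a, Polynomial.C (MvPolynomial.C (β a)) * lin β (MvPolynomial.pderiv a p) := by
  classical
  induction p using MvPolynomial.induction_on with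
  | C c =>
    rw [SA3_C, Polynomial.derivative_C]
    refine (Finset.sum_eq_zero fun a _ => ?_).symm
    rw [MvPolynomial.pderiv_C, map_zero, mul_zero]
  | add p q hp hq =>
    rw [map_add, map_add, hp, hq, ← Finset.sum_add_distrib]
    refine Finset.sum_congr rfl fun a _ => ?_
    rw [map_add, map_add, mul_add]
  | mul_X p j hp =>
    have h1 : ∀ a, lin β (MvPolynomial.pderiv a (p * MvPolynomial.X j)) =
        lin β (MvPolynomial.pderiv a p) * lin β (MvPolynomial.X j) + lin β p * (if a = j then 1 else 0) := by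
      intro a
      rw [MvPolynomial.pderiv_mul, map_add, map_mul, map_mul, MvPolynomial.pderiv_X]
      congr 1
      by_cases h : a = j
      · subst h
        rw [Pi.single_eq_same, map_one, if_pos rfl]
      · rw [Pi.single_eq_of_ne (Ne.symm h), map_zero, if_neg h]
    have h2 : Polynomial.derivative (lin β (MvPolynomial.X j)) = Polynomial.C (MvPolynomial.C (β j)) := by
      rw [SA3_X, Polynomial.derivative_add, Polynomial.derivative_C, zero_add, Polynomial.derivative_C_mul,
        Polynomial.derivative_X, mul_one]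
    rw [map_mul, Polynomial.derivative_mul, hp, h2]
    have h3 : ∀ a, Polynomial.C (MvPolynomial.C (β a)) * (lin β (MvPolynomial.pderiv a p) * lin β (MvPolynomial.X j) +
        lin β p * (if a = j then 1 else 0)) =
        Polynomial.C (MvPolynomial.C (β a)) * lin β (MvPolynomial.pderiv a p) * lin β (MvPolynomial.X j) +
        (if a = j then lin β p * Polynomial.C (MvPolynomial.C (β a)) else 0) := by
      intro a
      split_ifs
      · ring
      · ring
    rw [Finset.sum_congr rfl fun a _ => (congrArg _ (h1 a)).trans (h3 a), Finset.sum_add_distrib,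
      Finset.sum_ite_eq' Finset.univ j, if_pos (Finset.mem_univ j), Finset.sum_mul]

/-- Degrees. -/
theorem lin_coeff_deg (β : Fin r → ℂ) {p : P r} {d : ℕ} (hp : p.totalDegree ≤ d) (i : ℕ) :
    ((lin β p).coeff i).totalDegree ≤ d - i := by
  exact (SA3_lin β hp i).1

theorem lin_coeff_zero (β : Fin r → ℂ) {p : P r} {d : ℕ} (hp : p.totalDegree ≤ d) {i : ℕ}
    (hi : d < i) : (lin β p).coeff i = 0 := by
  exact (SA3_lin β hp i).2 hi

/-- Evaluation at `δ + w β`. -/
theorem aeval_lin {S : Type*} [CommRing S] [Algebra ℂ S] (β : Fin r → ℂ) (δ : Fin r → S) (w : S)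
    (p : P r) {n : ℕ} (hn : p.totalDegree < n) :
    MvPolynomial.aeval (fun i => δ i + w * algebraMap ℂ S (β i)) p =
      ∑ i ∈ Finset.range n, MvPolynomial.aeval δ ((lin β p).coeff i) * w ^ i := by
  have h1 : ∀ p : P r, MvPolynomial.aeval (fun i => δ i + w * algebraMap ℂ S (β i)) p =
      Polynomial.eval₂ ((MvPolynomial.aeval δ : P r →ₐ[ℂ] S) : P r →+* S) w (lin β p) := by
    intro p
    induction p using MvPolynomial.induction_on with
    | C c =>
      rw [SA3_C, Polynomial.eval₂_C]
      show MvPolynomial.aeval _ (MvPolynomial.C c) = MvPolynomial.aeval δ (MvPolynomial.C c)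
      rw [MvPolynomial.aeval_C, MvPolynomial.aeval_C]
    | add p q hp hq => rw [map_add, map_add, hp, hq, Polynomial.eval₂_add]
    | mul_X p j hp =>
      have h2 : Polynomial.eval₂ ((MvPolynomial.aeval δ : P r →ₐ[ℂ] S) : P r →+* S) w (lin β (MvPolynomial.X j)) =
          δ j + w * algebraMap ℂ S (β j) := by
        rw [SA3_X, Polynomial.eval₂_add, Polynomial.eval₂_mul, Polynomial.eval₂_C, Polynomial.eval₂_C,
          Polynomial.eval₂_X]
        show MvPolynomial.aeval δ (MvPolynomial.X j) + MvPolynomial.aeval δ (MvPolynomial.C (β j)) * w = _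
        rw [MvPolynomial.aeval_X, MvPolynomial.aeval_C, mul_comm w]
      rw [map_mul, map_mul, hp, Polynomial.eval₂_mul, h2, MvPolynomial.aeval_X]
  have hnd : (lin β p).natDegree < n := by
    refine lt_of_le_of_lt (Polynomial.natDegree_le_iff_coeff_eq_zero.2 fun N hN => ?_) hn
    exact lin_coeff_zero β le_rfl hN
  rw [h1 p, Polynomial.eval₂_eq_sum_range' _ hnd]
  rfl

/-- Partial derivatives. -/
theorem lin_pderiv (β : Fin r → ℂ) (a : Fin r) (p : P r) (i : ℕ) :
    (lin β (MvPolynomial.pderiv a p)).coeff i = MvPolynomial.pderiv a ((lin β p).coeff i) := by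
  classical
  induction p using MvPolynomial.induction_on generalizing i with
  | C c =>
    rw [MvPolynomial.pderiv_C, map_zero, Polynomial.coeff_zero, SA3_C, Polynomial.coeff_C]
    split_ifs
    · rw [MvPolynomial.pderiv_C]
    · rw [map_zero]
  | add p q hp hq =>
    rw [map_add, map_add, Polynomial.coeff_add, hp, hq, map_add, Polynomial.coeff_add, map_add]
  | mul_X p j hp =>
    have h1 : lin β (MvPolynomial.pderiv a (p * MvPolynomial.X j)) =
        lin β (MvPolynomial.pderiv a p * MvPolynomial.X j) + (if a = j then lin β p else 0) := by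
      rw [MvPolynomial.pderiv_mul, map_add, MvPolynomial.pderiv_X]
      congr 1
      by_cases h : a = j
      · subst h
        rw [Pi.single_eq_same, mul_one, if_pos rfl]
      · rw [Pi.single_eq_of_ne (Ne.symm h), mul_zero, map_zero, if_neg h]
    have h2 : ∀ q : P r, q * MvPolynomial.pderiv a (MvPolynomial.X j) = if a = j then q else 0 := by
      intro q
      rw [MvPolynomial.pderiv_X]
      by_cases h : a = j
      · subst h
        rw [Pi.single_eq_same, mul_one, if_pos rfl]
      · rw [Pi.single_eq_of_ne (Ne.symm h), mul_zero, if_neg h]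
    have h3 : ∀ i, (if a = j then lin β p else 0).coeff i = if a = j then (lin β p).coeff i else 0 := by
      intro i
      split_ifs
      · rfl
      · exact Polynomial.coeff_zero i
    rw [h1, Polynomial.coeff_add, h3]
    cases i with
    | zero => rw [SA3_coeff_mul_X0, SA3_coeff_mul_X0, hp, MvPolynomial.pderiv_mul, h2]
    | succ i =>
      rw [SA3_coeff_mul_X, SA3_coeff_mul_X, hp, hp, map_add, MvPolynomial.pderiv_mul, MvPolynomial.pderiv_mul, h2,
        MvPolynomial.pderiv_C, mul_zero, add_zero]
      ring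

/-- The derivative in the direction `β`. -/
theorem lin_succ (β : Fin r → ℂ) (p : P r) (i : ℕ) :
    ((i : P r) + 1) * (lin β p).coeff (i + 1) =
      ∑ a, MvPolynomial.C (β a) * MvPolynomial.pderiv a ((lin β p).coeff i) := by
  have h1 := congrArg (fun F : Polynomial (P r) => F.coeff i) (SA3_der β p)
  beta_reduce at h1
  rw [Polynomial.coeff_derivative, Polynomial.finsetSum_coeff] at h1
  rw [mul_comm, h1]
  refine Finset.sum_congr rfl fun a _ => ?_
  rw [Polynomial.coeff_C_mul, lin_pderiv]

/-- A polynomial with a bounded degree as a finite sum of monomials. -/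
theorem aeval_eq_sum {S : Type*} [CommRing S] [Algebra ℂ S] (δ : Fin r → S) (d : ℕ) :
    ∃ M : Finset (Fin r →₀ ℕ), ∀ p : P r, p.totalDegree ≤ d →
      MvPolynomial.aeval δ p = ∑ m ∈ M, (m.prod fun i a => δ i ^ a) *
        algebraMap ℂ S (MvPolynomial.coeff m p) := by
  classical
  refine ⟨(Finset.range (d + 1)).biUnion fun k => Finset.finsuppAntidiag Finset.univ k, fun p hp => ?_⟩
  rw [MvPolynomial.aeval_def, MvPolynomial.eval₂_eq]
  rw [Finset.sum_congr rfl fun m _ => mul_comm _ _]
  refine Finset.sum_subset (fun m hm => ?_) (fun m _ hm => ?_)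
  · rw [Finset.mem_biUnion]
    refine ⟨∑ i, m i, ?_, ?_⟩
    · rw [Finset.mem_range, Nat.lt_succ_iff]
      refine le_trans (le_of_eq ?_) ((MvPolynomial.le_totalDegree hm).trans hp)
      rw [Finsupp.sum_fintype _ _ fun _ => rfl]
    · rw [Finset.mem_finsuppAntidiag]
      exact ⟨rfl, Finset.subset_univ _⟩
  · rw [MvPolynomial.notMem_support_iff.1 hm, map_zero, mul_zero]

end Pool.Agent.Lib.MP_8ce23f_nt.RR
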