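import Pool.Agent.Lib.MP_8ce23f_nt.RR.SA1
import Pool.Agent.Lib.MP_8ce23f_nt.RR.SA2
import Pool.Agent.Lib.MP_8ce23f_nt.RR.SA3

/-!
# The first step for an arc

Leaf SA4 of the table `srl`.

Put `H k i = aeval δ (hc D β k i)`, `E k = aeval (bpt s δ β) (D k) = ∑_{i ≤ k+1} H k i s^i` (`aeval_lin`).
The degree of `hc D β k i` is at most `k + 1 - i`, so `dle ((N-1)(k+1-i)) (H k i)` (`dle_aeval`) and `H k i = 0` for
`i > k + 1`.
IDENTITY: for each `k`: `∑_{l = -1}^{k} s^{-l} H k (k - l) = s^{-k} E k`.  Fix an exponent `e` and take the coefficient at `e`.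
For `l ≥ 0` let `A_l = PowerSeries.mk fun i => (s^{-l} * H (l+i) i).coeff e`, and
`A_{-1} = mk fun i => if i = 0 then 0 else (s * H (i-1) i).coeff e = C (s.coeff e) * psiTop D β` (as `hc D β (i-1) i` is a constant;
for `i = 1` it is `0` because `D 0 = 0`).  As `dle (N - 1 - l) (s^{-l} * H (l+i) i)` (use `dle_inv`), `A_l = 0` unless
`l ≤ e + N - 1`: finitely many `l`.  So the identity says: `∑_{l ≥ -1} x^(l+1) A_l` (a finite sum) is the series
with coefficient `(s^{-k} E k).coeff e` at `x^(k+1)`, which vanishes for large `k` (`dle (Ω - N k)`): a polynomial.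
Each `A_l` (`l ≥ 0`) is a finite linear combination `∑_m (s^{-l} δ^m).coeff e • psi D β l m` (`aeval_eq_sum`), so its derivative is in
`K`.
STEP 1: `e = -N`: only `l = -1`, so `C (s.coeff (-N)) * psiTop D β` is a polynomial, hence `psiTop D β` and its second derivative,
which is in `K`, so it is a constant (`sep_poly`); so `psiTop D β` has no coefficient `i ≥ 3`, i.e. `H (i-1) i = 0` for `i ≥ 3`.
STEP 2: any `e`: now `A_{-1}` is a polynomial, move it to the right.  `sep`, applied to the family `f 0 = 0`, `f (l+1) = A_l`: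
the coefficients `i ≥ 2` of each `A_l` vanish; for all `e`; so `s^{-l} H (l+i) i = 0`, and `H (l+i) i = 0` for `i ≥ 2`, `l ≥ 0`.
-/

namespace Pool.Agent.Lib.MP_8ce23f_nt.RR

variable {r : ℕ}

private lemma SA4_isPoly (f : PowerSeries ℂ) (n : ℕ) (h : ∀ k, n ≤ k → PowerSeries.coeff k f = 0) :
    ∃ p : Polynomial ℂ, f = (p : PowerSeries ℂ) := by
  refine ⟨PowerSeries.trunc n f, ?_⟩
  ext k
  rw [Polynomial.coeff_coe, PowerSeries.coeff_trunc]
  split_ifs with hk
  · rfl
  · exact h k (by omega)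

private lemma SA4_coeff_sum (L : ℕ) (A : ℕ → PowerSeries ℂ) (hA : ∀ l, L ≤ l → A l = 0) (k : ℕ) :
    PowerSeries.coeff (k + 1) (∑ l ∈ Finset.range L, PowerSeries.X ^ (l + 1) * A l) =
      ∑ l ∈ Finset.range (k + 1), PowerSeries.coeff (k - l) (A l) := by
  rw [map_sum]
  have h1 : ∀ l, PowerSeries.coeff (k + 1) (PowerSeries.X ^ (l + 1) * A l) =
      if l ≤ k then PowerSeries.coeff (k - l) (A l) else 0 := by
    intro l
    rw [PowerSeries.coeff_X_pow_mul']
    by_cases h : l ≤ k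
    · rw [if_pos (by omega), if_pos h, show k + 1 - (l + 1) = k - l by omega]
    · rw [if_neg (by omega), if_neg h]
  rw [Finset.sum_congr rfl fun l _ => h1 l]
  have h2 : ∑ l ∈ Finset.range L, (if l ≤ k then PowerSeries.coeff (k - l) (A l) else 0) =
      ∑ l ∈ Finset.range (L + (k + 1)), (if l ≤ k then PowerSeries.coeff (k - l) (A l) else 0) := by
    apply Finset.sum_subset
    · intro l hl
      rw [Finset.mem_range] at *
      omega
    · intro l _ hl
      rw [Finset.mem_range] at hl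
      rw [hA l (by omega), map_zero, ite_self]
  have h3 : ∑ l ∈ Finset.range (k + 1), (if l ≤ k then PowerSeries.coeff (k - l) (A l) else 0) =
      ∑ l ∈ Finset.range (L + (k + 1)), (if l ≤ k then PowerSeries.coeff (k - l) (A l) else 0) := by
    apply Finset.sum_subset
    · intro l hl
      rw [Finset.mem_range] at *
      omega
    · intro l _ hl
      rw [Finset.mem_range] at hl
      rw [if_neg (by omega)]
  rw [h2, ← h3]
  refine Finset.sum_congr rfl fun l hl => ?_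
  rw [Finset.mem_range] at hl
  rw [if_pos (by omega)]

/-- The series of level `l`. -/
private noncomputable def SA4_A (D : ℕ → P r) (β : Fin r → ℂ) (s : LF) (δ : Fin r → LF) (e : ℤ) (l : ℕ) :
    PowerSeries ℂ :=
  PowerSeries.mk fun i => (s⁻¹ ^ l * MvPolynomial.aeval δ (hc D β (l + i) i)).coeff e

private lemma SA4_deg {D : ℕ → P r} (hdeg : ∀ k, 1 ≤ k → (D k).totalDegree ≤ k + 1) (h0 : D 0 = 0)
    (k : ℕ) : (D k).totalDegree ≤ k + 1 := by
  rcases Nat.eq_zero_or_pos k with rfl | hk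
  · rw [h0, MvPolynomial.totalDegree_zero]
    omega
  · exact hdeg k hk

private lemma SA4_hc_deg {D : ℕ → P r} (hdeg : ∀ k, 1 ≤ k → (D k).totalDegree ≤ k + 1) (h0 : D 0 = 0)
    (β : Fin r → ℂ) (l i : ℕ) : (hc D β (l + i) i).totalDegree ≤ l + 1 := by
  have h1 : (hc D β (l + i) i).totalDegree ≤ (l + i + 1) - i :=
    lin_coeff_deg β (SA4_deg hdeg h0 (l + i)) i
  omega

private lemma SA4_hc_zero {D : ℕ → P r} (hdeg : ∀ k, 1 ≤ k → (D k).totalDegree ≤ k + 1) (h0 : D 0 = 0)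
    (β : Fin r → ℂ) (k i : ℕ) (hi : k + 1 < i) : hc D β k i = 0 :=
  lin_coeff_zero β (SA4_deg hdeg h0 k) hi

private lemma SA4_hc_top {D : ℕ → P r} (hdeg : ∀ k, 1 ≤ k → (D k).totalDegree ≤ k + 1) (h0 : D 0 = 0)
    (β : Fin r → ℂ) (δ : Fin r → LF) (k : ℕ) :
    MvPolynomial.aeval δ (hc D β k (k + 1)) =
      algebraMap ℂ LF (MvPolynomial.coeff 0 (hc D β k (k + 1))) := by
  have h1 : (hc D β k (k + 1)).totalDegree ≤ (k + 1) - (k + 1) :=
    lin_coeff_deg β (SA4_deg hdeg h0 k) (k + 1)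
  have h2 : (hc D β k (k + 1)).totalDegree = 0 := by omega
  have h3 := MvPolynomial.totalDegree_eq_zero_iff_eq_C.mp h2
  rw [h3, MvPolynomial.aeval_C, MvPolynomial.coeff_C, if_pos rfl]

private lemma SA4_A_zero {D : ℕ → P r} {β : Fin r → ℂ}
    (hdeg : ∀ k, 1 ≤ k → (D k).totalDegree ≤ k + 1) (h0 : D 0 = 0) {N : ℤ} {s : LF}
    {δ : Fin r → LF} (ha : Arc N s δ) (e : ℤ) (l : ℕ) (hl : e + N ≤ l) :
    SA4_A D β s δ e l = 0 := by
  ext i
  unfold SA4_A
  rw [PowerSeries.coeff_mk, map_zero]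
  have h1 : dle ((l : ℤ) * (-N)) (s⁻¹ ^ l) := dle_pow (dle_inv ha.le ha.ne) l
  have h2 : dle ((N - 1) * ((l + 1 : ℕ) : ℤ)) (MvPolynomial.aeval δ (hc D β (l + i) i)) :=
    dle_aeval (by linarith [ha.one_le]) ha.del (SA4_hc_deg hdeg h0 β l i)
  have h3 := dle_mul h1 h2
  have h4 : (l : ℤ) * (-N) + (N - 1) * ((l + 1 : ℕ) : ℤ) = N - 1 - l := by
    push_cast
    ring
  rw [h4] at h3
  exact h3 e (by linarith)

private lemma SA4_A_der {D : ℕ → P r} {β : Fin r → ℂ} {K : Subalgebra ℂ (PowerSeries ℂ)}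
    (h : Lev D β K) (hdeg : ∀ k, 1 ≤ k → (D k).totalDegree ≤ k + 1) (h0 : D 0 = 0) (s : LF)
    (δ : Fin r → LF) (e : ℤ) (l : ℕ) :
    PowerSeries.derivative ℂ (SA4_A D β s δ e l) ∈ K := by
  classical
  obtain ⟨M, hM⟩ := aeval_eq_sum (r := r) δ (l + 1)
  have h1 : SA4_A D β s δ e l =
      ∑ m ∈ M, ((s⁻¹ ^ l * (m.prod fun i a => δ i ^ a)).coeff e) • psi D β l m := by
    ext i
    unfold SA4_A
    rw [PowerSeries.coeff_mk, hM _ (SA4_hc_deg hdeg h0 β l i), Finset.mul_sum,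
      HahnSeries.coeff_sum, map_sum]
    refine Finset.sum_congr rfl fun m _ => ?_
    rw [PowerSeries.coeff_smul]
    unfold psi
    rw [PowerSeries.coeff_mk]
    rw [show s⁻¹ ^ l * ((m.prod fun i a => δ i ^ a) *
        algebraMap ℂ LF (MvPolynomial.coeff m (hc D β (l + i) i))) =
        algebraMap ℂ LF (MvPolynomial.coeff m (hc D β (l + i) i)) *
          (s⁻¹ ^ l * (m.prod fun i a => δ i ^ a)) by ring]
    rw [coeff_const_mul, smul_eq_mul, mul_comm]
  rw [h1, map_sum]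
  refine K.sum_mem fun m _ => ?_
  rw [Derivation.map_smul]
  exact K.smul_mem (h.dpsi l m) _

private lemma SA4_identity {D : ℕ → P r} {β : Fin r → ℂ}
    (hdeg : ∀ k, 1 ≤ k → (D k).totalDegree ≤ k + 1) (h0 : D 0 = 0) {s : LF} (hs : s ≠ 0)
    (δ : Fin r → LF) (e : ℤ) (k : ℕ) :
    PowerSeries.coeff (k + 1) (PowerSeries.C (s.coeff e) * psiTop D β) +
      ∑ l ∈ Finset.range (k + 1), PowerSeries.coeff (k - l) (SA4_A D β s δ e l) =
    (s⁻¹ ^ k * MvPolynomial.aeval (bpt s δ β) (D k)).coeff e := by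
  have hlt : (D k).totalDegree < k + 2 := by
    have := SA4_deg hdeg h0 k
    omega
  have h1 : MvPolynomial.aeval (bpt s δ β) (D k) =
      ∑ i ∈ Finset.range (k + 2), MvPolynomial.aeval δ (hc D β k i) * s ^ i :=
    aeval_lin β δ s (D k) hlt
  have hts : s⁻¹ * s = 1 := inv_mul_cancel₀ hs
  have h2 : ∀ i, i ≤ k → s⁻¹ ^ k * (MvPolynomial.aeval δ (hc D β k i) * s ^ i) =
      s⁻¹ ^ (k - i) * MvPolynomial.aeval δ (hc D β k i) := by
    intro i hi
    have h3 : s⁻¹ ^ k = s⁻¹ ^ (k - i) * s⁻¹ ^ i := by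
      rw [← pow_add]
      congr 1
      omega
    calc s⁻¹ ^ k * (MvPolynomial.aeval δ (hc D β k i) * s ^ i)
        = s⁻¹ ^ (k - i) * MvPolynomial.aeval δ (hc D β k i) * (s⁻¹ * s) ^ i := by
          rw [h3, mul_pow]
          ring
      _ = _ := by rw [hts, one_pow, mul_one]
  have h4 : s⁻¹ ^ k * (MvPolynomial.aeval δ (hc D β k (k + 1)) * s ^ (k + 1)) =
      algebraMap ℂ LF (MvPolynomial.coeff 0 (hc D β k (k + 1))) * s := by
    rw [SA4_hc_top hdeg h0]
    calc s⁻¹ ^ k * (algebraMap ℂ LF (MvPolynomial.coeff 0 (hc D β k (k + 1))) * s ^ (k + 1))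
        = algebraMap ℂ LF (MvPolynomial.coeff 0 (hc D β k (k + 1))) * s * (s⁻¹ * s) ^ k := by
          rw [mul_pow, pow_succ]
          ring
      _ = _ := by rw [hts, one_pow, mul_one]
  have hB : PowerSeries.coeff (k + 1) (PowerSeries.C (s.coeff e) * psiTop D β) =
      (s⁻¹ ^ k * (MvPolynomial.aeval δ (hc D β k (k + 1)) * s ^ (k + 1))).coeff e := by
    rw [h4, coeff_const_mul, PowerSeries.coeff_C_mul, mul_comm]
    unfold psiTop
    rw [PowerSeries.coeff_mk, if_neg (by omega)]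
    rfl
  have hS : ∑ l ∈ Finset.range (k + 1), PowerSeries.coeff (k - l) (SA4_A D β s δ e l) =
      ∑ i ∈ Finset.range (k + 1), (s⁻¹ ^ k * (MvPolynomial.aeval δ (hc D β k i) * s ^ i)).coeff e := by
    rw [← Finset.sum_range_reflect (fun i => (s⁻¹ ^ k * (MvPolynomial.aeval δ (hc D β k i) * s ^ i)).coeff e) (k + 1)]
    refine Finset.sum_congr rfl fun l hl => ?_
    rw [Finset.mem_range] at hl
    have h5 : k + 1 - 1 - l = k - l := by omega
    rw [h5, h2 (k - l) (by omega)]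
    unfold SA4_A
    rw [PowerSeries.coeff_mk]
    have h6 : k - (k - l) = l := by omega
    have h7 : l + (k - l) = k := by omega
    rw [h6, h7]
  rw [hB, hS, h1, Finset.mul_sum, HahnSeries.coeff_sum, Finset.sum_range_succ _ (k + 1), add_comm]

private lemma SA4_poly {D : ℕ → P r} {β : Fin r → ℂ}
    (hdeg : ∀ k, 1 ≤ k → (D k).totalDegree ≤ k + 1) (h0 : D 0 = 0) {N : ℤ} {s : LF} (hs : s ≠ 0)
    {δ : Fin r → LF} (ha : Arc N s δ) {Ω : ℤ}
    (hE : ∀ k, 2 ≤ k → dle Ω (MvPolynomial.aeval (bpt s δ β) (D k))) (e : ℤ) :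
    ∃ p : Polynomial ℂ, PowerSeries.C (s.coeff e) * psiTop D β +
      ∑ l ∈ Finset.range (e + N).toNat, PowerSeries.X ^ (l + 1) * SA4_A D β s δ e l =
        (p : PowerSeries ℂ) := by
  apply SA4_isPoly _ ((e + Ω).toNat + 4)
  intro k hk
  obtain ⟨k, rfl⟩ : ∃ k', k = k' + 1 := ⟨k - 1, by omega⟩
  rw [map_add, SA4_coeff_sum _ _ (fun l hl => SA4_A_zero hdeg h0 ha e l (by omega)),
    SA4_identity hdeg h0 hs]
  have h1 : dle ((k : ℤ) * (-N)) (s⁻¹ ^ k) := dle_pow (dle_inv ha.le ha.ne) k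
  have h2 := dle_mul h1 (hE k (by omega))
  apply h2 e
  have h3 : (k : ℤ) ≤ (k : ℤ) * N := le_mul_of_one_le_right (by positivity) ha.one_le
  have h4 : e + Ω ≤ ((e + Ω).toNat : ℤ) := Int.self_le_toNat _
  have h5 : (((e + Ω).toNat : ℕ) : ℤ) + 3 ≤ (k : ℤ) := by
    have : (e + Ω).toNat + 3 ≤ k := by omega
    exact_mod_cast this
  linarith

theorem arc_affine {D : ℕ → P r} {β : Fin r → ℂ} {K : Subalgebra ℂ (PowerSeries ℂ)}
    (h : Lev D β K) (hdeg : ∀ k, 1 ≤ k → (D k).totalDegree ≤ k + 1) (h0 : D 0 = 0) {N : ℤ} {s : LF}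
    {δ : Fin r → LF} (ha : Arc N s δ) {Ω : ℤ}
    (hE : ∀ k, 2 ≤ k → dle Ω (MvPolynomial.aeval (bpt s δ β) (D k))) (k : ℕ) (hk : 2 ≤ k) (i : ℕ)
    (hi : 2 ≤ i) : MvPolynomial.aeval δ (hc D β k i) = 0 := by
  classical
  have hs : s ≠ 0 := by
    rintro rfl
    exact ha.ne HahnSeries.coeff_zero
  have hpoly := SA4_poly (β := β) hdeg h0 hs ha hE
  -- step 1
  have htop : ∀ j, 3 ≤ j → PowerSeries.coeff j (psiTop D β) = 0 := by
    obtain ⟨p, hp⟩ := hpoly (-N)
    have hz : (-N + N).toNat = 0 := by simp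
    rw [hz, Finset.range_zero, Finset.sum_empty, add_zero] at hp
    have hcc : PowerSeries.C (s.coeff (-N))⁻¹ * PowerSeries.C (s.coeff (-N)) = (1 : PowerSeries ℂ) := by
      rw [← map_mul, inv_mul_cancel₀ ha.ne, map_one]
    have h1 : psiTop D β = ((Polynomial.C (s.coeff (-N))⁻¹ * p : Polynomial ℂ) : PowerSeries ℂ) := by
      rw [Polynomial.coe_mul, Polynomial.coe_C, ← hp, ← mul_assoc, hcc, one_mul]
    set q : Polynomial ℂ := Polynomial.C (s.coeff (-N))⁻¹ * p with hq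
    have h2 : ∀ j, PowerSeries.coeff j (PowerSeries.derivative ℂ (PowerSeries.derivative ℂ (psiTop D β))) =
        PowerSeries.coeff (j + 2) (psiTop D β) * ((j : ℂ) + 1 + 1) * ((j : ℂ) + 1) := by
      intro j
      rw [PowerSeries.coeff_derivative, PowerSeries.coeff_derivative]
      push_cast
      ring
    obtain ⟨p2, hp2⟩ := SA4_isPoly (PowerSeries.derivative ℂ (PowerSeries.derivative ℂ (psiTop D β)))
      (q.natDegree + 1) (by
        intro j hj
        rw [h2, h1, Polynomial.coeff_coe, Polynomial.coeff_eq_zero_of_natDegree_lt (by omega)]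
        ring)
    intro j hj
    have h3 := sep_poly h.toDK h.top p2 hp2 (j - 2) (by omega)
    rw [h2] at h3
    have h4 : j - 2 + 2 = j := by omega
    rw [h4] at h3
    have h5 : (((j - 2 : ℕ) : ℂ) + 1 + 1) ≠ 0 := by
      have : ((j - 2 : ℕ) : ℂ) + 1 + 1 = ((j - 2 + 1 + 1 : ℕ) : ℂ) := by push_cast; ring
      rw [this]
      exact Nat.cast_ne_zero.mpr (by omega)
    have h6 : (((j - 2 : ℕ) : ℂ) + 1) ≠ 0 := Nat.cast_add_one_ne_zero _
    rcases mul_eq_zero.mp h3 with h7 | h7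
    · rcases mul_eq_zero.mp h7 with h8 | h8
      · exact h8
      · exact absurd h8 h5
    · exact absurd h7 h6
  -- step 2
  have hA : ∀ (e : ℤ) (l j : ℕ), 2 ≤ j → PowerSeries.coeff j (SA4_A D β s δ e l) = 0 := by
    intro e l j hj
    by_cases hl : l < (e + N).toNat
    · obtain ⟨p, hp⟩ := hpoly e
      obtain ⟨p0, hp0⟩ := SA4_isPoly (PowerSeries.C (s.coeff e) * psiTop D β) 3 (by
        intro i hi
        rw [PowerSeries.coeff_C_mul, htop i hi, mul_zero])
      set f : ℕ → PowerSeries ℂ := fun i => if i = 0 then 0 else SA4_A D β s δ e (i - 1) with hf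
      have hfs : ∀ i, f (i + 1) = SA4_A D β s δ e i := by
        intro i
        rw [hf]
        simp only [Nat.add_eq_zero_iff, one_ne_zero, and_false, if_false, Nat.add_sub_cancel]
      have hf0 : f 0 = 0 := by
        rw [hf]
        simp only [if_true]
      have hsum : ∑ i ∈ Finset.range ((e + N).toNat + 1), PowerSeries.X ^ i * f i =
          ((p - p0 : Polynomial ℂ) : PowerSeries ℂ) := by
        rw [Finset.sum_range_succ', hf0, mul_zero, add_zero, Polynomial.coe_sub, ← hp, ← hp0, add_sub_cancel_left]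
        exact Finset.sum_congr rfl fun i _ => by rw [hfs]
      have hfd : ∀ i, PowerSeries.derivative ℂ (f i) ∈ K := by
        intro i
        rcases i with _ | i
        · rw [hf0, map_zero]
          exact K.zero_mem
        · rw [hfs]
          exact SA4_A_der h hdeg h0 s δ e i
      have := sep h.toDK ((e + N).toNat + 1) f hfd (p - p0) hsum (l + 1) (by omega) j hj
      rw [hfs] at this
      exact this
    · rw [SA4_A_zero hdeg h0 ha e l (by omega), map_zero]
  have hlev : ∀ (l j : ℕ), 2 ≤ j → MvPolynomial.aeval δ (hc D β (l + j) j) = 0 := by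
    intro l j hj
    have h1 : s⁻¹ ^ l * MvPolynomial.aeval δ (hc D β (l + j) j) = 0 := by
      apply HahnSeries.ext
      funext e
      have h2 := hA e l j hj
      unfold SA4_A at h2
      rw [PowerSeries.coeff_mk] at h2
      rw [h2]
      rfl
    rcases mul_eq_zero.mp h1 with h2 | h2
    · exact absurd h2 (pow_ne_zero _ (inv_ne_zero hs))
    · exact h2
  rcases Nat.lt_or_ge k i with hki | hki
  · rcases Nat.lt_or_ge (k + 1) i with hi2 | hi2
    · rw [SA4_hc_zero hdeg h0 β k i hi2, map_zero]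
    · obtain rfl : i = k + 1 := by omega
      rw [SA4_hc_top hdeg h0]
      have h1 := htop (k + 1) (by omega)
      unfold psiTop at h1
      rw [PowerSeries.coeff_mk, if_neg (by omega)] at h1
      have h2 : MvPolynomial.coeff 0 (hc D β k (k + 1)) = 0 := h1
      rw [h2, map_zero]
  · have h1 := hlev (k - i) i hi
    have h2 : k - i + i = k := by omega
    rw [h2] at h1
    exact h1

end Pool.Agent.Lib.MP_8ce23f_nt.RR
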