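import Pool.Agent.Lib.MP_8ce23f_nt.RR.SA4

/-!
# The second step for an arc: the slopes are constant

Leaf SA5 of the table `srl`.  It uses the statement of `arc_affine` (leaf SA4).

`T` = the Euler derivation (`exists_theta`).  `E k = aeval (bpt s δ β) (D k)`, `H k i = aeval δ (hc D β k i)`.
`G k i = ∑_a T (bpt s δ β a) * aeval δ (pderiv a (hc D β k i))`.  By `theta_aeval`, `lin_pderiv`, `aeval_lin`:
`T (E k) = ∑_{i ≤ k} G k i s^i`; and for `s + 1` in place of `s` (note `T (bpt (s+1) δ β a) = T (bpt s δ β a)` as `T` kills constants)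
`T (aeval (bpt (s+1) δ β) (D k)) = ∑_{i ≤ k} G k i (s+1)^i`.
`dle N (T (bpt s δ β a))`, the degree of `pderiv a (hc D β (l+i) i)` is at most `l`, so
`dle (N + (N-1) l) (G (l+i) i)` and `dle (N - l) (s^{-l} G (l+i) i)`; `pderiv a (hc D β k (k+1)) = 0` (a constant).
IDENTITY: `∑_{l=0}^{k} s^{-l} G k (k-l) = s^{-k} T (E k)`.  Fix `e`; `A_l = PowerSeries.mk fun i => (s^{-l} G (l+i) i).coeff e` vanishes
for `l > e + N`; `∑ x^l A_l` is a polynomial (`dle Ω (T (E k))` by `theta_dle`).  `A_l` is a finite linear combination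
of the `psi D β l m` with `m ≠ 0` (`aeval_eq_sum` for `pderiv a (..)`, `MvPolynomial.coeff` of a `pderiv`), so it is in `K` for
`l ≥ 1`, and its derivative is in `K` for `l = 0`.  By `sep`: the coefficients `i ≥ 2` of all `A_l` vanish; for `l ≥ 1`,
`A_l ∈ K` is a polynomial, so (`sep_poly`) the coefficient `i = 1` vanishes too.
Hence `G k i = 0` for `k ≥ 2`, `i ≥ 1` (`i ≤ k-1`: `l = k - i ≥ 1`; `i = k ≥ 2`: `l = 0`).
So `T (aeval (bpt (s+1) δ β) (D k)) = G k 0 = T (E k)`, and by `arc_affine`, `aeval (bpt (s+1) δ β) (D k) - E k = H k 1`;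
so `T (H k 1) = 0` and `theta_ker`.
-/

namespace Pool.Agent.Lib.MP_8ce23f_nt.RR

variable {r : ℕ}

/-- The degree of a derivative. -/
private theorem SA5_pd {p : P r} {d : ℕ} (a : Fin r) (hp : p.totalDegree ≤ d + 1) :
    (MvPolynomial.pderiv a p).totalDegree ≤ d := by
  refine Finset.sup_le fun m hm => ?_
  rw [MvPolynomial.mem_support_iff, MvPolynomial.coeff_pderiv] at hm
  have h1 : m + Finsupp.single a 1 ∈ p.support := by
    rw [MvPolynomial.mem_support_iff]
    intro h0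
    rw [h0] at hm
    simp at hm
  have h2 := MvPolynomial.le_totalDegree h1
  rw [Finsupp.sum_add_index' (fun _ => rfl) (fun _ _ _ => rfl), Finsupp.sum_single_index rfl] at h2
  omega

/-- The coefficients of the derivative. -/
private noncomputable def SA5_G (T : Derivation ℂ LF LF) (D : ℕ → P r) (β : Fin r → ℂ) (s : LF)
    (δ : Fin r → LF) (k i : ℕ) : LF :=
  ∑ a, T (bpt s δ β a) * MvPolynomial.aeval δ (MvPolynomial.pderiv a (hc D β k i))

/-- The derivative of `D_k(δ + w β)`. -/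
private theorem SA5_TE (T : Derivation ℂ LF LF) {D : ℕ → P r} {β : Fin r → ℂ} (s w : LF)
    (δ : Fin r → LF) (hw : ∀ a, T (bpt w δ β a) = T (bpt s δ β a)) {k : ℕ}
    (hk : (D k).totalDegree ≤ k + 1) :
    T (MvPolynomial.aeval (bpt w δ β) (D k)) =
      ∑ i ∈ Finset.range (k + 2), SA5_G T D β s δ k i * w ^ i := by
  rw [theta_aeval]
  have e1 : ∀ a, T (bpt w δ β a) * MvPolynomial.aeval (bpt w δ β) (MvPolynomial.pderiv a (D k)) =
      ∑ i ∈ Finset.range (k + 2), T (bpt s δ β a) *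
        MvPolynomial.aeval δ (MvPolynomial.pderiv a (hc D β k i)) * w ^ i := by
    intro a
    have hd : (MvPolynomial.pderiv a (D k)).totalDegree < k + 2 := by
      have := SA5_pd (d := k + 1) a (show (D k).totalDegree ≤ (k + 1) + 1 by omega)
      omega
    have e3 : MvPolynomial.aeval (bpt w δ β) (MvPolynomial.pderiv a (D k)) =
        ∑ i ∈ Finset.range (k + 2),
          MvPolynomial.aeval δ (MvPolynomial.pderiv a (hc D β k i)) * w ^ i := by
      refine Eq.trans (aeval_lin β δ w (MvPolynomial.pderiv a (D k)) hd)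
        (Finset.sum_congr rfl fun i _ => ?_)
      rw [lin_pderiv]
      rfl
    rw [e3, hw, Finset.mul_sum]
    refine Finset.sum_congr rfl fun i _ => ?_
    ring
  rw [Finset.sum_congr rfl fun a _ => e1 a, Finset.sum_comm]
  refine Finset.sum_congr rfl fun i _ => ?_
  rw [SA5_G, Finset.sum_mul]

/-- The coefficients of exponent `e`. -/
private noncomputable def SA5_A (T : Derivation ℂ LF LF) (D : ℕ → P r) (β : Fin r → ℂ) (s : LF)
    (δ : Fin r → LF) (e : ℤ) (l : ℕ) : PowerSeries ℂ :=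
  PowerSeries.mk fun i => (s⁻¹ ^ l * SA5_G T D β s δ (l + i) i).coeff e

/-- The degrees. -/
private theorem SA5_deg {D : ℕ → P r} (hdeg : ∀ k, 1 ≤ k → (D k).totalDegree ≤ k + 1) (h0 : D 0 = 0)
    (k : ℕ) : (D k).totalDegree ≤ k + 1 := by
  rcases Nat.eq_zero_or_pos k with rfl | hk
  · rw [h0, MvPolynomial.totalDegree_zero]
    omega
  · exact hdeg k hk

private theorem SA5_deg2 {D : ℕ → P r} (hdeg : ∀ k, 1 ≤ k → (D k).totalDegree ≤ k + 1) (h0 : D 0 = 0)
    (β : Fin r → ℂ) (a : Fin r) (l i : ℕ) :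
    (MvPolynomial.pderiv a (hc D β (l + i) i)).totalDegree ≤ l := by
  refine SA5_pd a ?_
  have := lin_coeff_deg β (SA5_deg hdeg h0 (l + i)) i
  have e : l + i + 1 - i = l + 1 := by omega
  rw [e] at this
  exact this

/-- A finite linear combination of the `psi`. -/
private theorem SA5_comb (T : Derivation ℂ LF LF) {D : ℕ → P r} {β : Fin r → ℂ} (s : LF)
    (δ : Fin r → LF) (hdeg : ∀ k, 1 ≤ k → (D k).totalDegree ≤ k + 1) (h0 : D 0 = 0) (e : ℤ) (l : ℕ) :
    ∃ (M : Finset (Fin r →₀ ℕ)) (c : Fin r → (Fin r →₀ ℕ) → ℂ),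
      SA5_A T D β s δ e l = ∑ a, ∑ m ∈ M, c a m • psi D β l (m + Finsupp.single a 1) := by
  obtain ⟨M, hM⟩ := aeval_eq_sum δ l
  refine ⟨M, fun a m => (s⁻¹ ^ l * (T (bpt s δ β a) * m.prod fun i a => δ i ^ a)).coeff e *
    ((m a : ℂ) + 1), ?_⟩
  ext i
  rw [SA5_A, PowerSeries.coeff_mk, map_sum, SA5_G, Finset.mul_sum, HahnSeries.coeff_sum]
  refine Finset.sum_congr rfl fun a _ => ?_
  rw [hM _ (SA5_deg2 hdeg h0 β a l i), Finset.mul_sum, Finset.mul_sum, HahnSeries.coeff_sum, map_sum]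
  refine Finset.sum_congr rfl fun m _ => ?_
  have e1 : s⁻¹ ^ l * (T (bpt s δ β a) * ((m.prod fun i a => δ i ^ a) *
      algebraMap ℂ LF (MvPolynomial.coeff m (MvPolynomial.pderiv a (hc D β (l + i) i))))) =
      algebraMap ℂ LF (MvPolynomial.coeff m (MvPolynomial.pderiv a (hc D β (l + i) i))) *
        (s⁻¹ ^ l * (T (bpt s δ β a) * m.prod fun i a => δ i ^ a)) := by
    ring
  rw [e1, coeff_const_mul, MvPolynomial.coeff_pderiv, map_smul, psi, PowerSeries.coeff_mk, smul_eq_mul]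
  push_cast
  ring

/-- The poles. -/
private theorem SA5_dle {T : Derivation ℂ LF LF}
    (hT : ∀ (f : LF) (e : ℤ), (T f).coeff e = e * f.coeff e) {D : ℕ → P r} {β : Fin r → ℂ} {s : LF}
    {δ : Fin r → LF} {N : ℤ} (ha : Arc N s δ) (hdeg : ∀ k, 1 ≤ k → (D k).totalDegree ≤ k + 1)
    (h0 : D 0 = 0) (l i : ℕ) : dle (N - l) (s⁻¹ ^ l * SA5_G T D β s δ (l + i) i) := by
  have h1 : dle ((l : ℤ) * (-N)) (s⁻¹ ^ l) := dle_pow (dle_inv ha.le ha.ne) l
  have h2 : dle (N + (N - 1) * l) (SA5_G T D β s δ (l + i) i) := by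
    refine dle_sum _ fun a _ => dle_mul ?_ ?_
    · refine theta_dle hT (dle_add (dle_mono (by omega) (ha.del a)) ?_)
      have h3 := dle_mul ha.le (dle_const (β a))
      rw [add_zero] at h3
      exact h3
    · exact dle_aeval (by have := ha.one_le; omega) ha.del (SA5_deg2 hdeg h0 β a l i)
  have h3 := dle_mul h1 h2
  have e : (l : ℤ) * (-N) + (N + (N - 1) * l) = N - l := by ring
  rw [e] at h3
  exact h3

/-- The top coefficient. -/
private theorem SA5_top (T : Derivation ℂ LF LF) {D : ℕ → P r} {β : Fin r → ℂ} (s : LF)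
    (δ : Fin r → LF) (hdeg : ∀ k, 1 ≤ k → (D k).totalDegree ≤ k + 1) (h0 : D 0 = 0) (k : ℕ) :
    SA5_G T D β s δ k (k + 1) = 0 := by
  refine Finset.sum_eq_zero fun a _ => ?_
  have h1 := lin_coeff_deg β (SA5_deg hdeg h0 k) (k + 1)
  have h2 : (hc D β k (k + 1)).totalDegree = 0 := by
    unfold hc
    omega
  rw [MvPolynomial.totalDegree_eq_zero_iff_eq_C.1 h2, MvPolynomial.pderiv_C, map_zero, mul_zero]

/-- The identity. -/
private theorem SA5_id (T : Derivation ℂ LF LF) {D : ℕ → P r} {β : Fin r → ℂ} {s : LF} (hs : s ≠ 0)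
    (δ : Fin r → LF) (hdeg : ∀ k, 1 ≤ k → (D k).totalDegree ≤ k + 1) (h0 : D 0 = 0) (k : ℕ) :
    s⁻¹ ^ k * T (MvPolynomial.aeval (bpt s δ β) (D k)) =
      ∑ l ∈ Finset.range (k + 1), s⁻¹ ^ l * SA5_G T D β s δ k (k - l) := by
  rw [SA5_TE T s s δ (fun _ => rfl) (SA5_deg hdeg h0 k), Finset.sum_range_succ,
    SA5_top T s δ hdeg h0 k, zero_mul, add_zero, ← Finset.sum_range_reflect, Finset.mul_sum]
  refine Finset.sum_congr rfl fun l hl => ?_
  rw [Finset.mem_range] at hl
  have e1 : k + 1 - 1 - l = k - l := by omega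
  rw [e1]
  obtain ⟨j, rfl⟩ : ∃ j, k = l + j := ⟨k - l, by omega⟩
  have e2 : l + j - l = j := by omega
  rw [e2, pow_add]
  have e3 : s⁻¹ ^ j * s ^ j = 1 := by
    rw [← mul_pow, inv_mul_cancel₀ hs, one_pow]
  linear_combination (s⁻¹ ^ l * SA5_G T D β s δ (l + j) j) * e3

/-- A power series with finitely many coefficients. -/
private theorem SA5_poly {f : PowerSeries ℂ} {k₀ : ℕ} (h : ∀ k, k₀ ≤ k → PowerSeries.coeff k f = 0) :
    f = (PowerSeries.trunc k₀ f : PowerSeries ℂ) := by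
  ext k
  rw [Polynomial.coeff_coe, PowerSeries.coeff_trunc]
  split_ifs with hk
  · rfl
  · exact h k (by omega)

/-- The coefficients of the derivative vanish. -/
private theorem SA5_van {D : ℕ → P r} {β : Fin r → ℂ} {K : Subalgebra ℂ (PowerSeries ℂ)}
    (h : Lev D β K) (hdeg : ∀ k, 1 ≤ k → (D k).totalDegree ≤ k + 1) (h0 : D 0 = 0) {N : ℤ} {s : LF}
    {δ : Fin r → LF} (ha : Arc N s δ) {Ω : ℤ}
    (hE : ∀ k, 2 ≤ k → dle Ω (MvPolynomial.aeval (bpt s δ β) (D k))) {T : Derivation ℂ LF LF}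
    (hT : ∀ (f : LF) (e : ℤ), (T f).coeff e = e * f.coeff e) (l i : ℕ)
    (hli : 2 ≤ i ∨ 1 ≤ l ∧ 1 ≤ i) : SA5_G T D β s δ (l + i) i = 0 := by
  have hs : s ≠ 0 := by
    rintro rfl
    exact ha.ne (HahnSeries.coeff_zero)
  have hN := ha.one_le
  -- the coefficients of exponent `e`
  have key : ∀ e : ℤ, (s⁻¹ ^ l * SA5_G T D β s δ (l + i) i).coeff e = 0 := by
    intro e
    have hbig : ∀ l' : ℕ, (e + N).toNat + 1 ≤ l' → SA5_A T D β s δ e l' = 0 := by
      intro l' hl'
      ext j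
      rw [SA5_A, PowerSeries.coeff_mk, map_zero]
      exact SA5_dle hT ha hdeg h0 l' j e (by omega)
    have hder : ∀ l', PowerSeries.derivative ℂ (SA5_A T D β s δ e l') ∈ K := by
      intro l'
      obtain ⟨M, c, hc⟩ := SA5_comb T s δ hdeg h0 e l'
      rw [hc, map_sum]
      refine K.sum_mem fun a _ => ?_
      rw [map_sum]
      refine K.sum_mem fun m _ => ?_
      rw [Derivation.map_smul]
      exact K.smul_mem (h.dpsi _ _) _
    have hmem : ∀ l', 1 ≤ l' → SA5_A T D β s δ e l' ∈ K := by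
      intro l' hl'
      obtain ⟨M, c, hc⟩ := SA5_comb T s δ hdeg h0 e l'
      rw [hc]
      refine K.sum_mem fun a _ => K.sum_mem fun m _ => K.smul_mem (h.lev _ _ hl' fun h1 => ?_) _
      have h2 := congrArg (fun f => f a) h1
      simp at h2
    obtain ⟨n, hn⟩ : ∃ n : ℕ, n = (e + N).toNat + 1 := ⟨_, rfl⟩
    have hsum : ∀ k, n + (e + Ω).toNat + 2 ≤ k →
        PowerSeries.coeff k (∑ l' ∈ Finset.range n, PowerSeries.X ^ l' * SA5_A T D β s δ e l') = 0 := by
      intro k hk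
      have e1 : PowerSeries.coeff k (∑ l' ∈ Finset.range n, PowerSeries.X ^ l' * SA5_A T D β s δ e l') =
          ∑ l' ∈ Finset.range (k + 1), (s⁻¹ ^ l' * SA5_G T D β s δ k (k - l')).coeff e := by
        rw [map_sum]
        have hsub : Finset.range n ⊆ Finset.range (k + 1) := by
          intro x hx
          rw [Finset.mem_range] at hx ⊢
          omega
        refine Eq.trans (Finset.sum_congr rfl fun l' hl' => ?_) (Finset.sum_subset hsub ?_)
        · rw [Finset.mem_range] at hl'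
          rw [PowerSeries.coeff_X_pow_mul', if_pos (by omega), SA5_A, PowerSeries.coeff_mk]
          have e2 : l' + (k - l') = k := by omega
          rw [e2]
        · intro l' hl' hl''
          rw [Finset.mem_range] at hl' hl''
          have h3 := SA5_dle (β := β) hT ha hdeg h0 l' (k - l') e (by omega)
          have e2 : l' + (k - l') = k := by omega
          rw [e2] at h3
          exact h3
      rw [e1, ← HahnSeries.coeff_sum, ← SA5_id T hs δ hdeg h0 k]
      have h4 := dle_mul (dle_pow (dle_inv ha.le ha.ne) k) (theta_dle hT (hE k (by omega)))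
      refine h4 e ?_
      have h5 : (e + Ω : ℤ) < k := by omega
      have h6 : (k : ℤ) * 1 ≤ (k : ℤ) * N := by
        apply mul_le_mul_of_nonneg_left hN
        omega
      linarith [mul_neg (k : ℤ) N]
    have hall : ∀ l' j, 2 ≤ j → PowerSeries.coeff j (SA5_A T D β s δ e l') = 0 := by
      intro l' j hj
      by_cases hl' : l' < n
      · exact sep h.toDK n (SA5_A T D β s δ e) hder _ (SA5_poly hsum) l' hl' j hj
      · rw [hbig l' (by omega), map_zero]
    have hfin : PowerSeries.coeff i (SA5_A T D β s δ e l) = 0 := by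
      rcases hli with hi | ⟨hl, hi⟩
      · exact hall l i hi
      · exact sep_poly h.toDK (hmem l hl) _ (SA5_poly (hall l)) i hi
    rw [SA5_A, PowerSeries.coeff_mk] at hfin
    exact hfin
  have h1 : s⁻¹ ^ l * SA5_G T D β s δ (l + i) i = 0 := by
    ext e
    rw [key e, HahnSeries.coeff_zero]
  rcases mul_eq_zero.1 h1 with h2 | h2
  · exact absurd h2 (pow_ne_zero _ (inv_ne_zero hs))
  · exact h2

theorem arc_slope {D : ℕ → P r} {β : Fin r → ℂ} {K : Subalgebra ℂ (PowerSeries ℂ)}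
    (h : Lev D β K) (hdeg : ∀ k, 1 ≤ k → (D k).totalDegree ≤ k + 1) (h0 : D 0 = 0) {N : ℤ} {s : LF}
    {δ : Fin r → LF} (ha : Arc N s δ) {Ω : ℤ}
    (hE : ∀ k, 2 ≤ k → dle Ω (MvPolynomial.aeval (bpt s δ β) (D k))) (k : ℕ) (hk : 2 ≤ k) :
    ∃ a : ℂ, MvPolynomial.aeval δ (hc D β k 1) = algebraMap ℂ LF a := by
  obtain ⟨T, hT⟩ := exists_theta
  have hd := SA5_deg hdeg h0 k
  have hw : ∀ a, T (bpt (s + 1) δ β a) = T (bpt s δ β a) := by
    intro a
    have e1 : bpt (s + 1) δ β a = bpt s δ β a + algebraMap ℂ LF (β a) := by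
      unfold bpt
      ring
    rw [e1, map_add, Derivation.map_algebraMap, add_zero]
  have hG : ∀ i ∈ Finset.range (k + 1), SA5_G T D β s δ k (i + 1) = 0 := by
    intro i hi
    rw [Finset.mem_range] at hi
    by_cases h1 : i = k
    · rw [h1]
      exact SA5_top T s δ hdeg h0 k
    · have h2 := SA5_van h hdeg h0 ha hE hT (k - (i + 1)) (i + 1) (by omega)
      have e2 : k - (i + 1) + (i + 1) = k := by omega
      rw [e2] at h2
      exact h2
  have hT2 : ∀ w : LF, (∀ a, T (bpt w δ β a) = T (bpt s δ β a)) →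
      T (MvPolynomial.aeval (bpt w δ β) (D k)) = SA5_G T D β s δ k 0 := by
    intro w hw
    rw [SA5_TE T s w δ hw hd, Finset.sum_range_succ', Finset.sum_eq_zero, zero_add, pow_zero, mul_one]
    intro i hi
    rw [hG i hi, zero_mul]
  have hval : ∀ w : LF, MvPolynomial.aeval (bpt w δ β) (D k) =
      MvPolynomial.aeval δ (hc D β k 0) + MvPolynomial.aeval δ (hc D β k 1) * w := by
    intro w
    have h1 := aeval_lin β δ w (D k) (n := k + 2) (by omega)
    refine Eq.trans h1 ?_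
    rw [Finset.sum_range_succ', Finset.sum_range_succ', Finset.sum_eq_zero]
    · rw [zero_add, pow_zero, mul_one, zero_add, pow_one, add_comm]
      rfl
    · intro i _
      have h2 := arc_affine h hdeg h0 ha hE k hk (i + 1 + 1) (by omega)
      unfold hc at h2
      rw [h2, zero_mul]
  refine theta_ker hT ?_
  have e3 : MvPolynomial.aeval δ (hc D β k 1) =
      MvPolynomial.aeval (bpt (s + 1) δ β) (D k) - MvPolynomial.aeval (bpt s δ β) (D k) := by
    rw [hval, hval]
    ring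
  rw [e3, map_sub, hT2 _ hw, hT2 _ fun _ => rfl, sub_self]

end Pool.Agent.Lib.MP_8ce23f_nt.RR
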