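import Pool.Agent.Lib.MP_8ce23f_nt.RR.SA2

/-!
# Polynomials over Laurent series with constant values

Leaf SA7 of the table `srl`.

`poly_const`: write `g = ∑ g_j X^j` with `g_j` Laurent series.  For a constant `c` the value is a constant, so for
every exponent `e ≠ 0`, `∑ g_j.coeff e c^j = 0` for all complex `c`, hence `g_j.coeff e = 0`: all `g_j` are constants.  At
`c = single 1 1` the value `∑ g_j ϖ^j` is a constant, so `g_j = 0` for `j ≥ 1`.
`mv_const`: for `c : ι → LF` choose `M` with `c = single (-M) 1 • c'`, `c'` without poles; apply `poly_const` to the polynomial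
`t ↦ eval (t c') g` and evaluate at `t = single (-M) 1`.  `mv_zero`: same with infinitely many zeros.
-/

namespace Pool.Agent.Lib.MP_8ce23f_nt.RR

/-- The coefficients of a constant. -/
private theorem SA7_cst (a : ℂ) (e : ℤ) :
    (algebraMap ℂ LF a).coeff e = if e = 0 then a else 0 := by
  have h := coeff_const_mul a (1 : LF) e
  rw [mul_one] at h
  rw [h, HahnSeries.coeff_one]
  split_ifs <;> simp

/-- Each coefficient of each coefficient of `g` vanishes, away from the exponent `0`. -/
private theorem SA7_zero (g : Polynomial LF)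
    (h : ∀ c : LF, dle 0 c → ∃ a : ℂ, g.eval c = algebraMap ℂ LF a) (e : ℤ) (he : e ≠ 0) (j : ℕ) :
    (g.coeff j).coeff e = 0 := by
  classical
  set q : Polynomial ℂ := ∑ i ∈ Finset.range (g.natDegree + 1),
    Polynomial.C ((g.coeff i).coeff e) * Polynomial.X ^ i with hq
  have hev : ∀ z : ℂ, q.eval z = 0 := by
    intro z
    obtain ⟨a, ha⟩ := h (algebraMap ℂ LF z) (dle_const z)
    have h1 : (g.eval (algebraMap ℂ LF z)).coeff e = 0 := by
      rw [ha, SA7_cst, if_neg he]
    rw [Polynomial.eval_eq_sum_range, HahnSeries.coeff_sum] at h1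
    rw [hq, Polynomial.eval_finsetSum]
    rw [← h1]
    refine Finset.sum_congr rfl fun i _ => ?_
    rw [Polynomial.eval_mul, Polynomial.eval_C, Polynomial.eval_pow, Polynomial.eval_X, mul_comm,
      ← coeff_const_mul (z ^ i) (g.coeff i) e, map_pow, mul_comm]
  have hq0 : q = 0 := Polynomial.funext fun z => by rw [hev z, Polynomial.eval_zero]
  by_cases hj : j < g.natDegree + 1
  · have h2 : q.coeff j = (g.coeff j).coeff e := by
      rw [hq, Polynomial.finsetSum_coeff, Finset.sum_eq_single j]
      · rw [Polynomial.coeff_C_mul, Polynomial.coeff_X_pow, if_pos rfl, mul_one]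
      · intro i _ hij
        rw [Polynomial.coeff_C_mul, Polynomial.coeff_X_pow, if_neg (Ne.symm hij), mul_zero]
      · intro hn
        exact absurd (Finset.mem_range.2 hj) hn
    rw [← h2, hq0, Polynomial.coeff_zero]
  · have h3 : g.coeff j = 0 := Polynomial.coeff_eq_zero_of_natDegree_lt (by omega)
    rw [h3, HahnSeries.coeff_zero]

theorem poly_const (g : Polynomial LF)
    (h : ∀ c : LF, dle 0 c → ∃ a : ℂ, g.eval c = algebraMap ℂ LF a) :
    ∃ a : ℂ, g = Polynomial.C (algebraMap ℂ LF a) := by
  classical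
  have hc : ∀ j, g.coeff j = algebraMap ℂ LF ((g.coeff j).coeff 0) := by
    intro j
    ext e
    rw [SA7_cst]
    by_cases he : e = 0
    · rw [if_pos he, he]
    · rw [if_neg he, SA7_zero g h e he j]
  refine ⟨(g.coeff 0).coeff 0, ?_⟩
  have h1 : dle 0 (HahnSeries.single (1 : ℤ) (1 : ℂ) : LF) := by
    intro e he
    rw [HahnSeries.coeff_single_of_ne (by omega)]
  obtain ⟨a, ha⟩ := h _ h1
  ext1 j
  rcases Nat.eq_zero_or_pos j with rfl | hj
  · rw [Polynomial.coeff_C_zero]
    exact hc 0
  · rw [Polynomial.coeff_C_of_ne_zero (by omega)]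
    by_cases hjn : j < g.natDegree + 1
    · have h2 : (g.eval (HahnSeries.single (1 : ℤ) (1 : ℂ) : LF)).coeff (j : ℤ) = 0 := by
        rw [ha, SA7_cst, if_neg (by omega)]
      rw [Polynomial.eval_eq_sum_range, HahnSeries.coeff_sum, Finset.sum_eq_single j] at h2
      · rw [hc j, coeff_const_mul, HahnSeries.single_pow, one_pow, nsmul_eq_mul, mul_one,
          HahnSeries.coeff_single_same, mul_one] at h2
        rw [hc j, h2, map_zero]
      · intro i _ hij
        rw [hc i, coeff_const_mul, HahnSeries.single_pow, one_pow, nsmul_eq_mul, mul_one,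
          HahnSeries.coeff_single_of_ne (by omega), mul_zero]
      · intro hn
        exact absurd (Finset.mem_range.2 hjn) hn
    · exact Polynomial.coeff_eq_zero_of_natDegree_lt (by omega)

theorem mv_const {ι : Type*} [Finite ι] (g : MvPolynomial ι LF)
    (h : ∀ c : ι → LF, (∀ i, dle 0 (c i)) → ∃ a : ℂ, MvPolynomial.eval c g = algebraMap ℂ LF a) :
    ∃ a : ℂ, ∀ c : ι → LF, MvPolynomial.eval c g = algebraMap ℂ LF a := by
  classical
  obtain ⟨a, ha⟩ := h (fun _ => 0) fun _ => dle_zero 0
  refine ⟨a, fun c => ?_⟩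
  have hM : ∀ i, ∃ M : ℕ, dle (M : ℤ) (c i) := by
    intro i
    refine ⟨(-(c i).order).toNat, fun e he => HahnSeries.coeff_eq_zero_of_lt_order ?_⟩
    have h1 := Int.self_le_toNat (-(c i).order)
    omega
  choose M hM using hM
  obtain ⟨B, hB⟩ := (Set.finite_range M).bddAbove
  have hMB : ∀ i, dle (B : ℤ) (c i) := fun i =>
    dle_mono (by exact_mod_cast hB (Set.mem_range_self i)) (hM i)
  set c' : ι → LF := fun i => HahnSeries.single (B : ℤ) (1 : ℂ) * c i with hc'
  have hd : ∀ i, dle 0 (c' i) := by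
    intro i
    have h1 : dle (-(B : ℤ)) (HahnSeries.single (B : ℤ) (1 : ℂ) : LF) := by
      have h2 := dle_single (-(B : ℤ)) 1
      rwa [neg_neg] at h2
    have h3 := dle_mul h1 (hMB i)
    rwa [neg_add_cancel] at h3
  have hcc : ∀ i, c i = c' i * HahnSeries.single (-(B : ℤ)) (1 : ℂ) := by
    intro i
    have h1 : (HahnSeries.single (B : ℤ) (1 : ℂ) : LF) * HahnSeries.single (-(B : ℤ)) (1 : ℂ) = 1 := by
      rw [HahnSeries.single_mul_single, add_neg_cancel, mul_one, HahnSeries.single_zero_one]
    calc c i = (HahnSeries.single (B : ℤ) (1 : ℂ) * HahnSeries.single (-(B : ℤ)) (1 : ℂ)) * c i := by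
          rw [h1, one_mul]
      _ = c' i * HahnSeries.single (-(B : ℤ)) (1 : ℂ) := by
          rw [hc']; ring
  set p : Polynomial LF :=
    MvPolynomial.aeval (fun i => Polynomial.C (c' i) * Polynomial.X) g with hp
  have hpe : ∀ t : LF, p.eval t = MvPolynomial.eval (fun i => c' i * t) g := by
    intro t
    have h1 := MvPolynomial.map_aeval (fun i => Polynomial.C (c' i) * Polynomial.X)
      (Polynomial.evalRingHom t) g
    have h2 : (Polynomial.evalRingHom t).comp (algebraMap LF (Polynomial LF)) = RingHom.id LF := by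
      ext1 x
      simp
    rw [h2, ← hp, Polynomial.coe_evalRingHom] at h1
    rw [h1]
    have h3 : (fun i => Polynomial.eval t (Polynomial.C (c' i) * Polynomial.X)) =
        fun i => c' i * t := by
      funext i
      simp
    rw [h3]
    rfl
  obtain ⟨b, hb⟩ := poly_const p fun t ht => by
    rw [hpe]
    refine h _ fun i => ?_
    have h1 := dle_mul (hd i) ht
    rwa [add_zero] at h1
  have h0 : p.eval 0 = algebraMap ℂ LF a := by
    rw [hpe, ← ha]
    congr 2
    ext i
    simp
  have hba : algebraMap ℂ LF b = algebraMap ℂ LF a := by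
    rw [← h0, hb, Polynomial.eval_C]
  have h1 : (fun i => c' i * HahnSeries.single (-(B : ℤ)) (1 : ℂ)) = c := by
    funext i
    exact (hcc i).symm
  rw [← h1, ← hpe, hb, Polynomial.eval_C, hba]

theorem mv_zero {ι : Type*} [Finite ι] (g : MvPolynomial ι LF)
    (h : ∀ c : ι → LF, (∀ i, dle 0 (c i)) → MvPolynomial.eval c g = 0) (c : ι → LF) :
    MvPolynomial.eval c g = 0 := by
  obtain ⟨a, ha⟩ := mv_const g fun c hc => ⟨0, by rw [h c hc, map_zero]⟩
  rw [ha c, ← ha fun _ => 0]
  exact h _ fun _ => dle_zero 0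

end Pool.Agent.Lib.MP_8ce23f_nt.RR
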