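import Pool.Agent.Lib.MP_8ce23f_nt.RR.SA5
import Pool.Agent.Lib.MP_8ce23f_nt.RR.SA7

/-!
# Arcs in the solution set are invariant under translations

Leaf SA8 of the table `srl`.

`arc_one`: from `arc_affine`, `arc_slope` and `aeval_lin`.
`arc_pol`: let `N` bound the poles of `b`, `β_i = cof b i` the vector of coefficients of `b` at `-i` (`1 ≤ i ≤ N`), `z^i = single (-i) 1`.
CLAIM `C n` (descending `n`, `0 ≤ n ≤ N`): for `k ≥ 2` there are constants `a_i` (`n < i ≤ N`) such that for all Laurent series `w_i`: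
`aeval (b + ∑_{n<i≤N} w_i β_i) (D k) = e k + ∑ a_i w_i`.
`C N` is the hypothesis.  `C n → C (n-1)` for `n ≥ 1`: let `T_n = b - ∑_{i>n} z^i β_i` (poles of order `≤ n`).  For
`c_i` (`i > n`) with `dle (n-1) (c_i)` (in particular all `c_i` with `dle 0`) the point `T_n + ∑ c_i β_i = bpt (z^n) (T_{n-1} + ∑ c_i β_i) β_n` is
an `Arc n`; by `C n` with `w_i = c_i - z^i` the values of the `D k` on it are `e k + ∑ a_i (c_i - z^i)`, `dle N` for all `k`.
By `arc_one` there is a constant `α(c)` with `aeval (T_n + ∑ c_i β_i + w β_n) (D k) = e k + ∑ a_i (c_i - z^i) + α(c) w` for all `w`.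
For `w = 1` the polynomial in `c` `F(c) = aeval (T_n + ∑ c_i β_i + β_n) (D k) - e k - ∑ a_i (c_i - z^i)` has constant values
for `c` without poles, so it is a constant `α` for all `c` (`mv_const`), and (`mv_zero`, for each `w`)
`aeval (T_n + ∑ c_i β_i + w β_n) (D k) = e k + ∑ a_i (c_i - z^i) + α w` for all `c`.  Put `c_i = w_i + z^i`.
END: `C 0` with `w_i = - z^i`: the left side is `aeval T_0 (D k)`, without poles; the right side `e k - ∑ a_i z^i`; so all `a_i = 0`.
Take `w_n = w` and the others `0`.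
-/

namespace Pool.Agent.Lib.MP_8ce23f_nt.RR

variable {r : ℕ}

theorem arc_one {D : ℕ → P r} {β : Fin r → ℂ} {K : Subalgebra ℂ (PowerSeries ℂ)}
    (h : Lev D β K) (hdeg : ∀ k, 1 ≤ k → (D k).totalDegree ≤ k + 1) (h0 : D 0 = 0) {N : ℤ} {s : LF}
    {δ : Fin r → LF} (ha : Arc N s δ) {Ω : ℤ}
    (hE : ∀ k, 2 ≤ k → dle Ω (MvPolynomial.aeval (bpt s δ β) (D k))) (k : ℕ) (hk : 2 ≤ k) :
    ∃ a : ℂ, ∀ w : LF, MvPolynomial.aeval (bpt (s + w) δ β) (D k) =
      MvPolynomial.aeval (bpt s δ β) (D k) + algebraMap ℂ LF a * w := by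
  have key : ∀ t : LF, MvPolynomial.aeval (bpt t δ β) (D k) =
      MvPolynomial.aeval δ (hc D β k 0) + MvPolynomial.aeval δ (hc D β k 1) * t := by
    intro t
    have h1 := aeval_lin β δ t (D k) (n := k + 2)
      (Nat.lt_succ_of_le (hdeg k (by omega)))
    have h2 : MvPolynomial.aeval (bpt t δ β) (D k) =
        ∑ i ∈ Finset.range (k + 2), MvPolynomial.aeval δ (hc D β k i) * t ^ i := h1
    rw [h2, ← Finset.sum_subset (Finset.range_subset_range.2 (show 2 ≤ k + 2 by omega))]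
    · rw [Finset.sum_range_succ, Finset.sum_range_one, pow_zero, mul_one, pow_one]
    · intro i _ hi
      rw [Finset.mem_range, not_lt] at hi
      rw [arc_affine h hdeg h0 ha hE k hk i hi, zero_mul]
  obtain ⟨a, haa⟩ := arc_slope h hdeg h0 ha hE k hk
  refine ⟨a, fun w => ?_⟩
  rw [key (s + w), key s, haa]
  ring

private noncomputable def SA8_z (i : ℕ) : LF := HahnSeries.single (-(i : ℤ)) 1

private noncomputable def SA8_B (b : Fin r → LF) (i : ℕ) (x : Fin r) : LF :=
  algebraMap ℂ LF ((b x).coeff (-(i : ℤ)))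

private noncomputable def SA8_T (b : Fin r → LF) (N n : ℕ) (x : Fin r) : LF :=
  b x - ∑ i ∈ Finset.Ioc n N, SA8_z i * SA8_B b i x

private theorem SA8_coeff_sum {ι : Type*} (s : Finset ι) (f : ι → LF) (e : ℤ) :
    (∑ i ∈ s, f i).coeff e = ∑ i ∈ s, (f i).coeff e := by
  classical
  induction s using Finset.induction_on with
  | empty => simp
  | insert a s ha ih => rw [Finset.sum_insert ha, Finset.sum_insert ha, ← ih]; rfl

private theorem SA8_coeff_zB (b : Fin r → LF) (i : ℕ) (x : Fin r) (e : ℤ) :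
    (SA8_z i * SA8_B b i x).coeff e = if e = -(i : ℤ) then (b x).coeff e else 0 := by
  unfold SA8_z SA8_B
  rw [mul_comm, coeff_const_mul, HahnSeries.coeff_single]
  by_cases h : e = -(i : ℤ)
  · subst h; simp
  · simp [h]

private theorem SA8_z_dle (i : ℕ) : dle (i : ℤ) (SA8_z i) := dle_single _ _

private theorem SA8_Ioc {n N : ℕ} (hn : n < N) :
    Finset.Ioc n N = insert (n + 1) (Finset.Ioc (n + 1) N) := by
  ext i; simp only [Finset.mem_Ioc, Finset.mem_insert]; omega

private theorem SA8_T_succ (b : Fin r → LF) {n N : ℕ} (hn : n < N) (x : Fin r) :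
    SA8_T b N (n + 1) x = SA8_T b N n x + SA8_z (n + 1) * SA8_B b (n + 1) x := by
  unfold SA8_T
  rw [SA8_Ioc hn, Finset.sum_insert (by simp)]
  ring

private theorem SA8_T_dle {b : Fin r → LF} {n N : ℕ} (hb : ∀ x, dle (N : ℤ) (b x))
    (x : Fin r) : dle (n : ℤ) (SA8_T b N n x) := by
  intro e he
  unfold SA8_T
  rw [HahnSeries.coeff_sub, SA8_coeff_sum]
  simp only [SA8_coeff_zB]
  by_cases h : e < -(N : ℤ)
  · rw [hb x e h]; simp
  · obtain ⟨m, hm⟩ : ∃ m : ℕ, e = -(m : ℤ) := ⟨(-e).toNat, by omega⟩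
    subst hm
    rw [Finset.sum_eq_single m]
    · simp
    · intro i _ hi
      rw [if_neg]
      intro h'
      exact hi (by omega)
    · intro hm
      exact absurd (Finset.mem_Ioc.2 ⟨by omega, by omega⟩) hm

private theorem SA8_eval_aeval {ι : Type*} (pt : Fin r → MvPolynomial ι LF) (p : P r)
    (c : ι → LF) : MvPolynomial.eval c (MvPolynomial.aeval pt p) =
      MvPolynomial.aeval (fun x => MvPolynomial.eval c (pt x)) p := by
  induction p using MvPolynomial.induction_on with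
  | C a =>
    simp only [MvPolynomial.aeval_C]
    rw [show (algebraMap ℂ (MvPolynomial ι LF)) a = MvPolynomial.C (algebraMap ℂ LF a) from rfl,
      MvPolynomial.eval_C]
  | add p q hp hq => simp only [map_add, hp, hq]
  | mul_X p i hp => simp only [map_mul, hp, MvPolynomial.aeval_X]

private theorem SA8_step {D : ℕ → P r} (hD : LD D) {b : Fin r → LF} {e : ℕ → ℂ} {N n : ℕ}
    (hn : n < N) (hbN : ∀ x, dle (N : ℤ) (b x))
    (hC : ∀ k, 2 ≤ k → ∃ a : ℕ → ℂ, ∀ w : ℕ → LF,
      MvPolynomial.aeval (fun x => b x + ∑ i ∈ Finset.Ioc (n + 1) N, w i * SA8_B b i x) (D k) =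
        algebraMap ℂ LF (e k) + ∑ i ∈ Finset.Ioc (n + 1) N, algebraMap ℂ LF (a i) * w i)
    (k : ℕ) (hk : 2 ≤ k) : ∃ a : ℕ → ℂ, ∀ w : ℕ → LF,
      MvPolynomial.aeval (fun x => b x + ∑ i ∈ Finset.Ioc n N, w i * SA8_B b i x) (D k) =
        algebraMap ℂ LF (e k) + ∑ i ∈ Finset.Ioc n N, algebraMap ℂ LF (a i) * w i := by
  classical
  set S := Finset.Ioc (n + 1) N with hS
  obtain ⟨K, hK⟩ := hD.lev (fun x => (b x).coeff (-((n + 1 : ℕ) : ℤ)))
  set β : Fin r → ℂ := fun x => (b x).coeff (-((n + 1 : ℕ) : ℤ)) with hβ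
  -- the values on the arcs
  have hval : ∀ l, 2 ≤ l → ∃ a : ℕ → ℂ, ∀ c : S → LF,
      MvPolynomial.aeval (bpt (SA8_z (n + 1))
        (fun x => SA8_T b N n x + ∑ i : S, c i * SA8_B b i x) β) (D l) =
      algebraMap ℂ LF (e l) + ∑ i : S, algebraMap ℂ LF (a i) * (c i - SA8_z i) := by
    intro l hl
    obtain ⟨a, ha⟩ := hC l hl
    refine ⟨a, fun c => ?_⟩
    have h1 := ha (fun i => if h : i ∈ S then c ⟨i, h⟩ - SA8_z i else 0)
    have h2 : ∀ g : ℕ → LF, ∑ i ∈ S, (if h : i ∈ S then c ⟨i, h⟩ - SA8_z i else 0) * g i =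
        ∑ i : S, (c i - SA8_z i) * g i := by
      intro g
      rw [← Finset.sum_coe_sort S]
      refine Finset.sum_congr rfl fun i _ => ?_
      rw [dif_pos i.2]
    have h3 : ∑ i ∈ S, algebraMap ℂ LF (a i) * (if h : i ∈ S then c ⟨i, h⟩ - SA8_z i else 0) =
        ∑ i : S, algebraMap ℂ LF (a i) * (c i - SA8_z i) := by
      rw [← Finset.sum_coe_sort S]
      refine Finset.sum_congr rfl fun i _ => ?_
      rw [dif_pos i.2]
    rw [h3] at h1
    rw [← h1]
    congr 2
    funext x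
    show SA8_T b N n x + ∑ i : S, c i * SA8_B b i x + SA8_z (n + 1) * SA8_B b (n + 1) x = _
    rw [h2 (fun i => SA8_B b i x)]
    have h4 := SA8_T_succ b hn x
    have h5 : SA8_T b N (n + 1) x = b x - ∑ i : S, SA8_z i * SA8_B b i x := by
      unfold SA8_T
      rw [Finset.sum_coe_sort S (fun i => SA8_z i * SA8_B b i x)]
    have h6 : ∑ i : S, (c i - SA8_z i) * SA8_B b i x =
        ∑ i : S, c i * SA8_B b i x - ∑ i : S, SA8_z i * SA8_B b i x := by
      rw [← Finset.sum_sub_distrib]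
      exact Finset.sum_congr rfl fun i _ => by ring
    rw [h6]
    have h7 := h4.symm.trans h5
    linear_combination h7
  obtain ⟨a, ha⟩ := hval k hk
  -- the slopes
  have hsl : ∀ c : S → LF, (∀ i, dle 0 (c i)) → ∃ α : ℂ, ∀ w : LF,
      MvPolynomial.aeval (bpt (SA8_z (n + 1) + w)
        (fun x => SA8_T b N n x + ∑ i : S, c i * SA8_B b i x) β) (D k) =
      algebraMap ℂ LF (e k) + ∑ i : S, algebraMap ℂ LF (a i) * (c i - SA8_z i) +
        algebraMap ℂ LF α * w := by
    intro c hc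
    have harc : Arc ((n + 1 : ℕ) : ℤ) (SA8_z (n + 1))
        (fun x => SA8_T b N n x + ∑ i : S, c i * SA8_B b i x) := by
      refine ⟨by push_cast; omega, SA8_z_dle _, ?_, ?_⟩
      · unfold SA8_z
        rw [HahnSeries.coeff_single_same]
        exact one_ne_zero
      · intro x
        have h0 : ((n + 1 : ℕ) : ℤ) - 1 = (n : ℤ) := by push_cast; ring
        rw [h0]
        refine dle_add (SA8_T_dle hbN x) (dle_sum _ fun i _ => ?_)
        refine dle_mono (show (0 : ℤ) + 0 ≤ n by omega) (dle_mul (hc i) (dle_const _))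
    have hE : ∀ l, 2 ≤ l → dle (N : ℤ) (MvPolynomial.aeval (bpt (SA8_z (n + 1))
        (fun x => SA8_T b N n x + ∑ i : S, c i * SA8_B b i x) β) (D l)) := by
      intro l hl
      obtain ⟨a', ha'⟩ := hval l hl
      rw [ha' c]
      refine dle_add (dle_mono (by omega) (dle_const _)) (dle_sum _ fun i _ => ?_)
      refine dle_mono (show (0 : ℤ) + N ≤ N by omega) (dle_mul (dle_const _) (dle_sub
        (dle_mono (by omega) (hc i)) (dle_mono ?_ (SA8_z_dle _))))
      have hi2 : (i : ℕ) ∈ Finset.Ioc (n + 1) N := i.2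
      rw [Finset.mem_Ioc] at hi2
      omega
    obtain ⟨α, hα⟩ := arc_one hK hD.deg hD.zero harc hE k hk
    exact ⟨α, fun w => by rw [hα w, ha c]⟩
  -- the polynomials
  let pt : LF → Fin r → MvPolynomial S LF := fun w x =>
    MvPolynomial.C (SA8_T b N n x + (SA8_z (n + 1) + w) * SA8_B b (n + 1) x) +
      ∑ i : S, MvPolynomial.X i * MvPolynomial.C (SA8_B b i x)
  let G : LF → MvPolynomial S LF := fun w =>
    MvPolynomial.aeval (pt w) (D k) - MvPolynomial.C (algebraMap ℂ LF (e k)) -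
      ∑ i : S, MvPolynomial.C (algebraMap ℂ LF (a i)) *
        (MvPolynomial.X i - MvPolynomial.C (SA8_z i))
  have hG : ∀ (w : LF) (c : S → LF), MvPolynomial.eval c (G w) =
      MvPolynomial.aeval (fun x => SA8_T b N n x + (SA8_z (n + 1) + w) * SA8_B b (n + 1) x +
        ∑ i : S, c i * SA8_B b i x) (D k) - algebraMap ℂ LF (e k) -
        ∑ i : S, algebraMap ℂ LF (a i) * (c i - SA8_z i) := by
    intro w c
    simp only [G, map_sub, SA8_eval_aeval, MvPolynomial.eval_C, map_sum, map_mul,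
      MvPolynomial.eval_X, pt, map_add]
  have hpt : ∀ (w : LF) (c : S → LF),
      (fun x => SA8_T b N n x + (SA8_z (n + 1) + w) * SA8_B b (n + 1) x +
        ∑ i : S, c i * SA8_B b i x) = bpt (SA8_z (n + 1) + w)
        (fun x => SA8_T b N n x + ∑ i : S, c i * SA8_B b i x) β := by
    intro w c
    funext x
    show _ = SA8_T b N n x + ∑ i : S, c i * SA8_B b i x +
      (SA8_z (n + 1) + w) * SA8_B b (n + 1) x
    ring
  have hG1 : ∀ c : S → LF, (∀ i, dle 0 (c i)) → ∃ α : ℂ, ∀ w : LF,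
      MvPolynomial.eval c (G w) = algebraMap ℂ LF α * w := by
    intro c hc
    obtain ⟨α, hα⟩ := hsl c hc
    refine ⟨α, fun w => ?_⟩
    rw [hG, hpt, hα w]
    ring
  obtain ⟨α0, hα0⟩ := mv_const (G 1) (fun c hc => by
    obtain ⟨α, hα⟩ := hG1 c hc
    exact ⟨α, by rw [hα 1, mul_one]⟩)
  have hGall : ∀ (w : LF) (c : S → LF), MvPolynomial.eval c (G w) = algebraMap ℂ LF α0 * w := by
    intro w c
    have h1 := mv_zero (G w - MvPolynomial.C (algebraMap ℂ LF α0 * w)) (fun c hc => by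
      obtain ⟨α, hα⟩ := hG1 c hc
      have h2 : algebraMap ℂ LF α = algebraMap ℂ LF α0 := by
        rw [← hα0 c, hα 1, mul_one]
      rw [map_sub, hα w, MvPolynomial.eval_C, h2, sub_self]) c
    rw [map_sub, MvPolynomial.eval_C] at h1
    exact sub_eq_zero.1 h1
  refine ⟨fun i => if i = n + 1 then α0 else a i, fun w => ?_⟩
  have h1 := hGall (w (n + 1)) (fun i : S => w i + SA8_z i)
  rw [hG] at h1
  have h2 : (fun x => SA8_T b N n x + (SA8_z (n + 1) + w (n + 1)) * SA8_B b (n + 1) x +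
        ∑ i : S, (w i + SA8_z i) * SA8_B b i x) =
      fun x => b x + ∑ i ∈ Finset.Ioc n N, w i * SA8_B b i x := by
    funext x
    have h4 := SA8_T_succ b hn x
    have h5 : SA8_T b N (n + 1) x = b x - ∑ i : S, SA8_z i * SA8_B b i x := by
      unfold SA8_T
      rw [Finset.sum_coe_sort S (fun i => SA8_z i * SA8_B b i x)]
    have h6 : ∑ i : S, (w i + SA8_z i) * SA8_B b i x =
        ∑ i : S, w i * SA8_B b i x + ∑ i : S, SA8_z i * SA8_B b i x := by
      rw [← Finset.sum_add_distrib]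
      exact Finset.sum_congr rfl fun i _ => by ring
    rw [h6, SA8_Ioc hn, Finset.sum_insert (by simp), ← hS,
      ← Finset.sum_coe_sort S (fun i => w i * SA8_B b i x)]
    have h7 := h4.symm.trans h5
    linear_combination h7
  rw [h2] at h1
  have h8 : ∑ i ∈ Finset.Ioc n N, algebraMap ℂ LF (if i = n + 1 then α0 else a i) * w i =
      algebraMap ℂ LF α0 * w (n + 1) + ∑ i : S, algebraMap ℂ LF (a i) * w i := by
    rw [SA8_Ioc hn, Finset.sum_insert (by simp), if_pos rfl, ← hS, ← Finset.sum_coe_sort S]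
    congr 1
    refine Finset.sum_congr rfl fun i _ => ?_
    have hi2 : (i : ℕ) ∈ Finset.Ioc (n + 1) N := i.2
    rw [Finset.mem_Ioc] at hi2
    rw [if_neg (by omega)]
  show _ = algebraMap ℂ LF (e k) + ∑ i ∈ Finset.Ioc n N,
    algebraMap ℂ LF (if i = n + 1 then α0 else a i) * w i
  rw [h8]
  have h9 : ∑ i : S, algebraMap ℂ LF (a i) * (w i + SA8_z i - SA8_z i) =
      ∑ i : S, algebraMap ℂ LF (a i) * w i :=
    Finset.sum_congr rfl fun i _ => by ring
  rw [h9] at h1
  linear_combination h1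

private theorem SA8_all {D : ℕ → P r} (hD : LD D) {b : Fin r → LF} {e : ℕ → ℂ} {N : ℕ}
    (hb : ∀ k, 2 ≤ k → MvPolynomial.aeval b (D k) = algebraMap ℂ LF (e k))
    (hbN : ∀ x, dle (N : ℤ) (b x)) (m : ℕ) (hm : m ≤ N) (k : ℕ) (hk : 2 ≤ k) :
    ∃ a : ℕ → ℂ, ∀ w : ℕ → LF,
      MvPolynomial.aeval (fun x => b x + ∑ i ∈ Finset.Ioc (N - m) N, w i * SA8_B b i x) (D k) =
        algebraMap ℂ LF (e k) + ∑ i ∈ Finset.Ioc (N - m) N, algebraMap ℂ LF (a i) * w i := by
  induction m generalizing k with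
  | zero =>
    refine ⟨0, fun w => ?_⟩
    simp only [Nat.sub_zero, Finset.Ioc_self, Finset.sum_empty, add_zero]
    exact hb k hk
  | succ m ih =>
    have h1 : N - m = N - (m + 1) + 1 := by omega
    refine SA8_step hD (by omega) hbN (fun l hl => ?_) k hk
    rw [← h1]
    exact ih (by omega) l hl

private theorem SA8_bound (f : LF) : ∃ N : ℕ, dle (N : ℤ) f := by
  by_cases hf : f = 0
  · exact ⟨0, by rw [hf]; exact dle_zero _⟩
  · refine ⟨(-f.order).toNat, fun e he => ?_⟩
    apply HahnSeries.coeff_eq_zero_of_lt_order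
    omega

theorem arc_pol {D : ℕ → P r} (hD : LD D) {b : Fin r → LF} {e : ℕ → ℂ}
    (hb : ∀ k, 2 ≤ k → MvPolynomial.aeval b (D k) = algebraMap ℂ LF (e k)) {n : ℕ} (hn : 1 ≤ n)
    (w : LF) (k : ℕ) (hk : 2 ≤ k) :
    MvPolynomial.aeval (fun i => b i + w * algebraMap ℂ LF ((b i).coeff (-(n : ℤ)))) (D k) =
      algebraMap ℂ LF (e k) := by
  classical
  choose M hM using fun x => SA8_bound (b x)
  obtain ⟨N, hnN, hbN⟩ : ∃ N : ℕ, n ≤ N ∧ ∀ x, dle (N : ℤ) (b x) := by
    refine ⟨n + ∑ x, M x, by omega, fun x => dle_mono ?_ (hM x)⟩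
    have : M x ≤ ∑ y, M y := Finset.single_le_sum (f := M) (fun _ _ => Nat.zero_le _)
      (Finset.mem_univ x)
    omega
  obtain ⟨a, ha⟩ := SA8_all hD hb hbN N le_rfl k hk
  rw [Nat.sub_self] at ha
  have ha0 : ∀ m ∈ Finset.Ioc 0 N, a m = 0 := by
    intro m hm
    have h1 := ha (fun i => -SA8_z i)
    have h2 : (fun x => b x + ∑ i ∈ Finset.Ioc 0 N, -SA8_z i * SA8_B b i x) =
        SA8_T b N 0 := by
      funext x
      unfold SA8_T
      rw [sub_eq_add_neg, ← Finset.sum_neg_distrib]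
      congr 1
      exact Finset.sum_congr rfl fun i _ => by ring
    rw [h2] at h1
    have h3 : dle 0 (MvPolynomial.aeval (SA8_T b N 0) (D k)) := by
      have h4 := dle_aeval (n := 0) le_rfl (δ := SA8_T b N 0)
        (fun x => by have := SA8_T_dle (n := 0) hbN x; simpa using this)
        (hD.deg k (by omega))
      rw [zero_mul] at h4
      exact h4
    rw [Finset.mem_Ioc] at hm
    have h5 := h3 (-(m : ℤ)) (by omega)
    rw [h1, HahnSeries.coeff_add, SA8_coeff_sum] at h5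
    have h6 : (algebraMap ℂ LF (e k)).coeff (-(m : ℤ)) = 0 := dle_const (e k) _ (by omega)
    rw [h6, zero_add, Finset.sum_eq_single m] at h5
    · rw [coeff_const_mul, HahnSeries.coeff_neg] at h5
      unfold SA8_z at h5
      rw [HahnSeries.coeff_single_same] at h5
      linear_combination -h5
    · intro i _ hi
      rw [coeff_const_mul, HahnSeries.coeff_neg]
      unfold SA8_z
      rw [HahnSeries.coeff_single_of_ne (by omega)]
      simp
    · intro hm'
      exact absurd (Finset.mem_Ioc.2 hm) hm'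
  have h1 := ha (fun i => if i = n then w else 0)
  have hmem : n ∈ Finset.Ioc 0 N := Finset.mem_Ioc.2 ⟨by omega, hnN⟩
  rw [Finset.sum_eq_zero (s := Finset.Ioc 0 N)
    (f := fun i => algebraMap ℂ LF (a i) * (if i = n then w else 0))
    (fun i hi => by rw [ha0 i hi, map_zero, zero_mul]), add_zero] at h1
  rw [← h1]
  congr 2
  funext x
  congr 1
  rw [Finset.sum_eq_single n]
  · rw [if_pos rfl]; rfl
  · intro i _ hi
    rw [if_neg hi, zero_mul]
  · intro h
    exact absurd hmem h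

end Pool.Agent.Lib.MP_8ce23f_nt.RR
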