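import Pool.Agent.Lib.MP_8ce23f_nt.RR.SDefs
import Pool.Agent.Lib.MP_8ce23f_nt.RR.NDefs

/-!
# Exponentials with polynomial coefficients

Leaf SE0 of the table `srl`.  Mathlib only (`ex c = exp (c x)` as a power series, see `NDefs`).

`exp_poly`: induction on `∑_{i ∈ s, p i ≠ 0} (natDegree (p i) + 1)`: if some `p i₀ ≠ 0`, multiply the relation by `ex (-c i₀)`
(`ex (c + d) = ex c * ex d`, see `PowerSeries.exp_mul_exp_eq_exp_add`) and differentiate:
`∑ (p i' + (c i - c i₀) p i) ex (c i - c i₀) = 0`; the polynomial at `i₀` becomes `p i₀'` (degree drops, or `0`), the others keep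
their degree (`c i ≠ c i₀`).  `exp_poly_indep`: expand `F j = ∑ coeff a (F j) X^a`; `∏ ex (θ k)^(a k) = ex (∑ a k θ k)`, and the numbers
`∑ a_k θ_k`, `a ∈ ℕ^m`, are pairwise distinct (linear independence over `ℚ`).  `exists_alg_indep`: choose
`θ : Fin d → ℂ` linearly independent over `ℚ` (`Module.rank ℚ ℂ` is infinite); `X 0 ↦ single (-1) 1`, `X (k+1) ↦ ex (θ k)` (as a
Laurent series); if `σ p = 0` multiply by `single M 1` with `M` the degree in `X 0` and reverse the powers of `X 0`.
-/

namespace Pool.Agent.Lib.MP_8ce23f_nt.RR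

open PowerSeries

private noncomputable def SE0_wt (q : Polynomial ℂ) : ℕ :=
  letI := Classical.dec (q = 0)
  if q = 0 then 0 else q.natDegree + 1

private theorem SE0_wt_mono {a b : Polynomial ℂ} (h : a.degree ≤ b.degree) :
    SE0_wt a ≤ SE0_wt b := by
  unfold SE0_wt
  by_cases ha : a = 0
  · rw [if_pos ha]; exact Nat.zero_le _
  · have hb : b ≠ 0 := by
      rintro rfl
      rw [Polynomial.degree_zero, le_bot_iff, Polynomial.degree_eq_bot] at h
      exact ha h
    rw [if_neg ha, if_neg hb]
    exact Nat.add_le_add_right (Polynomial.natDegree_le_natDegree h) 1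

private theorem SE0_wt_lt {a b : Polynomial ℂ} (h : a.degree < b.degree) :
    SE0_wt a < SE0_wt b := by
  unfold SE0_wt
  have hb : b ≠ 0 := by
    rintro rfl
    rw [Polynomial.degree_zero] at h
    exact absurd h not_lt_bot
  rw [if_neg hb]
  by_cases ha : a = 0
  · rw [if_pos ha]; exact Nat.succ_pos _
  · rw [if_neg ha]
    exact Nat.add_lt_add_right (Polynomial.natDegree_lt_natDegree ha h) 1

private theorem SE0_ex_add (a b : ℂ) : ex a * ex b = ex (a + b) :=
  PowerSeries.exp_mul_exp_eq_exp_add a b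

private theorem SE0_ex_zero : ex (0 : ℂ) = 1 := by
  unfold ex
  rw [PowerSeries.rescale_zero_apply]
  have : PowerSeries.constantCoeff (PowerSeries.exp ℂ) = 1 := by
    rw [← PowerSeries.coeff_zero_eq_constantCoeff_apply, PowerSeries.coeff_exp]
    simp
  rw [this, map_one]

private theorem SE0_ex_der (c : ℂ) :
    PowerSeries.derivative ℂ (ex c) = PowerSeries.C c * ex c := by
  ext n
  rw [PowerSeries.coeff_derivative, PowerSeries.coeff_C_mul]
  unfold ex
  rw [PowerSeries.coeff_rescale, PowerSeries.coeff_rescale, PowerSeries.coeff_exp,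
    PowerSeries.coeff_exp, Nat.factorial_succ]
  have h1 : ((n : ℂ) + 1) ≠ 0 := by exact_mod_cast Nat.succ_ne_zero n
  have h2 : ((n.factorial : ℕ) : ℂ) ≠ 0 := by exact_mod_cast Nat.factorial_ne_zero n
  push_cast
  field_simp
  rw [pow_succ, mul_comm]

private theorem SE0_ex_pow (c : ℂ) (k : ℕ) : ex c ^ k = ex ((k : ℂ) * c) := by
  induction k with
  | zero => rw [pow_zero, Nat.cast_zero, zero_mul, SE0_ex_zero]
  | succ k ih =>
    rw [pow_succ, ih, SE0_ex_add]
    congr 1
    push_cast
    ring

private theorem SE0_ex_prod {m : ℕ} (t : Finset (Fin m)) (f : Fin m → ℂ) :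
    ∏ k ∈ t, ex (f k) = ex (∑ k ∈ t, f k) := by
  classical
  induction t using Finset.induction_on with
  | empty => rw [Finset.prod_empty, Finset.sum_empty, SE0_ex_zero]
  | insert a t ha ih => rw [Finset.prod_insert ha, Finset.sum_insert ha, ih, SE0_ex_add]

private theorem SE0_aux {ι : Type} (s : Finset ι) (N : ℕ) : ∀ (c : ι → ℂ)
    (_ : ∀ i ∈ s, ∀ j ∈ s, c i = c j → i = j) (p : ι → Polynomial ℂ)
    (_ : ∑ i ∈ s, SE0_wt (p i) ≤ N)
    (_ : ∑ i ∈ s, (p i : PowerSeries ℂ) * ex (c i) = 0), ∀ i ∈ s, p i = 0 := by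
  classical
  induction N with
  | zero =>
    intro c hc p hp _ i hi
    have h1 : SE0_wt (p i) = 0 := by
      have := Finset.single_le_sum (f := fun i => SE0_wt (p i)) (fun j _ => Nat.zero_le _) hi
      omega
    unfold SE0_wt at h1
    by_contra hne
    rw [if_neg hne] at h1
    omega
  | succ N ih =>
    intro c hc p hp h i hi
    by_contra hne
    -- multiply by `ex (-c i)` and differentiate
    have h2 : ∑ k ∈ s, (p k : PowerSeries ℂ) * ex (c k - c i) = 0 := by
      have := congrArg (fun f => f * ex (-c i)) h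
      simp only [zero_mul, Finset.sum_mul] at this
      rw [← this]
      apply Finset.sum_congr rfl
      intro k _
      rw [mul_assoc, SE0_ex_add, sub_eq_add_neg]
    set p' : ι → Polynomial ℂ := fun k =>
      Polynomial.derivative (p k) + Polynomial.C (c k - c i) * p k with hp'
    have h3 : ∑ k ∈ s, (p' k : PowerSeries ℂ) * ex (c k - c i) = 0 := by
      have := congrArg (PowerSeries.derivative ℂ) h2
      rw [map_zero, map_sum] at this
      rw [← this]
      apply Finset.sum_congr rfl
      intro k _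
      rw [Derivation.leibniz, SE0_ex_der, PowerSeries.derivative_coe, smul_eq_mul, smul_eq_mul,
        hp']
      simp only [Polynomial.coe_add, Polynomial.coe_mul, Polynomial.coe_C]
      ring
    have hdeg : ∀ k ∈ s, SE0_wt (p' k) ≤ SE0_wt (p k) := by
      intro k _
      apply SE0_wt_mono
      refine (Polynomial.degree_add_le _ _).trans (max_le Polynomial.degree_derivative_le ?_)
      rw [Polynomial.C_mul']
      exact Polynomial.degree_smul_le _ _
    have hlt : SE0_wt (p' i) < SE0_wt (p i) := by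
      apply SE0_wt_lt
      rw [hp']
      simp only [sub_self, Polynomial.C_0, zero_mul, add_zero]
      exact Polynomial.degree_derivative_lt hne
    have hsum : ∑ k ∈ s, SE0_wt (p' k) ≤ N := by
      have : ∑ k ∈ s, SE0_wt (p' k) < ∑ k ∈ s, SE0_wt (p k) :=
        Finset.sum_lt_sum hdeg ⟨i, hi, hlt⟩
      omega
    have hall := ih (fun k => c k - c i) (fun a ha b hb hab => hc a ha b hb (by
      have : c a - c i = c b - c i := hab
      exact sub_left_injective this)) p' hsum h3
    have hz : ∀ k ∈ s, k ≠ i → p k = 0 := by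
      intro k hk hki
      by_contra hk0
      have e1 := hall k hk
      have hd : c k - c i ≠ 0 := fun hd => hki (hc k hk i hi (sub_eq_zero.1 hd))
      have e2 : Polynomial.C (c k - c i) * p k = -Polynomial.derivative (p k) := by
        rw [hp'] at e1
        exact eq_neg_of_add_eq_zero_right e1
      have e3 := Polynomial.degree_derivative_lt hk0
      have e4 : (Polynomial.C (c k - c i) * p k).degree = (p k).degree :=
        Polynomial.degree_C_mul hd
      rw [e2, Polynomial.degree_neg] at e4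
      exact absurd e4 e3.ne
    rw [Finset.sum_eq_single_of_mem i hi (fun k hk hki => by
      rw [hz k hk hki, Polynomial.coe_zero, zero_mul]), sub_self, SE0_ex_zero, mul_one] at h2
    exact hne (Polynomial.coe_injective ℂ (by rw [h2, Polynomial.coe_zero]))

private theorem SE0_algebraMap_LF (c : ℂ) : algebraMap ℂ LF c = HahnSeries.C c := by
  rw [HahnSeries.algebraMap_apply']
  rw [PowerSeries.algebraMap_apply, Algebra.algebraMap_self, RingHom.id_apply,
    HahnSeries.ofPowerSeries_C]

private noncomputable def SE0_psAlg : PowerSeries ℂ →ₐ[ℂ] LF :=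
  { HahnSeries.ofPowerSeries ℤ ℂ with
    commutes' := fun c => by
      rw [SE0_algebraMap_LF]
      show HahnSeries.ofPowerSeries ℤ ℂ (algebraMap ℂ (PowerSeries ℂ) c) = _
      rw [PowerSeries.algebraMap_apply, Algebra.algebraMap_self, RingHom.id_apply,
        HahnSeries.ofPowerSeries_C] }

private theorem SE0_psAlg_apply (f : PowerSeries ℂ) :
    SE0_psAlg f = HahnSeries.ofPowerSeries ℤ ℂ f := rfl

private theorem SE0_exists_theta (d : ℕ) : ∃ θ : Fin d → ℂ, LinearIndependent ℚ θ := by
  have h : (d : Cardinal) ≤ Module.rank ℚ ℂ := by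
    rw [Complex.rank_rat_complex]
    exact (Cardinal.natCast_lt_aleph0.trans Cardinal.aleph0_lt_continuum).le
  obtain ⟨s, hs, hl⟩ := le_rank_iff_exists_linearIndependent_finset.1 h
  exact ⟨fun k => ((s.equivFinOfCardEq hs).symm k : ℂ),
    hl.comp (fun k => (s.equivFinOfCardEq hs).symm k) (s.equivFinOfCardEq hs).symm.injective⟩

theorem exp_poly {ι : Type} (s : Finset ι) (c : ι → ℂ)
    (hc : ∀ i ∈ s, ∀ j ∈ s, c i = c j → i = j) (p : ι → Polynomial ℂ)
    (h : ∑ i ∈ s, (p i : PowerSeries ℂ) * ex (c i) = 0) (i : ι) (hi : i ∈ s) : p i = 0 := by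
  exact SE0_aux s _ c hc p le_rfl h i hi

theorem exp_poly_indep {m : ℕ} {θ : Fin m → ℂ} (hθ : LinearIndependent ℚ θ) (n : ℕ) (F : ℕ → P m)
    (h : ∑ j ∈ Finset.range n, X ^ j * MvPolynomial.aeval (fun k => ex (θ k)) (F j) =
      (0 : PowerSeries ℂ)) (j : ℕ) (hj : j < n) : F j = 0 := by
  classical
  set s : Finset (Fin m →₀ ℕ) := (Finset.range n).biUnion fun j => (F j).support with hs
  set c : (Fin m →₀ ℕ) → ℂ := fun a => ∑ k, (a k : ℂ) * θ k with hc
  set p : (Fin m →₀ ℕ) → Polynomial ℂ := fun a =>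
    ∑ j ∈ Finset.range n, Polynomial.C (MvPolynomial.coeff a (F j)) * Polynomial.X ^ j with hp
  have hinj : ∀ a ∈ s, ∀ b ∈ s, c a = c b → a = b := by
    intro a _ b _ hab
    have h1 : ∑ k, (((a k : ℚ) - (b k : ℚ))) • θ k = 0 := by
      have : ∑ k, ((a k : ℂ) * θ k - (b k : ℂ) * θ k) = 0 := by
        rw [Finset.sum_sub_distrib]
        exact sub_eq_zero.2 hab
      rw [← this]
      apply Finset.sum_congr rfl
      intro k _
      rw [Algebra.smul_def]
      simp only [map_sub, map_natCast]
      ring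
    ext k
    have h2 := Fintype.linearIndependent_iff.1 hθ (fun k => (a k : ℚ) - (b k : ℚ)) h1 k
    have h3 : (a k : ℚ) = (b k : ℚ) := sub_eq_zero.1 h2
    exact_mod_cast h3
  have hae : ∀ j ∈ Finset.range n, MvPolynomial.aeval (fun k => ex (θ k)) (F j) =
      ∑ a ∈ s, PowerSeries.C (MvPolynomial.coeff a (F j)) * ex (c a) := by
    intro j hj
    rw [MvPolynomial.aeval_def, MvPolynomial.eval₂_eq']
    have hsub : (F j).support ⊆ s := fun a ha => Finset.mem_biUnion.2 ⟨j, hj, ha⟩
    rw [← Finset.sum_subset hsub (fun a _ ha => by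
      rw [MvPolynomial.notMem_support_iff.1 ha, map_zero, zero_mul])]
    apply Finset.sum_congr rfl
    intro a _
    have e1 : algebraMap ℂ (PowerSeries ℂ) (MvPolynomial.coeff a (F j)) =
        PowerSeries.C (MvPolynomial.coeff a (F j)) := by
      rw [PowerSeries.algebraMap_apply, Algebra.algebraMap_self, RingHom.id_apply]
    have e2 : ∏ k, ex (θ k) ^ a k = ex (c a) := by
      rw [← SE0_ex_prod]
      apply Finset.prod_congr rfl
      intro k _
      rw [SE0_ex_pow]
    rw [e1, e2]
  have hrel : ∑ a ∈ s, (p a : PowerSeries ℂ) * ex (c a) = 0 := by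
    rw [← h]
    have e1 : ∀ a ∈ s, (p a : PowerSeries ℂ) * ex (c a) = ∑ j ∈ Finset.range n,
        (X : PowerSeries ℂ) ^ j * (PowerSeries.C (MvPolynomial.coeff a (F j)) * ex (c a)) := by
      intro a _
      have e2 : (p a : PowerSeries ℂ) = ∑ j ∈ Finset.range n,
          PowerSeries.C (MvPolynomial.coeff a (F j)) * (X : PowerSeries ℂ) ^ j := by
        rw [hp]
        have := map_sum (Polynomial.coeToPowerSeries.ringHom (R := ℂ))
          (fun j => Polynomial.C (MvPolynomial.coeff a (F j)) * Polynomial.X ^ j)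
          (Finset.range n)
        simp only [Polynomial.coeToPowerSeries.ringHom_apply, Polynomial.coe_mul,
          Polynomial.coe_pow, Polynomial.coe_C, Polynomial.coe_X] at this
        exact this
      rw [e2, Finset.sum_mul]
      apply Finset.sum_congr rfl
      intro j _
      ring
    rw [Finset.sum_congr rfl e1, Finset.sum_comm]
    apply Finset.sum_congr rfl
    intro j hj
    rw [← Finset.mul_sum, hae j hj]
  have hz := exp_poly s c hinj p hrel
  ext a
  rw [MvPolynomial.coeff_zero]
  by_cases ha : a ∈ s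
  · have h1 := congrArg (fun q => Polynomial.coeff q j) (hz a ha)
    rw [hp] at h1
    simp only [Polynomial.finsetSum_coeff, Polynomial.coeff_C_mul, Polynomial.coeff_X_pow,
      Polynomial.coeff_zero, mul_ite, mul_one, mul_zero] at h1
    rw [Finset.sum_ite_eq, if_pos (Finset.mem_range.2 hj)] at h1
    exact h1
  · by_contra hne
    exact ha (Finset.mem_biUnion.2 ⟨j, Finset.mem_range.2 hj, MvPolynomial.mem_support_iff.2 hne⟩)

theorem exists_alg_indep (d : ℕ) : ∃ σ : MvPolynomial (Fin (d + 1)) ℂ →ₐ[ℂ] LF,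
    Function.Injective σ ∧ σ (MvPolynomial.X 0) = HahnSeries.single (-1) 1 := by
  obtain ⟨θ, hθ⟩ := SE0_exists_theta d
  set g : P d →ₐ[ℂ] LF := SE0_psAlg.comp (MvPolynomial.aeval (fun k => ex (θ k))) with hg
  set x : LF := HahnSeries.single (-1) 1 with hx
  set σ : MvPolynomial (Fin (d + 1)) ℂ →ₐ[ℂ] LF :=
    { (Polynomial.eval₂RingHom (g : P d →+* LF) x).comp
        (MvPolynomial.finSuccEquiv ℂ d : MvPolynomial (Fin (d + 1)) ℂ →+* _) with
      commutes' := fun c => by
        show Polynomial.eval₂ (g : P d →+* LF) x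
          (MvPolynomial.finSuccEquiv ℂ d (algebraMap ℂ _ c)) = _
        rw [AlgEquiv.commutes, Polynomial.algebraMap_apply, Polynomial.eval₂_C]
        exact g.commutes c } with hσ
  have hσa : ∀ p, σ p = Polynomial.eval₂ (g : P d →+* LF) x (MvPolynomial.finSuccEquiv ℂ d p) :=
    fun p => rfl
  refine ⟨σ, ?_, ?_⟩
  · rw [injective_iff_map_eq_zero]
    intro p hp
    rw [hσa] at hp
    set Q := MvPolynomial.finSuccEquiv ℂ d p with hQ
    set M := Q.natDegree with hM
    rw [Polynomial.eval₂_eq_sum_range] at hp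
    have hmul : ∀ j ∈ Finset.range (M + 1), (HahnSeries.single (M : ℤ) (1 : ℂ) : LF) *
        ((g : P d →+* LF) (Q.coeff j) * x ^ j) =
        HahnSeries.ofPowerSeries ℤ ℂ ((X : PowerSeries ℂ) ^ (M - j) *
          MvPolynomial.aeval (fun k => ex (θ k)) (Q.coeff j)) := by
      intro j hj
      have hjM : j ≤ M := Nat.lt_succ_iff.1 (Finset.mem_range.1 hj)
      have e1 : (g : P d →+* LF) (Q.coeff j) = HahnSeries.ofPowerSeries ℤ ℂ
          (MvPolynomial.aeval (fun k => ex (θ k)) (Q.coeff j)) := rfl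
      have e2 : x ^ j = HahnSeries.single (-(j : ℤ)) (1 : ℂ) := by
        rw [hx, HahnSeries.single_pow, one_pow]
        congr 1
        simp
      have e3 : (HahnSeries.single (M : ℤ) (1 : ℂ) : LF) * HahnSeries.single (-(j : ℤ)) (1 : ℂ) =
          HahnSeries.ofPowerSeries ℤ ℂ ((X : PowerSeries ℂ) ^ (M - j)) := by
        have e4 : (M : ℤ) + -(j : ℤ) = ((M - j : ℕ) : ℤ) := by
          rw [Nat.cast_sub hjM]
          ring
        rw [HahnSeries.single_mul_single, HahnSeries.ofPowerSeries_X_pow, one_mul, e4]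
      rw [e1, e2, map_mul, ← e3, mul_assoc]
      congr 1
      exact mul_comm _ _
    have h0 : HahnSeries.ofPowerSeries ℤ ℂ (∑ j ∈ Finset.range (M + 1),
        (X : PowerSeries ℂ) ^ (M - j) *
          MvPolynomial.aeval (fun k => ex (θ k)) (Q.coeff j)) = 0 := by
      rw [map_sum, ← Finset.sum_congr rfl hmul, ← Finset.mul_sum, hp, mul_zero]
    have h1 : ∑ j ∈ Finset.range (M + 1), (X : PowerSeries ℂ) ^ (M - j) *
        MvPolynomial.aeval (fun k => ex (θ k)) (Q.coeff j) = 0 :=
      HahnSeries.ofPowerSeries_injective (Γ := ℤ) (by rw [h0, map_zero])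
    have h2 : ∑ j ∈ Finset.range (M + 1), (X : PowerSeries ℂ) ^ j *
        MvPolynomial.aeval (fun k => ex (θ k)) (Q.coeff (M - j)) = 0 := by
      rw [← h1, ← Finset.sum_range_reflect]
      apply Finset.sum_congr rfl
      intro j hj
      have hjM : j ≤ M := Nat.lt_succ_iff.1 (Finset.mem_range.1 hj)
      have e1 : M + 1 - 1 - j = M - j := by omega
      have e2 : M - (M - j) = j := by omega
      rw [e1, e2]
    have h3 := exp_poly_indep hθ (M + 1) (fun j => Q.coeff (M - j)) h2 0 (Nat.succ_pos M)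
    have h4 : Q.leadingCoeff = 0 := by
      simp only [Nat.sub_zero] at h3
      exact h3
    have h5 : Q = 0 := Polynomial.leadingCoeff_eq_zero.1 h4
    exact (MvPolynomial.finSuccEquiv ℂ d).injective (by rw [← hQ, h5, map_zero])
  · rw [hσa, MvPolynomial.finSuccEquiv_X_zero, Polynomial.eval₂_X]

end Pool.Agent.Lib.MP_8ce23f_nt.RR
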