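import Pool.Agent.Lib.MP_8ce23f_nt.RR.SE3
import Pool.Agent.Lib.MP_8ce23f_nt.RR.SE0

/-!
# Existence of generic arcs

Leaf SE2 of the table `srl`.  It uses the statements of `extend_arc` (SE3) and `exists_alg_indep` (SE0).

`t` is not a constant, so it is transcendental over `ℂ` (`ℂ` algebraically closed, `R` a domain).  Let `G` be a finite
set of generators of `R`; there is a transcendence basis `x` of `R` over `ℂ` between `{t}` and `{t} ∪ G`
(`exists_isTranscendenceBasis_between`), so it is finite, `x : Fin (d+1) → R` with `x 0 = t` (reindex).  `P₀ = MvPolynomial (Fin (d+1)) ℂ`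
with `(MvPolynomial.aeval x).toAlgebra`; injective (algebraic independence), `R` algebraic over it
(`IsTranscendenceBasis.isAlgebraic`, through `Algebra.adjoin ℂ (range x)`).  Apply `extend_arc` with `σ` from `exists_alg_indep d`.
-/

namespace Pool.Agent.Lib.MP_8ce23f_nt.RR

private theorem SE2_transc {R : Type} [CommRing R] [IsDomain R] [Algebra ℂ R] {t : R}
    (ht : ∀ c : ℂ, t ≠ algebraMap ℂ R c) : Transcendental ℂ t := by
  intro h
  have h1 : IsIntegral ℂ t := h.isIntegral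
  have h2 : Irreducible (minpoly ℂ t) := minpoly.irreducible h1
  obtain ⟨c, hc⟩ := minpoly.mem_range_of_degree_eq_one ℂ t (IsAlgClosed.degree_eq_one_of_irreducible ℂ h2)
  exact ht c hc.symm

private theorem SE2_basis {R : Type} [CommRing R] [IsDomain R] [Algebra ℂ R] [Algebra.FiniteType ℂ R]
    {t : R} (ht : Transcendental ℂ t) :
    ∃ (d : ℕ) (x : Fin (d + 1) → R), x 0 = t ∧ AlgebraicIndependent ℂ x ∧
      Algebra.IsAlgebraic (Algebra.adjoin ℂ (Set.range x)) R := by
  obtain ⟨G, hG⟩ := (Algebra.FiniteType.out : (⊤ : Subalgebra ℂ R).FG)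
  have h0 : Algebra.adjoin ℂ (insert t (G : Set R)) = ⊤ := by
    rw [eq_top_iff, ← hG]
    exact Algebra.adjoin_mono (Set.subset_insert _ _)
  have h1 : Algebra.IsAlgebraic (Algebra.adjoin ℂ (insert t (G : Set R))) R := by
    refine ⟨fun a => ?_⟩
    exact isAlgebraic_algebraMap (A := R)
      (⟨a, by rw [h0]; exact Algebra.mem_top⟩ : Algebra.adjoin ℂ (insert t (G : Set R)))
  have h2 : AlgebraicIndepOn ℂ id ({t} : Set R) :=
    algebraicIndependent_unique_type_iff.2 ht
  obtain ⟨u, u1, u2, u3⟩ := exists_isTranscendenceBasis_between ({t} : Set R) (insert t (G : Set R))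
    (Set.singleton_subset_iff.2 (Set.mem_insert _ _)) h2
  have hfin : u.Finite := (G.finite_toSet.insert t).subset u2
  have : Fintype u := hfin.fintype
  have htu : t ∈ u := u1 rfl
  obtain ⟨d, hd⟩ : ∃ d, Fintype.card u = d + 1 :=
    Nat.exists_eq_succ_of_ne_zero (Fintype.card_pos_iff.2 ⟨⟨t, htu⟩⟩).ne'
  let e0 : u ≃ Fin (d + 1) := Fintype.equivFinOfCardEq hd
  let e : Fin (d + 1) ≃ u := (e0.trans (Equiv.swap (e0 ⟨t, htu⟩) 0)).symm
  have he0 : e 0 = ⟨t, htu⟩ := by
    rw [Equiv.symm_apply_eq, Equiv.trans_apply, Equiv.swap_apply_left]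
  have hr : Set.range (fun i => (e i : R)) = Set.range ((↑) : u → R) :=
    e.surjective.range_comp (fun i : u => (i : R))
  refine ⟨d, fun i => (e i : R), ?_, u3.1.comp e e.injective, ?_⟩
  · show (e 0 : R) = t
    rw [he0]
  · rw [hr]
    exact u3.isAlgebraic

theorem exists_arc {R : Type} [CommRing R] [IsDomain R] [Algebra ℂ R] [Algebra.FiniteType ℂ R]
    {t : R} (ht : ∀ c : ℂ, t ≠ algebraMap ℂ R c) :
    ∃ ι : R →ₐ[ℂ] LF, Function.Injective ι ∧ ∃ n : ℕ, 1 ≤ n ∧ (ι t).coeff (-(n : ℤ)) ≠ 0 := by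
  obtain ⟨d, x, hx0, hx, halg⟩ := SE2_basis (SE2_transc ht)
  obtain ⟨σ, hσ, hσ0⟩ := exists_alg_indep d
  let _ : Algebra (MvPolynomial (Fin (d + 1)) ℂ) R := (MvPolynomial.aeval x).toRingHom.toAlgebra
  have hmap : ∀ p : MvPolynomial (Fin (d + 1)) ℂ,
      algebraMap (MvPolynomial (Fin (d + 1)) ℂ) R p = MvPolynomial.aeval x p := fun _ => rfl
  have : IsScalarTower ℂ (MvPolynomial (Fin (d + 1)) ℂ) R := IsScalarTower.of_algebraMap_eq fun c => by
    rw [hmap, AlgHom.commutes]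
  have : Algebra.IsAlgebraic (MvPolynomial (Fin (d + 1)) ℂ) R :=
    Algebra.IsAlgebraic.of_ringHom_of_comp_eq (S := Algebra.adjoin ℂ (Set.range x)) (B := R)
      (hx.aevalEquiv : MvPolynomial (Fin (d + 1)) ℂ →+* Algebra.adjoin ℂ (Set.range x)) (RingHom.id R)
      hx.aevalEquiv.surjective Function.injective_id
      (RingHom.ext fun p => hx.algebraMap_aevalEquiv p)
  obtain ⟨ι, h1, n, h2, h3⟩ := extend_arc (P₀ := MvPolynomial (Fin (d + 1)) ℂ) (R := R)
    hx σ hσ (MvPolynomial.X 0) hσ0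
  refine ⟨ι, h1, n, h2, ?_⟩
  rw [hmap, MvPolynomial.aeval_X, hx0] at h3
  exact h3

end Pool.Agent.Lib.MP_8ce23f_nt.RR
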