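import Pool.Agent.Lib.MP_8ce23f_nt.RR.SA8
import Pool.Agent.Lib.MP_8ce23f_nt.RR.SE2

/-!
# The components of the solution set are affine subspaces

Leaf SB1 of the table `srl`.  It uses the statements of `arc_pol` (SA8) and `exists_arc` (SE2).

`stab`: let `b i = ι (mk (X i))`, `β = ` the coefficient vector at `-n`; `aeval b f = ι (mk f)`, so `aeval b (D k) = e k` for `k ≥ 2`.
By `arc_pol`, `aeval (b + w β) (D k) = e k` for all `w`.  Let `𝔭'` be the kernel of the homomorphism `P r → Polynomial LF`,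
`X i ↦ C (b i) + C (β i) * X`: a prime ideal (`Polynomial LF` is a domain) which contains `eqs D e` (a polynomial with infinitely many zeros is `0`)
and is contained in `𝔭` (put `X = 0`; `ι` is injective).  As `𝔭` is minimal, `𝔭 ≤ 𝔭'`.  So for `f ∈ 𝔭`, `c : ℂ`:
`ι (mk (shift f)) = aeval (b + c β) f = 0`, so the shifted `f` is in `𝔭`.

`exists_affine`: `J = Ideal.span (eqs D e)`.  The zero set is the union over the (finitely many, `Ideal.finite_minimalPrimes_of_isNoetherianRing`)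
minimal primes `𝔭` of `J` of `Z(𝔭) = {y | ∀ f ∈ 𝔭, eval y f = 0}` (`y` in the zero set: the kernel of `eval y` is prime and contains `J`,
so it contains a minimal prime).  Let `W = {v | ∀ c : ℂ, ∀ f ∈ 𝔭, f(X + c v) ∈ 𝔭}`, a subspace.  CLAIM: if the linear form
`λ(y) = ∑ λ_i y_i` vanishes on `W` then `∑ λ_i X_i - c ∈ 𝔭` for a constant `c`: otherwise `t = mk (∑ λ_i X_i)` is not a constant, take `ι` from
`exists_arc` for `R = P r ⧸ 𝔭`; every coefficient vector of `b` at `-n`, `n ≥ 1`, is in `W` by `stab`, so `(ι t).coeff (-n) = λ(cof) = 0`,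
a contradiction.  Hence for `y, y'` in `Z(𝔭)` every such `λ` vanishes on `y' - y`, so `y' - y ∈ W`
(`Submodule.exists_le_ker_of_notMem`); and `Z(𝔭) + W ⊆ Z(𝔭)`.  So `Z(𝔭)` is empty or `y + W`.
-/

namespace Pool.Agent.Lib.MP_8ce23f_nt.RR

variable {r : ℕ}

/-- The translated polynomial. -/
private noncomputable def SB1_shift (v : Fin r → ℂ) : P r →ₐ[ℂ] P r :=
  MvPolynomial.aeval fun i => (MvPolynomial.X i + MvPolynomial.C (v i) : P r)

private lemma SB1_shift_X (v : Fin r → ℂ) (i : Fin r) :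
    SB1_shift v (MvPolynomial.X i) = (MvPolynomial.X i + MvPolynomial.C (v i) : P r) := by
  unfold SB1_shift
  rw [MvPolynomial.aeval_X]

private lemma SB1_shift_C (v : Fin r → ℂ) (c : ℂ) :
    SB1_shift v (MvPolynomial.C c) = (MvPolynomial.C c : P r) := by
  unfold SB1_shift
  rw [MvPolynomial.aeval_C]
  rfl

private lemma SB1_shift_zero (f : P r) : SB1_shift (0 : Fin r → ℂ) f = f := by
  have h : SB1_shift (0 : Fin r → ℂ) = AlgHom.id ℂ (P r) := by
    apply MvPolynomial.algHom_ext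
    intro i
    rw [SB1_shift_X, Pi.zero_apply, map_zero, add_zero]
    rfl
  rw [h]
  rfl

private lemma SB1_shift_add (v w : Fin r → ℂ) (f : P r) :
    SB1_shift (v + w) f = SB1_shift v (SB1_shift w f) := by
  have h : SB1_shift (v + w) = (SB1_shift v).comp (SB1_shift w) := by
    apply MvPolynomial.algHom_ext
    intro i
    rw [AlgHom.comp_apply, SB1_shift_X, SB1_shift_X, map_add, SB1_shift_X, SB1_shift_C,
      Pi.add_apply, map_add, add_assoc]
  rw [h]
  rfl

private lemma SB1_eval_shift (y v : Fin r → ℂ) (f : P r) :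
    MvPolynomial.eval y (SB1_shift v f) = MvPolynomial.eval (y + v) f := by
  induction f using MvPolynomial.induction_on with
  | C c => rw [SB1_shift_C, MvPolynomial.eval_C, MvPolynomial.eval_C]
  | add p q hp hq => rw [map_add, map_add, map_add, hp, hq]
  | mul_X p i hp =>
    rw [map_mul, map_mul, map_mul, hp, SB1_shift_X, map_add, MvPolynomial.eval_X,
      MvPolynomial.eval_X, MvPolynomial.eval_C, Pi.add_apply]

/-- The translations which preserve the ideal. -/
private noncomputable def SB1_W (𝔭 : Ideal (P r)) : Submodule ℂ (Fin r → ℂ) where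
  carrier := {v | ∀ c : ℂ, ∀ f ∈ 𝔭, SB1_shift (c • v) f ∈ 𝔭}
  zero_mem' := by
    intro c f hf
    rw [smul_zero, SB1_shift_zero]
    exact hf
  add_mem' := by
    intro v w hv hw c f hf
    rw [smul_add, SB1_shift_add]
    exact hv c _ (hw c f hf)
  smul_mem' := by
    intro a v hv c f hf
    rw [smul_smul]
    exact hv (c * a) f hf

private lemma SB1_mem_W {𝔭 : Ideal (P r)} {v : Fin r → ℂ} :
    v ∈ SB1_W 𝔭 ↔ ∀ c : ℂ, ∀ f ∈ 𝔭, SB1_shift (c • v) f ∈ 𝔭 := Iff.rfl

private lemma SB1_aeval_mk {𝔭 : Ideal (P r)} (ι : (P r ⧸ 𝔭) →ₐ[ℂ] LF) (f : P r) :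
    MvPolynomial.aeval (fun i => ι (Ideal.Quotient.mk 𝔭 (MvPolynomial.X i))) f =
      ι (Ideal.Quotient.mk 𝔭 f) := by
  have h : MvPolynomial.aeval (fun i => ι (Ideal.Quotient.mk 𝔭 (MvPolynomial.X i))) =
      ι.comp (Ideal.Quotient.mkₐ ℂ 𝔭) := by
    apply MvPolynomial.algHom_ext
    intro i
    rw [MvPolynomial.aeval_X]
    rfl
  rw [h]
  rfl

/-- The line through `b` with direction `β`. -/
private noncomputable def SB1_line (b : Fin r → LF) (β : Fin r → ℂ) : P r →ₐ[ℂ] Polynomial LF :=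
  MvPolynomial.aeval fun i =>
    Polynomial.C (b i) + Polynomial.C (algebraMap ℂ LF (β i)) * Polynomial.X

private lemma SB1_eval_line (b : Fin r → LF) (β : Fin r → ℂ) (w : LF) (f : P r) :
    Polynomial.eval w (SB1_line b β f) =
      MvPolynomial.aeval (fun i => b i + w * algebraMap ℂ LF (β i)) f := by
  induction f using MvPolynomial.induction_on with
  | C c =>
    unfold SB1_line
    rw [MvPolynomial.aeval_C, MvPolynomial.aeval_C, Polynomial.algebraMap_apply, Polynomial.eval_C]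
  | add p q hp hq => rw [map_add, map_add, Polynomial.eval_add, hp, hq]
  | mul_X p i hp =>
    rw [map_mul, map_mul, Polynomial.eval_mul, hp]
    unfold SB1_line
    rw [MvPolynomial.aeval_X, MvPolynomial.aeval_X, Polynomial.eval_add, Polynomial.eval_mul,
      Polynomial.eval_C, Polynomial.eval_C, Polynomial.eval_X, mul_comm w]

private lemma SB1_infinite : Infinite LF :=
  Infinite.of_injective (algebraMap ℂ LF) (algebraMap ℂ LF).injective

theorem stab {D : ℕ → P r} (hD : LD D) {e : ℕ → ℂ} {𝔭 : Ideal (P r)}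
    (h𝔭 : 𝔭 ∈ (Ideal.span (eqs D e)).minimalPrimes) (ι : (P r ⧸ 𝔭) →ₐ[ℂ] LF)
    (hι : Function.Injective ι) {n : ℕ} (hn : 1 ≤ n) {f : P r} (hf : f ∈ 𝔭) (c : ℂ) :
    MvPolynomial.aeval (fun i => (MvPolynomial.X i + MvPolynomial.C (c *
      (ι (Ideal.Quotient.mk 𝔭 (MvPolynomial.X i))).coeff (-(n : ℤ))) : P r)) f ∈ 𝔭 := by
  classical
  have := SB1_infinite
  have hpr : 𝔭.IsPrime := h𝔭.1.1
  set b : Fin r → LF := fun i => ι (Ideal.Quotient.mk 𝔭 (MvPolynomial.X i)) with hb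
  set β : Fin r → ℂ := fun i => (b i).coeff (-(n : ℤ)) with hβ
  have hab : ∀ g : P r, MvPolynomial.aeval b g = ι (Ideal.Quotient.mk 𝔭 g) := SB1_aeval_mk ι
  have hbe : ∀ k, 2 ≤ k → MvPolynomial.aeval b (D k) = algebraMap ℂ LF (e k) := by
    intro k hk
    have h1 : D k - MvPolynomial.C (e k) ∈ 𝔭 := h𝔭.1.2 (Ideal.subset_span ⟨k, hk, rfl⟩)
    have h2 : MvPolynomial.aeval b (D k - MvPolynomial.C (e k)) = 0 := by
      rw [hab, Ideal.Quotient.eq_zero_iff_mem.mpr h1, map_zero]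
    rw [map_sub, MvPolynomial.aeval_C, sub_eq_zero] at h2
    exact h2
  have hprime : (RingHom.ker (SB1_line b β)).IsPrime := RingHom.ker_isPrime _
  have hle : Ideal.span (eqs D e) ≤ RingHom.ker (SB1_line b β) := by
    rw [Ideal.span_le]
    rintro p ⟨k, hk, rfl⟩
    show D k - MvPolynomial.C (e k) ∈ RingHom.ker (SB1_line b β)
    rw [RingHom.mem_ker]
    apply Polynomial.funext
    intro w
    rw [SB1_eval_line, map_sub, MvPolynomial.aeval_C, arc_pol hD hbe hn w k hk, sub_self,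
      Polynomial.eval_zero]
  have hle2 : RingHom.ker (SB1_line b β) ≤ 𝔭 := by
    intro p hp
    rw [RingHom.mem_ker] at hp
    have h1 := SB1_eval_line b β 0 p
    rw [hp, Polynomial.eval_zero] at h1
    have h2 : (fun i => b i + 0 * algebraMap ℂ LF (β i)) = b := by
      funext i
      rw [zero_mul, add_zero]
    rw [h2, hab] at h1
    have h3 : Ideal.Quotient.mk 𝔭 p = 0 := hι (by rw [map_zero]; exact h1.symm)
    exact Ideal.Quotient.eq_zero_iff_mem.mp h3
  have hle3 : 𝔭 ≤ RingHom.ker (SB1_line b β) := h𝔭.2 ⟨hprime, hle⟩ hle2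
  have hf2 : SB1_line b β f = 0 := RingHom.mem_ker.mp (hle3 hf)
  have h4 := SB1_eval_line b β (algebraMap ℂ LF c) f
  rw [hf2, Polynomial.eval_zero] at h4
  have h5 : ι (Ideal.Quotient.mk 𝔭 (MvPolynomial.aeval (fun i => (MvPolynomial.X i +
      MvPolynomial.C (c * β i) : P r)) f)) = 0 := by
    rw [← hab, h4]
    have h6 : (MvPolynomial.aeval b : P r →ₐ[ℂ] LF).comp (MvPolynomial.aeval (fun i => (MvPolynomial.X i +
        MvPolynomial.C (c * β i) : P r))) =
        MvPolynomial.aeval (fun i => b i + algebraMap ℂ LF c * algebraMap ℂ LF (β i)) := by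
      apply MvPolynomial.algHom_ext
      intro i
      rw [AlgHom.comp_apply, MvPolynomial.aeval_X, map_add, MvPolynomial.aeval_X,
        MvPolynomial.aeval_X, MvPolynomial.aeval_C, map_mul]
    exact DFunLike.congr_fun h6 f
  have h7 : Ideal.Quotient.mk 𝔭 (MvPolynomial.aeval (fun i => (MvPolynomial.X i +
      MvPolynomial.C (c * β i) : P r)) f) = 0 := hι (by rw [map_zero]; exact h5)
  exact Ideal.Quotient.eq_zero_iff_mem.mp h7

/-- The zero set of an ideal. -/
private def SB1_Z (𝔭 : Ideal (P r)) : Set (Fin r → ℂ) := {y | ∀ f ∈ 𝔭, MvPolynomial.eval y f = 0}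

private lemma SB1_coeff_sum (a : Fin r → ℂ) (g : Fin r → LF) (m : ℤ) :
    (∑ i, algebraMap ℂ LF (a i) * g i).coeff m = ∑ i, a i * (g i).coeff m := by
  rw [HahnSeries.coeff_sum]
  exact Finset.sum_congr rfl fun i _ => coeff_const_mul _ _ _

private lemma SB1_form {D : ℕ → P r} (hD : LD D) {e : ℕ → ℂ} {𝔭 : Ideal (P r)}
    (h𝔭 : 𝔭 ∈ (Ideal.span (eqs D e)).minimalPrimes) (lam : (Fin r → ℂ) →ₗ[ℂ] ℂ)
    (hl : SB1_W 𝔭 ≤ LinearMap.ker lam) {y y' : Fin r → ℂ} (hy : y ∈ SB1_Z 𝔭) (hy' : y' ∈ SB1_Z 𝔭) :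
    lam (y' - y) = 0 := by
  classical
  have hpr : 𝔭.IsPrime := h𝔭.1.1
  have : Algebra.FiniteType ℂ (P r ⧸ 𝔭) :=
    Algebra.FiniteType.of_surjective (Ideal.Quotient.mkₐ ℂ 𝔭) (Ideal.Quotient.mkₐ_surjective ℂ 𝔭)
  set a : Fin r → ℂ := fun i => lam (Pi.single i 1) with ha
  have hlam : ∀ v : Fin r → ℂ, lam v = ∑ i, a i * v i := by
    intro v
    have h1 : v = ∑ i, v i • (Pi.single i 1 : Fin r → ℂ) := by
      funext j
      rw [Finset.sum_apply, Finset.sum_eq_single j]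
      · simp
      · intro i _ hij
        rw [Pi.smul_apply, Pi.single_eq_of_ne (Ne.symm hij), smul_zero]
      · intro h
        exact absurd (Finset.mem_univ j) h
    conv_lhs => rw [h1]
    rw [map_sum]
    refine Finset.sum_congr rfl fun i _ => ?_
    rw [map_smul, smul_eq_mul, mul_comm]
  set l : P r := ∑ i, MvPolynomial.C (a i) * MvPolynomial.X i with hld
  have heval : ∀ v : Fin r → ℂ, MvPolynomial.eval v l = lam v := by
    intro v
    rw [hld, map_sum, hlam]
    refine Finset.sum_congr rfl fun i _ => ?_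
    rw [map_mul, MvPolynomial.eval_C, MvPolynomial.eval_X]
  have hconst : ∃ c : ℂ, l - MvPolynomial.C c ∈ 𝔭 := by
    by_contra hcon
    push Not at hcon
    have ht : ∀ c : ℂ, Ideal.Quotient.mk 𝔭 l ≠ algebraMap ℂ (P r ⧸ 𝔭) c := by
      intro c hc
      apply hcon c
      rw [← Ideal.Quotient.eq_zero_iff_mem, map_sub, sub_eq_zero]
      exact hc
    obtain ⟨ι, hι, n, hn, hne⟩ := exists_arc ht
    have hβ : (fun i => (ι (Ideal.Quotient.mk 𝔭 (MvPolynomial.X i))).coeff (-(n : ℤ))) ∈ SB1_W 𝔭 := by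
      rw [SB1_mem_W]
      intro c f hf
      exact stab hD h𝔭 ι hι hn hf c
    have h1 := LinearMap.mem_ker.mp (hl hβ)
    rw [hlam] at h1
    apply hne
    rw [← SB1_aeval_mk ι l, hld, map_sum]
    have h2 : ∀ i ∈ (Finset.univ : Finset (Fin r)),
        MvPolynomial.aeval (fun i => ι (Ideal.Quotient.mk 𝔭 (MvPolynomial.X i)))
          (MvPolynomial.C (a i) * MvPolynomial.X i) =
        algebraMap ℂ LF (a i) * ι (Ideal.Quotient.mk 𝔭 (MvPolynomial.X i)) := by
      intro i _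
      rw [map_mul, MvPolynomial.aeval_C, MvPolynomial.aeval_X]
    rw [Finset.sum_congr rfl h2, SB1_coeff_sum]
    exact h1
  obtain ⟨c, hc⟩ := hconst
  have h1 := hy _ hc
  have h2 := hy' _ hc
  rw [map_sub, MvPolynomial.eval_C, heval] at h1 h2
  rw [map_sub]
  linear_combination h2 - h1

private lemma SB1_affine {D : ℕ → P r} (hD : LD D) {e : ℕ → ℂ} {𝔭 : Ideal (P r)}
    (h𝔭 : 𝔭 ∈ (Ideal.span (eqs D e)).minimalPrimes) {y : Fin r → ℂ} (hy : y ∈ SB1_Z 𝔭) :
    ∃ M : AffineSubspace ℂ (Fin r → ℂ), (M : Set (Fin r → ℂ)) = SB1_Z 𝔭 := by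
  refine ⟨AffineSubspace.mk' y (SB1_W 𝔭), ?_⟩
  ext y'
  rw [SetLike.mem_coe, AffineSubspace.mem_mk']
  constructor
  · intro h f hf
    have h1 := (SB1_mem_W.mp h) 1 f hf
    have h2 := hy _ h1
    rw [SB1_eval_shift, one_smul] at h2
    have h3 : y + (y' -ᵥ y) = y' := by
      rw [vsub_eq_sub]
      abel
    rw [h3] at h2
    exact h2
  · intro h
    by_contra hcon
    obtain ⟨lam, hl1, hl2⟩ := Submodule.exists_le_ker_of_notMem hcon
    exact hl1 (SB1_form hD h𝔭 lam hl2 hy h)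

theorem exists_affine {D : ℕ → P r} (hD : LD D) (e : ℕ → ℂ) :
    ∃ T : Set (AffineSubspace ℂ (Fin r → ℂ)), T.Finite ∧
      {y : Fin r → ℂ | ∀ k, 2 ≤ k → MvPolynomial.eval y (D k) = e k} =
        ⋃ M ∈ T, (M : Set (Fin r → ℂ)) := by
  classical
  set J : Ideal (P r) := Ideal.span (eqs D e) with hJ
  have hfin : J.minimalPrimes.Finite := Ideal.finite_minimalPrimes_of_isNoetherianRing (P r) J
  refine ⟨{M | ∃ 𝔭 ∈ J.minimalPrimes, (M : Set (Fin r → ℂ)) = SB1_Z 𝔭}, ?_, ?_⟩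
  · have h1 : ((fun M : AffineSubspace ℂ (Fin r → ℂ) => (M : Set (Fin r → ℂ))) ⁻¹'
        (SB1_Z '' J.minimalPrimes)).Finite := by
      apply Set.Finite.preimage _ (hfin.image _)
      intro M _ M' _ h
      exact SetLike.coe_injective h
    refine h1.subset ?_
    rintro M ⟨𝔭, hp, hM⟩
    exact ⟨𝔭, hp, hM.symm⟩
  · ext y
    rw [Set.mem_ofPred_eq, Set.mem_iUnion₂]
    constructor
    · intro hy
      have hpr : (RingHom.ker (MvPolynomial.eval y : P r →+* ℂ)).IsPrime := RingHom.ker_isPrime _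
      have hle : J ≤ RingHom.ker (MvPolynomial.eval y : P r →+* ℂ) := by
        rw [hJ, Ideal.span_le]
        rintro p ⟨k, hk, rfl⟩
        show D k - MvPolynomial.C (e k) ∈ RingHom.ker (MvPolynomial.eval y : P r →+* ℂ)
        rw [RingHom.mem_ker, map_sub, MvPolynomial.eval_C, hy k hk, sub_self]
      obtain ⟨𝔭, h𝔭, hle2⟩ := Ideal.exists_minimalPrimes_le hle
      have hyZ : y ∈ SB1_Z 𝔭 := fun f hf => RingHom.mem_ker.mp (hle2 hf)
      obtain ⟨M, hM⟩ := SB1_affine hD h𝔭 hyZ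
      exact ⟨M, ⟨𝔭, h𝔭, hM⟩, by rw [hM]; exact hyZ⟩
    · rintro ⟨M, ⟨𝔭, h𝔭, hM⟩, hy⟩ k hk
      rw [hM] at hy
      have h1 : D k - MvPolynomial.C (e k) ∈ 𝔭 := h𝔭.1.2 (Ideal.subset_span ⟨k, hk, rfl⟩)
      have h2 := hy _ h1
      rw [map_sub, MvPolynomial.eval_C, sub_eq_zero] at h2
      exact h2

end Pool.Agent.Lib.MP_8ce23f_nt.RR
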