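import Pool.Agent.Lib.MP_8ce23f_nt.RR.SDefs

/-!
# Extension of homomorphisms (Atiyah-Macdonald 5.23)

Leaf SC0 of the table `srl`.  Mathlib only.

Induction on the number of generators of `B` over `A`: it is enough to treat `B = A[b]`.  If `b` is transcendental over `A`,
`v = a_n b^n + ...` with `a_n ≠ 0`; `u = a_n`; choose `ξ` not a root of the image of `v`.  If `b` is algebraic over (the fraction field of) `A`,
so is `v⁻¹`: `a_m b^m + ... = 0` and `a'_k v^(-k) + ... = 0` with `a_m, a'_k ≠ 0`; `u = a_m a'_k`.  A homomorphism `φ` with `φ u ≠ 0` extends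
to `A[1/u]`; `b` and `v⁻¹` are integral over `A[1/u]`, so it extends to `A[1/u][b, v⁻¹]` by lying over and
`IsAlgClosed.lift`.  (Or Noether normalisation over the fraction field of `A`, `exists_integral_inj_algHom_of_fg`.)
-/

namespace Pool.Agent.Lib.MP_8ce23f_nt.RR

/-- one generator, extension of a homomorphism by a root -/
private lemma sc0_lift {A B : Type} [CommRing A] [CommRing B] [Algebra A B] (b : B)
    (hb : Function.Surjective (Polynomial.aeval (R := A) b)) (φ : A →+* ℂ) (ξ : ℂ)
    (h : ∀ f : Polynomial A, Polynomial.aeval b f = 0 → Polynomial.eval₂ φ ξ f = 0) :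
    ∃ ψ : B →+* ℂ, ψ.comp (algebraMap A B) = φ ∧
      ∀ f : Polynomial A, ψ (Polynomial.aeval b f) = Polynomial.eval₂ φ ξ f := by
  let g : Polynomial A →+* B := (Polynomial.aeval (R := A) b).toRingHom
  have hg : Function.Surjective g := hb
  have hker : RingHom.ker g ≤ RingHom.ker (Polynomial.eval₂RingHom φ ξ) := by
    intro f hf
    rw [RingHom.mem_ker] at hf ⊢
    exact h f hf
  let ψ : B →+* ℂ := RingHom.liftOfSurjective g hg ⟨Polynomial.eval₂RingHom φ ξ, hker⟩
  have hψ : ∀ f : Polynomial A, ψ (Polynomial.aeval b f) = Polynomial.eval₂ φ ξ f := fun f =>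
    RingHom.liftOfRightInverse_comp_apply g _ (Function.rightInverse_surjInv hg)
      ⟨Polynomial.eval₂RingHom φ ξ, hker⟩ f
  refine ⟨ψ, ?_, hψ⟩
  ext a
  have := hψ (Polynomial.C a)
  rw [Polynomial.aeval_C, Polynomial.eval₂_C] at this
  exact this

/-- one generator -/
private lemma sc0_one {A B : Type} [CommRing A] [IsDomain A] [CommRing B] [IsDomain B]
    [Algebra A B] (hinj : Function.Injective (algebraMap A B)) (b : B)
    (hb : Function.Surjective (Polynomial.aeval (R := A) b)) {v : B} (hv : v ≠ 0) :
    ∃ u : A, u ≠ 0 ∧ ∀ φ : A →+* ℂ, φ u ≠ 0 →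
      ∃ ψ : B →+* ℂ, ψ.comp (algebraMap A B) = φ ∧ ψ v ≠ 0 := by
  classical
  by_cases htr : ∃ p : Polynomial A, p ≠ 0 ∧ Polynomial.aeval b p = 0
  · -- the algebraic case: a nonzero relation of minimal degree
    have hex : ∃ n : ℕ, ∃ p : Polynomial A, p ≠ 0 ∧ Polynomial.aeval b p = 0 ∧ p.natDegree = n := by
      obtain ⟨p, hp, hp'⟩ := htr
      exact ⟨_, p, hp, hp', rfl⟩
    obtain ⟨p, hp0, hpb, hpn⟩ := Nat.find_spec hex
    have hmin : ∀ f : Polynomial A, Polynomial.aeval b f = 0 → f.natDegree < p.natDegree → f = 0 := by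
      intro f hf hlt
      by_contra hf0
      rw [hpn] at hlt
      exact Nat.find_min hex hlt ⟨f, hf0, hf, rfl⟩
    have hdeg : p.natDegree ≠ 0 := by
      intro h0
      rw [Polynomial.eq_C_of_natDegree_eq_zero h0, Polynomial.aeval_C] at hpb
      have h1 : p.coeff 0 = 0 := hinj (by rw [hpb, map_zero])
      apply hp0
      rw [Polynomial.eq_C_of_natDegree_eq_zero h0, h1, map_zero]
    -- every element of `B` is algebraic
    have halg : IsAlgebraic A v := by
      have hbalg : IsAlgebraic A b := ⟨p, hp0, hpb⟩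
      obtain ⟨q, rfl⟩ := hb v
      clear hv
      induction q using Polynomial.induction_on' with
      | add f g hf hg => rw [map_add]; exact hf.add hg
      | monomial n c =>
        rw [Polynomial.aeval_monomial]
        exact (isAlgebraic_algebraMap c).mul (hbalg.pow n)
    obtain ⟨r, hr0, w, hw⟩ := halg.exists_nonzero_dvd (mem_nonZeroDivisors_of_ne_zero hv)
    refine ⟨p.leadingCoeff * r, mul_ne_zero (Polynomial.leadingCoeff_ne_zero.2 hp0) hr0,
      fun φ hφ => ?_⟩
    rw [map_mul] at hφ
    have hφ1 : φ p.leadingCoeff ≠ 0 := left_ne_zero_of_mul hφ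
    have hφ2 : φ r ≠ 0 := right_ne_zero_of_mul hφ
    have hdeg' : (p.map φ).degree ≠ 0 := by
      rw [Polynomial.degree_map_eq_of_leadingCoeff_ne_zero φ hφ1, Polynomial.degree_eq_natDegree hp0]
      exact_mod_cast hdeg
    obtain ⟨ξ, hξ⟩ := IsAlgClosed.exists_root (p.map φ) hdeg'
    have hξ' : Polynomial.eval₂ φ ξ p = 0 := by
      rw [Polynomial.IsRoot.def, Polynomial.eval_map] at hξ
      exact hξ
    have hall : ∀ n : ℕ, ∀ f : Polynomial A, f.natDegree < n → Polynomial.aeval b f = 0 →
        Polynomial.eval₂ φ ξ f = 0 := by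
      intro n
      induction n with
      | zero => intro f hf; omega
      | succ n ih =>
        intro f hf hfb
        by_cases hlt : f.natDegree < p.natDegree
        · rw [hmin f hfb hlt, Polynomial.eval₂_zero]
        · push Not at hlt
          by_cases hf0 : f = 0
          · rw [hf0, Polynomial.eval₂_zero]
          set g : Polynomial A := Polynomial.C p.leadingCoeff * f -
            Polynomial.C f.leadingCoeff * Polynomial.X ^ (f.natDegree - p.natDegree) * p with hg
          have hgb : Polynomial.aeval b g = 0 := by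
            rw [hg, map_sub, map_mul, map_mul, hfb, hpb, mul_zero, mul_zero, sub_zero]
          have hge : Polynomial.eval₂ φ ξ g = φ p.leadingCoeff * Polynomial.eval₂ φ ξ f := by
            rw [hg, Polynomial.eval₂_sub, Polynomial.eval₂_mul, Polynomial.eval₂_mul, hξ', mul_zero,
              sub_zero, Polynomial.eval₂_C]
          have key : Polynomial.eval₂ φ ξ g = 0 := by
            by_cases hg0 : g = 0
            · rw [hg0, Polynomial.eval₂_zero]
            apply ih g _ hgb
            have hd : g.degree < (Polynomial.C p.leadingCoeff * f).degree := by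
              apply Polynomial.degree_sub_lt_left
              · rw [Polynomial.degree_C_mul (Polynomial.leadingCoeff_ne_zero.2 hp0), mul_assoc,
                  Polynomial.degree_C_mul (Polynomial.leadingCoeff_ne_zero.2 hf0),
                  Polynomial.degree_mul, Polynomial.degree_X_pow,
                  Polynomial.degree_eq_natDegree hf0, Polynomial.degree_eq_natDegree hp0]
                norm_cast
                omega
              · exact mul_ne_zero (by
                  rw [Ne, Polynomial.C_eq_zero]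
                  exact Polynomial.leadingCoeff_ne_zero.2 hp0) hf0
              · rw [Polynomial.leadingCoeff_mul, Polynomial.leadingCoeff_C,
                  Polynomial.leadingCoeff_mul, Polynomial.leadingCoeff_mul,
                  Polynomial.leadingCoeff_C, Polynomial.leadingCoeff_X_pow, mul_one, mul_comm]
            rw [Polynomial.degree_C_mul (Polynomial.leadingCoeff_ne_zero.2 hp0),
              Polynomial.degree_eq_natDegree hf0, Polynomial.degree_eq_natDegree hg0] at hd
            have hd' : g.natDegree < f.natDegree := by exact_mod_cast hd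
            omega
          rw [hge] at key
          exact (mul_eq_zero.1 key).resolve_left hφ1
    obtain ⟨ψ, hψ1, hψ2⟩ := sc0_lift b hb φ ξ fun f hf => hall _ f (Nat.lt_succ_self _) hf
    refine ⟨ψ, hψ1, fun h0 => hφ2 ?_⟩
    have h1 : ψ (algebraMap A B r) = φ r := by
      rw [← hψ1]
      rfl
    rw [← h1, hw, map_mul, h0, zero_mul]
  · -- the transcendental case
    push Not at htr
    obtain ⟨q, rfl⟩ := hb v
    have hq : q ≠ 0 := by
      rintro rfl
      exact hv (map_zero _)
    refine ⟨q.leadingCoeff, Polynomial.leadingCoeff_ne_zero.2 hq, fun φ hφ => ?_⟩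
    have hm : q.map φ ≠ 0 := by
      intro h0
      apply hφ
      have := congrArg (fun f => Polynomial.coeff f q.natDegree) h0
      simpa [Polynomial.coeff_map] using this
    obtain ⟨ξ, hξ⟩ : ∃ ξ : ℂ, (q.map φ).eval ξ ≠ 0 := by
      by_contra hcon
      push Not at hcon
      exact hm (Polynomial.funext fun r => by rw [hcon r, Polynomial.eval_zero])
    obtain ⟨ψ, hψ1, hψ2⟩ := sc0_lift b hb φ ξ fun f hf => by
      have : f = 0 := by
        by_contra h
        exact htr f h hf
      rw [this, Polynomial.eval₂_zero]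
    refine ⟨ψ, hψ1, ?_⟩
    rw [hψ2, ← Polynomial.eval_map]
    exact hξ

/-- induction over the number of generators -/
private lemma sc0_gen {A : Type} [CommRing A] [IsDomain A] : ∀ (n : ℕ) (B : Type) [CommRing B]
    [IsDomain B] [Algebra A B], Function.Injective (algebraMap A B) →
    ∀ f : MvPolynomial (Fin n) A →ₐ[A] B, Function.Surjective f → ∀ v : B, v ≠ 0 →
    ∃ u : A, u ≠ 0 ∧ ∀ φ : A →+* ℂ, φ u ≠ 0 →
      ∃ ψ : B →+* ℂ, ψ.comp (algebraMap A B) = φ ∧ ψ v ≠ 0 := by
  intro n
  induction n with
  | zero =>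
    intro B _ _ _ hinj f hf v hv
    refine sc0_one hinj (0 : B) (fun x => ?_) hv
    obtain ⟨p, rfl⟩ := hf x
    refine ⟨Polynomial.C (MvPolynomial.coeff 0 p), ?_⟩
    rw [Polynomial.aeval_C]
    conv_rhs => rw [MvPolynomial.eq_C_of_isEmpty p]
    rw [← f.commutes]
    rfl
  | succ n ih =>
    intro B _ _ _ hinj f hf v hv
    let f0 : MvPolynomial (Fin n) A →ₐ[A] B := f.comp (MvPolynomial.rename Fin.castSucc)
    have hinj1 : Function.Injective (algebraMap A f0.range) := by
      intro x y hxy
      apply hinj
      exact congrArg (fun z : f0.range => (z : B)) hxy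
    have hinj2 : Function.Injective (algebraMap f0.range B) := Subtype.val_injective
    have hsurj : Function.Surjective
        (Polynomial.aeval (R := f0.range) (f (MvPolynomial.X (Fin.last n)))) := by
      intro x
      obtain ⟨p, rfl⟩ := hf x
      induction p using MvPolynomial.induction_on with
      | C a =>
        refine ⟨Polynomial.C (algebraMap A f0.range a), ?_⟩
        rw [Polynomial.aeval_C, ← IsScalarTower.algebraMap_apply A f0.range B]
        exact (f.commutes a).symm
      | add p q hp hq =>
        obtain ⟨p', hp'⟩ := hp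
        obtain ⟨q', hq'⟩ := hq
        exact ⟨p' + q', by rw [map_add, map_add, hp', hq']⟩
      | mul_X p i hp =>
        obtain ⟨p', hp'⟩ := hp
        refine Fin.lastCases ?_ (fun j => ?_) i
        · exact ⟨p' * Polynomial.X, by rw [map_mul, map_mul, hp', Polynomial.aeval_X]⟩
        · refine ⟨p' * Polynomial.C ⟨f0 (MvPolynomial.X j), ⟨_, rfl⟩⟩, ?_⟩
          rw [map_mul, map_mul, hp', Polynomial.aeval_C]
          congr 1
          show f0 (MvPolynomial.X j) = _
          simp only [f0, AlgHom.comp_apply, MvPolynomial.rename_X]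
    obtain ⟨u1, hu1, h1⟩ := sc0_one hinj2 _ hsurj hv
    obtain ⟨u, hu, h2⟩ := ih f0.range hinj1 f0.rangeRestrict f0.rangeRestrict_surjective u1 hu1
    refine ⟨u, hu, fun φ hφ => ?_⟩
    obtain ⟨ψ1, hψ1, hψ1'⟩ := h2 φ hφ
    obtain ⟨ψ, hψ, hψ'⟩ := h1 ψ1 hψ1'
    refine ⟨ψ, ?_, hψ'⟩
    rw [← hψ1, ← hψ]
    rfl

theorem exists_extend {A B : Type} [CommRing A] [IsDomain A] [CommRing B] [IsDomain B]
    [Algebra A B] [Algebra.FiniteType A B] (hinj : Function.Injective (algebraMap A B)) {v : B}
    (hv : v ≠ 0) :
    ∃ u : A, u ≠ 0 ∧ ∀ φ : A →+* ℂ, φ u ≠ 0 →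
      ∃ ψ : B →+* ℂ, ψ.comp (algebraMap A B) = φ ∧ ψ v ≠ 0 := by
  obtain ⟨n, f, hf⟩ := Algebra.FiniteType.iff_quotient_mvPolynomial''.1
    (inferInstance : Algebra.FiniteType A B)
  exact sc0_gen n B hinj f hf v hv

end Pool.Agent.Lib.MP_8ce23f_nt.RR
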