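import Pool.Agent.Lib.MP_8ce23f_nt.RR.SC0

/-!
# Uniform bounds for finite zero sets in a family

Leaf SC1 of the table `srl`.  Mathlib only, with the statement of `exists_extend` (leaf SC0).

`zero_fin`: for each `j` there is `p_j ≠ 0` over the fraction field with `p_j(X_j)` in the extended ideal; clearing denominators,
`p_j` over `R` with `d_j p_j(X_j) ∈ J`, `d_j ≠ 0`, leading coefficient `c_j ≠ 0`.  `f = ∏ d_j c_j`, `N = ∏ natDegree p_j`: the coordinate `y_j` of
a point of `Zs J φ` is a root of the image of `p_j`, which is not `0`.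
`zero_inf`: write `K₀` for the fraction field, `M = K₀[X]/J`.  `X_j` is not algebraic, so there is a minimal prime of
`M` modulo which `X_j` is still not algebraic (finitely many minimal primes, otherwise a product of polynomials in `X_j` is
nilpotent).  Let `𝔮` be its inverse image in `R[X]`: prime, `J ≤ 𝔮`, and `R[T] → B = R[X]/𝔮`, `T ↦ X_j`, is injective, of finite
type.  `exists_extend` with `v = 1` gives `u ≠ 0` in `R[T]`; `f` = leading coefficient of `u`.  If `φ f ≠ 0`, for all complex `τ`
except the roots of the image of `u`, the homomorphism `R[T] → ℂ`, `T ↦ τ`, extends to `B`: a point of `Zs J φ` with `y_j = τ`.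
`sl_bound`: Noetherian induction on the ideals `𝔞` of `R`, for the statement: there is `N` with
`ncard ≤ N` for all `φ` with `𝔞 ≤ ker φ`: `𝔞 = ⊤` trivial; `𝔞` not prime: `x y ∈ 𝔞`, take the larger of the bounds for `𝔞 + (x)`, `𝔞 + (y)`;
`𝔞` prime: the two theorems for the domain `R/𝔞` give `f ∉ 𝔞`, use the bound for `𝔞 + (f)` when `φ f = 0`.
-/

namespace Pool.Agent.Lib.MP_8ce23f_nt.RR

/-- The zero set at a specialisation. -/
def Zs {R : Type} [CommRing R] {n : ℕ} (J : Ideal (MvPolynomial (Fin n) R)) (φ : R →+* ℂ) :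
    Set (Fin n → ℂ) :=
  {y | ∀ f ∈ J, MvPolynomial.eval₂ φ y f = 0}

private theorem SC1_clear {R : Type} [CommRing R] [IsDomain R] {n : ℕ}
    (J : Ideal (MvPolynomial (Fin n) R)) {g : MvPolynomial (Fin n) R}
    (h : MvPolynomial.map (algebraMap R (FractionRing R)) g ∈
      J.map (MvPolynomial.map (algebraMap R (FractionRing R)))) :
    ∃ d : R, d ≠ 0 ∧ g * MvPolynomial.C d ∈ J := by
  let := MvPolynomial.algebraMvPolynomial (σ := Fin n) (R := R) (S := FractionRing R)
  have hl : IsLocalization ((nonZeroDivisors R).map (MvPolynomial.C (σ := Fin n)))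
      (MvPolynomial (Fin n) (FractionRing R)) := MvPolynomial.isLocalization _ _
  have h' : algebraMap (MvPolynomial (Fin n) R) (MvPolynomial (Fin n) (FractionRing R)) g ∈
      J.map (algebraMap (MvPolynomial (Fin n) R) (MvPolynomial (Fin n) (FractionRing R))) := h
  obtain ⟨⟨⟨a, ha⟩, ⟨m, hm⟩⟩, he⟩ := (IsLocalization.mem_map_algebraMap_iff
    ((nonZeroDivisors R).map (MvPolynomial.C (σ := Fin n)))
      (MvPolynomial (Fin n) (FractionRing R))).1 h'
  obtain ⟨d, hd, rfl⟩ := hm
  have hd0 : d ≠ 0 := nonZeroDivisors.ne_zero hd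
  refine ⟨d, hd0, ?_⟩
  have h1 : MvPolynomial.map (algebraMap R (FractionRing R)) (g * MvPolynomial.C d) =
      MvPolynomial.map (algebraMap R (FractionRing R)) a := by
    rw [map_mul]
    exact he
  have h2 := MvPolynomial.map_injective _ (IsFractionRing.injective R (FractionRing R)) h1
  rw [h2]
  exact ha

private theorem SC1_alg {R : Type} [CommRing R] [IsDomain R] {n : ℕ}
    (J : Ideal (MvPolynomial (Fin n) R)) (j : Fin n) :
    IsAlgebraic (FractionRing R) (Ideal.Quotient.mk
      (J.map (MvPolynomial.map (algebraMap R (FractionRing R)))) (MvPolynomial.X j)) ↔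
    ∃ p : Polynomial R, p ≠ 0 ∧ ∃ d : R, d ≠ 0 ∧
      Polynomial.aeval (MvPolynomial.X j : MvPolynomial (Fin n) R) p * MvPolynomial.C d ∈ J := by
  have key : ∀ p : Polynomial R, Polynomial.aeval (Ideal.Quotient.mk
      (J.map (MvPolynomial.map (algebraMap R (FractionRing R))))
        (MvPolynomial.X j : MvPolynomial (Fin n) (FractionRing R))) p =
      Ideal.Quotient.mk (J.map (MvPolynomial.map (algebraMap R (FractionRing R))))
        (MvPolynomial.map (algebraMap R (FractionRing R))
          (Polynomial.aeval (MvPolynomial.X j : MvPolynomial (Fin n) R) p)) := by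
    intro p
    induction p using Polynomial.induction_on' with
    | add p q hp hq => rw [map_add, hp, hq, map_add, map_add, map_add]
    | monomial m a =>
      rw [Polynomial.aeval_monomial, Polynomial.aeval_monomial, map_mul, map_mul, map_pow, map_pow,
        MvPolynomial.map_X, MvPolynomial.algebraMap_eq, MvPolynomial.map_C]
      rfl
  refine (IsFractionRing.isAlgebraic_iff R (FractionRing R) (MvPolynomial (Fin n) (FractionRing R) ⧸
    J.map (MvPolynomial.map (algebraMap R (FractionRing R))))).symm.trans ?_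
  constructor
  · rintro ⟨p, hp, h⟩
    rw [key, Ideal.Quotient.eq_zero_iff_mem] at h
    exact ⟨p, hp, SC1_clear J h⟩
  · rintro ⟨p, hp, d, hd, h⟩
    refine ⟨p * Polynomial.C d, mul_ne_zero hp (Polynomial.C_ne_zero.2 hd), ?_⟩
    rw [key, Ideal.Quotient.eq_zero_iff_mem]
    refine Ideal.mem_map_of_mem _ ?_
    rw [map_mul, Polynomial.aeval_C]
    exact h

theorem zero_fin {R : Type} [CommRing R] [IsDomain R] {n : ℕ} (J : Ideal (MvPolynomial (Fin n) R))
    (h : ∀ j : Fin n, IsAlgebraic (FractionRing R) (Ideal.Quotient.mk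
      (J.map (MvPolynomial.map (algebraMap R (FractionRing R)))) (MvPolynomial.X j))) :
    ∃ f : R, f ≠ 0 ∧ ∃ N : ℕ, ∀ φ : R →+* ℂ, φ f ≠ 0 → (Zs J φ).ncard ≤ N := by
  classical
  choose p hp d hd hJ using fun j => (SC1_alg J j).1 (h j)
  refine ⟨∏ j, d j * (p j).leadingCoeff, Finset.prod_ne_zero_iff.2 fun j _ =>
    mul_ne_zero (hd j) (Polynomial.leadingCoeff_ne_zero.2 (hp j)), ∏ j, (p j).natDegree,
    fun φ hφ => ?_⟩
  rw [map_prod, Finset.prod_ne_zero_iff] at hφ
  have h1 : ∀ j, φ (d j) ≠ 0 ∧ φ (p j).leadingCoeff ≠ 0 := fun j => by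
    have h2 := hφ j (Finset.mem_univ j)
    rw [map_mul] at h2
    exact ⟨left_ne_zero_of_mul h2, right_ne_zero_of_mul h2⟩
  have h3 : ∀ j, (p j).map φ ≠ 0 := fun j h4 => (h1 j).2 (by
    have h5 := congrArg (fun q => Polynomial.coeff q (p j).natDegree) h4
    simpa [Polynomial.coeff_map] using h5)
  have hsub : Zs J φ ⊆ ↑(Fintype.piFinset fun j => ((p j).map φ).roots.toFinset) := by
    intro y hy
    rw [Finset.mem_coe, Fintype.mem_piFinset]
    intro j
    rw [Multiset.mem_toFinset, Polynomial.mem_roots (h3 j), Polynomial.IsRoot.def,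
      Polynomial.eval_map]
    have h4 := hy _ (hJ j)
    rw [MvPolynomial.eval₂_mul, MvPolynomial.eval₂_C] at h4
    have h5 := (mul_eq_zero.1 h4).resolve_right (h1 j).1
    have h6 : ∀ q : Polynomial R, MvPolynomial.eval₂ φ y
        (Polynomial.aeval (MvPolynomial.X j : MvPolynomial (Fin n) R) q) =
        Polynomial.eval₂ φ (y j) q := by
      intro q
      induction q using Polynomial.induction_on' with
      | add a b ha hb => rw [map_add, MvPolynomial.eval₂_add, ha, hb, Polynomial.eval₂_add]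
      | monomial m a =>
        rw [Polynomial.aeval_monomial, Polynomial.eval₂_monomial, MvPolynomial.eval₂_mul,
          MvPolynomial.eval₂_pow, MvPolynomial.algebraMap_eq, MvPolynomial.eval₂_C,
          MvPolynomial.eval₂_X]
    rw [← h6]
    exact h5
  refine (Set.ncard_le_ncard hsub (Finset.finite_toSet _)).trans ?_
  rw [Set.ncard_coe_finset, Fintype.card_piFinset]
  refine Finset.prod_le_prod' fun j _ => ?_
  exact ((Multiset.toFinset_card_le _).trans (Polynomial.card_roots' _)).trans
    Polynomial.natDegree_map_le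

theorem zero_inf {R : Type} [CommRing R] [IsDomain R] {n : ℕ} (J : Ideal (MvPolynomial (Fin n) R))
    {j : Fin n} (h : ¬ IsAlgebraic (FractionRing R) (Ideal.Quotient.mk
      (J.map (MvPolynomial.map (algebraMap R (FractionRing R)))) (MvPolynomial.X j))) :
    ∃ f : R, f ≠ 0 ∧ ∀ φ : R →+* ℂ, φ f ≠ 0 → (Zs J φ).Infinite := by
  have hdis : Disjoint (J : Set (MvPolynomial (Fin n) R))
      ((nonZeroDivisors (Polynomial R)).map (Polynomial.aeval (R := R)
        (MvPolynomial.X j : MvPolynomial (Fin n) R)) : Submonoid (MvPolynomial (Fin n) R)) := by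
    rw [Set.disjoint_left]
    rintro g hg ⟨p, hp, rfl⟩
    refine h ((SC1_alg J j).2 ⟨p, nonZeroDivisors.ne_zero hp, 1, one_ne_zero, ?_⟩)
    rw [map_one, mul_one]
    exact hg
  obtain ⟨q, hq, hJq, hqd⟩ := Ideal.exists_le_prime_disjoint _ _ hdis
  let g : Polynomial R →+* (MvPolynomial (Fin n) R ⧸ q) :=
    (Ideal.Quotient.mk q).comp (Polynomial.aeval (R := R)
      (MvPolynomial.X j : MvPolynomial (Fin n) R)).toRingHom
  have hg : ∀ p, g p = Ideal.Quotient.mk q (Polynomial.aeval (R := R)
      (MvPolynomial.X j : MvPolynomial (Fin n) R) p) := fun _ => rfl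
  let : Algebra (Polynomial R) (MvPolynomial (Fin n) R ⧸ q) := g.toAlgebra
  have halg : algebraMap (Polynomial R) (MvPolynomial (Fin n) R ⧸ q) = g := rfl
  have hinj : Function.Injective (algebraMap (Polynomial R) (MvPolynomial (Fin n) R ⧸ q)) := by
    rw [halg, injective_iff_map_eq_zero]
    intro p hp
    by_contra hp0
    rw [hg, Ideal.Quotient.eq_zero_iff_mem] at hp
    exact Set.disjoint_left.1 hqd hp ⟨p, mem_nonZeroDivisors_of_ne_zero hp0, rfl⟩
  have hft : g.FiniteType := by
    have h1 : (g.comp Polynomial.C) = (Ideal.Quotient.mk q).comp MvPolynomial.C := by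
      ext r
      simp only [RingHom.comp_apply, hg, Polynomial.aeval_C, MvPolynomial.algebraMap_eq]
    have h2 : (g.comp Polynomial.C).FiniteType := by
      rw [h1]
      exact (RingHom.FiniteType.of_surjective _ Ideal.Quotient.mk_surjective).comp
        ((RingHom.finiteType_algebraMap (A := R) (B := MvPolynomial (Fin n) R)).2 inferInstance)
    exact RingHom.FiniteType.of_comp_finiteType h2
  have hft' : Algebra.FiniteType (Polynomial R) (MvPolynomial (Fin n) R ⧸ q) := hft
  obtain ⟨u, hu, hext⟩ := exists_extend hinj (v := 1) one_ne_zero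
  refine ⟨u.leadingCoeff, Polynomial.leadingCoeff_ne_zero.2 hu, fun φ hφ => ?_⟩
  have hmap : u.map φ ≠ 0 := fun h4 => hφ (by
    have h5 := congrArg (fun q => Polynomial.coeff q u.natDegree) h4
    simpa [Polynomial.coeff_map] using h5)
  refine Set.Infinite.of_image (fun y => y j) (Set.Infinite.mono ?_
    (Set.Finite.infinite_compl (u.map φ).roots.toFinset.finite_toSet))
  intro τ hτ
  rw [Set.mem_compl_iff, Finset.mem_coe, Multiset.mem_toFinset, Polynomial.mem_roots hmap,
    Polynomial.IsRoot.def, Polynomial.eval_map] at hτ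
  obtain ⟨ψ, hψ, -⟩ := hext (Polynomial.eval₂RingHom φ τ) hτ
  refine ⟨fun i => ψ (Ideal.Quotient.mk q (MvPolynomial.X i)), ?_, ?_⟩
  · intro f hf
    have h6 : MvPolynomial.eval₂Hom φ (fun i => ψ (Ideal.Quotient.mk q (MvPolynomial.X i))) =
        ψ.comp (Ideal.Quotient.mk q) := by
      refine MvPolynomial.ringHom_ext (fun r => ?_) (fun i => ?_)
      · rw [MvPolynomial.coe_eval₂Hom, MvPolynomial.eval₂_C, RingHom.comp_apply]
        have h7 := RingHom.congr_fun hψ (Polynomial.C r)
        rw [RingHom.comp_apply, halg, hg, Polynomial.aeval_C, Polynomial.coe_eval₂RingHom,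
          Polynomial.eval₂_C, MvPolynomial.algebraMap_eq] at h7
        exact h7.symm
      · rw [MvPolynomial.coe_eval₂Hom, MvPolynomial.eval₂_X, RingHom.comp_apply]
    have h8 := RingHom.congr_fun h6 f
    rw [MvPolynomial.coe_eval₂Hom, RingHom.comp_apply,
      Ideal.Quotient.eq_zero_iff_mem.2 (hJq hf), map_zero] at h8
    exact h8
  · have h7 := RingHom.congr_fun hψ Polynomial.X
    rw [RingHom.comp_apply, halg, hg, Polynomial.aeval_X, Polynomial.coe_eval₂RingHom,
      Polynomial.eval₂_X] at h7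
    exact h7

private theorem SC1_quot {R : Type} [CommRing R] {n : ℕ} (J : Ideal (MvPolynomial (Fin n) R))
    (a : Ideal R) (φ : R →+* ℂ) (h : ∀ x ∈ a, φ x = 0) :
    Zs (J.map (MvPolynomial.map (Ideal.Quotient.mk a))) (Ideal.Quotient.lift a φ h) = Zs J φ := by
  have h1 : ∀ (y : Fin n → ℂ) (f : MvPolynomial (Fin n) R),
      MvPolynomial.eval₂ (Ideal.Quotient.lift a φ h) y
        (MvPolynomial.map (Ideal.Quotient.mk a) f) = MvPolynomial.eval₂ φ y f := by
    intro y f
    rw [MvPolynomial.eval₂_map, Ideal.Quotient.lift_comp_mk]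
  ext y
  constructor
  · intro hy f hf
    rw [← h1]
    exact hy _ (Ideal.mem_map_of_mem _ hf)
  · intro hy f hf
    have h2 : J.map (MvPolynomial.map (Ideal.Quotient.mk a)) ≤
        RingHom.ker (MvPolynomial.eval₂Hom (Ideal.Quotient.lift a φ h) y) := by
      rw [Ideal.map_le_iff_le_comap]
      intro g hg
      rw [Ideal.mem_comap, RingHom.mem_ker, MvPolynomial.coe_eval₂Hom, h1]
      exact hy g hg
    exact h2 hf

theorem sl_bound {R : Type} [CommRing R] [IsNoetherianRing R] (n : ℕ)
    (J : Ideal (MvPolynomial (Fin n) R)) :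
    ∃ N : ℕ, ∀ φ : R →+* ℂ, (Zs J φ).Finite → (Zs J φ).ncard ≤ N := by
  suffices H : ∀ a : Ideal R, ∃ N : ℕ, ∀ φ : R →+* ℂ, (∀ x ∈ a, φ x = 0) → (Zs J φ).Finite →
      (Zs J φ).ncard ≤ N by
    obtain ⟨N, hN⟩ := H ⊥
    refine ⟨N, fun φ hφ => hN φ (fun x hx => ?_) hφ⟩
    rw [(Submodule.mem_bot R).1 hx, map_zero]
  intro a₀
  refine IsNoetherian.induction (P := fun a : Ideal R => ∃ N : ℕ, ∀ φ : R →+* ℂ,
    (∀ x ∈ a, φ x = 0) → (Zs J φ).Finite → (Zs J φ).ncard ≤ N) ?_ a₀
  intro (a : Ideal R) ih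
  · have hsup : ∀ x : R, x ∉ a → ∃ N : ℕ, ∀ φ : R →+* ℂ, (∀ z ∈ a, φ z = 0) → φ x = 0 →
        (Zs J φ).Finite → (Zs J φ).ncard ≤ N := by
      intro x hx
      obtain ⟨N, hN⟩ := ih (a ⊔ Ideal.span {x}) (by
        refine lt_of_le_of_ne le_sup_left fun h => hx ?_
        rw [h]
        exact (le_sup_right : Ideal.span {x} ≤ a ⊔ Ideal.span {x})
          (Ideal.mem_span_singleton_self x))
      refine ⟨N, fun φ h1 h2 hf => hN φ (fun z hz => ?_) hf⟩
      have h3 : a ⊔ Ideal.span {x} ≤ RingHom.ker φ :=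
        sup_le (fun w hw => h1 w hw) ((Ideal.span_singleton_le_iff_mem _).2 h2)
      exact h3 hz
    by_cases hp : a.IsPrime
    · have hdom : IsDomain (R ⧸ a) := Ideal.Quotient.isDomain a
      by_cases halg : ∀ j : Fin n, IsAlgebraic (FractionRing (R ⧸ a)) (Ideal.Quotient.mk
        ((J.map (MvPolynomial.map (Ideal.Quotient.mk a))).map
          (MvPolynomial.map (algebraMap (R ⧸ a) (FractionRing (R ⧸ a))))) (MvPolynomial.X j))
      · obtain ⟨f', hf', N, hN⟩ := zero_fin _ halg
        obtain ⟨f, rfl⟩ := Ideal.Quotient.mk_surjective f'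
        obtain ⟨N', hN'⟩ := hsup f (fun h => hf' (Ideal.Quotient.eq_zero_iff_mem.2 h))
        refine ⟨max N N', fun φ h1 hfin => ?_⟩
        by_cases h2 : φ f = 0
        · exact (hN' φ h1 h2 hfin).trans (le_max_right _ _)
        · have h3 := hN (Ideal.Quotient.lift a φ h1) (by
            rw [Ideal.Quotient.lift_mk]
            exact h2)
          rw [SC1_quot] at h3
          exact h3.trans (le_max_left _ _)
      · push Not at halg
        obtain ⟨j, hj⟩ := halg
        obtain ⟨f', hf', hN⟩ := zero_inf _ hj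
        obtain ⟨f, rfl⟩ := Ideal.Quotient.mk_surjective f'
        obtain ⟨N', hN'⟩ := hsup f (fun h => hf' (Ideal.Quotient.eq_zero_iff_mem.2 h))
        refine ⟨N', fun φ h1 hfin => ?_⟩
        by_cases h2 : φ f = 0
        · exact hN' φ h1 h2 hfin
        · have h3 := hN (Ideal.Quotient.lift a φ h1) (by
            rw [Ideal.Quotient.lift_mk]
            exact h2)
          rw [SC1_quot] at h3
          exact absurd hfin h3
    · rcases Ideal.not_isPrime_iff.1 hp with h | ⟨x, hx, y, hy, hxy⟩
      · refine ⟨0, fun φ h1 _ => ?_⟩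
        have h2 := h1 1 (by rw [h]; exact Submodule.mem_top)
        rw [map_one] at h2
        exact absurd h2 one_ne_zero
      · obtain ⟨N, hN⟩ := hsup x hx
        obtain ⟨N', hN'⟩ := hsup y hy
        refine ⟨max N N', fun φ h1 hfin => ?_⟩
        have h2 := h1 _ hxy
        rw [map_mul] at h2
        rcases mul_eq_zero.1 h2 with h3 | h3
        · exact (hN φ h1 h3 hfin).trans (le_max_left _ _)
        · exact (hN' φ h1 h3 hfin).trans (le_max_right _ _)

end Pool.Agent.Lib.MP_8ce23f_nt.RR
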