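import Pool.Agent.Lib.MP_8ce23f_nt.RR.SC1

/-!
# Finite zero sets of polynomials of bounded degree

Leaf SC2 of the table `srl`.  Mathlib only, with the statement of `sl_bound` (leaf SC1).

Universal family: `M` = the finite set of exponents `m : Fin n →₀ ℕ` of degree `≤ d` (as a `Fintype`), `R = MvPolynomial (M × M) ℤ`
(or over `ℂ`), `f_a = ∑_m X (a, m) x^m` for `a ∈ M`, `J = span {f_a}`.  The span of `S` in the space of polynomials of
degree `≤ d` has a basis of at most `card M` elements of `S`, pad with `0`: a family `g : M → P n` of polynomials of degree `≤ d` with the same zero set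
as `S`; `φ` sends `X (a, m)` to `coeff m (g a)`.
-/

namespace Pool.Agent.Lib.MP_8ce23f_nt.RR

/-- The exponents of a polynomial of degree at most `d`. -/
private theorem SC2_mem {n d : ℕ} {M : Finset (Fin n →₀ ℕ)} (hM : ∀ m : Fin n →₀ ℕ, m.degree ≤ d → m ∈ M)
    {f : P n} (hf : f.totalDegree ≤ d) {m : Fin n →₀ ℕ} (hm : m ∈ f.support) : m ∈ M :=
  hM m ((MvPolynomial.le_totalDegree hm).trans hf)

/-- A family with a fixed index set and the same zeros. -/
private theorem SC2_family {n d : ℕ} {M : Finset (Fin n →₀ ℕ)}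
    (hM : ∀ m : Fin n →₀ ℕ, m.degree ≤ d → m ∈ M) {S : Set (P n)} (hS : ∀ f ∈ S, f.totalDegree ≤ d) :
    ∃ g : M → P n, (∀ a, (g a).totalDegree ≤ d) ∧
      ∀ y : Fin n → ℂ, (∀ f ∈ S, MvPolynomial.eval y f = 0) ↔ ∀ a, MvPolynomial.eval y (g a) = 0 := by
  obtain ⟨V, hV⟩ : ∃ V : Submodule ℂ (P n), V = Submodule.span ℂ S := ⟨_, rfl⟩
  have hVd : ∀ f ∈ V, f.totalDegree ≤ d := by
    have h : V ≤ MvPolynomial.restrictTotalDegree (Fin n) ℂ d := by
      rw [hV]
      exact Submodule.span_le.2 fun f hf => (MvPolynomial.mem_restrictTotalDegree _ _ _).2 (hS f hf)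
    exact fun f hf => (MvPolynomial.mem_restrictTotalDegree _ _ _).1 (h hf)
  have hVz : ∀ y : Fin n → ℂ, (∀ f ∈ S, MvPolynomial.eval y f = 0) → ∀ f ∈ V, MvPolynomial.eval y f = 0 := by
    intro y hy f hf
    rw [hV] at hf
    induction hf using Submodule.span_induction with
    | mem f hf => exact hy f hf
    | zero => exact map_zero _
    | add f g _ _ hf hg => rw [map_add, hf, hg, add_zero]
    | smul c f _ hf => rw [MvPolynomial.smul_eval, hf, mul_zero]
  obtain ⟨p, hp⟩ := LinearMap.exists_leftInverse_of_injective V.subtype (Submodule.ker_subtype V)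
  refine ⟨fun a => (p (MvPolynomial.monomial (a : Fin n →₀ ℕ) 1) : P n), fun a => hVd _ (p _).2,
    fun y => ⟨fun hy a => hVz y hy _ (p _).2, fun hy f hf => ?_⟩⟩
  have hfV : f ∈ V := by
    rw [hV]
    exact Submodule.subset_span hf
  have h1 : ((p f : V) : P n) = f := congrArg (fun t : V => (t : P n)) (LinearMap.congr_fun hp ⟨f, hfV⟩)
  have h2 : f = ∑ m ∈ f.support, MvPolynomial.coeff m f • MvPolynomial.monomial m (1 : ℂ) := by
    conv_lhs => rw [MvPolynomial.as_sum f]
    refine Finset.sum_congr rfl fun m _ => ?_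
    rw [MvPolynomial.smul_monomial, smul_eq_mul, mul_one]
  have h3 : ((p f : V) : P n) = ∑ m ∈ f.support, MvPolynomial.coeff m f •
      ((p (MvPolynomial.monomial m 1) : V) : P n) := by
    conv_lhs => rw [h2]
    rw [map_sum, Submodule.coe_sum]
    refine Finset.sum_congr rfl fun m _ => ?_
    rw [map_smul, Submodule.coe_smul]
  rw [← h1, h3, map_sum]
  refine Finset.sum_eq_zero fun m hm => ?_
  rw [MvPolynomial.smul_eval, hy ⟨m, SC2_mem hM (hS f hf) hm⟩, mul_zero]

theorem fin_bound (n d : ℕ) : ∃ N : ℕ, ∀ S : Set (P n), (∀ f ∈ S, f.totalDegree ≤ d) →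
    {y : Fin n → ℂ | ∀ f ∈ S, MvPolynomial.eval y f = 0}.Finite →
    {y : Fin n → ℂ | ∀ f ∈ S, MvPolynomial.eval y f = 0}.ncard ≤ N := by
  classical
  obtain ⟨M, hM⟩ : ∃ M : Finset (Fin n →₀ ℕ), ∀ m : Fin n →₀ ℕ, m.degree ≤ d → m ∈ M :=
    ⟨(Finsupp.finite_of_degree_le (σ := Fin n) d).toFinset, fun m hm => by simpa using hm⟩
  obtain ⟨N, hN⟩ := sl_bound (R := MvPolynomial (M × M) ℤ) n (Ideal.span (Set.range fun a : M =>
    ∑ m : M, MvPolynomial.monomial (m : Fin n →₀ ℕ) (MvPolynomial.X (a, m) : MvPolynomial (M × M) ℤ)))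
  refine ⟨N, fun S hS hfin => ?_⟩
  obtain ⟨g, hg1, hg2⟩ := SC2_family hM hS
  let φ : MvPolynomial (M × M) ℤ →+* ℂ :=
    MvPolynomial.eval₂Hom (Int.castRingHom ℂ) fun u => MvPolynomial.coeff (u.2 : Fin n →₀ ℕ) (g u.1)
  have hev : ∀ (y : Fin n → ℂ) (a : M), MvPolynomial.eval₂Hom φ y (∑ m : M,
      MvPolynomial.monomial (m : Fin n →₀ ℕ) (MvPolynomial.X (a, m) : MvPolynomial (M × M) ℤ)) =
      MvPolynomial.eval y (g a) := by
    intro y a
    have h1 : ∀ m : M, φ (MvPolynomial.X (a, m)) = MvPolynomial.coeff (m : Fin n →₀ ℕ) (g a) :=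
      fun m => MvPolynomial.eval₂Hom_X' _ _ _
    rw [map_sum, MvPolynomial.eval_eq']
    have h2 : ∀ m : M, MvPolynomial.eval₂Hom φ y (MvPolynomial.monomial (m : Fin n →₀ ℕ)
        (MvPolynomial.X (a, m) : MvPolynomial (M × M) ℤ)) =
        MvPolynomial.coeff (m : Fin n →₀ ℕ) (g a) * ∏ i, y i ^ (m : Fin n →₀ ℕ) i := by
      intro m
      rw [MvPolynomial.eval₂Hom_monomial, h1, Finsupp.prod_fintype _ _ fun i => pow_zero _]
    rw [Finset.sum_congr rfl fun m _ => h2 m, Finset.sum_coe_sort M fun m =>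
      MvPolynomial.coeff m (g a) * ∏ i, y i ^ m i]
    refine (Finset.sum_subset (fun m hm => SC2_mem hM (hg1 a) hm) fun m _ hm => ?_).symm
    rw [MvPolynomial.notMem_support_iff.1 hm, zero_mul]
  have hZ : Zs (Ideal.span (Set.range fun a : M => ∑ m : M, MvPolynomial.monomial (m : Fin n →₀ ℕ)
      (MvPolynomial.X (a, m) : MvPolynomial (M × M) ℤ))) φ =
      {y : Fin n → ℂ | ∀ f ∈ S, MvPolynomial.eval y f = 0} := by
    ext y
    refine Iff.trans ?_ (hg2 y).symm
    constructor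
    · intro h a
      rw [← hev y a]
      exact h _ (Ideal.subset_span ⟨a, rfl⟩)
    · intro h f hf
      have h1 : Ideal.span (Set.range fun a : M => ∑ m : M, MvPolynomial.monomial (m : Fin n →₀ ℕ)
          (MvPolynomial.X (a, m) : MvPolynomial (M × M) ℤ)) ≤
          RingHom.ker (MvPolynomial.eval₂Hom φ y) := by
        rw [Ideal.span_le]
        rintro _ ⟨a, rfl⟩
        rw [SetLike.mem_coe, RingHom.mem_ker, hev y a]
        exact h a
      exact (RingHom.mem_ker.1 (h1 hf))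
  have h := hN φ (by rw [hZ]; exact hfin)
  rw [hZ] at h
  exact h

end Pool.Agent.Lib.MP_8ce23f_nt.RR
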