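import Pool.Agent.Lib.MP_8ce23f_nt.RR.SDefs

/-!
# Generic slices of affine subspaces

Leaf SC3 of the table `srl`.  Mathlib only (linear algebra).

`exists_hyp`: for each `p ∈ F` the affine functions vanishing on `M` but not at `p` are the complement of a proper subspace of the space of affine
functions vanishing on `M` (not all vanish at `p`, as `p ∉ M`); a finite union of proper subspaces is not everything
(`Subspace.biUnion_ne_univ_of_top_notMem` or similar).
`exists_slice`: (1) there is a subspace `K` of dimension `r - e` with `K ∩ M.direction = 0` for all `M ∈ T` with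
`finrank M.direction ≤ e`: add vectors one by one, outside of the finitely many proper subspaces `K_j + M.direction`
(dimension `≤ j + e < r`).  (2) The slice is `H = p₀ + K`, defined by affine functions (degree `≤ 1`): `y ∈ H` iff `λ(y - p₀) = 0` for all `λ` in
the annihilator of `K`.  `H ∩ M` has at most one point if `finrank ≤ e`.  If `finrank M.direction = e` and `M ≠ ∅`:
`K ⊕ M.direction` is everything, so `H ∩ M` is a point `p`, the projection of `p₀` to `M` along `K`; `p ∈ M'` iff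
`p₀ ∈ (M ∩ M') + K`, a proper affine subspace (`M ∩ M'` is a proper subspace of `M`, as `M ≤ M'` would give `M = M'`).
Choose `p₀` outside of these finitely many proper affine subspaces (each is in the zero set of a nonzero polynomial of degree `1`,
and the product of nonzero polynomials has a point where it does not vanish, `MvPolynomial.funext`).
If `e > r` there is nothing of dimension `e`; take all coordinates `X i - p₀ i` (a point).
-/

namespace Pool.Agent.Lib.MP_8ce23f_nt.RR

variable {r : ℕ}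

/-- the polynomial of the affine function `y ↦ f y - c` -/
private noncomputable def SC3_pol (f : Module.Dual ℂ (Fin r → ℂ)) (c : ℂ) : P r :=
  ∑ i, MvPolynomial.C (f (Pi.single i 1)) * MvPolynomial.X i - MvPolynomial.C c

private theorem SC3_pol_deg (f : Module.Dual ℂ (Fin r → ℂ)) (c : ℂ) : (SC3_pol f c).totalDegree ≤ 1 := by
  unfold SC3_pol
  refine (MvPolynomial.totalDegree_sub _ _).trans (max_le ?_ ?_)
  · refine MvPolynomial.totalDegree_finsetSum_le fun i _ => ?_
    refine (MvPolynomial.totalDegree_mul _ _).trans ?_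
    rw [MvPolynomial.totalDegree_C, MvPolynomial.totalDegree_X]
  · rw [MvPolynomial.totalDegree_C]
    exact Nat.zero_le _

private theorem SC3_pol_eval (f : Module.Dual ℂ (Fin r → ℂ)) (c : ℂ) (y : Fin r → ℂ) :
    MvPolynomial.eval y (SC3_pol f c) = f y - c := by
  unfold SC3_pol
  rw [map_sub, map_sum, MvPolynomial.eval_C]
  congr 1
  have h1 : y = ∑ i, y i • (Pi.single i (1 : ℂ) : Fin r → ℂ) := pi_eq_sum_univ' y
  have h2 : f y = ∑ i, y i • f (Pi.single i 1) := by
    conv_lhs => rw [h1]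
    rw [map_sum]
    exact Finset.sum_congr rfl fun i _ => map_smul f _ _
  rw [h2]
  refine Finset.sum_congr rfl fun i _ => ?_
  rw [map_mul, MvPolynomial.eval_C, MvPolynomial.eval_X, smul_eq_mul, mul_comm]

theorem exists_hyp (M : AffineSubspace ℂ (Fin r → ℂ)) (F : Finset (Fin r → ℂ))
    (h : ∀ p ∈ F, p ∉ M) :
    ∃ g : P r, g.totalDegree ≤ 1 ∧ (∀ y ∈ M, MvPolynomial.eval y g = 0) ∧
      ∀ p ∈ F, MvPolynomial.eval p g ≠ 0 := by
  rcases (M : Set (Fin r → ℂ)).eq_empty_or_nonempty with hM | ⟨p₀, hp₀⟩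
  · refine ⟨1, ?_, fun y hy => ?_, fun p _ => ?_⟩
    · rw [MvPolynomial.totalDegree_one]
      exact Nat.zero_le _
    · exfalso
      have h1 : y ∈ (M : Set (Fin r → ℂ)) := hy
      rw [hM] at h1
      exact h1
    · rw [map_one]
      exact one_ne_zero
  · have hp₀' : p₀ ∈ M := hp₀
    obtain ⟨f, hf⟩ := Module.exists_dual_forall_apply_ne_zero (K := ℂ) (M := (Fin r → ℂ) ⧸ M.direction)
      (fun p : F => M.direction.mkQ ((p : Fin r → ℂ) - p₀)) fun p => by
        rw [Submodule.mkQ_apply, Ne, Submodule.Quotient.mk_eq_zero]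
        intro h1
        apply h p.1 p.2
        have h2 := AffineSubspace.vadd_mem_of_mem_direction h1 hp₀'
        rwa [vadd_eq_add, sub_add_cancel] at h2
    obtain ⟨l, hl⟩ : ∃ l : Module.Dual ℂ (Fin r → ℂ), l = f.comp M.direction.mkQ := ⟨_, rfl⟩
    refine ⟨SC3_pol l (l p₀), SC3_pol_deg _ _, fun y hy => ?_, fun p hp => ?_⟩
    · rw [SC3_pol_eval, ← map_sub, hl]
      have h1 : y - p₀ ∈ M.direction := AffineSubspace.vsub_mem_direction hy hp₀'
      have h2 : M.direction.mkQ (y - p₀) = 0 := by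
        rw [Submodule.mkQ_apply, Submodule.Quotient.mk_eq_zero]
        exact h1
      rw [LinearMap.comp_apply, h2, map_zero]
    · rw [SC3_pol_eval, ← map_sub, hl]
      exact hf ⟨p, hp⟩

/-- a point outside of finitely many proper affine subspaces -/
private theorem SC3_avoid {ι : Type} [Finite ι] (B : ι → AffineSubspace ℂ (Fin r → ℂ)) (h : ∀ i, B i ≠ ⊤) :
    ∃ p₀ : Fin r → ℂ, ∀ i, p₀ ∉ B i := by
  classical
  have _ : Fintype ι := Fintype.ofFinite ι
  have h1 : ∀ i, ∃ g : P r, g ≠ 0 ∧ ∀ y ∈ B i, MvPolynomial.eval y g = 0 := by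
    intro i
    obtain ⟨x, hx⟩ : ∃ x, x ∉ B i := by
      by_contra hc
      push Not at hc
      exact h i (AffineSubspace.ext fun x => ⟨fun _ => AffineSubspace.mem_top ℂ _ x, fun _ => hc x⟩)
    obtain ⟨g, -, hg1, hg2⟩ := exists_hyp (B i) {x} (fun p hp => by
      rw [Finset.mem_singleton.1 hp]
      exact hx)
    refine ⟨g, ?_, hg1⟩
    rintro rfl
    exact hg2 x (Finset.mem_singleton_self x) (map_zero _)
  choose g hg1 hg2 using h1
  have h2 : ∏ i, g i ≠ 0 := Finset.prod_ne_zero_iff.2 fun i _ => hg1 i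
  obtain ⟨p₀, hp₀⟩ : ∃ p₀ : Fin r → ℂ, MvPolynomial.eval p₀ (∏ i, g i) ≠ 0 := by
    by_contra hc
    push Not at hc
    exact h2 (MvPolynomial.funext fun x => by rw [hc x, map_zero])
  refine ⟨p₀, fun i hi => hp₀ ?_⟩
  rw [map_prod]
  exact Finset.prod_eq_zero (Finset.mem_univ i) (hg2 i p₀ hi)

/-- a subspace in general position -/
private theorem SC3_gen {ι : Type} [Finite ι] (W : ι → Submodule ℂ (Fin r → ℂ)) (e : ℕ) :
    ∃ K : Submodule ℂ (Fin r → ℂ), (∀ i, W i ⊓ K = ⊥ ∨ Module.finrank ℂ ↥(W i ⊓ K) + e ≤ Module.finrank ℂ (W i)) ∧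
      r ≤ Module.finrank ℂ K + e := by
  classical
  induction e with
  | zero =>
    refine ⟨⊤, fun i => Or.inr ?_, ?_⟩
    · rw [inf_top_eq, add_zero]
    · rw [finrank_top, Module.finrank_fin_fun, add_zero]
  | succ e ih =>
    obtain ⟨K, hK1, hK2⟩ := ih
    have h1 : ∀ i : {i // W i ⊓ K ≠ ⊥}, ∃ w ∈ W i.1 ⊓ K, w ≠ 0 := fun i => (Submodule.ne_bot_iff _).1 i.2
    choose w hw1 hw2 using h1
    obtain ⟨f, hf⟩ := Module.exists_dual_forall_apply_ne_zero (K := ℂ) w hw2
    have hker : r ≤ Module.finrank ℂ (LinearMap.ker f) + 1 := by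
      have h2 := LinearMap.finrank_range_add_finrank_ker f
      rw [Module.finrank_fin_fun] at h2
      have h3 : Module.finrank ℂ (LinearMap.range f) ≤ Module.finrank ℂ ℂ := Submodule.finrank_le _
      rw [Module.finrank_self] at h3
      omega
    refine ⟨K ⊓ LinearMap.ker f, fun i => ?_, ?_⟩
    · by_cases hi : W i ⊓ K = ⊥
      · left
        rw [← inf_assoc, hi, bot_inf_eq]
      · right
        have h2 : W i ⊓ (K ⊓ LinearMap.ker f) < W i ⊓ K := by
          refine lt_of_le_of_ne (inf_le_inf_left _ inf_le_left) fun h3 => ?_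
          have h4 : w ⟨i, hi⟩ ∈ W i ⊓ (K ⊓ LinearMap.ker f) := by
            rw [h3]
            exact hw1 ⟨i, hi⟩
          exact hf ⟨i, hi⟩ (LinearMap.mem_ker.1 h4.2.2)
        have h5 := Submodule.finrank_lt_finrank_of_lt h2
        rcases hK1 i with h6 | h6
        · exact absurd h6 hi
        · omega
    · have h2 := Submodule.finrank_sup_add_finrank_inf_eq K (LinearMap.ker f)
      have h3 : Module.finrank ℂ ↥(K ⊔ LinearMap.ker f) ≤ Module.finrank ℂ (Fin r → ℂ) := Submodule.finrank_le _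
      rw [Module.finrank_fin_fun] at h3
      omega

theorem exists_slice (T : Set (AffineSubspace ℂ (Fin r → ℂ))) (hT : T.Finite)
    (hanti : ∀ M ∈ T, ∀ M' ∈ T, M ≤ M' → M = M') (e : ℕ) :
    ∃ S : Set (P r), (∀ f ∈ S, f.totalDegree ≤ 1) ∧
      (∀ M ∈ T, Module.finrank ℂ M.direction ≤ e →
        {y | y ∈ M ∧ ∀ f ∈ S, MvPolynomial.eval y f = 0}.Subsingleton) ∧
      ∀ M ∈ T, (M : Set (Fin r → ℂ)).Nonempty → Module.finrank ℂ M.direction = e →
        ∃ p ∈ M, (∀ f ∈ S, MvPolynomial.eval p f = 0) ∧ ∀ M' ∈ T, M' ≠ M → p ∉ M' := by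
  classical
  have hTf : Finite T := hT
  obtain ⟨K, hK1, hK2⟩ := SC3_gen (fun M : T => M.1.direction) e
  have hbot : ∀ M ∈ T, Module.finrank ℂ M.direction ≤ e → M.direction ⊓ K = ⊥ := by
    intro M hM hMe
    rcases hK1 ⟨M, hM⟩ with h1 | h1
    · exact h1
    · have h2 : Module.finrank ℂ ↥(M.direction ⊓ K) = 0 := by
        have h3 : Module.finrank ℂ ↥(M.direction ⊓ K) + e ≤ Module.finrank ℂ M.direction := h1
        omega
      exact Submodule.finrank_eq_zero.1 h2
  -- the bad affine subspaces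
  have hB : ∀ x : T × T, ∃ B : AffineSubspace ℂ (Fin r → ℂ), B ≠ ⊤ ∧
      (x.2 ≠ x.1 → Module.finrank ℂ x.1.1.direction = e → ∀ p ∈ x.1.1, p ∈ x.2.1 → ∀ p₀, p₀ - p ∈ K → p₀ ∈ B) := by
    rintro ⟨⟨M, hM⟩, ⟨M', hM'⟩⟩
    by_cases hc : M' ≠ M ∧ Module.finrank ℂ M.direction = e ∧ ∃ q, q ∈ M ∧ q ∈ M'
    · obtain ⟨hne, hMe, q, hq, hq'⟩ := hc
      refine ⟨AffineSubspace.mk' q ((M ⊓ M').direction ⊔ K), fun htop => ?_, fun _ _ p hp hp' p₀ hp₀ => ?_⟩
      · have h1 : (M ⊓ M').direction ⊔ K = ⊤ := by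
          rw [← AffineSubspace.direction_mk' q ((M ⊓ M').direction ⊔ K), htop, AffineSubspace.direction_top]
        have hdir : (M ⊓ M').direction < M.direction := by
          refine lt_of_le_of_ne (AffineSubspace.direction_le inf_le_left) fun h2 => ?_
          have h3 : M ⊓ M' = M := AffineSubspace.eq_of_direction_eq_of_nonempty_of_le h2
            ⟨q, hq, hq'⟩ inf_le_left
          exact hne (hanti M hM M' hM' (inf_eq_left.1 h3)).symm
        have h2 := Submodule.finrank_lt_finrank_of_lt hdir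
        have h3 := Submodule.finrank_add_le_finrank_add_finrank (M ⊓ M').direction K
        have h4 := Submodule.finrank_sup_add_finrank_inf_eq M.direction K
        rw [hbot M hM hMe.le, finrank_bot] at h4
        have h5 : Module.finrank ℂ ↥(M.direction ⊔ K) ≤ Module.finrank ℂ (Fin r → ℂ) := Submodule.finrank_le _
        rw [h1, finrank_top] at h3
        omega
      · rw [AffineSubspace.mem_mk']
        have h1 : p -ᵥ q ∈ (M ⊓ M').direction := AffineSubspace.vsub_mem_direction ⟨hp, hp'⟩ ⟨hq, hq'⟩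
        have h2 : p₀ -ᵥ q = (p -ᵥ q) + (p₀ - p) := by
          rw [vsub_eq_sub, vsub_eq_sub]
          abel
        rw [h2]
        exact Submodule.add_mem _ (Submodule.mem_sup_left h1) (Submodule.mem_sup_right hp₀)
    · refine ⟨⊥, bot_ne_top, fun h1 h2 p hp hp' => ?_⟩
      exact absurd ⟨fun h3 => h1 (Subtype.ext h3), h2, p, hp, hp'⟩ hc
  choose B hB1 hB2 using hB
  obtain ⟨p₀, hp₀⟩ := SC3_avoid B hB1
  have hmem : ∀ y : Fin r → ℂ, (∀ f ∈ {g : P r | g.totalDegree ≤ 1 ∧ ∀ y ∈ AffineSubspace.mk' p₀ K,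
      MvPolynomial.eval y g = 0}, MvPolynomial.eval y f = 0) ↔ y - p₀ ∈ K := by
    intro y
    constructor
    · intro hy
      by_contra hyK
      obtain ⟨g, hg1, hg2, hg3⟩ := exists_hyp (AffineSubspace.mk' p₀ K) {y} (fun p hp => by
        rw [Finset.mem_singleton.1 hp, AffineSubspace.mem_mk', vsub_eq_sub]
        exact hyK)
      exact hg3 y (Finset.mem_singleton_self y) (hy g ⟨hg1, hg2⟩)
    · rintro hy f ⟨-, hf⟩
      exact hf y (by rw [AffineSubspace.mem_mk', vsub_eq_sub]; exact hy)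
  refine ⟨{g : P r | g.totalDegree ≤ 1 ∧ ∀ y ∈ AffineSubspace.mk' p₀ K, MvPolynomial.eval y g = 0},
    fun f hf => hf.1, fun M hM hMe => ?_, fun M hM hne hMe => ?_⟩
  · rintro y ⟨hy, hy'⟩ z ⟨hz, hz'⟩
    rw [hmem] at hy' hz'
    have h1 : y - z ∈ M.direction ⊓ K := by
      refine ⟨AffineSubspace.vsub_mem_direction hy hz, ?_⟩
      have h2 : y - z = (y - p₀) - (z - p₀) := by abel
      rw [h2]
      exact K.sub_mem hy' hz'
    rw [hbot M hM hMe, Submodule.mem_bot, sub_eq_zero] at h1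
    exact h1
  · obtain ⟨m, hm⟩ := hne
    have hm' : m ∈ M := hm
    have htop : M.direction ⊔ K = ⊤ := by
      apply Submodule.eq_top_of_finrank_eq
      have h4 := Submodule.finrank_sup_add_finrank_inf_eq M.direction K
      rw [hbot M hM hMe.le, finrank_bot] at h4
      have h5 : Module.finrank ℂ ↥(M.direction ⊔ K) ≤ Module.finrank ℂ (Fin r → ℂ) := Submodule.finrank_le _
      rw [Module.finrank_fin_fun] at h5 ⊢
      omega
    obtain ⟨w, hw, k, hk, hwk⟩ : ∃ w ∈ M.direction, ∃ k ∈ K, w + k = p₀ - m := by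
      have h1 : p₀ - m ∈ M.direction ⊔ K := by
        rw [htop]
        exact Submodule.mem_top
      exact Submodule.mem_sup.1 h1
    have hp : w + m ∈ M := by
      have h1 := AffineSubspace.vadd_mem_of_mem_direction hw hm'
      rwa [vadd_eq_add] at h1
    have hpk : p₀ - (w + m) = k := by
      have h1 : p₀ = w + k + m := by rw [hwk, sub_add_cancel]
      rw [h1]
      abel
    refine ⟨w + m, hp, (hmem _).2 ?_, fun M' hM' hne' hp' => ?_⟩
    · rw [← neg_sub, hpk]
      exact K.neg_mem hk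
    · exact hp₀ (⟨M, hM⟩, ⟨M', hM'⟩) (hB2 (⟨M, hM⟩, ⟨M', hM'⟩)
        (fun h1 => hne' (congrArg Subtype.val h1)) hMe (w + m) hp hp' p₀ (by rw [hpk]; exact hk))

end Pool.Agent.Lib.MP_8ce23f_nt.RR
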