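import Pool.Agent.Lib.MP_8ce23f_nt.RR.SC2
import Pool.Agent.Lib.MP_8ce23f_nt.RR.SC3

/-!
# A uniform bound for the number of affine components

Leaf SC4 of the table `srl`.  It uses the statements of `fin_bound` (SC2), `exists_hyp`, `exists_slice` (SC3).

Replace `T` by its nonempty maximal elements (finite, same union, no inclusions).  Claim by descending induction on `e`:
the number of `M ∈ T` with `finrank M.direction ≥ e` is at most `N_e`, where `N_(r+1) = 0` and
`N_e = N_(e+1) + fin(r + 1, max d (N_(e+1) + 1))` with `fin` the bound of `fin_bound`.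
Let `S'` be the slice of `exists_slice T e`, `p_M` the point on it for `M` of dimension `e` (distinct points, since `p_M ∉ M'` for `M' ≠ M`), `g` the product of
the `exists_hyp M' {p_M}` for the `M'` of dimension `> e` (degree `≤ N_(e+1)`, `g(p_M) ≠ 0`).  In `r + 1` variables
(`MvPolynomial.rename Fin.castSucc`, last variable `y`): the system `S ∪ S' ∪ {y g - 1}` has degrees `≤ max d (N_(e+1) + 1)` (and `≥ 1`, use `max`),
its zero set consists of the points `(p, 1/g(p))` with `p ∈ Z(S) ∩ Z(S')`, `g(p) ≠ 0`; such a `p` lies in some `M ∈ T` of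
dimension `≤ e` (on larger ones `g = 0`), at most one point for each such `M`: a finite set; it contains the points
`(p_M, 1/g(p_M))`.  So their number is at most `fin(...)`.
-/

namespace Pool.Agent.Lib.MP_8ce23f_nt.RR

variable {r : ℕ}

/-- The number of components of a given dimension. -/
private theorem SC4_level (r d N₁ : ℕ) : ∃ N₂ : ℕ, ∀ S : Set (P r), (∀ f ∈ S, f.totalDegree ≤ d) →
    ∀ T : Set (AffineSubspace ℂ (Fin r → ℂ)), T.Finite →
      {y : Fin r → ℂ | ∀ f ∈ S, MvPolynomial.eval y f = 0} = ⋃ M ∈ T, (M : Set (Fin r → ℂ)) →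
      (∀ M ∈ T, (M : Set (Fin r → ℂ)).Nonempty) → (∀ M ∈ T, ∀ M' ∈ T, M ≤ M' → M = M') →
      ∀ e : ℕ, {M ∈ T | e < Module.finrank ℂ M.direction}.ncard ≤ N₁ →
      {M ∈ T | Module.finrank ℂ M.direction = e}.ncard ≤ N₂ := by
  classical
  obtain ⟨N₂, hN₂⟩ := fin_bound (r + 1) (max d (N₁ + 1))
  refine ⟨N₂, fun S hS T hT hU hne hanti e hH => ?_⟩
  obtain ⟨S', hS', hsub, hp⟩ := exists_slice T hT hanti e
  choose! p hpM hpS hpn using hp
  have hTe : {M ∈ T | Module.finrank ℂ M.direction = e}.Finite := hT.subset fun M hM => hM.1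
  have hHf : {M ∈ T | e < Module.finrank ℂ M.direction}.Finite := hT.subset fun M hM => hM.1
  have hyp : ∀ M' ∈ hHf.toFinset, ∃ g : P r, g.totalDegree ≤ 1 ∧ (∀ y ∈ M', MvPolynomial.eval y g = 0) ∧
      ∀ q ∈ hTe.toFinset.image p, MvPolynomial.eval q g ≠ 0 := by
    intro M' hM'
    rw [Set.Finite.mem_toFinset] at hM'
    refine exists_hyp M' (hTe.toFinset.image p) fun q hq => ?_
    rw [Finset.mem_image] at hq
    obtain ⟨M, hM, rfl⟩ := hq
    rw [Set.Finite.mem_toFinset] at hM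
    refine hpn M hM.1 (hne M hM.1) hM.2 M' hM'.1 ?_
    rintro rfl
    have h1 := hM.2
    have h2 := hM'.2
    omega
  choose! g hg1 hg2 hg3 using hyp
  obtain ⟨G, hG⟩ : ∃ G : P r, G = ∏ M' ∈ hHf.toFinset, g M' := ⟨_, rfl⟩
  have hGd : G.totalDegree ≤ N₁ := by
    rw [hG]
    refine le_trans (MvPolynomial.totalDegree_finsetProd _ _) ?_
    refine le_trans (Finset.sum_le_sum fun M' hM' => hg1 M' hM') ?_
    rw [Finset.sum_const, smul_eq_mul, mul_one, ← Set.ncard_eq_toFinset_card _ hHf]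
    exact hH
  have hG0 : ∀ M' ∈ T, e < Module.finrank ℂ M'.direction → ∀ y ∈ M', MvPolynomial.eval y G = 0 := by
    intro M' h1 h2 y hy
    rw [hG, map_prod]
    have h3 : M' ∈ hHf.toFinset := by
      rw [Set.Finite.mem_toFinset]
      exact ⟨h1, h2⟩
    exact Finset.prod_eq_zero h3 (hg2 M' h3 y hy)
  have hGp : ∀ M ∈ T, Module.finrank ℂ M.direction = e → MvPolynomial.eval (p M) G ≠ 0 := by
    intro M h1 h2
    rw [hG, map_prod, Finset.prod_ne_zero_iff]
    intro M' hM'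
    refine hg3 M' hM' (p M) (Finset.mem_image_of_mem p ?_)
    rw [Set.Finite.mem_toFinset]
    exact ⟨h1, h2⟩
  -- the system in one more variable
  obtain ⟨S₁, hS₁⟩ : ∃ S₁ : Set (P (r + 1)), S₁ = (MvPolynomial.rename Fin.castSucc '' S) ∪
      (MvPolynomial.rename Fin.castSucc '' S') ∪
      {MvPolynomial.X (Fin.last r) * MvPolynomial.rename Fin.castSucc G - 1} := ⟨_, rfl⟩
  have hmem : ∀ z : Fin (r + 1) → ℂ, (∀ f ∈ S₁, MvPolynomial.eval z f = 0) ↔
      (∀ f ∈ S, MvPolynomial.eval (z ∘ Fin.castSucc) f = 0) ∧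
      (∀ f ∈ S', MvPolynomial.eval (z ∘ Fin.castSucc) f = 0) ∧
      z (Fin.last r) * MvPolynomial.eval (z ∘ Fin.castSucc) G = 1 := by
    intro z
    rw [hS₁]
    constructor
    · intro h
      refine ⟨fun f hf => ?_, fun f hf => ?_, ?_⟩
      · rw [← MvPolynomial.eval_rename]
        exact h _ (Or.inl (Or.inl ⟨f, hf, rfl⟩))
      · rw [← MvPolynomial.eval_rename]
        exact h _ (Or.inl (Or.inr ⟨f, hf, rfl⟩))
      · have h1 := h _ (Or.inr rfl)
        rw [map_sub, map_mul, MvPolynomial.eval_X, MvPolynomial.eval_rename, map_one, sub_eq_zero] at h1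
        exact h1
    · rintro ⟨h1, h2, h3⟩ f ((⟨f, hf, rfl⟩ | ⟨f, hf, rfl⟩) | hf)
      · rw [MvPolynomial.eval_rename]
        exact h1 f hf
      · rw [MvPolynomial.eval_rename]
        exact h2 f hf
      · rw [Set.mem_singleton_iff] at hf
        rw [hf, map_sub, map_mul, MvPolynomial.eval_X, MvPolynomial.eval_rename, map_one, h3, sub_self]
  have hdeg : ∀ f ∈ S₁, f.totalDegree ≤ max d (N₁ + 1) := by
    rw [hS₁]
    rintro f ((⟨f, hf, rfl⟩ | ⟨f, hf, rfl⟩) | hf)
    · exact le_trans (MvPolynomial.totalDegree_rename_le _ _) (le_trans (hS f hf) (le_max_left _ _))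
    · exact le_trans (MvPolynomial.totalDegree_rename_le _ _)
        (le_trans (hS' f hf) (le_trans (by omega) (le_max_right _ _)))
    · rw [Set.mem_singleton_iff] at hf
      rw [hf]
      refine le_trans (MvPolynomial.totalDegree_sub _ _) (max_le ?_ ?_)
      · refine le_trans (MvPolynomial.totalDegree_mul _ _) ?_
        rw [MvPolynomial.totalDegree_X]
        have h1 := le_trans (MvPolynomial.totalDegree_rename_le (Fin.castSucc : Fin r → Fin (r + 1)) G) hGd
        exact le_trans (by omega) (le_max_right _ _)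
      · rw [MvPolynomial.totalDegree_one]
        exact Nat.zero_le _
  have hfin : {z : Fin (r + 1) → ℂ | ∀ f ∈ S₁, MvPolynomial.eval z f = 0}.Finite := by
    refine Set.Finite.subset (Set.Finite.biUnion hT (t := fun M => {z : Fin (r + 1) → ℂ |
      Module.finrank ℂ M.direction ≤ e ∧ z ∘ Fin.castSucc ∈ M ∧
        (∀ f ∈ S', MvPolynomial.eval (z ∘ Fin.castSucc) f = 0) ∧
        z (Fin.last r) * MvPolynomial.eval (z ∘ Fin.castSucc) G = 1}) fun M hM => ?_) ?_
    · refine Set.Subsingleton.finite ?_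
      rintro z ⟨h1, h2, h3, h4⟩ z' ⟨-, h2', h3', h4'⟩
      have h5 : z ∘ Fin.castSucc = z' ∘ Fin.castSucc := hsub M hM h1 ⟨h2, h3⟩ ⟨h2', h3'⟩
      rw [← h5] at h4'
      have h6 : MvPolynomial.eval (z ∘ Fin.castSucc) G ≠ 0 := by
        intro h
        rw [h, mul_zero] at h4
        exact zero_ne_one h4
      have h7 : z (Fin.last r) = z' (Fin.last r) := mul_right_cancel₀ h6 (h4.trans h4'.symm)
      funext i
      refine Fin.lastCases h7 (fun j => ?_) i
      exact congrFun h5 j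
    · intro z hz
      obtain ⟨h1, h2, h3⟩ := (hmem z).1 hz
      have h4 : z ∘ Fin.castSucc ∈ {y : Fin r → ℂ | ∀ f ∈ S, MvPolynomial.eval y f = 0} := h1
      rw [hU, Set.mem_iUnion₂] at h4
      obtain ⟨M, hM, hzM⟩ := h4
      rw [Set.mem_iUnion₂]
      refine ⟨M, hM, ?_, hzM, h2, h3⟩
      by_contra hlt
      rw [hG0 M hM (by omega) _ hzM, mul_zero] at h3
      exact zero_ne_one h3
  refine le_trans ?_ (hN₂ S₁ hdeg hfin)
  have hval : ∀ (M : AffineSubspace ℂ (Fin r → ℂ)) (c : ℂ),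
      (Fin.snoc (α := fun _ => ℂ) (p M) c : Fin (r + 1) → ℂ) ∘ Fin.castSucc = p M := by
    intro M c
    funext i
    exact Fin.snoc_castSucc (α := fun _ => ℂ) c (p M) i
  refine Set.ncard_le_ncard_of_injOn (fun M => (Fin.snoc (α := fun _ => ℂ) (p M)
    (MvPolynomial.eval (p M) G)⁻¹ : Fin (r + 1) → ℂ)) ?_ ?_ hfin
  · rintro M ⟨hM, he⟩
    refine (hmem _).2 ⟨?_, ?_, ?_⟩
    · rw [hval]
      have h1 : p M ∈ ⋃ M ∈ T, (M : Set (Fin r → ℂ)) :=
        Set.mem_iUnion₂.2 ⟨M, hM, hpM M hM (hne M hM) he⟩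
      rw [← hU] at h1
      exact h1
    · rw [hval]
      exact hpS M hM (hne M hM) he
    · rw [hval, Fin.snoc_last]
      exact inv_mul_cancel₀ (hGp M hM he)
  · rintro M ⟨hM, he⟩ M' ⟨hM', he'⟩ h
    have h1 : p M = p M' := by
      have h2 := congrArg (fun z : Fin (r + 1) → ℂ => z ∘ Fin.castSucc) h
      simp only [hval] at h2
      exact h2
    by_contra hne'
    refine hpn M hM (hne M hM) he M' hM' (fun h3 => hne' h3.symm) ?_
    rw [h1]
    exact hpM M' hM' (hne M' hM') he'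

/-- The number of components of large dimension. -/
private theorem SC4_ind (r d k : ℕ) : ∃ N : ℕ, ∀ S : Set (P r), (∀ f ∈ S, f.totalDegree ≤ d) →
    ∀ T : Set (AffineSubspace ℂ (Fin r → ℂ)), T.Finite →
      {y : Fin r → ℂ | ∀ f ∈ S, MvPolynomial.eval y f = 0} = ⋃ M ∈ T, (M : Set (Fin r → ℂ)) →
      (∀ M ∈ T, (M : Set (Fin r → ℂ)).Nonempty) → (∀ M ∈ T, ∀ M' ∈ T, M ≤ M' → M = M') →
      {M ∈ T | r < Module.finrank ℂ M.direction + k}.ncard ≤ N := by
  induction k with
  | zero =>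
    refine ⟨0, fun S _ T _ _ _ _ => ?_⟩
    have h1 : {M ∈ T | r < Module.finrank ℂ M.direction + 0} = ∅ := by
      rw [Set.eq_empty_iff_forall_notMem]
      rintro M ⟨-, hM⟩
      have h2 := Submodule.finrank_le M.direction
      rw [Module.finrank_fin_fun] at h2
      omega
    rw [h1, Set.ncard_empty]
  | succ k ih =>
    obtain ⟨N₁, hN₁⟩ := ih
    obtain ⟨N₂, hN₂⟩ := SC4_level r d N₁
    refine ⟨N₁ + N₂, fun S hS T hT hU hne hanti => ?_⟩
    have h1 := hN₁ S hS T hT hU hne hanti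
    by_cases hk : k ≤ r
    · have e1 : {M ∈ T | r - k < Module.finrank ℂ M.direction} =
          {M ∈ T | r < Module.finrank ℂ M.direction + k} := by
        ext M
        constructor
        · rintro ⟨h2, h3⟩
          exact ⟨h2, by omega⟩
        · rintro ⟨h2, h3⟩
          exact ⟨h2, by omega⟩
      have h2 := hN₂ S hS T hT hU hne hanti (r - k) (by rw [e1]; exact h1)
      have h3 : {M ∈ T | r < Module.finrank ℂ M.direction + (k + 1)} ⊆
          {M ∈ T | r < Module.finrank ℂ M.direction + k} ∪ {M ∈ T | Module.finrank ℂ M.direction = r - k} := by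
        rintro M ⟨h3, h4⟩
        by_cases h5 : r < Module.finrank ℂ M.direction + k
        · exact Or.inl ⟨h3, h5⟩
        · exact Or.inr ⟨h3, by omega⟩
      have h4 := Set.ncard_le_ncard h3 ((hT.subset fun M hM => hM.1).union (hT.subset fun M hM => hM.1))
      have h5 := Set.ncard_union_le {M ∈ T | r < Module.finrank ℂ M.direction + k}
        {M ∈ T | Module.finrank ℂ M.direction = r - k}
      omega
    · have e1 : {M ∈ T | r < Module.finrank ℂ M.direction + (k + 1)} =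
          {M ∈ T | r < Module.finrank ℂ M.direction + k} := by
        ext M
        constructor
        · rintro ⟨h2, h3⟩
          exact ⟨h2, by omega⟩
        · rintro ⟨h2, h3⟩
          exact ⟨h2, by omega⟩
      rw [e1]
      omega

theorem comp_bound (r d : ℕ) : ∃ N : ℕ, ∀ S : Set (P r), (∀ f ∈ S, f.totalDegree ≤ d) →
    (∃ T : Set (AffineSubspace ℂ (Fin r → ℂ)), T.Finite ∧
      {y : Fin r → ℂ | ∀ f ∈ S, MvPolynomial.eval y f = 0} = ⋃ M ∈ T, (M : Set (Fin r → ℂ))) →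
    ∃ T : Finset (AffineSubspace ℂ (Fin r → ℂ)), T.card ≤ N ∧
      {y : Fin r → ℂ | ∀ f ∈ S, MvPolynomial.eval y f = 0} = ⋃ M ∈ T, (M : Set (Fin r → ℂ)) := by
  obtain ⟨N, hN⟩ := SC4_ind r d (r + 1)
  refine ⟨N, ?_⟩
  rintro S hS ⟨T, hT, hU⟩
  -- the nonempty maximal elements
  obtain ⟨T', hT'⟩ : ∃ T' : Set (AffineSubspace ℂ (Fin r → ℂ)),
      T' = {M ∈ T | (M : Set (Fin r → ℂ)).Nonempty ∧ ∀ M' ∈ T, M ≤ M' → M = M'} := ⟨_, rfl⟩
  have hsub : T' ⊆ T := by
    rw [hT']
    exact fun M hM => hM.1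
  have hf : T'.Finite := hT.subset hsub
  have hU' : {y : Fin r → ℂ | ∀ f ∈ S, MvPolynomial.eval y f = 0} = ⋃ M ∈ T', (M : Set (Fin r → ℂ)) := by
    rw [hU]
    ext y
    rw [Set.mem_iUnion₂, Set.mem_iUnion₂]
    constructor
    · rintro ⟨M, hM, hy⟩
      obtain ⟨M', hle, hmax⟩ := hT.exists_le_maximal hM
      refine ⟨M', ?_, hle hy⟩
      rw [hT']
      exact ⟨hmax.prop, ⟨y, hle hy⟩, fun M'' h1 h2 => hmax.eq_of_le h1 h2⟩
    · rintro ⟨M, hM, hy⟩
      exact ⟨M, hsub hM, hy⟩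
  have hne : ∀ M ∈ T', (M : Set (Fin r → ℂ)).Nonempty := by
    intro M hM
    rw [hT'] at hM
    exact hM.2.1
  have hanti : ∀ M ∈ T', ∀ M' ∈ T', M ≤ M' → M = M' := by
    intro M hM M' hM' hle
    rw [hT'] at hM
    exact hM.2.2 M' (hsub hM') hle
  refine ⟨hf.toFinset, ?_, ?_⟩
  · have h1 := hN S hS T' hf hU' hne hanti
    have h2 : {M ∈ T' | r < Module.finrank ℂ M.direction + (r + 1)} = T' := by
      ext M
      exact ⟨fun h => h.1, fun h => ⟨h, by omega⟩⟩
    rw [h2, Set.ncard_eq_toFinset_card _ hf] at h1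
    exact h1
  · rw [hU']
    ext y
    rw [Set.mem_iUnion₂, Set.mem_iUnion₂]
    constructor
    · rintro ⟨M, hM, hy⟩
      exact ⟨M, hf.mem_toFinset.2 hM, hy⟩
    · rintro ⟨M, hM, hy⟩
      exact ⟨M, hf.mem_toFinset.1 hM, hy⟩

end Pool.Agent.Lib.MP_8ce23f_nt.RR
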