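import Pool.Agent.Lib.MP_8ce23f_nt.RR.SDefs

/-!
# Power series as Laurent series
-/

namespace Pool.Agent.Lib.MP_8ce23f_nt.RR

theorem algebraMap_LF (c : ℂ) : algebraMap ℂ LF c = HahnSeries.C c := by
  rw [HahnSeries.algebraMap_apply']
  rw [PowerSeries.algebraMap_apply, Algebra.algebraMap_self, RingHom.id_apply,
    HahnSeries.ofPowerSeries_C]

/-- Power series as Laurent series. -/
noncomputable def psAlg : PowerSeries ℂ →ₐ[ℂ] LF :=
  { HahnSeries.ofPowerSeries ℤ ℂ with
    commutes' := fun c => by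
      rw [algebraMap_LF]
      show HahnSeries.ofPowerSeries ℤ ℂ (algebraMap ℂ (PowerSeries ℂ) c) = _
      rw [PowerSeries.algebraMap_apply, Algebra.algebraMap_self, RingHom.id_apply,
        HahnSeries.ofPowerSeries_C] }

theorem psAlg_apply (f : PowerSeries ℂ) : psAlg f = HahnSeries.ofPowerSeries ℤ ℂ f := rfl

theorem psAlg_injective : Function.Injective psAlg := HahnSeries.ofPowerSeries_injective

/-- The elements of `K` without a pole. -/
noncomputable def valO {K : Type} [Field K] [Algebra ℂ K] (σ : K →ₐ[ℂ] LF) : Subalgebra ℂ K :=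
  psAlg.range.comap σ

end Pool.Agent.Lib.MP_8ce23f_nt.RR
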