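import Pool.Agent.Lib.MP_8ce23f_nt.RR.Sym

/-!
# Arcs at infinity: definitions
-/

namespace Pool.Agent.Lib.MP_8ce23f_nt.RR

variable {r : ℕ}

/-- `p(δ + u β)` as a polynomial in `u`, with coefficients polynomials in `δ`. -/
noncomputable def lin (β : Fin r → ℂ) : P r →ₐ[ℂ] Polynomial (P r) :=
  MvPolynomial.aeval fun i =>
    Polynomial.C (MvPolynomial.X i) + Polynomial.C (MvPolynomial.C (β i)) * Polynomial.X

/-- The coefficient of `u^i` in `D_k(δ + u β)`. -/
noncomputable def hc (D : ℕ → P r) (β : Fin r → ℂ) (k i : ℕ) : P r := (lin β (D k)).coeff i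

/-- The part of level `n`: `∑_i x^i [u^i] f_{n+i}(δ + u β)`. -/
noncomputable def lv (β : Fin r → ℂ) (n : ℕ) (f : ℕ → P r) : PowerSeries (P r) :=
  PowerSeries.mk fun i => hc f β (n + i) i

/-- The coefficient of `δ^m` in the part of level `n`. -/
noncomputable def psi (D : ℕ → P r) (β : Fin r → ℂ) (n : ℕ) (m : Fin r →₀ ℕ) : PowerSeries ℂ :=
  PowerSeries.mk fun i => MvPolynomial.coeff m (hc D β (n + i) i)

/-- The part of level `-1`. -/
noncomputable def psiTop (D : ℕ → P r) (β : Fin r → ℂ) : PowerSeries ℂ :=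
  PowerSeries.mk fun i => if i = 0 then 0 else MvPolynomial.coeff 0 (hc D β (i - 1) i)

/-- An algebra of power series, closed under the derivative, over which the variable is
transcendental. -/
structure DK (K : Subalgebra ℂ (PowerSeries ℂ)) : Prop where
  der : ∀ f ∈ K, PowerSeries.derivative ℂ f ∈ K
  tr : ∀ (n : ℕ) (c : ℕ → PowerSeries ℂ), (∀ i, c i ∈ K) →
    ∑ i ∈ Finset.range n, PowerSeries.X ^ i * c i = 0 → ∀ i < n, c i = 0

/-- The condition used to separate the levels. -/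
structure Lev (D : ℕ → P r) (β : Fin r → ℂ) (K : Subalgebra ℂ (PowerSeries ℂ)) : Prop
    extends DK K where
  top : PowerSeries.derivative ℂ (PowerSeries.derivative ℂ (psiTop D β)) ∈ K
  dpsi : ∀ n m, PowerSeries.derivative ℂ (psi D β n m) ∈ K
  lev : ∀ n m, 1 ≤ n → m ≠ 0 → psi D β n m ∈ K

/-- Laurent series. -/
abbrev LF : Type := LaurentSeries ℂ

/-- A pole of order at most `n`. -/
def dle (n : ℤ) (f : LF) : Prop := ∀ e : ℤ, e < -n → f.coeff e = 0

/-- The point `δ + s β`. -/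
noncomputable def bpt (s : LF) (δ : Fin r → LF) (β : Fin r → ℂ) : Fin r → LF :=
  fun i => δ i + s * algebraMap ℂ LF (β i)

/-- `s` has a pole of order exactly `N ≥ 1` and `δ` one of order at most `N - 1`. -/
structure Arc (N : ℤ) (s : LF) (δ : Fin r → LF) : Prop where
  one_le : 1 ≤ N
  le : dle N s
  ne : s.coeff (-N) ≠ 0
  del : ∀ i, dle (N - 1) (δ i)

/-- The hypotheses on the polynomials `D k`. -/
structure LD (D : ℕ → P r) : Prop where
  zero : D 0 = 0
  deg : ∀ k, 1 ≤ k → (D k).totalDegree ≤ k + 1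
  lev : ∀ β : Fin r → ℂ, ∃ K : Subalgebra ℂ (PowerSeries ℂ), Lev D β K

/-- The equations `D k = e k` for `k ≥ 2`. -/
def eqs (D : ℕ → P r) (e : ℕ → ℂ) : Set (P r) := {p | ∃ k, 2 ≤ k ∧ p = D k - MvPolynomial.C (e k)}

end Pool.Agent.Lib.MP_8ce23f_nt.RR
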