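import Pool.Agent.Lib.MP_8ce23f_nt.RR.SE0

/-!
# Functions algebraic over exponentials

Leaf SE1 of the table `srl`.  Mathlib only; it uses the statement of `exp_poly_indep` (leaf SE0).

`T = Algebra.adjoin ℂ {ex (θ k)}`, `K` = the elements algebraic over `T` (`Subalgebra.algebraicClosure T (PowerSeries ℂ)`, then
`restrictScalars ℂ`); `PowerSeries ℂ` is a domain.  `der`: `T` is stable under the derivative (`(ex c)' = c ex c`); for `f`
algebraic over `T` with a polynomial `p ≠ 0` of minimal degree, `0 = (p(f))' = p^∂(f) + p'(f) f'` and `p'(f) ≠ 0`, so `f'` is algebraic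
(`IsAlgebraic.of_mul` or the quotient argument).  `tr`: if `∑_{i<n} X^i c_i = 0` with `c_i ∈ K` not all zero then `X` is
algebraic over `K`, so over `T` (`K` is algebraic over `T`; transitivity), so there is a nonzero polynomial over `T` with root
`X`; its coefficients are `aeval (ex ∘ θ) (F j)` (`Algebra.adjoin_range_eq_range_aeval`), contradiction to `exp_poly_indep`.
The last property: `IsAlgebraic.of_mul`.
-/

namespace Pool.Agent.Lib.MP_8ce23f_nt.RR

private theorem SE1_ex_der (c : ℂ) :
    PowerSeries.derivative ℂ (ex c : PowerSeries ℂ) = c • (ex c : PowerSeries ℂ) := by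
  ext n
  rw [PowerSeries.coeff_derivative, ex, PowerSeries.coeff_smul, PowerSeries.coeff_rescale,
    PowerSeries.coeff_rescale, PowerSeries.coeff_exp, PowerSeries.coeff_exp, smul_eq_mul, pow_succ,
    Nat.factorial_succ]
  have h : ((n : ℂ) + 1) ≠ 0 := by exact_mod_cast Nat.succ_ne_zero n
  have h2 : ((n.factorial : ℂ)) ≠ 0 := by exact_mod_cast Nat.factorial_ne_zero n
  simp only [one_div, map_inv₀, map_natCast, Nat.cast_mul, Nat.cast_add, Nat.cast_one, map_mul,
    map_add, map_one]
  field_simp

private theorem SE1_T_der {m : ℕ} (θ : Fin m → ℂ) (f : PowerSeries ℂ)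
    (hf : f ∈ Algebra.adjoin ℂ (Set.range fun k => (ex (θ k) : PowerSeries ℂ))) :
    PowerSeries.derivative ℂ f ∈
      Algebra.adjoin ℂ (Set.range fun k => (ex (θ k) : PowerSeries ℂ)) := by
  induction hf using Algebra.adjoin_induction with
  | mem x hx =>
    obtain ⟨k, rfl⟩ := hx
    simp only [SE1_ex_der]
    exact Subalgebra.smul_mem _ (Algebra.subset_adjoin (Set.mem_range_self k)) _
  | algebraMap r =>
    rw [Derivation.map_algebraMap]
    exact Subalgebra.zero_mem _
  | add x y hx hy h1 h2 =>
    rw [map_add]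
    exact Subalgebra.add_mem _ h1 h2
  | mul x y hx hy h1 h2 =>
    rw [Derivation.leibniz, smul_eq_mul, smul_eq_mul]
    exact Subalgebra.add_mem _ (Subalgebra.mul_mem _ hx h2) (Subalgebra.mul_mem _ hy h1)

private theorem SE1_D (T : Subalgebra ℂ (PowerSeries ℂ))
    (hT : ∀ f ∈ T, PowerSeries.derivative ℂ f ∈ T) (f : PowerSeries ℂ) (p : Polynomial T) :
    ∃ q : Polynomial T, PowerSeries.derivative ℂ (Polynomial.aeval f p) =
      Polynomial.aeval f q +
        Polynomial.aeval f (Polynomial.derivative p) * PowerSeries.derivative ℂ f := by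
  induction p using Polynomial.induction_on' with
  | add p q hp hq =>
    obtain ⟨a, ha⟩ := hp
    obtain ⟨b, hb⟩ := hq
    exact ⟨a + b, by simp only [map_add, ha, hb, add_mul]; ring⟩
  | monomial n a =>
    refine ⟨Polynomial.monomial n ⟨PowerSeries.derivative ℂ a.1, hT _ a.2⟩, ?_⟩
    rw [Polynomial.derivative_monomial, Polynomial.aeval_monomial, Polynomial.aeval_monomial,
      Polynomial.aeval_monomial, Derivation.leibniz, Derivation.leibniz_pow]
    simp only [smul_eq_mul, nsmul_eq_mul, map_mul, map_natCast]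
    have e1 : algebraMap T (PowerSeries ℂ) a = a.1 := rfl
    have e2 : algebraMap T (PowerSeries ℂ) ⟨PowerSeries.derivative ℂ a.1, hT _ a.2⟩ =
      PowerSeries.derivative ℂ a.1 := rfl
    rw [e1, e2]
    ring

theorem exists_DK {m : ℕ} {θ : Fin m → ℂ} (hθ : LinearIndependent ℚ θ) :
    ∃ K : Subalgebra ℂ (PowerSeries ℂ), DK K ∧
      (∀ f : PowerSeries ℂ,
        IsAlgebraic (Algebra.adjoin ℂ (Set.range fun k => (ex (θ k) : PowerSeries ℂ))) f → f ∈ K) ∧
      ∀ f ∈ K, ∀ g : PowerSeries ℂ, f ≠ 0 → f * g ∈ K → g ∈ K := by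
  classical
  set T := Algebra.adjoin ℂ (Set.range fun k => (ex (θ k) : PowerSeries ℂ)) with hTdef
  have hTD : ∀ f ∈ T, PowerSeries.derivative ℂ f ∈ T := fun f hf => SE1_T_der θ f hf
  have hcz : CharZero T := charZero_of_injective_algebraMap (algebraMap ℂ T).injective
  have hdiv : ∀ f : PowerSeries ℂ, IsAlgebraic T f → ∀ g : PowerSeries ℂ, f ≠ 0 →
      IsAlgebraic T (f * g) → IsAlgebraic T g := fun f hf g h0 hg =>
    IsAlgebraic.of_mul (mem_nonZeroDivisors_of_ne_zero h0) hf hg
  refine ⟨(Subalgebra.algebraicClosure T (PowerSeries ℂ)).restrictScalars ℂ, ⟨?_, ?_⟩,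
    fun f hf => hf, fun f hf g h0 hg => hdiv f hf g h0 hg⟩
  · intro f hf
    have hf' : IsAlgebraic T f := hf
    obtain ⟨p0, hp0, hp0f⟩ := hf'
    have hex : ∃ d : ℕ, ∃ p : Polynomial T, p.natDegree = d ∧ p ≠ 0 ∧ Polynomial.aeval f p = 0 :=
      ⟨_, p0, rfl, hp0, hp0f⟩
    obtain ⟨p, hpd, hp, hpf⟩ := Nat.find_spec hex
    have hmin := fun (d : ℕ) (hd : d < Nat.find hex) => Nat.find_min hex hd
    rw [← hpd] at hmin
    have hpos : p.natDegree ≠ 0 := by
      intro h0
      obtain ⟨a, ha⟩ := Polynomial.natDegree_eq_zero.mp h0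
      rw [← ha, Polynomial.aeval_C] at hpf
      apply hp
      rw [← ha]
      have : a = 0 := Subtype.ext hpf
      rw [this, map_zero]
    have hder : Polynomial.derivative p ≠ 0 := by
      intro h0
      exact hpos (Polynomial.derivative_eq_zero.mp h0)
    have hlt : (Polynomial.derivative p).natDegree < p.natDegree :=
      Polynomial.natDegree_derivative_lt hpos
    have hne : Polynomial.aeval f (Polynomial.derivative p) ≠ 0 := fun h0 =>
      hmin _ hlt ⟨_, rfl, hder, h0⟩
    obtain ⟨q, hq⟩ := SE1_D T hTD f p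
    rw [hpf, map_zero] at hq
    have hK : ∀ s : Polynomial T, IsAlgebraic T (Polynomial.aeval f s) := by
      intro s
      have h1 : f ∈ Subalgebra.algebraicClosure T (PowerSeries ℂ) := hf
      have h2 : Polynomial.aeval f s ∈ Subalgebra.algebraicClosure T (PowerSeries ℂ) := by
        rw [Polynomial.aeval_eq_sum_range]
        exact Subalgebra.sum_mem _ fun i _ => Subalgebra.smul_mem _ (Subalgebra.pow_mem _ h1 _) _
      exact h2
    have h3 : Polynomial.aeval f (Polynomial.derivative p) * PowerSeries.derivative ℂ f =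
      -Polynomial.aeval f q := by
      linear_combination -hq
    exact hdiv _ (hK _) _ hne (h3 ▸ (hK q).neg)
  · intro n c hc hsum
    by_contra hcon
    push Not at hcon
    obtain ⟨i0, hi0, hci0⟩ := hcon
    let S := Subalgebra.algebraicClosure T (PowerSeries ℂ)
    let p : Polynomial S := ∑ i ∈ Finset.range n, Polynomial.monomial i (⟨c i, hc i⟩ : S)
    have hp : p ≠ 0 := by
      intro h0
      have h1 : p.coeff i0 = 0 := by rw [h0, Polynomial.coeff_zero]
      rw [show p = ∑ i ∈ Finset.range n, Polynomial.monomial i (⟨c i, hc i⟩ : S) from rfl,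
        Polynomial.finsetSum_coeff] at h1
      simp only [Polynomial.coeff_monomial] at h1
      rw [Finset.sum_ite_eq' , if_pos (Finset.mem_range.mpr hi0)] at h1
      exact hci0 (congrArg Subtype.val h1)
    have hpX : Polynomial.aeval (PowerSeries.X : PowerSeries ℂ) p = 0 := by
      rw [show p = ∑ i ∈ Finset.range n, Polynomial.monomial i (⟨c i, hc i⟩ : S) from rfl, map_sum,
        ← hsum]
      refine Finset.sum_congr rfl fun i _ => ?_
      rw [Polynomial.aeval_monomial, mul_comm]
      rfl
    have hXS : IsAlgebraic S (PowerSeries.X : PowerSeries ℂ) := ⟨p, hp, hpX⟩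
    have hXT : IsAlgebraic T (PowerSeries.X : PowerSeries ℂ) := hXS.restrictScalars T
    obtain ⟨q, hq, hqX⟩ := hXT
    have hF : ∀ j : ℕ, ∃ F : P m, MvPolynomial.aeval (fun k => (ex (θ k) : PowerSeries ℂ)) F =
        ((q.coeff j : T) : PowerSeries ℂ) := by
      intro j
      have h1 : ((q.coeff j : T) : PowerSeries ℂ) ∈
        Algebra.adjoin ℂ (Set.range fun k => (ex (θ k) : PowerSeries ℂ)) := (q.coeff j).2
      rw [Algebra.adjoin_range_eq_range_aeval] at h1
      exact h1
    choose F hF using hF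
    have h0 : ∀ j < q.natDegree + 1, F j = 0 := by
      intro j hj
      refine exp_poly_indep hθ (q.natDegree + 1) F ?_ j hj
      rw [← hqX, Polynomial.aeval_eq_sum_range]
      refine Finset.sum_congr rfl fun i _ => ?_
      rw [hF, mul_comm]
      rfl
    apply hq
    ext j
    by_cases hj : j < q.natDegree + 1
    · rw [← hF j, h0 j hj, map_zero]
      simp
    · rw [Polynomial.coeff_eq_zero_of_natDegree_lt (by omega)]
      simp

end Pool.Agent.Lib.MP_8ce23f_nt.RR
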