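import Pool.Agent.Lib.MP_8ce23f_nt.RR.SDefs

/-!
# Extension of a place

Leaf SE3b of the table `srl`.  Mathlib only.

`C = integralClosure O L` is a Dedekind domain (`integralClosure.isDedekindDomain`, separable because characteristic `0`), its
fraction field is `L` (`integralClosure.isFractionRing_of_finite_extension`).  `C` is not a field (`O` is not a field and
`O → C` is injective and integral).  Let `𝔪` be a maximal ideal; its contraction to `O` is maximal
(`Ideal.isMaximal_comap_of_isIntegral_of_isMaximal`), so it is the maximal ideal of `O`.  `C ⧸ 𝔪` is a field, integral over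
`O ⧸ maximalIdeal`, hence integral over `ℂ` (by `hres` every element of `O` is a constant modulo the maximal ideal), so every element of
`C ⧸ 𝔪` is a constant (`IsAlgClosed.algebraMap_bijective_of_isIntegral` or a root argument).
-/

namespace Pool.Agent.Lib.MP_8ce23f_nt.RR

theorem place_ext {O K L : Type} [CommRing O] [IsDomain O] [IsDiscreteValuationRing O]
    [Algebra ℂ O] [Field K] [Algebra O K] [IsFractionRing O K] [CharZero K] [Field L] [Algebra K L]
    [Algebra O L] [IsScalarTower O K L] [FiniteDimensional K L]
    (hres : ∀ x : O, ∃ c : ℂ, x - algebraMap ℂ O c ∈ IsLocalRing.maximalIdeal O) :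
    IsDedekindDomain (integralClosure O L) ∧ IsFractionRing (integralClosure O L) L ∧
      ∃ 𝔪 : Ideal (integralClosure O L), 𝔪.IsMaximal ∧ 𝔪 ≠ ⊥ ∧
        (∀ x ∈ IsLocalRing.maximalIdeal O, algebraMap O (integralClosure O L) x ∈ 𝔪) ∧
        ∀ x : integralClosure O L, ∃ c : ℂ,
          x - algebraMap O (integralClosure O L) (algebraMap ℂ O c) ∈ 𝔪 := by
  have hsep : Algebra.IsSeparable K L := inferInstance
  have hD : IsDedekindDomain (integralClosure O L) := integralClosure.isDedekindDomain O K L
  have hF : IsFractionRing (integralClosure O L) L :=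
    integralClosure.isFractionRing_of_finite_extension K L
  refine ⟨hD, hF, ?_⟩
  have hOL : Function.Injective (algebraMap O L) := by
    rw [IsScalarTower.algebraMap_eq O K L]
    exact (algebraMap K L).injective.comp (IsFractionRing.injective O K)
  have hOC : Function.Injective (algebraMap O (integralClosure O L)) := by
    intro a b hab
    apply hOL
    have h := congrArg (algebraMap (integralClosure O L) L) hab
    rwa [← IsScalarTower.algebraMap_apply, ← IsScalarTower.algebraMap_apply] at h
  have hint : Algebra.IsIntegral O (integralClosure O L) := inferInstance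
  obtain ⟨𝔪, hmax, hcomap⟩ := Ideal.exists_ideal_over_maximal_of_isIntegral
    (S := integralClosure O L) (IsLocalRing.maximalIdeal O)
    (by rw [(RingHom.injective_iff_ker_eq_bot _).1 hOC]; exact bot_le)
  have hmem : ∀ x ∈ IsLocalRing.maximalIdeal O, algebraMap O (integralClosure O L) x ∈ 𝔪 := by
    intro x hx
    rw [← hcomap] at hx
    exact hx
  refine ⟨𝔪, hmax, ?_, hmem, ?_⟩
  · intro hbot
    have hne : IsLocalRing.maximalIdeal O ≠ ⊥ := IsDiscreteValuationRing.not_a_field O
    apply hne
    rw [eq_bot_iff]
    intro x hx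
    have h1 := hmem x hx
    rw [hbot, Ideal.mem_bot] at h1
    rw [Ideal.mem_bot]
    apply hOC
    rw [h1, map_zero]
  · intro x
    let g : O →+* (integralClosure O L ⧸ 𝔪) :=
      (Ideal.Quotient.mk 𝔪).comp (algebraMap O (integralClosure O L))
    have hg : g.IsIntegral :=
      RingHom.IsIntegral.trans _ _ (algebraMap_isIntegral_iff.2 hint)
        (RingHom.isIntegral_of_surjective _ Ideal.Quotient.mk_surjective)
    let gb : (O ⧸ IsLocalRing.maximalIdeal O) →+* (integralClosure O L ⧸ 𝔪) :=
      Ideal.Quotient.lift _ g (fun a ha => Ideal.Quotient.eq_zero_iff_mem.2 (hmem a ha))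
    have hgb : gb.IsIntegral := by
      have h1 : (gb.comp (Ideal.Quotient.mk (IsLocalRing.maximalIdeal O))).IsIntegral := by
        rw [Ideal.Quotient.lift_comp_mk]
        exact hg
      exact RingHom.IsIntegral.tower_top _ _ h1
    let cO : ℂ →+* (O ⧸ IsLocalRing.maximalIdeal O) :=
      (Ideal.Quotient.mk (IsLocalRing.maximalIdeal O)).comp (algebraMap ℂ O)
    have hcO : Function.Surjective cO := by
      intro y
      obtain ⟨a, rfl⟩ := Ideal.Quotient.mk_surjective y
      obtain ⟨c, hc⟩ := hres a
      refine ⟨c, ?_⟩
      exact (Ideal.Quotient.eq.2 hc).symm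
    have hf : (gb.comp cO).IsIntegral :=
      RingHom.IsIntegral.trans _ _ (RingHom.isIntegral_of_surjective _ hcO) hgb
    have hbij := IsAlgClosed.ringHom_bijective_of_isIntegral (gb.comp cO) hf
    obtain ⟨c, hc⟩ := hbij.2 (Ideal.Quotient.mk 𝔪 x)
    refine ⟨c, ?_⟩
    rw [← Ideal.Quotient.eq_zero_iff_mem, map_sub, sub_eq_zero]
    exact hc.symm

end Pool.Agent.Lib.MP_8ce23f_nt.RR
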