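import Pool.Agent.Lib.MP_8ce23f_nt.RR.SDefs

/-!
# Expansion in power series at a place

Leaf SE3c of the table `srl`.  Mathlib only.

First for a discrete valuation ring `O` with an algebra structure over `ℂ` such that every element is a constant modulo the
maximal ideal: let `ϖ` be a uniformizer, `c x ∈ ℂ` the constant (`c` is a ring homomorphism `O → ℂ`), `S x = (x - c x) / ϖ` (`ℂ`-linear),
`T x = ∑ c (S^n x) X^n`.  `T x = c x + X T (S x)`, `S (x y) = S x * y + c x * S y`; so
`T (x y) - T x * T y = X (T (S x * y) - T (S x) * T y)`, hence (induction on the order) `T` is multiplicative.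
`T x = 0` means `x ∈ ⋂ (ϖ^n) = 0` (`Ideal.iInf_pow_eq_bot_of_isLocalRing`).
Then `C`: `Localization.AtPrime 𝔪` is a discrete valuation ring (`IsLocalization.AtPrime.isDiscreteValuationRing_of_dedekind_domain`),
`C →` localization is injective, and elements `c/s` of the localization are constants modulo the maximal ideal.
-/

namespace Pool.Agent.Lib.MP_8ce23f_nt.RR

theorem expand_dvr {O : Type} [CommRing O] [IsDomain O] [IsDiscreteValuationRing O] [Algebra ℂ O]
    (hres : ∀ x : O, ∃ c : ℂ, x - algebraMap ℂ O c ∈ IsLocalRing.maximalIdeal O) :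
    ∃ τ : O →ₐ[ℂ] PowerSeries ℂ, Function.Injective τ ∧
      ∀ x ∈ IsLocalRing.maximalIdeal O, PowerSeries.constantCoeff (τ x) = 0 := by
  classical
  set m := IsLocalRing.maximalIdeal O with hmdef
  have hnt : Nontrivial (O ⧸ m) := Ideal.Quotient.nontrivial_iff.mpr (IsLocalRing.maximalIdeal.isMaximal O).ne_top
  have hbij : Function.Bijective (Algebra.ofId ℂ (O ⧸ m)) := by
    refine ⟨(algebraMap ℂ (O ⧸ m)).injective, fun z => ?_⟩
    obtain ⟨x, rfl⟩ := Ideal.Quotient.mk_surjective z
    obtain ⟨c, hc⟩ := hres x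
    refine ⟨c, ?_⟩
    change Ideal.Quotient.mk m (algebraMap ℂ O c) = Ideal.Quotient.mk m x
    rw [eq_comm, Ideal.Quotient.eq]
    exact hc
  let e := AlgEquiv.ofBijective (Algebra.ofId ℂ (O ⧸ m)) hbij
  let c : O →ₐ[ℂ] ℂ := (e.symm : (O ⧸ m) →ₐ[ℂ] ℂ).comp (Ideal.Quotient.mkₐ ℂ m)
  have hc0 : ∀ x ∈ m, c x = 0 := by
    intro x hx
    change e.symm (Ideal.Quotient.mk m x) = 0
    rw [Ideal.Quotient.eq_zero_iff_mem.mpr hx, map_zero]
  have hcc : ∀ a : ℂ, c (algebraMap ℂ O a) = a := fun a => c.commutes a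
  have hcm : ∀ x, x - algebraMap ℂ O (c x) ∈ m := by
    intro x
    obtain ⟨a, ha⟩ := hres x
    have h1 : c x = a := by
      have h2 := hc0 _ ha
      rw [map_sub, hcc, sub_eq_zero] at h2
      exact h2
    rw [h1]
    exact ha
  obtain ⟨ϖ, hϖ⟩ := IsDiscreteValuationRing.exists_irreducible O
  have hm : m = Ideal.span {ϖ} := hϖ.maximalIdeal_eq
  have hϖ0 : ϖ ≠ 0 := hϖ.ne_zero
  have hex : ∀ x, ∃ y, x - algebraMap ℂ O (c x) = ϖ * y := by
    intro x
    have h1 := hcm x
    rw [hm, Ideal.mem_span_singleton] at h1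
    exact h1
  choose S₀ hS₀ using hex
  let S : O →ₗ[ℂ] O :=
    { toFun := S₀
      map_add' := by
        intro x y
        apply mul_left_cancel₀ hϖ0
        rw [mul_add, ← hS₀, ← hS₀, ← hS₀, map_add, map_add]
        ring
      map_smul' := by
        intro a x
        apply mul_left_cancel₀ hϖ0
        rw [RingHom.id_apply, mul_smul_comm, ← hS₀, ← hS₀, map_smul, smul_eq_mul, map_mul, smul_sub,
          Algebra.smul_def, Algebra.smul_def] }
  have hS : ∀ x, x - algebraMap ℂ O (c x) = ϖ * S x := hS₀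
  have hSmul : ∀ x y, S (x * y) = S x * y + c x • S y := by
    intro x y
    apply mul_left_cancel₀ hϖ0
    rw [mul_add, ← mul_assoc, mul_smul_comm, ← hS, ← hS, ← hS, map_mul, map_mul, Algebra.smul_def]
    ring
  have hS1 : S 1 = 0 := by
    apply mul_left_cancel₀ hϖ0
    rw [← hS, map_one, map_one, sub_self, mul_zero]
  let T : O →ₗ[ℂ] PowerSeries ℂ :=
    { toFun := fun x => PowerSeries.mk fun n => c ((S ^ n) x)
      map_add' := by
        intro x y
        ext n
        rw [map_add, PowerSeries.coeff_mk, PowerSeries.coeff_mk, PowerSeries.coeff_mk, map_add, map_add]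
      map_smul' := by
        intro a x
        ext n
        rw [RingHom.id_apply, PowerSeries.coeff_smul, PowerSeries.coeff_mk, PowerSeries.coeff_mk, map_smul, map_smul] }
  have hT : ∀ n x, PowerSeries.coeff n (T x) = c ((S ^ n) x) := by
    intro n x
    change PowerSeries.coeff n (PowerSeries.mk fun n => c ((S ^ n) x)) = _
    rw [PowerSeries.coeff_mk]
  have hsucc : ∀ n x, (S ^ (n + 1)) x = (S ^ n) (S x) := fun n x => by rw [pow_succ, Module.End.mul_apply]
  have hT1 : T 1 = 1 := by
    ext n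
    rw [hT, PowerSeries.coeff_one]
    cases n with
    | zero => rw [if_pos rfl, pow_zero, Module.End.one_apply, map_one]
    | succ n => rw [if_neg (Nat.succ_ne_zero n), hsucc, hS1, map_zero, map_zero]
  have hTm : ∀ x y, T (x * y) = T x * T y := by
    have key : ∀ n x y, c ((S ^ n) (x * y)) =
        ∑ p ∈ Finset.HasAntidiagonal.antidiagonal n, c ((S ^ p.1) x) * c ((S ^ p.2) y) := by
      intro n
      induction n with
      | zero =>
        intro x y
        simp
      | succ n ih =>
        intro x y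
        rw [hsucc, hSmul, map_add, map_add, map_smul, map_smul, smul_eq_mul, ih,
          Finset.Nat.sum_antidiagonal_succ, pow_zero, Module.End.one_apply, hsucc, add_comm]
        congr 1
    intro x y
    ext n
    rw [hT, PowerSeries.coeff_mul, key]
    exact Finset.sum_congr rfl fun p _ => by rw [hT, hT]
  refine ⟨AlgHom.ofLinearMap T hT1 hTm, ?_, fun x hx => ?_⟩
  · rw [injective_iff_map_eq_zero]
    intro x hx
    have hx' : T x = 0 := hx
    have h1 : ∀ n, c ((S ^ n) x) = 0 := fun n => by rw [← hT, hx', map_zero]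
    have h2 : ∀ n, x = ϖ ^ n * (S ^ n) x := by
      intro n
      induction n with
      | zero => rw [pow_zero, pow_zero, Module.End.one_apply, one_mul]
      | succ n ih =>
        have h3 := hS ((S ^ n) x)
        rw [h1 n, map_zero, sub_zero] at h3
        have h4 : (S ^ (n + 1)) x = S ((S ^ n) x) := by rw [pow_succ', Module.End.mul_apply]
        rw [h4, pow_succ, mul_assoc, ← h3]
        exact ih
    have h3 : x ∈ ⨅ n : ℕ, m ^ n := by
      rw [Ideal.mem_iInf]
      intro n
      rw [h2 n, hm, Ideal.span_singleton_pow]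
      exact Ideal.mul_mem_right _ _ (Ideal.mem_span_singleton_self _)
    rw [Ideal.iInf_pow_eq_bot_of_isLocalRing m (IsLocalRing.maximalIdeal.isMaximal O).ne_top] at h3
    exact h3
  · change PowerSeries.constantCoeff (T x) = 0
    rw [← PowerSeries.coeff_zero_eq_constantCoeff_apply, hT, pow_zero, Module.End.one_apply]
    exact hc0 x hx

theorem expand {C : Type} [CommRing C] [IsDedekindDomain C] [Algebra ℂ C]
    {𝔪 : Ideal C} (hm : 𝔪.IsMaximal) (h0 : 𝔪 ≠ ⊥)
    (hres : ∀ x : C, ∃ c : ℂ, x - algebraMap ℂ C c ∈ 𝔪) :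
    ∃ τ : C →ₐ[ℂ] PowerSeries ℂ, Function.Injective τ ∧
      ∀ x ∈ 𝔪, PowerSeries.constantCoeff (τ x) = 0 := by
  classical
  have := hm.isPrime
  let L := Localization.AtPrime 𝔪
  have hdvr : IsDiscreteValuationRing L :=
    IsLocalization.AtPrime.isDiscreteValuationRing_of_dedekind_domain C h0 L
  have hmem : ∀ x : C, algebraMap C L x ∈ IsLocalRing.maximalIdeal L ↔ x ∈ 𝔪 := fun x =>
    IsLocalization.AtPrime.to_map_mem_maximal_iff L 𝔪 x
  have hresL : ∀ x : L, ∃ c : ℂ, x - algebraMap ℂ L c ∈ IsLocalRing.maximalIdeal L := by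
    intro x
    obtain ⟨⟨a, s⟩, has⟩ := IsLocalization.surj 𝔪.primeCompl x
    simp only at has
    obtain ⟨ca, hca⟩ := hres a
    obtain ⟨cs, hcs⟩ := hres (s : C)
    have hs : (s : C) ∉ 𝔪 := s.2
    have hcs0 : cs ≠ 0 := by
      rintro rfl
      rw [map_zero, sub_zero] at hcs
      exact hs hcs
    refine ⟨ca / cs, ?_⟩
    have hprod : (x - algebraMap ℂ L (ca / cs)) * algebraMap C L s ∈ IsLocalRing.maximalIdeal L := by
      have h1 : (x - algebraMap ℂ L (ca / cs)) * algebraMap C L s =
          algebraMap C L ((a - algebraMap ℂ C ca) - algebraMap ℂ C (ca / cs) * (s - algebraMap ℂ C cs)) := by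
        have h2 : algebraMap ℂ C ca = algebraMap ℂ C (ca / cs) * algebraMap ℂ C cs := by
          rw [← map_mul, div_mul_cancel₀ _ hcs0]
        have h3 : (a - algebraMap ℂ C ca) - algebraMap ℂ C (ca / cs) * (s - algebraMap ℂ C cs) =
            a - algebraMap ℂ C (ca / cs) * s := by
          rw [h2]
          ring
        rw [h3, map_sub, map_mul, ← has, ← IsScalarTower.algebraMap_apply ℂ C L, sub_mul]
      rw [h1, hmem]
      exact 𝔪.sub_mem hca (𝔪.mul_mem_left _ hcs)
    rcases (IsLocalRing.maximalIdeal.isMaximal L).isPrime.mem_or_mem hprod with h | h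
    · exact h
    · exact absurd ((hmem s).mp h) hs
  obtain ⟨τ, hτ, h⟩ := expand_dvr (O := L) hresL
  refine ⟨τ.comp (IsScalarTower.toAlgHom ℂ C L), ?_, fun x hx => ?_⟩
  · exact hτ.comp (IsLocalization.injective L 𝔪.primeCompl_le_nonZeroDivisors)
  · exact h _ ((hmem x).mpr hx)

end Pool.Agent.Lib.MP_8ce23f_nt.RR
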