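import Pool.Agent.Lib.MP_8ce23f_nt.RR.SE3a
import Pool.Agent.Lib.MP_8ce23f_nt.RR.SE3b
import Pool.Agent.Lib.MP_8ce23f_nt.RR.SE3c

/-!
# Extension of an embedding into Laurent series

Leaf SE3 of the table `srl`.  It uses the statements of SE3a, SE3b, SE3c.

`K = FractionRing P₀`, `σ` extends to `K → LF` (`IsFractionRing.lift`, as an algebra homomorphism over `ℂ`); `L = FractionRing R` is a
finite extension of `K` (finitely generated as a field over `K` by the images of finitely many generators of `R`, all algebraic);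
`O = valO σ`, `u = 1/t`.  `place_ext` gives `C` and `𝔪`, `expand` (with the algebra structure `ℂ → O → C`) gives `τ : C → ℂ[[X]]` injective,
which extends to `L → LF` (`IsFractionRing.lift` of `C → PowerSeries ℂ → LF`, the last map is `psAlg` of SD2); restrict to `R`.  `u ∈ 𝔪`, so `ι u` has no
coefficient at exponents `≤ 0`, and `ι t * ι u = 1`; so `ι t` has a pole.
-/

namespace Pool.Agent.Lib.MP_8ce23f_nt.RR

private theorem SE3_fin {P₀ R K L : Type} [CommRing P₀] [IsDomain P₀] [CommRing R] [IsDomain R]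
    [Algebra P₀ R] [Algebra.IsAlgebraic P₀ R] [Algebra ℂ R] [Algebra.FiniteType ℂ R] [Field K]
    [Algebra P₀ K] [IsFractionRing P₀ K] [Field L] [Algebra R L] [IsFractionRing R L] [Algebra K L]
    [Algebra P₀ L] [IsScalarTower P₀ R L] [IsScalarTower P₀ K L] [Algebra ℂ K] [Algebra ℂ L]
    [IsScalarTower ℂ K L] [IsScalarTower ℂ R L] : FiniteDimensional K L := by
  have h2 : Algebra.EssFiniteType R L := Algebra.EssFiniteType.of_isLocalization L (nonZeroDivisors R)
  have h3 : Algebra.EssFiniteType ℂ L := Algebra.EssFiniteType.comp ℂ R L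
  have h4 : Algebra.EssFiniteType K L := Algebra.EssFiniteType.of_comp ℂ K L
  have ha : ∀ a : R, IsAlgebraic K (algebraMap R L a) := by
    intro a
    have h5 : IsAlgebraic P₀ (algebraMap R L a) :=
      (Algebra.IsAlgebraic.isAlgebraic (R := P₀) a).algebraMap
    exact h5.extendScalars (IsFractionRing.injective P₀ K)
  have halg : ∀ x : L, IsAlgebraic K x := by
    intro x
    obtain ⟨a, b, _, rfl⟩ := IsFractionRing.div_surjective (A := R) x
    rw [div_eq_mul_inv]
    exact (ha a).mul (ha b).inv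
  obtain ⟨S, hS⟩ := IntermediateField.fg_top K L
  have h5 : FiniteDimensional K (IntermediateField.adjoin K (S : Set L)) :=
    IntermediateField.finiteDimensional_adjoin fun x _ => (halg x).isIntegral
  rw [hS] at h5
  exact Module.Finite.equiv (IntermediateField.topEquiv (F := K) (E := L)).toLinearEquiv

private theorem SE3_abs {O K L : Type} [CommRing O] [IsDomain O] [IsDiscreteValuationRing O]
    [Algebra ℂ O] [Field K] [Algebra O K] [IsFractionRing O K] [CharZero K] [Field L] [Algebra K L]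
    [Algebra O L] [IsScalarTower O K L] [FiniteDimensional K L]
    (hres : ∀ x : O, ∃ c : ℂ, x - algebraMap ℂ O c ∈ IsLocalRing.maximalIdeal O) :
    ∃ ψ : L →+* LF, (∀ c : ℂ, ψ (algebraMap O L (algebraMap ℂ O c)) = algebraMap ℂ LF c) ∧
      ∀ x ∈ IsLocalRing.maximalIdeal O, ∃ s : PowerSeries ℂ, PowerSeries.constantCoeff s = 0 ∧
        ψ (algebraMap O L x) = psAlg s := by
  obtain ⟨hD, hF, 𝔪, hmax, hne, hle, hconst⟩ := place_ext (K := K) (L := L) hres
  let _ : Algebra ℂ (integralClosure O L) :=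
    ((algebraMap O (integralClosure O L)).comp (algebraMap ℂ O)).toAlgebra
  obtain ⟨τ, hτ, hτm⟩ := expand (C := integralClosure O L) hmax hne hconst
  have hinj : Function.Injective ((psAlg : PowerSeries ℂ →+* LF).comp
      (τ : integralClosure O L →+* PowerSeries ℂ)) := psAlg_injective.comp hτ
  have key : ∀ x : O, IsFractionRing.lift (K := L) hinj (algebraMap O L x) =
      psAlg (τ (algebraMap O (integralClosure O L) x)) := by
    intro x
    rw [IsScalarTower.algebraMap_apply O (integralClosure O L) L, IsFractionRing.lift_algebraMap]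
    rfl
  refine ⟨IsFractionRing.lift (K := L) hinj, fun c => ?_, fun x hx => ?_⟩
  · rw [key]
    have h1 : algebraMap O (integralClosure O L) (algebraMap ℂ O c) =
        algebraMap ℂ (integralClosure O L) c := rfl
    rw [h1, AlgHom.commutes, AlgHom.commutes]
  · exact ⟨τ (algebraMap O (integralClosure O L) x), hτm _ (hle x hx), key x⟩

private theorem SE3_mid {K L : Type} [Field K] [Algebra ℂ K] [Field L] [Algebra K L]
    [FiniteDimensional K L] (σ : K →ₐ[ℂ] LF) {u : K} (hu : σ u = HahnSeries.single (1 : ℤ) (1 : ℂ)) :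
    ∃ (ψ : L →+* LF) (s : PowerSeries ℂ),
      (∀ c : ℂ, ψ (algebraMap K L (algebraMap ℂ K c)) = algebraMap ℂ LF c) ∧
      PowerSeries.constantCoeff s = 0 ∧ ψ (algebraMap K L u) = psAlg s := by
  obtain ⟨h, hfr, hres, hu', hum⟩ := valO_dvr σ hu
  have hc : CharZero K := charZero_of_injective_algebraMap (algebraMap ℂ K).injective
  obtain ⟨ψ, h1, h2⟩ := SE3_abs (O := valO σ) (K := K) (L := L) hres
  obtain ⟨s, hs, h3⟩ := h2 _ hum
  exact ⟨ψ, s, h1, hs, h3⟩

private theorem SE3_pole {y : LF} {s : PowerSeries ℂ} (hs : PowerSeries.constantCoeff s = 0)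
    (h : y * psAlg s = 1) : ∃ n : ℕ, 1 ≤ n ∧ y.coeff (-(n : ℤ)) ≠ 0 := by
  have hy : y ≠ 0 := left_ne_zero_of_mul_eq_one h
  have hs0 : psAlg s ≠ 0 := right_ne_zero_of_mul_eq_one h
  have h1 : y.order + (psAlg s).order = 0 := by
    rw [← HahnSeries.order_mul hy hs0, h, HahnSeries.order_one]
  have h2 : 1 ≤ (psAlg s).order := by
    by_contra hcon
    have h3 : (psAlg s).coeff (psAlg s).order ≠ 0 := fun h5 => hs0 (HahnSeries.coeff_order_eq_zero.1 h5)
    apply h3
    have h4 : ∀ e : ℤ, e < 1 → (psAlg s).coeff e = 0 := by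
      intro e he
      rw [psAlg_apply, PowerSeries.coeff_coe]
      split_ifs with h5
      · rfl
      · have h6 : e = 0 := by omega
        rw [h6, Int.natAbs_zero, PowerSeries.coeff_zero_eq_constantCoeff_apply, hs]
    exact h4 _ (by omega)
  refine ⟨(-y.order).toNat, by omega, ?_⟩
  have h3 : -(((-y.order).toNat : ℕ) : ℤ) = y.order := by omega
  rw [h3]
  exact fun h5 => hy (HahnSeries.coeff_order_eq_zero.1 h5)

theorem extend_arc {P₀ R : Type} [CommRing P₀] [IsDomain P₀] [Algebra ℂ P₀] [CommRing R]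
    [IsDomain R] [Algebra ℂ R] [Algebra P₀ R] [IsScalarTower ℂ P₀ R]
    (hinj : Function.Injective (algebraMap P₀ R)) [Algebra.IsAlgebraic P₀ R]
    [Algebra.FiniteType ℂ R] (σ : P₀ →ₐ[ℂ] LF) (hσ : Function.Injective σ) (t : P₀)
    (ht : σ t = HahnSeries.single (-1 : ℤ) (1 : ℂ)) :
    ∃ ι : R →ₐ[ℂ] LF, Function.Injective ι ∧
      ∃ n : ℕ, 1 ≤ n ∧ (ι (algebraMap P₀ R t)).coeff (-(n : ℤ)) ≠ 0 := by
  have hinj' : FaithfulSMul P₀ R := (faithfulSMul_iff_algebraMap_injective P₀ R).2 hinj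
  let K := FractionRing P₀
  let L := FractionRing R
  have hPL : Function.Injective (algebraMap P₀ L) := by
    rw [IsScalarTower.algebraMap_eq P₀ R L]
    exact (IsFractionRing.injective R L).comp hinj
  let _ : Algebra K L := (IsFractionRing.lift (K := K) hPL).toAlgebra
  have hKL : ∀ x : P₀, algebraMap K L (algebraMap P₀ K x) = algebraMap P₀ L x := fun x =>
    IsFractionRing.lift_algebraMap hPL x
  have _ : IsScalarTower P₀ K L := IsScalarTower.of_algebraMap_eq fun x => (hKL x).symm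
  have hCL : ∀ c : ℂ, algebraMap K L (algebraMap ℂ K c) = algebraMap ℂ L c := by
    intro c
    rw [IsScalarTower.algebraMap_apply ℂ P₀ K, hKL, IsScalarTower.algebraMap_apply P₀ R L,
      ← IsScalarTower.algebraMap_apply ℂ P₀ R, ← IsScalarTower.algebraMap_apply ℂ R L]
  have _ : IsScalarTower ℂ K L := IsScalarTower.of_algebraMap_eq fun c => (hCL c).symm
  have hfin : FiniteDimensional K L := SE3_fin (P₀ := P₀) (R := R) (K := K) (L := L)
  obtain ⟨σK, hσK⟩ : ∃ σK : K →ₐ[ℂ] LF, ∀ x : P₀, σK (algebraMap P₀ K x) = σ x := by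
    have h1 : ∀ x : P₀, IsFractionRing.lift (K := K) (g := (σ : P₀ →+* LF)) hσ (algebraMap P₀ K x) = σ x :=
      fun x => IsFractionRing.lift_algebraMap (K := K) (g := (σ : P₀ →+* LF)) hσ x
    refine ⟨{ IsFractionRing.lift (K := K) (g := (σ : P₀ →+* LF)) hσ with
      commutes' := fun c => ?_ }, h1⟩
    show IsFractionRing.lift (K := K) (g := (σ : P₀ →+* LF)) hσ (algebraMap ℂ K c) = algebraMap ℂ LF c
    rw [IsScalarTower.algebraMap_apply ℂ P₀ K, h1, AlgHom.commutes]
  have ht0 : algebraMap P₀ K t ≠ 0 := by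
    intro h
    have h1 := hσK t
    rw [h, map_zero, ht] at h1
    exact one_ne_zero (HahnSeries.single_eq_zero_iff.1 h1.symm)
  have hu : σK (algebraMap P₀ K t)⁻¹ = HahnSeries.single (1 : ℤ) (1 : ℂ) := by
    have h1 : σK (algebraMap P₀ K t)⁻¹ = (HahnSeries.single (-1 : ℤ) (1 : ℂ) : LF)⁻¹ := by
      rw [map_inv₀, hσK, ht]
    rw [h1]
    refine inv_eq_of_mul_eq_one_right ?_
    rw [HahnSeries.single_mul_single, neg_add_cancel, mul_one]
    rfl
  obtain ⟨ψ, s, hψ, hs, hψu⟩ := SE3_mid (L := L) σK hu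
  obtain ⟨ι, hι⟩ : ∃ ι : R →ₐ[ℂ] LF, ∀ x : R, ι x = ψ (algebraMap R L x) := by
    refine ⟨{ ψ.comp (algebraMap R L) with commutes' := fun c => ?_ }, fun x => rfl⟩
    show ψ (algebraMap R L (algebraMap ℂ R c)) = algebraMap ℂ LF c
    rw [← IsScalarTower.algebraMap_apply ℂ R L, ← hCL, hψ]
  refine ⟨ι, ?_, ?_⟩
  · intro x y hxy
    rw [hι, hι] at hxy
    exact IsFractionRing.injective R L (ψ.injective hxy)
  · refine SE3_pole hs ?_
    rw [hι, ← hψu, ← IsScalarTower.algebraMap_apply P₀ R L, ← hKL, ← map_mul, ← map_mul,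
      mul_inv_cancel₀ ht0, map_one, map_one]

end Pool.Agent.Lib.MP_8ce23f_nt.RR
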