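import Pool.Agent.Lib.MP_8ce23f_nt.RR.SD2

/-!
# The discrete valuation ring of an embedding into Laurent series

Leaf SE3a of the table `srl`.  Mathlib only.

`u` with `σ u = single 1 1` is a uniformizer: for `x ≠ 0` in `K`, with `n` the order of `σ x`, `x = u^n y` where `σ y` has order
`0`, so `y` and `y⁻¹` are in `valO σ` (see SD2; the range of `psAlg` is the set of series without negative exponents).
CAUTION: there are two non-defeq algebra structures of `ℂ` on Laurent series; use `algebraMap_LF` of SD2, never `simp` lemmas about smul.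
Use `IsDiscreteValuationRing.ofHasUnitMulPowIrreducibleFactorization` (`HasUnitMulPowIrreducibleFactorization`), and
`IsFractionRing`: `x = y / u^k`.  The maximal ideal is the set of `x` with `(σ x).coeff 0 = 0`.
-/

namespace Pool.Agent.Lib.MP_8ce23f_nt.RR

private theorem SE3a_inv {K : Type} [Field K] [Algebra ℂ K] (σ : K →ₐ[ℂ] LF) {a : K}
    {f : PowerSeries ℂ} (hf : psAlg f = σ a) (h0 : PowerSeries.constantCoeff f ≠ 0) :
    psAlg f⁻¹ = σ a⁻¹ := by
  have h : psAlg f * psAlg f⁻¹ = 1 := by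
    rw [← map_mul, PowerSeries.mul_inv_cancel f h0, map_one]
  rw [map_inv₀, ← hf]
  exact eq_inv_of_mul_eq_one_right h

private theorem SE3a_unit {K : Type} [Field K] [Algebra ℂ K] (σ : K →ₐ[ℂ] LF) {a : valO σ}
    {f : PowerSeries ℂ} (hf : psAlg f = σ (a : K)) (h0 : PowerSeries.constantCoeff f ≠ 0) :
    IsUnit a := by
  have hne : (a : K) ≠ 0 := by
    intro h
    rw [h, map_zero] at hf
    have h1 : f = 0 := psAlg_injective (by rw [hf, map_zero])
    exact h0 (by rw [h1, map_zero])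
  have hm : (a : K)⁻¹ ∈ valO σ := ⟨f⁻¹, SE3a_inv σ hf h0⟩
  exact IsUnit.of_mul_eq_one ⟨(a : K)⁻¹, hm⟩ (Subtype.ext (mul_inv_cancel₀ hne))

private theorem SE3a_nunit {K : Type} [Field K] [Algebra ℂ K] (σ : K →ₐ[ℂ] LF) {a : valO σ}
    {f : PowerSeries ℂ} (hf : psAlg f = σ (a : K)) (h0 : PowerSeries.constantCoeff f = 0) :
    ¬ IsUnit a := by
  intro ha
  obtain ⟨b, hb⟩ := ha.exists_right_inv
  obtain ⟨g, hg⟩ := b.2
  have hg' : psAlg g = σ (b : K) := hg
  have hab : (a : K) * (b : K) = 1 := congrArg Subtype.val hb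
  have h1 : psAlg (f * g) = psAlg 1 := by
    rw [map_mul, map_one, hf, hg', ← map_mul, hab, map_one]
  have h2 := congrArg PowerSeries.constantCoeff (psAlg_injective h1)
  rw [map_mul, h0, zero_mul, map_one] at h2
  exact zero_ne_one h2

private theorem SE3a_fac {K : Type} [Field K] [Algebra ℂ K] (σ : K →ₐ[ℂ] LF) {u : K}
    (hu : σ u = HahnSeries.single (1 : ℤ) (1 : ℂ)) {x : K} (hx : x ≠ 0) :
    ∃ (n : ℤ) (f : PowerSeries ℂ), PowerSeries.constantCoeff f ≠ 0 ∧
      psAlg f = σ (x * u ^ (-n)) := by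
  have hs : σ x ≠ 0 := (map_ne_zero σ).2 hx
  refine ⟨(σ x).order, LaurentSeries.powerSeriesPart (σ x), ?_, ?_⟩
  · rw [← PowerSeries.coeff_zero_eq_constantCoeff_apply, LaurentSeries.powerSeriesPart_coeff,
      Nat.cast_zero, add_zero]
    exact HahnSeries.coeff_order_eq_zero.not.2 hs
  · rw [psAlg_apply, LaurentSeries.ofPowerSeries_powerSeriesPart, map_mul, map_zpow₀, hu,
      ← RatFunc.single_zpow, mul_comm]

private theorem SE3a_psX {K : Type} [Field K] [Algebra ℂ K] (σ : K →ₐ[ℂ] LF) {u : K}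
    (hu : σ u = HahnSeries.single (1 : ℤ) (1 : ℂ)) : psAlg PowerSeries.X = σ u := by
  rw [hu, psAlg_apply, HahnSeries.ofPowerSeries_X]

private theorem SE3a_nonneg {K : Type} [Field K] [Algebra ℂ K] (σ : K →ₐ[ℂ] LF) {u : K}
    (hu : σ u = HahnSeries.single (1 : ℤ) (1 : ℂ)) {x : K} {g : PowerSeries ℂ}
    (hg : psAlg g = σ x) {n : ℤ} {f : PowerSeries ℂ} (h0 : PowerSeries.constantCoeff f ≠ 0)
    (hf : psAlg f = σ (x * u ^ (-n))) : 0 ≤ n := by
  by_contra hn
  obtain ⟨m, hm⟩ : ∃ m : ℕ, -n = ((m + 1 : ℕ) : ℤ) := ⟨(-n - 1).toNat, by omega⟩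
  have h1 : psAlg f = psAlg (g * PowerSeries.X ^ (m + 1)) := by
    rw [hf, hm, zpow_natCast, map_mul, map_mul, map_pow, map_pow, hg, SE3a_psX σ hu]
  have h2 := psAlg_injective h1
  rw [h2, map_mul, map_pow, PowerSeries.constantCoeff_X, pow_succ, mul_zero, mul_zero] at h0
  exact h0 rfl

theorem valO_dvr {K : Type} [Field K] [Algebra ℂ K] (σ : K →ₐ[ℂ] LF) {u : K}
    (hu : σ u = HahnSeries.single (1 : ℤ) (1 : ℂ)) :
    ∃ h : IsDiscreteValuationRing (valO σ), IsFractionRing (valO σ) K ∧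
      (∀ x : valO σ, ∃ c : ℂ,
        x - algebraMap ℂ (valO σ) c ∈ IsLocalRing.maximalIdeal (valO σ)) ∧
      ∃ hu' : u ∈ valO σ, (⟨u, hu'⟩ : valO σ) ∈ IsLocalRing.maximalIdeal (valO σ) := by
  have hu0 : u ≠ 0 := by
    intro h
    rw [h, map_zero] at hu
    have h1 := congrArg (fun s : LF => s.coeff 1) hu
    simp only [HahnSeries.coeff_zero, HahnSeries.coeff_single_same] at h1
    exact zero_ne_one h1
  have hX := SE3a_psX σ hu
  have hu' : u ∈ valO σ := ⟨PowerSeries.X, hX⟩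
  have hnu : ¬ IsUnit (⟨u, hu'⟩ : valO σ) := SE3a_nunit σ hX PowerSeries.constantCoeff_X
  have hirr : Irreducible (⟨u, hu'⟩ : valO σ) := by
    refine ⟨hnu, fun a b hab => ?_⟩
    obtain ⟨f, hf⟩ := a.2
    obtain ⟨g, hg⟩ := b.2
    have hf' : psAlg f = σ (a : K) := hf
    have hg' : psAlg g = σ (b : K) := hg
    have hab' : u = (a : K) * (b : K) := congrArg Subtype.val hab
    have h1 : psAlg PowerSeries.X = psAlg (f * g) := by
      rw [hX, map_mul, hf', hg', ← map_mul, ← hab']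
    have h2 := psAlg_injective h1
    by_cases hf0 : PowerSeries.constantCoeff f = 0
    · by_cases hg0 : PowerSeries.constantCoeff g = 0
      · exfalso
        have h3 := congrArg (PowerSeries.coeff 1) h2
        obtain ⟨f1, rfl⟩ := PowerSeries.X_dvd_iff.2 hf0
        obtain ⟨g1, rfl⟩ := PowerSeries.X_dvd_iff.2 hg0
        rw [PowerSeries.coeff_one_X, mul_assoc, PowerSeries.coeff_succ_X_mul] at h3
        rw [PowerSeries.coeff_zero_eq_constantCoeff_apply, map_mul, map_mul,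
          PowerSeries.constantCoeff_X, zero_mul, mul_zero] at h3
        exact one_ne_zero h3
      · exact Or.inr (SE3a_unit σ hg' hg0)
    · exact Or.inl (SE3a_unit σ hf' hf0)
  have hfac : IsDiscreteValuationRing.HasUnitMulPowIrreducibleFactorization (valO σ) := by
    refine ⟨⟨u, hu'⟩, hirr, fun {x} hx => ?_⟩
    have hx' : (x : K) ≠ 0 := fun h => hx (Subtype.ext h)
    obtain ⟨n, f, h0, hf⟩ := SE3a_fac σ hu hx'
    obtain ⟨g, hg⟩ := x.2
    have hn := SE3a_nonneg σ hu hg h0 hf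
    obtain ⟨k, rfl⟩ := Int.eq_ofNat_of_zero_le hn
    have hy : (x : K) * u ^ (-(k : ℤ)) ∈ valO σ := ⟨f, hf⟩
    have hyu : IsUnit (⟨(x : K) * u ^ (-(k : ℤ)), hy⟩ : valO σ) := SE3a_unit σ hf h0
    refine ⟨k, hyu.unit, Subtype.ext ?_⟩
    show u ^ k * ((x : K) * u ^ (-(k : ℤ))) = (x : K)
    rw [zpow_neg, zpow_natCast, mul_comm (x : K), ← mul_assoc, mul_inv_cancel₀ (pow_ne_zero k hu0),
      one_mul]
  have hdvr : IsDiscreteValuationRing (valO σ) :=
    IsDiscreteValuationRing.ofHasUnitMulPowIrreducibleFactorization hfac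
  refine ⟨hdvr, ?_, ?_, hu', ?_⟩
  · refine IsFractionRing.of_field _ _ fun z => ?_
    by_cases hz : z = 0
    · refine ⟨0, 1, ?_⟩
      rw [hz, map_zero, zero_div]
    obtain ⟨n, f, h0, hf⟩ := SE3a_fac σ hu hz
    have hy : z * u ^ (-n) ∈ valO σ := ⟨f, hf⟩
    refine ⟨⟨z * u ^ (-n), hy⟩ * ⟨u, hu'⟩ ^ n.toNat, ⟨u, hu'⟩ ^ (-n).toNat, ?_⟩
    show z = z * u ^ (-n) * u ^ n.toNat / u ^ (-n).toNat
    rw [eq_div_iff (pow_ne_zero _ hu0), ← zpow_natCast, ← zpow_natCast, mul_assoc,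
      ← zpow_add₀ hu0]
    exact congrArg (fun t : ℤ => z * u ^ t) (by omega)
  · intro x
    obtain ⟨f, hf⟩ := x.2
    have hf' : psAlg f = σ (x : K) := hf
    refine ⟨PowerSeries.constantCoeff f, ?_⟩
    rw [IsLocalRing.mem_maximalIdeal, mem_nonunits_iff]
    refine SE3a_nunit (f := f - algebraMap ℂ (PowerSeries ℂ) (PowerSeries.constantCoeff f)) σ ?_ ?_
    · show psAlg (f - algebraMap ℂ (PowerSeries ℂ) (PowerSeries.constantCoeff f)) =
        σ ((x : K) - algebraMap ℂ K (PowerSeries.constantCoeff f))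
      rw [map_sub, map_sub, hf', AlgHom.commutes, AlgHom.commutes]
    · rw [map_sub, PowerSeries.algebraMap_apply, Algebra.algebraMap_self, RingHom.id_apply,
        PowerSeries.constantCoeff_C, sub_self]
  · rw [IsLocalRing.mem_maximalIdeal, mem_nonunits_iff]
    exact hnu

end Pool.Agent.Lib.MP_8ce23f_nt.RR
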