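import Pool.Agent.Lib.MP_8ce23f_nt.RR.SDefs
import Pool.Agent.Lib.MP_8ce23f_nt.RR.Symbol

/-!
# Levels: definitions

A series `f` with `WB f` (coefficient `k` of degree at most `k`) is cut into its levels: `lev n f` has as coefficient of
`τ^j` the part of degree `j` of `f_{n+j}`.  So `lev n f` is a function of the variable `y = τ X`: coefficient `j` is
homogeneous of degree `j` (`HH`).  `dy l` is the derivative with respect to `y_l`.
-/

namespace Pool.Agent.Lib.MP_8ce23f_nt.RR

variable {r : ℕ}

/-- The sequence with the constant term replaced by `0`. -/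
noncomputable def Dz (D : ℕ → P r) : ℕ → P r := fun k => if k = 0 then 0 else D k

/-- The part of level `n`. -/
noncomputable def lev (n : ℕ) (f : PowerSeries (P r)) : PowerSeries (P r) :=
  PowerSeries.mk fun j => MvPolynomial.homogeneousComponent j (PowerSeries.coeff (n + j) f)

/-- Coefficient `j` is homogeneous of degree `j`. -/
def HH (f : PowerSeries (P r)) : Prop := ∀ j, (PowerSeries.coeff j f).IsHomogeneous j

/-- The derivative with respect to the variable `y_l`. -/
noncomputable def dy (l : Fin r) (f : PowerSeries (P r)) : PowerSeries (P r) :=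
  PowerSeries.mk fun j => MvPolynomial.pderiv l (PowerSeries.coeff (j + 1) f)

/-- The `t`-th Taylor coefficient in the direction `v`. -/
noncomputable def Lt (v : Fin r → ℂ) (t : ℕ) (f : PowerSeries (P r)) : PowerSeries (P r) :=
  PowerSeries.mk fun j => (lin v (PowerSeries.coeff (j + t) f)).coeff t

/-- The part of level `m - 1` of the `D k`. -/
noncomputable def Wl (D : ℕ → P r) (m : ℕ) : PowerSeries (P r) :=
  PowerSeries.mk fun j => MvPolynomial.homogeneousComponent j (D (m + j - 1))

/-- The coefficient of `δ^m` at the point `δ + x β`. -/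
noncomputable def Pm (β : Fin r → ℂ) (m : Fin r →₀ ℕ) (f : PowerSeries (P r)) : PowerSeries ℂ :=
  PowerSeries.mk fun i => MvPolynomial.coeff m ((lin β (PowerSeries.coeff (i + m.degree) f)).coeff i)

/-- The Jacobian matrix over the power series. -/
noncomputable def JB (A : Matrix (Fin r) (Fin r) ℂ) (q : Fin r → PowerSeries (P r)) :
    Matrix (Fin r) (Fin r) (PowerSeries (P r)) :=
  Jm (fun i j => PowerSeries.C (MvPolynomial.C (A i j))) q

/-- An algebra of functions of `y`, closed under the derivatives. -/
structure Cls (C : Subalgebra ℂ (PowerSeries (P r))) : Prop where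
  hh : ∀ f ∈ C, HH f
  cl : ∀ f ∈ C, ∀ l, dy l f ∈ C

end Pool.Agent.Lib.MP_8ce23f_nt.RR
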