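import Pool.Agent.Lib.MP_8ce23f_nt.RR.SF06
import Pool.Agent.Lib.MP_8ce23f_nt.RR.SFDefs

/-!
# Evaluation at `β`

`Algebra.adjoin_induction`; the image of `det (JB A q)` is in `K` (`det_mem` of SF06, or `Matrix.det_apply`) and nonzero (its product with the image of `w` is `1`),
so `hdiv` gives the image of `w`.
-/

namespace Pool.Agent.Lib.MP_8ce23f_nt.RR

variable {r : ℕ}

theorem eval_mem {K : Subalgebra ℂ (PowerSeries ℂ)}
    (hdiv : ∀ f ∈ K, ∀ g : PowerSeries ℂ, f ≠ 0 → f * g ∈ K → g ∈ K) {β : Fin r → ℂ}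
    {A : Matrix (Fin r) (Fin r) ℂ} {q : Fin r → PowerSeries (P r)} {w : PowerSeries (P r)}
    (hq : ∀ i, PowerSeries.map (MvPolynomial.eval β) (q i) ∈ K) (hw : (JB A q).det * w = 1)
    {f : PowerSeries (P r)} (hf : f ∈ Algebra.adjoin ℂ (Set.range q ∪ {w})) :
    PowerSeries.map (MvPolynomial.eval β) f ∈ K := by
  have hC : ∀ c : ℂ, PowerSeries.map (MvPolynomial.eval β) (PowerSeries.C (MvPolynomial.C c)) ∈ K := by
    intro c
    rw [PowerSeries.map_C, MvPolynomial.eval_C]
    exact K.algebraMap_mem c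
  have hdet : PowerSeries.map (MvPolynomial.eval β) (JB A q).det ∈ K := by
    rw [RingHom.map_det]
    refine det_mem K fun i j => ?_
    rw [RingHom.mapMatrix_apply, Matrix.map_apply, JB, Jm, Matrix.of_apply, map_add, map_mul, map_sub, map_one]
    refine K.add_mem ?_ (K.mul_mem (K.sub_mem K.one_mem (hq i)) (hC _))
    split_ifs
    · exact hq i
    · rw [map_zero]
      exact K.zero_mem
  have h1 : PowerSeries.map (MvPolynomial.eval β) (JB A q).det *
      PowerSeries.map (MvPolynomial.eval β) w = 1 := by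
    rw [← map_mul, hw, map_one]
  refine Algebra.adjoin_induction (p := fun f _ => PowerSeries.map (MvPolynomial.eval β) f ∈ K)
    ?_ ?_ ?_ ?_ hf
  · rintro x (⟨i, rfl⟩ | rfl)
    · exact hq i
    · refine hdiv _ hdet _ ?_ ?_
      · intro h0
        rw [h0, zero_mul] at h1
        exact zero_ne_one h1
      · rw [h1]
        exact K.one_mem
  · intro c
    rw [PowerSeries.algebraMap_apply, MvPolynomial.algebraMap_eq]
    exact hC c
  · intro x y _ _ hx hy
    rw [map_add]
    exact K.add_mem hx hy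
  · intro x y _ _ hx hy
    rw [map_mul]
    exact K.mul_mem hx hy

end Pool.Agent.Lib.MP_8ce23f_nt.RR
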