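import Pool.Agent.Lib.MP_8ce23f_nt.RR.SFDefs
import Pool.Agent.Lib.MP_8ce23f_nt.RR.N12
import Pool.Agent.Lib.MP_8ce23f_nt.RR.N15
import Pool.Agent.Lib.MP_8ce23f_nt.RR.N09

/-!
# The functions `q_i` on a line are algebraic over exponentials

As in the first part of the proof of `flat_span` (file `N16.lean`): `PowerSeries.map (lsub b)` of `h.sym` and `alg_q` (`N15.lean`) give: `map (lsub b) (q i)` is algebraic
over `TT m`.  Apply the ring homomorphism `PowerSeries.map (eval θ) : PowerSeries (P m) → PowerSeries ℂ`: it maps `TT m` into the adjoin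
(`zMap p ↦ aeval (ex (θ k)) p`), injectively (`ex_inj` of `N12.lean`), so the image of a nonzero polynomial is nonzero.
`eval θ (lsub b p) = eval β p`.
-/

namespace Pool.Agent.Lib.MP_8ce23f_nt.RR

variable {r : ℕ}

private theorem SF13_eval_lsub {m : ℕ} (b : Fin r → Fin m → ℤ) {x : Fin r → ℂ} {σ : Fin m → ℂ}
    (hx : ∀ i, x i = ∑ k, (b i k : ℂ) * σ k) (p : P r) :
    MvPolynomial.eval σ (lsub b p) = MvPolynomial.eval x p := by
  have h : ((MvPolynomial.aeval σ : P m →ₐ[ℂ] ℂ).comp (lsub b)) = (MvPolynomial.aeval x : P r →ₐ[ℂ] ℂ) := by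
    refine MvPolynomial.algHom_ext fun i => ?_
    rw [AlgHom.comp_apply, lsub, MvPolynomial.aeval_X, map_sum, MvPolynomial.aeval_X, hx i]
    refine Finset.sum_congr rfl fun k _ => ?_
    rw [map_mul, MvPolynomial.aeval_X, MvPolynomial.aeval_C]
    rfl
  exact DFunLike.congr_fun h p

private theorem SF13_map {m : ℕ} (θ : Fin m → ℂ) (p : P m) :
    PowerSeries.map (MvPolynomial.eval θ) (zMap m p) =
      MvPolynomial.aeval (fun k => (ex (θ k) : PowerSeries ℂ)) p := by
  have h2 : ((PowerSeries.map (MvPolynomial.eval θ)).comp (zMap m : P m →+* PowerSeries (P m))) =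
      ((MvPolynomial.aeval (fun k => (ex (θ k) : PowerSeries ℂ)) : P m →ₐ[ℂ] PowerSeries ℂ) :
        P m →+* PowerSeries ℂ) := by
    refine MvPolynomial.ringHom_ext (fun c => ?_) fun k => ?_
    · rw [RingHom.comp_apply]
      have h3 : (zMap m : P m →+* PowerSeries (P m)) (MvPolynomial.C c) =
          PowerSeries.C (MvPolynomial.C c) := by
        have h4 : zMap m (MvPolynomial.C c) = algebraMap ℂ (PowerSeries (P m)) c := AlgHom.commutes _ _
        exact h4.trans PowerSeries.algebraMap_apply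
      rw [h3, PowerSeries.map_C, MvPolynomial.eval_C]
      have h5 : (MvPolynomial.aeval (fun k => (ex (θ k) : PowerSeries ℂ)) : P m →ₐ[ℂ] PowerSeries ℂ)
          (MvPolynomial.C c) = algebraMap ℂ (PowerSeries ℂ) c := AlgHom.commutes _ _
      exact (h5.trans PowerSeries.algebraMap_apply).symm
    · rw [RingHom.comp_apply]
      have h3 : (zMap m : P m →+* PowerSeries (P m)) (MvPolynomial.X k) = ex (MvPolynomial.X k) :=
        MvPolynomial.aeval_X _ _
      rw [h3, map_ex, MvPolynomial.eval_X]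
      exact (MvPolynomial.aeval_X (R := ℂ) (fun k => (ex (θ k) : PowerSeries ℂ)) k).symm
  exact congrArg (fun f : P m →+* PowerSeries ℂ => f p) h2

theorem q_alg {A : Matrix (Fin r) (Fin r) ℚ} {Q : Fin r → ℂ} {V : ℕ → P r}
    {q : Fin r → PowerSeries (P r)} (h : IsTop (A.map fun x : ℚ => (x : ℂ)) Q V q)
    (h0 : ∀ i, Q i ≠ 0) (h1 : ∀ i, Q i ≠ 1)
    (hd : (Jm (A.map fun x : ℚ => (x : ℂ)) Q).det ≠ 0) {β : Fin r → ℂ} {m : ℕ} {θ : Fin m → ℂ}
    {b : Fin r → Fin m → ℤ} (hθ : LinearIndependent ℚ θ) (hb : ∀ i, β i = ∑ k, (b i k : ℂ) * θ k)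
    (i : Fin r) :
    IsAlgebraic (Algebra.adjoin ℂ (Set.range fun k => (ex (θ k) : PowerSeries ℂ)))
      (PowerSeries.map (MvPolynomial.eval β) (q i)) := by
  classical
  set φ : P r →+* P m := (lsub b : P r →ₐ[ℂ] P m).toRingHom with hφdef
  have hφC : ∀ c : ℂ, φ (MvPolynomial.C c) = MvPolynomial.C c := fun c => by
    have := (lsub b : P r →ₐ[ℂ] P m).commutes c
    exact this
  have hφX : ∀ i, φ (MvPolynomial.X i) = ∑ k, MvPolynomial.C (b i k : ℂ) * MvPolynomial.X k := fun i => by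
    show (lsub b : P r →ₐ[ℂ] P m) (MvPolynomial.X i) = _
    rw [lsub, MvPolynomial.aeval_X]
  have hsym : IsSym (fun i j => (MvPolynomial.C ((A i j : ℚ) : ℂ) : P m)) (fun i => MvPolynomial.C (Q i))
      (fun i => ∑ k, MvPolynomial.C (b i k : ℂ) * MvPolynomial.X k)
      (fun i => PowerSeries.map φ (q i)) (fun i => PowerSeries.map φ (Uu V i)) := by
    have h2 := h.sym.map φ
    simp only [hφC, hφX] at h2
    exact h2
  obtain ⟨p, hp0, hp⟩ := alg_q b hsym h0 h1 hd i
  have hmem : ∀ t : TT m, PowerSeries.map (MvPolynomial.eval θ) (t : PowerSeries (P m)) ∈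
      Algebra.adjoin ℂ (Set.range fun k => (ex (θ k) : PowerSeries ℂ)) := by
    rintro ⟨t, p', rfl⟩
    rw [Algebra.adjoin_range_eq_range_aeval]
    exact ⟨p', (SF13_map θ p').symm⟩
  let ψ : TT m →+* Algebra.adjoin ℂ (Set.range fun k => (ex (θ k) : PowerSeries ℂ)) :=
    ((PowerSeries.map (MvPolynomial.eval θ)).comp (TT m).val.toRingHom).codRestrict
      (Algebra.adjoin ℂ (Set.range fun k => (ex (θ k) : PowerSeries ℂ))) hmem
  have hψ : Function.Injective ψ := by
    rw [injective_iff_map_eq_zero]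
    rintro ⟨t, p', rfl⟩ ht
    have h2 : PowerSeries.map (MvPolynomial.eval θ) (zMap m p') = 0 := congrArg Subtype.val ht
    have h3 := ex_inj hθ h2
    refine Subtype.ext ?_
    change zMap m p' = 0
    rw [h3, map_zero]
  have hq : PowerSeries.map (MvPolynomial.eval β) (q i) =
      PowerSeries.map (MvPolynomial.eval θ) (PowerSeries.map φ (q i)) := by
    ext n
    rw [PowerSeries.coeff_map, PowerSeries.coeff_map, PowerSeries.coeff_map]
    exact (SF13_eval_lsub b hb _).symm
  refine ⟨p.map ψ, (Polynomial.map_ne_zero_iff hψ).mpr hp0, ?_⟩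
  have h2 := congrArg (PowerSeries.map (MvPolynomial.eval θ)) hp
  rw [map_zero, Polynomial.aeval_def, Polynomial.hom_eval₂] at h2
  rw [Polynomial.aeval_def, Polynomial.eval₂_map, hq]
  exact h2

end Pool.Agent.Lib.MP_8ce23f_nt.RR
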