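import Pool.Agent.Lib.MP_8ce23f_nt.RR.SF03
import Pool.Agent.Lib.MP_8ce23f_nt.RR.SA3

/-!
# The coefficients of `δ^m` on a line

It uses the statements of `lin_hom` (SF03), `lin_pderiv`, `lin_succ`, `lin_coeff_deg` (SA3).  `Pm_zero`: for `f_i` homogeneous of degree `i` the constant coefficient of the coefficient
of `u^i` in `f_i(δ + u β)` is `f_i(β)`.  `Pm_dy`: `lin_pderiv` and the coefficient of a `pderiv`.  `Pm_deriv`: `lin_succ`, `lin_pderiv`.  `psi_eq`: with `lin_hom`,
`coeff m ((lin β (homogeneousComponent (i + m.degree) p)).coeff i) = coeff m ((lin β p).coeff i)`; for `m.degree > n + 1` the coefficient is `0` by degree.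
-/

namespace Pool.Agent.Lib.MP_8ce23f_nt.RR

variable {r : ℕ}

private theorem SF14_lin_zero (β : Fin r → ℂ) (p : P r) :
    (lin β p).map (MvPolynomial.constantCoeff (σ := Fin r) (R := ℂ)) =
      MvPolynomial.aeval (fun i => Polynomial.C (β i) * (Polynomial.X : Polynomial ℂ)) p := by
  have h : (Polynomial.mapRingHom (MvPolynomial.constantCoeff (σ := Fin r) (R := ℂ))).comp
      ((lin β : P r →ₐ[ℂ] Polynomial (P r)) : P r →+* Polynomial (P r)) =
      ((MvPolynomial.aeval (fun i => Polynomial.C (β i) * (Polynomial.X : Polynomial ℂ)) :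
        P r →ₐ[ℂ] Polynomial ℂ) : P r →+* Polynomial ℂ) := by
    refine MvPolynomial.ringHom_ext ?_ ?_
    · intro c
      rw [RingHom.comp_apply, RingHom.coe_coe, RingHom.coe_coe, lin, MvPolynomial.aeval_C,
        MvPolynomial.aeval_C, Polynomial.coe_mapRingHom, Polynomial.algebraMap_apply,
        Polynomial.map_C, MvPolynomial.algebraMap_eq, MvPolynomial.constantCoeff_C,
        Polynomial.algebraMap_apply, Algebra.algebraMap_self, RingHom.id_apply]
    · intro i
      rw [RingHom.comp_apply, RingHom.coe_coe, RingHom.coe_coe, lin, MvPolynomial.aeval_X,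
        MvPolynomial.aeval_X, Polynomial.coe_mapRingHom, Polynomial.map_add, Polynomial.map_mul,
        Polynomial.map_C, Polynomial.map_C, Polynomial.map_X, MvPolynomial.constantCoeff_X,
        MvPolynomial.constantCoeff_C, Polynomial.C_0, zero_add]
  have := RingHom.congr_fun h p
  rw [RingHom.comp_apply, RingHom.coe_coe, RingHom.coe_coe, Polynomial.coe_mapRingHom] at this
  exact this

private theorem SF14_coeff_zero (β : Fin r → ℂ) {p : P r} {i : ℕ} (hp : p.IsHomogeneous i) :
    MvPolynomial.coeff 0 ((lin β p).coeff i) = MvPolynomial.eval β p := by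
  have h1 : MvPolynomial.coeff 0 ((lin β p).coeff i) =
      ((lin β p).map (MvPolynomial.constantCoeff (σ := Fin r) (R := ℂ))).coeff i := by
    rw [Polynomial.coeff_map]
    rfl
  rw [h1, SF14_lin_zero, MvPolynomial.aeval_def, MvPolynomial.eval₂_eq', MvPolynomial.eval_eq',
    Polynomial.finsetSum_coeff]
  apply Finset.sum_congr rfl
  intro d hd
  have h2 : d.degree = i := by
    have := hp (MvPolynomial.mem_support_iff.1 hd)
    rw [Finsupp.degree_eq_weight_one]
    exact this
  have h3 : ∏ k, (Polynomial.C (β k) * (Polynomial.X : Polynomial ℂ)) ^ d k =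
      Polynomial.C (∏ k, β k ^ d k) * Polynomial.X ^ i := by
    rw [← h2, Finsupp.degree_eq_sum, ← Finset.prod_pow_eq_pow_sum, map_prod,
      ← Finset.prod_mul_distrib]
    apply Finset.prod_congr rfl
    intro k _
    rw [mul_pow, map_pow]
  rw [h3, Polynomial.algebraMap_apply, Algebra.algebraMap_self, RingHom.id_apply,
    Polynomial.coeff_C_mul, Polynomial.coeff_C_mul, Polynomial.coeff_X_pow, if_pos rfl, mul_one]

private theorem SF14_coeff_hom (m : Fin r →₀ ℕ) (p : P r) :
    MvPolynomial.coeff m (MvPolynomial.homogeneousComponent m.degree p) =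
      MvPolynomial.coeff m p := by
  rw [MvPolynomial.coeff_homogeneousComponent, if_pos rfl]

theorem Pm_zero (β : Fin r → ℂ) {f : PowerSeries (P r)} (hf : HH f) :
    Pm β 0 f = PowerSeries.map (MvPolynomial.eval β) f := by
  ext i
  rw [Pm, PowerSeries.coeff_mk, PowerSeries.coeff_map]
  have h0 : (0 : Fin r →₀ ℕ).degree = 0 := map_zero _
  rw [h0, Nat.add_zero]
  exact SF14_coeff_zero β (hf i)

theorem Pm_dy (β : Fin r → ℂ) (m : Fin r →₀ ℕ) (a : Fin r) (f : PowerSeries (P r)) :
    ((m a : ℂ) + 1) • Pm β (m + Finsupp.single a 1) f = Pm β m (dy a f) := by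
  ext i
  rw [PowerSeries.coeff_smul, Pm, Pm, PowerSeries.coeff_mk, PowerSeries.coeff_mk, dy,
    PowerSeries.coeff_mk, lin_pderiv, MvPolynomial.coeff_pderiv]
  have h0 : (m + Finsupp.single a 1).degree = m.degree + 1 := by
    rw [map_add, Finsupp.degree_single]
  rw [h0, smul_eq_mul, mul_comm, Nat.add_assoc]

theorem Pm_deriv (β : Fin r → ℂ) (m : Fin r →₀ ℕ) (f : PowerSeries (P r)) :
    PowerSeries.derivative ℂ (Pm β m f) = ∑ a, β a • Pm β m (dy a f) := by
  ext i
  rw [PowerSeries.coeff_derivative, Pm, PowerSeries.coeff_mk, map_sum]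
  have e : ∀ a : Fin r, PowerSeries.coeff i (β a • Pm β m (dy a f)) =
      MvPolynomial.coeff m (MvPolynomial.C (β a) * MvPolynomial.pderiv a
        ((lin β (PowerSeries.coeff (i + 1 + m.degree) f)).coeff i)) := by
    intro a
    rw [PowerSeries.coeff_smul, Pm, PowerSeries.coeff_mk, dy, PowerSeries.coeff_mk, lin_pderiv,
      MvPolynomial.coeff_C_mul, smul_eq_mul, Nat.add_right_comm]
  rw [Finset.sum_congr rfl (fun a _ => e a)]
  have h1 := congrArg (MvPolynomial.coeff m)
    (lin_succ β (PowerSeries.coeff (i + 1 + m.degree) f) i)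
  rw [MvPolynomial.coeff_sum] at h1
  rw [← h1]
  have h2 : ((i : P r) + 1) = MvPolynomial.C ((i : ℂ) + 1) := by
    rw [map_add, map_one, map_natCast]
  rw [h2, MvPolynomial.coeff_C_mul, mul_comm]

theorem psi_eq (β : Fin r → ℂ) {D : ℕ → P r} (hD : ∀ k, (D k).totalDegree ≤ k + 1) (n : ℕ)
    (m : Fin r →₀ ℕ) :
    psi D β n m = if m.degree ≤ n + 1 then Pm β m (Wl D (n + 1 - m.degree)) else 0 := by
  ext i
  rw [psi, PowerSeries.coeff_mk, hc]
  split_ifs with hm
  · rw [Pm, PowerSeries.coeff_mk, Wl, PowerSeries.coeff_mk]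
    have e1 : n + 1 - m.degree + (i + m.degree) - 1 = n + i := by omega
    rw [e1, Nat.add_comm i m.degree, ← lin_hom, SF14_coeff_hom]
  · rw [map_zero]
    apply MvPolynomial.coeff_eq_zero_of_totalDegree_lt
    have h1 := lin_coeff_deg β (hD (n + i)) i
    have h2 : n + i + 1 - i = n + 1 := by omega
    rw [h2] at h1
    have h3 : ∑ k ∈ m.support, m k = m.degree := rfl
    rw [h3]
    omega

theorem psiTop_eq (β : Fin r → ℂ) {D : ℕ → P r} (h0 : D 0 = 0) :
    psiTop D β = Pm β 0 (Wl D 0) := by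
  ext i
  rw [psiTop, PowerSeries.coeff_mk, hc, Pm, PowerSeries.coeff_mk, Wl, PowerSeries.coeff_mk]
  have hz : (0 : Fin r →₀ ℕ).degree = 0 := map_zero _
  split_ifs with hi
  · subst hi
    have e1 : 0 + (0 + (0 : Fin r →₀ ℕ).degree) - 1 = 0 := by rw [hz]
    rw [e1, h0, map_zero, map_zero, Polynomial.coeff_zero, MvPolynomial.coeff_zero]
  · have e1 : 0 + (i + (0 : Fin r →₀ ℕ).degree) - 1 = i - 1 := by rw [hz]; omega
    rw [e1, Nat.add_comm i (0 : Fin r →₀ ℕ).degree, ← lin_hom, SF14_coeff_hom]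

end Pool.Agent.Lib.MP_8ce23f_nt.RR
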