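import Pool.Agent.Lib.MP_8ce23f_nt.RR.SF09
import Pool.Agent.Lib.MP_8ce23f_nt.RR.SF12
import Pool.Agent.Lib.MP_8ce23f_nt.RR.SF13
import Pool.Agent.Lib.MP_8ce23f_nt.RR.SF14
import Pool.Agent.Lib.MP_8ce23f_nt.RR.SE1
import Pool.Agent.Lib.MP_8ce23f_nt.RR.N11

/-!
# The levels of the polynomials `D k` lie in an algebra without the variable
-/

namespace Pool.Agent.Lib.MP_8ce23f_nt.RR

variable {r : ℕ}

private theorem SF_smul {K : Subalgebra ℂ (PowerSeries ℂ)} {c : ℂ} (hc : c ≠ 0) {f : PowerSeries ℂ}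
    (h : c • f ∈ K) : f ∈ K := by
  have h1 := K.smul_mem h c⁻¹
  rwa [smul_smul, inv_mul_cancel₀ hc, one_smul] at h1

private theorem SF_split {m : Fin r →₀ ℕ} (hm : m ≠ 0) :
    ∃ (m' : Fin r →₀ ℕ) (a : Fin r), m = m' + Finsupp.single a 1 := by
  obtain ⟨a, ha⟩ : ∃ a, m a ≠ 0 := by
    by_contra hcon
    push Not at hcon
    exact hm (Finsupp.ext hcon)
  refine ⟨m - Finsupp.single a 1, a, ?_⟩
  rw [tsub_add_cancel_of_le]
  rw [Finsupp.single_le_iff]
  omega

private theorem SF_deg (m : Fin r →₀ ℕ) (a : Fin r) :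
    (m + Finsupp.single a 1).degree = m.degree + 1 := by
  rw [map_add, Finsupp.degree_single]

private theorem SF_ne {m : Fin r →₀ ℕ} (hm : 1 ≤ m.degree) : m ≠ 0 := by
  rintro rfl
  rw [map_zero] at hm
  omega

private theorem SF_step {K : Subalgebra ℂ (PowerSeries ℂ)} {β : Fin r → ℂ} {m : Fin r →₀ ℕ}
    {a : Fin r} {f : PowerSeries (P r)} (h : Pm β m (dy a f) ∈ K) :
    Pm β (m + Finsupp.single a 1) f ∈ K := by
  rw [← Pm_dy] at h
  refine SF_smul ?_ h
  exact_mod_cast Nat.succ_ne_zero (m a)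

theorem exists_LD {A : Matrix (Fin r) (Fin r) ℚ} {Q : Fin r → ℂ} {D : ℕ → P r}
    {R S : Fin r → PowerSeries (P r)} (h : FD (A.map fun x : ℚ => (x : ℂ)) Q D R S)
    (h0 : ∀ i, Q i ≠ 0) (h1 : ∀ i, Q i ≠ 1)
    (hd : (Jm (A.map fun x : ℚ => (x : ℂ)) Q).det ≠ 0) :
    LD (fun k => if k = 0 then 0 else D k) := by
  change LD (Dz D)
  have hz : Dz D 0 = 0 := if_pos rfl
  have hdeg : ∀ k, (Dz D k).totalDegree ≤ k + 1 := by
    intro k
    rcases Nat.eq_zero_or_pos k with hk | hk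
    · subst hk
      rw [hz, MvPolynomial.totalDegree_zero]
      exact Nat.zero_le _
    · rw [Dz, if_neg (by omega)]
      exact h.deg k hk
  refine ⟨hz, fun k _ => hdeg k, fun β => ?_⟩
  obtain ⟨m, θ, b, hθ, hβ, -⟩ := exists_basis β
  obtain ⟨K, hDK, halg, hdiv⟩ := exists_DK hθ
  obtain ⟨w, hw, hC⟩ := exists_C h hd
  obtain ⟨hL0, hL⟩ := all_levels h hw hC
  have hqK : ∀ i, PowerSeries.map (MvPolynomial.eval β) (qR Q R i) ∈ K := fun i =>
    halg _ (q_alg (top_T0 h).1 h0 h1 hd hθ hβ i)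
  set C := Algebra.adjoin ℂ (Set.range (qR Q R) ∪ {w}) with hCdef
  have hev : ∀ f ∈ C, PowerSeries.map (MvPolynomial.eval β) f ∈ K := fun f hf =>
    eval_mem hdiv hqK hw hf
  have hPm : ∀ (n : ℕ) (m : Fin r →₀ ℕ), m.degree = n → ∀ f ∈ C, Pm β m f ∈ K := by
    intro n
    induction n with
    | zero =>
      intro m hm f hf
      have hm0 : m = 0 := by
        by_contra hcon
        obtain ⟨m', a, rfl⟩ := SF_split hcon
        rw [SF_deg] at hm
        omega
      subst hm0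
      rw [Pm_zero β (hC.hh f hf)]
      exact hev f hf
    | succ n ih =>
      intro m hm f hf
      obtain ⟨m', a, rfl⟩ := SF_split (SF_ne (m := m) (by omega))
      rw [SF_deg] at hm
      exact SF_step (ih m' (by omega) _ (hC.cl f hf a))
  have hPm1 : ∀ {g : PowerSeries (P r)}, (∀ l, dy l g ∈ C) → ∀ {m : Fin r →₀ ℕ}, m ≠ 0 →
      Pm β m g ∈ K := by
    intro g hg m hm
    obtain ⟨m', a, rfl⟩ := SF_split hm
    exact SF_step (hPm _ m' rfl _ (hg a))
  refine ⟨K, hDK, ?_, ?_, ?_⟩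
  · rw [psiTop_eq β hz, Pm_deriv, map_sum]
    refine K.sum_mem fun a _ => ?_
    rw [Derivation.map_smul, Pm_deriv]
    refine K.smul_mem (K.sum_mem fun b' _ => K.smul_mem ?_ _) _
    exact hPm _ _ rfl _ (hL0 b' a)
  · intro n m
    rw [psi_eq β hdeg]
    split_ifs with hm
    · rw [Pm_deriv]
      refine K.sum_mem fun a _ => K.smul_mem ?_ _
      rcases Nat.eq_zero_or_pos (n + 1 - m.degree) with he | he
      · rw [he]
        exact hPm1 (fun l => hL0 l a) (SF_ne (by omega))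
      · exact hPm _ _ rfl _ (hL _ he a)
    · rw [map_zero]
      exact K.zero_mem
  · intro n m hn hm0
    rw [psi_eq β hdeg]
    split_ifs with hm
    · rcases Nat.eq_zero_or_pos (n + 1 - m.degree) with he | he
      · rw [he]
        obtain ⟨m', a, rfl⟩ := SF_split hm0
        rw [SF_deg] at he hm
        exact SF_step (hPm1 (fun l => hL0 l a) (SF_ne (by omega)))
      · exact hPm1 (hL _ he) hm0
    · exact K.zero_mem

end Pool.Agent.Lib.MP_8ce23f_nt.RR
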