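import Pool.Agent.Lib.MP_8ce23f_nt.RR.SFDefs

/-!
# The levels of a product

`Hom_prod` (file `Hom.lean`): the homogeneous component `j` of `(fg)_{n+j} = ∑ f_k g_l` (`k + l = n + j`) is the sum over
`p + q = j` of `f_k^(p) g_l^(q)`; the nonzero terms have `p ≤ k`, `q ≤ l` (`homogeneousComponent_eq_zero`); put `a = k - p`, `b = l - q`: `a + b = n`.
-/

namespace Pool.Agent.Lib.MP_8ce23f_nt.RR

variable {r : ℕ}

private theorem SF01_re (n p q : ℕ) (F : ℕ → ℕ → P r) (hF : ∀ k l, k < p ∨ l < q → F k l = 0) :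
    ∑ x ∈ Finset.HasAntidiagonal.antidiagonal (n + (p + q)), F x.1 x.2 =
      ∑ y ∈ Finset.HasAntidiagonal.antidiagonal n, F (y.1 + p) (y.2 + q) := by
  classical
  have hinj : Function.Injective (fun y : ℕ × ℕ => (y.1 + p, y.2 + q)) := by
    intro y z hyz
    have h1 := congrArg Prod.fst hyz
    have h2 := congrArg Prod.snd hyz
    simp only at h1 h2
    exact Prod.ext (by omega) (by omega)
  have h1 : ∑ y ∈ Finset.HasAntidiagonal.antidiagonal n, F (y.1 + p) (y.2 + q) =
      ∑ x ∈ (Finset.HasAntidiagonal.antidiagonal n).map ⟨fun y : ℕ × ℕ => (y.1 + p, y.2 + q), hinj⟩,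
        F x.1 x.2 := by
    rw [Finset.sum_map]
    rfl
  rw [h1]
  symm
  refine Finset.sum_subset ?_ ?_
  · intro x hx
    rw [Finset.mem_map] at hx
    obtain ⟨y, hy, rfl⟩ := hx
    have hy' : y.1 + y.2 = n := Finset.HasAntidiagonal.mem_antidiagonal.1 hy
    rw [Finset.HasAntidiagonal.mem_antidiagonal]
    change y.1 + p + (y.2 + q) = n + (p + q)
    omega
  · intro x hx hx'
    have hx1 : x.1 + x.2 = n + (p + q) := Finset.HasAntidiagonal.mem_antidiagonal.1 hx
    refine hF _ _ ?_
    by_contra hcon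
    push Not at hcon
    refine hx' ?_
    rw [Finset.mem_map]
    refine ⟨(x.1 - p, x.2 - q), ?_, ?_⟩
    · rw [Finset.HasAntidiagonal.mem_antidiagonal]
      change x.1 - p + (x.2 - q) = n
      omega
    · exact Prod.ext (by change x.1 - p + p = x.1; omega) (by change x.2 - q + q = x.2; omega)

theorem lev_mul {f g : PowerSeries (P r)} (hf : WB f) (hg : WB g) (n : ℕ) :
    lev n (f * g) = ∑ p ∈ Finset.HasAntidiagonal.antidiagonal n, lev p.1 f * lev p.2 g := by
  ext1 j
  rw [map_sum]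
  unfold lev
  simp only [PowerSeries.coeff_mk, PowerSeries.coeff_mul, map_sum, Hom_prod]
  rw [Finset.sum_comm]
  rw [Finset.sum_comm (s := Finset.HasAntidiagonal.antidiagonal n)]
  refine Finset.sum_congr rfl fun y hy => ?_
  have hy' : y.1 + y.2 = j := Finset.HasAntidiagonal.mem_antidiagonal.1 hy
  rw [← hy']
  refine SF01_re n y.1 y.2 (fun k l => MvPolynomial.homogeneousComponent y.1 (PowerSeries.coeff k f) *
    MvPolynomial.homogeneousComponent y.2 (PowerSeries.coeff l g)) ?_
  intro k l hkl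
  rcases hkl with h | h
  · rw [MvPolynomial.homogeneousComponent_eq_zero y.1 _ (lt_of_le_of_lt (hf k) h), zero_mul]
  · rw [MvPolynomial.homogeneousComponent_eq_zero y.2 _ (lt_of_le_of_lt (hg l) h), mul_zero]

end Pool.Agent.Lib.MP_8ce23f_nt.RR
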