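import Pool.Agent.Lib.MP_8ce23f_nt.RR.SF01

/-!
# The levels of a solution of a differential equation

It uses the statement of `lev_mul` (SF01).  Let `eu f` have the coefficients `∑_i X_i ∂_i f_k` (a derivation of
`PowerSeries (P r)` that commutes with `θ`, compare `dc`, `dc_mul`, `dc_θ` in `TMaps.lean`).  `eu R = eu Δ * R`, by `ode_unique` for
`y = eu R - eu Δ * R` with `w = θ Δ` (`θ y = θ Δ * y`; constant coefficients: those of `R` and `Δ` are constants by `WB`, so `y` has constant coefficient `0`).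
Let `N f = θ f - eu f`: `N R = N Δ * R`, `WB (N Δ)`, and `lev n (N f) = n * lev n f` (Euler's identity for the homogeneous component `j`
of `f_{n+j}`: `(n + j) - j = n`).  Apply `lev_mul` to `N Δ * R`.
-/

namespace Pool.Agent.Lib.MP_8ce23f_nt.RR

variable {r : ℕ}

private noncomputable def SF02_E (p : P r) : P r :=
  ∑ i : Fin r, MvPolynomial.X i * MvPolynomial.pderiv i p

private theorem SF02_hom_E (p : P r) (j : ℕ) :
    MvPolynomial.homogeneousComponent j (SF02_E p) =
      (j : P r) * MvPolynomial.homogeneousComponent j p := by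
  have hE : ∀ q : P r, ∀ i : ℕ, q.IsHomogeneous i → SF02_E q = (i : P r) * q := by
    intro q i hq
    unfold SF02_E
    rw [hq.sum_X_mul_pderiv, nsmul_eq_mul]
  have hsum : SF02_E p = ∑ i ∈ Finset.range (p.totalDegree + 1),
      (i : P r) * MvPolynomial.homogeneousComponent i p := by
    conv_lhs => rw [← MvPolynomial.sum_homogeneousComponent p]
    unfold SF02_E
    simp only [map_sum, Finset.mul_sum]
    rw [Finset.sum_comm]
    refine Finset.sum_congr rfl fun i _ => ?_
    exact hE _ i (MvPolynomial.homogeneousComponent_isHomogeneous i p)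
  have hc : ∀ i : ℕ, MvPolynomial.homogeneousComponent j
      ((i : P r) * MvPolynomial.homogeneousComponent i p) =
      if i = j then (j : P r) * MvPolynomial.homogeneousComponent j p else 0 := by
    intro i
    rw [TMaps_natCast, MvPolynomial.homogeneousComponent_C_mul,
      MvPolynomial.homogeneousComponent_of_mem
        (MvPolynomial.homogeneousComponent_mem i p)]
    split_ifs with h1 h2 h2
    · subst h1; rw [TMaps_natCast]
    · exact absurd h1.symm h2
    · exact absurd h2.symm h1
    · rw [mul_zero]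
  rw [hsum, map_sum, Finset.sum_congr rfl fun i _ => hc i, Finset.sum_ite_eq']
  split_ifs with h
  · rfl
  · rw [MvPolynomial.homogeneousComponent_eq_zero _ _ (by
      rw [Finset.mem_range] at h; omega), mul_zero]

private noncomputable def SF02_eu (f : PowerSeries (P r)) : PowerSeries (P r) :=
  PowerSeries.mk fun k => SF02_E (PowerSeries.coeff k f)

private theorem SF02_coeff_eu (f : PowerSeries (P r)) (k : ℕ) :
    PowerSeries.coeff k (SF02_eu f) = SF02_E (PowerSeries.coeff k f) := PowerSeries.coeff_mk _ _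

private theorem SF02_E_mul (p q : P r) : SF02_E (p * q) = p * SF02_E q + SF02_E p * q := by
  unfold SF02_E
  rw [Finset.mul_sum, Finset.sum_mul, ← Finset.sum_add_distrib]
  refine Finset.sum_congr rfl fun i _ => ?_
  rw [Derivation.leibniz, smul_eq_mul, smul_eq_mul]
  ring

private theorem SF02_E_sum {ι : Type} (s : Finset ι) (f : ι → P r) :
    SF02_E (∑ a ∈ s, f a) = ∑ a ∈ s, SF02_E (f a) := by
  unfold SF02_E
  simp only [map_sum, Finset.mul_sum]
  exact Finset.sum_comm

private theorem SF02_E_natCast_mul (k : ℕ) (p : P r) :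
    SF02_E ((k : P r) * p) = (k : P r) * SF02_E p := by
  unfold SF02_E
  rw [Finset.mul_sum]
  refine Finset.sum_congr rfl fun i _ => ?_
  rw [TMaps_natCast, ← MvPolynomial.smul_eq_C_mul, Derivation.map_smul,
    MvPolynomial.smul_eq_C_mul]
  ring

private theorem SF02_eu_mul (f g : PowerSeries (P r)) :
    SF02_eu (f * g) = f * SF02_eu g + SF02_eu f * g := by
  ext1 k
  rw [SF02_coeff_eu, PowerSeries.coeff_mul, map_add, PowerSeries.coeff_mul,
    PowerSeries.coeff_mul, SF02_E_sum, ← Finset.sum_add_distrib]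
  refine Finset.sum_congr rfl fun p _ => ?_
  rw [SF02_E_mul, SF02_coeff_eu, SF02_coeff_eu]

private theorem SF02_eu_θ (f : PowerSeries (P r)) : SF02_eu (θ f) = θ (SF02_eu f) := by
  ext1 k
  rw [SF02_coeff_eu, coeff_θ, coeff_θ, SF02_coeff_eu, SF02_E_natCast_mul]

private theorem SF02_θ_mul (a b : PowerSeries (P r)) : θ (a * b) = a * θ b + b * θ a := by
  unfold θ
  rw [Derivation.leibniz, smul_eq_mul, smul_eq_mul]
  ring

private theorem SF02_θ_sub (a b : PowerSeries (P r)) : θ (a - b) = θ a - θ b := by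
  unfold θ
  rw [map_sub, mul_sub]

private theorem SF02_eu_zero {f : PowerSeries (P r)} (hf : WB f) :
    PowerSeries.constantCoeff (SF02_eu f) = 0 := by
  rw [← PowerSeries.coeff_zero_eq_constantCoeff_apply, SF02_coeff_eu]
  have h0 := hf 0
  have h1 : (PowerSeries.coeff 0 f).totalDegree = 0 := by omega
  rw [MvPolynomial.totalDegree_eq_zero_iff_eq_C] at h1
  rw [h1]
  unfold SF02_E
  refine Finset.sum_eq_zero fun i _ => ?_
  rw [MvPolynomial.pderiv_C, mul_zero]

private theorem SF02_eu_ode {R Δ : PowerSeries (P r)} (hR : WB R) (hΔ : WB Δ)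
    (h : θ R = θ Δ * R) : SF02_eu R = SF02_eu Δ * R := by
  refine sub_eq_zero.1 (ode_unique (w := θ Δ) ?_ ?_ ?_)
  · rw [← PowerSeries.coeff_zero_eq_constantCoeff_apply, coeff_θ, Nat.cast_zero, zero_mul]
  · rw [map_sub, map_mul, SF02_eu_zero hR, SF02_eu_zero hΔ, zero_mul, sub_zero]
  · have h1 : θ (SF02_eu R) = θ Δ * SF02_eu R + θ (SF02_eu Δ) * R := by
      rw [← SF02_eu_θ R, h, SF02_eu_mul, SF02_eu_θ]
    rw [SF02_θ_sub, SF02_θ_mul, h1, h]
    ring

private noncomputable def SF02_N (f : PowerSeries (P r)) : PowerSeries (P r) :=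
  θ f - SF02_eu f

private theorem SF02_hom_N (f : PowerSeries (P r)) (k j : ℕ) :
    MvPolynomial.homogeneousComponent j (PowerSeries.coeff k (SF02_N f)) =
      ((k : P r) - (j : P r)) * MvPolynomial.homogeneousComponent j (PowerSeries.coeff k f) := by
  unfold SF02_N
  rw [map_sub, map_sub, SF02_coeff_eu, SF02_hom_E, coeff_θ, TMaps_natCast k,
    MvPolynomial.homogeneousComponent_C_mul]
  ring

private theorem SF02_WB_N {f : PowerSeries (P r)} (hf : WB f) : WB (SF02_N f) := by
  intro k
  rw [degree_td_le_iff]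
  intro j hj
  rw [SF02_hom_N, MvPolynomial.homogeneousComponent_eq_zero _ _ (lt_of_le_of_lt (hf k) hj),
    mul_zero]

private theorem SF02_lev_N (f : PowerSeries (P r)) (n : ℕ) :
    lev n (SF02_N f) = (n : PowerSeries (P r)) * lev n f := by
  have hn : (n : PowerSeries (P r)) = PowerSeries.C (n : P r) := by rw [map_natCast]
  ext1 j
  rw [hn, PowerSeries.coeff_C_mul]
  unfold lev
  rw [PowerSeries.coeff_mk, PowerSeries.coeff_mk, SF02_hom_N]
  push_cast
  ring

theorem lev_ode {R Δ : PowerSeries (P r)} (hR : WB R) (hΔ : WB Δ) (h : θ R = θ Δ * R) (n : ℕ) :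
    (n : PowerSeries (P r)) * lev n R = ∑ p ∈ Finset.HasAntidiagonal.antidiagonal n,
      (p.1 : PowerSeries (P r)) * lev p.1 Δ * lev p.2 R := by
  have hN : SF02_N R = SF02_N Δ * R := by
    unfold SF02_N
    rw [SF02_eu_ode hR hΔ h, h, sub_mul]
  rw [← SF02_lev_N, hN, lev_mul (SF02_WB_N hΔ) hR]
  refine Finset.sum_congr rfl fun p _ => ?_
  rw [SF02_lev_N]

end Pool.Agent.Lib.MP_8ce23f_nt.RR
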