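import Pool.Agent.Lib.MP_8ce23f_nt.RR.SFDefs

/-!
# The levels of a shift

`lin v` is the same map as the private `Hom_Phi v` of the file `Hom.lean` (copy the private lemmas of that file: `Hom_Phi_hom` is `lin_hom`,
and `Hom_shift` is: `homogeneousComponent k (sh v p) = ∑ n ∈ range N, (lin v (homogeneousComponent (k + n) p)).coeff n`).
In `lev_sh` the coefficient at `j` is the component of degree `j` of `sh v p - p`, `p = D (n + j)`, of degree at most `n + j + 1`; the terms `t + 1 > n + 1` vanish.
-/

namespace Pool.Agent.Lib.MP_8ce23f_nt.RR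

variable {r : ℕ}

/-! ### Multiplication by a variable -/

private theorem SF03_X (k : ℕ) (i : Fin r) :
    MvPolynomial.homogeneousComponent k (MvPolynomial.X i : P r) = if k = 1 then MvPolynomial.X i else 0 :=
  MvPolynomial.homogeneousComponent_of_mem (MvPolynomial.isHomogeneous_X ℂ i)

private theorem SF03_mul_X_zero (p : P r) (i : Fin r) :
    MvPolynomial.homogeneousComponent 0 (p * MvPolynomial.X i) = 0 := by
  rw [Hom_prod]
  refine Finset.sum_eq_zero (fun y hy => ?_)
  have hy' : y.1 + y.2 = 0 := Finset.HasAntidiagonal.mem_antidiagonal.1 hy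
  rw [SF03_X, if_neg (by omega), mul_zero]

private theorem SF03_mul_X_succ (p : P r) (i : Fin r) (k : ℕ) :
    MvPolynomial.homogeneousComponent (k + 1) (p * MvPolynomial.X i) =
      MvPolynomial.homogeneousComponent k p * MvPolynomial.X i := by
  rw [Hom_prod, Finset.sum_eq_single (k, 1)]
  · rw [SF03_X, if_pos rfl]
  · intro y hy hne
    have hy' : y.1 + y.2 = k + 1 := Finset.HasAntidiagonal.mem_antidiagonal.1 hy
    rw [SF03_X, if_neg, mul_zero]
    intro h
    exact hne (Prod.ext (by simp; omega) h)
  · intro hh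
    exact absurd (Finset.HasAntidiagonal.mem_antidiagonal.2 (by simp)) hh

private theorem SF03_C (k : ℕ) (a : ℂ) :
    MvPolynomial.homogeneousComponent k (MvPolynomial.C a : P r) = if k = 0 then MvPolynomial.C a else 0 :=
  MvPolynomial.homogeneousComponent_of_mem (MvPolynomial.isHomogeneous_C (Fin r) a)

private theorem SF03_mul_C (k : ℕ) (p : P r) (a : ℂ) :
    MvPolynomial.homogeneousComponent k (p * MvPolynomial.C a) =
      MvPolynomial.homogeneousComponent k p * MvPolynomial.C a := by
  rw [mul_comm, MvPolynomial.homogeneousComponent_C_mul, mul_comm]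

/-! ### The Taylor expansion -/

private theorem SF03_Phi_C (v : Fin r → ℂ) (a : ℂ) :
    lin v (MvPolynomial.C a) = Polynomial.C (MvPolynomial.C a) := by
  unfold lin
  rw [MvPolynomial.aeval_C]
  rfl

private theorem SF03_Phi_mul_X (v : Fin r → ℂ) (p : P r) (i : Fin r) :
    lin v (p * MvPolynomial.X i) = lin v p * Polynomial.C (MvPolynomial.X i) +
      lin v p * Polynomial.C (MvPolynomial.C (v i)) * Polynomial.X := by
  rw [map_mul]
  have h : lin v (MvPolynomial.X i) = Polynomial.C (MvPolynomial.X i) +
    Polynomial.C (MvPolynomial.C (v i)) * Polynomial.X := by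
    unfold lin
    rw [MvPolynomial.aeval_X]
  rw [h, mul_add, mul_assoc]

private theorem SF03_Phi_coeff_zero_mul_X (v : Fin r → ℂ) (p : P r) (i : Fin r) :
    (lin v (p * MvPolynomial.X i)).coeff 0 = (lin v p).coeff 0 * MvPolynomial.X i := by
  rw [SF03_Phi_mul_X, Polynomial.coeff_add, Polynomial.coeff_mul_C, Polynomial.coeff_mul_X_zero, add_zero]

private theorem SF03_Phi_coeff_succ_mul_X (v : Fin r → ℂ) (p : P r) (i : Fin r) (n : ℕ) :
    (lin v (p * MvPolynomial.X i)).coeff (n + 1) = (lin v p).coeff (n + 1) * MvPolynomial.X i +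
      (lin v p).coeff n * MvPolynomial.C (v i) := by
  rw [SF03_Phi_mul_X, Polynomial.coeff_add, Polynomial.coeff_mul_C, Polynomial.coeff_mul_X,
    Polynomial.coeff_mul_C]

/-- coefficients of high order vanish -/
private theorem SF03_Phi_vanish (v : Fin r → ℂ) (p : P r) : ∀ j n : ℕ, j < n →
    (lin v (MvPolynomial.homogeneousComponent j p)).coeff n = 0 := by
  induction p using MvPolynomial.induction_on with
  | C a =>
    intro j n h
    rw [SF03_C]
    by_cases hj : j = 0
    · rw [if_pos hj, SF03_Phi_C, Polynomial.coeff_C, if_neg (by omega)]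
    · rw [if_neg hj, map_zero, Polynomial.coeff_zero]
  | add p q hp hq =>
    intro j n h
    rw [map_add, map_add, Polynomial.coeff_add, hp j n h, hq j n h, add_zero]
  | mul_X p i hp =>
    intro j n h
    rcases j with _ | j
    · rw [SF03_mul_X_zero, map_zero, Polynomial.coeff_zero]
    · obtain ⟨n, rfl⟩ : ∃ n', n = n' + 1 := ⟨n - 1, by omega⟩
      rw [SF03_mul_X_succ, SF03_Phi_coeff_succ_mul_X, hp j (n + 1) (by omega), hp j n (by omega), zero_mul,
        zero_mul, add_zero]

/-- homogeneous components of the coefficients -/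
private theorem SF03_Phi_hom (v : Fin r → ℂ) (p : P r) : ∀ k n : ℕ,
    MvPolynomial.homogeneousComponent k ((lin v p).coeff n) =
      (lin v (MvPolynomial.homogeneousComponent (k + n) p)).coeff n := by
  induction p using MvPolynomial.induction_on with
  | C a =>
    intro k n
    rw [SF03_Phi_C, Polynomial.coeff_C, SF03_C]
    rcases n with _ | n
    · rw [if_pos rfl, SF03_C, add_zero]
      by_cases hk : k = 0
      · rw [if_pos hk, SF03_Phi_C, Polynomial.coeff_C, if_pos rfl]
      · rw [if_neg hk, map_zero, Polynomial.coeff_zero]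
    · rw [if_neg (by omega), if_neg (by omega), map_zero, map_zero, Polynomial.coeff_zero]
  | add p q hp hq =>
    intro k n
    rw [map_add, map_add, Polynomial.coeff_add, map_add, map_add, Polynomial.coeff_add, hp k n, hq k n]
  | mul_X p i hp =>
    intro k n
    rcases k with _ | k
    · rcases n with _ | n
      · rw [SF03_Phi_coeff_zero_mul_X, SF03_mul_X_zero, add_zero, SF03_mul_X_zero, map_zero,
          Polynomial.coeff_zero]
      · have e1 : 0 + (n + 1) = (0 + n) + 1 := by omega
        rw [SF03_Phi_coeff_succ_mul_X, map_add, SF03_mul_X_zero, SF03_mul_C, hp 0 n, e1, SF03_mul_X_succ,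
          SF03_Phi_coeff_succ_mul_X, SF03_Phi_vanish v p (0 + n) (n + 1) (by omega), zero_mul]
    · rcases n with _ | n
      · have e1 : k + 1 + 0 = (k + 0) + 1 := by omega
        rw [SF03_Phi_coeff_zero_mul_X, SF03_mul_X_succ, hp k 0, e1, SF03_mul_X_succ, SF03_Phi_coeff_zero_mul_X]
        rfl
      · have e1 : k + 1 + (n + 1) = (k + (n + 1)) + 1 := by omega
        have e2 : k + (n + 1) = k + 1 + n := by omega
        rw [SF03_Phi_coeff_succ_mul_X, map_add, SF03_mul_X_succ, SF03_mul_C, hp k (n + 1), hp (k + 1) n, e1,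
          SF03_mul_X_succ, SF03_Phi_coeff_succ_mul_X, e2]

private theorem SF03_Phi_zero (v : Fin r → ℂ) (p : P r) : (lin v p).coeff 0 = p := by
  induction p using MvPolynomial.induction_on with
  | C a => rw [SF03_Phi_C, Polynomial.coeff_C, if_pos rfl]
  | add p q hp hq => rw [map_add, Polynomial.coeff_add, hp, hq]
  | mul_X p i hp => rw [SF03_Phi_coeff_zero_mul_X, hp]

/-- the shift is the value at `T = 1` -/
private theorem SF03_Phi_eval (v : Fin r → ℂ) (p : P r) : sh v p = (lin v p).eval 1 := by
  induction p using MvPolynomial.induction_on with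
  | C a =>
    rw [SF03_Phi_C, Polynomial.eval_C]
    unfold sh
    rw [MvPolynomial.aeval_C]
    rfl
  | add p q hp hq => rw [map_add, map_add, Polynomial.eval_add, hp, hq]
  | mul_X p i hp =>
    rw [map_mul, hp, SF03_Phi_mul_X, Polynomial.eval_add, Polynomial.eval_mul_X, Polynomial.eval_mul,
      Polynomial.eval_mul, Polynomial.eval_C, Polynomial.eval_C, mul_one, ← mul_add]
    congr 1
    unfold sh
    rw [MvPolynomial.aeval_X]

private theorem SF03_shift (v : Fin r → ℂ) (p : P r) (k N : ℕ) (hN : (lin v p).natDegree < N) :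
    MvPolynomial.homogeneousComponent k (sh v p) =
      ∑ n ∈ Finset.range N, (lin v (MvPolynomial.homogeneousComponent (k + n) p)).coeff n := by
  rw [SF03_Phi_eval, Polynomial.eval_eq_sum_range' hN, map_sum]
  refine Finset.sum_congr rfl (fun n _ => ?_)
  rw [one_pow, mul_one, SF03_Phi_hom]

theorem lin_hom (β : Fin r → ℂ) (p : P r) (k n : ℕ) :
    MvPolynomial.homogeneousComponent k ((lin β p).coeff n) =
      (lin β (MvPolynomial.homogeneousComponent (k + n) p)).coeff n := by
  exact SF03_Phi_hom β p k n

theorem lev_sh (v : Fin r → ℂ) {D : ℕ → P r} (hD : ∀ k, (D k).totalDegree ≤ k + 1) (n : ℕ) :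
    lev n (PowerSeries.mk fun k => sh v (D k) - D k) =
      ∑ t ∈ Finset.range (n + 1), Lt v (t + 1) (Wl D (n - t)) := by
  ext1 j
  rw [map_sum]
  have hL : PowerSeries.coeff j (lev n (PowerSeries.mk fun k => sh v (D k) - D k)) =
      MvPolynomial.homogeneousComponent j (sh v (D (n + j)) - D (n + j)) := by
    unfold lev
    rw [PowerSeries.coeff_mk, PowerSeries.coeff_mk]
  have hR : ∀ t ∈ Finset.range (n + 1),
      PowerSeries.coeff j (Lt v (t + 1) (Wl D (n - t))) =
        (lin v (MvPolynomial.homogeneousComponent (j + (t + 1)) (D (n + j)))).coeff (t + 1) := by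
    intro t ht
    have ht' := Finset.mem_range.1 ht
    unfold Lt Wl
    rw [PowerSeries.coeff_mk, PowerSeries.coeff_mk]
    have e : n - t + (j + (t + 1)) - 1 = n + j := by omega
    rw [e]
  rw [hL, Finset.sum_congr rfl hR, map_sub,
    SF03_shift v (D (n + j)) j ((n + 2) + ((lin v (D (n + j))).natDegree + 1)) (by omega),
    Finset.sum_range_add]
  have h0 : ∑ x ∈ Finset.range ((lin v (D (n + j))).natDegree + 1),
      (lin v (MvPolynomial.homogeneousComponent (j + (n + 2 + x)) (D (n + j)))).coeff
        (n + 2 + x) = 0 := by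
    refine Finset.sum_eq_zero (fun x _ => ?_)
    have hd := hD (n + j)
    rw [MvPolynomial.homogeneousComponent_eq_zero _ (D (n + j)) (by omega), map_zero,
      Polynomial.coeff_zero]
  rw [h0, add_zero, Finset.sum_range_succ', SF03_Phi_zero, add_zero, add_sub_cancel_right]

end Pool.Agent.Lib.MP_8ce23f_nt.RR
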