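import Pool.Agent.Lib.MP_8ce23f_nt.RR.SFDefs
import Pool.Agent.Lib.MP_8ce23f_nt.RR.SA3
import Pool.Agent.Lib.MP_8ce23f_nt.RR.SF03

/-!
# The derivatives `dy`

It uses the statements of `lin_succ`, `lin_pderiv` (SA3) and `lin_hom` (SF03).  For `HH f`: `X * dy l f = dc l f`, so `dy_mul` follows from `dc_mul` (cancel
`X`).  `Lt_succ` is `lin_succ` coefficient by coefficient (with `lin_pderiv`).  `HH_Lt` is `lin_hom`.
-/

namespace Pool.Agent.Lib.MP_8ce23f_nt.RR

variable {r : ℕ}

theorem HH_one : HH (1 : PowerSeries (P r)) := by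
  intro j
  rw [PowerSeries.coeff_one]
  split_ifs with h
  · subst h
    exact MvPolynomial.isHomogeneous_one _ _
  · exact MvPolynomial.isHomogeneous_zero _ _ _

theorem HH_algebraMap (c : ℂ) : HH (algebraMap ℂ (PowerSeries (P r)) c) := by
  intro j
  rw [PowerSeries.algebraMap_apply, PowerSeries.coeff_C]
  split_ifs with h
  · subst h
    rw [MvPolynomial.algebraMap_eq]
    exact MvPolynomial.isHomogeneous_C _ _
  · exact MvPolynomial.isHomogeneous_zero _ _ _

theorem HH_add {f g : PowerSeries (P r)} (hf : HH f) (hg : HH g) : HH (f + g) := by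
  intro j
  rw [map_add]
  exact (hf j).add (hg j)

theorem HH_mul {f g : PowerSeries (P r)} (hf : HH f) (hg : HH g) : HH (f * g) := by
  intro j
  rw [PowerSeries.coeff_mul]
  refine MvPolynomial.IsHomogeneous.sum _ _ _ fun p hp => ?_
  rw [Finset.HasAntidiagonal.mem_antidiagonal] at hp
  rw [← hp]
  exact (hf p.1).mul (hg p.2)

private theorem SF04_coeff_dy (l : Fin r) (f : PowerSeries (P r)) (j : ℕ) :
    PowerSeries.coeff j (dy l f) = MvPolynomial.pderiv l (PowerSeries.coeff (j + 1) f) := by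
  exact PowerSeries.coeff_mk _ _

private theorem SF04_coeff_Lt (v : Fin r → ℂ) (t : ℕ) (f : PowerSeries (P r)) (j : ℕ) :
    PowerSeries.coeff j (Lt v t f) = (lin v (PowerSeries.coeff (j + t) f)).coeff t := by
  exact PowerSeries.coeff_mk _ _

theorem HH_dy {f : PowerSeries (P r)} (hf : HH f) (l : Fin r) : HH (dy l f) := by
  intro j
  rw [SF04_coeff_dy]
  exact (hf (j + 1)).pderiv

theorem HH_T0 (R : PowerSeries (P r)) : HH (T0 R) := by
  intro j
  rw [coeff_T0]
  exact MvPolynomial.homogeneousComponent_isHomogeneous _ _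

theorem HH_Wl (D : ℕ → P r) (m : ℕ) : HH (Wl D m) := by
  intro j
  rw [Wl, PowerSeries.coeff_mk]
  exact MvPolynomial.homogeneousComponent_isHomogeneous _ _

theorem X_mul_dy {f : PowerSeries (P r)} (hf : HH f) (l : Fin r) :
    PowerSeries.X * dy l f = dc l f := by
  ext1 k
  rw [coeff_dc]
  rcases k with _ | k
  · rw [PowerSeries.coeff_zero_X_mul]
    have h := hf 0
    obtain ⟨c, hc⟩ : ∃ c : ℂ, PowerSeries.coeff 0 f = MvPolynomial.C c :=
      ⟨_, (MvPolynomial.totalDegree_eq_zero_iff_eq_C).1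
        (Nat.le_zero.1 (MvPolynomial.IsHomogeneous.totalDegree_le h))⟩
    rw [hc, MvPolynomial.pderiv_C]
  · rw [PowerSeries.coeff_succ_X_mul, SF04_coeff_dy]

theorem dy_add (l : Fin r) (f g : PowerSeries (P r)) : dy l (f + g) = dy l f + dy l g := by
  ext1 k
  rw [map_add, SF04_coeff_dy, SF04_coeff_dy, SF04_coeff_dy, map_add, map_add]

theorem dy_zero (l : Fin r) : dy l (0 : PowerSeries (P r)) = 0 := by
  ext1 k
  rw [SF04_coeff_dy, map_zero, map_zero, map_zero]

theorem dy_algebraMap (l : Fin r) (c : ℂ) : dy l (algebraMap ℂ (PowerSeries (P r)) c) = 0 := by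
  ext1 k
  rw [SF04_coeff_dy, PowerSeries.algebraMap_apply, PowerSeries.coeff_C, if_neg (Nat.succ_ne_zero k),
    map_zero, map_zero]

theorem dy_C_mul (l : Fin r) (c : ℂ) (f : PowerSeries (P r)) :
    dy l (PowerSeries.C (MvPolynomial.C c) * f) = PowerSeries.C (MvPolynomial.C c) * dy l f := by
  ext1 k
  rw [SF04_coeff_dy, PowerSeries.coeff_C_mul, PowerSeries.coeff_C_mul, SF04_coeff_dy,
    MvPolynomial.pderiv_C_mul]

theorem dy_mul {f g : PowerSeries (P r)} (hf : HH f) (hg : HH g) (l : Fin r) :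
    dy l (f * g) = f * dy l g + dy l f * g := by
  have h1 := X_mul_dy (HH_mul hf hg) l
  rw [dc_mul, ← X_mul_dy hf, ← X_mul_dy hg] at h1
  have h2 : (PowerSeries.X : PowerSeries (P r)) * dy l (f * g) =
      PowerSeries.X * (f * dy l g + dy l f * g) := by
    rw [h1]
    ring
  exact mul_left_cancel₀ PowerSeries.X_ne_zero h2

theorem Lt_zero (v : Fin r → ℂ) (f : PowerSeries (P r)) : Lt v 0 f = f := by
  ext1 k
  rw [SF04_coeff_Lt, Nat.add_zero]
  generalize PowerSeries.coeff k f = p
  have h : ((Polynomial.constantCoeff : Polynomial (P r) →+* P r).comp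
      (lin v : P r →+* Polynomial (P r))) = RingHom.id (P r) := by
    apply MvPolynomial.ringHom_ext
    · intro c
      simp [lin, Polynomial.constantCoeff_apply]
    · intro i
      simp [lin, Polynomial.constantCoeff_apply]
  have h1 := RingHom.congr_fun h p
  rw [RingHom.comp_apply, Polynomial.constantCoeff_apply, RingHom.id_apply] at h1
  exact h1

theorem Lt_succ (v : Fin r → ℂ) (t : ℕ) (f : PowerSeries (P r)) :
    ((t : PowerSeries (P r)) + 1) * Lt v (t + 1) f =
      ∑ a, PowerSeries.C (MvPolynomial.C (v a)) * dy a (Lt v t f) := by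
  have hc : ((t : PowerSeries (P r)) + 1) = PowerSeries.C ((t : P r) + 1) := by
    rw [map_add, map_one, map_natCast]
  ext1 k
  rw [hc, PowerSeries.coeff_C_mul, SF04_coeff_Lt, map_sum]
  have h1 := lin_succ v (PowerSeries.coeff (k + (t + 1)) f) t
  rw [h1]
  refine Finset.sum_congr rfl fun a _ => ?_
  rw [PowerSeries.coeff_C_mul, SF04_coeff_dy, SF04_coeff_Lt]
  have h2 : k + 1 + t = k + (t + 1) := by omega
  rw [h2]

theorem HH_Lt (v : Fin r → ℂ) (t : ℕ) {f : PowerSeries (P r)} (hf : HH f) : HH (Lt v t f) := by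
  intro j
  rw [SF04_coeff_Lt]
  have h1 := lin_hom v (PowerSeries.coeff (j + t) f) j t
  have h2 := MvPolynomial.homogeneousComponent_of_mem
    ((MvPolynomial.mem_homogeneousSubmodule _ _).2 (hf (j + t))) (n := j + t) (m := j + t)
  rw [if_pos rfl] at h2
  rw [h2] at h1
  rw [← h1]
  exact MvPolynomial.homogeneousComponent_isHomogeneous _ _

end Pool.Agent.Lib.MP_8ce23f_nt.RR
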