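import Pool.Agent.Lib.MP_8ce23f_nt.RR.SF04

/-!
# Taylor coefficients in a closed algebra

It uses the statements of SF04.  Induction on `t` with `Lt_succ` (divide by `t + 1`: a subalgebra over `ℂ`); `Lt v 0 f = f`.
-/

namespace Pool.Agent.Lib.MP_8ce23f_nt.RR

variable {r : ℕ}

theorem Cls.C_mem (C : Subalgebra ℂ (PowerSeries (P r))) (c : ℂ) :
    PowerSeries.C (MvPolynomial.C c) ∈ C := by
  have h := C.algebraMap_mem c
  rwa [PowerSeries.algebraMap_apply, MvPolynomial.algebraMap_eq] at h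

private theorem SF05_div {C : Subalgebra ℂ (PowerSeries (P r))} (t : ℕ) {g : PowerSeries (P r)}
    (h : ((t : PowerSeries (P r)) + 1) * g ∈ C) : g ∈ C := by
  have ht : ((t : ℂ) + 1) ≠ 0 := by exact_mod_cast Nat.succ_ne_zero t
  have e : g = ((t : ℂ) + 1)⁻¹ • (((t : PowerSeries (P r)) + 1) * g) := by
    have e2 : ((t : PowerSeries (P r)) + 1) * g = ((t : ℂ) + 1) • g := by
      rw [Algebra.smul_def, map_add, map_natCast, map_one]
    rw [e2, smul_smul, inv_mul_cancel₀ ht, one_smul]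
  rw [e]
  exact C.smul_mem h _

private theorem SF05_dy_sum (l : Fin r) (g : Fin r → PowerSeries (P r)) :
    dy l (∑ b, g b) = ∑ b, dy l (g b) := by
  have h := map_sum ({ toFun := dy l, map_zero' := dy_zero l, map_add' := dy_add l } :
    PowerSeries (P r) →+ PowerSeries (P r)) g Finset.univ
  exact h

private theorem SF05_step {C : Subalgebra ℂ (PowerSeries (P r))} (v : Fin r → ℂ) (t : ℕ)
    {f : PowerSeries (P r)} (h : ∀ a, dy a (Lt v t f) ∈ C) : Lt v (t + 1) f ∈ C := by
  apply SF05_div t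
  rw [Lt_succ]
  exact C.sum_mem fun a _ => C.mul_mem (Cls.C_mem C (v a)) (h a)

theorem Lt_mem {C : Subalgebra ℂ (PowerSeries (P r))} (hC : Cls C) (v : Fin r → ℂ)
    {f : PowerSeries (P r)} (hf : ∀ l, dy l f ∈ C) (t : ℕ) : Lt v (t + 1) f ∈ C := by
  induction t with
  | zero =>
    apply SF05_step
    intro a
    rw [Lt_zero]
    exact hf a
  | succ t ih =>
    apply SF05_step
    intro a
    exact hC.cl _ ih a

theorem Lt_mem₂ {C : Subalgebra ℂ (PowerSeries (P r))} (hC : Cls C) (v : Fin r → ℂ)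
    {f : PowerSeries (P r)} (hf : ∀ l l', dy l (dy l' f) ∈ C) (t : ℕ) : Lt v (t + 2) f ∈ C := by
  induction t with
  | zero =>
    apply SF05_step
    intro a
    have h1 : Lt v (0 + 1) f = ∑ b, PowerSeries.C (MvPolynomial.C (v b)) * dy b f := by
      have h := Lt_succ v 0 f
      rw [Lt_zero, Nat.cast_zero, zero_add, one_mul] at h
      exact h
    rw [h1, SF05_dy_sum]
    refine C.sum_mem fun b _ => ?_
    rw [dy_C_mul]
    exact C.mul_mem (Cls.C_mem C (v b)) (hf a b)
  | succ t ih =>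
    apply SF05_step
    intro a
    exact hC.cl _ ih a

end Pool.Agent.Lib.MP_8ce23f_nt.RR
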