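import Mathlib

/-!
# Linear systems over a subalgebra

Mathlib only.  Cramer: `w • (adjugate J).mulVec (J.mulVec x) = x`; the entries of the adjugate are in `C` (determinants are sums of
products of entries).
-/

namespace Pool.Agent.Lib.MP_8ce23f_nt.RR

private theorem SF06_det {r : ℕ} {B : Type*} [CommRing B] [Algebra ℂ B] (C : Subalgebra ℂ B)
    {J : Matrix (Fin r) (Fin r) B} (hJ : ∀ i j, J i j ∈ C) : J.det ∈ C := by
  rw [Matrix.det_apply]
  refine C.sum_mem fun σ _ => ?_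
  rw [Units.smul_def]
  exact zsmul_mem (C.prod_mem fun i _ => hJ (σ i) i) _

private theorem SF06_adj {r : ℕ} {B : Type*} [CommRing B] [Algebra ℂ B] (C : Subalgebra ℂ B)
    {J : Matrix (Fin r) (Fin r) B} (hJ : ∀ i j, J i j ∈ C) (i j : Fin r) : J.adjugate i j ∈ C := by
  rw [Matrix.adjugate_apply]
  refine SF06_det C fun a b => ?_
  rw [Matrix.updateRow_apply]
  split_ifs with h
  · rw [Pi.single_apply]
    split_ifs
    · exact C.one_mem
    · exact C.zero_mem
  · exact hJ a b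

theorem mem_of_mul {r : ℕ} {B : Type*} [CommRing B] [Algebra ℂ B] (C : Subalgebra ℂ B)
    {J : Matrix (Fin r) (Fin r) B} (hJ : ∀ i j, J i j ∈ C) {w : B} (hw : w ∈ C)
    (hdet : J.det * w = 1) {x : Fin r → B} (hx : ∀ i, ∑ l, J i l * x l ∈ C) (l : Fin r) :
    x l ∈ C := by
  have h1 : J.adjugate.mulVec (J.mulVec x) = J.det • x := by
    rw [Matrix.mulVec_mulVec, Matrix.adjugate_mul, Matrix.smul_mulVec, Matrix.one_mulVec]
  have h2 : J.det * x l = ∑ i, J.adjugate l i * ∑ k, J i k * x k := by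
    have h3 := congrFun h1 l
    rw [Pi.smul_apply, smul_eq_mul] at h3
    rw [← h3]
    rfl
  have h4 : x l = w * ∑ i, J.adjugate l i * ∑ k, J i k * x k := by
    rw [← h2, ← mul_assoc, mul_comm w, hdet, one_mul]
  rw [h4]
  exact C.mul_mem hw (C.sum_mem fun i _ => C.mul_mem (SF06_adj C hJ l i) (hx i))

theorem det_mem {r : ℕ} {B : Type*} [CommRing B] [Algebra ℂ B] (C : Subalgebra ℂ B)
    {J : Matrix (Fin r) (Fin r) B} (hJ : ∀ i j, J i j ∈ C) : J.det ∈ C := by
  exact SF06_det C hJ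

end Pool.Agent.Lib.MP_8ce23f_nt.RR
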