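import Mathlib

/-!
# The recursion of an exponential

Mathlib only.  By strong induction for `k < n`: `ρ k = ρ 0 * e` with `e ∈ C`: `k ρ k = ∑_{1 ≤ a ≤ k} a d_a ρ_{k-a}` (the term `a = 0` has
the factor `0`), divide by `k`.  Then `n ρ n = n d_n ρ 0 + ∑_{1 ≤ a < n} a d_a ρ_{n-a}`.
-/

namespace Pool.Agent.Lib.MP_8ce23f_nt.RR

private theorem SF07_sum {B : Type*} [CommRing B] [Algebra ℂ B] (C : Subalgebra ℂ B) {ι : Type*}
    (s : Finset ι) (f : ι → B) (r : B) (h : ∀ p ∈ s, ∃ c ∈ C, f p = r * c) :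
    ∃ c ∈ C, ∑ p ∈ s, f p = r * c := by
  classical
  induction s using Finset.induction_on with
  | empty => exact ⟨0, C.zero_mem, by simp⟩
  | insert a s ha ih =>
    obtain ⟨c, hc, hc'⟩ := ih (fun p hp => h p (Finset.mem_insert_of_mem hp))
    obtain ⟨b, hb, hb'⟩ := h a (Finset.mem_insert_self a s)
    refine ⟨b + c, C.add_mem hb hc, ?_⟩
    rw [Finset.sum_insert ha, hc', hb', mul_add]

private theorem SF07_div {B : Type*} [CommRing B] [Algebra ℂ B] {k : ℕ} (hk : 1 ≤ k) {x y : B}
    (h : (k : B) * x = y) : x = ((k : ℂ)⁻¹) • y := by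
  have hk' : (k : ℂ) ≠ 0 := by exact_mod_cast (by omega : k ≠ 0)
  have h1 : (k : B) * x = (k : ℂ) • x := by
    rw [Algebra.smul_def, map_natCast]
  rw [← h, h1, inv_smul_smul₀ hk']

theorem exp_rec {B : Type*} [CommRing B] [Algebra ℂ B] (C : Subalgebra ℂ B) {ρ d : ℕ → B}
    (h : ∀ n : ℕ, (n : B) * ρ n = ∑ p ∈ Finset.HasAntidiagonal.antidiagonal n,
      (p.1 : B) * d p.1 * ρ p.2)
    {n : ℕ} (hn : 1 ≤ n) (hd : ∀ a, 1 ≤ a → a < n → d a ∈ C) :
    ∃ c ∈ C, ρ n = ρ 0 * (d n + c) := by
  classical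
  have key : ∀ k, k < n → ∃ e ∈ C, ρ k = ρ 0 * e := by
    intro k
    induction k using Nat.strong_induction_on with
    | _ k ih =>
      intro hk
      rcases Nat.eq_zero_or_pos k with rfl | hk0
      · exact ⟨1, C.one_mem, by rw [mul_one]⟩
      · obtain ⟨c, hc, hc'⟩ := SF07_sum C (Finset.HasAntidiagonal.antidiagonal k)
          (fun p => (p.1 : B) * d p.1 * ρ p.2) (ρ 0) (by
            intro p hp
            rw [Finset.HasAntidiagonal.mem_antidiagonal] at hp
            rcases Nat.eq_zero_or_pos p.1 with h0 | h0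
            · refine ⟨0, C.zero_mem, ?_⟩
              simp [h0]
            · obtain ⟨e, he, he'⟩ := ih p.2 (by omega) (by omega)
              refine ⟨(p.1 : B) * d p.1 * e,
                C.mul_mem (C.mul_mem (C.natCast_mem _) (hd p.1 h0 (by omega))) he, ?_⟩
              show (p.1 : B) * d p.1 * ρ p.2 = _
              rw [he']
              ring)
        have h1 := SF07_div hk0 ((h k).trans hc')
        refine ⟨((k : ℂ)⁻¹) • c, C.smul_mem hc _, ?_⟩
        rw [h1, mul_smul_comm]
  have hmem : (n, 0) ∈ Finset.HasAntidiagonal.antidiagonal n := by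
    rw [Finset.HasAntidiagonal.mem_antidiagonal]
    simp
  obtain ⟨c, hc, hc'⟩ := SF07_sum C ((Finset.HasAntidiagonal.antidiagonal n).erase (n, 0))
    (fun p => (p.1 : B) * d p.1 * ρ p.2) (ρ 0) (by
      intro p hp
      rw [Finset.mem_erase, Finset.HasAntidiagonal.mem_antidiagonal] at hp
      obtain ⟨hne, hp⟩ := hp
      rcases Nat.eq_zero_or_pos p.1 with h0 | h0
      · refine ⟨0, C.zero_mem, ?_⟩
        simp [h0]
      · have hlt : p.1 < n := by
          rcases Nat.lt_or_ge p.1 n with h2 | h2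
          · exact h2
          · exfalso
            apply hne
            ext
            · show p.1 = n
              omega
            · show p.2 = 0
              omega
        obtain ⟨e, he, he'⟩ := key p.2 (by omega)
        refine ⟨(p.1 : B) * d p.1 * e,
          C.mul_mem (C.mul_mem (C.natCast_mem _) (hd p.1 h0 hlt)) he, ?_⟩
        show (p.1 : B) * d p.1 * ρ p.2 = _
        rw [he']
        ring)
  have h2 : (n : B) * (ρ n - ρ 0 * d n) = ρ 0 * c := by
    have h3 := h n
    rw [← Finset.add_sum_erase _ _ hmem] at h3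
    have h4 : (n : B) * ρ n = (n : B) * d n * ρ 0 + ρ 0 * c := by
      rw [h3]
      exact congrArg₂ (· + ·) rfl hc'
    rw [mul_sub, h4]
    ring
  have h5 := SF07_div hn h2
  refine ⟨((n : ℂ)⁻¹) • c, C.smul_mem hc _, ?_⟩
  rw [mul_add, mul_smul_comm, ← h5]
  ring

end Pool.Agent.Lib.MP_8ce23f_nt.RR
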