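import Pool.Agent.Lib.MP_8ce23f_nt.RR.SF02
import Pool.Agent.Lib.MP_8ce23f_nt.RR.SF05
import Pool.Agent.Lib.MP_8ce23f_nt.RR.SF07

/-!
# The functional equation at level `n`

It uses the statements of SF02, SF03, SF04, SF05, SF07.  Fix `i`, `Δ = mk (sh e_i (Dz D k) - Dz D k)`,
`Δ' = mk (sh (A i) (Dz D k) - Dz D k - if k = 1 then X_i + C (A_ii / 2) else 0)`; `θ (R i) = θ Δ * R i`, `θ (S i) = θ Δ' * S i`
(`FD.Rθ`, `FD.Sθ`, `coeff_θ`; the terms `p.1 = 0` have the factor `0`), `WB Δ`, `WB Δ'` (`totalDegree_sh_sub_le`).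
`d a = lev a Δ = ∑_{t ≤ a} Lt e_i (t+1) (Wl (Dz D) (a - t))` (`lev_sh`), `g a = lev a Δ' = ∑ Lt (A i) (t+1) ..` minus (`a = 1`: the constant
`A_ii / 2`; `a ≥ 2`: `0`).  For `1 ≤ a < n` both are in `C` (`Lt_mem` if `a - t ≥ 1`; if `t = a` then `t + 1 ≥ 2`: `Lt_mem₂`); `exp_rec` gives
`lev n (R i) = T0 (R i) * (d n + c)`, `lev n (S i) = T0 (S i) * (g n + c')` (`lev 0 = T0`).  `lev n` of `FD.fe`: `Q_i lev n (R i) + (1 - Q_i) lev n (S i) = 0`,
and `1 - q_i = (1 - Q_i) T0 (S i)` (`lev 0` of `FD.fe`).  So `q_i d n + (1 - q_i) g n ∈ C`, with `d n = dy i (Wl (Dz D) n) + (in C)`,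
`g n = ∑ A_il dy l (Wl (Dz D) n) + (in C)` (`Lt v 1 f = ∑ v_a dy a f`, by `Lt_succ`, `Lt_zero`).
-/

namespace Pool.Agent.Lib.MP_8ce23f_nt.RR

variable {r : ℕ}

private theorem SF08_deg {D : ℕ → P r} (hD : ∀ k : ℕ, 1 ≤ k → (D k).totalDegree ≤ k + 1) (k : ℕ) :
    (Dz D k).totalDegree ≤ k + 1 := by
  unfold Dz
  rcases Nat.eq_zero_or_pos k with hk | hk
  · rw [if_pos hk, MvPolynomial.totalDegree_zero]
    exact Nat.zero_le _
  · rw [if_neg (Nat.pos_iff_ne_zero.1 hk)]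
    exact hD k hk

private theorem SF08_T0 (f : PowerSeries (P r)) : lev 0 f = T0 f := by
  ext1 k
  rw [lev, PowerSeries.coeff_mk, coeff_T0, zero_add]

private theorem SF08_lev_add (n : ℕ) (f g : PowerSeries (P r)) : lev n (f + g) = lev n f + lev n g := by
  ext1 k
  rw [map_add, lev, lev, lev, PowerSeries.coeff_mk, PowerSeries.coeff_mk, PowerSeries.coeff_mk, map_add, map_add]

private theorem SF08_lev_sub (n : ℕ) (f g : PowerSeries (P r)) : lev n (f - g) = lev n f - lev n g := by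
  ext1 k
  rw [map_sub, lev, lev, lev, PowerSeries.coeff_mk, PowerSeries.coeff_mk, PowerSeries.coeff_mk, map_sub, map_sub]

private theorem SF08_lev_C (n : ℕ) (z : ℂ) (f : PowerSeries (P r)) :
    lev n (PowerSeries.C (MvPolynomial.C z) * f) = PowerSeries.C (MvPolynomial.C z) * lev n f := by
  ext1 k
  rw [PowerSeries.coeff_C_mul, lev, lev, PowerSeries.coeff_mk, PowerSeries.coeff_mk, PowerSeries.coeff_C_mul,
    MvPolynomial.homogeneousComponent_C_mul]

private theorem SF08_lev_one {n : ℕ} (hn : 1 ≤ n) : lev n (1 : PowerSeries (P r)) = 0 := by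
  ext1 k
  rw [lev, PowerSeries.coeff_mk, PowerSeries.coeff_one, if_neg (by omega), map_zero, map_zero]

/-- The correction term in the equation for `S i`. -/
private noncomputable def SF08_c (i : Fin r) (z : ℂ) : PowerSeries (P r) :=
  PowerSeries.mk fun k => if k = 1 then MvPolynomial.X i + MvPolynomial.C z else 0

private theorem SF08_cdeg (i : Fin r) (z : ℂ) :
    (MvPolynomial.X i + MvPolynomial.C z : P r).totalDegree ≤ 1 := by
  refine (MvPolynomial.totalDegree_add _ _).trans (max_le ?_ ?_)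
  · rw [MvPolynomial.totalDegree_X]
  · rw [MvPolynomial.totalDegree_C]; exact Nat.zero_le _

private theorem SF08_lev_c (C : Subalgebra ℂ (PowerSeries (P r))) (i : Fin r) (z : ℂ) {n : ℕ} (hn : 1 ≤ n) :
    lev n (SF08_c i z) ∈ C := by
  by_cases h1 : n = 1
  · subst h1
    have h2 : lev 1 (SF08_c i z) = PowerSeries.C (MvPolynomial.C z) := by
      ext1 k
      rw [lev, PowerSeries.coeff_mk, SF08_c, PowerSeries.coeff_mk, PowerSeries.coeff_C]
      by_cases hk : k = 0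
      · subst hk
        rw [if_pos rfl, if_pos rfl, map_add,
          MvPolynomial.homogeneousComponent_of_mem (MvPolynomial.isHomogeneous_X ℂ i), if_neg (by omega), zero_add,
          MvPolynomial.homogeneousComponent_of_mem (MvPolynomial.isHomogeneous_C (Fin r) z), if_pos rfl]
      · rw [if_neg (by omega), if_neg hk, map_zero]
    rw [h2]
    exact Cls.C_mem C z
  · have h2 : lev n (SF08_c i z) = 0 := by
      ext1 k
      rw [lev, PowerSeries.coeff_mk, SF08_c, PowerSeries.coeff_mk, if_neg (by omega), map_zero, map_zero]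
    rw [h2]
    exact C.zero_mem

/-- The difference of a shift. -/
private noncomputable def SF08_d (D : ℕ → P r) (v : Fin r → ℂ) : PowerSeries (P r) :=
  PowerSeries.mk fun k => sh v (Dz D k) - Dz D k

private theorem SF08_WB_d {D : ℕ → P r} (hD : ∀ k : ℕ, 1 ≤ k → (D k).totalDegree ≤ k + 1) (v : Fin r → ℂ) :
    WB (SF08_d D v) := by
  intro k
  rw [SF08_d, PowerSeries.coeff_mk]
  exact totalDegree_sh_sub_le v (SF08_deg hD k)

private theorem SF08_WB_c (i : Fin r) (z : ℂ) : WB (SF08_c i z) := by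
  intro k
  rw [SF08_c, PowerSeries.coeff_mk]
  by_cases hk : k = 1
  · rw [if_pos hk, hk]
    exact SF08_cdeg i z
  · rw [if_neg hk, MvPolynomial.totalDegree_zero]
    exact Nat.zero_le _

private theorem SF08_WB_sub {f g : PowerSeries (P r)} (hf : WB f) (hg : WB g) : WB (f - g) := by
  intro k
  rw [map_sub]
  exact (MvPolynomial.totalDegree_sub _ _).trans (max_le (hf k) (hg k))

private theorem SF08_Lt_one (v : Fin r → ℂ) (f : PowerSeries (P r)) :
    Lt v 1 f = ∑ a, PowerSeries.C (MvPolynomial.C (v a)) * dy a f := by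
  have h := Lt_succ v 0 f
  rw [Nat.cast_zero, zero_add, one_mul, zero_add] at h
  rw [h]
  refine Finset.sum_congr rfl fun a _ => ?_
  rw [Lt_zero]

/-- The terms of `lev n` of a difference of a shift. -/
private theorem SF08_term {D : ℕ → P r} {C : Subalgebra ℂ (PowerSeries (P r))} (hC : Cls C) {n : ℕ}
    (h0 : ∀ l l', dy l (dy l' (Wl (Dz D) 0)) ∈ C)
    (hW : ∀ m, 1 ≤ m → m < n → ∀ l, dy l (Wl (Dz D) m) ∈ C) (v : Fin r → ℂ) {a t : ℕ} (ha : 1 ≤ a) (hta : t ≤ a)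
    (hlt : a - t < n) : Lt v (t + 1) (Wl (Dz D) (a - t)) ∈ C := by
  by_cases h1 : t = a
  · subst h1
    rw [Nat.sub_self]
    obtain ⟨s, rfl⟩ : ∃ s, t = s + 1 := ⟨t - 1, by omega⟩
    exact Lt_mem₂ hC v h0 s
  · exact Lt_mem hC v (hW (a - t) (by omega) hlt) t

private theorem SF08_lev_lt {D : ℕ → P r} (hD : ∀ k : ℕ, 1 ≤ k → (D k).totalDegree ≤ k + 1)
    {C : Subalgebra ℂ (PowerSeries (P r))} (hC : Cls C) {n : ℕ}
    (h0 : ∀ l l', dy l (dy l' (Wl (Dz D) 0)) ∈ C)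
    (hW : ∀ m, 1 ≤ m → m < n → ∀ l, dy l (Wl (Dz D) m) ∈ C) (v : Fin r → ℂ) {a : ℕ} (ha : 1 ≤ a) (han : a < n) :
    lev a (SF08_d D v) ∈ C := by
  rw [SF08_d, lev_sh v (SF08_deg hD) a]
  refine C.sum_mem fun t ht => ?_
  have ht' : t < a + 1 := Finset.mem_range.1 ht
  exact SF08_term hC h0 hW v ha (by omega) (by omega)

private theorem SF08_lev_n {D : ℕ → P r} (hD : ∀ k : ℕ, 1 ≤ k → (D k).totalDegree ≤ k + 1)
    {C : Subalgebra ℂ (PowerSeries (P r))} (hC : Cls C) {n : ℕ} (hn : 1 ≤ n)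
    (h0 : ∀ l l', dy l (dy l' (Wl (Dz D) 0)) ∈ C)
    (hW : ∀ m, 1 ≤ m → m < n → ∀ l, dy l (Wl (Dz D) m) ∈ C) (v : Fin r → ℂ) :
    ∃ c ∈ C, lev n (SF08_d D v) = (∑ a, PowerSeries.C (MvPolynomial.C (v a)) * dy a (Wl (Dz D) n)) + c := by
  refine ⟨∑ t ∈ Finset.range n, Lt v (t + 1 + 1) (Wl (Dz D) (n - (t + 1))), ?_, ?_⟩
  · refine C.sum_mem fun t ht => ?_
    have ht' : t < n := Finset.mem_range.1 ht
    exact SF08_term hC h0 hW v hn (by omega) (by omega)
  · rw [SF08_d, lev_sh v (SF08_deg hD) n, Finset.sum_range_succ', zero_add, Nat.sub_zero, SF08_Lt_one, add_comm]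

theorem fe_level {A : Matrix (Fin r) (Fin r) ℂ} {Q : Fin r → ℂ} {D : ℕ → P r}
    {R S : Fin r → PowerSeries (P r)} (h : FD A Q D R S) {C : Subalgebra ℂ (PowerSeries (P r))}
    (hC : Cls C) (hq : ∀ i, PowerSeries.C (MvPolynomial.C (Q i)) * T0 (R i) ∈ C) {n : ℕ}
    (hn : 1 ≤ n) (h0 : ∀ l l', dy l (dy l' (Wl (Dz D) 0)) ∈ C)
    (hW : ∀ m, 1 ≤ m → m < n → ∀ l, dy l (Wl (Dz D) m) ∈ C) (i : Fin r) :
    ∑ l, JB A (fun i => PowerSeries.C (MvPolynomial.C (Q i)) * T0 (R i)) i l *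
      dy l (Wl (Dz D) n) ∈ C := by
  have hR : θ (R i) = θ (SF08_d D (Pi.single i 1)) * R i := by
    ext1 k
    rw [coeff_θ, h.Rθ, PowerSeries.coeff_mul]
    refine Finset.sum_congr rfl fun p _ => ?_
    rw [coeff_θ, SF08_d, PowerSeries.coeff_mk, Dz]
    by_cases hp : p.1 = 0
    · rw [hp, Nat.cast_zero]
      simp only [zero_mul]
    · rw [if_neg hp]
  have hS : θ (S i) = θ (SF08_d D (A i) - SF08_c i (A i i / 2)) * S i := by
    ext1 k
    rw [coeff_θ, h.Sθ, PowerSeries.coeff_mul]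
    refine Finset.sum_congr rfl fun p _ => ?_
    rw [coeff_θ, map_sub, SF08_d, SF08_c, PowerSeries.coeff_mk, PowerSeries.coeff_mk, Dz]
    by_cases hp : p.1 = 0
    · rw [hp, Nat.cast_zero, zero_mul, zero_mul, if_neg (by omega), sub_zero]
    · rw [if_neg hp]
      by_cases hp1 : p.1 = 1
      · rw [hp1, if_pos rfl, Nat.cast_one, one_mul, one_mul]
      · rw [if_neg hp1, sub_zero, sub_zero]
  have hWR : WB (R i) := fun k => h.Rdeg i k
  have hWS : WB (S i) := fun k => h.Sdeg i k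
  obtain ⟨c, hc, h1⟩ := exp_rec C (ρ := fun n => lev n (R i)) (d := fun n => lev n (SF08_d D (Pi.single i 1)))
    (fun n => lev_ode hWR (SF08_WB_d h.deg _) hR n) hn (fun a ha han => SF08_lev_lt h.deg hC h0 hW _ ha han)
  obtain ⟨c', hc', h1'⟩ := exp_rec C (ρ := fun n => lev n (S i))
    (d := fun n => lev n (SF08_d D (A i) - SF08_c i (A i i / 2)))
    (fun n => lev_ode hWS (SF08_WB_sub (SF08_WB_d h.deg _) (SF08_WB_c i _)) hS n) hn (fun a ha han => by
      show lev a (SF08_d D (A i) - SF08_c i (A i i / 2)) ∈ C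
      rw [SF08_lev_sub]
      exact C.sub_mem (SF08_lev_lt h.deg hC h0 hW _ ha han) (SF08_lev_c C i _ ha))
  obtain ⟨e, he, h2⟩ := SF08_lev_n h.deg hC hn h0 hW (Pi.single i 1)
  obtain ⟨e', he', h2'⟩ := SF08_lev_n h.deg hC hn h0 hW (A i)
  have hs : ∑ a, PowerSeries.C (MvPolynomial.C ((Pi.single i 1 : Fin r → ℂ) a)) * dy a (Wl (Dz D) n) =
      dy i (Wl (Dz D) n) := by
    rw [Finset.sum_eq_single i]
    · rw [Pi.single_eq_same, map_one, map_one, one_mul]
    · intro b _ hb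
      rw [Pi.single_eq_of_ne hb, map_zero, map_zero, zero_mul]
    · intro hi
      exact absurd (Finset.mem_univ i) hi
  rw [hs] at h2
  have hf : PowerSeries.C (MvPolynomial.C (Q i)) * lev n (R i) +
      PowerSeries.C (MvPolynomial.C (1 - Q i)) * lev n (S i) = 0 := by
    rw [← SF08_lev_C, ← SF08_lev_C, ← SF08_lev_add, h.fe i, SF08_lev_one hn]
  have hf0 : PowerSeries.C (MvPolynomial.C (Q i)) * T0 (R i) +
      PowerSeries.C (MvPolynomial.C (1 - Q i)) * T0 (S i) = 1 := by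
    rw [← T0_Cmul, ← T0_Cmul, ← T0_add, h.fe i, T0_one]
  simp only [SF08_T0] at h1 h1'
  rw [SF08_lev_sub, h2'] at h1'
  rw [h2] at h1
  set q := PowerSeries.C (MvPolynomial.C (Q i)) * T0 (R i) with hq'
  have hsum : ∑ l, JB A (fun i => PowerSeries.C (MvPolynomial.C (Q i)) * T0 (R i)) i l *
      dy l (Wl (Dz D) n) = q * dy i (Wl (Dz D) n) +
      (1 - q) * ∑ a, PowerSeries.C (MvPolynomial.C (A i a)) * dy a (Wl (Dz D) n) := by
    have h3 : ∀ l, JB A (fun i => PowerSeries.C (MvPolynomial.C (Q i)) * T0 (R i)) i l *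
        dy l (Wl (Dz D) n) = (if i = l then q * dy l (Wl (Dz D) n) else 0) +
        (1 - q) * (PowerSeries.C (MvPolynomial.C (A i l)) * dy l (Wl (Dz D) n)) := by
      intro l
      rw [JB, Jm, Matrix.of_apply, hq']
      split_ifs <;> ring
    rw [Finset.sum_congr rfl fun l _ => h3 l, Finset.sum_add_distrib, ← Finset.mul_sum, Finset.sum_ite_eq,
      if_pos (Finset.mem_univ i)]
  rw [hsum]
  have hqC : q ∈ C := hq i
  have h4 : q * dy i (Wl (Dz D) n) +
      (1 - q) * ∑ a, PowerSeries.C (MvPolynomial.C (A i a)) * dy a (Wl (Dz D) n) =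
      -(q * (e + c) + (1 - q) * (e' - lev n (SF08_c i (A i i / 2)) + c')) := by
    have h5 : 1 - q = PowerSeries.C (MvPolynomial.C (1 - Q i)) * T0 (S i) := by
      rw [← hf0]
      ring
    rw [h1, h1'] at hf
    rw [h5, hq']
    linear_combination hf
  rw [h4]
  exact C.neg_mem (C.add_mem (C.mul_mem hqC (C.add_mem he hc)) (C.mul_mem (C.sub_mem C.one_mem hqC)
    (C.add_mem (C.sub_mem he' (SF08_lev_c C i _ hn)) hc')))

end Pool.Agent.Lib.MP_8ce23f_nt.RR
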