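import Pool.Agent.Lib.MP_8ce23f_nt.RR.SF04
import Pool.Agent.Lib.MP_8ce23f_nt.RR.SF06

/-!
# The closed algebra

It uses the statements of SF04 and SF06.  `det (JB A q)` has constant coefficient `C (det (Jm A Q))`, a unit, so it has an inverse `w`
(`PowerSeries.isUnit_iff_constantCoeff`).  `C = adjoin (q_i, w)`.  `HH` by `Algebra.adjoin_induction`; `HH w`: recursion for the coefficients of the inverse
(`HH (det (JB A q))`; for the coefficient `n` of `det * w = 1` solve for `w_n`).  `M l i ∈ C` (`mem_of_mul` with the equation `hJ`).  Closure under `dy`: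
`Algebra.adjoin_induction` with `dy_mul`, `dy_add`, `dy_algebraMap`; generators: `dy l (q i) = q i * M l i`; `dy l w = - w² dy l det` (differentiate
`det * w = 1`), and `dy l det ∈ C` because `det` is in the adjoin of the `q_i` alone (first show for `f ∈ adjoin (q_i)`: `dy l f ∈ C`).
-/

namespace Pool.Agent.Lib.MP_8ce23f_nt.RR

variable {r : ℕ}

private lemma SF11_algebraMap (c : ℂ) :
    algebraMap ℂ (PowerSeries (P r)) c = PowerSeries.C (MvPolynomial.C c) := by
  rw [PowerSeries.algebraMap_apply]
  rfl

private lemma SF11_HH_inv {f w : PowerSeries (P r)} (hf : HH f) {d : ℂ} (hd : d ≠ 0)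
    (h0 : PowerSeries.coeff 0 f = MvPolynomial.C d) (h : f * w = 1) : HH w := by
  intro n
  induction n using Nat.strong_induction_on with
  | _ n ih =>
    have h1 : PowerSeries.coeff n (f * w) = PowerSeries.coeff n 1 := by rw [h]
    rw [PowerSeries.coeff_mul, Finset.Nat.sum_antidiagonal_eq_sum_range_succ
      (fun i j => PowerSeries.coeff i f * PowerSeries.coeff j w) n, Finset.sum_range_succ'] at h1
    simp only [Nat.sub_zero] at h1
    rw [h0] at h1
    have hcc : (MvPolynomial.C d⁻¹ : P r) * MvPolynomial.C d = 1 := by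
      rw [← map_mul, inv_mul_cancel₀ hd, map_one]
    have h2 : PowerSeries.coeff n w = MvPolynomial.C d⁻¹ * (PowerSeries.coeff n 1 -
        ∑ i ∈ Finset.range n, PowerSeries.coeff (i + 1) f * PowerSeries.coeff (n - (i + 1)) w) := by
      rw [← h1, add_sub_cancel_left, ← mul_assoc, hcc, one_mul]
    rw [h2]
    have h3 : (PowerSeries.coeff n (1 : PowerSeries (P r))).IsHomogeneous n := by
      rw [PowerSeries.coeff_one]
      split_ifs with hn
      · rw [hn]
        exact MvPolynomial.isHomogeneous_one _ _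
      · exact MvPolynomial.isHomogeneous_zero _ _ _
    have h4 : (∑ i ∈ Finset.range n, PowerSeries.coeff (i + 1) f *
        PowerSeries.coeff (n - (i + 1)) w).IsHomogeneous n := by
      apply MvPolynomial.IsHomogeneous.sum
      intro i hi
      rw [Finset.mem_range] at hi
      have h5 := (hf (i + 1)).mul (ih (n - (i + 1)) (by omega))
      have h6 : i + 1 + (n - (i + 1)) = n := by omega
      rw [h6] at h5
      exact h5
    have h7 := (MvPolynomial.isHomogeneous_C (Fin r) d⁻¹).mul (h3.sub h4)
    rw [zero_add] at h7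
    exact h7

theorem exists_Cls {A : Matrix (Fin r) (Fin r) ℂ} {Q : Fin r → ℂ} {q : Fin r → PowerSeries (P r)}
    (hq : ∀ i, HH (q i)) (hq0 : ∀ i, PowerSeries.constantCoeff (q i) = MvPolynomial.C (Q i))
    (hd : (Jm A Q).det ≠ 0) {M : Fin r → Fin r → PowerSeries (P r)}
    (hM : ∀ l i, dy l (q i) = q i * M l i)
    (hJ : ∀ i l, ∑ a, JB A q i a * M l a = (1 - q i) * if i = l then 1 else 0) :
    ∃ w : PowerSeries (P r), (JB A q).det * w = 1 ∧ Cls (Algebra.adjoin ℂ (Set.range q ∪ {w})) := by
  classical
  set S0 : Subalgebra ℂ (PowerSeries (P r)) := Algebra.adjoin ℂ (Set.range q) with hS0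
  have hqS0 : ∀ i, q i ∈ S0 := fun i => Algebra.subset_adjoin ⟨i, rfl⟩
  have hcS : ∀ (S : Subalgebra ℂ (PowerSeries (P r))) (c : ℂ),
      (PowerSeries.C (MvPolynomial.C c) : PowerSeries (P r)) ∈ S := by
    intro S c
    rw [← SF11_algebraMap]
    exact S.algebraMap_mem c
  have hent : ∀ S : Subalgebra ℂ (PowerSeries (P r)), (∀ i, q i ∈ S) → ∀ i j, JB A q i j ∈ S := by
    intro S hS i j
    unfold JB Jm
    rw [Matrix.of_apply]
    apply S.add_mem
    · split_ifs
      · exact hS i
      · exact S.zero_mem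
    · exact S.mul_mem (S.sub_mem S.one_mem (hS i)) (hcS S _)
  have hH0 : ∀ f ∈ S0, HH f := by
    intro f hf
    induction hf using Algebra.adjoin_induction with
    | mem x hx =>
      obtain ⟨i, rfl⟩ := hx
      exact hq i
    | algebraMap c => exact HH_algebraMap c
    | add x y _ _ hx hy => exact HH_add hx hy
    | mul x y _ _ hx hy => exact HH_mul hx hy
  have hdet0 : (JB A q).det ∈ S0 := det_mem S0 (hent S0 hqS0)
  have hconst : PowerSeries.constantCoeff (JB A q).det = MvPolynomial.C (Jm A Q).det := by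
    rw [RingHom.map_det, RingHom.map_det]
    congr 1
    ext i j : 2
    rw [RingHom.mapMatrix_apply, RingHom.mapMatrix_apply, Matrix.map_apply, Matrix.map_apply]
    unfold JB Jm
    rw [Matrix.of_apply, Matrix.of_apply, map_add, map_add, map_mul, map_mul, map_sub, map_sub,
      map_one, map_one, hq0, PowerSeries.constantCoeff_C]
    split_ifs
    · rw [hq0]
    · rw [map_zero, map_zero]
  have hunit : IsUnit (JB A q).det := by
    rw [PowerSeries.isUnit_iff_constantCoeff, hconst]
    exact (IsUnit.mk0 _ hd).map MvPolynomial.C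
  obtain ⟨w, hw⟩ := hunit.exists_right_inv
  have hHw : HH w := SF11_HH_inv (hH0 _ hdet0) hd (by
    rw [PowerSeries.coeff_zero_eq_constantCoeff_apply]
    exact hconst) hw
  refine ⟨w, hw, ?_⟩
  set S : Subalgebra ℂ (PowerSeries (P r)) := Algebra.adjoin ℂ (Set.range q ∪ {w}) with hSd
  have hqS : ∀ i, q i ∈ S := fun i => Algebra.subset_adjoin (Or.inl ⟨i, rfl⟩)
  have hwS : w ∈ S := Algebra.subset_adjoin (Or.inr rfl)
  have hS0S : S0 ≤ S := Algebra.adjoin_mono Set.subset_union_left
  have hMS : ∀ l i, M l i ∈ S := by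
    intro l i
    refine mem_of_mul S (hent S hqS) hwS hw (x := fun a => M l a) ?_ i
    intro i'
    rw [hJ i' l]
    apply S.mul_mem (S.sub_mem S.one_mem (hqS i'))
    split_ifs
    · exact S.one_mem
    · exact S.zero_mem
  have hHS : ∀ f ∈ S, HH f := by
    intro f hf
    induction hf using Algebra.adjoin_induction with
    | mem x hx =>
      rcases hx with ⟨i, rfl⟩ | hx
      · exact hq i
      · rw [Set.mem_singleton_iff] at hx
        rw [hx]
        exact hHw
    | algebraMap c => exact HH_algebraMap c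
    | add x y _ _ hx hy => exact HH_add hx hy
    | mul x y _ _ hx hy => exact HH_mul hx hy
  have hdq : ∀ l i, dy l (q i) ∈ S := by
    intro l i
    rw [hM]
    exact S.mul_mem (hqS i) (hMS l i)
  have hd0 : ∀ l, ∀ f ∈ S0, dy l f ∈ S := by
    intro l f hf
    induction hf using Algebra.adjoin_induction with
    | mem x hx =>
      obtain ⟨i, rfl⟩ := hx
      exact hdq l i
    | algebraMap c =>
      rw [dy_algebraMap]
      exact S.zero_mem
    | add x y _ _ hx hy =>
      rw [dy_add]
      exact S.add_mem hx hy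
    | mul x y hx' hy' hx hy =>
      rw [dy_mul (hH0 x hx') (hH0 y hy')]
      exact S.add_mem (S.mul_mem (hS0S hx') hy) (S.mul_mem hx (hS0S hy'))
  have hdw : ∀ l, dy l w ∈ S := by
    intro l
    have h1 := dy_mul (hH0 _ hdet0) hHw l
    have h2 : dy l ((JB A q).det * w) = 0 := by
      rw [hw, ← map_one (algebraMap ℂ (PowerSeries (P r))), dy_algebraMap]
    rw [h2] at h1
    have h3 : dy l w = -(w * w * dy l (JB A q).det) := by
      linear_combination -w * h1 - dy l w * hw
    rw [h3]
    exact S.neg_mem (S.mul_mem (S.mul_mem hwS hwS) (hd0 l _ hdet0))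
  refine ⟨hHS, ?_⟩
  intro f hf l
  induction hf using Algebra.adjoin_induction with
  | mem x hx =>
    rcases hx with ⟨i, rfl⟩ | hx
    · exact hdq l i
    · rw [Set.mem_singleton_iff] at hx
      rw [hx]
      exact hdw l
  | algebraMap c =>
    rw [dy_algebraMap]
    exact S.zero_mem
  | add x y _ _ hx hy =>
    rw [dy_add]
    exact S.add_mem hx hy
  | mul x y hx' hy' hx hy =>
    rw [dy_mul (hHS x hx') (hHS y hy')]
    exact S.add_mem (S.mul_mem hx' hy) (S.mul_mem hx hy')

end Pool.Agent.Lib.MP_8ce23f_nt.RR
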