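import Pool.Agent.Lib.MP_8ce23f_nt.RR.SF08
import Pool.Agent.Lib.MP_8ce23f_nt.RR.SF11

/-!
# All levels
-/

namespace Pool.Agent.Lib.MP_8ce23f_nt.RR

variable {r : ℕ}

/-- The functions `q_i`. -/
noncomputable def qR (Q : Fin r → ℂ) (R : Fin r → PowerSeries (P r)) (i : Fin r) :
    PowerSeries (P r) :=
  PowerSeries.C (MvPolynomial.C (Q i)) * T0 (R i)

theorem HH_qR (Q : Fin r → ℂ) (R : Fin r → PowerSeries (P r)) (i : Fin r) : HH (qR Q R i) :=
  HH_mul (by
    have h1 := HH_algebraMap (r := r) (Q i)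
    rw [PowerSeries.algebraMap_apply, MvPolynomial.algebraMap_eq] at h1
    exact h1) (HH_T0 _)

theorem dy_qR {A : Matrix (Fin r) (Fin r) ℂ} {Q : Fin r → ℂ} {D : ℕ → P r}
    {R S : Fin r → PowerSeries (P r)} (h : FD A Q D R S) (l i : Fin r) :
    dy l (qR Q R i) = qR Q R i * Mm (V D) i l := by
  have h1 : dy l (T0 (R i)) = T0 (R i) * Mm (V D) i l := by
    apply mul_left_cancel₀ (PowerSeries.X_ne_zero (R := P r))
    rw [X_mul_dy (HH_T0 _), (top_T0 h).2 i l]
    ring
  rw [qR, dy_C_mul, h1, mul_assoc]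

private theorem SF09_comm (i j : Fin r) (p : P r) :
    MvPolynomial.pderiv i (MvPolynomial.pderiv j p) =
      MvPolynomial.pderiv j (MvPolynomial.pderiv i p) := by
  have h : ⁅(MvPolynomial.pderiv i : Derivation ℂ (P r) (P r)),
      (MvPolynomial.pderiv j : Derivation ℂ (P r) (P r))⁆ = 0 := by
    apply MvPolynomial.derivation_ext
    intro k
    rw [Derivation.commutator_apply, MvPolynomial.pderiv_X, MvPolynomial.pderiv_X, Pi.single_apply,
      Pi.single_apply]
    split_ifs <;> simp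
  have h2 := congrArg (fun d : Derivation ℂ (P r) (P r) => d p) h
  simp only [Derivation.commutator_apply] at h2
  exact sub_eq_zero.1 h2

theorem dydy_W (D : ℕ → P r) (l l' : Fin r) : dy l (dy l' (Wl (Dz D) 0)) = Mm (V D) l l' := by
  ext1 k
  rw [dy, PowerSeries.coeff_mk, dy, PowerSeries.coeff_mk, Wl, PowerSeries.coeff_mk, Mm,
    PowerSeries.coeff_mk, V, Dz]
  have h1 : 0 + (k + 1 + 1) - 1 = k + 1 := by omega
  rw [h1, if_neg (Nat.succ_ne_zero k)]

theorem JB_M {A : Matrix (Fin r) (Fin r) ℂ} {Q : Fin r → ℂ} {D : ℕ → P r}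
    {R S : Fin r → PowerSeries (P r)} (h : FD A Q D R S) (i l : Fin r) :
    ∑ a, JB A (qR Q R) i a * Mm (V D) a l = (1 - qR Q R i) * if i = l then 1 else 0 := by
  have h1 := (top_T0 h).1.mm i l
  have h2 : ∑ a, JB A (qR Q R) i a * Mm (V D) a l =
      qR Q R i * Mm (V D) i l + (1 - qR Q R i) *
        ∑ a, PowerSeries.C (MvPolynomial.C (A i a)) * Mm (V D) a l := by
    have h3 : ∀ a, JB A (qR Q R) i a * Mm (V D) a l =
        (if i = a then qR Q R i * Mm (V D) a l else 0) +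
          (1 - qR Q R i) * (PowerSeries.C (MvPolynomial.C (A i a)) * Mm (V D) a l) := by
      intro a
      unfold JB Jm
      rw [Matrix.of_apply]
      split_ifs <;> ring
    simp only [h3]
    rw [Finset.sum_add_distrib, Finset.sum_ite_eq, if_pos (Finset.mem_univ _), ← Finset.mul_sum]
  have h4 : (PowerSeries.C (if i = l then 1 else 0) : PowerSeries (P r)) = if i = l then 1 else 0 := by
    split_ifs
    · rw [map_one]
    · rw [map_zero]
  rw [h4] at h1
  change qR Q R i * _ + (1 - qR Q R i) * _ = 0 at h1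
  rw [h2]
  linear_combination h1

/-- The closed algebra. -/
theorem exists_C {A : Matrix (Fin r) (Fin r) ℂ} {Q : Fin r → ℂ} {D : ℕ → P r}
    {R S : Fin r → PowerSeries (P r)} (h : FD A Q D R S) (hd : (Jm A Q).det ≠ 0) :
    ∃ w : PowerSeries (P r), (JB A (qR Q R)).det * w = 1 ∧
      Cls (Algebra.adjoin ℂ (Set.range (qR Q R) ∪ {w})) :=
  exists_Cls (M := fun l i => Mm (V D) i l) (HH_qR Q R) (top_T0 h).1.sym.q0 hd
    (fun l i => dy_qR h l i) (fun i l => JB_M h i l)

/-- All derivatives of all levels are in the closed algebra. -/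
theorem all_levels {A : Matrix (Fin r) (Fin r) ℂ} {Q : Fin r → ℂ} {D : ℕ → P r}
    {R S : Fin r → PowerSeries (P r)} (h : FD A Q D R S) {w : PowerSeries (P r)}
    (hw : (JB A (qR Q R)).det * w = 1)
    (hC : Cls (Algebra.adjoin ℂ (Set.range (qR Q R) ∪ {w}))) :
    (∀ l l', dy l (dy l' (Wl (Dz D) 0)) ∈ Algebra.adjoin ℂ (Set.range (qR Q R) ∪ {w})) ∧
      ∀ m, 1 ≤ m → ∀ l, dy l (Wl (Dz D) m) ∈ Algebra.adjoin ℂ (Set.range (qR Q R) ∪ {w}) := by
  set C := Algebra.adjoin ℂ (Set.range (qR Q R) ∪ {w}) with hCdef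
  have hq : ∀ i, qR Q R i ∈ C := fun i => Algebra.subset_adjoin (Or.inl ⟨i, rfl⟩)
  have hwm : w ∈ C := Algebra.subset_adjoin (Or.inr rfl)
  have hJ : ∀ i j, JB A (qR Q R) i j ∈ C := by
    intro i j
    unfold JB Jm
    rw [Matrix.of_apply]
    refine C.add_mem ?_ (C.mul_mem (C.sub_mem C.one_mem (hq i)) (Cls.C_mem C _))
    split_ifs
    · exact hq i
    · exact C.zero_mem
  have h0 : ∀ l l', dy l (dy l' (Wl (Dz D) 0)) ∈ C := by
    intro l l'
    rw [dydy_W]
    refine mem_of_mul C hJ hwm hw (x := fun a => Mm (V D) a l') (fun i => ?_) l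
    rw [JB_M h]
    refine C.mul_mem (C.sub_mem C.one_mem (hq i)) ?_
    split_ifs
    · exact C.one_mem
    · exact C.zero_mem
  refine ⟨h0, fun m => ?_⟩
  induction m using Nat.strong_induction_on with
  | _ m ih =>
    intro hm l
    exact mem_of_mul C hJ hwm hw (x := fun l => dy l (Wl (Dz D) m))
      (fun i => fe_level h hC hq hm h0 (fun m' h1 h2 => ih m' h2 h1) i) l

end Pool.Agent.Lib.MP_8ce23f_nt.RR
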