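import Pool.Agent.Lib.MP_8ce23f_nt.RR.Final
import Pool.Agent.Lib.MP_8ce23f_nt.AsyMod

/-!
# The coefficients at an asymptotically modular vector

A real vector `y` has the same higher coefficients as an asymptotically modular vector `x` if and
only if it is asymptotically modular.
-/

open Filter Topology Asymptotics

namespace Pool.Agent.Lib.MP_8ce23f_nt.RR

variable {r : ℕ}

/-- A series is determined by its logarithmic derivative and its constant coefficient. -/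
private theorem SM_uniq {M F G : PowerSeries ℂ} (hM : PowerSeries.constantCoeff M = 0)
    (hF : PowerSeries.X * PowerSeries.derivative ℂ F = M * F)
    (hG : PowerSeries.X * PowerSeries.derivative ℂ G = M * G)
    (h0 : PowerSeries.constantCoeff F = PowerSeries.constantCoeff G) : F = G := by
  have h1 : ∀ H : PowerSeries ℂ, PowerSeries.X * PowerSeries.derivative ℂ H = M * H → ∀ n : ℕ,
      (n : ℂ) * PowerSeries.coeff n H = ∑ p ∈ Finset.HasAntidiagonal.antidiagonal n,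
        PowerSeries.coeff p.1 M * PowerSeries.coeff p.2 H := by
    intro H hH n
    rw [← R2.LogDer_coeff_X_derivative, hH, PowerSeries.coeff_mul]
  ext n
  induction n using Nat.strong_induction_on with
  | _ n ih =>
    rcases Nat.eq_zero_or_pos n with hn | hn
    · subst hn
      rw [PowerSeries.coeff_zero_eq_constantCoeff_apply, PowerSeries.coeff_zero_eq_constantCoeff_apply, h0]
    · have hn0 : (n : ℂ) ≠ 0 := by exact_mod_cast hn.ne'
      apply mul_left_cancel₀ hn0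
      rw [h1 F hF, h1 G hG]
      refine Finset.sum_congr rfl fun p hp => ?_
      rw [Finset.HasAntidiagonal.mem_antidiagonal] at hp
      rcases Nat.eq_zero_or_pos p.1 with h2 | h2
      · rw [h2, PowerSeries.coeff_zero_eq_constantCoeff_apply, hM, zero_mul, zero_mul]
      · rw [ih p.2 (by omega)]

/-- A series with coefficients which agree from the third one on. -/
private theorem SM_log {M M₀ : PowerSeries ℂ} (h : ∀ k, k ≠ 2 → PowerSeries.coeff k M = PowerSeries.coeff k M₀) :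
    ∃ c : ℂ, M = 2 * PowerSeries.X ^ 2 * PowerSeries.C c + M₀ := by
  refine ⟨(PowerSeries.coeff 2 M - PowerSeries.coeff 2 M₀) / 2, ?_⟩
  have h6 : ∀ c : ℂ, (2 * PowerSeries.X ^ 2 * PowerSeries.C c : PowerSeries ℂ) =
      PowerSeries.C (2 * c) * PowerSeries.X ^ 2 := by
    intro c
    rw [map_mul, map_ofNat]
    ring
  rw [h6]
  ext k
  rw [map_add, PowerSeries.coeff_C_mul, PowerSeries.coeff_X_pow]
  by_cases hk : k = 2
  · subst hk
    rw [if_pos rfl]
    ring
  · rw [if_neg hk, mul_zero, zero_add, h k hk]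

/-- The series at the two points. -/
private theorem SM_rel {Γ M : PowerSeries (P r)} {γ : ℂ} (h0 : PowerSeries.constantCoeff Γ = MvPolynomial.C γ)
    (hM : IsLogDer Γ M) (hM0 : PowerSeries.constantCoeff M = 0) {z z₀ : Fin r → ℂ}
    (h : ∀ k, k ≠ 2 → MvPolynomial.eval z (PowerSeries.coeff k M) =
      MvPolynomial.eval z₀ (PowerSeries.coeff k M)) :
    ∃ c : ℂ, PowerSeries.map (MvPolynomial.eval z) Γ =
      R2.E2 c * PowerSeries.map (MvPolynomial.eval z₀) Γ := by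
  have hcc : ∀ x : Fin r → ℂ,
      PowerSeries.constantCoeff (PowerSeries.map (MvPolynomial.eval x) Γ) = γ := by
    intro x
    rw [← PowerSeries.coeff_zero_eq_constantCoeff_apply, PowerSeries.coeff_map,
      PowerSeries.coeff_zero_eq_constantCoeff_apply, h0]
    exact MvPolynomial.eval_C γ
  obtain ⟨c, hc⟩ := SM_log (M := PowerSeries.map (MvPolynomial.eval z) M)
    (M₀ := PowerSeries.map (MvPolynomial.eval z₀) M) fun k hk => by
      rw [PowerSeries.coeff_map, PowerSeries.coeff_map, h k hk]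
  refine ⟨c, SM_uniq (M := PowerSeries.map (MvPolynomial.eval z) M) ?_ (R2.LogDer_map _ hM) ?_ ?_⟩
  · rw [← PowerSeries.coeff_zero_eq_constantCoeff_apply, PowerSeries.coeff_map,
      PowerSeries.coeff_zero_eq_constantCoeff_apply, hM0, map_zero]
  · have h1 := R2.LogDer_mul_E2 (R2.LogDer_map (MvPolynomial.eval z₀) hM) c
    rw [← hc] at h1
    exact h1
  · rw [map_mul, R2.LogDer_const_E2, one_mul, hcc, hcc]

/-- Multiplication by a function which is `1` up to every order. -/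
private theorem SM_perturb {f E : ℝ → ℂ} {c : PowerSeries ℂ} (h : R2.Asy f c)
    (hE : ∀ N : ℕ, E =O[𝓝[>] 0] fun t : ℝ => t ^ N) : R2.Asy (fun t => f t * (1 + E t)) c := by
  intro N
  have h1 : (fun t : ℝ => f t) =O[𝓝[>] 0] fun _ : ℝ => (1 : ℝ) := h.tendsto.isBigO_one ℝ
  have h2 := h1.mul (hE N)
  have h3 : (fun t : ℝ => (1 : ℝ) * t ^ N) = fun t : ℝ => t ^ N := by
    funext t
    ring
  rw [h3] at h2
  exact ((h N).add h2).congr_left fun t => by ring

private theorem SM_tendsto {E : ℝ → ℂ} (hE : ∀ N : ℕ, E =O[𝓝[>] 0] fun t : ℝ => t ^ N) :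
    Tendsto E (𝓝[>] 0) (𝓝 0) := by
  have h2 : Tendsto (fun t : ℝ => t ^ 1) (𝓝[>] 0) (𝓝 0) := by
    have h4 : Continuous fun t : ℝ => t ^ 1 := by fun_prop
    have h5 := (h4.tendsto 0).mono_left (nhdsWithin_le_nhds (s := Set.Ioi (0 : ℝ)))
    simpa using h5
  exact (hE 1).trans_tendsto h2

/-- Two functions with expansions, whose quotient is elementary up to every order. -/
private theorem SM_compare {f f₀ E : ℝ → ℂ} {p p₀ : PowerSeries ℂ} (hf : R2.Asy f p)
    (hf₀ : R2.Asy f₀ p₀)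
    (h0 : PowerSeries.constantCoeff p = PowerSeries.constantCoeff p₀)
    (hne : PowerSeries.constantCoeff p ≠ 0) {K : ℂ} {c μ : ℝ}
    (hE : ∀ N : ℕ, E =O[𝓝[>] 0] fun t : ℝ => t ^ N)
    (hrel : ∀ᶠ t in 𝓝[>] (0 : ℝ),
      f t = f₀ t * (K * Real.exp (c * t ^ 2 + μ / t ^ 2) * (1 + E t))) :
    p = R2.E2 (c : ℂ) * p₀ := by
  have hE0 : Tendsto E (𝓝[>] 0) (𝓝 0) := SM_tendsto hE
  have hft := hf.tendsto
  have hf₀t := hf₀.tendsto
  rw [← h0] at hf₀t
  have hratio : Tendsto (fun t => f t / f₀ t) (𝓝[>] 0) (𝓝 1) := by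
    have := hft.div hf₀t hne
    rwa [div_self hne] at this
  have hf₀ne : ∀ᶠ t in 𝓝[>] (0 : ℝ), f₀ t ≠ 0 := hf₀t.eventually_ne hne
  -- the factor `exp (c t²) (1 + E)`
  have hct : Tendsto (fun t : ℝ => ((Real.exp (c * t ^ 2) : ℝ) : ℂ)) (𝓝[>] 0) (𝓝 1) := by
    have h1 : Continuous (fun t : ℝ => ((Real.exp (c * t ^ 2) : ℝ) : ℂ)) := by fun_prop
    have h2 := (h1.tendsto 0).mono_left (nhdsWithin_le_nhds (s := Set.Ioi (0 : ℝ)))
    simpa using h2
  have h1E : Tendsto (fun t => 1 + E t) (𝓝[>] 0) (𝓝 1) := by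
    simpa using (tendsto_const_nhds (x := (1 : ℂ))).add hE0
  have hD : Tendsto (fun t : ℝ => ((Real.exp (c * t ^ 2) : ℝ) : ℂ) * (1 + E t)) (𝓝[>] 0)
      (𝓝 1) := by
    simpa using hct.mul h1E
  have hKμ : Tendsto (fun t : ℝ => K * ((Real.exp (μ / t ^ 2) : ℝ) : ℂ)) (𝓝[>] 0) (𝓝 1) := by
    have h1 := hratio.div hD one_ne_zero
    rw [div_one] at h1
    refine h1.congr' ?_
    filter_upwards [hrel, hf₀ne, h1E.eventually_ne one_ne_zero] with t ht1 ht2 ht3
    show f t / f₀ t / (((Real.exp (c * t ^ 2) : ℝ) : ℂ) * (1 + E t)) = _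
    rw [ht1, Real.exp_add]
    have h4 : ((Real.exp (c * t ^ 2) : ℝ) : ℂ) ≠ 0 := by
      exact_mod_cast (Real.exp_pos _).ne'
    push_cast at h4 ⊢
    field_simp
  have hμ : μ = 0 := by
    rcases lt_trichotomy μ 0 with h | h | h
    · exfalso
      have h1 := (R2.Compare_lim' h).const_mul K
      rw [mul_zero] at h1
      exact one_ne_zero (tendsto_nhds_unique hKμ h1)
    · exact h
    · exfalso
      have h1 := R2.Compare_lim' (μ := -μ) (by linarith)
      have h2 := hKμ.mul h1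
      rw [mul_zero] at h2
      have h3 : Tendsto (fun _ : ℝ => K) (𝓝[>] (0 : ℝ)) (𝓝 0) := by
        refine h2.congr (fun t => ?_)
        rw [mul_assoc, ← Complex.ofReal_mul, ← Real.exp_add]
        have : μ / t ^ 2 + -μ / t ^ 2 = 0 := by ring
        rw [this, Real.exp_zero, Complex.ofReal_one, mul_one]
      have h4 : K = 0 := tendsto_nhds_unique tendsto_const_nhds h3
      rw [h4] at hKμ
      simp only [zero_mul] at hKμ
      exact zero_ne_one (tendsto_nhds_unique tendsto_const_nhds hKμ)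
  have hK : K = 1 := by
    rw [hμ] at hKμ
    simp only [zero_div, Real.exp_zero, Complex.ofReal_one, mul_one] at hKμ
    exact tendsto_nhds_unique tendsto_const_nhds hKμ
  have h5 : R2.Asy (fun t => Complex.exp ((c : ℂ) * t ^ 2) * f₀ t * (1 + E t)) (R2.E2 (c : ℂ) * p₀) :=
    SM_perturb ((R2.Asy.exp_sq (c : ℂ)).mul hf₀) hE
  have h6 : R2.Asy f (R2.E2 (c : ℂ) * p₀) := by
    refine h5.congr' ?_
    filter_upwards [hrel] with t ht
    rw [ht, hμ, hK, zero_div, add_zero]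
    push_cast
    ring
  exact hf.unique h6

/-- The quotient of two functions with the same expansion up to `exp (c t²)`. -/
private theorem SM_cmp {f f₀ : ℝ → ℂ} {p₀ : PowerSeries ℂ} {c : ℂ} (hf : R2.Asy f (R2.E2 c * p₀))
    (hf₀ : R2.Asy f₀ p₀) (hne : PowerSeries.constantCoeff p₀ ≠ 0) (N : ℕ) :
    (fun t : ℝ => f t / (Complex.exp (c * t ^ 2) * f₀ t) - 1) =O[𝓝[>] 0] fun t : ℝ => t ^ N := by
  have h1 : R2.Asy (fun t => Complex.exp (c * t ^ 2) * f₀ t) (R2.E2 c * p₀) :=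
    (R2.Asy.exp_sq c).mul hf₀
  have h3 : (fun t : ℝ => f t - Complex.exp (c * t ^ 2) * f₀ t) =O[𝓝[>] 0] fun t : ℝ => t ^ N :=
    ((hf N).sub (h1 N)).congr_left fun t => by ring
  have h4 : Tendsto (fun t : ℝ => Complex.exp (c * t ^ 2) * f₀ t) (𝓝[>] 0)
      (𝓝 (PowerSeries.constantCoeff p₀)) := by
    have h := h1.tendsto
    rwa [map_mul, R2.LogDer_const_E2, one_mul] at h
  have h5 : (fun t : ℝ => (Complex.exp (c * t ^ 2) * f₀ t)⁻¹) =O[𝓝[>] 0] fun _ : ℝ => (1 : ℝ) :=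
    (h4.inv₀ hne).isBigO_one ℝ
  have h6 := h3.mul h5
  have h7 : (fun t : ℝ => t ^ N * (1 : ℝ)) = fun t : ℝ => t ^ N := by
    funext t
    rw [mul_one]
  rw [h7] at h6
  refine h6.congr' ?_ (Filter.Eventually.of_forall fun _ => rfl)
  filter_upwards [h4.eventually_ne hne] with t ht
  rw [sub_mul, mul_inv_cancel₀ ht]
  congr 1

/-- The Nahm sum at a real vector is nonnegative. -/
private theorem SM_nonneg (A : Matrix (Fin r) (Fin r) ℝ) (x : Fin r → ℝ) (t : ℝ) : 0 ≤ F A x t := by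
  refine tsum_nonneg fun n => ?_
  unfold Fterm
  refine div_nonneg (Real.exp_pos _).le (Finset.prod_nonneg fun i _ => ?_)
  unfold R2.rp
  refine Finset.prod_nonneg fun j _ => ?_
  rw [sub_nonneg]
  exact pow_le_one₀ (Real.exp_pos _).le (Real.exp_le_one_iff.2 (neg_nonpos.2 (sq_nonneg t)))

private theorem SM_nahm (A : Matrix (Fin r) (Fin r) ℝ) (x : Fin r → ℝ) {ε : ℝ} (hε : 0 ≤ ε) :
    nahmReal A x ε = F A x (√ε) := by
  unfold nahmReal F Fterm nex R2.rp
  rw [Real.sq_sqrt hε]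
  refine tsum_congr fun n => ?_
  congr 1
  refine Finset.prod_congr rfl fun i _ => Finset.prod_congr rfl fun j _ => ?_
  rw [← Real.exp_nat_mul]
  congr 2
  push_cast
  ring

/-- The Nahm sum at `q = exp (-t²)` is `exp (ν / t² + κ + d t²)` up to every order. -/
private def AM (A : Matrix (Fin r) (Fin r) ℝ) (x : Fin r → ℝ) (ν κ d : ℝ) : Prop := ∀ N : ℕ,
  (fun t : ℝ => F A x t * Real.exp (-(ν / t ^ 2 + κ + d * t ^ 2)) - 1) =O[𝓝[>] 0]
    fun t : ℝ => t ^ N

private theorem SM_asy {A : Matrix (Fin r) (Fin r) ℝ} {x : Fin r → ℝ} {ν κ d : ℝ}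
    (h : AM A x ν κ d) : AsyModular A x := by
  refine ⟨ν, κ, d, fun K => ?_⟩
  have h1 : Tendsto (fun ε : ℝ => √ε) (𝓝[>] 0) (𝓝[>] 0) := by
    refine tendsto_nhdsWithin_iff.2 ⟨?_, ?_⟩
    · have h2 := (Real.continuous_sqrt.tendsto 0).mono_left
        (nhdsWithin_le_nhds (s := Set.Ioi (0 : ℝ)))
      rwa [Real.sqrt_zero] at h2
    · filter_upwards [self_mem_nhdsWithin] with t ht
      exact Real.sqrt_pos.2 ht
  have h2 := (h (2 * K)).comp_tendsto h1
  refine h2.congr' ?_ ?_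
  · filter_upwards [self_mem_nhdsWithin] with ε hε
    have hε' : (0 : ℝ) ≤ ε := le_of_lt hε
    show F A x (√ε) * Real.exp (-(ν / (√ε) ^ 2 + κ + d * (√ε) ^ 2)) - 1 = _
    rw [SM_nahm A x hε', Real.sq_sqrt hε']
  · filter_upwards [self_mem_nhdsWithin] with ε hε
    have hε' : (0 : ℝ) ≤ ε := le_of_lt hε
    show (√ε) ^ (2 * K) = ε ^ K
    rw [pow_mul, Real.sq_sqrt hε']

private theorem SM_am {A : Matrix (Fin r) (Fin r) ℝ} {x : Fin r → ℝ} (h : AsyModular A x) :
    ∃ ν κ d : ℝ, AM A x ν κ d := by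
  obtain ⟨ν, κ, d, h⟩ := h
  refine ⟨ν, κ, d, fun N => ?_⟩
  have h1 : Tendsto (fun t : ℝ => t ^ 2) (𝓝[>] 0) (𝓝[>] 0) := by
    refine tendsto_nhdsWithin_iff.2 ⟨?_, ?_⟩
    · have h4 : Continuous fun t : ℝ => t ^ 2 := by fun_prop
      have h5 := (h4.tendsto 0).mono_left (nhdsWithin_le_nhds (s := Set.Ioi (0 : ℝ)))
      rwa [zero_pow two_ne_zero] at h5
    · filter_upwards [self_mem_nhdsWithin] with t ht
      exact pow_pos (Set.mem_Ioi.1 ht) 2
  have h2 := (h N).comp_tendsto h1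
  have h3 : (fun t : ℝ => t ^ (2 * N)) =O[𝓝[>] 0] fun t : ℝ => t ^ N :=
    R2.asycalc_pow (by omega)
  refine (h2.congr' ?_ ?_).trans h3
  · filter_upwards [self_mem_nhdsWithin] with t ht
    have ht' : (0 : ℝ) ≤ t := le_of_lt ht
    show nahmReal A x (t ^ 2) * Real.exp (-(ν / t ^ 2 + κ + d * t ^ 2)) - 1 = _
    rw [SM_nahm A x (sq_nonneg t), Real.sqrt_sq ht']
  · exact Filter.Eventually.of_forall fun t => (pow_mul t 2 N).symm

/-- The value at a vector with the same series up to `exp (c t²)`. -/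
private theorem SM_shift {A : Matrix (Fin r) (Fin r) ℝ} {L : Matrix (Fin r) (Fin r) ℝ}
    {Q : Fin r → ℝ} {x y : Fin r → ℝ} {p₀ : PowerSeries ℂ} {c : ℂ}
    (hf : R2.Asy (fun t => (FN A L Q x t : ℂ)) (R2.E2 c * p₀))
    (hf₀ : R2.Asy (fun t => (FN A L Q y t : ℂ)) p₀)
    (hne : PowerSeries.constantCoeff p₀ ≠ 0) {ν κ d : ℝ} (hy : AM A y ν κ d) :
    AM A x ν (κ + (∑ i, x i * Real.log (Q i)) - ∑ i, y i * Real.log (Q i)) (c.re + d) := by
  intro N
  have h1 := SM_cmp hf hf₀ hne N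
  have h2 : (fun t : ℝ => ‖(FN A L Q x t : ℂ) / (Complex.exp (c * t ^ 2) * (FN A L Q y t : ℂ))‖ - 1)
      =O[𝓝[>] 0] fun t : ℝ => t ^ N := by
    refine Asymptotics.IsBigO.trans ?_ h1
    refine Asymptotics.IsBigO.of_bound 1 (Filter.Eventually.of_forall fun t => ?_)
    rw [one_mul, Real.norm_eq_abs]
    have h3 := abs_norm_sub_norm_le
      ((FN A L Q x t : ℂ) / (Complex.exp (c * t ^ 2) * (FN A L Q y t : ℂ))) 1
    rwa [norm_one] at h3
  -- the product of two functions which are `1` up to order `N`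
  have h8 : (fun t : ℝ => ‖(FN A L Q x t : ℂ) / (Complex.exp (c * t ^ 2) *
      (FN A L Q y t : ℂ))‖ * (F A y t * Real.exp (-(ν / t ^ 2 + κ + d * t ^ 2))) - 1)
      =O[𝓝[>] 0] fun t : ℝ => t ^ N := by
    have h9 : (fun t : ℝ => F A y t * Real.exp (-(ν / t ^ 2 + κ + d * t ^ 2))) =O[𝓝[>] 0]
        fun _ : ℝ => (1 : ℝ) := by
      have h10 := hy 0
      simp only [pow_zero] at h10
      have h11 : (fun _ : ℝ => (1 : ℝ)) =O[𝓝[>] 0] fun _ : ℝ => (1 : ℝ) :=
        Asymptotics.isBigO_refl _ _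
      exact (h10.add h11).congr_left fun t => by ring
    have h12 := h2.mul h9
    have h7 : (fun t : ℝ => t ^ N * (1 : ℝ)) = fun t : ℝ => t ^ N := by
      funext t
      rw [mul_one]
    rw [h7] at h12
    exact (h12.add (hy N)).congr_left fun t => by ring
  refine h8.congr' ?_ (Filter.Eventually.of_forall fun _ => rfl)
  have hy' : ∀ᶠ t in 𝓝[>] (0 : ℝ), (FN A L Q y t : ℂ) ≠ 0 := hf₀.tendsto.eventually_ne hne
  filter_upwards [hy'] with t ht
  have hFy : F A y t ≠ 0 := by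
    intro h0
    apply ht
    unfold FN
    rw [h0, zero_mul, zero_mul, Complex.ofReal_zero]
  have hFy0 : 0 < F A y t := lt_of_le_of_ne (SM_nonneg A y t) (Ne.symm hFy)
  have hNf : 0 < Nf L Q t := Real.exp_pos _
  have h4 : ‖Complex.exp (c * t ^ 2)‖ = Real.exp (c.re * t ^ 2) := by
    rw [Complex.norm_exp]
    congr 1
    have h5 : ((t : ℂ) ^ 2) = ((t ^ 2 : ℝ) : ℂ) := by push_cast; rfl
    rw [h5, Complex.re_mul_ofReal]
  have h5 : ‖(FN A L Q x t : ℂ)‖ =
      F A x t * Nf L Q t * Real.exp (-∑ i, x i * Real.log (Q i)) := by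
    rw [Complex.norm_real, Real.norm_of_nonneg]
    · rfl
    · exact mul_nonneg (mul_nonneg (SM_nonneg A x t) hNf.le) (Real.exp_pos _).le
  have h6 : ‖(FN A L Q y t : ℂ)‖ =
      F A y t * Nf L Q t * Real.exp (-∑ i, y i * Real.log (Q i)) := by
    rw [Complex.norm_real, Real.norm_of_nonneg]
    · rfl
    · exact mul_nonneg (mul_nonneg (SM_nonneg A y t) hNf.le) (Real.exp_pos _).le
  rw [norm_div, norm_mul, h4, h5, h6]
  have h13 : Real.exp (-(ν / t ^ 2 + (κ + (∑ i, x i * Real.log (Q i)) -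
      ∑ i, y i * Real.log (Q i)) + (c.re + d) * t ^ 2)) =
      Real.exp (-∑ i, x i * Real.log (Q i)) /
        (Real.exp (c.re * t ^ 2) * Real.exp (-∑ i, y i * Real.log (Q i))) *
        Real.exp (-(ν / t ^ 2 + κ + d * t ^ 2)) := by
    rw [← Real.exp_add, ← Real.exp_sub, ← Real.exp_add]
    congr 1
    ring
  rw [h13]
  have e1 := (Real.exp_pos (c.re * t ^ 2)).ne'
  have e2 := (Real.exp_pos (-∑ i, y i * Real.log (Q i))).ne'
  generalize Real.exp (c.re * t ^ 2) = a1 at *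
  generalize Real.exp (-∑ i, y i * Real.log (Q i)) = a2 at *
  generalize Real.exp (-∑ i, x i * Real.log (Q i)) = a4 at *
  generalize Real.exp (-(ν / t ^ 2 + κ + d * t ^ 2)) = a5 at *
  have e3 := hNf.ne'
  field_simp

/-- The series at two asymptotically modular vectors. -/
private theorem SM_both {A : Matrix (Fin r) (Fin r) ℝ} {L : Matrix (Fin r) (Fin r) ℝ}
    {Q : Fin r → ℝ} {x y : Fin r → ℝ} {p p₀ : PowerSeries ℂ}
    (hf : R2.Asy (fun t => (FN A L Q x t : ℂ)) p)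
    (hf₀ : R2.Asy (fun t => (FN A L Q y t : ℂ)) p₀)
    (h0 : PowerSeries.constantCoeff p = PowerSeries.constantCoeff p₀)
    (hne : PowerSeries.constantCoeff p ≠ 0) {ν κ d ν₀ κ₀ d₀ : ℝ} (hx : AM A x ν κ d)
    (hy : AM A y ν₀ κ₀ d₀) : ∃ c : ℂ, p = R2.E2 c * p₀ := by
  have hy1 : Tendsto (fun t : ℝ => F A y t * Real.exp (-(ν₀ / t ^ 2 + κ₀ + d₀ * t ^ 2)))
      (𝓝[>] 0) (𝓝 1) := by
    have h2 : Tendsto (fun t : ℝ => t ^ 1) (𝓝[>] 0) (𝓝 0) := by
      have h4 : Continuous fun t : ℝ => t ^ 1 := by fun_prop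
      have h5 := (h4.tendsto 0).mono_left (nhdsWithin_le_nhds (s := Set.Ioi (0 : ℝ)))
      simpa using h5
    have h3 := ((hy 1).trans_tendsto h2).add_const 1
    rw [zero_add] at h3
    exact h3.congr fun t => by ring
  have hE : ∀ N : ℕ, (fun t : ℝ => (((F A x t * Real.exp (-(ν / t ^ 2 + κ + d * t ^ 2))) /
      (F A y t * Real.exp (-(ν₀ / t ^ 2 + κ₀ + d₀ * t ^ 2))) - 1 : ℝ) : ℂ)) =O[𝓝[>] 0]
      fun t : ℝ => t ^ N := by
    intro N
    have h5 : (fun t : ℝ => (F A y t * Real.exp (-(ν₀ / t ^ 2 + κ₀ + d₀ * t ^ 2)))⁻¹) =O[𝓝[>] 0]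
        fun _ : ℝ => (1 : ℝ) := (hy1.inv₀ one_ne_zero).isBigO_one ℝ
    have h6 := ((hx N).sub (hy N)).mul h5
    have h7 : (fun t : ℝ => t ^ N * (1 : ℝ)) = fun t : ℝ => t ^ N := by
      funext t
      rw [mul_one]
    rw [h7] at h6
    refine Asymptotics.IsBigO.trans (Asymptotics.IsBigO.of_bound 1 ?_) h6
    filter_upwards [hy1.eventually_ne one_ne_zero] with t ht
    rw [Complex.norm_real, one_mul]
    refine le_of_eq (congrArg norm ?_)
    rw [div_sub_one ht, div_eq_mul_inv]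
    congr 1
    ring
  refine ⟨((d - d₀ : ℝ) : ℂ), SM_compare hf hf₀ h0 hne
    (K := ((Real.exp (κ - κ₀ - (∑ i, x i * Real.log (Q i)) + ∑ i, y i * Real.log (Q i)) : ℝ) : ℂ))
    (c := d - d₀) (μ := ν - ν₀) hE ?_⟩
  filter_upwards [hy1.eventually_ne one_ne_zero] with t ht
  have hNf : Nf L Q t ≠ 0 := (Real.exp_pos _).ne'
  have h1 : FN A L Q x t = FN A L Q y t * (Real.exp (κ - κ₀ - (∑ i, x i * Real.log (Q i)) +
      ∑ i, y i * Real.log (Q i)) * Real.exp ((d - d₀) * t ^ 2 + (ν - ν₀) / t ^ 2) *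
      (1 + ((F A x t * Real.exp (-(ν / t ^ 2 + κ + d * t ^ 2))) /
      (F A y t * Real.exp (-(ν₀ / t ^ 2 + κ₀ + d₀ * t ^ 2))) - 1))) := by
    have hFy : F A y t ≠ 0 := left_ne_zero_of_mul ht
    unfold FN
    rw [add_sub_cancel, mul_div_mul_comm, ← Real.exp_sub]
    have h2 : Real.exp (-∑ i, x i * Real.log (Q i)) =
        Real.exp (-∑ i, y i * Real.log (Q i)) *
        (Real.exp (κ - κ₀ - (∑ i, x i * Real.log (Q i)) + ∑ i, y i * Real.log (Q i)) *
        Real.exp ((d - d₀) * t ^ 2 + (ν - ν₀) / t ^ 2) *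
        Real.exp (-(ν / t ^ 2 + κ + d * t ^ 2) - -(ν₀ / t ^ 2 + κ₀ + d₀ * t ^ 2))) := by
      rw [← Real.exp_add, ← Real.exp_add, ← Real.exp_add]
      congr 1
      ring
    rw [h2]
    field_simp
  show ((FN A L Q x t : ℝ) : ℂ) = _
  rw [h1]
  push_cast
  ring

/-- Admissible vectors are asymptotically modular. -/
theorem asyModular_of_admissible {A : Matrix (Fin r) (Fin r) ℚ} (hA : A.PosDef) {B : Fin r → ℚ}
    (hB : Admissible A B) : AsyModular (A.map fun x : ℚ => (x : ℝ)) fun i => (B i : ℝ) := by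
  obtain ⟨C, hC⟩ := hB
  obtain ⟨K, ν, δ, E, hK, hδ, hE, hF⟩ := relation_one hA hC
  have hK0 : 0 < ‖K‖ := norm_pos_iff.2 hK
  refine SM_asy (ν := ν) (κ := Real.log ‖K‖) (d := (C : ℝ)) fun N => ?_
  have h1 : E =O[𝓝[>] 0] fun t : ℝ => t ^ N := hE.trans (R2.asycalc_exp hδ N)
  refine Asymptotics.IsBigO.trans (Asymptotics.IsBigO.of_bound 1
    (Filter.Eventually.of_forall fun t => ?_)) h1
  rw [one_mul]
  have h2 : F (A.map fun x : ℚ => (x : ℝ)) (fun i => (B i : ℝ)) t =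
      ‖K‖ * Real.exp (C * t ^ 2 + ν / t ^ 2) * ‖1 + E t‖ := by
    have h4 := congrArg norm (hF t)
    rw [Complex.norm_real, norm_mul, norm_mul, Complex.norm_real,
      Real.norm_of_nonneg (SM_nonneg _ _ t), Real.norm_of_nonneg (Real.exp_pos _).le] at h4
    exact h4
  have h3 : F (A.map fun x : ℚ => (x : ℝ)) (fun i => (B i : ℝ)) t *
      Real.exp (-(ν / t ^ 2 + Real.log ‖K‖ + C * t ^ 2)) = ‖1 + E t‖ := by
    rw [h2]
    nth_rewrite 1 [← Real.exp_log hK0]
    rw [← Real.exp_add, mul_comm (Real.exp _) ‖1 + E t‖, mul_assoc, ← Real.exp_add]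
    have h5 : Real.log ‖K‖ + (C * t ^ 2 + ν / t ^ 2) +
        -(ν / t ^ 2 + Real.log ‖K‖ + C * t ^ 2) = 0 := by ring
    rw [h5, Real.exp_zero, mul_one]
  rw [h3, Real.norm_eq_abs]
  have h6 := abs_norm_sub_norm_le (1 + E t) 1
  rwa [norm_one, add_sub_cancel_left] at h6

/-- The formal data, and the coefficients at asymptotically modular vectors. -/
theorem exists_formal3 (A : Matrix (Fin r) (Fin r) ℚ) (hA : A.PosDef) {Q : Fin r → ℝ}
    (hQ : NahmSol (A.map fun x : ℚ => (x : ℝ)) Q) :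
    ∃ (D : ℕ → P r) (R S : Fin r → PowerSeries (P r)),
      FD (A.map fun x : ℚ => (x : ℂ)) (fun i => (Q i : ℂ)) D R S ∧
      ∀ x y : Fin r → ℝ, AsyModular (A.map fun x : ℚ => (x : ℝ)) x →
        (AsyModular (A.map fun x : ℚ => (x : ℝ)) y ↔
          ∀ k, 2 ≤ k → MvPolynomial.eval (fun i => (y i : ℂ)) (D k) =
            MvPolynomial.eval (fun i => (x i : ℂ)) (D k)) := by
  have hpd := posDef_real hA
  obtain ⟨L, hL, hdet⟩ := exists_L hpd
  obtain ⟨Γ, γ, hγ, h0, hΓ⟩ := exists_Gam hL hdet hQ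
  have hFE := isFE_of_asy hpd hQ hΓ
  obtain ⟨M, R, S, hM, hTD⟩ := exists_TD hγ h0 hFE
  have hnd := nondeg hpd hQ.inUnit
  obtain ⟨D, R', S', hFD, hDL⟩ := exists_FD hnd hTD
  have hAm : Am (A.map fun x : ℚ => (x : ℝ)) = A.map fun x : ℚ => (x : ℂ) := by
    ext i j
    simp [Am, Matrix.map_apply]
  rw [hAm] at hFD
  have h2 : ∀ (k : ℕ) (z : Fin r → ℂ), MvPolynomial.eval z (2 * (k : P r) * D k) =
      2 * (k : ℂ) * MvPolynomial.eval z (D k) := by
    intro k z
    rw [map_mul, map_mul, map_natCast]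
    congr 2
    exact map_ofNat (MvPolynomial.eval z) 2
  have hcc : ∀ x : Fin r → ℂ,
      PowerSeries.constantCoeff (PowerSeries.map (MvPolynomial.eval x) Γ) = γ := by
    intro x
    rw [← PowerSeries.coeff_zero_eq_constantCoeff_apply, PowerSeries.coeff_map,
      PowerSeries.coeff_zero_eq_constantCoeff_apply, h0]
    exact MvPolynomial.eval_C γ
  have hf : ∀ x : Fin r → ℝ,
      R2.Asy (fun t => (FN (A.map fun x : ℚ => (x : ℝ)) L Q x t : ℂ))
        (PowerSeries.map (MvPolynomial.eval fun i => (x i : ℂ)) Γ) := fun x => hΓ x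
  refine ⟨D, R', S', hFD, fun x y hx => ⟨fun hy k hk => ?_, fun hD => ?_⟩⟩
  · obtain ⟨ν, κ, d, hx⟩ := SM_am hx
    obtain ⟨ν', κ', d', hy⟩ := SM_am hy
    obtain ⟨c, hc⟩ := SM_both (hf y) (hf x) (by rw [hcc, hcc]) (by rw [hcc]; exact hγ) hy hx
    have h1 := logDer_eval hγ h0 hM hc (k := 2 * k) (by omega)
    rw [← hDL k (by omega), h2, h2] at h1
    have h3 : (2 * (k : ℂ)) ≠ 0 := by
      have : (k : ℂ) ≠ 0 := by exact_mod_cast (by omega : k ≠ 0)
      simp [this]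
    exact mul_left_cancel₀ h3 h1
  · obtain ⟨c, hc⟩ := SM_rel h0 hM hTD.L0 (z := fun i => (y i : ℂ)) (z₀ := fun i => (x i : ℂ)) (by
      intro k hk
      rcases Nat.even_or_odd k with he | ho
      · obtain ⟨m, rfl⟩ := he
        rcases Nat.eq_zero_or_pos m with hm | hm
        · subst hm
          rw [add_zero, PowerSeries.coeff_zero_eq_constantCoeff_apply, hTD.L0, map_zero, map_zero]
        · rw [← two_mul, ← hDL m hm, h2, h2, hD m (by omega)]
      · have h3 := ((TD_degrees hnd hTD k).1 ho).1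
        rw [MvPolynomial.totalDegree_eq_zero_iff_eq_C] at h3
        rw [h3, MvPolynomial.eval_C, MvPolynomial.eval_C])
    obtain ⟨ν, κ, d, hx⟩ := SM_am hx
    have hfy := hf y
    rw [hc] at hfy
    exact SM_asy (SM_shift hfy (hf x) (by rw [hcc]; exact hγ) hx)

end Pool.Agent.Lib.MP_8ce23f_nt.RR
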