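import Pool.Agent.Lib.MP_8ce23f_nt.RR.Reg

/-!
# Finitely many equations are enough, uniformly

Leaf SU of the table `srl`.  Like `exists_K0` of `RR/Noeth.lean`.

`hD` gives `e_k`, `F_k : UP r` with `C (det^e_k) * (D i k - const) = spec (ϖ i) F_k`.  In `MvPolynomial (Fin r ⊕ Fin r) (PP r)` (Noetherian) let
`G_k = rename inl F_k - rename inr F_k`.  The ideal of all `G_k`, `k ≥ 2`, is generated by those with `k ≤ K`
(`Ideal` of a Noetherian ring: the chain of the ideals generated by `G_2, …, G_n` stabilises).  At `ϖ i`, `y`, `y₀`: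
the value of `G_k` is `det^e_k * (D i k (y) - D i k (y₀))`, and `det ≠ 0`.
-/

namespace Pool.Agent.Lib.MP_8ce23f_nt.RR

variable {r : ℕ}

/-- evaluation of the parameters and of the two groups of variables -/
private noncomputable def SU_ev (ϖ : Par r) (y z : Fin r → ℂ) :
    MvPolynomial (Fin r ⊕ Fin r) (PP r) →+* ℂ :=
  MvPolynomial.eval₂Hom (MvPolynomial.eval ϖ) (Sum.elim y z)

private theorem SU_ev_inl (ϖ : Par r) (y z : Fin r → ℂ) (F : UP r) :
    SU_ev ϖ y z (MvPolynomial.rename Sum.inl F) = MvPolynomial.eval y (spec ϖ F) := by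
  unfold spec SU_ev
  rw [MvPolynomial.eval_map, MvPolynomial.coe_eval₂Hom, MvPolynomial.eval₂_rename]
  rfl

private theorem SU_ev_inr (ϖ : Par r) (y z : Fin r → ℂ) (F : UP r) :
    SU_ev ϖ y z (MvPolynomial.rename Sum.inr F) = MvPolynomial.eval z (spec ϖ F) := by
  unfold spec SU_ev
  rw [MvPolynomial.eval_map, MvPolynomial.coe_eval₂Hom, MvPolynomial.eval₂_rename]
  rfl

theorem exists_deg_unif {ι : Type*} {ϖ : ι → Par r} {D : ι → ℕ → P r}
    (hnd : ∀ i, MvPolynomial.eval (ϖ i) detP ≠ 0)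
    (hD : ∀ k, 2 ≤ k → Reg ϖ (fun i => D i k - MvPolynomial.C (MvPolynomial.coeff 0 (D i k)))) :
    ∃ K : ℕ, ∀ i (y y₀ : Fin r → ℂ),
      (∀ k, 2 ≤ k → k ≤ K → MvPolynomial.eval y (D i k) = MvPolynomial.eval y₀ (D i k)) →
      ∀ k, 2 ≤ k → MvPolynomial.eval y (D i k) = MvPolynomial.eval y₀ (D i k) := by
  have hD' : ∀ n : ℕ, Reg ϖ (fun i => D i (n + 2) -
      MvPolynomial.C (MvPolynomial.coeff 0 (D i (n + 2)))) := fun n => hD (n + 2) (by omega)
  choose e F hF using hD'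
  set G : ℕ → MvPolynomial (Fin r ⊕ Fin r) (PP r) := fun n =>
    MvPolynomial.rename Sum.inl (F n) - MvPolynomial.rename Sum.inr (F n) with hGdef
  have hG : ∀ n i (y z : Fin r → ℂ), SU_ev (ϖ i) y z (G n) =
      MvPolynomial.eval (ϖ i) detP ^ e n *
        (MvPolynomial.eval y (D i (n + 2)) - MvPolynomial.eval z (D i (n + 2))) := by
    intro n i y z
    rw [hGdef]
    simp only [map_sub]
    rw [SU_ev_inl, SU_ev_inr, ← hF n i, map_mul, map_mul, MvPolynomial.eval_C,
      MvPolynomial.eval_C, map_sub, map_sub, MvPolynomial.eval_C, MvPolynomial.eval_C]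
    ring
  let J : ℕ →o Ideal (MvPolynomial (Fin r ⊕ Fin r) (PP r)) :=
    { toFun := fun n => Ideal.span (G '' {m | m ≤ n})
      monotone' := fun a b hab => Ideal.span_mono
        (Set.image_mono (fun m (hm : m ≤ a) => le_trans hm hab)) }
  obtain ⟨N, hN⟩ := monotone_stabilizes_iff_noetherian.2
    (inferInstance : IsNoetherian (MvPolynomial (Fin r ⊕ Fin r) (PP r))
      (MvPolynomial (Fin r ⊕ Fin r) (PP r))) J
  refine ⟨N + 2, fun i y z h k hk => ?_⟩
  obtain ⟨m, rfl⟩ : ∃ m, k = m + 2 := ⟨k - 2, by omega⟩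
  by_cases hm : m ≤ N
  · exact h (m + 2) (by omega) (by omega)
  · have h1 : G m ∈ J m := Ideal.subset_span ⟨m, le_refl m, rfl⟩
    have h2 : J N = J m := hN m (by omega)
    rw [← h2] at h1
    have h3 : J N ≤ RingHom.ker (SU_ev (ϖ i) y z) := by
      refine Ideal.span_le.2 ?_
      rintro _ ⟨a, ha, rfl⟩
      have ha' : a ≤ N := ha
      show SU_ev (ϖ i) y z (G a) = 0
      rw [hG, h (a + 2) (by omega) (by omega), sub_self, mul_zero]
    have h4 : SU_ev (ϖ i) y z (G m) = 0 := h3 h1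
    rw [hG] at h4
    rcases mul_eq_zero.1 h4 with h5 | h5
    · exact absurd h5 (pow_ne_zero _ (hnd i))
    · exact sub_eq_zero.1 h5

end Pool.Agent.Lib.MP_8ce23f_nt.RR
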