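import Pool.Agent.Lib.MP_8ce23f_nt.RR.SF
import Pool.Agent.Lib.MP_8ce23f_nt.RR.SM
import Pool.Agent.Lib.MP_8ce23f_nt.RR.SU
import Pool.Agent.Lib.MP_8ce23f_nt.RR.SC4
import Pool.Agent.Lib.MP_8ce23f_nt.RR.SB1
import Pool.Agent.Lib.MP_8ce23f_nt.RR.RegD
import Pool.Agent.Lib.MP_8ce23f_nt.RR.NahmEx

/-!
# The asymptotically modular vectors form a union of affine subspaces
-/

namespace Pool.Agent.Lib.MP_8ce23f_nt.RR

open MvPolynomial

variable {r : ℕ}

/-- The formal data of a positive definite rational matrix. -/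
structure Dat2 (A : Matrix (Fin r) (Fin r) ℚ) where
  Q : Fin r → ℝ
  D : ℕ → P r
  R : Fin r → PowerSeries (P r)
  S : Fin r → PowerSeries (P r)
  sol : NahmSol (A.map fun x : ℚ => (x : ℝ)) Q
  fd : FD (A.map fun x : ℚ => (x : ℂ)) (fun i => (Q i : ℂ)) D R S
  asy : ∀ x y : Fin r → ℝ, AsyModular (A.map fun x : ℚ => (x : ℝ)) x →
    (AsyModular (A.map fun x : ℚ => (x : ℝ)) y ↔
      ∀ k, 2 ≤ k → eval (fun i => (y i : ℂ)) (D k) = eval (fun i => (x i : ℂ)) (D k))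

theorem exists_dat2 (A : Matrix (Fin r) (Fin r) ℚ) (hA : A.PosDef) : Nonempty (Dat2 A) := by
  obtain ⟨Q, hQ⟩ := exists_nahmSol (posDef_real hA)
  obtain ⟨D, R, S, h1, h2⟩ := exists_formal3 A hA hQ
  exact ⟨⟨Q, D, R, S, hQ, h1, h2⟩⟩

/-- Positive definite matrices. -/
abbrev PM (r : ℕ) : Type := {A : Matrix (Fin r) (Fin r) ℚ // A.PosDef}

/-- A choice of formal data. -/
noncomputable def dat2 (A : PM r) : Dat2 A.1 := (exists_dat2 A.1 A.2).some

/-- The parameters of a matrix. -/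
noncomputable def par2 (A : PM r) : Par r :=
  Sum.elim (fun p => ((A.1 p.1 p.2 : ℚ) : ℂ)) (fun i => ((dat2 A).Q i : ℂ))

theorem nondeg_dat2 (A : PM r) :
    (Jm (A.1.map fun x : ℚ => (x : ℂ)) (fun i => ((dat2 A).Q i : ℂ))).det ≠ 0 := by
  have h := nondeg (posDef_real A.2) (dat2 A).sol.inUnit
  have hm : (Am (A.1.map fun x : ℚ => (x : ℝ))) = A.1.map fun x : ℚ => (x : ℂ) := by
    ext i j
    simp [Am]
  rw [hm] at h
  exact h

theorem nondeg_par2 (A : PM r) : eval (par2 A) detP ≠ 0 := by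
  rw [← nondeg_iff]
  exact nondeg_dat2 A

/-- The polynomials `D k`, with `D 0 = 0`. -/
noncomputable def D2 (A : PM r) (k : ℕ) : P r := if k = 0 then 0 else (dat2 A).D k

theorem ld_D2 (A : PM r) : LD (D2 A) := by
  refine exists_LD (dat2 A).fd (fun i h => ?_) (fun i h => ?_) (nondeg_dat2 A)
  · exact ((dat2 A).sol.pos i).ne' (Complex.ofReal_eq_zero.1 h)
  · exact ((dat2 A).sol.lt i).ne (Complex.ofReal_eq_one.1 h)

theorem D2_eq (A : PM r) {k : ℕ} (hk : 2 ≤ k) : D2 A k = (dat2 A).D k := if_neg (by omega)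

/-- A uniform number of equations. -/
theorem exists_K2 (r : ℕ) : ∃ K : ℕ, ∀ (A : PM r) (y y₀ : Fin r → ℂ),
    (∀ k, 2 ≤ k → k ≤ K → eval y ((dat2 A).D k) = eval y₀ ((dat2 A).D k)) →
    ∀ k, 2 ≤ k → eval y ((dat2 A).D k) = eval y₀ ((dat2 A).D k) := by
  exact exists_deg_unif (ϖ := par2 (r := r)) (D := fun A => (dat2 A).D) nondeg_par2
    fun k hk => reg_D (ϖ := par2 (r := r)) (D := fun A => (dat2 A).D) (R := fun A => (dat2 A).R)
      (S := fun A => (dat2 A).S) (fun A => (dat2 A).fd) k (by omega)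

/-- The level sets of the `D k` are unions of a bounded number of affine subspaces. -/
theorem exists_cover (r : ℕ) : ∃ N : ℕ, ∀ (A : PM r) (y₀ : Fin r → ℂ),
    ∃ T : Finset (AffineSubspace ℂ (Fin r → ℂ)), T.card ≤ N ∧
      {y : Fin r → ℂ | ∀ k, 2 ≤ k → eval y ((dat2 A).D k) = eval y₀ ((dat2 A).D k)} =
        ⋃ M ∈ T, (M : Set (Fin r → ℂ)) := by
  obtain ⟨K, hK⟩ := exists_K2 r
  obtain ⟨N, hN⟩ := comp_bound r (K + 1)
  refine ⟨N, fun A y₀ => ?_⟩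
  set Z : Set (Fin r → ℂ) :=
    {y | ∀ k, 2 ≤ k → eval y ((dat2 A).D k) = eval y₀ ((dat2 A).D k)} with hZ
  set S : Set (P r) :=
    {p | ∃ k, 2 ≤ k ∧ k ≤ K ∧ p = (dat2 A).D k - C (eval y₀ ((dat2 A).D k))} with hS
  have hZS : {y : Fin r → ℂ | ∀ f ∈ S, eval y f = 0} = Z := by
    ext y
    constructor
    · intro hy
      refine hK A y y₀ fun k h2 h3 => ?_
      have h4 := hy _ ⟨k, h2, h3, rfl⟩
      rw [map_sub, eval_C, sub_eq_zero] at h4
      exact h4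
    · rintro hy f ⟨k, h2, -, rfl⟩
      rw [map_sub, eval_C, sub_eq_zero]
      exact hy k h2
  have hdeg : ∀ f ∈ S, f.totalDegree ≤ K + 1 := by
    rintro f ⟨k, h2, h3, rfl⟩
    refine (totalDegree_sub _ _).trans (max_le ?_ ?_)
    · exact ((dat2 A).fd.deg k (by omega)).trans (by omega)
    · rw [totalDegree_C]
      exact Nat.zero_le _
  obtain ⟨T, hT, hTZ⟩ := exists_affine (ld_D2 A) (fun k => eval y₀ ((dat2 A).D k))
  have hTZ' : Z = ⋃ M ∈ T, (M : Set (Fin r → ℂ)) := by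
    rw [← hTZ]
    ext y
    refine forall_congr' fun k => forall_congr' fun hk => ?_
    rw [D2_eq A hk]
  obtain ⟨T', hT', hTZ2⟩ := hN S hdeg ⟨T, hT, by rw [hZS, hTZ']⟩
  exact ⟨T', hT', by rw [← hZS, hTZ2]⟩

/-- The real points of a complex affine subspace. -/
def realPts (M : AffineSubspace ℂ (Fin r → ℂ)) : AffineSubspace ℝ (Fin r → ℝ) where
  carrier := {x : Fin r → ℝ | (fun i => (x i : ℂ)) ∈ M}
  smul_vsub_vadd_mem' := by
    intro c p1 p2 p3 h1 h2 h3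
    have h4 := M.smul_vsub_vadd_mem (c : ℂ) h1 h2 h3
    refine (congrArg (· ∈ M) (funext fun i => ?_)).mp h4
    simp

/-- The asymptotically modular vectors form a union of a bounded number of affine subspaces. -/
theorem asy_locus (r : ℕ) : ∃ N : ℕ, ∀ A : Matrix (Fin r) (Fin r) ℚ, A.PosDef →
    (∃ T : Finset (AffineSubspace ℝ (Fin r → ℝ)), T.card ≤ N ∧
      {x | AsyModular (A.map fun x : ℚ => (x : ℝ)) x} = ⋃ M ∈ T, (M : Set (Fin r → ℝ))) ∧
    ∀ B : Fin r → ℚ, Admissible A B →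
      AsyModular (A.map fun x : ℚ => (x : ℝ)) fun i => (B i : ℝ) := by
  obtain ⟨N, hN⟩ := exists_cover r
  refine ⟨N, fun A hA => ⟨?_, fun B hB => asyModular_of_admissible hA hB⟩⟩
  rcases Set.eq_empty_or_nonempty {x | AsyModular (A.map fun x : ℚ => (x : ℝ)) x} with h0 | ⟨x₀, hx₀⟩
  · refine ⟨∅, by simp, ?_⟩
    rw [h0]
    simp
  · classical
    obtain ⟨T, hT, hTZ⟩ := hN ⟨A, hA⟩ fun i => (x₀ i : ℂ)
    refine ⟨T.image realPts, Finset.card_image_le.trans hT, ?_⟩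
    ext x
    have h1 : x ∈ {x | AsyModular (A.map fun x : ℚ => (x : ℝ)) x} ↔
        (fun i => (x i : ℂ)) ∈ {y : Fin r → ℂ | ∀ k, 2 ≤ k →
          eval y ((dat2 ⟨A, hA⟩).D k) = eval (fun i => (x₀ i : ℂ)) ((dat2 ⟨A, hA⟩).D k)} :=
      (dat2 ⟨A, hA⟩).asy x₀ x hx₀
    rw [h1, hTZ]
    simp only [Set.mem_iUnion, Finset.mem_image, exists_prop]
    constructor
    · rintro ⟨M, hM, hx⟩
      exact ⟨realPts M, ⟨M, hM, rfl⟩, hx⟩
    · rintro ⟨_, ⟨M, hM, rfl⟩, hx⟩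
      exact ⟨M, hM, hx⟩

end Pool.Agent.Lib.MP_8ce23f_nt.RR
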