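import Pool.Agent.Lib.MP_8ce23f_nt.RR.SZ
import Pool.Agent.Lib.MP_8ce23f_nt.RR.DB8
import Pool.Agent.Lib.MP_8ce23f_nt.RR.Symbol

/-!
# The dimension of the affine subspaces

An affine subspace which consists of asymptotically modular vectors has dimension `d` with
`d ≤ c ≤ r - d`, where `c` is the effective central charge.
-/

namespace Pool.Agent.Lib.MP_8ce23f_nt.RR

open MvPolynomial

variable {r : ℕ}

/-- If `p` is constant on `b + n v` for all natural `n` its top form vanishes at `v`. -/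
theorem top_zero {p : P r} {k : ℕ} (hp : p.totalDegree ≤ k + 1) {b v : Fin r → ℂ} {c : ℂ}
    (h : ∀ n : ℕ, eval (fun i => b i + (n : ℂ) * v i) p = c) :
    eval v (homogeneousComponent (k + 1) p) = 0 := by
  set T : Polynomial ℂ := ∑ i ∈ Finset.range (k + 2),
    Polynomial.C (eval b ((lin v p).coeff i)) * Polynomial.X ^ i with hT
  have h1 : ∀ n : ℕ, (T - Polynomial.C c).eval (n : ℂ) = 0 := by
    intro n
    have h2 := aeval_lin v b (n : ℂ) p (n := k + 2) (by omega)
    have h3 : MvPolynomial.aeval (fun i => b i + (n : ℂ) * algebraMap ℂ ℂ (v i)) p = c := by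
      have h4 := h n
      rw [MvPolynomial.aeval_eq_eval]
      exact h4
    rw [h3] at h2
    rw [Polynomial.eval_sub, Polynomial.eval_C, hT, Polynomial.eval_finsetSum]
    rw [h2, sub_eq_zero]
    refine Finset.sum_congr rfl fun i _ => ?_
    rw [Polynomial.eval_mul, Polynomial.eval_C, Polynomial.eval_pow, Polynomial.eval_X,
      MvPolynomial.aeval_eq_eval]
  have h2 : T - Polynomial.C c = 0 := by
    refine Polynomial.eq_zero_of_infinite_isRoot _ ?_
    refine Set.Infinite.mono (s := Set.range fun n : ℕ => (n : ℂ)) ?_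
      (Set.infinite_range_of_injective Nat.cast_injective)
    rintro _ ⟨n, rfl⟩
    exact h1 n
  have h3 := congrArg (fun q : Polynomial ℂ => q.coeff (k + 1)) h2
  simp only [Polynomial.coeff_sub, Polynomial.coeff_C, Polynomial.coeff_zero] at h3
  rw [if_neg (Nat.succ_ne_zero k), sub_zero, hT, Polynomial.finsetSum_coeff,
    Finset.sum_eq_single (k + 1)] at h3
  · rw [Polynomial.coeff_C_mul, Polynomial.coeff_X_pow_self, mul_one] at h3
    have h4 : (lin v p).coeff (k + 1) =
        MvPolynomial.C (MvPolynomial.coeff 0 ((lin v p).coeff (k + 1))) := by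
      rw [← MvPolynomial.totalDegree_eq_zero_iff_eq_C]
      have h5 := lin_coeff_deg v hp (k + 1)
      omega
    rw [h4, MvPolynomial.eval_C] at h3
    have h6 := lin_hom v p 0 (k + 1)
    rw [zero_add] at h6
    have h7 : MvPolynomial.coeff 0
        ((lin v (homogeneousComponent (k + 1) p)).coeff (k + 1)) = 0 := by
      rw [← h6, MvPolynomial.coeff_homogeneousComponent, map_zero, if_pos rfl, h3]
    have h8 := congrArg (PowerSeries.coeff (k + 1))
      (Pm_zero v (f := PowerSeries.mk fun j => homogeneousComponent j p) (fun j => by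
        rw [PowerSeries.coeff_mk]
        exact homogeneousComponent_isHomogeneous j p))
    rw [Pm, PowerSeries.coeff_mk, PowerSeries.coeff_map, PowerSeries.coeff_mk, map_zero, add_zero,
      PowerSeries.coeff_mk, h7] at h8
    exact h8.symm
  · intro j _ hj
    rw [Polynomial.coeff_C_mul, Polynomial.coeff_X_pow, if_neg (Ne.symm hj), mul_zero]
  · intro hj
    exact absurd (Finset.mem_range.2 (by omega)) hj

/-- The top forms of order at least two vanish on the direction of an affine subspace which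
consists of asymptotically modular vectors. -/
theorem top_zero_of_subset {A : Matrix (Fin r) (Fin r) ℚ} (hA : A.PosDef)
    {M : AffineSubspace ℝ (Fin r → ℝ)}
    (hM : ∀ x ∈ M, AsyModular (A.map fun x : ℚ => (x : ℝ)) x) {v : Fin r → ℝ}
    (hv : v ∈ M.direction) {k : ℕ} (hk : 2 ≤ k) :
    eval (vC v) (V (dat2 ⟨A, hA⟩).D k) = 0 := by
  rcases (M : Set (Fin r → ℝ)).eq_empty_or_nonempty with h0 | ⟨p, hp⟩
  · have h1 : M = ⊥ := AffineSubspace.coe_eq_bot_iff _ |>.1 h0
    rw [h1, AffineSubspace.direction_bot, Submodule.mem_bot] at hv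
    have h2 : vC v = fun i => (0 : ℂ) * vC v i := by
      funext i
      rw [hv]
      simp [vC]
    refine top_zero (b := fun _ => 0) (c := eval (fun _ => (0 : ℂ)) ((dat2 ⟨A, hA⟩).D k))
      ((dat2 ⟨A, hA⟩).fd.deg k (by omega)) fun n => ?_
    have h3 : (fun i => (0 : ℂ) + (n : ℂ) * vC v i) = fun _ : Fin r => (0 : ℂ) := by
      funext i
      rw [hv]
      simp [vC]
    rw [h3]
  · refine top_zero (b := fun i => (p i : ℂ))
      (c := eval (fun i => (p i : ℂ)) ((dat2 ⟨A, hA⟩).D k))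
      ((dat2 ⟨A, hA⟩).fd.deg k (by omega)) fun n => ?_
    have h1 : ((n : ℝ) • v +ᵥ p : Fin r → ℝ) ∈ M :=
      AffineSubspace.vadd_mem_of_mem_direction (Submodule.smul_mem _ _ hv) hp
    have h2 := ((dat2 ⟨A, hA⟩).asy p _ (hM p hp)).1 (hM _ h1) k hk
    have h3 : (fun i => ((((n : ℝ) • v +ᵥ p : Fin r → ℝ) i : ℝ) : ℂ)) =
        fun i => (p i : ℂ) + (n : ℂ) * vC v i := by
      funext i
      simp only [vC, vadd_eq_add, Pi.add_apply, Pi.smul_apply, smul_eq_mul]
      push_cast
      ring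
    rw [h3] at h2
    exact h2

/-- The dimension bound. -/
theorem asy_dim {A : Matrix (Fin r) (Fin r) ℚ} (hA : A.PosDef) {M : AffineSubspace ℝ (Fin r → ℝ)}
    (hM : ∀ x ∈ M, AsyModular (A.map fun x : ℚ => (x : ℝ)) x) :
    (Module.finrank ℝ M.direction : ℝ) ≤ charge (A.map fun x : ℚ => (x : ℝ)) ∅ Finset.univ ∧
      charge (A.map fun x : ℚ => (x : ℝ)) ∅ Finset.univ + Module.finrank ℝ M.direction ≤ r := by
  have hC : toC (A.map fun x : ℚ => (x : ℝ)) = A.map fun x : ℚ => (x : ℂ) := by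
    ext i j
    simp [toC]
  have h := (top_T0 (dat2 ⟨A, hA⟩).fd).1
  have hd := nondeg_dat2 ⟨A, hA⟩
  exact dim_le (posDef_real hA) (dat2 ⟨A, hA⟩).sol.pos (dat2 ⟨A, hA⟩).sol.isSol
    (by rw [← hC] at h; exact h) (by rw [← hC] at hd; exact hd)
    fun v hv k hk => top_zero_of_subset hA hM hv hk

/-- The asymptotically modular vectors form a union of a bounded number of affine subspaces, whose
dimensions are bounded by the effective central charge. -/
theorem asy_locus_dim (r : ℕ) : ∃ N : ℕ, ∀ A : Matrix (Fin r) (Fin r) ℚ, A.PosDef →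
    (∃ T : Finset (AffineSubspace ℝ (Fin r → ℝ)), T.card ≤ N ∧
      {x | AsyModular (A.map fun x : ℚ => (x : ℝ)) x} = ⋃ M ∈ T, (M : Set (Fin r → ℝ)) ∧
      ∀ M ∈ T,
        (Module.finrank ℝ M.direction : ℝ) ≤ charge (A.map fun x : ℚ => (x : ℝ)) ∅ Finset.univ ∧
        charge (A.map fun x : ℚ => (x : ℝ)) ∅ Finset.univ + Module.finrank ℝ M.direction ≤ r) ∧
    ∀ B : Fin r → ℚ, Admissible A B →
      AsyModular (A.map fun x : ℚ => (x : ℝ)) fun i => (B i : ℝ) := by
  obtain ⟨N, hN⟩ := asy_locus r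
  refine ⟨N, fun A hA => ⟨?_, (hN A hA).2⟩⟩
  obtain ⟨T, hT, hTe⟩ := (hN A hA).1
  refine ⟨T, hT, hTe, fun M hM => asy_dim hA fun x hx => ?_⟩
  have h1 : x ∈ ⋃ M ∈ T, (M : Set (Fin r → ℝ)) := Set.mem_biUnion hM hx
  rw [← hTe] at h1
  exact h1

end Pool.Agent.Lib.MP_8ce23f_nt.RR
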