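import Pool.Agent.Lib.MP_8ce23f_nt.RR.Hom

/-!
# The symbol map

As `R2/TMaps.lean`, for every rank.
-/

open Filter Topology Asymptotics MeasureTheory
open scoped Real

namespace Pool.Agent.Lib.MP_8ce23f_nt.RR

open Pool.Agent.Lib.MP_8ce23f_nt.R2 (rp Asy E2 Lam LamR Xi)

variable {r : ℕ}

/-- The degree condition. -/
def WB (R : PowerSeries (P r)) : Prop := ∀ k : ℕ, (PowerSeries.coeff k R).totalDegree ≤ k

/-- The top symbol. -/
noncomputable def T0 (R : PowerSeries (P r)) : PowerSeries (P r) :=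
  PowerSeries.mk fun k => MvPolynomial.homogeneousComponent k (PowerSeries.coeff k R)

/-- The operator `τ d/dτ`. -/
noncomputable def θ (y : PowerSeries (P r)) : PowerSeries (P r) :=
  PowerSeries.X * PowerSeries.derivative (P r) y

theorem coeff_T0 (R : PowerSeries (P r)) (k : ℕ) :
    PowerSeries.coeff k (T0 R) = MvPolynomial.homogeneousComponent k (PowerSeries.coeff k R) := by
  exact PowerSeries.coeff_mk _ _

theorem TMaps_natCast (k : ℕ) : (k : P r) = MvPolynomial.C (k : ℂ) := by
  rw [map_natCast]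

theorem T0_mul {R S : PowerSeries (P r)} (hR : WB R) (hS : WB S) :
    T0 (R * S) = T0 R * T0 S := by
  ext1 k
  rw [coeff_T0, PowerSeries.coeff_mul, PowerSeries.coeff_mul, map_sum]
  refine Finset.sum_congr rfl fun p hp => ?_
  rw [Finset.HasAntidiagonal.mem_antidiagonal] at hp
  rw [← hp, hom_mul (hR p.1) (hS p.2), coeff_T0, coeff_T0]

theorem T0_add (R S : PowerSeries (P r)) : T0 (R + S) = T0 R + T0 S := by
  ext1 k
  rw [coeff_T0, map_add, map_add, map_add, coeff_T0, coeff_T0]

theorem T0_Cmul (z : ℂ) (R : PowerSeries (P r)) :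
    T0 (PowerSeries.C (MvPolynomial.C z) * R) = PowerSeries.C (MvPolynomial.C z) * T0 R := by
  ext1 k
  rw [coeff_T0, PowerSeries.coeff_C_mul, PowerSeries.coeff_C_mul,
    MvPolynomial.homogeneousComponent_C_mul, coeff_T0]

theorem T0_one : T0 (1 : PowerSeries (P r)) = 1 := by
  ext1 k
  rw [coeff_T0, PowerSeries.coeff_one]
  split_ifs with h
  · subst h
    rw [MvPolynomial.homogeneousComponent_zero, MvPolynomial.coeff_zero_one, map_one]
  · rw [map_zero]

theorem coeff_θ (y : PowerSeries (P r)) (k : ℕ) :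
    PowerSeries.coeff k (θ y) = (k : P r) * PowerSeries.coeff k y := by
  unfold θ
  rcases k with _ | k
  · rw [PowerSeries.coeff_zero_X_mul, Nat.cast_zero, zero_mul]
  · rw [PowerSeries.coeff_succ_X_mul, PowerSeries.coeff_derivative]
    push_cast
    ring

theorem T0_θ (R : PowerSeries (P r)) : T0 (θ R) = θ (T0 R) := by
  ext1 k
  rw [coeff_T0, coeff_θ, coeff_θ, coeff_T0, TMaps_natCast,
    MvPolynomial.homogeneousComponent_C_mul]

theorem TMaps_mul_zero {w y : PowerSeries (P r)} (hw : PowerSeries.constantCoeff w = 0) {k : ℕ}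
    (h : ∀ j < k, PowerSeries.coeff j y = 0) : PowerSeries.coeff k (w * y) = 0 := by
  rw [PowerSeries.coeff_mul]
  refine Finset.sum_eq_zero fun p hp => ?_
  rw [Finset.HasAntidiagonal.mem_antidiagonal] at hp
  rcases Nat.eq_zero_or_pos p.1 with h0 | h0
  · rw [h0, PowerSeries.coeff_zero_eq_constantCoeff_apply, hw, zero_mul]
  · rw [h p.2 (by omega), mul_zero]

/-- Uniqueness for `θ y = w y`. -/
theorem ode_unique {w y : PowerSeries (P r)} (hw : PowerSeries.constantCoeff w = 0)
    (hy : PowerSeries.constantCoeff y = 0) (h : θ y = w * y) : y = 0 := by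
  ext1 k
  rw [map_zero]
  induction k using Nat.strong_induction_on with
  | _ k ih =>
    rcases Nat.eq_zero_or_pos k with h0 | h0
    · rw [h0, PowerSeries.coeff_zero_eq_constantCoeff_apply, hy]
    · have h1 := congrArg (PowerSeries.coeff k) h
      rw [coeff_θ, TMaps_mul_zero hw ih] at h1
      have h2 : (k : P r) ≠ 0 := Nat.cast_ne_zero.2 (by omega)
      exact (mul_eq_zero.1 h1).resolve_left h2

/-- The derivative of the coefficients. -/
noncomputable def dc (l : Fin r) (y : PowerSeries (P r)) : PowerSeries (P r) :=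
  PowerSeries.mk fun k => MvPolynomial.pderiv l (PowerSeries.coeff k y)

theorem coeff_dc (l : Fin r) (y : PowerSeries (P r)) (k : ℕ) :
    PowerSeries.coeff k (dc l y) = MvPolynomial.pderiv l (PowerSeries.coeff k y) := by
  exact PowerSeries.coeff_mk _ _

theorem dc_mul (l : Fin r) (y z : PowerSeries (P r)) :
    dc l (y * z) = y * dc l z + dc l y * z := by
  ext1 k
  rw [coeff_dc, PowerSeries.coeff_mul, map_add, PowerSeries.coeff_mul,
    PowerSeries.coeff_mul, map_sum, ← Finset.sum_add_distrib]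
  refine Finset.sum_congr rfl fun p _ => ?_
  rw [Derivation.leibniz, coeff_dc, coeff_dc, smul_eq_mul, smul_eq_mul]
  ring

theorem dc_θ (l : Fin r) (y : PowerSeries (P r)) : dc l (θ y) = θ (dc l y) := by
  ext1 k
  rw [coeff_dc, coeff_θ, coeff_θ, coeff_dc, TMaps_natCast,
    ← MvPolynomial.smul_eq_C_mul, ← MvPolynomial.smul_eq_C_mul, Derivation.map_smul]

end Pool.Agent.Lib.MP_8ce23f_nt.RR
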